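import Pool.Agent.P.MP_6990a0_al.Basic

namespace Pool.Agent.P.MP_6990a0_al

open scoped Classical

set_option linter.unusedSectionVars false

variable {K : Type*} [Field K] [LinearOrder K] [IsStrictOrderedRing K] {Ω ι : Type*}
  {Γ : Type*} [Group Γ] [MulAction Γ Ω]

structure Act (π : Ω → ι) (s : Γ → Ω → K) : Prop where
  pos : ∀ g ω, 0 < s g ω
  mul : ∀ g h ω, s (g * h) ω = s g (h • ω) * s h ω
  fib : ∀ (g : Γ) ω ω', π ω = π ω' → π (g • ω) = π (g • ω')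
  const : ∀ g ω ω', π ω = π ω' → s g ω = s g ω'

def act (s : Γ → Ω → K) (g : Γ) (f : Ω → K) : Ω → K := fun ω => s g (g⁻¹ • ω) * f (g⁻¹ • ω)

structure Good (π : Ω → ι) (s : Γ → Ω → K) (E : Set (Ω → K)) : Prop where
  valid : ∀ x ∈ E, Valid π x
  add : ∀ x ∈ E, ∀ y ∈ E, pls π x y ∈ E
  smul : ∀ x ∈ E, ∀ t : K, 0 < t → t • x ∈ E
  inv : ∀ g, ∀ x ∈ E, act s g x ∈ E

def InvT (Γ : Type*) [Group Γ] [MulAction Γ Ω] (x : Ω → K) : Prop :=
  ∀ (g : Γ) ω, x ω ≠ 0 → x (g • ω) ≠ 0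

def Unopp (π : Ω → ι) (C : Set (Ω → K)) (x : Ω → K) : Prop := x ∈ C ∧ ∀ y ∈ C, pls π x y ≠ 0

def used (E : Set (Ω → K)) : Set Ω := {ω | ∃ x ∈ E, x ω ≠ 0}

def restr (π : Ω → ι) (J : Set ι) (C : Set (Ω → K)) : Set (Ω → K) :=
  {x | x ∈ C ∧ ∀ ω, π ω ∈ J → x ω = 0}

variable {π : Ω → ι} {s : Γ → Ω → K} {f m : Ω → K} {C E : Set (Ω → K)} {ω ω' : Ω}

theorem act_smul (g : Γ) (f : Ω → K) (ω : Ω) : act s g f (g • ω) = s g ω * f ω := by
  simp [act]

theorem Act.one (A : Act π s) (ω : Ω) : s 1 ω = 1 := by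
  have h := A.mul 1 1 ω
  rw [one_mul, one_smul] at h
  have := (A.pos 1 ω).ne'
  field_simp at h
  exact h.symm

theorem Act.fib_iff (A : Act π s) (g : Γ) : π (g • ω) = π (g • ω') ↔ π ω = π ω' := by
  refine ⟨fun h => ?_, A.fib g ω ω'⟩
  simpa using A.fib g⁻¹ _ _ h

theorem Act.act_act (A : Act π s) (g h : Γ) (f : Ω → K) :
    act s g (act s h f) = act s (g * h) f := by
  funext ω
  obtain ⟨ω, rfl⟩ : ∃ ω', ω = (g * h) • ω' := ⟨(g * h)⁻¹ • ω, (smul_inv_smul _ _).symm⟩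
  rw [act_smul, mul_smul, act_smul, act_smul, A.mul, mul_assoc]

theorem Act.act_one (A : Act π s) (f : Ω → K) : act s 1 f = f := by
  funext ω; simp [act, A.one]

theorem Act.act_ne_zero (A : Act π s) (g : Γ) : act s g f (g • ω) ≠ 0 ↔ f ω ≠ 0 := by
  rw [act_smul, mul_ne_zero_iff]
  exact ⟨fun h => h.2, fun h => ⟨(A.pos g ω).ne', h⟩⟩

theorem Act.act_ne_zero' (A : Act π s) (g : Γ) : act s g f ω ≠ 0 ↔ f (g⁻¹ • ω) ≠ 0 := by
  rw [← A.act_ne_zero (ω := g⁻¹ • ω) g, smul_inv_smul]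

theorem Act.valid (A : Act π s) (g : Γ) (hf : Valid π f) : Valid π (act s g f) := by
  refine ⟨fun ω => mul_nonneg (A.pos _ _).le (hf.1 _), fun ω ω' h1 h2 h3 => ?_⟩
  rw [A.act_ne_zero'] at h2 h3
  have := hf.2 _ _ (A.fib g⁻¹ _ _ h1) h2 h3
  simpa using this

theorem Act.nrm_act (A : Act π s) (g : Γ) (hf : Valid π f) (ω : Ω) :
    nrm π (act s g f) (π (g • ω)) = s g ω * nrm π f (π ω) := by
  rcases fib_cases (π := π) f (π ω) with h | ⟨a, ha, hfa⟩
  · rw [nrm_eq_zero h, mul_zero, nrm_eq_zero]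
    intro b hb
    by_contra h1
    rw [← ne_eq, A.act_ne_zero'] at h1
    exact h1 (h _ (by simpa using A.fib g⁻¹ _ _ hb))
  · rw [← A.fib g _ _ ha, (A.valid g hf).nrm_eq ((A.act_ne_zero g).2 hfa), act_smul, ← ha,
      hf.nrm_eq hfa, A.const g _ _ ha]

theorem Act.hh_act (A : Act π s) (g : Γ) (hf : Valid π f) :
    hh π (act s g f) = act s g (hh π f) := by
  funext ω
  obtain ⟨ω, rfl⟩ : ∃ ω', ω = g • ω' := ⟨g⁻¹ • ω, by simp⟩
  rw [act_smul]; unfold hh; rw [A.nrm_act g hf, act_smul]; ring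

theorem Act.bb_act (A : Act π s) (g : Γ) (m : Ω → K) : bb (act s g m) = act s g (bb m) := by
  funext ω
  simp only [bb, act]
  rw [mul_max_of_nonneg _ _ (A.pos _ _).le, mul_zero]

theorem act_add (g : Γ) (f f' : Ω → K) : act s g (f + f') = act s g f + act s g f' := by
  funext ω; simp [act, mul_add]

theorem act_zero (g : Γ) : act s g (0 : Ω → K) = 0 := by
  funext ω; simp [act]

theorem act_smul' (g : Γ) (t : K) (f : Ω → K) : act s g (t • f) = t • act s g f := by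
  funext ω; simp only [act, Pi.smul_apply, smul_eq_mul]; ring

theorem Act.add_act (A : Act π s) (g : Γ) {f' : Ω → K} (hf : Valid π f) (hf' : Valid π f') :
    pls π (act s g f) (act s g f') = act s g (pls π f f') := by
  unfold pls; rw [A.hh_act g hf, A.hh_act g hf', ← act_add, A.bb_act]

theorem Unopp.act {x : Ω → K} (A : Act π s) (hC : Good π s C) (hx : Unopp π C x) (g : Γ) :
    Unopp π C (act s g x) := by
  refine ⟨hC.inv g x hx.1, fun y hy h => hx.2 _ (hC.inv g⁻¹ y hy) ?_⟩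
  have := A.add_act g⁻¹ (hC.valid _ (hC.inv g x hx.1)) (hC.valid y hy)
  rw [A.act_act, inv_mul_cancel, A.act_one, h, act_zero] at this
  exact this

theorem Unopp.add [Finite Ω] {x c : Ω → K} (hC : Good π s C) (hx : Unopp π C x) (hc : c ∈ C) :
    Unopp π C (pls π x c) := by
  refine ⟨hC.add _ hx.1 _ hc, fun y hy h => ?_⟩
  obtain ⟨N, hN, h1⟩ := lemmaU (hC.valid _ hx.1) (hC.valid _ hc) (hC.valid _ hy)
    (Set.toFinite _) h
  exact hx.2 _ (hC.add _ (hC.add _ (hC.add _ hc _ (hC.smul _ (hC.add _ hx.1 _ hc) _ hN)) _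
    (hC.smul _ hy _ hN)) _ hy) h1

theorem Unopp.ne_zero {x : Ω → K} (hx : Unopp π C x) : x ≠ 0 := by
  rintro rfl
  exact hx.2 0 hx.1 valid_zero.add_zero

theorem Good.used_smul (A : Act π s) (hC : Good π s C) (g : Γ) (h : ω ∈ used C) :
    g • ω ∈ used C := by
  obtain ⟨x, hx, h1⟩ := h
  exact ⟨_, hC.inv g x hx, (A.act_ne_zero g).2 h1⟩

theorem Good.restr (A : Act π s) (hC : Good π s C) {J : Set ι}
    (hJ : ∀ (g : Γ) ω, π ω ∈ J → π (g • ω) ∈ J) : Good π s (restr π J C) := by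
  refine ⟨fun x hx => hC.valid x hx.1, fun x hx y hy => ⟨hC.add x hx.1 y hy.1, fun ω h => ?_⟩,
    fun x hx t ht => ⟨hC.smul x hx.1 t ht, fun ω h => by simp [hx.2 ω h]⟩,
    fun g x hx => ⟨hC.inv g x hx.1, fun ω h => ?_⟩⟩
  · by_contra h1
    rcases (hC.valid x hx.1).add_supp (hC.valid y hy.1) h1 with h2 | h2
    · exact h2 (hx.2 ω h)
    · exact h2 (hy.2 ω h)
  · by_contra h1
    rw [← ne_eq, A.act_ne_zero'] at h1
    exact h1 (hx.2 _ (hJ _ _ h))

theorem Unopp.restr {x : Ω → K} {J : Set ι} (hx : Unopp π C x) (h : ∀ ω, π ω ∈ J → x ω = 0) :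
    Unopp π (restr π J C) x :=
  ⟨⟨hx.1, h⟩, fun y hy => hx.2 y hy.1⟩

theorem used_restr_lt [Finite Ω] {J : Set ι} (h : ω ∈ used C) (h1 : π ω ∈ J) :
    (used (restr π J C)).ncard < (used C).ncard := by
  apply Set.ncard_lt_ncard _ (Set.toFinite _)
  refine ⟨fun a ⟨x, hx, h2⟩ => ⟨x, hx.1, h2⟩, fun h2 => ?_⟩
  obtain ⟨x, hx, h3⟩ := h2 h
  exact h3 (hx.2 ω h1)

/-- adding compatible points does not lose support -/
theorem Valid.add_ne_zero_of_compat {g : Ω → K} (hf : Valid π f) (hg : Valid π g) (h : f ω ≠ 0)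
    (h1 : ∀ a, π a = π ω → g a ≠ 0 → a = ω) : pls π f g ω ≠ 0 := by
  rw [add_ne_zero_iff, hf.hh_self h]
  have := hf.pos h
  by_cases h2 : g ω = 0
  · rw [hh_fib_zero]
    · linarith
    · intro a ha; by_contra h3; exact h3 (h1 a ha h3 ▸ h2)
  · rw [hg.hh_self h2]; have := hg.1 ω; linarith

/-- a point whose translates are compatible gives a point with invariant type -/
theorem Good.compat_orbit [Finite Ω] (A : Act π s) (hC : Good π s C) {y : Ω → K} (hy : y ∈ C)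
    (hy0 : y ≠ 0)
    (h : ∀ (g : Γ) ω ω', y ω ≠ 0 → y ω' ≠ 0 → π (g • ω') = π ω → g • ω' = ω) :
    ∃ x ∈ C, x ≠ 0 ∧ InvT Γ x := by
  set T : Set Ω := {a | ∃ (g : Γ) (ω : Ω), y ω ≠ 0 ∧ a = g • ω} with hT
  have hinj : ∀ a ∈ T, ∀ b ∈ T, π a = π b → a = b := by
    rintro _ ⟨g, ω, h1, rfl⟩ _ ⟨g', ω', h2, rfl⟩ h3
    have := h (g⁻¹ * g') ω ω' h1 h2 (by
      have := A.fib g⁻¹ _ _ h3
      rw [inv_smul_smul] at this
      rw [mul_smul]; exact this.symm)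
    rw [← this, mul_smul, smul_inv_smul]
  have key : ∀ B : Finset Ω, (↑B : Set Ω) ⊆ T →
      ∃ x ∈ C, x ≠ 0 ∧ (∀ a, x a ≠ 0 → a ∈ T) ∧ ∀ a ∈ B, x a ≠ 0 := by
    intro B
    induction B using Finset.induction_on with
    | empty => exact fun _ => ⟨y, hy, hy0, fun a ha => ⟨1, a, ha, by simp⟩, by simp⟩
    | insert a B _ ih =>
      intro hB
      obtain ⟨x, hx, -, hxT, hxB⟩ := ih (fun b hb => hB (by simp [Finset.mem_coe.1 hb]))
      obtain ⟨g, ω, h1, h2⟩ : a ∈ T := hB (by simp)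
      have hu := hC.inv g y hy
      have huT : ∀ b, act s g y b ≠ 0 → b ∈ T := fun b hb =>
        ⟨g, g⁻¹ • b, (A.act_ne_zero' g).1 hb, by simp⟩
      have hua : act s g y a ≠ 0 := by rw [h2]; exact (A.act_ne_zero g).2 h1
      have ha : pls π x (act s g y) a ≠ 0 := by
        rw [add_comm']
        exact (hC.valid _ hu).add_ne_zero_of_compat (hC.valid _ hx) hua
          fun b hb h3 => hinj _ (hxT b h3) _ (huT a hua) hb
      refine ⟨_, hC.add _ hx _ hu, fun h3 => ha (by rw [h3]; rfl), fun b hb => ?_, fun b hb => ?_⟩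
      · rcases (hC.valid _ hx).add_supp (hC.valid _ hu) hb with h3 | h3
        · exact hxT b h3
        · exact huT b h3
      · rcases Finset.mem_insert.1 hb with rfl | hb
        · exact ha
        · exact (hC.valid _ hx).add_ne_zero_of_compat (hC.valid _ hu) (hxB b hb)
            fun c hc h3 => hinj _ (huT c h3) _ (hxT b (hxB b hb)) hc
  obtain ⟨x, hx, hx0, hxT, hxB⟩ := key (Set.toFinite T).toFinset (by simp)
  refine ⟨x, hx, hx0, fun g ω h1 => hxB _ ?_⟩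
  obtain ⟨g', ω', h2, rfl⟩ := hxT ω h1
  simp only [Set.Finite.mem_toFinset]
  exact ⟨g * g', ω', h2, by rw [mul_smul]⟩

theorem exists_min_unopp [Finite Ω] (h : ∃ x, Unopp π C x) :
    ∃ x, Unopp π C x ∧ ∀ x', Unopp π C x' → ∀ ω, (∀ a, x' a ≠ 0 → x a ≠ 0) → x ω ≠ 0 → x' ω ≠ 0 := by
  obtain ⟨x, hx, hmin⟩ := exists_minimalFor_of_wellFoundedLT (fun x => Unopp π C x)
    (fun x => (Function.support x).ncard) h
  refine ⟨x, hx, fun x' hx' ω h1 h2 h3 => ?_⟩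
  have : (Function.support x').ncard < (Function.support x).ncard := by
    apply Set.ncard_lt_ncard _ (Set.toFinite _)
    exact ⟨fun a ha => h1 a ha, fun h4 => h4 h2 h3⟩
  exact absurd (hmin hx' this.le) (not_le.2 this)

end Pool.Agent.P.MP_6990a0_al
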