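import Pool.Agent.P.MP_6990a0_al.Act

namespace Pool.Agent.P.MP_6990a0_al

open scoped Classical
open Filter Topology

set_option linter.unusedSectionVars false

variable {Ω ι : Type*} {Γ : Type*} [Group Γ] [MulAction Γ Ω]

def MM (π : Ω → ι) (C : Set (Ω → ℝ)) : Set (Ω → ℝ) :=
  {m | ∃ l : List (Ω → ℝ), (∀ x ∈ l, x ∈ C) ∧ m = (l.map (hh π)).sum}

variable {π : Ω → ι} {s : Γ → Ω → ℝ} {f m m' : Ω → ℝ} {C : Set (Ω → ℝ)} {ω ω' : Ω}

theorem MM.zero : (0 : Ω → ℝ) ∈ MM π C := ⟨[], by simp, by simp⟩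

theorem MM.of {x : Ω → ℝ} (hx : x ∈ C) : hh π x ∈ MM π C := ⟨[x], by simpa using hx, by simp⟩

theorem MM.add (h : m ∈ MM π C) (h' : m' ∈ MM π C) : m + m' ∈ MM π C := by
  obtain ⟨l, hl, rfl⟩ := h
  obtain ⟨l', hl', rfl⟩ := h'
  refine ⟨l ++ l', fun x hx => ?_, by simp⟩
  rcases List.mem_append.1 hx with h | h
  · exact hl x h
  · exact hl' x h

theorem MM.sum {α : Type*} (B : Finset α) {F : α → Ω → ℝ} (h : ∀ a ∈ B, F a ∈ MM π C) :
    ∑ a ∈ B, F a ∈ MM π C :=
  Finset.sum_induction _ (· ∈ MM π C) (fun _ _ => MM.add) MM.zero h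

theorem MM.induction {P : (Ω → ℝ) → Prop} (h : m ∈ MM π C) (h0 : P 0)
    (h1 : ∀ x ∈ C, ∀ m, P m → P (hh π x + m)) : P m := by
  obtain ⟨l, hl, rfl⟩ := h
  induction l with
  | nil => simpa using h0
  | cons x l ih =>
    simp only [List.map_cons, List.sum_cons]
    exact h1 x (hl x (by simp)) _ (ih fun y hy => hl y (by simp [hy]))

theorem MM.smul (hC : Good π s C) (h : m ∈ MM π C) {t : ℝ} (ht : 0 ≤ t) : t • m ∈ MM π C := by
  rcases ht.eq_or_lt with rfl | ht
  · simpa using MM.zero
  refine MM.induction (P := fun m => t • m ∈ MM π C) h (by simpa using MM.zero) ?_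
  intro x hx m hm
  rw [smul_add, ← (hC.valid x hx).hh_smul]
  exact MM.add (MM.of (hC.smul x hx t ht)) hm

theorem MM.act (A : Act π s) (hC : Good π s C) (h : m ∈ MM π C) (g : Γ) :
    act s g m ∈ MM π C := by
  refine MM.induction (P := fun m => Pool.Agent.P.MP_6990a0_al.act s g m ∈ MM π C) h
    (by rw [act_zero]; exact MM.zero) ?_
  intro x hx m hm
  rw [act_add, ← A.hh_act g (hC.valid x hx)]
  exact MM.add (MM.of (hC.inv g x hx)) hm

theorem MM.adm (hC : Good π s C) (h : m ∈ MM π C) : Adm π m :=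
  MM.induction (P := fun m => Adm π m) h adm_zero fun x hx _ hm => (hC.valid x hx).adm.add hm

theorem MM.unused (hC : Good π s C) (h : m ∈ MM π C) (hω : ω ∉ used C) : m ω ≤ 0 := by
  refine MM.induction (P := fun m => m ω ≤ 0) h le_rfl fun x hx m hm => ?_
  have : x ω = 0 := by by_contra h1; exact hω ⟨x, hx, h1⟩
  have := (hC.valid x hx).hh_nonpos this
  simp only [Pi.add_apply]; linarith

theorem step_props (hC : Good π s C) (ω : Ω) (l : List (Ω → ℝ)) (hl : ∀ x ∈ l, x ∈ C) :
    ∃ D : ℝ, 0 ≤ D ∧ ∀ τ ∈ C, l.foldl (pls π) τ ∈ C ∧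
      hh π τ ω + (l.map (hh π)).sum ω ≤ hh π (l.foldl (pls π) τ) ω ∧
      l.foldl (pls π) τ ω ≤ τ ω + D ∧
      (D < τ ω → l.foldl (pls π) τ ω = τ ω + (l.map (hh π)).sum ω) := by
  induction l with
  | nil => exact ⟨0, le_rfl, fun τ hτ => ⟨hτ, by simp, by simp, by simp⟩⟩
  | cons x l ih =>
    obtain ⟨D, hD, h⟩ := ih fun y hy => hl y (by simp [hy])
    have hx : x ∈ C := hl x (by simp)
    have vx := hC.valid x hx
    refine ⟨D + nrm π x (π ω), add_nonneg hD (vx.nrm_nonneg _), fun τ hτ => ?_⟩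
    have vτ := hC.valid τ hτ
    obtain ⟨h1, h2, h3, h4⟩ := h _ (hC.add τ hτ x hx)
    simp only [List.foldl_cons, List.map_cons, List.sum_cons, Pi.add_apply]
    have a1 := vτ.le_hh_add vx ω
    have a2 := vτ.hh_le ω
    have a3 := vx.hh_le_nrm ω
    have a4 := vx.neg_nrm_le ω
    have a5 := vτ.1 ω
    have a6 := vx.nrm_nonneg (π ω)
    refine ⟨h1, by linarith, ?_, fun h5 => ?_⟩
    · have : pls π τ x ω ≤ τ ω + nrm π x (π ω) := by
        rw [add_apply]; exact max_le (by linarith) (by linarith)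
      linarith
    · have b1 : hh π τ ω = τ ω := vτ.hh_self (by linarith)
      have b2 : pls π τ x ω = τ ω + hh π x ω := by
        rw [add_apply, b1, max_eq_left (by linarith)]
      rw [h4 (by rw [b2]; linarith), b2]; ring

/-- weighted barycentres lie in a closed convex cone -/
theorem MM.bb_mem (hC : Good π s C) (hcl : IsClosed C) (h0 : (0 : Ω → ℝ) ∈ C)
    (h : m ∈ MM π C) : bb m ∈ C := by
  obtain ⟨l, hl, hm⟩ := h
  set F : (Ω → ℝ) → (Ω → ℝ) := fun τ => l.foldl (pls π) τ with hF
  have mem : ∀ n : ℕ, F^[n] 0 ∈ C := by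
    intro n
    induction n with
    | zero => exact h0
    | succ n ih =>
      rw [Function.iterate_succ_apply']
      exact List.foldlRecOn (motive := fun τ => τ ∈ C) l (pls π) ih
          fun τ hτ x hx => hC.add τ hτ x (hl x hx)
  have lim : Tendsto (fun n : ℕ => (1 / ((n : ℝ) + 1)) • F^[n + 1] 0) atTop (𝓝 (bb m)) := by
    rw [tendsto_pi_nhds]
    intro ω
    obtain ⟨D, hD, hs⟩ := step_props hC ω l hl
    rw [← hm] at hs
    have low : ∀ n : ℕ, (n : ℝ) * m ω ≤ hh π (F^[n] 0) ω := by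
      intro n
      induction n with
      | zero => simp [hh_zero_fun]
      | succ n ih =>
        rw [Function.iterate_succ_apply']
        have := (hs _ (mem n)).2.1
        push_cast; linarith
    have hb : 0 ≤ bb m ω := le_max_right _ _
    have hb' : m ω ≤ bb m ω := le_max_left _ _
    have up : ∀ n : ℕ, F^[n] 0 ω ≤ 2 * D + n * bb m ω := by
      intro n
      induction n with
      | zero => simp; linarith
      | succ n ih =>
        rw [Function.iterate_succ_apply']
        obtain ⟨-, -, h3, h4⟩ := hs _ (mem n)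
        push_cast
        by_cases h5 : D < F^[n] 0 ω
        · have := h4 h5
          change F (F^[n] 0) ω = _ at this
          rw [this]; linarith
        · have : 0 ≤ ((n : ℝ) + 1) * bb m ω := by positivity
          change F (F^[n] 0) ω ≤ _ at h3
          linarith
    have low' : ∀ n : ℕ, (n : ℝ) * bb m ω ≤ F^[n] 0 ω := by
      intro n
      have v := hC.valid _ (mem n)
      unfold bb
      rw [mul_max_of_nonneg _ _ (Nat.cast_nonneg n), mul_zero]
      exact max_le ((low n).trans (v.hh_le ω)) (v.1 ω)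
    have t1 : Tendsto (fun n : ℕ => 2 * D * (1 / ((n : ℝ) + 1)) + bb m ω) atTop
        (𝓝 (2 * D * 0 + bb m ω)) :=
      (tendsto_one_div_add_atTop_nhds_zero_nat.const_mul _).add_const _
    rw [mul_zero, zero_add] at t1
    refine tendsto_of_tendsto_of_tendsto_of_le_of_le tendsto_const_nhds t1 (fun n => ?_) (fun n => ?_)
    · have := low' (n + 1)
      push_cast at this
      simp only [Pi.smul_apply, smul_eq_mul]
      have p : (0 : ℝ) < n + 1 := by positivity
      rw [one_div, ← div_eq_inv_mul, le_div_iff₀ p]; linarith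
    · have := up (n + 1)
      push_cast at this
      simp only [Pi.smul_apply, smul_eq_mul]
      have p : (0 : ℝ) < n + 1 := by positivity
      rw [one_div, ← div_eq_inv_mul, div_le_iff₀ p]
      field_simp
      linarith
  exact hcl.mem_of_tendsto lim (Eventually.of_forall fun n =>
    hC.smul _ (mem _) _ (by positivity))

end Pool.Agent.P.MP_6990a0_al
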