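import Mathlib

namespace Pool.Agent.P.MP_6990a0_al

open scoped Classical

set_option linter.unusedSectionVars false

variable {K : Type*} [Field K] [LinearOrder K] [IsStrictOrderedRing K] {Ω ι : Type*}

def Valid (π : Ω → ι) (f : Ω → K) : Prop :=
  (∀ ω, 0 ≤ f ω) ∧ ∀ ω ω', π ω = π ω' → f ω ≠ 0 → f ω' ≠ 0 → ω = ω'

noncomputable def nrm (π : Ω → ι) (f : Ω → K) (i : ι) : K := ∑ᶠ ω, if π ω = i then f ω else 0

noncomputable def hh (π : Ω → ι) (f : Ω → K) : Ω → K := fun ω => 2 * f ω - nrm π f (π ω)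

def bb (m : Ω → K) : Ω → K := fun ω => max (m ω) 0

noncomputable def pls (π : Ω → ι) (f g : Ω → K) : Ω → K := bb (hh π f + hh π g)

def Adm (π : Ω → ι) (m : Ω → K) : Prop := ∀ ω ω', π ω = π ω' → ω ≠ ω' → m ω + m ω' ≤ 0

variable {π : Ω → ι} {f g m : Ω → K} {ω ω' : Ω}

theorem nrm_eq_zero {i : ι} (h : ∀ ω, π ω = i → f ω = 0) : nrm π f i = 0 := by
  unfold nrm
  have : (fun ω => if π ω = i then f ω else 0) = fun _ => (0 : K) := by
    funext ω; split_ifs with h1
    · exact h ω h1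
    · rfl
  rw [this, finsum_zero]

theorem nrm_eq_of (h : ∀ ω', π ω' = π ω → ω' ≠ ω → f ω' = 0) : nrm π f (π ω) = f ω := by
  unfold nrm
  rw [finsum_eq_single _ ω]
  · simp
  · intro x hx
    split_ifs with h1
    · exact h x h1 hx
    · rfl

theorem Valid.zero_of_ne (hf : Valid π f) (h : f ω ≠ 0) (h1 : π ω' = π ω) (h2 : ω' ≠ ω) :
    f ω' = 0 := by
  by_contra h3
  exact h2 (hf.2 _ _ h1 h3 h)

theorem Valid.pos (hf : Valid π f) (h : f ω ≠ 0) : 0 < f ω := lt_of_le_of_ne (hf.1 ω) (Ne.symm h)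

theorem Valid.nrm_eq (hf : Valid π f) (h : f ω ≠ 0) : nrm π f (π ω) = f ω :=
  nrm_eq_of fun _ h1 h2 => hf.zero_of_ne h h1 h2

theorem fib_cases (f : Ω → K) (i : ι) :
    (∀ ω, π ω = i → f ω = 0) ∨ ∃ a, π a = i ∧ f a ≠ 0 := by
  by_cases h : ∃ a, π a = i ∧ f a ≠ 0
  · exact Or.inr h
  · left; intro ω h1; by_contra h2; exact h ⟨ω, h1, h2⟩

theorem Valid.nrm_nonneg (hf : Valid π f) (i : ι) : 0 ≤ nrm π f i := by
  rcases fib_cases (π := π) f i with h | ⟨a, rfl, ha⟩
  · rw [nrm_eq_zero h]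
  · rw [hf.nrm_eq ha]; exact hf.1 a

theorem Valid.le_nrm (hf : Valid π f) (ω : Ω) : f ω ≤ nrm π f (π ω) := by
  by_cases h : f ω = 0
  · rw [h]; exact hf.nrm_nonneg _
  · rw [hf.nrm_eq h]

theorem Valid.hh_self (hf : Valid π f) (h : f ω ≠ 0) : hh π f ω = f ω := by
  unfold hh; rw [hf.nrm_eq h]; ring

theorem hh_zero (h : f ω = 0) : hh π f ω = -nrm π f (π ω) := by
  unfold hh; rw [h]; ring

theorem Valid.hh_le (hf : Valid π f) (ω : Ω) : hh π f ω ≤ f ω := by
  unfold hh; have := hf.le_nrm ω; linarith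

theorem Valid.hh_le_nrm (hf : Valid π f) (ω : Ω) : hh π f ω ≤ nrm π f (π ω) :=
  (hf.hh_le ω).trans (hf.le_nrm ω)

theorem Valid.neg_nrm_le (hf : Valid π f) (ω : Ω) : -nrm π f (π ω) ≤ hh π f ω := by
  unfold hh; have := hf.1 ω; linarith

theorem Valid.hh_nonpos (hf : Valid π f) (h : f ω = 0) : hh π f ω ≤ 0 := by
  have := hf.hh_le ω; rwa [h] at this

theorem Valid.ne_of_hh_pos (hf : Valid π f) (h : 0 < hh π f ω) : f ω ≠ 0 := by
  intro h1; exact absurd (hf.hh_nonpos h1) (not_le.2 h)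

theorem Valid.adm (hf : Valid π f) : Adm π (hh π f) := by
  intro ω ω' h1 h2
  by_cases h : f ω = 0
  · rw [hh_zero h, h1]; have := hf.hh_le_nrm ω'; linarith
  · rw [hh_zero (hf.zero_of_ne h h1.symm (Ne.symm h2)), ← h1]
    have := hf.hh_le_nrm ω; linarith

theorem Adm.add {m' : Ω → K} (h : Adm π m) (h' : Adm π m') : Adm π (m + m') := by
  intro ω ω' h1 h2
  have := h ω ω' h1 h2; have := h' ω ω' h1 h2
  simp only [Pi.add_apply]; linarith

theorem adm_zero : Adm π (0 : Ω → K) := by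
  intro ω ω' _ _; simp

theorem Adm.smul (h : Adm π m) {t : K} (ht : 0 ≤ t) : Adm π (t • m) := by
  intro ω ω' h1 h2
  have := h ω ω' h1 h2
  simp only [Pi.smul_apply, smul_eq_mul]; nlinarith

theorem bb_ne_zero : bb m ω ≠ 0 ↔ 0 < m ω := by
  unfold bb
  constructor
  · intro h; by_contra h1; exact h (max_eq_right (not_lt.1 h1))
  · intro h; rw [max_eq_left h.le]; exact h.ne'

theorem bb_eq_zero : bb m ω = 0 ↔ m ω ≤ 0 := by
  rw [← not_lt, ← bb_ne_zero, not_not]

theorem bb_of_nonneg (h : 0 ≤ m ω) : bb m ω = m ω := max_eq_left h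

theorem Adm.valid (h : Adm π m) : Valid π (bb m) := by
  refine ⟨fun ω => le_max_right _ _, fun ω ω' h1 h2 h3 => ?_⟩
  by_contra h4
  have := h ω ω' h1 h4
  rw [bb_ne_zero] at h2 h3
  linarith

theorem Adm.nrm_bb (h : Adm π m) (h0 : 0 ≤ m ω) : nrm π (bb m) (π ω) = m ω := by
  rw [nrm_eq_of, bb_of_nonneg h0]
  intro ω' h1 h2
  rw [bb_eq_zero]
  have := h ω' ω h1 h2
  linarith

theorem Adm.hh_bb (h : Adm π m) (h0 : 0 ≤ m ω) : hh π (bb m) ω = m ω := by
  unfold hh; rw [h.nrm_bb h0, bb_of_nonneg h0]; ring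

theorem Adm.bb_fib (h : Adm π m) (h0 : 0 ≤ m ω) (h1 : π ω' = π ω) (h2 : ω' ≠ ω) :
    bb m ω' = 0 := by
  rw [bb_eq_zero]
  have := h ω' ω h1 h2
  linarith

theorem Adm.le_hh_bb (h : Adm π m) (ω : Ω) : m ω ≤ hh π (bb m) ω := by
  by_cases h0 : 0 ≤ m ω
  · rw [h.hh_bb h0]
  · have h0' := not_le.1 h0
    rw [hh_zero (bb_eq_zero.2 h0'.le)]
    rcases fib_cases (π := π) (bb m) (π ω) with h1 | ⟨a, ha, ha'⟩
    · rw [nrm_eq_zero h1]; linarith
    · rw [bb_ne_zero] at ha'
      rw [← ha, h.nrm_bb ha'.le]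
      have hne : a ≠ ω := by rintro rfl; linarith
      have := h a ω ha hne
      linarith

theorem Valid.bb_hh (hf : Valid π f) : bb (hh π f) = f := by
  funext ω
  by_cases h : f ω = 0
  · rw [h, bb_eq_zero]; exact hf.hh_nonpos h
  · rw [bb_of_nonneg, hf.hh_self h]; rw [hf.hh_self h]; exact hf.1 ω

theorem valid_zero : Valid π (0 : Ω → K) := ⟨fun _ => le_rfl, fun _ _ _ h => absurd rfl h⟩

theorem hh_zero_fun : hh π (0 : Ω → K) = 0 := by
  funext ω
  rw [hh_zero (f := (0 : Ω → K)) (ω := ω) rfl, nrm_eq_zero (f := (0 : Ω → K)) (fun _ _ => rfl)]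
  simp

theorem Valid.adm_add (hf : Valid π f) (hg : Valid π g) : Adm π (hh π f + hh π g) :=
  hf.adm.add hg.adm

theorem Valid.add (hf : Valid π f) (hg : Valid π g) : Valid π (pls π f g) :=
  (hf.adm_add hg).valid

theorem add_comm' (f g : Ω → K) : pls π f g = pls π g f := by
  unfold pls; rw [add_comm]

theorem add_apply (f g : Ω → K) (ω : Ω) : pls π f g ω = max (hh π f ω + hh π g ω) 0 := rfl

theorem add_eq_zero_iff : pls π f g ω = 0 ↔ hh π f ω + hh π g ω ≤ 0 := bb_eq_zero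

theorem add_ne_zero_iff : pls π f g ω ≠ 0 ↔ 0 < hh π f ω + hh π g ω := bb_ne_zero

theorem Valid.le_hh_add (hf : Valid π f) (hg : Valid π g) (ω : Ω) :
    hh π f ω + hh π g ω ≤ hh π (pls π f g) ω :=
  (hf.adm_add hg).le_hh_bb ω

theorem Valid.hh_add_of_nonneg (hf : Valid π f) (hg : Valid π g) (h : 0 ≤ hh π f ω + hh π g ω) :
    hh π (pls π f g) ω = hh π f ω + hh π g ω :=
  (hf.adm_add hg).hh_bb h

theorem Valid.add_supp (hf : Valid π f) (hg : Valid π g)
    (h : pls π f g ω ≠ 0) : f ω ≠ 0 ∨ g ω ≠ 0 := by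
  rw [add_ne_zero_iff] at h
  by_contra h1
  push Not at h1
  have := hf.hh_nonpos h1.1; have := hg.hh_nonpos h1.2
  linarith

/-- cancellation on a whole fibre -/
theorem Valid.add_fib_zero (hf : Valid π f) (hg : Valid π g) (h : hh π f ω + hh π g ω = 0)
    (h1 : π ω' = π ω) : pls π f g ω' = 0 := by
  by_cases h2 : ω' = ω
  · rw [h2, add_eq_zero_iff, h]
  · exact (hf.adm_add hg).bb_fib (ω := ω) (by simp [h]) h1 h2

theorem nrm_congr {i : ι} (h : ∀ ω, π ω = i → f ω = g ω) : nrm π f i = nrm π g i := by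
  unfold nrm
  congr 1; funext ω
  split_ifs with h1
  · exact h ω h1
  · rfl

theorem hh_congr (h : ∀ ω', π ω' = π ω → f ω' = g ω') : hh π f ω = hh π g ω := by
  unfold hh; rw [nrm_congr h, h ω rfl]

theorem hh_fib_zero (h : ∀ ω', π ω' = π ω → f ω' = 0) : hh π f ω = 0 := by
  rw [hh_zero (h ω rfl), nrm_eq_zero h, neg_zero]

theorem Valid.add_of_fib_zero (hf : Valid π f) (h : ∀ ω', π ω' = π ω → g ω' = 0) :
    pls π f g ω = f ω := by
  rw [add_apply, hh_fib_zero h, add_zero]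
  exact congrFun hf.bb_hh ω

theorem Valid.add_zero (hf : Valid π f) : pls π f 0 = f := by
  funext ω; exact hf.add_of_fib_zero fun _ _ => rfl

theorem Valid.smul (hf : Valid π f) {t : K} (ht : 0 ≤ t) : Valid π (t • f) := by
  refine ⟨fun ω => mul_nonneg ht (hf.1 ω), fun ω ω' h1 h2 h3 => hf.2 ω ω' h1 ?_ ?_⟩
  · intro h; apply h2; simp [h]
  · intro h; apply h3; simp [h]

theorem Valid.nrm_smul (hf : Valid π f) (t : K) (i : ι) : nrm π (t • f) i = t * nrm π f i := by
  rcases fib_cases (π := π) f i with h | ⟨a, rfl, ha⟩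
  · rw [nrm_eq_zero h, nrm_eq_zero, mul_zero]
    intro ω h1; simp [h ω h1]
  · rw [hf.nrm_eq ha, nrm_eq_of]
    · simp
    · intro ω' h1 h2; simp [hf.zero_of_ne ha h1 h2]

theorem Valid.hh_smul (hf : Valid π f) (t : K) : hh π (t • f) = t • hh π f := by
  funext ω; simp only [hh, hf.nrm_smul, Pi.smul_apply, smul_eq_mul]; ring

theorem bb_smul {t : K} (ht : 0 ≤ t) : bb (t • m) = t • bb m := by
  funext ω; simp only [bb, Pi.smul_apply, smul_eq_mul]
  rw [mul_max_of_nonneg _ _ ht, mul_zero]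

/-- `hh` at `q` is additive unless the two points sit on two different rays other than `q`. -/
theorem Valid.hh_add_eq {q : Ω} (hf : Valid π f) (hg : Valid π g)
    (h : ∀ a c, π a = π q → π c = π q → a ≠ q → c ≠ q → f a ≠ 0 → g c ≠ 0 → a = c) :
    hh π (pls π f g) q = hh π f q + hh π g q := by
  by_cases h0 : 0 ≤ hh π f q + hh π g q
  · exact hf.hh_add_of_nonneg hg h0
  have h0' := not_le.1 h0
  -- find a ray d ≠ q in the fibre at which both `hh` are the negatives
  have key : ∃ d, π d = π q ∧ d ≠ q ∧ hh π f d = -hh π f q ∧ hh π g d = -hh π g q := by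
    have aux : ∀ {u : Ω → K}, Valid π u → ∀ d, π d = π q → d ≠ q →
        (∀ a, π a = π q → a ≠ q → u a ≠ 0 → a = d) → hh π u d = -hh π u q := by
      intro u hu d hd hdq hall
      by_cases h1 : u q = 0
      · rw [hh_zero h1, neg_neg]
        by_cases h2 : u d = 0
        · have : ∀ ω', π ω' = π q → u ω' = 0 := by
            intro ω' h3; by_contra h4
            by_cases h5 : ω' = q
            · exact h4 (h5 ▸ h1)
            · exact h4 (hall ω' h3 h5 h4 ▸ h2)
          rw [nrm_eq_zero this, hh_fib_zero]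
          intro ω' h3; exact this ω' (h3.trans hd)
        · rw [hu.hh_self h2, ← hd, hu.nrm_eq h2]
      · rw [hu.hh_self h1, hh_zero (hu.zero_of_ne h1 hd hdq), hd, hu.nrm_eq h1]
    by_cases h1 : ∃ a, π a = π q ∧ a ≠ q ∧ f a ≠ 0
    · obtain ⟨a, ha, haq, hfa⟩ := h1
      refine ⟨a, ha, haq, aux hf a ha haq ?_, aux hg a ha haq ?_⟩
      · intro b hb _ hfb; exact hf.2 _ _ (hb.trans ha.symm) hfb hfa
      · intro c hc hcq hgc; exact (h a c ha hc haq hcq hfa hgc).symm
    · by_cases h2 : ∃ c, π c = π q ∧ c ≠ q ∧ g c ≠ 0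
      · obtain ⟨c, hc, hcq, hgc⟩ := h2
        refine ⟨c, hc, hcq, aux hf c hc hcq ?_, aux hg c hc hcq ?_⟩
        · intro b hb hbq hfb; exact absurd ⟨b, hb, hbq, hfb⟩ h1
        · intro b hb _ hgb; exact hg.2 _ _ (hb.trans hc.symm) hgb hgc
      · exfalso
        have e1 : nrm π f (π q) = f q := nrm_eq_of fun ω' h3 h4 => by
          by_contra h5; exact h1 ⟨ω', h3, h4, h5⟩
        have e2 : nrm π g (π q) = g q := nrm_eq_of fun ω' h3 h4 => by
          by_contra h5; exact h2 ⟨ω', h3, h4, h5⟩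
        unfold hh at h0'
        rw [e1, e2] at h0'
        have := hf.1 q; have := hg.1 q
        linarith
  obtain ⟨d, hd, hdq, e1, e2⟩ := key
  have h3 : 0 ≤ (hh π f + hh π g) d := by simp only [Pi.add_apply]; linarith
  have h4 : pls π f g q = 0 := add_eq_zero_iff.2 h0'.le
  rw [hh_zero h4, ← hd]
  unfold pls
  rw [(hf.adm_add hg).nrm_bb h3]
  simp only [Pi.add_apply]; linarith

theorem Valid.hh_add_lt {q a c : Ω} (hf : Valid π f) (hg : Valid π g) (ha : π a = π q)
    (hc : π c = π q) (haq : a ≠ q) (hcq : c ≠ q) (hac : a ≠ c) (hfa : f a ≠ 0) (hgc : g c ≠ 0) :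
    hh π f q + hh π g q < hh π (pls π f g) q := by
  have f1 : f q = 0 := hf.zero_of_ne hfa ha.symm (Ne.symm haq)
  have g1 : g q = 0 := hg.zero_of_ne hgc hc.symm (Ne.symm hcq)
  have f2 : f c = 0 := hf.zero_of_ne hfa (hc.trans ha.symm) (Ne.symm hac)
  have g2 : g a = 0 := hg.zero_of_ne hgc (ha.trans hc.symm) hac
  have nf : nrm π f (π q) = f a := by rw [← ha, hf.nrm_eq hfa]
  have ng : nrm π g (π q) = g c := by rw [← hc, hg.nrm_eq hgc]
  have pf := hf.pos hfa
  have pg := hg.pos hgc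
  have h4 : pls π f g q = 0 := by
    rw [add_eq_zero_iff, hh_zero f1, hh_zero g1, nf, ng]; linarith
  rw [hh_zero h4, hh_zero f1, hh_zero g1, nf, ng]
  have ea : (hh π f + hh π g) a = f a - g c := by
    simp only [Pi.add_apply]; rw [hf.hh_self hfa, hh_zero g2, ha, ng]; ring
  have ec : (hh π f + hh π g) c = g c - f a := by
    simp only [Pi.add_apply]; rw [hg.hh_self hgc, hh_zero f2, hc, nf]; ring
  unfold pls
  rcases le_total (g c) (f a) with h | h
  · rw [← ha, (hf.adm_add hg).nrm_bb (by rw [ea]; linarith), ea]; linarith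
  · rw [← hc, (hf.adm_add hg).nrm_bb (by rw [ec]; linarith), ec]; linarith

/-- if the sum vanishes on a fibre then the two norms agree there and the rays differ -/
theorem Valid.opp_ray (hf : Valid π f) (hg : Valid π g)
    (h : ∀ ω', π ω' = π ω → pls π f g ω' = 0) (h1 : f ω ≠ 0) :
    ∃ d, π d = π ω ∧ d ≠ ω ∧ g d = f ω := by
  have h2 := add_eq_zero_iff.1 (h ω rfl)
  rw [hf.hh_self h1] at h2
  have pf := hf.pos h1
  have g0 : g ω = 0 := by
    by_contra h3
    rw [hg.hh_self h3] at h2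
    have := hg.1 ω; linarith
  rw [hh_zero g0] at h2
  rcases fib_cases (π := π) g (π ω) with h3 | ⟨d, hd, hgd⟩
  · rw [nrm_eq_zero h3] at h2; linarith
  · have hne : d ≠ ω := by rintro rfl; exact hgd g0
    refine ⟨d, hd, hne, ?_⟩
    have h4 := add_eq_zero_iff.1 (h d hd)
    rw [hg.hh_self hgd, hh_zero (hf.zero_of_ne h1 hd hne), hd, hf.nrm_eq h1] at h4
    rw [← hd, hg.nrm_eq hgd] at h2
    linarith

theorem Valid.opp_fib_zero (hf : Valid π f) (hg : Valid π g)
    (h : ∀ ω', π ω' = π ω → pls π f g ω' = 0)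
    (h1 : ∀ ω', π ω' = π ω → f ω' = 0) : g ω = 0 := by
  by_contra h2
  obtain ⟨d, hd, -, h3⟩ := hg.opp_ray hf (fun ω' h4 => by rw [add_comm']; exact h ω' h4) h2
  exact h2 (h3 ▸ h1 d hd)

/-- The ideal property: if `x + c` has the opposite `y`, an explicit point is opposite to `x`. -/
theorem lemmaU {x c y : Ω → K} (hx : Valid π x) (hc : Valid π c) (hy : Valid π y)
    (hfin : (Function.support (pls π x c)).Finite) (h : pls π (pls π x c) y = 0) :
    ∃ N : K, 0 < N ∧ pls π x (pls π (pls π (pls π c (N • pls π x c)) (N • y)) y) = 0 := by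
  set z := pls π x c with hz
  have hzv : Valid π z := hx.add hc
  obtain ⟨N, hN0, hN⟩ : ∃ N : K, 0 < N ∧ ∀ q, z q ≠ 0 → nrm π c (π q) ≤ N * z q := by
    refine ⟨1 + ∑ q ∈ hfin.toFinset, nrm π c (π q) / z q, ?_, ?_⟩
    · have : 0 ≤ ∑ q ∈ hfin.toFinset, nrm π c (π q) / z q :=
        Finset.sum_nonneg fun q _ => div_nonneg (hc.nrm_nonneg _) (hzv.1 q)
      linarith
    · intro q hq
      have h1 : nrm π c (π q) / z q ≤ ∑ q ∈ hfin.toFinset, nrm π c (π q) / z q :=
        Finset.single_le_sum (f := fun q => nrm π c (π q) / z q)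
          (fun q _ => div_nonneg (hc.nrm_nonneg _) (hzv.1 q)) (by simpa using hq)
      have h2 := hzv.pos hq
      rw [div_le_iff₀ h2] at h1
      nlinarith
  refine ⟨N, hN0, ?_⟩
  have v1 : Valid π (N • z) := hzv.smul hN0.le
  have v2 : Valid π (N • y) := hy.smul hN0.le
  have w1 := hc.add v1
  have w2 := w1.add v2
  have w3 := w2.add hy
  funext ω
  rcases fib_cases (π := π) z (π ω) with h0 | ⟨q, hq, hzq⟩
  · have y0 : ∀ ω', π ω' = π ω → y ω' = 0 := fun ω' h1 =>
      hzv.opp_fib_zero hy (fun _ _ => by rw [h]; rfl) (fun a ha => h0 a (ha.trans h1))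
    have e : ∀ ω', π ω' = π ω →
        pls π (pls π (pls π c (N • z)) (N • y)) y ω' = c ω' := by
      intro ω' h1
      rw [w2.add_of_fib_zero (fun a ha => y0 a (ha.trans h1)),
        w1.add_of_fib_zero (fun a ha => by simp [y0 a (ha.trans h1)]),
        hc.add_of_fib_zero (fun a ha => by simp [h0 a (ha.trans h1)])]
    have : z ω = 0 := h0 ω rfl
    rw [hz, add_eq_zero_iff] at this
    show _ = (0 : K)
    rw [add_eq_zero_iff, hh_congr e]
    exact this
  · obtain ⟨d, hd, hdq, hyd⟩ := hzv.opp_ray hy (ω := q) (fun _ _ => by rw [h]; rfl) hzq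
    have pz := hzv.pos hzq
    have yd0 : y d ≠ 0 := by rw [hyd]; exact hzq
    have yq : y q = 0 := hy.zero_of_ne yd0 hd.symm (Ne.symm hdq)
    have hyq : hh π y q = -z q := by rw [hh_zero yq, ← hd, hy.nrm_eq yd0, hyd]
    have zq : z q = hh π x q + hh π c q := by
      have := add_ne_zero_iff.1 hzq
      rw [hz, add_apply, max_eq_left this.le]
    have a1 : hh π (N • z) q = N * z q := by rw [hzv.hh_smul]; simp [hzv.hh_self hzq]
    have a2 : hh π (N • y) q = -(N * z q) := by rw [hy.hh_smul]; simp [hyq]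
    have n1 : 0 ≤ hh π c q + hh π (N • z) q := by
      have := hc.neg_nrm_le q; have := hN q hzq; rw [a1]; linarith
    have b1 : hh π (pls π c (N • z)) q = hh π c q + N * z q := by
      rw [hc.hh_add_of_nonneg v1 n1, a1]
    have s1 : ∀ a, π a = π q → a ≠ q → pls π c (N • z) a = 0 := fun a ha haq =>
      (hc.adm_add v1).bb_fib (ω := q) n1 ha haq
    have b2 : hh π (pls π (pls π c (N • z)) (N • y)) q = hh π c q := by
      rw [w1.hh_add_eq v2, b1, a2]
      · ring
      · intro a _ ha _ haq _ h1; exact absurd (s1 a ha haq) h1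
    have b3 : hh π (pls π (pls π (pls π c (N • z)) (N • y)) y) q = -hh π x q := by
      rw [w2.hh_add_eq hy, b2, hyq, zq]
      · ring
      · intro a e ha he haq _ h1 h2
        rcases w1.add_supp v2 h1 with h3 | h3
        · exact absurd (s1 a ha haq) h3
        · have : y a ≠ 0 := by intro h4; apply h3; simp [h4]
          exact hy.2 _ _ (ha.trans he.symm) this h2
    exact hx.add_fib_zero w3 (ω := q) (by rw [b3]; ring) hq.symm

end Pool.Agent.P.MP_6990a0_al
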