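import Mathlib

namespace Pool.Agent.P.MP_6990a0_al

variable {K : Type*} [Field K] [LinearOrder K] {Ω ι Z : Type*} [AddCommGroup Z] [Module K Z]

/-- Points: in each factor `i` at most one ray `ω` (with `π ω = i`) carries a positive weight;
`Z` is the central part. -/
def EdPt (K : Type*) [Field K] [LinearOrder K] (π : Ω → ι) (Z : Type*) : Type _ :=
  {x : (Ω → K) × Z // (∀ ω, 0 ≤ x.1 ω) ∧ ∀ ω ω', π ω = π ω' → x.1 ω ≠ 0 → x.1 ω' ≠ 0 → ω = ω'}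

/-- Apartments, as charts: two distinct rays `a i`, `b i` in each factor. -/
def IsApt (π : Ω → ι) (φ : (ι → K) × Z → EdPt K π Z) : Prop :=
  ∃ a b : ι → Ω, (∀ i, π (a i) = i ∧ π (b i) = i ∧ a i ≠ b i) ∧
    ∀ v, (φ v).1.2 = v.2 ∧ ∀ i, (φ v).1.1 (a i) = max (v.1 i) 0 ∧
      (φ v).1.1 (b i) = max (-v.1 i) 0 ∧ ∀ ω, π ω = i → ω ≠ a i → ω ≠ b i → (φ v).1.1 ω = 0

/-- `κ` maps each apartment linearly into some apartment. -/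
def AptLinear (π : Ω → ι) (κ : EdPt K π Z → EdPt K π Z) : Prop :=
  ∀ φ, IsApt π φ → ∃ ψ, IsApt π ψ ∧
    ∃ L : ((ι → K) × Z) →ₗ[K] ((ι → K) × Z), ∀ v, κ (φ v) = ψ (L v)

def AreOpp (π : Ω → ι) (x y : EdPt K π Z) : Prop :=
  ∃ φ, IsApt π φ ∧ ∃ v, x = φ v ∧ y = φ (-v)

def facetOf (π : Ω → ι) (x : EdPt K π Z) : Set (EdPt K π Z) :=
  {y | ∀ ω, y.1.1 ω ≠ 0 ↔ x.1.1 ω ≠ 0}

end Pool.Agent.P.MP_6990a0_al
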