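import Pool.Agent.P.MP_6990a0_al.ED

/-! An ultrafilter with a finite orbit on the determined sets. -/

namespace Pool.Agent.P.MP_6990a0_al.VC

open Filter

variable {X P k : Type*} [CommRing P] [IsNoetherianRing P] [Field k] (ev : X → P →+* k)

/-- The prime ideal of an ultrafilter. -/
def upr (𝒰 : Ultrafilter X) : Ideal P where
  carrier := {f | {y | ev y f = 0} ∈ 𝒰}
  zero_mem' := univ_mem' fun y => map_zero (ev y)
  add_mem' {f g} hf hg := mem_of_superset (inter_mem hf hg) fun y hy => by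
    simp only [Set.mem_ofPred_eq, map_add]
    rw [hy.1, hy.2, add_zero]
  smul_mem' c f hf := mem_of_superset hf fun y hy => by
    simp only [Set.mem_ofPred_eq, smul_eq_mul, map_mul]
    rw [hy, mul_zero]

/-- The ideal of a set. -/
def vid (A : Set X) : Ideal P := ⨅ x ∈ A, RingHom.ker (ev x)

omit [IsNoetherianRing P] in
theorem mem_vid {A : Set X} {f : P} : f ∈ vid ev A ↔ ∀ x ∈ A, ev x f = 0 := by
  simp [vid]

omit [IsNoetherianRing P] in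
theorem upr_prime (𝒰 : Ultrafilter X) : (upr ev 𝒰).IsPrime := by
  refine ⟨(Ideal.ne_top_iff_one _).2 fun h => ?_, fun {f g} h => ?_⟩
  · have h1 : {y | ev y 1 = 0} ∈ 𝒰 := h
    simp at h1
  · have h1 : {y | ev y (f * g) = 0} ∈ 𝒰 := h
    simp only [map_mul, mul_eq_zero, Set.ofPred_or] at h1
    exact Ultrafilter.union_mem_iff.1 h1

theorem UW_mem (𝒰 : Ultrafilter X) : UW ev 𝒰 ∈ 𝒰 := by
  obtain ⟨s, hs⟩ := (IsNoetherian.noetherian (upr ev 𝒰) : (upr ev 𝒰).FG)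
  have h1 : (⋂ f ∈ s, {y | ev y f = 0}) ∈ (𝒰 : Filter X) :=
    (biInter_finset_mem s).2 fun f hf => (hs ▸ Ideal.subset_span hf : f ∈ upr ev 𝒰)
  refine mem_of_superset h1 fun x hx f hf => ?_
  have h2 : upr ev 𝒰 ≤ RingHom.ker (ev x) := by
    rw [← hs]
    exact Ideal.span_le.2 fun g hg => Set.mem_iInter₂.1 hx g hg
  exact h2 hf

theorem UW_irr (𝒰 : Ultrafilter X) : Irr ev (UW ev 𝒰) := by
  intro f g h
  have h1 : f * g ∈ upr ev 𝒰 := mem_of_superset (UW_mem ev 𝒰) fun x hx => by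
    simpa using h x hx
  exact ((upr_prime ev 𝒰).mem_or_mem h1).imp (fun h x hx => hx f h) fun h x hx => hx g h

omit [IsNoetherianRing P] in
theorem ea1_ultra {A : Set X} {p : Ideal P} (hp : p ∈ (vid ev A).minimalPrimes) :
    ∃ 𝒰 : Ultrafilter X, A ∈ 𝒰 ∧ upr ev 𝒰 = p := by
  have hP : p.IsPrime := hp.1.1
  have : Nonempty p.primeCompl := ⟨1⟩
  have hne : (⨅ f : p.primeCompl, 𝓟 (A ∩ {x | ev x f ≠ 0})).NeBot := by
    refine iInf_neBot_of_directed' (fun f g => ⟨f * g, ?_, ?_⟩) fun f => ?_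
    · exact principal_mono.2 fun x hx => ⟨hx.1, fun h => hx.2 (by simp [h])⟩
    · exact principal_mono.2 fun x hx => ⟨hx.1, fun h => hx.2 (by simp [h])⟩
    · refine principal_neBot_iff.2 (by_contra fun h => f.2 (hp.1.2 ((mem_vid ev).2 ?_)))
      exact fun x hx => by_contra fun h' => h ⟨x, hx, h'⟩
  let 𝒰 := Ultrafilter.of (⨅ f : p.primeCompl, 𝓟 (A ∩ {x | ev x f ≠ 0}))
  have h1 : ∀ f : p.primeCompl, A ∩ {x | ev x f ≠ 0} ∈ 𝒰 := fun f =>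
    Ultrafilter.of_le _ (mem_iInf_of_mem f (mem_principal_self _))
  have h2 : A ∈ 𝒰 := mem_of_superset (h1 1) Set.inter_subset_left
  have h3 : upr ev 𝒰 ≤ p := fun f hf => by_contra fun h => by
    obtain ⟨x, hx, hx'⟩ := Ultrafilter.nonempty_of_mem (inter_mem (h1 ⟨f, h⟩) hf)
    exact hx.2 hx'
  exact ⟨𝒰, h2, le_antisymm h3 (hp.2 ⟨upr_prime ev 𝒰, fun f hf =>
    mem_of_superset h2 ((mem_vid ev).1 hf)⟩ h3)⟩

/-- Two nonempty sets with the same ideal carry ultrafilters with the same zero set. -/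
theorem same_UW {A A' : Set X} (hA : A.Nonempty)
    (h : ∀ f, (∀ x ∈ A, ev x f = 0) ↔ ∀ x ∈ A', ev x f = 0) :
    ∃ 𝒰 𝒱 : Ultrafilter X, A ∈ 𝒰 ∧ A' ∈ 𝒱 ∧ UW ev 𝒰 = UW ev 𝒱 := by
  have e : vid ev A = vid ev A' := Ideal.ext fun f => by rw [mem_vid, mem_vid, h]
  obtain ⟨x, hx⟩ := hA
  have := RingHom.ker_isPrime (ev x)
  obtain ⟨p, hp, -⟩ := Ideal.exists_minimalPrimes_le (I := vid ev A) (J := RingHom.ker (ev x))
    fun f hf => (mem_vid ev).1 hf x hx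
  obtain ⟨𝒰, h1, h2⟩ := ea1_ultra ev hp
  obtain ⟨𝒱, h3, h4⟩ := ea1_ultra ev (e ▸ hp)
  refine ⟨𝒰, 𝒱, h1, h3, Set.ext fun y => forall_congr' fun f => ?_⟩
  exact imp_congr_left (show f ∈ upr ev 𝒰 ↔ f ∈ upr ev 𝒱 by rw [h2, h4])

section det
variable [Group X] {ev} {A B : Set X}
omit [IsNoetherianRing P]

theorem Det.compl (h : Det ev A) : Det ev Aᶜ := fun g 𝒰 𝒱 e h1 =>
  Ultrafilter.compl_mem_iff_notMem.2 fun h2 =>
    Ultrafilter.compl_mem_iff_notMem.1 h1 (h g 𝒱 𝒰 e.symm h2)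

theorem Det.inter (h : Det ev A) (h' : Det ev B) : Det ev (A ∩ B) := fun g 𝒰 𝒱 e h1 =>
  inter_mem (h g 𝒰 𝒱 e (mem_of_superset h1 fun _ hx => hx.1))
    (h' g 𝒰 𝒱 e (mem_of_superset h1 fun _ hx => hx.2))

theorem Det.tr (h : Det ev A) (g : X) : Det ev {x | g * x ∈ A} := fun g' 𝒰 𝒱 e h1 => by
  simp only [Set.mem_ofPred_eq, ← mul_assoc] at h1 ⊢
  exact h _ 𝒰 𝒱 e h1

end det

theorem atom [Group X] : ∃ (𝒰 : Ultrafilter X) (H : Subgroup X), H.FiniteIndex ∧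
    ∀ h ∈ H, ∀ B : Set X, Det ev B → (B ∈ 𝒰 ↔ B ∈ 𝒰.map (h * ·)) := by
  let 𝒮 : Set (Set (Set X)) := {F | (∀ B ∈ F, Det ev B) ∧
    (∀ B ∈ F, ∀ g, {x | g * x ∈ B} ∈ F) ∧ (generate F).NeBot}
  obtain ⟨F, hF⟩ := zorn_subset 𝒮 fun c hc hch => by
    refine ⟨⋃₀ c, ⟨fun B ⟨F, h1, h2⟩ => (hc h1).1 B h2,
      fun B ⟨F, h1, h2⟩ g => ⟨F, h1, (hc h1).2.1 B h2 g⟩, generate_neBot_iff.2 ?_⟩,
      fun s hs => Set.subset_sUnion_of_mem hs⟩
    intro t ht hfin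
    rcases c.eq_empty_or_nonempty with rfl | hne
    · obtain rfl : t = ∅ := by simpa using ht
      simp
    · obtain ⟨F, h1, h2⟩ := hch.directedOn.exists_mem_subset_of_finite_of_subset_sUnion
        hne hfin ht
      exact generate_neBot_iff.1 (hc h1).2.2 t h2 hfin
  obtain ⟨F1, F2, F3⟩ := hF.1
  have tr : ∀ (𝒰 : Ultrafilter X) (g : X), (𝒰 : Filter X) ≤ generate F →
      (𝒰.map (g * ·) : Filter X) ≤ generate F := fun 𝒰 g h =>
    le_generate_iff.2 fun B hB => le_generate_iff.1 h (F2 B hB g)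
  obtain ⟨_, ⟨A, ⟨hA, hA'⟩, rfl⟩, hmax⟩ := (set_has_maximal_iff_noetherian.2
    (inferInstance : IsNoetherian P P))
    (vid ev '' {A | Det ev A ∧ (generate F ⊓ 𝓟 A).NeBot})
    ⟨_, Set.univ, ⟨fun _ _ _ _ _ => univ_mem' fun _ => trivial, by simpa using F3⟩, rfl⟩
  have pos : ∀ (𝒰 : Ultrafilter X) B, (𝒰 : Filter X) ≤ generate F → B ∈ 𝒰 →
      (generate F ⊓ 𝓟 B).NeBot := fun 𝒰 B h hB =>
    𝒰.neBot.mono (le_inf h (le_principal_iff.2 hB))
  have eqv : ∀ B, Det ev B → B ⊆ A → (generate F ⊓ 𝓟 B).NeBot → vid ev B = vid ev A :=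
    fun B h1 h2 h3 => (eq_of_le_of_not_lt (fun f hf => (mem_vid ev).2 fun x hx =>
      (mem_vid ev).1 hf x (h2 hx)) (hmax _ ⟨B, ⟨h1, h3⟩, rfl⟩)).symm
  have at1 : ∀ 𝒰 𝒱 : Ultrafilter X, (𝒰 : Filter X) ≤ generate F → (𝒱 : Filter X) ≤ generate F →
      A ∈ 𝒰 → A ∈ 𝒱 → ∀ B, Det ev B → B ∈ 𝒰 → B ∈ 𝒱 := by
    intro 𝒰 𝒱 h1 h2 h3 h4 B hB h5
    by_contra h6
    have h7 : A ∩ B ∈ 𝒰 := inter_mem h3 h5
    have h8 : A ∩ Bᶜ ∈ 𝒱 := inter_mem h4 (Ultrafilter.compl_mem_iff_notMem.2 h6)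
    have e := (eqv _ (hA.inter hB) Set.inter_subset_left (pos 𝒰 _ h1 h7)).trans
      (eqv _ (hA.inter hB.compl) Set.inter_subset_left (pos 𝒱 _ h2 h8)).symm
    obtain ⟨𝒰', 𝒱', k1, k2, k3⟩ := same_UW ev (A' := A ∩ Bᶜ) (Ultrafilter.nonempty_of_mem h7)
      fun f => by rw [← mem_vid, ← mem_vid, e]
    have k4 := hB 1 𝒰' 𝒱' k3 (mem_of_superset k1 fun x hx => by simpa using hx.2)
    obtain ⟨x, hx, hx'⟩ := Ultrafilter.nonempty_of_mem (inter_mem k2 k4)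
    exact hx.2 (by simpa using hx')
  let 𝒰 := Ultrafilter.of (generate F ⊓ 𝓟 A)
  have u1 : (𝒰 : Filter X) ≤ generate F := (Ultrafilter.of_le _).trans inf_le_left
  have u2 : A ∈ 𝒰 := le_principal_iff.1 ((Ultrafilter.of_le _).trans inf_le_right)
  let H : Subgroup X :=
    { carrier := {h | ∀ B : Set X, Det ev B → (B ∈ 𝒰 ↔ {x | h * x ∈ B} ∈ 𝒰)}
      one_mem' := fun B _ => by simp
      mul_mem' := fun {g h} hg hh B hB => by
        rw [hg B hB, hh _ (hB.tr g)]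
        simp only [Set.mem_ofPred_eq, mul_assoc]
      inv_mem' := fun {g} hg B hB => by
        rw [hg _ (hB.tr g⁻¹)]
        simp }
  refine ⟨𝒰, H, ?_, fun h hh => hh⟩
  have hbot : ¬ (generate (F ∪ Set.range fun g => {x | g * x ∈ A}ᶜ)).NeBot := fun h => by
    have h1 := hF.2 (y := F ∪ Set.range fun g => {x | g * x ∈ A}ᶜ) ⟨?_, ?_, h⟩
      Set.subset_union_left (Or.inr ⟨1, rfl⟩)
    · obtain ⟨x, hx, hx'⟩ := Ultrafilter.nonempty_of_mem
        (inter_mem (le_generate_iff.1 u1 h1) u2)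
      exact hx (by simpa using hx')
    · rintro B (hB | ⟨g, rfl⟩)
      exacts [F1 B hB, (hA.tr g).compl]
    · rintro B (hB | ⟨g, rfl⟩) g'
      · exact Or.inl (F2 B hB g')
      · exact Or.inr ⟨g * g', by ext; simp [mul_assoc]⟩
  rw [generate_neBot_iff] at hbot
  push Not at hbot
  obtain ⟨t, ht, hfin, hemp⟩ := hbot
  have hc : ∀ B ∈ t, ∃ g, B ∈ F ∨ B = {x | g * x ∈ A}ᶜ := fun B hB =>
    (ht hB).elim (fun h => ⟨1, Or.inl h⟩) fun ⟨g, e⟩ => ⟨g, Or.inr e.symm⟩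
  choose! γ hγ using hc
  have := hfin.to_subtype
  have hs : Function.Surjective fun B : t => (QuotientGroup.mk (γ B)⁻¹ : X ⧸ H) := fun q => by
    obtain ⟨g, rfl⟩ := QuotientGroup.mk_surjective q
    have h1 : ∃ B ∈ t, B ∉ 𝒰.map (g * ·) := by
      by_contra h
      push Not at h
      have := Ultrafilter.nonempty_of_mem ((sInter_mem hfin).2 h)
      rw [hemp] at this
      exact Set.not_nonempty_empty this
    obtain ⟨B, hB, hB'⟩ := h1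
    refine ⟨⟨B, hB⟩, QuotientGroup.eq.2 ?_⟩
    rw [inv_inv]
    have h2 : A ∈ 𝒰.map (γ B * g * ·) := by
      rcases hγ B hB with h | h
      · exact absurd (le_generate_iff.1 (tr 𝒰 g u1) h) hB'
      · rw [h, Ultrafilter.compl_mem_iff_notMem, not_not] at hB'
        simpa only [Ultrafilter.mem_map, Set.preimage, Set.mem_ofPred_eq, mul_assoc] using hB'
    exact fun C hC => ⟨at1 _ _ u1 (tr 𝒰 _ u1) u2 h2 C hC, at1 _ _ (tr 𝒰 _ u1) u1 h2 u2 C hC⟩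
  have := Finite.of_surjective _ hs
  exact Subgroup.finiteIndex_of_finite_quotient

end Pool.Agent.P.MP_6990a0_al.VC
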