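import Pool.Agent.P.MP_6990a0_al.VA3

namespace Pool.Agent.P.MP_6990a0_al.VC

open Classical

variable {k V : Type*} [Field k] [AddCommGroup V] [Module k V]
variable {R : Type*} [CommRing R] [IsDomain R] {n : ℕ}

theorem vg3_row (B : Matrix (Fin n) (Fin n) R) :
    rowK B = vec (fun j => (Pi.single j 1 : Fin n → FractionRing R))
      (B.map (algebraMap R (FractionRing R))) := by
  funext i j
  simp [rowK, vec, Finset.sum_apply, Pi.single_apply, Algebra.algebraMap_eq_smul_one]

theorem vg3_det (B : Matrix (Fin n) (Fin n) R) :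
    (B.map (algebraMap R (FractionRing R))).det ≠ 0 ↔ B.det ≠ 0 := by
  have h := (algebraMap R (FractionRing R)).map_det B
  rw [RingHom.mapMatrix_apply] at h
  rw [← h]
  exact (map_ne_zero_iff _ (IsFractionRing.injective R (FractionRing R)))

theorem rowK_li (B : Matrix (Fin n) (Fin n) R) (hB : B.det ≠ 0) :
    LinearIndependent (FractionRing R) (rowK B) ∧
      Submodule.span (FractionRing R) (Set.range (rowK B)) = ⊤ := by
  have hb : (fun j => (Pi.single j 1 : Fin n → FractionRing R)) =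
      Pi.basisFun (FractionRing R) (Fin n) := by
    funext j
    simp
  have h := vec_li (k := FractionRing R) (Pi.basisFun (FractionRing R) (Fin n)).linearIndependent
    _ ((vg3_det B).2 hB)
  rw [vg3_row, hb]
  exact ⟨h.1, h.2.trans (Pi.basisFun (FractionRing R) (Fin n)).span_eq⟩

theorem vg3_den {ι : Type*} [Finite ι] (a : ι → FractionRing R) :
    ∃ d : R, d ≠ 0 ∧ ∃ c : ι → R, ∀ i,
      algebraMap R (FractionRing R) (c i) = algebraMap R (FractionRing R) d * a i := by
  obtain ⟨d, hd⟩ := IsLocalization.exist_integer_multiples_of_finite (nonZeroDivisors R) a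
  choose c hc using hd
  exact ⟨d, nonZeroDivisors.coe_ne_zero d, c, fun i => by rw [hc i, Algebra.smul_def]⟩

theorem clear_den (a : Fin n → Fin n → FractionRing R)
    (ha : LinearIndependent (FractionRing R) a) :
    ∃ B : Matrix (Fin n) (Fin n) R, B.det ≠ 0 ∧
      ∀ w, chart (FractionRing R) a w = chart (FractionRing R) (rowK B) w := by
  obtain ⟨d, hd, c, hc⟩ := vg3_den (fun p : Fin n × Fin n => a p.1 p.2)
  have hd' : algebraMap R (FractionRing R) d ≠ 0 :=
    (map_ne_zero_iff _ (IsFractionRing.injective R (FractionRing R))).2 hd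
  have hrow : ∀ i, rowK (Matrix.of fun i j => c (i, j)) i =
      algebraMap R (FractionRing R) d • a i := by
    intro i
    funext j
    simp [rowK, hc]
  refine ⟨Matrix.of fun i j => c (i, j), ?_, fun w => ?_⟩
  · rw [← vg3_det]
    apply vec_det (fun j => (Pi.single j 1 : Fin n → FractionRing R))
    rw [← vg3_row]
    have h := ha.units_smul (fun _ => Units.mk0 _ hd')
    have e : rowK (Matrix.of fun i j => c (i, j)) = (fun _ : Fin n => Units.mk0 _ hd') • a := by
      funext i
      rw [hrow]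
      rfl
    rw [e]
    exact h
  · funext t
    apply le_antisymm
    · refine Submodule.span_le.2 ?_
      rintro _ ⟨i, hi, rfl⟩
      have h : a i = (algebraMap R (FractionRing R) d)⁻¹ •
          rowK (Matrix.of fun i j => c (i, j)) i := by
        rw [hrow, inv_smul_smul₀ hd']
      rw [h]
      exact Submodule.smul_mem _ _ (Submodule.subset_span ⟨i, hi, rfl⟩)
    · refine Submodule.span_le.2 ?_
      rintro _ ⟨i, hi, rfl⟩
      rw [hrow]
      exact Submodule.smul_mem _ _ (Submodule.subset_span ⟨i, hi, rfl⟩)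

theorem vg3_one (e : Fin n → V) (B B' : Matrix (Fin n) (Fin n) R) (i : Fin n) (A' : Set (Fin n)) :
    ∃ d : R, d ≠ 0 ∧ ∀ ψ : R →+* k, ψ d ≠ 0 →
      rowK B i ∈ Submodule.span (FractionRing R) (rowK B' '' A') →
      vec e (B.map ψ) i ∈ Submodule.span k (vec e (B'.map ψ) '' A') := by
  by_cases h : rowK B i ∈ Submodule.span (FractionRing R) (rowK B' '' A')
  swap
  · exact ⟨1, one_ne_zero, fun _ _ h' => absurd h' h⟩
  rw [Set.image_eq_range, Submodule.mem_span_range_iff_exists_fun] at h
  obtain ⟨a, ha⟩ := h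
  obtain ⟨d, hd, c, hc⟩ := vg3_den a
  have key : ∀ l, d * B i l = ∑ j : A', c j * B' j l := by
    intro l
    apply IsFractionRing.injective R (FractionRing R)
    have h1 := congrFun ha l
    simp only [Finset.sum_apply, Pi.smul_apply, smul_eq_mul, rowK] at h1
    rw [map_mul, map_sum, ← h1, Finset.mul_sum]
    exact Finset.sum_congr rfl fun j _ => by rw [map_mul, hc, mul_assoc]
  refine ⟨d, hd, fun ψ hψ _ => ?_⟩
  have h2 : ψ d • vec e (B.map ψ) i = ∑ j : A', ψ (c j) • vec e (B'.map ψ) j := by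
    simp only [vec, Matrix.map_apply, Finset.smul_sum, smul_smul]
    rw [Finset.sum_comm]
    refine Finset.sum_congr rfl fun l _ => ?_
    rw [← Finset.sum_smul, ← map_mul, key, map_sum]
    simp only [map_mul]
  rw [← inv_smul_smul₀ hψ (vec e (B.map ψ) i), h2]
  exact Submodule.smul_mem _ _ (Submodule.sum_mem _ fun j _ =>
    Submodule.smul_mem _ _ (Submodule.subset_span ⟨j, j.2, rfl⟩))

theorem spec (e : Fin n → V) (B B' : Matrix (Fin n) (Fin n) R) :
    ∃ f : R, f ≠ 0 ∧ ∀ ψ : R →+* k, ψ f ≠ 0 → ∀ A A' : Set (Fin n),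
      Submodule.span (FractionRing R) (rowK B '' A) ≤
        Submodule.span (FractionRing R) (rowK B' '' A') →
      Submodule.span k (vec e (B.map ψ) '' A) ≤ Submodule.span k (vec e (B'.map ψ) '' A') := by
  choose d hd hs using vg3_one (k := k) e B B'
  refine ⟨∏ p : Fin n × Set (Fin n), d p.1 p.2, Finset.prod_ne_zero_iff.2 fun p _ => hd _ _,
    fun ψ hψ A A' h => Submodule.span_le.2 ?_⟩
  rintro _ ⟨i, hi, rfl⟩
  rw [map_prod] at hψ
  exact hs i A' ψ (Finset.prod_ne_zero_iff.1 hψ (i, A') (Finset.mem_univ _))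
    (h (Submodule.subset_span ⟨i, hi, rfl⟩))

theorem spec_chart (e : Fin n → V) (B B' : Matrix (Fin n) (Fin n) R) :
    ∃ f : R, f ≠ 0 ∧ ∀ ψ : R →+* k, ψ f ≠ 0 → ∀ w w' : Fin n → ℝ,
      chart (FractionRing R) (rowK B) w = chart (FractionRing R) (rowK B') w' →
      chart k (vec e (B.map ψ)) w = chart k (vec e (B'.map ψ)) w' := by
  obtain ⟨f, hf, h1⟩ := spec (k := k) e B B'
  obtain ⟨g, hg, h2⟩ := spec (k := k) e B' B
  refine ⟨f * g, mul_ne_zero hf hg, fun ψ hψ w w' h => ?_⟩
  rw [map_mul, mul_ne_zero_iff] at hψ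
  funext t
  exact le_antisymm (h1 ψ hψ.1 _ _ (congrFun h t).le) (h2 ψ hψ.2 _ _ (congrFun h t).ge)

end Pool.Agent.P.MP_6990a0_al.VC
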