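import Pool.Agent.P.MP_6990a0_al.EC
import Pool.Agent.P.MP_6990a0_al.VG3

/-! Generic values of terms. -/

namespace Pool.Agent.P.MP_6990a0_al.VC

variable {k V : Type*} [Field k] [AddCommGroup V] [Module k V] {n : ℕ}
  {X R : Type*} [CommRing R] [IsDomain R] {ev : X → R →+* k} {e : Fin n → V}
  {Φ Ψ : X → ℝ → Submodule k V}
  {x' y' : ℝ → Submodule (FractionRing R) (Fin n → FractionRing R)}

omit [IsDomain R] in
theorem ea2_det (ψ : R →+* k) (B : Matrix (Fin n) (Fin n) R) : ψ B.det = (B.map ψ).det :=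
  ψ.map_det B

theorem Rp.filt (h : Rp ev e Φ x') : Filt ⊤ x' := by
  obtain ⟨B, w, f, -, hB, rfl, -⟩ := h
  exact (rowK_li B hB).2 ▸ chart_filt (k := FractionRing R) (rowK B) w

theorem Rp.com (h : Rp ev e Φ x') (h' : Rp ev e Ψ y') :
    ∃ (B : Matrix (Fin n) (Fin n) R) (u u' : Fin n → ℝ) (f : R), f ≠ 0 ∧ B.det ≠ 0 ∧
      x' = chart (FractionRing R) (rowK B) u ∧ y' = chart (FractionRing R) (rowK B) u' ∧
      ∀ x, ev x f ≠ 0 → ev x B.det ≠ 0 ∧ Φ x = chart k (vec e (B.map (ev x))) u ∧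
        Ψ x = chart k (vec e (B.map (ev x))) u' := by
  obtain ⟨a, u, u', ha, -, hx, hy⟩ := common n ⊤
    (by rw [finrank_top, Module.finrank_fin_fun]) h.filt h'.filt
  obtain ⟨B1, w1, f1, hf1, -, rfl, hs1⟩ := h
  obtain ⟨B2, w2, f2, hf2, -, rfl, hs2⟩ := h'
  obtain ⟨B, hB, hc⟩ := clear_den a ha
  rw [hc] at hx hy
  obtain ⟨g1, hg1, hg1s⟩ := spec_chart (k := k) e B1 B
  obtain ⟨g2, hg2, hg2s⟩ := spec_chart (k := k) e B2 B
  refine ⟨B, u, u', f1 * f2 * g1 * g2 * B.det,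
    mul_ne_zero (mul_ne_zero (mul_ne_zero (mul_ne_zero hf1 hf2) hg1) hg2) hB, hB, hx, hy,
    fun x hx' => ?_⟩
  simp only [map_mul, mul_ne_zero_iff] at hx'
  obtain ⟨⟨⟨⟨e1, e2⟩, e3⟩, e4⟩, e5⟩ := hx'
  exact ⟨e5, (hs1 x e1).2.trans (hg1s _ e3 _ _ hx), (hs2 x e2).2.trans (hg2s _ e4 _ _ hy)⟩

theorem Rp.add (he : LinearIndependent k e) (h : Rp ev e Φ x') (h' : Rp ev e Ψ y') :
    Rp ev e (fun x => add (Φ x) (Ψ x)) (add x' y') := by
  obtain ⟨B, u, u', f, hf, hB, rfl, rfl, hs⟩ := h.com h'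
  refine ⟨B, u + u', f, hf, hB, add_chart (rowK_li B hB).1 _ _, fun x hx => ?_⟩
  obtain ⟨h1, h2, h3⟩ := hs x hx
  refine ⟨h1, ?_⟩
  beta_reduce
  rw [h2, h3, add_chart (vec_li he _ (ea2_det (ev x) B ▸ h1)).1]

theorem Rp.sc (h : Rp ev e Φ x') {s : ℝ} (hs : 0 < s) :
    Rp ev e (fun x => sc s (Φ x)) (sc s x') := by
  obtain ⟨B, w, f, hf, hB, rfl, h⟩ := h
  refine ⟨B, s • w, f, hf, hB, sc_chart _ _ hs, fun x hx => ⟨(h x hx).1, ?_⟩⟩
  beta_reduce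
  rw [(h x hx).2, sc_chart _ _ hs]

theorem Rp.eq (h : Rp ev e Φ x') (h' : Rp ev e Ψ x') :
    ∃ f : R, f ≠ 0 ∧ ∀ x, ev x f ≠ 0 → Φ x = Ψ x := by
  obtain ⟨B, u, u', f, hf, hB, h1, h2, hs⟩ := h.com h'
  obtain rfl := chart_inj (rowK_li B hB).1 (h1.symm.trans h2)
  exact ⟨f, hf, fun x hx => (hs x hx).2.1.trans (hs x hx).2.2.symm⟩

theorem Rp.dich (he : LinearIndependent k e) (h : Rp ev e Φ x') (h' : Rp ev e Ψ y') :
    ∃ f : R, f ≠ 0 ∧ ((∀ x, ev x f ≠ 0 → Φ x = Ψ x) ∨ ∀ x, ev x f ≠ 0 → Φ x ≠ Ψ x) := by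
  obtain ⟨B, u, u', f, hf, -, -, -, hs⟩ := h.com h'
  refine ⟨f, hf, ?_⟩
  by_cases hu : u = u'
  · subst hu
    exact Or.inl fun x hx => (hs x hx).2.1.trans (hs x hx).2.2.symm
  · refine Or.inr fun x hx h1 => hu ?_
    obtain ⟨h2, h3, h4⟩ := hs x hx
    exact chart_inj (vec_li he _ (ea2_det (ev x) B ▸ h2)).1 (h3.symm.trans (h1.trans h4))

theorem rp_const [Nonempty X] (e : Module.Basis (Fin n) k V)
    (hk : ∀ a : k, ∃ F : R, ∀ x, ev x F = a) {y : ℝ → Submodule k V} (hy : Filt ⊤ y) :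
    ∃ y', Rp ev e (fun _ => y) y' := by
  obtain ⟨b, w, rfl⟩ := filt_basis e hy
  choose F hF using hk
  have h1 : ∀ x, vec e ((Matrix.of fun i j => F (e.repr (b i) j)).map (ev x)) = b := fun x => by
    funext i
    simp only [vec, Matrix.map_apply, Matrix.of_apply, hF]
    exact e.sum_repr (b i)
  have h2 : ∀ x, ev x (Matrix.of fun i j => F (e.repr (b i) j)).det ≠ 0 := fun x =>
    (ea2_det (ev x) _).symm ▸ vec_det e _ ((h1 x).symm ▸ b.linearIndependent)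
  obtain ⟨x₀⟩ := ‹Nonempty X›
  exact ⟨_, _, w, 1, one_ne_zero, fun h => h2 x₀ (by rw [h, map_zero]), rfl,
    fun x _ => ⟨h2 x, by rw [h1]⟩⟩

theorem tm_rp [Nonempty X] {Γ J : Type*} (he : LinearIndependent k e)
    {o : Γ → ℝ → Submodule k V} {c : Γ → (Fin n × Fin n) ⊕ J → k} {wt : J → Fin n → ℝ}
    (hc : Crd e o c wt) (ι : X → ℕ → Γ) (hι : ∀ s j, ∃ F : R, ∀ x, ev x F = c (ι x s) j)
    {T : (ℕ → Γ) → ℝ → Submodule k V} (hT : Tm o T) : ∃ x', Rp ev e (fun x => T (ι x)) x' := by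
  induction hT with
  | gen s =>
    obtain ⟨x₀⟩ := ‹Nonempty X›
    obtain ⟨t, ht⟩ := hc.ex (ι x₀ s)
    choose F hF using hι s
    have h1 : ∀ x, (Matrix.of fun i j => F (.inl (i, j))).map (ev x) =
        Matrix.of fun i j => c (ι x s) (.inl (i, j)) := fun x => by
      ext i j
      exact hF _ x
    have h2 : ∀ x, ev x (Matrix.of fun i j => F (.inl (i, j))).det ≠ 0 := fun x => by
      rw [ea2_det, h1]
      exact hc.det _
    exact ⟨_, _, wt t, F (.inr t), fun h => ht (by rw [← hF, h, map_zero]),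
      fun h => h2 x₀ (by rw [h, map_zero]), rfl,
      fun x hx => ⟨h2 x, by rw [h1]; exact hc.eq _ t (hF _ x ▸ hx)⟩⟩
  | add _ _ h1 h2 =>
    obtain ⟨x', h1⟩ := h1
    obtain ⟨y', h2⟩ := h2
    exact ⟨_, h1.add he h2⟩
  | sc s hs _ h1 =>
    obtain ⟨x', h1⟩ := h1
    exact ⟨_, h1.sc hs⟩

theorem Tm.dep {L Γ : Type*} [CompleteLattice L] {o : Γ → ℝ → L} {T : (ℕ → Γ) → ℝ → L}
    (hT : Tm o T) : ∃ N : ℕ, ∀ ω ω' : ℕ → Γ, (∀ s, s < N → ω s = ω' s) → T ω = T ω' := by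
  induction hT with
  | gen s => exact ⟨s + 1, fun ω ω' h => congrArg o (h s s.lt_succ_self)⟩
  | add _ _ h1 h2 =>
    obtain ⟨N, h1⟩ := h1
    obtain ⟨N', h2⟩ := h2
    exact ⟨max N N', fun ω ω' h => congrArg₂ VC.add
      (h1 ω ω' fun s hs => h s (lt_max_of_lt_left hs))
      (h2 ω ω' fun s hs => h s (lt_max_of_lt_right hs))⟩
  | sc s _ _ h1 => exact h1.imp fun N h ω ω' h' => congrArg (VC.sc s) (h ω ω' h')

theorem Tm.perm {L Γ : Type*} [CompleteLattice L] {o : Γ → ℝ → L} {T : (ℕ → Γ) → ℝ → L}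
    (hT : Tm o T) (π : ℕ → ℕ) : Tm o fun ω => T (ω ∘ π) := by
  induction hT with
  | gen s => exact Tm.gen (π s)
  | add _ _ h1 h2 => exact h1.add h2
  | sc s hs _ h1 => exact h1.sc s hs

theorem Tm.eqv {L Γ : Type*} [CompleteLattice L] [Group Γ] {W : L} {D : Set (ℝ → L)}
    (hD : Cone W D) {a : Γ → (ℝ → L) → ℝ → L} (ha : AAct D a) {u : ℝ → L} (hu : u ∈ D)
    {T : (ℕ → Γ) → ℝ → L} (hT : Tm (fun g => a g u) T) (ω : ℕ → Γ) :
    T ω ∈ D ∧ ∀ g, T (fun s => g * ω s) = a g (T ω) := by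
  induction hT with
  | gen s => exact ⟨ha.mem _ _ hu, fun g => ha.mul _ _ _ hu⟩
  | add _ _ h1 h2 =>
    refine ⟨hD.add_mem _ h1.1 _ h2.1, fun g => ?_⟩
    beta_reduce
    rw [h1.2, h2.2, ha.add g _ h1.1 _ h2.1]
  | sc s hs _ h1 =>
    refine ⟨hD.sc_mem s hs _ h1.1, fun g => ?_⟩
    beta_reduce
    rw [h1.2, ha.sc g s hs _ h1.1]

end Pool.Agent.P.MP_6990a0_al.VC
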