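import Pool.Agent.P.MP_6990a0_al.VD

namespace Pool.Agent.P.MP_6990a0_al.VC

open Classical

variable {k Ω τ : Type*} [Field k]

theorem poly_tw (c c' : Ω → τ → k) (σ : k ≃+* k)
    (h : ∀ j, ∃ Q : MvPolynomial τ k, ∀ x, c' x j = σ (MvPolynomial.eval (c x) Q))
    (f : MvPolynomial τ k) :
    ∃ f' : MvPolynomial τ k, ∀ x, MvPolynomial.eval (c' x) f = σ (MvPolynomial.eval (c x) f') := by
  induction f using MvPolynomial.induction_on with
  | C a => exact ⟨MvPolynomial.C (σ.symm a), fun x => by simp⟩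
  | add p q hp hq =>
    obtain ⟨p', hp⟩ := hp
    obtain ⟨q', hq⟩ := hq
    exact ⟨p' + q', fun x => by simp only [map_add, hp, hq]⟩
  | mul_X p j hp =>
    obtain ⟨p', hp⟩ := hp
    obtain ⟨Q, hQ⟩ := h j
    exact ⟨p' * Q, fun x => by simp only [map_mul, hp, MvPolynomial.eval_X, hQ]⟩

theorem RR_gen (c : Ω → τ → k) (s : ℕ) (j : τ) : (fun ω : ℕ → Ω => c (ω s) j) ∈ RR c := by
  exact Algebra.subset_adjoin ⟨s, j, rfl⟩

theorem vg2_comp {A : Type*} (c : Ω → τ → k) (S : Subalgebra k (A → k)) (T : A → ℕ → Ω)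
    (h : ∀ s j, (fun a => c (T a s) j) ∈ S) : ∀ F ∈ RR c, (fun a => F (T a)) ∈ S := by
  intro F hF
  induction hF using Algebra.adjoin_induction with
  | mem F hF =>
    obtain ⟨s, j, rfl⟩ := hF
    exact h s j
  | algebraMap r => exact S.algebraMap_mem r
  | add F G _ _ hF hG => exact add_mem hF hG
  | mul F G _ _ hF hG => exact mul_mem hF hG

theorem vg2_eval (c : Ω → τ → k) (s : ℕ) (Q : MvPolynomial τ k) :
    (fun ω : ℕ → Ω => MvPolynomial.eval (c (ω s)) Q) ∈ RR c := by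
  induction Q using MvPolynomial.induction_on with
  | C a =>
    simp only [MvPolynomial.eval_C]
    exact (RR c).algebraMap_mem a
  | add p q hp hq =>
    simp only [map_add]
    exact add_mem hp hq
  | mul_X p j hp =>
    simp only [map_mul, MvPolynomial.eval_X]
    exact mul_mem hp (RR_gen c s j)

theorem vg2_slice (c : Ω → τ → k) (ω : ℕ → Ω) (s : ℕ) : ∀ F ∈ RR c,
    ∃ Q : MvPolynomial τ k, ∀ x, F (Function.update ω s x) = MvPolynomial.eval (c x) Q := by
  intro F hF
  induction hF using Algebra.adjoin_induction with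
  | mem F hF =>
    obtain ⟨t, j, rfl⟩ := hF
    by_cases hts : t = s
    · exact ⟨MvPolynomial.X j, fun x => by simp [hts]⟩
    · exact ⟨MvPolynomial.C (c (ω t) j), fun x => by simp [Function.update_of_ne hts]⟩
  | algebraMap r => exact ⟨MvPolynomial.C r, fun x => by simp⟩
  | add F G _ _ hF hG =>
    obtain ⟨P, hP⟩ := hF
    obtain ⟨Q, hQ⟩ := hG
    exact ⟨P + Q, fun x => by simp only [Pi.add_apply, map_add, hP, hQ]⟩
  | mul F G _ _ hF hG =>
    obtain ⟨P, hP⟩ := hF
    obtain ⟨Q, hQ⟩ := hG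
    exact ⟨P * Q, fun x => by simp only [Pi.mul_apply, map_mul, hP, hQ]⟩

theorem RR_perm (c : Ω → τ → k) : PermCl (RR c) := by
  intro π F hF
  exact vg2_comp c (RR c) (fun ω => ω ∘ π) (fun s j => RR_gen c (π s) j) F hF

theorem RR_fin (c : Ω → τ → k) : ∀ F ∈ RR c, ∃ N : ℕ, ∀ ω ω' : ℕ → Ω,
    (∀ s, s < N → ω s = ω' s) → F ω = F ω' := by
  intro F hF
  induction hF using Algebra.adjoin_induction with
  | mem F hF =>
    obtain ⟨s, j, rfl⟩ := hF
    exact ⟨s + 1, fun ω ω' h => by simp only [h s (Nat.lt_succ_self s)]⟩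
  | algebraMap r => exact ⟨0, fun _ _ _ => rfl⟩
  | add F G _ _ hF hG =>
    obtain ⟨N, hN⟩ := hF
    obtain ⟨M, hM⟩ := hG
    refine ⟨N + M, fun ω ω' h => ?_⟩
    rw [Pi.add_apply, Pi.add_apply, hN ω ω' fun s hs => h s (by omega),
      hM ω ω' fun s hs => h s (by omega)]
  | mul F G _ _ hF hG =>
    obtain ⟨N, hN⟩ := hF
    obtain ⟨M, hM⟩ := hG
    refine ⟨N + M, fun ω ω' h => ?_⟩
    rw [Pi.mul_apply, Pi.mul_apply, hN ω ω' fun s hs => h s (by omega),
      hM ω ω' fun s hs => h s (by omega)]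

theorem RR_mix (c : Ω → τ → k) (N : ℕ) (ω0 : ℕ → Ω) : ∀ F ∈ RR c,
    (fun ω : ℕ → Ω => F (fun s => if s < N then ω s else ω0 s)) ∈ RR c := by
  refine vg2_comp c (RR c) (fun ω s => if s < N then ω s else ω0 s) fun s j => ?_
  by_cases hs : s < N
  · simp only [if_pos hs]
    exact RR_gen c s j
  · simp only [if_neg hs]
    exact (RR c).algebraMap_mem (c (ω0 s) j)

theorem RR_dom [Nonempty Ω] (c : Ω → τ → k)
    (h : Irr (fun x : Ω => MvPolynomial.eval (c x)) Set.univ) : IsDomain (RR c) := by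
  have hnz : NoZeroDivisors (RR c) := by
    constructor
    rintro ⟨F, hF⟩ ⟨G, hG⟩ hFG
    by_contra hne
    rw [not_or] at hne
    have hF0 : ∃ ω, F ω ≠ 0 := by
      by_contra h0
      exact hne.1 (Subtype.ext (funext fun ω => not_not.1 fun h1 => h0 ⟨ω, h1⟩))
    have hG0 : ∃ ω, G ω ≠ 0 := by
      by_contra h0
      exact hne.2 (Subtype.ext (funext fun ω => not_not.1 fun h1 => h0 ⟨ω, h1⟩))
    have key : ∀ s : ℕ, ∃ ω ω' : ℕ → Ω, F ω ≠ 0 ∧ G ω' ≠ 0 ∧ ∀ t, t < s → ω t = ω' t := by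
      intro s
      induction s with
      | zero =>
        obtain ⟨ω, h1⟩ := hF0
        obtain ⟨ω', h2⟩ := hG0
        exact ⟨ω, ω', h1, h2, fun t ht => absurd ht (Nat.not_lt_zero t)⟩
      | succ s ih =>
        obtain ⟨ω, ω', h1, h2, h3⟩ := ih
        obtain ⟨Q, hQ⟩ := vg2_slice c ω s F hF
        obtain ⟨Q', hQ'⟩ := vg2_slice c ω' s G hG
        have h4 : ∃ x, MvPolynomial.eval (c x) Q ≠ 0 ∧ MvPolynomial.eval (c x) Q' ≠ 0 := by
          by_contra h5
          rcases h Q Q' (fun x _ => by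
            by_contra h6
            rw [not_or] at h6
            exact h5 ⟨x, h6⟩) with h6 | h6
          · have h7 := hQ (ω s)
            rw [Function.update_eq_self] at h7
            exact h1 (h7.trans (h6 _ (Set.mem_univ _)))
          · have h7 := hQ' (ω' s)
            rw [Function.update_eq_self] at h7
            exact h2 (h7.trans (h6 _ (Set.mem_univ _)))
        obtain ⟨x, h5, h6⟩ := h4
        refine ⟨Function.update ω s x, Function.update ω' s x, by rwa [hQ], by rwa [hQ'],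
          fun t ht => ?_⟩
        by_cases hts : t = s
        · rw [hts, Function.update_self, Function.update_self]
        · rw [Function.update_of_ne hts, Function.update_of_ne hts]
          exact h3 t (by omega)
    obtain ⟨N, hN⟩ := RR_fin c G hG
    obtain ⟨ω, ω', h1, h2, h3⟩ := key N
    rw [← hN ω ω' h3] at h2
    exact mul_ne_zero h1 h2 (congrFun (congrArg Subtype.val hFG) ω)
  exact NoZeroDivisors.to_isDomain _

theorem RR_tw (c : Ω → τ → k) (g : Ω → Ω) (hg : Function.Surjective g) (σ : k ≃+* k)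
    (h : ∀ j, ∃ Q : MvPolynomial τ k, ∀ x, c (g x) j = σ (MvPolynomial.eval (c x) Q))
    (F : RR c) (hF : F ≠ 0) :
    ∃ F' : RR c, F' ≠ 0 ∧ ∀ ω, evR (RR c) ω F' ≠ 0 → evR (RR c) (g ∘ ω) F ≠ 0 := by
  have key : ∀ G ∈ RR c, ∃ G' ∈ RR c, ∀ ω, G (g ∘ ω) = σ (G' ω) := by
    intro G hG
    induction hG using Algebra.adjoin_induction with
    | mem G hG =>
      obtain ⟨s, j, rfl⟩ := hG
      obtain ⟨Q, hQ⟩ := h j
      exact ⟨_, vg2_eval c s Q, fun ω => hQ (ω s)⟩
    | algebraMap r => exact ⟨_, (RR c).algebraMap_mem (σ.symm r), fun ω => by simp⟩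
    | add G H _ _ hG hH =>
      obtain ⟨G', h1, h2⟩ := hG
      obtain ⟨H', h3, h4⟩ := hH
      exact ⟨G' + H', add_mem h1 h3, fun ω => by simp only [Pi.add_apply, map_add, h2, h4]⟩
    | mul G H _ _ hG hH =>
      obtain ⟨G', h1, h2⟩ := hG
      obtain ⟨H', h3, h4⟩ := hH
      exact ⟨G' * H', mul_mem h1 h3, fun ω => by simp only [Pi.mul_apply, map_mul, h2, h4]⟩
  obtain ⟨F', h1, h2⟩ := key F.1 F.2
  refine ⟨⟨F', h1⟩, fun h0 => hF (Subtype.ext (funext fun ω0 => ?_)), fun ω hω h0 => hω ?_⟩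
  · have h3 : F' = 0 := congrArg Subtype.val h0
    obtain ⟨ω, rfl⟩ := hg.comp_left ω0
    have h4 := h2 ω
    rw [h3, Pi.zero_apply, map_zero] at h4
    exact h4
  · have h3 : σ (F' ω) = 0 := (h2 ω).symm.trans h0
    exact (map_eq_zero_iff σ σ.injective).1 h3

theorem perm_out (m : ℕ) (Z : Equiv.Perm ℕ → Prop) (h1 : Z 1)
    (hmul : ∀ π π', Z π → Z π' → Z (π * π'))
    (hS : ∀ (i : Fin (m + 1)) (π : Equiv.Perm ℕ),
      (∀ j : Fin (m + 1), j ≠ i → π j.val = j.val) → Z π) (N : ℕ) :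
    ∃ π, Z π ∧ ∀ s, s < N → N ≤ π s := by
  have key : ∀ s : ℕ, ∃ π, Z π ∧ ∀ t, t < s → N ≤ π t := by
    intro s
    induction s with
    | zero => exact ⟨1, h1, fun t ht => absurd ht (Nat.not_lt_zero t)⟩
    | succ s ih =>
      obtain ⟨π, hZ, hπ⟩ := ih
      have hc : ∀ t, t < s → π t ≤ ∑ u ∈ Finset.range s, π u := fun t ht =>
        Finset.single_le_sum (f := fun u => π u) (fun _ _ => Nat.zero_le _)
          (Finset.mem_range.2 ht)
      generalize ∑ u ∈ Finset.range s, π u = b at hc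
      refine ⟨Equiv.swap (π s) (N + m + 1 + b) * π, hmul _ _ ?_ hZ, fun t ht => ?_⟩
      · by_cases ha : π s < m + 1
        · refine hS ⟨π s, ha⟩ _ fun j hj => Equiv.swap_apply_of_ne_of_ne
            (fun e => hj (Fin.ext e)) ?_
          have := j.2
          omega
        · refine hS 0 _ fun j _ => Equiv.swap_apply_of_ne_of_ne ?_ ?_
          · have := j.2
            omega
          · have := j.2
            omega
      · rw [Equiv.Perm.mul_apply]
        by_cases hts : t = s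
        · rw [hts, Equiv.swap_apply_left]
          omega
        · have h2 := hc t (by omega)
          rw [Equiv.swap_apply_of_ne_of_ne (fun e => hts (π.injective e)) (by omega)]
          exact hπ t (by omega)
  exact key N

end Pool.Agent.P.MP_6990a0_al.VC
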