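import Pool.Agent.P.MP_6990a0_al.EA1
import Pool.Agent.P.MP_6990a0_al.VG2

/-! The iterated quantifier. -/

namespace Pool.Agent.P.MP_6990a0_al.VC

open Filter Function

variable {X : Type*} {𝒱 𝒱' : ℕ → Ultrafilter X} {S S' : Set (ℕ → X)}

theorem QQ_mono (h : S ⊆ S') : ∀ m ω, QQ 𝒱 S m ω → QQ 𝒱 S' m ω
  | 0, _, hq => h hq
  | m + 1, _, hq => mem_of_superset hq fun _ hx => QQ_mono h m _ hx

theorem QQ_inter : ∀ m ω, QQ 𝒱 S m ω → QQ 𝒱 S' m ω → QQ 𝒱 (S ∩ S') m ω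
  | 0, _, hq, hq' => ⟨hq, hq'⟩
  | m + 1, _, hq, hq' => mem_of_superset (inter_mem hq hq') fun _ hx => QQ_inter m _ hx.1 hx.2

theorem QQ_ne : ∀ m ω, QQ 𝒱 S m ω → S.Nonempty
  | 0, _, hq => ⟨_, hq⟩
  | m + 1, _, hq => let ⟨_, hx⟩ := Ultrafilter.nonempty_of_mem hq; QQ_ne m _ hx

theorem ea3_upd {ω ω' : ℕ → X} {m s : ℕ} (x : X) (hs : m ≤ s) (h : m + 1 ≤ s → ω s = ω' s) :
    update ω m x s = update ω' m x s := by
  rcases hs.eq_or_lt with rfl | e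
  · simp
  · rw [update_of_ne e.ne', update_of_ne e.ne', h e]

theorem QQ_base : ∀ m ω ω', (∀ s, m ≤ s → ω s = ω' s) → QQ 𝒱 S m ω → QQ 𝒱 S m ω'
  | 0, _, _, h, hq => (funext fun s => h s s.zero_le) ▸ hq
  | m + 1, _, _, h, hq => mem_of_superset hq fun x hx =>
    QQ_base m _ _ (fun s hs => ea3_upd x hs (h s)) hx

theorem QQ_dep {N : ℕ} (hS : ∀ ω ω' : ℕ → X, (∀ s, s < N → ω s = ω' s) → ω ∈ S → ω' ∈ S) :
    ∀ m ω ω', (∀ s, m ≤ s → s < N → ω s = ω' s) → QQ 𝒱 S m ω → QQ 𝒱 S m ω'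
  | 0, _, _, h, hq => hS _ _ (fun s => h s s.zero_le) hq
  | m + 1, _, _, h, hq => mem_of_superset hq fun x hx =>
    QQ_dep hS m _ _ (fun s hs hN => ea3_upd x hs fun e => h s e hN) hx

theorem QQ_congr : ∀ m ω, (∀ s, s < m → 𝒱 s = 𝒱' s) → QQ 𝒱 S m ω → QQ 𝒱' S m ω
  | 0, _, _, hq => hq
  | m + 1, ω, h, hq => by
    show _ ∈ 𝒱' m
    rw [← h m m.lt_succ_self]
    exact mem_of_superset hq fun x hx => QQ_congr m _ (fun s hs => h s (hs.trans m.lt_succ_self)) hx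

theorem QQ_map (g : X → X) : ∀ m ω, QQ (fun s => (𝒱 s).map g) S m (fun s => g (ω s)) ↔
    QQ 𝒱 {ω | (fun s => g (ω s)) ∈ S} m ω
  | 0, _ => Iff.rfl
  | m + 1, ω => by
    show {x | QQ (fun s => (𝒱 s).map g) S m (update (fun s => g (ω s)) m (g x))} ∈ 𝒱 m ↔
      {x | QQ 𝒱 _ m (update ω m x)} ∈ 𝒱 m
    have e : ∀ x, update (fun s => g (ω s)) m (g x) = fun s => g (update ω m x s) := fun x =>
      funext fun s => (apply_update (fun _ => g) ω m x s).symm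
    simp only [e, QQ_map g m]

variable {k τ : Type*} [Field k] [Finite τ] (c : X → τ → k)

theorem QQ_box : ∀ m ω, QQ 𝒱 (Box (fun s => UW (evc c) (𝒱 s)) m ω) m ω
  | 0, _ => ⟨fun _ h => absurd h (Nat.not_lt_zero _), fun _ _ => rfl⟩
  | m + 1, ω => by
    refine mem_of_superset (UW_mem (evc c) (𝒱 m)) fun x hx => ?_
    refine QQ_mono (S := Box (fun s => UW (evc c) (𝒱 s)) m (update ω m x))
      (fun η hη => And.intro (fun s hs => ?_) fun s hs => ?_) m _ (QQ_box m _)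
    · rcases (Nat.le_of_lt_succ hs).eq_or_lt with rfl | e
      · rw [hη.2 s le_rfl, update_self]
        exact hx
      · exact hη.1 s e
    · rw [hη.2 s (Nat.le_of_succ_le hs), update_of_ne (Nat.ne_of_gt hs)]

omit [Finite τ] in
theorem QQ_gen {F : (ℕ → X) → k} (hF : F ∈ RR c) : ∀ m ω,
    (∀ s, s < m → ω s ∈ UW (evc c) (𝒱 s)) → F ω ≠ 0 → QQ 𝒱 {ω | F ω ≠ 0} m ω
  | 0, _, _, h => h
  | m + 1, ω, hω, h => by
    obtain ⟨Q, hQ⟩ := vg2_slice c ω m F hF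
    have h1 : {y | evc c y Q = 0} ∉ 𝒱 m := fun e => h (by
      rw [← update_eq_self m ω, hQ]
      exact hω m m.lt_succ_self Q e)
    refine mem_of_superset (Ultrafilter.compl_mem_iff_notMem.2 h1) fun x hx =>
      QQ_gen hF m _ (fun s hs => ?_) (by rw [hQ]; exact hx)
    rw [update_of_ne hs.ne]
    exact hω s (hs.trans m.lt_succ_self)

/-- A function that is not zero on the box is not zero at most points of the box. -/
theorem QQ_gen_box {F : (ℕ → X) → k} (hF : F ∈ RR c) {m : ℕ} {ω₀ ω : ℕ → X}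
    (hω : ω ∈ Box (fun s => UW (evc c) (𝒱 s)) m ω₀) (h : F ω ≠ 0) :
    QQ 𝒱 (Box (fun s => UW (evc c) (𝒱 s)) m ω₀ ∩ {ω | F ω ≠ 0}) m ω₀ :=
  QQ_inter m _ (QQ_box c m ω₀) (QQ_base m _ _ hω.2 (QQ_gen c hF m ω hω.1 h))

/-- The ring of functions on a box is a domain. -/
theorem box_ring (𝒱 : ℕ → Ultrafilter X) (m : ℕ) (ω₀ : ℕ → X) :
    ∃ R : Subalgebra k (Box (fun s => UW (evc c) (𝒱 s)) m ω₀ → k), IsDomain R ∧
      (∀ s j, (fun ω => c (ω.1 s) j) ∈ R) ∧ ∀ f ∈ R, ∃ F ∈ RR c, ∀ ω, f ω = F ω.1 := by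
  let ρ : ((ℕ → X) → k) →ₐ[k] (Box (fun s => UW (evc c) (𝒱 s)) m ω₀ → k) :=
    AlgHom.pi fun ω => Pi.evalAlgHom k _ ω.1
  have := (QQ_ne m ω₀ (QQ_box (𝒱 := 𝒱) c m ω₀)).to_subtype
  refine ⟨(RR c).map ρ, ?_, fun s j => ⟨_, RR_gen c s j, rfl⟩, ?_⟩
  · have : NoZeroDivisors ((RR c).map ρ) := ⟨by
      rintro ⟨_, F, hF, rfl⟩ ⟨_, G, hG, rfl⟩ e
      by_contra hne
      rw [not_or] at hne
      obtain ⟨ω, hω⟩ := ne_iff.1 fun h => hne.1 (Subtype.ext h)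
      obtain ⟨η, hη⟩ := ne_iff.1 fun h => hne.2 (Subtype.ext h)
      obtain ⟨z, hz, hz'⟩ := QQ_ne m _
        (QQ_inter m _ (QQ_gen_box c hF ω.2 hω) (QQ_gen_box c hG η.2 hη))
      exact mul_ne_zero hz.2 hz'.2 (congrFun (congrArg Subtype.val e) ⟨z, hz.1⟩)⟩
    exact NoZeroDivisors.to_isDomain _
  · rintro _ ⟨F, hF, rfl⟩
    exact ⟨F, hF, fun _ => rfl⟩

end Pool.Agent.P.MP_6990a0_al.VC
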