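import Pool.Agent.P.MP_6990a0_al.VT4

namespace Pool.Agent.P.MP_6990a0_al.VC

open Classical

variable {L : Type*} [CompleteLattice L]

theorem vt5_mul {Γ : Type*} [Group Γ] {a : Γ → L ≃o L} (ha : Act a) (g h : Γ) (x : ℝ → L) :
    a (g * h) ∘ x = a g ∘ (a h ∘ x) := funext fun t => ha.mul g h (x t)

theorem vt5_pow {Γ : Type*} [Group Γ] {a : Γ → L ≃o L} (ha : Act a) (g : Γ) (n : ℕ) (B : L) :
    (a g)^[n] B = a (g ^ n) B := by
  induction n with
  | zero => rw [pow_zero, ha.one]; rfl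
  | succ n ih => rw [Function.iterate_succ_apply', ih, pow_succ', ha.mul]

theorem ab_fix (r : L → ℕ) (hr : StrictMono r) {W : L} {D : Set (ℝ → L)} (hD : Cone W D)
    {Γ : Type*} [Group Γ] (a : Γ → L ≃o L) (ha : Act a) (hW : ∀ g, a g W = W)
    (hinv : ∀ g, ∀ x ∈ D, a g ∘ x ∈ D) (M M' : Subgroup Γ) [M.FiniteIndex] (hle : M ≤ M')
    (hc : ∀ g ∈ M', ∀ h ∈ M', g * h * g⁻¹ * h⁻¹ ∈ M)
    (h0 : ∃ x ∈ D, ∀ g ∈ M, a g ∘ x = x) : ∃ x ∈ D, ∀ g ∈ M', a g ∘ x = x := by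
  have key : ∀ T : Finset Γ, (∀ t ∈ T, t ∈ M') → (Fix a D ((M : Set Γ) ∪ T)).Nonempty := by
    intro T
    induction T using Finset.induction_on with
    | empty =>
      intro _
      obtain ⟨x, hx, h⟩ := h0
      exact ⟨x, hx, fun g hg => h g (by simpa using hg)⟩
    | insert g T _ ih =>
      intro hT
      have hT' : ∀ t ∈ T, t ∈ M' := fun t ht => hT t (Finset.mem_insert_of_mem ht)
      have hg : g ∈ M' := hT g (Finset.mem_insert_self _ _)
      obtain ⟨n, hn, -, hgn⟩ :=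
        Subgroup.exists_pow_mem_of_index_ne_zero (Subgroup.FiniteIndex.index_ne_zero (H := M)) g
      obtain ⟨x, hx, hfx⟩ := cyc_fix r hr (fix_cone a hD _ (ih hT')) n hn (a g) (hW g)
        (fun x hx => ⟨hinv g x hx.1, fun h hh => by
          have hh' : h ∈ M' := hh.elim (fun h1 => hle h1) fun h1 => hT' h h1
          have h1 := hc g⁻¹ (M'.inv_mem hg) h hh'
          rw [← vt5_mul ha, show h * g = g * ((g⁻¹ * h * g⁻¹⁻¹ * h⁻¹) * h) by group,
            vt5_mul ha, vt5_mul ha, hx.2 h hh, hx.2 _ (Or.inl h1)]⟩)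
        (fun x hx => by
          funext t
          exact (vt5_pow ha g n (x t)).trans (congrFun (hx.2 _ (Or.inl hgn)) t))
      refine ⟨x, hx.1, fun h hh => ?_⟩
      rcases hh with hh | hh
      · exact hx.2 h (Or.inl hh)
      · rcases Finset.mem_insert.1 hh with rfl | hh
        · exact hfx
        · exact hx.2 h (Or.inr hh)
  have : Fintype (Γ ⧸ M) := Fintype.ofFinite _
  obtain ⟨x, hx, hfx⟩ := key
    ((Finset.univ.image fun q : Γ ⧸ M => Quotient.out q).filter (· ∈ M'))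
    (fun t ht => (Finset.mem_filter.1 ht).2)
  refine ⟨x, hx, fun g hg => ?_⟩
  obtain ⟨m, hm⟩ := QuotientGroup.mk_out_eq_mul M g
  have h1 : g * m ∈ M' := M'.mul_mem hg (hle m.2)
  have h2 : a (g * m) ∘ x = x := hfx _ (Or.inr (Finset.mem_coe.2 (Finset.mem_filter.2
    ⟨Finset.mem_image.2 ⟨(g : Γ ⧸ M), Finset.mem_univ _, hm⟩, h1⟩)))
  rwa [vt5_mul ha, hfx _ (Or.inl m.2)] at h2

theorem solv_fix (r : L → ℕ) (hr : StrictMono r) {W : L} {D : Set (ℝ → L)} (hD : Cone W D)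
    {Γ : Type*} [Group Γ] (a : Γ → L ≃o L) (ha : Act a) (hW : ∀ g, a g W = W)
    (hinv : ∀ g, ∀ x ∈ D, a g ∘ x ∈ D) (N : Subgroup Γ) [N.Normal] [N.FiniteIndex]
    (h0 : ∃ x ∈ D, ∀ g ∈ N, a g ∘ x = x) (H : Subgroup Γ)
    (hH : IsSolvable (H.map (QuotientGroup.mk' N))) : ∃ x ∈ D, ∀ g ∈ H, a g ∘ x = x := by
  obtain ⟨n, hn⟩ := hH.solvable
  obtain ⟨M, hM⟩ : ∃ M : ℕ → Subgroup Γ, ∀ i, M i =
      ((derivedSeries (H.map (QuotientGroup.mk' N)) i).map
        (H.map (QuotientGroup.mk' N)).subtype).comap (QuotientGroup.mk' N) := ⟨_, fun _ => rfl⟩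
  have hN : ∀ i, N ≤ M i := by
    intro i g hg
    rw [hM, Subgroup.mem_comap, (QuotientGroup.eq_one_iff (N := N) g).2 hg |> fun e => show
      QuotientGroup.mk' N g = 1 from e]
    exact Subgroup.one_mem _
  have hc : ∀ i, ∀ g ∈ M i, ∀ h ∈ M i, g * h * g⁻¹ * h⁻¹ ∈ M (i + 1) := by
    intro i g hg h hh
    rw [hM, Subgroup.mem_comap] at hg hh ⊢
    obtain ⟨g', hg', e1⟩ := hg
    obtain ⟨h', hh', e2⟩ := hh
    refine ⟨g' * h' * g'⁻¹ * h'⁻¹, Subgroup.commutator_mem_commutator hg' hh', ?_⟩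
    simp only [map_mul, map_inv, e1, e2]
  have hle : ∀ i, M (i + 1) ≤ M i := by
    intro i
    rw [hM, hM]
    exact Subgroup.comap_mono (Subgroup.map_mono (derivedSeries_antitone _ (Nat.le_succ i)))
  have key : ∀ j i, i + j = n → ∃ x ∈ D, ∀ g ∈ M i, a g ∘ x = x := by
    intro j
    induction j with
    | zero =>
      intro i hi
      obtain ⟨x, hx, h⟩ := h0
      refine ⟨x, hx, fun g hg => h g ?_⟩
      rw [hM, show i = n by omega, hn, Subgroup.map_bot, Subgroup.mem_comap,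
        Subgroup.mem_bot] at hg
      exact (QuotientGroup.eq_one_iff g).1 hg
    | succ j ih =>
      intro i hi
      have : (M (i + 1)).FiniteIndex := Subgroup.finiteIndex_of_le (hN _)
      exact ab_fix r hr hD a ha hW hinv (M (i + 1)) (M i) (hle i) (hc i) (ih (i + 1) (by omega))
  obtain ⟨x, hx, h⟩ := key n 0 (by omega)
  refine ⟨x, hx, fun g hg => h g ?_⟩
  rw [hM, Subgroup.mem_comap]
  exact ⟨⟨_, Subgroup.mem_map_of_mem _ hg⟩, Subgroup.mem_top _, rfl⟩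

end Pool.Agent.P.MP_6990a0_al.VC
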