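import Pool.Agent.P.MP_6990a0_al.VG7
import Pool.Agent.P.MP_6990a0_al.VT5

namespace Pool.Agent.P.MP_6990a0_al.VC

open Classical

variable {k V : Type*} [Field k] [AddCommGroup V] [Module k V]
variable {Γ : Type*} [Group Γ] [MulSemiringAction Γ k] [DistribMulAction Γ V]
  (semi : ∀ (g : Γ) (c : k) (v : V), g • (c • v) = (g • c) • (g • v))

universe u in
theorem vg8_aux [FiniteDimensional k V] (n : ℕ) :
    ∀ (G : Type u) [Group G] [MulSemiringAction G k] [DistribMulAction G V]
      (sg : ∀ (g : G) (c : k) (v : V), g • (c • v) = (g • c) • (g • v))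
      (W : Submodule k V) (D : Set (ℝ → Submodule k V)), Module.finrank k W = n → Cone W D →
      (∀ g, lat sg g W = W) → (∀ g, ∀ x ∈ D, lat sg g ∘ x ∈ D) →
      ∃ H : Subgroup G, H.FiniteIndex ∧ ∃ x ∈ D, ∀ g ∈ H, lat sg g ∘ x = x := by
  induction n using Nat.strong_induction_on with
  | _ n ih =>
    intro G _ _ _ sg W D hn hD hG hinv
    by_cases hW : W = ⊥
    · subst hW
      obtain ⟨x, hx⟩ := hD.ne
      exact ⟨⊤, inferInstance, x, hx, fun g _ => fixed_of_filt_bot (hD.filt x hx) _⟩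
    · obtain ⟨H, hH, T0, hT0, hfix⟩ := virt_top sg hW hD hG hinv
      have hr : StrictMono (fun S : Submodule k V => Module.finrank k S) :=
        Submodule.finrank_strictMono
      have hb := bots_spec _ hr hW hD hT0
      have hlt : Module.finrank k T0 < n := by
        rw [← hn]
        exact hr (lt_of_le_of_ne hb.1 hb.2)
      let sH : ∀ (g : H) (c : k) (v : V), g • (c • v) = (g • c) • (g • v) :=
        fun g c v => sg g.1 c v
      have hl : ∀ g : H, lat sH g = lat sg g.1 := fun g => rfl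
      obtain ⟨H', hH', y, hy, hyfix⟩ := ih _ hlt H sH T0 (resD W T0 D) rfl
        (resD_cone _ hr hW hD hT0) (fun g => by rw [hl]; exact hfix g.1 g.2)
        (fun g => by
          rw [hl]
          exact resD_map _ (hG g.1) (hfix g.1 g.2) (hinv g.1))
      obtain ⟨x, hx, hxb, rfl⟩ := hy
      refine ⟨H'.map H.subtype, ⟨?_⟩, x, hx, ?_⟩
      · rw [Subgroup.index_map_subtype]
        exact mul_ne_zero hH'.index_ne_zero hH.index_ne_zero
      · rintro _ ⟨g, hg, rfl⟩
        have h1 := hyfix g hg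
        rw [hl] at h1
        exact fixed_of_res _ (hG g.1) hxb h1

theorem virt [FiniteDimensional k V] {W : Submodule k V}
    {D : Set (ℝ → Submodule k V)} (hD : Cone W D) (hΓ : ∀ g, lat semi g W = W)
    (hinv : ∀ g, ∀ x ∈ D, lat semi g ∘ x ∈ D) :
    ∃ H : Subgroup Γ, H.FiniteIndex ∧ ∃ x ∈ D, ∀ g ∈ H, lat semi g ∘ x = x := by
  exact vg8_aux _ Γ semi W D rfl hD hΓ hinv

theorem core [FiniteDimensional k V] {D : Set (ℝ → Submodule k V)} (hD : Cone ⊤ D)
    (hinv : ∀ g, ∀ x ∈ D, lat semi g ∘ x ∈ D) :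
    ∃ (N : Subgroup Γ) (_ : N.Normal), N.FiniteIndex ∧ ∀ H : Subgroup Γ,
      IsSolvable (H.map (QuotientGroup.mk' N)) → ∃ x ∈ D, ∀ g ∈ H, lat semi g ∘ x = x := by
  have htop : ∀ g, lat semi g ⊤ = ⊤ := fun g => (lat semi g).map_top
  obtain ⟨H, hH, x, hx, hfix⟩ := virt semi hD htop hinv
  refine ⟨H.normalCore, inferInstance, inferInstance, fun K hK => ?_⟩
  exact solv_fix (fun S : Submodule k V => Module.finrank k S) Submodule.finrank_strictMono hD
    (lat semi) (act_lat semi) htop hinv H.normalCore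
    ⟨x, hx, fun g hg => hfix g (H.normalCore_le hg)⟩ K hK

end Pool.Agent.P.MP_6990a0_al.VC
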