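import Pool.Agent.P.MP_6990a0_al.EA2
import Pool.Agent.P.MP_6990a0_al.VG8

/-! Some term is generically constant. -/

namespace Pool.Agent.P.MP_6990a0_al.VC

theorem perm_off (H : Subgroup (Equiv.Perm ℕ)) [H.FiniteIndex] (N : ℕ) :
    ∃ π ∈ H, ∀ s, s < N → N ≤ π s := by
  let e : ℤ ≃ ℕ := Denumerable.eqv ℤ
  obtain ⟨b, hb⟩ : ∃ b : ℕ, ∀ s, s < N → (e.symm s).natAbs ≤ b :=
    ⟨∑ u ∈ Finset.range N, (e.symm u).natAbs, fun t ht =>
      Finset.single_le_sum (f := fun u => (e.symm u).natAbs) (fun _ _ => Nat.zero_le _)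
        (Finset.mem_range.2 ht)⟩
  let σ : Equiv.Perm ℕ := e.permCongr (Equiv.addRight ((2 * b + 1 : ℕ) : ℤ))
  have hσ : ∀ (m : ℕ) s, e.symm ((σ ^ m) s) = e.symm s + ((m * (2 * b + 1) : ℕ) : ℤ) := by
    intro m
    induction m with
    | zero => intro s; simp
    | succ m ih =>
      intro s
      have h1 : e.symm (σ ((σ ^ m) s)) = e.symm ((σ ^ m) s) + ((2 * b + 1 : ℕ) : ℤ) := by
        simp only [σ, Equiv.permCongr_apply, Equiv.symm_apply_apply, Equiv.coe_addRight]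
      rw [pow_succ', Equiv.Perm.mul_apply, h1, ih]
      push_cast
      ring
  obtain ⟨m, hm, -, hH⟩ := H.exists_pow_mem_of_index_ne_zero Subgroup.FiniteIndex.index_ne_zero σ
  refine ⟨σ ^ m, hH, fun s hs => ?_⟩
  by_contra hlt
  have h1 := hb _ (not_le.1 hlt)
  have h2 := hb s hs
  have h3 : 2 * b + 1 ≤ m * (2 * b + 1) := Nat.le_mul_of_pos_left _ hm
  rw [hσ] at h1
  generalize m * (2 * b + 1) = q at h1 h3
  omega

variable {k V : Type*} [Field k] [AddCommGroup V] [Module k V] {n : ℕ}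

theorem RR_ext {X τ : Type*} (c : X → τ → k) (Ω : Set X) {f : (ℕ → Ω) → k}
    (hf : f ∈ RR fun x : Ω => c x.1) : ∃ F ∈ RR c, ∀ ω, f ω = F fun s => (ω s).1 := by
  induction hf using Algebra.adjoin_induction with
  | mem F hF =>
    obtain ⟨s, j, rfl⟩ := hF
    exact ⟨_, RR_gen c s j, fun _ => rfl⟩
  | algebraMap r => exact ⟨_, (RR c).algebraMap_mem r, fun _ => rfl⟩
  | add F G _ _ hF hG =>
    obtain ⟨F', h1, h2⟩ := hF
    obtain ⟨G', h3, h4⟩ := hG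
    exact ⟨F' + G', add_mem h1 h3, fun ω => by simp only [Pi.add_apply, h2, h4]⟩
  | mul F G _ _ hF hG =>
    obtain ⟨F', h1, h2⟩ := hF
    obtain ⟨G', h3, h4⟩ := hG
    exact ⟨F' * G', mul_mem h1 h3, fun ω => by simp only [Pi.mul_apply, h2, h4]⟩

theorem ea4_virt {K Γ : Type*} [Field K] [Group Γ] (φ : Γ →* RingAut K)
    (Φ : Γ → Submodule K (Fin n → K) ≃o Submodule K (Fin n → K))
    (hΦ : ∀ g S, Φ g S = Submodule.span K ((fun v j => φ g (v j)) '' (S : Set (Fin n → K))))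
    {D : Set (ℝ → Submodule K (Fin n → K))} (hD : Cone ⊤ D) (hinv : ∀ g, ∀ x ∈ D, Φ g ∘ x ∈ D) :
    ∃ H : Subgroup Γ, H.FiniteIndex ∧ ∃ x ∈ D, ∀ g ∈ H, Φ g ∘ x = x := by
  let _ : MulSemiringAction Γ K := MulSemiringAction.compHom _ φ
  have semi : ∀ (g : Γ) (c : K) (v : Fin n → K), g • (c • v) = (g • c) • (g • v) :=
    fun g c v => funext fun j => smul_mul' g c (v j)
  have hl : ∀ g, lat semi g = Φ g := fun g => by
    refine OrderIso.ext (funext fun S => ?_)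
    rw [hΦ, ← Submodule.span_eq (lat semi g S), coe_lat]
    rfl
  obtain ⟨H, hH, x, hx, h⟩ := virt semi hD (fun g => (lat semi g).map_top) fun g => by
    rw [hl]
    exact hinv g
  exact ⟨H, hH, x, hx, fun g hg => hl g ▸ h g hg⟩

theorem virt_perm {Ω : Type*} (R : Subalgebra k ((ℕ → Ω) → k)) [IsDomain R] (hp : PermCl R)
    {D : Set (ℝ → Submodule (FractionRing R) (Fin n → FractionRing R))} (hD : Cone ⊤ D)
    (hinv : ∀ π, ∀ x ∈ D, phiP R hp n π ∘ x ∈ D) :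
    ∃ H : Subgroup (Equiv.Perm ℕ), H.FiniteIndex ∧ ∃ x ∈ D, ∀ π ∈ H, phiP R hp n π ∘ x = x := by
  refine ea4_virt
    { toFun := prmK R hp
      map_one' := RingEquiv.ext (vg4_prmK_one R hp)
      map_mul' := fun π π' => RingEquiv.ext (vg4_prmK_mul R hp π π') } (phiP R hp n)
    (fun π S => ?_) hD hinv
  have h1 := vg4_phiP_set R hp π (S : Set (Fin n → FractionRing R))
  rw [Submodule.span_eq] at h1
  exact h1

theorem Rp.perm {Ω : Type*} {R : Subalgebra k ((ℕ → Ω) → k)} [IsDomain R] (hp : PermCl R)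
    {e : Fin n → V} {Φ : (ℕ → Ω) → ℝ → Submodule k V} {x' : ℝ → Submodule _ _}
    (h : Rp (evR R) e Φ x') (π : Equiv.Perm ℕ) :
    Rp (evR R) e (fun ω => Φ (ω ∘ π)) (phiP R hp n π ∘ x') := by
  obtain ⟨B, w, f, hf, hB, rfl, hs⟩ := h
  have hd : (B.map (prm R hp π)).det = prm R hp π B.det := by
    rw [RingEquiv.map_det]
    rfl
  refine ⟨B.map (prm R hp π), w, prm R hp π f, (map_ne_zero_iff _ (prm R hp π).injective).2 hf,
    ?_, funext fun t => phiP_span R hp π B _, fun ω hω => ?_⟩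
  · rw [hd]
    exact (map_ne_zero_iff _ (prm R hp π).injective).2 hB
  · obtain ⟨h1, h2⟩ := hs (ω ∘ π) hω
    rw [hd]
    exact ⟨h1, h2⟩

theorem gen_const {Γ J : Type*} {e : Fin n → V} (he : LinearIndependent k e)
    {o : Γ → ℝ → Submodule k V} {c : Γ → (Fin n × Fin n) ⊕ J → k} {wt : J → Fin n → ℝ}
    (hc : Crd e o c wt) {Ω : Set Γ} (hne : Ω.Nonempty) (hirr : Irr (evc c) Ω) :
    ∃ T, Tm o T ∧ ∃ y, ∃ F ∈ RR c, (∃ ω : ℕ → Γ, (∀ s, ω s ∈ Ω) ∧ F ω ≠ 0) ∧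
      ∀ ω : ℕ → Γ, (∀ s, ω s ∈ Ω) → F ω ≠ 0 → T ω = y := by
  have : Nonempty Ω := hne.to_subtype
  have hirr' : Irr (fun x : Ω => MvPolynomial.eval (c x.1)) Set.univ := by
    intro p q hpq
    rcases hirr p q (fun x hx => hpq ⟨x, hx⟩ trivial) with h | h
    · exact Or.inl fun x _ => h x.1 x.2
    · exact Or.inr fun x _ => h x.1 x.2
  have : IsDomain (RR fun x : Ω => c x.1) := RR_dom _ hirr'
  have hp : PermCl (RR fun x : Ω => c x.1) := RR_perm _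
  have hD : Cone ⊤ {x' | ∃ T, Tm o T ∧
      Rp (evR (RR fun x : Ω => c x.1)) e (fun ω => T fun s => (ω s).1) x'} := by
    refine ⟨?_, ?_, ?_, ?_⟩
    · obtain ⟨x', hx'⟩ := tm_rp (ev := evR (RR fun x : Ω => c x.1)) he hc (fun ω s => (ω s).1)
        (fun s j => ⟨⟨_, RR_gen (fun x : Ω => c x.1) s j⟩, fun _ => rfl⟩) (Tm.gen 0)
      exact ⟨x', _, Tm.gen 0, hx'⟩
    · rintro x ⟨T, -, h⟩
      exact h.filt
    · rintro x ⟨T, hT, h⟩ y ⟨T', hT', h'⟩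
      exact ⟨_, hT.add hT', h.add he h'⟩
    · rintro s hs x ⟨T, hT, h⟩
      exact ⟨_, hT.sc s hs, h.sc hs⟩
  obtain ⟨H, hH, x', ⟨T, hT, hx⟩, hfix⟩ := virt_perm _ hp hD (by
    rintro π x ⟨T, hT, h⟩
    exact ⟨_, hT.perm π, h.perm hp π⟩)
  obtain ⟨N, hN⟩ := hT.dep
  obtain ⟨π, hπ, hoff⟩ := perm_off H N
  have h2 := hx.perm hp π
  rw [hfix π hπ] at h2
  obtain ⟨f, hf, hfe⟩ := hx.eq h2
  obtain ⟨ω0, hω0⟩ := evR_ne _ hf
  obtain ⟨F, hF, hFe⟩ := RR_ext c Ω (RR_mix _ N ω0 f.1 f.2)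
  refine ⟨T, hT, T fun s => (ω0 (π s)).1, F, hF, ⟨fun s => (ω0 s).1, fun s => (ω0 s).2, ?_⟩,
    fun ω hω h0 => ?_⟩
  · rw [← hFe]
    simp only [ite_self]
    exact hω0
  · have h3 := hFe fun s => ⟨ω s, hω s⟩
    have h4 := hfe (fun s => if s < N then ⟨ω s, hω s⟩ else ω0 s) fun h => h0 (h3.symm.trans h)
    refine (hN _ _ fun s hs => ?_).trans (h4.trans (hN _ _ fun s hs => ?_))
    · simp only [if_pos hs]
    · simp only [Function.comp, if_neg (not_lt.2 (hoff s hs))]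

end Pool.Agent.P.MP_6990a0_al.VC
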