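import Pool.Agent.P.MP_6990a0_al.EA3
import Pool.Agent.P.MP_6990a0_al.EA4

/-! A subgroup of finite index fixes a point. -/

namespace Pool.Agent.P.MP_6990a0_al.VC

variable {k V : Type*} [Field k] [AddCommGroup V] [Module k V] {n : ℕ} {Γ J : Type*} [Finite J]
  {e : Module.Basis (Fin n) k V} {c : Γ → (Fin n × Fin n) ⊕ J → k} {wt : J → Fin n → ℝ}
  {T : (ℕ → Γ) → ℝ → Submodule k V}

theorem ea5_gen {X τ : Type*} [Finite τ] (c : X → τ → k) (𝒱 : ℕ → Ultrafilter X) (m : ℕ)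
    (ω : ℕ → X) {F : (ℕ → X) → k} (hF : F ∈ RR c) {ω₂ : ℕ → X}
    (h2 : ω₂ ∈ Box (fun s => UW (evc c) (𝒱 s)) m ω) (h0 : F ω₂ ≠ 0) :
    QQ 𝒱 (Box (fun s => UW (evc c) (𝒱 s)) m ω ∩ {ω | F ω ≠ 0}) m ω :=
  QQ_inter m ω (QQ_box c m ω) (QQ_base m ω₂ ω h2.2 (QQ_gen c hF m ω₂ h2.1 h0))

theorem QQ_det {o : Γ → ℝ → Submodule k V} (hc : Crd e o c wt) (hT : Tm o T)
    {y : ℝ → Submodule k V} (hy : Filt ⊤ y) {𝒱 𝒱' : ℕ → Ultrafilter Γ} (m : ℕ) (ω : ℕ → Γ)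
    (h : ∀ s, UW (evc c) (𝒱 s) = UW (evc c) (𝒱' s)) (hQ : QQ 𝒱 {ω | T ω = y} m ω) :
    QQ 𝒱' {ω | T ω = y} m ω := by
  have hb : (fun s => UW (evc c) (𝒱' s)) = fun s => UW (evc c) (𝒱 s) := (funext h).symm
  obtain ⟨R, hR, hgen, hext⟩ := box_ring c 𝒱 m ω
  have : Nonempty (Box (fun s => UW (evc c) (𝒱 s)) m ω) :=
    (QQ_ne m ω (QQ_box c m ω)).to_subtype
  let ev : Box (fun s => UW (evc c) (𝒱 s)) m ω → R →+* k := fun x =>
    (Pi.evalRingHom _ x).comp R.val.toRingHom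
  obtain ⟨x', hx'⟩ := tm_rp (ev := ev) e.linearIndependent hc Subtype.val
    (fun s j => ⟨⟨_, hgen s j⟩, fun _ => rfl⟩) hT
  obtain ⟨y', hy'⟩ := rp_const (ev := ev) e (fun a => ⟨⟨_, R.algebraMap_mem a⟩, fun _ => rfl⟩) hy
  obtain ⟨f, hf, hd⟩ := hx'.dich e.linearIndependent hy'
  obtain ⟨F, hF, hFe⟩ := hext f.1 f.2
  obtain ⟨ω₂, h0⟩ : ∃ ω₂, f.1 ω₂ ≠ 0 := by
    by_contra h1
    exact hf (Subtype.ext (funext fun x => not_not.1 fun h2 => h1 ⟨x, h2⟩))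
  rw [hFe] at h0
  rcases hd with hd | hd
  · have h1 := ea5_gen c 𝒱' m ω hF (hb.symm ▸ ω₂.2) h0
    rw [hb] at h1
    exact QQ_mono (fun x hx => hd ⟨x, hx.1⟩ fun h2 => hx.2 ((hFe ⟨x, hx.1⟩).symm.trans h2)) m ω h1
  · obtain ⟨x, hx, hx2⟩ := QQ_ne m ω (QQ_inter m ω (ea5_gen c 𝒱 m ω hF ω₂.2 h0) hQ)
    exact absurd hx2 (hd ⟨x, hx.1⟩ fun h2 => hx.2 ((hFe ⟨x, hx.1⟩).symm.trans h2))

theorem ea5_succ {X : Type*} (𝒱 : ℕ → Ultrafilter X) (S : Set (ℕ → X)) (m : ℕ) (ω : ℕ → X)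
    (𝒰 : Ultrafilter X) : {x | QQ 𝒱 S m (Function.update ω m x)} ∈ 𝒰 ↔
      QQ (Function.update 𝒱 m 𝒰) S (m + 1) ω := by
  have h1 : {x | QQ (Function.update 𝒱 m 𝒰) S m (Function.update ω m x)} =
      {x | QQ 𝒱 S m (Function.update ω m x)} := Set.ext fun x =>
    ⟨QQ_congr m _ fun s hs => Function.update_of_ne hs.ne _ _,
      QQ_congr m _ fun s hs => (Function.update_of_ne hs.ne _ _).symm⟩
  change _ ↔ {x | QQ (Function.update 𝒱 m 𝒰) S m (Function.update ω m x)} ∈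
    Function.update 𝒱 m 𝒰 m
  rw [h1, Function.update_self]

variable [Group Γ] {D : Set (ℝ → Submodule k V)}
  {a : Γ → (ℝ → Submodule k V) → ℝ → Submodule k V} {u : ℝ → Submodule k V}

theorem det_slice (hD : Cone ⊤ D) (ha : AAct D a) (hu : u ∈ D)
    (hc : Crd e (fun g => a g u) c wt) (hT : Tm (fun g => a g u) T) {y : ℝ → Submodule k V}
    (hy : y ∈ D) (𝒱 : ℕ → Ultrafilter Γ) (m : ℕ) (ω : ℕ → Γ) :
    Det (evc c) {x | QQ 𝒱 {ω | T ω = y} m (Function.update ω m x)} := by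
  intro g 𝒰 𝒰' hU
  have hS : {ω : ℕ → Γ | (fun s => g * ω s) ∈ {ω | T ω = y}} = {ω | T ω = a g⁻¹ y} := by
    ext ω
    obtain ⟨h1, h2⟩ := hT.eqv hD ha hu ω
    change T (fun s => g * ω s) = y ↔ T ω = a g⁻¹ y
    rw [h2]
    constructor
    · rintro rfl
      rw [← ha.mul _ _ _ h1, inv_mul_cancel, ha.one _ h1]
    · intro h3
      rw [h3, ← ha.mul _ _ _ hy, mul_inv_cancel, ha.one _ hy]
  have hV : (fun s => ((𝒱 s).map (g⁻¹ * ·)).map (g * ·)) = 𝒱 := by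
    funext s
    rw [Ultrafilter.map_map]
    have h1 : ((g * ·) ∘ (g⁻¹ * ·) : Γ → Γ) = id := funext fun x => mul_inv_cancel_left g x
    rw [h1, Ultrafilter.map_id]
  have hB : {x | g * x ∈ {x | QQ 𝒱 {ω | T ω = y} m (Function.update ω m x)}} =
      {x | QQ (fun s => (𝒱 s).map (g⁻¹ * ·)) {ω | T ω = a g⁻¹ y} m
        (Function.update (fun s => g⁻¹ * ω s) m x)} := by
    ext x
    have h1 := QQ_map (𝒱 := fun s => (𝒱 s).map (g⁻¹ * ·)) (S := {ω | T ω = y}) (g * ·) m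
      (Function.update (fun s => g⁻¹ * ω s) m x)
    have h2 : (fun s => g * Function.update (fun s => g⁻¹ * ω s) m x s) =
        Function.update ω m (g * x) := by
      funext s
      by_cases hs : s = m
      · rw [hs, Function.update_self, Function.update_self]
      · rw [Function.update_of_ne hs, Function.update_of_ne hs, mul_inv_cancel_left]
    rw [hV, h2, hS] at h1
    exact h1
  rw [hB, ea5_succ, ea5_succ]
  refine QQ_det hc hT (hD.filt _ (ha.mem _ _ hy)) _ _ fun s => ?_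
  by_cases hs : s = m
  · rw [hs, Function.update_self, Function.update_self, hU]
  · rw [Function.update_of_ne hs, Function.update_of_ne hs]

theorem hybrid (hD : Cone ⊤ D) (ha : AAct D a) (hu : u ∈ D)
    (hc : Crd e (fun g => a g u) c wt) (hT : Tm (fun g => a g u) T) {y : ℝ → Submodule k V}
    (hy : y ∈ D) {𝒱 𝒱' : ℕ → Ultrafilter Γ}
    (h : ∀ s B, Det (evc c) B → B ∈ 𝒱 s → B ∈ 𝒱' s) :
    ∀ m ω, QQ 𝒱 {ω | T ω = y} m ω → QQ 𝒱' {ω | T ω = y} m ω := by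
  intro m
  induction m with
  | zero => exact fun _ h => h
  | succ m ih =>
    intro ω hQ
    exact Filter.mem_of_superset (h m _ (det_slice hD ha hu hc hT hy 𝒱 m ω) hQ) fun x hx => ih _ hx

theorem exists_crd {X : Type*} {o : X → ℝ → Submodule k V} (e : Module.Basis (Fin n) k V)
    {𝒲 : Set (Fin n → ℝ)}
    (h : ∀ g, ∃ b : Module.Basis (Fin n) k V, ∃ w ∈ 𝒲, o g = chart k b w) :
    ∃ c : X → (Fin n × Fin n) ⊕ 𝒲 → k, Crd e o c Subtype.val := by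
  classical
  choose b w hw h using h
  have h1 : ∀ x, vec e (Matrix.of fun i j => e.repr (b x i) j) = b x := fun x =>
    funext fun i => e.sum_repr (b x i)
  refine ⟨fun x => Sum.elim (fun p => e.repr (b x p.1) p.2) fun t => if t.1 = w x then 1 else 0,
    fun x => ⟨⟨w x, hw x⟩, by simp⟩, fun x => vec_det e _ ((h1 x).symm ▸ (b x).linearIndependent),
    fun x t ht => ?_⟩
  have h2 : t.1 = w x := by
    by_contra h3
    exact ht (if_neg h3)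
  rw [h2, h x]
  exact congrArg (fun z => chart k z (w x)) (h1 x).symm

theorem gen (hD : Cone ⊤ D) (ha : AAct D a) (hu : u ∈ D) {𝒲 : Set (Fin n → ℝ)} (hW : 𝒲.Finite)
    (h : ∀ g, ∃ b : Module.Basis (Fin n) k V, ∃ w ∈ 𝒲, a g u = chart k b w) :
    ∃ H : Subgroup Γ, H.FiniteIndex ∧ ∃ x ∈ D, ∀ g ∈ H, a g x = x := by
  have : Finite 𝒲 := hW.to_subtype
  obtain ⟨e, -⟩ := h 1
  obtain ⟨c, hc⟩ := exists_crd e h
  obtain ⟨𝒰, H, hH, hU⟩ := atom (evc c)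
  obtain ⟨T, hT, y, F, hF, ⟨ω₂, h2, h0⟩, hy⟩ := gen_const e.linearIndependent hc
    (Ultrafilter.nonempty_of_mem (UW_mem (evc c) 𝒰)) (UW_irr (evc c) 𝒰)
  obtain ⟨N, hN⟩ := hT.dep
  have hyD : y ∈ D := hy ω₂ h2 h0 ▸ (hT.eqv hD ha hu ω₂).1
  have hQ : QQ (fun _ => 𝒰) {ω | T ω = y} N ω₂ := by
    refine QQ_mono (fun x hx => hy x (fun s => ?_) hx.2) N ω₂
      (ea5_gen c (fun _ => 𝒰) N ω₂ hF ⟨fun s _ => h2 s, fun _ _ => rfl⟩ h0)
    rcases lt_or_ge s N with hs | hs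
    · exact hx.1.1 s hs
    · exact hx.1.2 s hs ▸ h2 s
  refine ⟨H, hH, y, hyD, fun g hg => ?_⟩
  have h3 := hybrid hD ha hu hc hT hyD (𝒱' := fun _ => 𝒰.map (g * ·))
    (fun _ B hB => (hU g hg B hB).1) N ω₂ hQ
  have h4 := (QQ_map (𝒱 := fun _ => 𝒰) (g * ·) N ω₂).1 (QQ_dep (N := N)
    (fun ω ω' h5 h6 => (hN ω ω' h5).symm.trans h6) N ω₂ _
    (fun s h5 h6 => absurd h6 (not_lt.2 h5)) h3)
  obtain ⟨ω, h5, h6⟩ := QQ_ne N ω₂ (QQ_inter N ω₂ hQ h4)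
  have h7 : T ω = y := h5
  exact (h7 ▸ (hT.eqv hD ha hu ω).2 g).symm.trans h6

end Pool.Agent.P.MP_6990a0_al.VC
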