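import Pool.Agent.P.MP_6990a0_al.EC

/-! Apartments: consequences of the Bruhat decomposition. -/

namespace Pool.Agent.P.MP_6990a0_al.VC

open Filter Topology

section top
variable {Y : Type*} [NormedAddCommGroup Y] [NormedSpace ℝ Y]

theorem lin_eq_of_nhds {Y' : Type*} [AddCommGroup Y'] [Module ℝ Y'] {L L' : Y →ₗ[ℝ] Y'} {z : Y}
    (h : ∀ᶠ v in 𝓝 z, L v = L' v) : L = L' := by
  ext v
  have hc : Tendsto (fun t : ℝ => z + t • v) (𝓝 0) (𝓝 z) := by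
    have : Continuous fun t : ℝ => z + t • v := by fun_prop
    simpa using this.tendsto 0
  have h1 : ∀ᶠ t : ℝ in 𝓝[≠] 0, L (z + t • v) = L' (z + t • v) :=
    (hc.eventually h).filter_mono nhdsWithin_le_nhds
  obtain ⟨t, ht, ht0⟩ := (h1.and self_mem_nhdsWithin).exists
  rw [map_add, map_add, map_smul, map_smul, h.self_of_nhds, add_right_inj] at ht
  have ht1 : t ≠ 0 := ht0
  rw [← inv_smul_smul₀ ht1 (L v), ht, inv_smul_smul₀ ht1]

theorem exists_gen_near {F : Set (Module.Dual ℝ Y)} (hF : F.Finite) (h0 : ∀ f ∈ F, f ≠ 0)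
    {U : Set Y} {z : Y} (hU : U ∈ 𝓝 z) : ∃ z', U ∈ 𝓝 z' ∧ ∀ f ∈ F, f z' ≠ 0 := by
  have := hF.to_subtype
  obtain ⟨y, hy⟩ := Module.Dual.exists_forall_ne_zero_of_forall_exists (fun f : F => f.1)
    fun f => by
      by_contra hn
      push Not at hn
      exact h0 f.1 f.2 (LinearMap.ext hn)
  have hc : Tendsto (fun t : ℝ => z + t • y) (𝓝 0) (𝓝 z) := by
    have : Continuous fun t : ℝ => z + t • y := by fun_prop
    simpa using this.tendsto 0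
  have h1 : ∀ᶠ t : ℝ in 𝓝[≠] 0, U ∈ 𝓝 (z + t • y) :=
    (hc.eventually (eventually_mem_nhds_iff.2 hU)).filter_mono nhdsWithin_le_nhds
  have h2 : ∀ᶠ t : ℝ in 𝓝[≠] 0, t ∉ (fun f : Module.Dual ℝ Y => -f z / f y) '' F :=
    (hF.image _).eventually_cofinite_notMem.filter_mono (nhdsNE_le_cofinite 0)
  obtain ⟨t, ht, ht'⟩ := (h1.and h2).exists
  refine ⟨_, ht, fun f hf e => ht' ⟨f, hf, ?_⟩⟩
  have hy' : f y ≠ 0 := hy ⟨f, hf⟩
  rw [map_add, map_smul, smul_eq_mul] at e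
  change -f z / f y = t
  rw [div_eq_iff hy']
  linarith

theorem exists_gen_sub {F : Set (Module.Dual ℝ Y)} (hF : F.Finite) (W : Submodule ℝ Y) :
    ∃ z ∈ W, ∀ f ∈ F, f z = 0 → ∀ y ∈ W, f y = 0 := by
  have hF' : {f | f ∈ F ∧ ∃ y ∈ W, f y ≠ 0}.Finite := hF.subset fun f hf => hf.1
  have := hF'.to_subtype
  obtain ⟨z, hz, h⟩ := Module.Dual.exists_forall_mem_ne_zero_of_forall_exists W
    (fun f : {f | f ∈ F ∧ ∃ y ∈ W, f y ≠ 0} => f.1) fun f => f.2.2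
  refine ⟨z, hz, fun f hf e y hy => ?_⟩
  by_contra hn
  exact h ⟨f, hf, y, hy, hn⟩ e

theorem sign_near [FiniteDimensional ℝ Y] {F : Set (Module.Dual ℝ Y)} (hF : F.Finite) (z : Y) :
    ∀ᶠ v in 𝓝 z, ∀ f ∈ F, f z ≠ 0 → SignType.sign (f v) = SignType.sign (f z) := by
  refine (eventually_all_finite hF).2 fun f _ => ?_
  have hc := (f.continuous_of_finiteDimensional).tendsto z
  rcases lt_trichotomy (f z) 0 with h | h | h
  · filter_upwards [hc.eventually (gt_mem_nhds h)] with v hv _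
    rw [sign_neg hv, sign_neg h]
  · exact Eventually.of_forall fun _ h' => absurd h h'
  · filter_upwards [hc.eventually (lt_mem_nhds h)] with v hv _
    rw [sign_pos hv, sign_pos h]

end top

variable {k V : Type*} [Field k] [AddCommGroup V] [Module k V] {n : ℕ} {G : Type*} [Group G]

namespace Geo0

section alg
variable {Y : Type*} [AddCommGroup Y] [Module ℝ Y] {X : Geo0 k V G Y n}

theorem ap_basis (g : G) : ∃ b : Module.Basis (Fin n) k V, ∀ v, X.ap g v = chart k b (X.c v) := by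
  refine ⟨X.e.map (X.ρ g), fun v => ?_⟩
  have e : (X.e.map (X.ρ g) : Fin n → V) = fun j => X.ρ g (X.e j) :=
    funext fun j => Module.Basis.map_apply _ _ _
  rw [e]
  rfl

theorem mv_ap (g h : G) (v : Y) : X.mv g (X.ap h v) = X.ap (g * h) v := by
  funext t
  unfold mv ap
  rw [map_chart, map_mul]
  rfl

/-- An equality of points may be moved by the group. -/
theorem ap_mul {g h : G} {v v' : Y} (e : X.ap g v = X.ap h v') (p : G) :
    X.ap (p * g) v = X.ap (p * h) v' := by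
  rw [← mv_ap, e, mv_ap]

theorem ap_add (g : G) (v v' : Y) : add (X.ap g v) (X.ap g v') = X.ap g (v + v') := by
  obtain ⟨b, hb⟩ := ap_basis (X := X) g
  rw [hb, hb, hb, add_chart b.linearIndependent, map_add]

theorem ap_sc (g : G) {s : ℝ} (hs : 0 < s) (v : Y) : sc s (X.ap g v) = X.ap g (s • v) := by
  unfold ap
  rw [sc_chart _ _ hs, map_smul]

theorem Ax.ap_inj (A : X.Ax) {g : G} {v v' : Y} (e : X.ap g v = X.ap g v') : v = v' := by
  obtain ⟨b, hb⟩ := ap_basis (X := X) g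
  rw [hb, hb] at e
  exact A.inj (chart_inj b.linearIndependent e)

theorem Ax.common (A : X.Ax) (g h : G) (v v' : Y) :
    ∃ p z z', X.ap g v = X.ap p z ∧ X.ap h v' = X.ap p z' := by
  obtain ⟨p, m, q, w, e, h1, h2, h3⟩ := A.br (g⁻¹ * h) v v'
  refine ⟨g * p, v, w v', ?_, ?_⟩
  · rw [ap_mul h1 g, mul_one]
  · have e' : h = g * p * m * q := by
      rw [mul_assoc g, mul_assoc g, ← e, mul_inv_cancel_left]
    rw [e', ap_mul h2, mul_one, ap_mul (h3 v'), mul_one]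

/-- Two apartments through a point contain the closure of its facet. -/
theorem Ax.reg0 (A : X.Ax) {g h : G} {v v' : Y} (e : X.ap g v = X.ap h v') :
    ∃ (m : G) (w : Y →ₗ[ℝ] Y), (∀ z, X.ap m z = X.ap 1 (w z)) ∧
      ∀ z, X.Cl v z → X.ap g z = X.ap h (w z) := by
  obtain ⟨p, m, q, w, e1, h1, h2, h3⟩ := A.br (h⁻¹ * g) v' v
  have e' : g = h * (p * m * q) := by rw [← e1, mul_inv_cancel_left]
  have k1 : ∀ z, X.ap q z = X.ap 1 z → X.ap (p * m * q) z = X.ap p (w z) := fun z hz => by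
    rw [ap_mul hz, mul_one, ap_mul (h3 z), mul_one]
  have k2 : w v = v' := by
    have := ap_mul e h⁻¹
    rw [inv_mul_cancel, e1, k1 v h2, ← h1] at this
    exact A.ap_inj this
  have k3 : X.ap (m⁻¹ * (p * m)) v = X.ap 1 v := by
    have : X.ap (p * m) v = X.ap m v := by
      rw [ap_mul (h3 v), mul_one, h3, k2, h1]
    rw [ap_mul this, inv_mul_cancel]
  refine ⟨m, w, h3, fun z hz => ?_⟩
  have k4 := ap_mul (A.mono _ v z hz k3) m
  rw [mul_inv_cancel_left, mul_one, ap_mul (h3 z), mul_one, h3] at k4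
  rw [e', ap_mul ((k1 z (A.mono q v z hz h2)).trans k4), mul_one]

theorem Ax.cone (A : X.Ax) : Cone ⊤ X.EE := by
  refine ⟨⟨_, 1, 0, rfl⟩, ?_, ?_, ?_⟩
  · rintro _ ⟨g, v, rfl⟩
    obtain ⟨b, hb⟩ := ap_basis (X := X) g
    rw [hb, ← b.span_eq]
    exact chart_filt _ _
  · rintro _ ⟨g, v, rfl⟩ _ ⟨h, v', rfl⟩
    obtain ⟨p, z, z', h1, h2⟩ := A.common g h v v'
    exact ⟨p, z + z', by rw [h1, h2, ap_add]⟩
  · rintro s hs _ ⟨g, v, rfl⟩
    exact ⟨g, s • v, ap_sc g hs v⟩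

theorem GAct.aact (A : X.Ax) {Γ : Type*} [Group Γ]
    {a : Γ → (ℝ → Submodule k V) → ℝ → Submodule k V} (ha : X.GAct a) : AAct X.EE a := by
  refine ⟨?_, ha.one, ha.mul, ?_, ?_⟩
  · rintro γ _ ⟨g, v, rfl⟩
    obtain ⟨g', M, hM⟩ := ha.lin γ g
    exact ⟨g', M v, hM v⟩
  · rintro γ _ ⟨g, v, rfl⟩ _ ⟨h, v', rfl⟩
    obtain ⟨p, z, z', h1, h2⟩ := A.common g h v v'
    obtain ⟨g', M, hM⟩ := ha.lin γ p
    rw [h1, h2, ap_add, hM, hM, hM, ap_add, map_add]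
  · rintro γ s hs _ ⟨g, v, rfl⟩
    obtain ⟨g', M, hM⟩ := ha.lin γ g
    rw [ap_sc g hs, hM, hM, ap_sc g' hs, map_smul]

theorem GAct.lin' [FiniteDimensional ℝ Y] (A : X.Ax) {Γ : Type*} [Group Γ]
    {a : Γ → (ℝ → Submodule k V) → ℝ → Submodule k V} (ha : X.GAct a) (γ : Γ) :
    X.Lin (a γ) := by
  intro g
  obtain ⟨g', M, hM⟩ := ha.lin γ g
  have k1 : ∀ v, a γ⁻¹ (a γ (X.ap g v)) = X.ap g v := fun v => by
    rw [← ha.mul _ _ _ ⟨g, v, rfl⟩, inv_mul_cancel, ha.one _ ⟨g, v, rfl⟩]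
  have hinj : Function.Injective M := fun v v' e => by
    apply A.ap_inj (g := g)
    rw [← k1 v, ← k1 v', hM, hM, e]
  exact ⟨g', LinearEquiv.ofInjectiveEndo M hinj, hM⟩

theorem eb1_perm {g h : G} {v v' : Y} (e : X.ap g v = X.ap h v') :
    ∃ σ : Equiv.Perm (Fin n), ∀ j, X.c v' j = X.c v (σ j) := by
  obtain ⟨b, hb⟩ := ap_basis (X := X) g
  obtain ⟨b', hb'⟩ := ap_basis (X := X) h
  rw [hb, hb'] at e
  exact chart_perm b.linearIndependent b'.linearIndependent e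

theorem Cl.refl (v : Y) : X.Cl v v := fun _ _ => ⟨le_of_lt, id⟩

theorem Sg.cl {v v' : Y} (h : X.Sg v v') : X.Cl v v' := by
  intro a ha
  have e := h a ha
  refine ⟨fun h1 => ?_, fun h1 => ?_⟩
  · rw [sign_pos h1, eq_comm, sign_eq_one_iff] at e
    exact e.le
  · rw [h1, sign_zero, eq_comm, sign_eq_zero_iff] at e
    exact e

end alg

variable {Y : Type*} [NormedAddCommGroup Y] [InnerProductSpace ℝ Y] [FiniteDimensional ℝ Y]
  {X : Geo0 k V G Y n}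

theorem AxI.isW (A : X.AxI) {m : G} {w : Y →ₗ[ℝ] Y} (h : ∀ z, X.ap m z = X.ap 1 (w z)) :
    ∃ w' : Y ≃ₗᵢ[ℝ] Y, X.IsW w' ∧ ∀ z, w' z = w z := by
  have hn : ∀ z, ‖w z‖ = ‖z‖ := fun z => by
    obtain ⟨σ, hσ⟩ := eb1_perm (h z)
    have : ‖w z‖ ^ 2 = ‖z‖ ^ 2 := by
      rw [A.nrm, A.nrm, ← Equiv.sum_comp σ fun j => X.c z j ^ 2]
      exact Finset.sum_congr rfl fun j _ => by rw [hσ]
    exact (pow_left_inj₀ (norm_nonneg _) (norm_nonneg _) two_ne_zero).1 this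
  exact ⟨LinearIsometry.toLinearIsometryEquiv ⟨w, hn⟩ rfl, ⟨m, h⟩, fun _ => rfl⟩

theorem IsW.one : X.IsW 1 := ⟨1, fun _ => rfl⟩

theorem IsW.mul {w w' : Y ≃ₗᵢ[ℝ] Y} (h : X.IsW w) (h' : X.IsW w') : X.IsW (w * w') := by
  obtain ⟨m, hm⟩ := h
  obtain ⟨m', hm'⟩ := h'
  refine ⟨m * m', fun z => ?_⟩
  rw [ap_mul (hm' z), mul_one, hm]
  rfl

theorem IsW.inv {w : Y ≃ₗᵢ[ℝ] Y} (h : X.IsW w) : X.IsW w⁻¹ := by
  obtain ⟨m, hm⟩ := h
  refine ⟨m⁻¹, fun z => ?_⟩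
  have e : w (w⁻¹ z) = z := w.apply_symm_apply z
  have := ap_mul (hm (w⁻¹ z)) m⁻¹
  rw [inv_mul_cancel, mul_one, e] at this
  exact this.symm

theorem AxI.reg (A : X.AxI) {g h : G} {v v' : Y} (e : X.ap g v = X.ap h v') :
    ∃ w, X.IsW w ∧ ∀ z, X.Cl v z → X.ap g z = X.ap h (w z) := by
  obtain ⟨m, w, h1, h2⟩ := A.toAx.reg0 e
  obtain ⟨w', h3, h4⟩ := A.isW h1
  exact ⟨w', h3, fun z hz => by rw [h4, h2 z hz]⟩

theorem AxI.cl_near (A : X.AxI) {v : Y} (hv : X.Reg v) : ∀ᶠ z in 𝓝 v, X.Cl v z := by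
  filter_upwards [sign_near A.fin v] with z hz
  exact Sg.cl fun a ha => (hz a ha (hv a ha)).symm

theorem AxI.exists_reg (A : X.AxI) : ∃ v, X.Reg v := by
  obtain ⟨v, -, hv⟩ := exists_gen_near A.fin A.ne (z := 0) univ_mem
  exact ⟨v, hv⟩

theorem AxI.finW (A : X.AxI) : {w | X.IsW w}.Finite := by
  let B := Module.finBasis ℝ Y
  have hS : ∀ i, (X.c ⁻¹' Set.range fun σ : Equiv.Perm (Fin n) =>
      fun j => X.c (B i) (σ j)).Finite := fun i =>
    (Set.finite_range _).preimage A.inj.injOn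
  refine Set.Finite.of_injOn (f := fun w i => w (B i)) ?_ ?_ (Set.Finite.pi' hS)
  · rintro w ⟨m, hm⟩ i
    obtain ⟨σ, hσ⟩ := eb1_perm (hm (B i))
    exact ⟨σ, (funext hσ).symm⟩
  · intro w _ w' _ e
    exact B.ext_linearIsometryEquiv fun i => congrFun e i

theorem AxI.free0 (A : X.AxI) {w : Y ≃ₗᵢ[ℝ] Y} (h : X.IsW w) {v : Y} (hv : X.Reg v)
    (e : w v = v) : w = 1 := by
  obtain ⟨m, hm⟩ := h
  have h1 : (w.toLinearEquiv : Y →ₗ[ℝ] Y) = LinearMap.id := by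
    refine lin_eq_of_nhds (z := v) ?_
    filter_upwards [A.cl_near hv] with z hz
    have := A.mono m v z hz (by rw [hm, e])
    rw [hm] at this
    exact A.toAx.ap_inj this
  ext z
  exact LinearMap.congr_fun h1 z

/-- Two linear charts that agree near a point differ by an element of the Weyl group. -/
theorem AxI.adj (A : X.AxI) {g g' : G} (M : Y ≃ₗ[ℝ] Y) (M' : Y →ₗ[ℝ] Y) {z : Y}
    (h : ∀ᶠ v in 𝓝 z, X.ap g (M v) = X.ap g' (M' v)) : ∃ w, X.IsW w ∧ ∀ v, M' v = w (M v) := by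
  obtain ⟨z', h1, h2⟩ := exists_gen_near (A.fin.image fun a => a ∘ₗ (M : Y →ₗ[ℝ] Y)) (by
    rintro _ ⟨a, ha, rfl⟩ e
    refine A.ne a ha (LinearMap.ext fun y => ?_)
    have := LinearMap.congr_fun e (M.symm y)
    simpa using this) h
  have hr : X.Reg (M z') := fun a ha => h2 _ ⟨a, ha, rfl⟩
  have h1' : ∀ᶠ v in 𝓝 z', X.ap g (M v) = X.ap g' (M' v) := h1
  obtain ⟨w, hw, h3⟩ := A.reg h1'.self_of_nhds
  have hc := ((M : Y →ₗ[ℝ] Y).continuous_of_finiteDimensional).tendsto z'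
  have h4 : M' = (w.toLinearEquiv : Y →ₗ[ℝ] Y) ∘ₗ (M : Y →ₗ[ℝ] Y) := by
    refine lin_eq_of_nhds (z := z') ?_
    filter_upwards [h1', hc.eventually (A.cl_near hr)] with v hv hv'
    exact A.toAx.ap_inj (hv.symm.trans (h3 _ hv'))
  exact ⟨w, hw, fun v => LinearMap.congr_fun h4 v⟩

end Geo0

end Pool.Agent.P.MP_6990a0_al.VC
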