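import Pool.Agent.P.MP_6990a0_al.EB1

/-! Tripods give the reflections. -/

namespace Pool.Agent.P.MP_6990a0_al.VC

open Filter Topology

variable {k V : Type*} [Field k] [AddCommGroup V] [Module k V] {n : ℕ} {G : Type*} [Group G]
  {Y : Type*} [NormedAddCommGroup Y] [InnerProductSpace ℝ Y] [FiniteDimensional ℝ Y]

theorem inner_nv (a : Module.Dual ℝ Y) (v : Y) : inner ℝ (nv a) v = a v := by
  unfold nv
  rw [InnerProductSpace.toDual_symm_apply]
  rfl

theorem nv_pos {a : Module.Dual ℝ Y} (ha : a ≠ 0) : 0 < a (nv a) := by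
  rw [← inner_nv a (nv a), real_inner_self_eq_norm_sq]
  have : nv a ≠ 0 := fun h => ha (LinearMap.ext fun v => by
    rw [← inner_nv a v, h, inner_zero_left]; rfl)
  exact pow_pos (norm_pos_iff.2 this) 2

theorem nv_symm (a b : Module.Dual ℝ Y) : a (nv b) = b (nv a) := by
  rw [← inner_nv a (nv b), ← inner_nv b (nv a), real_inner_comm]

theorem rfl'_apply {a : Module.Dual ℝ Y} (ha : a ≠ 0) (v : Y) :
    rfl' a v = v - (2 * a v / a (nv a)) • nv a := by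
  have hp := (nv_pos ha).ne'
  have : (LinearMap.ker a).starProjection v = v - (a v / a (nv a)) • nv a := by
    apply Submodule.eq_starProjection_of_mem_of_inner_eq_zero
    · rw [LinearMap.mem_ker, map_sub, map_smul, smul_eq_mul, div_mul_cancel₀ _ hp, sub_self]
    · intro y hy
      rw [sub_sub_cancel, inner_smul_left, inner_nv, LinearMap.mem_ker.1 hy, mul_zero]
  unfold rfl'
  rw [Submodule.reflection_apply, this, mul_div_assoc, mul_smul]
  module

theorem eq_rfl' {a : Module.Dual ℝ Y} (ha : a ≠ 0) {w : Y ≃ₗᵢ[ℝ] Y}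
    (h : ∀ v, a v = 0 → w v = v) (h1 : w ≠ 1) : w = rfl' a := by
  have hp := (nv_pos ha).ne'
  have hk : ∀ v, a (v - (a v / a (nv a)) • nv a) = 0 := fun v => by
    rw [map_sub, map_smul, smul_eq_mul, div_mul_cancel₀ _ hp, sub_self]
  obtain ⟨c, hc⟩ : ∃ c : ℝ, w (nv a) = c • nv a := by
    refine ⟨a (w (nv a)) / a (nv a), ?_⟩
    have h2 := hk (w (nv a))
    set y := w (nv a) - (a (w (nv a)) / a (nv a)) • nv a with hy
    have h3 : inner ℝ (w (nv a)) y = 0 := by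
      rw [← h y h2, LinearIsometryEquiv.inner_map_map, inner_nv, h2]
    have h4 : inner ℝ y y = 0 := by
      nth_rewrite 1 [hy]
      rw [inner_sub_left, h3, inner_smul_left, inner_nv, h2, mul_zero, sub_zero]
    exact sub_eq_zero.1 (inner_self_eq_zero.1 h4)
  have hw : ∀ v, w v = v - (a v / a (nv a)) • nv a + (a v / a (nv a) * c) • nv a := fun v => by
    rw [← h _ (hk v), mul_smul, ← hc, ← map_smul, ← map_add, sub_add_cancel]
  have hc2 : c * c = 1 := by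
    have h5 := LinearIsometryEquiv.inner_map_map w (nv a) (nv a)
    rw [hc, inner_smul_left, inner_smul_right, inner_nv, ← mul_assoc] at h5
    exact mul_right_cancel₀ hp (by simpa using h5)
  rcases mul_self_eq_one_iff.1 hc2 with rfl | rfl
  · exact absurd (LinearIsometryEquiv.ext fun v => by rw [hw]; simp) h1
  · refine LinearIsometryEquiv.ext fun v => ?_
    rw [hw, rfl'_apply ha, mul_div_assoc, mul_smul 2]
    module

theorem eb2_mult {a b : Module.Dual ℝ Y} (ha : a ≠ 0) (h : ∀ v, a v = 0 → b v = 0) (v : Y) :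
    b v = b (nv a) / a (nv a) * a v := by
  have hp := (nv_pos ha).ne'
  have h2 := h (v - (a v / a (nv a)) • nv a) (by
    rw [map_sub, map_smul, smul_eq_mul, div_mul_cancel₀ _ hp, sub_self])
  rw [map_sub, map_smul, smul_eq_mul, sub_eq_zero] at h2
  rw [h2]; ring

theorem eb2_fix {a : Module.Dual ℝ Y} (ha : a ≠ 0) {v : Y} (h : a v = 0) : rfl' a v = v := by
  rw [rfl'_apply ha, h]; simp

theorem eb2_neg {a : Module.Dual ℝ Y} (ha : a ≠ 0) (v : Y) : a (rfl' a v) = -a v := by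
  rw [rfl'_apply ha, map_sub, map_smul, smul_eq_mul, div_mul_cancel₀ _ (nv_pos ha).ne']; ring

theorem eb2_nv {a : Module.Dual ℝ Y} (ha : a ≠ 0) : rfl' a (nv a) = -nv a := by
  rw [rfl'_apply ha, mul_div_assoc, div_self (nv_pos ha).ne']
  module

namespace Geo0

variable {X : Geo0 k V G Y n}

/-- The tripod at the wall of `a`. -/
theorem AxI.tripod (A : X.AxI) {a : Module.Dual ℝ Y} (ha : a ∈ X.Φ) :
    ∃ (u g : G) (w : Y ≃ₗᵢ[ℝ] Y) (z : Y), X.IsW w ∧ X.IsW (rfl' a) ∧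
      (∀ v, X.ap u v = X.ap 1 v ↔ 0 ≤ a v) ∧
      ∀ᶠ v in 𝓝 z, X.ap 1 v = X.ap g (w v) ∧ X.ap u v = X.ap g (w (rfl' a v)) := by
  have ha0 := A.ne a ha
  have hp := nv_pos ha0
  obtain ⟨z0, hz0, hg⟩ := exists_gen_sub A.fin (LinearMap.ker a)
  have hs := sign_near A.fin z0
  obtain ⟨d, hd, hsd⟩ : ∃ d : ℝ, 0 < d ∧ ∀ f ∈ X.Φ, f z0 ≠ 0 →
      SignType.sign (f (z0 - d • nv a)) = SignType.sign (f z0) := by
    have hc : Tendsto (fun d : ℝ => z0 - d • nv a) (𝓝[>] 0) (𝓝 z0) := by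
      refine Tendsto.mono_left ?_ nhdsWithin_le_nhds
      have : Continuous fun d : ℝ => z0 - d • nv a := by fun_prop
      simpa using this.tendsto 0
    obtain ⟨d, h1, h2⟩ := ((hc.eventually hs).and self_mem_nhdsWithin).exists
    exact ⟨d, h2, h1⟩
  obtain ⟨z, hz⟩ : ∃ z, z = z0 - d • nv a := ⟨_, rfl⟩
  rw [← hz] at hsd
  have haz : a z = -(d * a (nv a)) := by
    rw [hz, map_sub, map_smul, LinearMap.mem_ker.1 hz0, smul_eq_mul, zero_sub]
  have haz' : a z < 0 := by rw [haz]; exact neg_neg_of_pos (mul_pos hd hp)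
  have hreg : X.Reg z := by
    intro b hb h0
    by_cases h : b z0 = 0
    · have hm := eb2_mult ha0 (b := b) fun v hv => hg b hb h v hv
      have h3 : b (nv a) / a (nv a) = 0 := by
        have := hm z
        rw [h0] at this
        exact (mul_eq_zero.1 this.symm).resolve_right haz'.ne
      exact A.ne b hb (LinearMap.ext fun v => by rw [hm v, h3, zero_mul]; rfl)
    · have := hsd b hb h
      rw [h0, sign_zero] at this
      exact h (sign_eq_zero_iff.1 this.symm)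
  obtain ⟨u, hu⟩ := A.root a ha
  obtain ⟨p, z1, z2, e1, e2⟩ := A.toAx.common 1 u z z
  obtain ⟨w, hw, h1⟩ := A.reg e1
  obtain ⟨w', hw', h2⟩ := A.reg e2
  have hker : ∀ y, a y = 0 → w y = w' y := by
    have hev : ∀ᶠ y : LinearMap.ker a in 𝓝 ⟨z0, hz0⟩,
        ((w.toLinearEquiv : Y →ₗ[ℝ] Y) ∘ₗ (LinearMap.ker a).subtype) y =
          ((w'.toLinearEquiv : Y →ₗ[ℝ] Y) ∘ₗ (LinearMap.ker a).subtype) y := by
      filter_upwards [(continuous_subtype_val.tendsto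
        (⟨z0, hz0⟩ : LinearMap.ker a)).eventually hs] with y hy
      have hcl : X.Cl z y := by
        intro b hb
        refine ⟨fun h0 => ?_, fun h0 => absurd h0 (hreg b hb)⟩
        by_cases h : b z0 = 0
        · exact (hg b hb h y y.2).ge
        · have h3 := (hy b hb h).trans (hsd b hb h).symm
          rw [sign_pos h0] at h3
          exact (sign_eq_one_iff.1 h3).le
      have h4 : X.ap u y = X.ap 1 y := (hu y).2 (LinearMap.mem_ker.1 y.2).ge
      exact A.toAx.ap_inj ((h1 y hcl).symm.trans (h4.symm.trans (h2 y hcl)))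
    intro y hy
    exact LinearMap.congr_fun (lin_eq_of_nhds hev) ⟨y, hy⟩
  have hr : w⁻¹ * w' = rfl' a := by
    refine eq_rfl' ha0 (fun y hy => ?_) fun h => ?_
    · change w.symm (w' y) = y
      rw [← hker y hy, LinearIsometryEquiv.symm_apply_apply]
    · have h5 : w = w' := inv_mul_eq_one.1 h
      have h6 : X.ap u z = X.ap 1 z := by rw [h1 z (Cl.refl z), h2 z (Cl.refl z), h5]
      exact absurd ((hu z).1 h6) (not_le.2 haz')
  refine ⟨u, p, w, z, hw, hr ▸ hw.inv.mul hw', hu, ?_⟩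
  filter_upwards [A.cl_near hreg] with v hv
  refine ⟨h1 v hv, ?_⟩
  rw [h2 v hv, ← hr]
  change _ = X.ap p (w (w.symm (w' v)))
  rw [LinearIsometryEquiv.apply_symm_apply]

theorem AxI.isW_rfl (A : X.AxI) {a : Module.Dual ℝ Y} (ha : a ∈ X.Φ) : X.IsW (rfl' a) := by
  obtain ⟨_, _, _, _, _, h, _⟩ := A.tripod ha
  exact h

theorem AxI.conj_rfl (A : X.AxI) {κ : (ℝ → Submodule k V) → ℝ → Submodule k V} (hκ : X.Lin κ)
    {g g' : G} {M : Y ≃ₗ[ℝ] Y} (h : X.Tri κ g g' M) {a : Module.Dual ℝ Y} (ha : a ∈ X.Φ) :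
    ∃ w, X.IsW w ∧ ∀ v, M (rfl' a v) = w (M v) := by
  obtain ⟨u, g0, w0, z, -, -, hu, hz⟩ := A.tripod ha
  obtain ⟨g1, M1, h1⟩ := hκ (g * u)
  obtain ⟨g2, M2, h2⟩ := hκ (g * g0)
  have hpos : ∀ᶠ v in 𝓝 (nv a), 0 < a v :=
    (a.continuous_of_finiteDimensional.tendsto (nv a)).eventually
      (lt_mem_nhds (nv_pos (A.ne a ha)))
  obtain ⟨w1, hw1, e1⟩ := A.adj (g := g') (g' := g1) M (M1 : Y →ₗ[ℝ] Y) (z := nv a) (by
    filter_upwards [hpos] with v hv
    have := ap_mul ((hu v).2 hv.le) g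
    rw [mul_one] at this
    exact (h v).symm.trans ((congrArg κ this).symm.trans (h1 v)))
  obtain ⟨w2, hw2, e2⟩ := A.adj (g := g') (g' := g2) M
    ((M2 : Y →ₗ[ℝ] Y) ∘ₗ (w0.toLinearEquiv : Y →ₗ[ℝ] Y)) (z := z) (by
    filter_upwards [hz] with v hv
    have := ap_mul hv.1 g
    rw [mul_one] at this
    exact (h v).symm.trans ((congrArg κ this).trans (h2 _)))
  obtain ⟨w3, hw3, e3⟩ := A.adj (g := g1) (g' := g2) M1
    ((M2 : Y →ₗ[ℝ] Y) ∘ₗ (w0.toLinearEquiv : Y →ₗ[ℝ] Y) ∘ₗ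
      ((rfl' a).toLinearEquiv : Y →ₗ[ℝ] Y)) (z := z) (by
    filter_upwards [hz] with v hv
    exact (h1 v).symm.trans ((congrArg κ (ap_mul hv.2 g)).trans (h2 _)))
  refine ⟨w2⁻¹ * (w3 * w1), hw2.inv.mul (hw3.mul hw1), fun v => ?_⟩
  have e4 : w2 (M (rfl' a v)) = w3 (w1 (M v)) := by
    rw [← e2 (rfl' a v), ← e1 v]
    exact e3 v
  change _ = w2.symm (w3 (w1 (M v)))
  rw [← e4, LinearIsometryEquiv.symm_apply_apply]

theorem AxI.sim_of_conj (A : X.AxI) {M : Y ≃ₗ[ℝ] Y}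
    (h : ∀ a ∈ X.Φ, ∃ w, X.IsW w ∧ ∀ v, M (rfl' a v) = w (M v)) : X.Sim M := by
  intro a ha
  have ha0 := A.ne a ha
  have hp := nv_pos ha0
  obtain ⟨w, hw, e⟩ := h a ha
  have hfix : ∀ y, a y = 0 → w (M y) = M y := fun y hy => by rw [← e, eb2_fix ha0 hy]
  have hn : w (M (nv a)) = -M (nv a) := by rw [← e, eb2_nv ha0, map_neg]
  have hw1 : w ≠ 1 := by
    rintro rfl
    have h1 : M (nv a) = -M (nv a) := hn
    have h2 : (2 : ℝ) • nv a = 0 := by
      apply M.injective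
      rw [map_smul, map_zero, two_smul]
      exact eq_neg_iff_add_eq_zero.1 h1
    have h3 : nv a = 0 := (smul_eq_zero.1 h2).resolve_left two_ne_zero
    rw [h3, map_zero] at hp
    exact lt_irrefl _ hp
  obtain ⟨z, ⟨y, hy, rfl⟩, hg⟩ :=
    exists_gen_sub A.fin ((LinearMap.ker a).map (M : Y →ₗ[ℝ] Y))
  obtain ⟨b, hb, hbz⟩ : ∃ b ∈ X.Φ, b (M y) = 0 := by
    by_contra hc
    exact hw1 (A.free0 hw (v := M y) (fun b hb h0 => hc ⟨b, hb, h0⟩) (hfix y hy))
  have hb0 := A.ne b hb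
  have hq := nv_pos hb0
  have hm : ∀ v, b (M v) = b (M (nv a)) / a (nv a) * a v :=
    eb2_mult ha0 (b := b ∘ₗ (M : Y →ₗ[ℝ] Y)) fun v hv => hg b hb hbz (M v) ⟨v, hv, rfl⟩
  have hl : b (M (nv a)) ≠ 0 := fun h0 => hb0 (LinearMap.ext fun v => by
    obtain ⟨v, rfl⟩ := M.surjective v
    rw [hm, h0, zero_div, zero_mul]; rfl)
  have hr : w = rfl' b := by
    refine eq_rfl' hb0 (fun v hv => ?_) hw1
    obtain ⟨v, rfl⟩ := M.surjective v
    rw [hm] at hv
    exact hfix v ((mul_eq_zero.1 hv).resolve_left (div_ne_zero hl hp.ne'))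
  have hM : M (nv a) = (b (M (nv a)) / b (nv b)) • nv b := by
    rw [hr, rfl'_apply hb0, mul_div_assoc, mul_smul] at hn
    apply smul_right_injective Y (two_ne_zero (α := ℝ))
    change (2 : ℝ) • _ = (2 : ℝ) • _
    linear_combination (norm := module) hn
  refine ⟨b, hb, b (M (nv a)) / b (nv b),
    b (M (nv a)) / b (nv b) * (b (M (nv a)) / a (nv a)), div_ne_zero hl hq.ne', ?_, hM, fun v => ?_⟩
  · rw [div_mul_div_comm]
    exact div_pos (mul_self_pos.2 hl) (mul_pos hq hp)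
  · nth_rewrite 1 [hM]
    rw [real_inner_smul_left, inner_nv, hm v, mul_assoc]

theorem AxI.sim (A : X.AxI) {κ : (ℝ → Submodule k V) → ℝ → Submodule k V} (hκ : X.Lin κ)
    {g g' : G} {M : Y ≃ₗ[ℝ] Y} (h : X.Tri κ g g' M) : X.Sim M :=
  A.sim_of_conj fun _ ha => A.conj_rfl hκ h ha

theorem AxI.sim_W (A : X.AxI) {w : Y ≃ₗᵢ[ℝ] Y} (h : X.IsW w) : X.Sim w.toLinearEquiv :=
  A.sim_of_conj fun _ ha => ⟨_, (h.mul (A.isW_rfl ha)).mul h.inv, fun v => by simp⟩

/-- A root composed with the inverse is a multiple of a root. -/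
theorem Sim.sg {M : Y ≃ₗ[ℝ] Y} (h : X.Sim M.symm) {v v' : Y} (e : X.Sg v v') :
    X.Sg (M v) (M v') := by
  intro a ha
  obtain ⟨b, hb, c, q, -, hq, e1, e2⟩ := h a ha
  have key : ∀ y, a (M y) = c / q * b y := fun y => by
    have := e2 (M y)
    rw [e1, M.symm_apply_apply, real_inner_smul_left, inner_nv] at this
    rw [div_mul_eq_mul_div, this, mul_div_cancel_left₀ _ hq.ne']
  rw [key, key, sign_mul, sign_mul, e b hb]

theorem Sim.reg {M : Y ≃ₗ[ℝ] Y} (h : X.Sim M.symm) {v : Y} (e : X.Reg v) : X.Reg (M v) := by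
  intro a ha h0
  obtain ⟨b, hb, c, q, hc, -, e1, e2⟩ := h a ha
  have := e2 (M v)
  rw [e1, M.symm_apply_apply, real_inner_smul_left, inner_nv, h0, mul_zero] at this
  exact mul_ne_zero hc (e b hb) this

/-- Any two charts of one map differ by elements of the Weyl group. -/
theorem AxI.conn (A : X.AxI) {κ : (ℝ → Submodule k V) → ℝ → Submodule k V} (hκ : X.Lin κ)
    {g₁ g₁' g₂ g₂' : G} {M₁ M₂ : Y ≃ₗ[ℝ] Y} (h₁ : X.Tri κ g₁ g₁' M₁) (h₂ : X.Tri κ g₂ g₂' M₂) :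
    ∃ w w', X.IsW w ∧ X.IsW w' ∧ ∀ v, M₂ v = w (M₁ (w' v)) := by
  obtain ⟨v, hv⟩ := A.exists_reg
  obtain ⟨p, z, z', e1, e2⟩ := A.toAx.common g₁ g₂ v v
  obtain ⟨w1, hw1, f1⟩ := A.reg e1
  obtain ⟨w2, hw2, f2⟩ := A.reg e2
  obtain ⟨p', M0, h0⟩ := hκ p
  obtain ⟨u1, hu1, t1⟩ := A.adj (g := g₁') (g' := p') M₁
    ((M0 : Y →ₗ[ℝ] Y) ∘ₗ (w1.toLinearEquiv : Y →ₗ[ℝ] Y)) (z := v) (by
    filter_upwards [A.cl_near hv] with y hy
    exact (h₁ y).symm.trans ((congrArg κ (f1 y hy)).trans (h0 _)))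
  obtain ⟨u2, hu2, t2⟩ := A.adj (g := g₂') (g' := p') M₂
    ((M0 : Y →ₗ[ℝ] Y) ∘ₗ (w2.toLinearEquiv : Y →ₗ[ℝ] Y)) (z := v) (by
    filter_upwards [A.cl_near hv] with y hy
    exact (h₂ y).symm.trans ((congrArg κ (f2 y hy)).trans (h0 _)))
  refine ⟨u2⁻¹ * u1, w1⁻¹ * w2, hu2.inv.mul hu1, hw1.inv.mul hw2, fun y => ?_⟩
  change _ = u2.symm (u1 (M₁ (w1.symm (w2 y))))
  rw [← t1]
  change _ = u2.symm (M0 (w1 (w1.symm (w2 y))))
  rw [LinearIsometryEquiv.apply_symm_apply]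
  have : M0 (w2 y) = u2 (M₂ y) := t2 y
  rw [this, LinearIsometryEquiv.symm_apply_apply]

theorem AxI.same_iff (A : X.AxI) {x y : ℝ → Submodule k V} (hx : x ∈ X.EE) (hy : y ∈ X.EE) :
    X.Same x y ↔ ∀ g, X.mv g x = x ↔ X.mv g y = y := by
  have key : ∀ (p g : G) (z : Y),
      X.mv g (X.ap p z) = X.ap p z ↔ X.ap (p⁻¹ * g * p) z = X.ap 1 z := by
    intro p g z
    rw [mv_ap]
    constructor
    · intro e
      have := ap_mul e p⁻¹
      rwa [inv_mul_cancel, ← mul_assoc] at this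
    · intro e
      have := ap_mul e p
      rwa [mul_one, ← mul_assoc, ← mul_assoc, mul_inv_cancel, one_mul] at this
  constructor
  · rintro ⟨p, v, v', rfl, rfl, hs⟩ g
    rw [key, key]
    exact ⟨A.mono _ _ _ hs.cl, A.mono _ _ _ (Sg.cl fun a ha => (hs a ha).symm)⟩
  · intro h
    obtain ⟨g0, v0, rfl⟩ := hx
    obtain ⟨h0, v0', rfl⟩ := hy
    obtain ⟨p, z, z', e1, e2⟩ := A.toAx.common g0 h0 v0 v0'
    refine ⟨p, z, z', e1, e2, fun a ha => ?_⟩
    have ha0 := A.ne a ha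
    have h' : ∀ g, X.ap g z = X.ap 1 z ↔ X.ap g z' = X.ap 1 z' := fun g => by
      have := h (p * g * p⁻¹)
      rw [e1, e2, key, key] at this
      simpa [mul_assoc] using this
    obtain ⟨u, hu⟩ := A.root a ha
    obtain ⟨m, hm⟩ := A.isW_rfl ha
    have hneg : ∀ y, X.ap (m⁻¹ * u * m) y = X.ap 1 y ↔ a y ≤ 0 := fun y => by
      rw [← key, mv_ap, ap_mul (hm y) u, mul_one, hm, hu, eb2_neg ha0, neg_nonneg]
    have i1 : 0 ≤ a z ↔ 0 ≤ a z' := by rw [← hu, ← hu, h']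
    have i2 : a z ≤ 0 ↔ a z' ≤ 0 := by rw [← hneg, ← hneg, h']
    rcases lt_trichotomy (a z) 0 with t | t | t
    · rw [sign_neg t, sign_neg (not_le.1 fun s => absurd (i1.2 s) (not_le.2 t))]
    · rw [t, le_antisymm (i2.1 t.le) (i1.1 t.ge)]
    · rw [sign_pos t, sign_pos (not_le.1 fun s => absurd (i2.2 s) (not_le.2 t))]

end Geo0

end Pool.Agent.P.MP_6990a0_al.VC
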