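import Pool.Agent.P.MP_6990a0_al.EB2

/-! The Weyl group is generated by the reflections; components. -/

namespace Pool.Agent.P.MP_6990a0_al.VC

variable {k V : Type*} [Field k] [AddCommGroup V] [Module k V] {n : ℕ} {G : Type*} [Group G]
  {Y : Type*} [NormedAddCommGroup Y] [InnerProductSpace ℝ Y] [FiniteDimensional ℝ Y]

namespace Geo0

variable {X : Geo0 k V G Y n}

theorem AxI.free (A : X.AxI) {w : Y ≃ₗᵢ[ℝ] Y} (h : X.IsW w) {v : Y} (hv : X.Reg v)
    (e : X.Sg v (w v)) : w = 1 := by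
  have hp : ∀ j : ℕ, X.IsW (w ^ j) := fun j => by
    induction j with
    | zero => rw [pow_zero]; exact IsW.one
    | succ j ih => rw [pow_succ]; exact ih.mul h
  have hfin : IsOfFinOrder w := by
    rw [← finite_powers]
    exact A.finW.subset (by rintro _ ⟨j, rfl⟩; exact hp j)
  obtain ⟨N, hN, hw⟩ := isOfFinOrder_iff_pow_eq_one.1 hfin
  have hs : X.Sim w.toLinearEquiv.symm := A.sim_W h.inv
  have hsg : ∀ j : ℕ, X.Sg v ((w ^ j) v) := fun j => by
    induction j with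
    | zero => intro a _; rfl
    | succ j ih =>
      intro a ha
      rw [pow_succ']
      exact (e a ha).trans (hs.sg ih a ha)
  refine A.free0 h (v := ∑ j ∈ Finset.range N, (w ^ j) v) (fun a ha => ?_) ?_
  · rw [map_sum]
    rcases lt_or_gt_of_ne (hv a ha) with t | t
    · refine (Finset.sum_neg (fun j _ => ?_) (Finset.nonempty_range_iff.2 hN.ne')).ne
      exact sign_eq_neg_one_iff.1 ((hsg j a ha).symm.trans (sign_neg t))
    · refine (Finset.sum_pos (fun j _ => ?_) (Finset.nonempty_range_iff.2 hN.ne')).ne'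
      exact sign_eq_one_iff.1 ((hsg j a ha).symm.trans (sign_pos t))
  · have h1 := Finset.sum_range_succ (fun j => (w ^ j) v) N
    have h2 := Finset.sum_range_succ' (fun j => (w ^ j) v) N
    rw [h1, hw, pow_zero] at h2
    rw [map_sum, add_right_cancel h2]
    exact Finset.sum_congr rfl fun j _ => by rw [pow_succ']; rfl

theorem AxI.genW (A : X.AxI) {w : Y ≃ₗᵢ[ℝ] Y} (h : X.IsW w) :
    w ∈ Subgroup.closure (rfl' '' X.Φ) := by
  have hH : ∀ u ∈ Subgroup.closure (rfl' '' X.Φ), X.IsW u := fun u hu => by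
    induction hu using Subgroup.closure_induction with
    | mem u hu => obtain ⟨a, ha, rfl⟩ := hu; exact A.isW_rfl ha
    | one => exact IsW.one
    | mul _ _ _ _ h1 h2 => exact h1.mul h2
    | inv _ _ h1 => exact h1.inv
  obtain ⟨v, hv⟩ := A.exists_reg
  obtain ⟨u, hu, hmax⟩ := Set.exists_max_image
    (Subgroup.closure (rfl' '' X.Φ) : Set (Y ≃ₗᵢ[ℝ] Y)) (fun u => inner ℝ (u (w v)) v)
    (A.finW.subset hH) ⟨1, one_mem _⟩
  have huw := (hH u hu).mul h
  have hreg : X.Reg (u (w v)) :=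
    Sim.reg (M := (u * w).toLinearEquiv) (A.sim_W huw.inv) hv
  have h1 : u * w = 1 := by
    refine A.free huw hv fun a ha => ?_
    have ha0 := A.ne a ha
    have h2 := hmax (rfl' a * u) (mul_mem (Subgroup.subset_closure ⟨a, ha, rfl⟩) hu)
    change inner ℝ (rfl' a (u (w v))) v ≤ inner ℝ (u (w v)) v at h2
    rw [rfl'_apply ha0, inner_sub_left, real_inner_smul_left, inner_nv, sub_le_self_iff,
      div_mul_eq_mul_div, le_div_iff₀ (nv_pos ha0), zero_mul] at h2
    change _ = SignType.sign (a (u (w v)))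
    rcases lt_or_gt_of_ne (hv a ha) with t | t <;>
      rcases lt_or_gt_of_ne (hreg a ha) with t' | t'
    · rw [sign_neg t, sign_neg t']
    · nlinarith [mul_pos t' (neg_pos.2 t)]
    · nlinarith [mul_pos t (neg_pos.2 t')]
    · rw [sign_pos t, sign_pos t']
  rw [eq_inv_of_mul_eq_one_right h1]
  exact inv_mem hu

theorem AxI.rel_symm (A : X.AxI) {a b : Module.Dual ℝ Y} (h : X.Rel a b) : X.Rel b a := by
  have _ := A.inj
  induction h with
  | refl => exact Relation.ReflTransGen.refl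
  | tail _ h2 ih =>
    exact Relation.ReflTransGen.head ⟨h2.2.1, h2.1, by rw [nv_symm]; exact h2.2.2⟩ ih

theorem eb3_mem {a b : Module.Dual ℝ Y} (ha : a ∈ X.Φ) (h : X.Rel a b) : b ∈ X.Φ := by
  induction h with
  | refl => exact ha
  | tail _ h2 _ => exact h2.2.1

theorem eb3_nv {a b : Module.Dual ℝ Y} (h : X.Rel a b) : nv b ∈ X.cls a :=
  Submodule.subset_span ⟨b, h, rfl⟩

theorem eb3_dich {a b : Module.Dual ℝ Y} (ha : a ∈ X.Φ) (hb : b ∈ X.Φ) :
    nv b ∈ X.cls a ∨ ∀ v ∈ X.cls a, b v = 0 := by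
  by_cases h : ∃ c, X.Rel a c ∧ c (nv b) ≠ 0
  · obtain ⟨c, h1, h2⟩ := h
    exact Or.inl (eb3_nv (Relation.ReflTransGen.tail h1 ⟨eb3_mem ha h1, hb, h2⟩))
  · refine Or.inr fun v hv => ?_
    have : X.cls a ≤ LinearMap.ker b := by
      refine Submodule.span_le.2 ?_
      rintro _ ⟨c, hc, rfl⟩
      by_contra h0
      exact h ⟨c, hc, fun h1 => h0 (by
        rw [nv_symm] at h1
        exact h1)⟩
    exact this hv

theorem AxI.cls_W (A : X.AxI) {w : Y ≃ₗᵢ[ℝ] Y} (h : X.IsW w) (a : Module.Dual ℝ Y)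
    (ha : a ∈ X.Φ) : (X.cls a).map (w.toLinearEquiv : Y →ₗ[ℝ] Y) = X.cls a := by
  have key : ∀ u ∈ Subgroup.closure (rfl' '' X.Φ), ∀ x, u x ∈ X.cls a ↔ x ∈ X.cls a := by
    intro u hu
    induction hu using Subgroup.closure_induction with
    | mem u hu =>
      obtain ⟨b, hb, rfl⟩ := hu
      have h1 : ∀ x ∈ X.cls a, rfl' b x ∈ X.cls a := fun x hx => by
        rcases eb3_dich ha hb with t | t
        · rw [rfl'_apply (A.ne b hb)]
          exact sub_mem hx (Submodule.smul_mem _ _ t)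
        · rw [eb2_fix (A.ne b hb) (t x hx)]; exact hx
      refine fun x => ⟨fun hx => ?_, h1 x⟩
      have h2 := h1 _ hx
      unfold rfl' at h2
      rwa [Submodule.reflection_reflection] at h2
    | one => exact fun _ => Iff.rfl
    | mul _ _ _ _ h1 h2 => exact fun x => (h1 _).trans (h2 x)
    | inv u _ h1 =>
      intro x
      rw [← h1]
      change u (u.symm x) ∈ _ ↔ _
      rw [LinearIsometryEquiv.apply_symm_apply]
  ext x
  constructor
  · rintro ⟨y, hy, rfl⟩
    exact (key w (A.genW h) y).2 hy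
  · intro hx
    exact ⟨w.symm x, (key w⁻¹ (inv_mem (A.genW h)) x).2 hx, w.apply_symm_apply x⟩

/-- A root is orthogonal to a component or its normal lies in it. -/
theorem AxI.dich (A : X.AxI) {a b : Module.Dual ℝ Y} (ha : a ∈ X.Φ) (hb : b ∈ X.Φ) :
    nv b ∈ X.cls a ∨ ∀ v ∈ X.cls a, b v = 0 := by
  have _ := A.inj
  exact eb3_dich ha hb

theorem AxI.root_proj (A : X.AxI) {a b : Module.Dual ℝ Y} (ha : a ∈ X.Φ) (hb : b ∈ X.Φ) (v : Y) :
    (nv b ∈ X.cls a ∧ b ((X.cls a).starProjection v) = b v) ∨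
      b ((X.cls a).starProjection v) = 0 := by
  rcases A.dich ha hb with t | t
  · refine Or.inl ⟨t, ?_⟩
    have := Submodule.inner_right_of_mem_orthogonal t
      (Submodule.sub_starProjection_mem_orthogonal (K := X.cls a) v)
    rw [inner_nv, map_sub, sub_eq_zero] at this
    exact this.symm
  · exact Or.inr (t _ (Submodule.starProjection_apply_mem _ v))

theorem eb3_half {M : Y ≃ₗ[ℝ] Y} (h : X.Sim M) {a : Module.Dual ℝ Y} (ha : a ∈ X.Φ) :
    ∃ b ∈ X.Φ, ∃ c q : ℝ, c ≠ 0 ∧ 0 < q ∧ M (nv a) = c • nv b ∧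
      ∀ v ∈ X.cls a, M v ∈ X.cls b ∧ ∀ y, inner ℝ (M v) (M y) = q * inner ℝ v y := by
  obtain ⟨b, hb, c, q, hc, hq, e1, e2⟩ := h a ha
  refine ⟨b, hb, c, q, hc, hq, e1, ?_⟩
  have key : ∀ d, X.Rel a d →
      M (nv d) ∈ X.cls b ∧ ∀ y, inner ℝ (M (nv d)) (M y) = q * d y := by
    intro d hd
    induction hd with
    | refl =>
      exact ⟨by rw [e1]; exact Submodule.smul_mem _ _ (eb3_nv Relation.ReflTransGen.refl), e2⟩
    | @tail d d' _ h2 ih =>
      obtain ⟨b', hb', c', q', -, hq', f1, f2⟩ := h d' h2.2.1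
      have h3 : q * d (nv d') = q' * d (nv d') := by
        rw [← ih.2, real_inner_comm, f2, nv_symm]
      have h4 : q = q' := mul_right_cancel₀ h2.2.2 h3
      refine ⟨?_, by rw [h4]; exact f2⟩
      rcases eb3_dich hb hb' with t | t
      · rw [f1]; exact Submodule.smul_mem _ _ t
      · have h5 := f2 (nv d)
        rw [f1, real_inner_smul_left, inner_nv, t _ ih.1, mul_zero, nv_symm] at h5
        exact absurd h5.symm (mul_ne_zero hq'.ne' h2.2.2)
  intro v hv
  induction hv using Submodule.span_induction with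
  | mem x hx =>
    obtain ⟨d, hd, rfl⟩ := hx
    exact ⟨(key d hd).1, fun y => by rw [(key d hd).2, inner_nv]⟩
  | zero => exact ⟨by rw [map_zero]; exact zero_mem _, fun y => by simp⟩
  | add x y _ _ h1 h2 =>
    exact ⟨by rw [map_add]; exact add_mem h1.1 h2.1, fun z => by
      rw [map_add, inner_add_left, inner_add_left, h1.2, h2.2, mul_add]⟩
  | smul t x _ h1 =>
    exact ⟨by rw [map_smul]; exact Submodule.smul_mem _ _ h1.1, fun z => by
      rw [map_smul, real_inner_smul_left, real_inner_smul_left, h1.2]; ring⟩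

/-- A map that permutes the reflections acts on a component as a similarity. -/
theorem AxI.sim_cls (A : X.AxI) {M : Y ≃ₗ[ℝ] Y} (h : X.Sim M) (h' : X.Sim M.symm)
    {a : Module.Dual ℝ Y} (ha : a ∈ X.Φ) : ∃ b ∈ X.Φ, ∃ s : ℝ, 0 < s ∧
      (X.cls a).map (M : Y →ₗ[ℝ] Y) = X.cls b ∧ (∀ v ∈ X.cls a, ‖M v‖ = s * ‖v‖) ∧
      ∀ v, M ((X.cls a).starProjection v) = (X.cls b).starProjection (M v) := by
  obtain ⟨b, hb, c, q, hc, hq, e1, e2⟩ := eb3_half h ha
  obtain ⟨a', ha', c', q', hc', -, f1, f2⟩ := eb3_half h' hb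
  have h1 : nv a = (c * c') • nv a' := by
    rw [mul_smul, ← f1, ← map_smul, ← e1, M.symm_apply_apply]
  have h2 : X.Rel a' a := Relation.ReflTransGen.single ⟨ha', ha, by
    rw [h1, map_smul, smul_eq_mul]
    exact mul_ne_zero (mul_ne_zero hc hc') (nv_pos (A.ne a' ha')).ne'⟩
  have h3 : X.cls a' ≤ X.cls a := Submodule.span_mono (Set.image_mono fun d hd =>
    Relation.ReflTransGen.trans (A.rel_symm h2) hd)
  have h4 : ∀ y ∈ X.cls b, M.symm y ∈ X.cls a := fun y hy => h3 (f2 y hy).1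
  refine ⟨b, hb, √q, Real.sqrt_pos.2 hq, ?_, fun v hv => ?_, fun v => ?_⟩
  · ext y
    constructor
    · rintro ⟨x, hx, rfl⟩
      exact (e2 x hx).1
    · exact fun hy => ⟨M.symm y, h4 y hy, M.apply_symm_apply y⟩
  · have h5 := (e2 v hv).2 v
    rw [real_inner_self_eq_norm_sq, real_inner_self_eq_norm_sq] at h5
    rw [← Real.sqrt_sq (norm_nonneg (M v)), h5, Real.sqrt_mul hq.le, Real.sqrt_sq (norm_nonneg v)]
  · symm
    apply Submodule.eq_starProjection_of_mem_of_inner_eq_zero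
    · exact (e2 _ (Submodule.starProjection_apply_mem _ v)).1
    · intro y hy
      rw [← M.apply_symm_apply y, ← map_sub, real_inner_comm, (e2 _ (h4 y hy)).2,
        Submodule.inner_right_of_mem_orthogonal (h4 y hy)
          (Submodule.sub_starProjection_mem_orthogonal (K := X.cls a) v), mul_zero]

theorem AxI.types (A : X.AxI) {a : Module.Dual ℝ Y} (ha : a ∈ X.Φ) {v : Y} (hv : v ∈ X.cls a) :
    {z | ∃ (M : Y ≃ₗ[ℝ] Y) (s : ℝ), X.Sim M ∧ 0 < s ∧ (∀ y ∈ X.cls a, ‖M y‖ = s * ‖y‖) ∧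
      z = s⁻¹ • M v}.Finite := by
  induction hv using Submodule.span_induction with
  | mem x hx =>
    obtain ⟨d, hd, rfl⟩ := hx
    refine ((A.fin.image fun b => (‖nv d‖ / ‖nv b‖) • nv b).union
      (A.fin.image fun b => (-(‖nv d‖ / ‖nv b‖)) • nv b)).subset ?_
    rintro _ ⟨M, s, hM, hs, hn, rfl⟩
    obtain ⟨b, hb, c, q, -, -, e1, -⟩ := hM d (eb3_mem ha hd)
    have h1 := hn _ (eb3_nv hd)
    have hb0 : ‖nv b‖ ≠ 0 := fun h0 => by
      have := nv_pos (A.ne b hb)
      rw [norm_eq_zero.1 h0, map_zero] at this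
      exact lt_irrefl _ this
    rw [e1, norm_smul, Real.norm_eq_abs] at h1
    have h2 : |s⁻¹ * c| = ‖nv d‖ / ‖nv b‖ := by
      rw [abs_mul, abs_of_pos (inv_pos.2 hs), eq_div_iff hb0, mul_assoc, h1,
        inv_mul_cancel_left₀ hs.ne']
    rw [e1, smul_smul]
    rcases abs_cases (s⁻¹ * c) with t | t
    · exact Or.inl ⟨b, hb, by beta_reduce; rw [← h2, t.1]⟩
    · exact Or.inr ⟨b, hb, by beta_reduce; rw [← h2, t.1, neg_neg]⟩
  | zero =>
    refine (Set.finite_singleton (0 : Y)).subset ?_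
    rintro _ ⟨M, s, -, -, -, rfl⟩
    simp
  | add x y _ _ h1 h2 =>
    refine (h1.image2 (· + ·) h2).subset ?_
    rintro _ ⟨M, s, hM, hs, hn, rfl⟩
    exact ⟨_, ⟨M, s, hM, hs, hn, rfl⟩, _, ⟨M, s, hM, hs, hn, rfl⟩, by rw [map_add, smul_add]⟩
  | smul t x _ h1 =>
    refine (h1.image (t • ·)).subset ?_
    rintro _ ⟨M, s, hM, hs, hn, rfl⟩
    exact ⟨_, ⟨M, s, hM, hs, hn, rfl⟩, by rw [map_smul, smul_comm]⟩

end Geo0

end Pool.Agent.P.MP_6990a0_al.VC
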