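import Pool.Agent.P.MP_6990a0_al.EC
import Pool.Agent.P.MP_6990a0_al.VT5

/-! Solvable quotients and ratios of scalings. -/

namespace Pool.Agent.P.MP_6990a0_al.VC

theorem solv_abs {L : Type*} [CompleteLattice L] (r : L → ℕ) (hr : StrictMono r)
    {D : Set (ℝ → L)} (hD : Cone ⊤ D) {Γ : Type*} [Group Γ] {b : Γ → (ℝ → L) → ℝ → L}
    (hb : AAct D b) (N : Subgroup Γ) [N.Normal] [N.FiniteIndex]
    (hN : ∀ g ∈ N, ∀ x ∈ D, b g x = x) (H : Subgroup Γ)
    (hH : Group.IsSolvable (H.map (QuotientGroup.mk' N))) : ∃ x ∈ D, ∀ h ∈ H, b h x = x := by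
  classical
  have : Fintype (Γ ⧸ N) := Fintype.ofFinite _
  have hcl : ∀ g g' : Γ, (g : Γ ⧸ N) = g' → ∀ x ∈ D, b g x = b g' x := fun g g' h x hx => by
    rw [← mul_inv_cancel_left g g', hb.mul _ _ x hx, hN _ (QuotientGroup.eq.1 h) x hx]
  let ι : (ℝ → L) → ℝ → Γ ⧸ N → L := fun x t q => b q.out⁻¹ x t
  let a : Γ → (Γ ⧸ N → L) ≃o (Γ ⧸ N → L) := fun g =>
    { toFun := fun B q => B ((g : Γ ⧸ N)⁻¹ * q)
      invFun := fun B q => B (g * q)
      left_inv := fun B => by simp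
      right_inv := fun B => by simp
      map_rel_iff' := fun {B B'} => ⟨fun h q => by simpa using h (g * q), fun h q => h _⟩ }
  have ha : ∀ g, ∀ x ∈ D, a g ∘ ι x = ι (b g x) := fun g x hx => by
    funext t q
    refine congrFun ((hcl _ _ ?_ x hx).trans (hb.mul _ _ x hx)) t
    simp
  have hι : ∀ x ∈ D, (fun t => ι x t 1) = x := fun x hx =>
    (hcl _ 1 (by simp) x hx).trans (hb.one x hx)
  obtain ⟨x₀, hx₀⟩ := hD.ne
  obtain ⟨_, ⟨x, hx, rfl⟩, h⟩ := solv_fix _ (rank_pi (J := Γ ⧸ N) r hr) (W := ⊤) (D := ι '' D)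
    ⟨⟨_, x₀, hx₀, rfl⟩, by
      rintro _ ⟨x, hx, rfl⟩
      exact filt_pi fun q => hD.filt _ (hb.mem _ x hx), by
      rintro _ ⟨x, hx, rfl⟩ _ ⟨y, hy, rfl⟩
      refine ⟨_, hD.add_mem x hx y hy, funext fun t => funext fun q => ?_⟩
      exact congrFun ((hb.add _ x hx y hy).trans (add_pi (ι x) (ι y) q).symm) t, by
      rintro s hs _ ⟨x, hx, rfl⟩
      exact ⟨_, hD.sc_mem s hs x hx, funext fun t => funext fun q =>
        congrFun (hb.sc _ s hs x hx) t⟩⟩ a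
    ⟨fun B => funext fun q => congrArg B (by simp),
      fun g h B => funext fun q => congrArg B (by simp [mul_assoc])⟩ (fun g => rfl) (by
      rintro g _ ⟨x, hx, rfl⟩
      exact ⟨_, hb.mem g x hx, (ha g x hx).symm⟩) N
    ⟨_, ⟨x₀, hx₀, rfl⟩, fun g hg => by rw [ha g _ hx₀, hN g hg _ hx₀]⟩ H hH
  refine ⟨x, hx, fun g hg => ?_⟩
  rw [← hι _ (hb.mem g x hx), ← ha g x hx, h g hg, hι x hx]

theorem ratio {I : Type*} [Finite I] (r : Setoid I) (𝒮 : Set (I → ℝ))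
    (pos : ∀ σ ∈ 𝒮, ∀ i, 0 < σ i) (cc : ∀ σ ∈ 𝒮, ∀ i j, r i j → σ i = σ j) (one : 1 ∈ 𝒮)
    (add : ∀ σ ∈ 𝒮, ∀ τ ∈ 𝒮, σ + τ ∈ 𝒮) (mul : ∀ σ ∈ 𝒮, ∀ τ ∈ 𝒮, σ * τ ∈ 𝒮)
    (smul : ∀ c : ℝ, 0 < c → ∀ σ ∈ 𝒮, c • σ ∈ 𝒮)
    (sep : ∀ i j, ¬ r i j → ∃ σ ∈ 𝒮, σ i ≠ σ j) (ρ : I → ℝ) (hρ : ∀ i, 0 < ρ i)
    (hc : ∀ i j, r i j → ρ i = ρ j) : ∃ σ ∈ 𝒮, ∃ τ ∈ 𝒮, σ * ρ = τ := by
  classical
  have : Fintype I := Fintype.ofFinite _
  let A : Subalgebra ℝ (I → ℝ) :=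
    { carrier := {x | ∃ p ∈ 𝒮, ∃ q ∈ 𝒮, x = p - q}
      mul_mem' := by
        rintro _ _ ⟨p, hp, q, hq, rfl⟩ ⟨p', hp', q', hq', rfl⟩
        exact ⟨_, add _ (mul _ hp _ hp') _ (mul _ hq _ hq'), _,
          add _ (mul _ hp _ hq') _ (mul _ hq _ hp'), by ring⟩
      add_mem' := by
        rintro _ _ ⟨p, hp, q, hq, rfl⟩ ⟨p', hp', q', hq', rfl⟩
        exact ⟨_, add _ hp _ hp', _, add _ hq _ hq', by ring⟩
      algebraMap_mem' := fun c => ⟨_, smul (c + |c| + 1) (by linarith [neg_abs_le c]) _ one, _,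
        smul (|c| + 1) (by positivity) _ one, funext fun i => by simp⟩ }
  have hA : ∀ σ ∈ 𝒮, σ ∈ A := fun σ h => ⟨_, add _ h _ one, _, one, by ring⟩
  have hpow : ∀ σ ∈ 𝒮, ∀ m : ℕ, σ ^ m ∈ 𝒮 := fun σ h m => by
    induction m with
    | zero => exact one
    | succ m ih => exact pow_succ σ m ▸ mul _ ih _ h
  have h1 : ∀ i, ∃ σ ∈ 𝒮, ∃ τ ∈ 𝒮, (σ * fun j => if r i j then ρ j else 1) = τ := by
    intro i
    choose s hs hs' using sep i
    obtain ⟨p, hp, q, hq, h⟩ : (∏ j : {j // ¬ r i j}, (s j j.2 i - s j j.2 j)⁻¹ •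
        (s j j.2 - algebraMap ℝ _ (s j j.2 j))) ∈ A := A.prod_mem fun j _ =>
      A.smul_mem (A.sub_mem (hA _ (hs _ _)) (A.algebraMap_mem _)) _
    have h2 : p i - q i = 1 := by
      rw [← Pi.sub_apply, ← h, Finset.prod_apply]
      exact Finset.prod_eq_one fun j _ => inv_mul_cancel₀ (sub_ne_zero.2 (hs' _ j.2))
    have h3 : ∀ j, ¬ r i j → p j = q j := fun j hj => by
      rw [← sub_eq_zero, ← Pi.sub_apply, ← h, Finset.prod_apply]
      exact Finset.prod_eq_zero (Finset.mem_univ ⟨j, hj⟩) (by simp)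
    have h4 := pos q hq i
    have h5 := hρ i
    obtain ⟨m, hm⟩ := pow_unbounded_of_one_lt (max (ρ i) (ρ i)⁻¹)
      ((one_lt_div h4).2 (show q i < p i by linarith))
    rw [div_pow, max_lt_iff, lt_div_iff₀ (pow_pos h4 m), lt_div_iff₀ (pow_pos h4 m),
      inv_mul_lt_iff₀ h5] at hm
    have h6 := pow_pos h4 m
    have h7 := pow_pos (pos p hp i) m
    generalize ha : p i ^ m = a at hm h7
    generalize hb : q i ^ m = b at hm h6
    have h8 : 0 < a * b * ρ i - b * b := by nlinarith [mul_pos h6 (sub_pos.2 hm.2)]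
    have h9 : 0 < a * a - a * b * ρ i := by nlinarith [mul_pos h7 (sub_pos.2 hm.1)]
    have h10 : 0 < a * a - b * b := by linarith
    refine ⟨_, mul _ (hpow p hp m) _ (hpow q hq m), _,
      add _ (smul _ (div_pos h8 h10) _ (mul _ (hpow p hp m) _ (hpow p hp m))) _
        (smul _ (div_pos h9 h10) _ (mul _ (hpow q hq m) _ (hpow q hq m))), funext fun j => ?_⟩
    simp only [Pi.mul_apply, Pi.add_apply, Pi.smul_apply, Pi.pow_apply, smul_eq_mul]
    split_ifs with hj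
    · rw [← cc p hp i j hj, ← cc q hq i j hj, ← hc i j hj, ha, hb, div_mul_eq_mul_div,
        div_mul_eq_mul_div, ← add_div, eq_div_iff h10.ne']
      ring
    · rw [h3 j hj, div_mul_eq_mul_div, div_mul_eq_mul_div, ← add_div, eq_div_iff h10.ne']
      ring
  let T : Submonoid (I → ℝ) :=
    { carrier := {ρ | ∃ σ ∈ 𝒮, ∃ τ ∈ 𝒮, σ * ρ = τ}
      one_mem' := ⟨1, one, 1, one, mul_one _⟩
      mul_mem' := by
        rintro x y ⟨σ, hσ, τ, hτ, h⟩ ⟨σ', hσ', τ', hτ', h'⟩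
        exact ⟨_, mul _ hσ _ hσ', _, mul _ hτ _ hτ', by rw [mul_mul_mul_comm, h, h']⟩ }
  have : Fintype (Quotient r) := Fintype.ofFinite _
  have h2 : (∏ C : Quotient r, fun j => if C = ⟦j⟧ then ρ j else 1) ∈ T :=
    T.prod_mem fun C _ => by
      obtain ⟨i, rfl⟩ := C.exists_rep
      simp only [Quotient.eq]
      exact h1 i
  rwa [show (∏ C : Quotient r, fun j => if C = ⟦j⟧ then ρ j else 1) = ρ from
    funext fun j => by simp] at h2

/-- The geometric mean of a cocycle over the classes of an invariant relation. -/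
theorem mean_coc {Γ I : Type*} [Group Γ] [MulAction Γ I] [Finite I] (r : Setoid I)
    (hr : ∀ (g : Γ) i j, r i j → r (g • i) (g • j)) (s : Γ → I → ℝ) (pos : ∀ g i, 0 < s g i)
    (coc : ∀ g h i, s (g * h) i = s g (h • i) * s h i) :
    ∃ c : Γ → I → ℝ, (∀ g i, 0 < c g i) ∧ (∀ g h i, c (g * h) i = c g (h • i) * c h i) ∧
      (∀ g i j, r i j → c g i = c g j) ∧
      ∀ g i, (∀ j, r i j → s g j = s g i) → c g i = s g i := by
  classical
  have : Fintype I := Fintype.ofFinite _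
  let C : I → Finset I := fun i => Finset.univ.filter (r i)
  have hC : ∀ i j, j ∈ C i ↔ r i j := fun i j => by simp [C]
  have h1 : ∀ (h : Γ) i j, j ∈ C i ↔ MulAction.toPerm h j ∈ C (h • i) := fun h i j => by
    rw [hC, hC]
    exact ⟨hr h i j, fun h' => by simpa using hr h⁻¹ _ _ h'⟩
  refine ⟨fun g i => Real.exp ((∑ j ∈ C i, Real.log (s g j)) / (C i).card),
    fun g i => Real.exp_pos _, fun g h i => ?_, fun g i j hij => ?_, fun g i h => ?_⟩
  · rw [← Real.exp_add, ← Finset.card_equiv _ (h1 h i), ← add_div, ← Finset.sum_equiv _ (h1 h i)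
      (f := fun j => Real.log (s g (h • j))) fun _ _ => rfl, ← Finset.sum_add_distrib]
    simp only [coc, Real.log_mul (pos _ _).ne' (pos _ _).ne']
  · have : C i = C j := Finset.ext fun l => by
      rw [hC, hC]
      exact ⟨r.trans (r.symm hij), r.trans hij⟩
    simp only [this]
  · have h2 : ((C i).card : ℝ) ≠ 0 :=
      Nat.cast_ne_zero.2 (Finset.card_ne_zero.2 ⟨i, (hC i i).2 (r.refl i)⟩)
    beta_reduce
    rw [Finset.sum_congr rfl fun j hj => congrArg Real.log (h j ((hC i j).1 hj)), Finset.sum_const,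
      nsmul_eq_mul, mul_div_cancel_left₀ _ h2, Real.exp_log (pos g i)]

end Pool.Agent.P.MP_6990a0_al.VC
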