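import Pool.Agent.P.MP_6990a0_al.EA5
import Pool.Agent.P.MP_6990a0_al.ES1

/-! Components and scalings. -/

namespace Pool.Agent.P.MP_6990a0_al.VC

variable {k V : Type*} [Field k] [AddCommGroup V] [Module k V] {n : ℕ} {Γ I : Type*} [Group Γ]
  [MulAction Γ I] {E D : Set (ℝ → Submodule k V)}
  {a : Γ → (ℝ → Submodule k V) → ℝ → Submodule k V}
  {pr : I → (ℝ → Submodule k V) → ℝ → Submodule k V} {s : Γ → I → ℝ}

/-- The points whose components in `J` are scaled by `H`. -/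
def es2_fx (D : Set (ℝ → Submodule k V)) (a : Γ → (ℝ → Submodule k V) → ℝ → Submodule k V)
    (pr : I → (ℝ → Submodule k V) → ℝ → Submodule k V) (s : Γ → I → ℝ) (H : Subgroup Γ)
    (J : Set I) : Set (ℝ → Submodule k V) :=
  {x | x ∈ D ∧ ∀ g ∈ H, ∀ i ∈ J, a g (pr i x) = sc (s g i) (pr i x)}

theorem es2_coc_one {c : Γ → I → ℝ} (pos : ∀ g i, 0 < c g i)
    (coc : ∀ g h i, c (g * h) i = c g (h • i) * c h i) (i : I) : c 1 i = 1 := by
  have h := coc 1 1 i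
  rw [mul_one, one_smul] at h
  exact mul_left_cancel₀ (pos 1 i).ne' (h.symm.trans (mul_one _).symm)

theorem es2_coc_conj {c : Γ → I → ℝ} (pos : ∀ g i, 0 < c g i)
    (coc : ∀ g h i, c (g * h) i = c g (h • i) * c h i) (g h : Γ) (i : I)
    (hi : (h⁻¹ * g * h) • i = i) : c (h⁻¹ * g * h) i = c g (h • i) := by
  have h1 := coc g h i
  have h2 := coc h (h⁻¹ * g * h) i
  rw [hi, show h * (h⁻¹ * g * h) = g * h by group, h1, mul_comm] at h2
  exact (mul_left_cancel₀ (pos h i).ne' h2).symm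

theorem es2_comm {L : Type*} (c d : ℝ) (x : ℝ → L) : sc c (sc d x) = sc d (sc c x) := by
  rw [sc_sc, sc_sc, mul_comm]

theorem es2_cone (ha : AAct E a) (hp : Cmp n E a pr s) (hDE : D ⊆ E)
    (hD : Cone ⊤ D) (H : Subgroup Γ) (J : Set I) (hne : (es2_fx D a pr s H J).Nonempty) :
    Cone ⊤ (es2_fx D a pr s H J) where
  ne := hne
  filt x hx := hD.filt x hx.1
  add_mem x hx y hy := ⟨hD.add_mem x hx.1 y hy.1, fun g hg i hi => by
    rw [hp.add i x (hDE hx.1) y (hDE hy.1),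
      ha.add g _ (hp.mem i x (hDE hx.1)) _ (hp.mem i y (hDE hy.1)), hx.2 g hg i hi,
      hy.2 g hg i hi, sc_add (hp.pos g i)]⟩
  sc_mem c hc x hx := ⟨hD.sc_mem c hc x hx.1, fun g hg i hi => by
    rw [hp.sc i c hc x (hDE hx.1), ha.sc g c hc _ (hp.mem i x (hDE hx.1)), hx.2 g hg i hi,
      es2_comm]⟩

theorem es2_inv (ha : AAct E a) (hp : Cmp n E a pr s) (hDE : D ⊆ E)
    (hst : ∀ g, ∀ x ∈ D, a g x ∈ D) {H : Subgroup Γ} (hH : ∀ g ∈ H, ∀ i : I, g • i = i)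
    {J : Set I} {h : Γ} (hc : ∀ g ∈ H, h⁻¹ * g * h ∈ H) (hJ : ∀ i ∈ J, h⁻¹ • i ∈ J) :
    ∀ x ∈ es2_fx D a pr s H J, a h x ∈ es2_fx D a pr s H J := by
  intro x hx
  refine ⟨hst h x hx.1, fun g hg i hi => ?_⟩
  have hxE := hDE hx.1
  have hm := hp.mem (h⁻¹ • i) x hxE
  have e1 : pr i (a h x) = a h (pr (h⁻¹ • i) x) := by
    rw [hp.eqv h _ x hxE, smul_inv_smul]
  have e2 := es2_coc_conj hp.pos hp.coc g h (h⁻¹ • i) (hH _ (hc g hg) _)
  rw [smul_inv_smul] at e2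
  rw [e1, ← ha.mul g h _ hm, show g * h = h * (h⁻¹ * g * h) by group, ha.mul _ _ _ hm,
    hx.2 _ (hc g hg) _ (hJ i hi), ha.sc h _ (hp.pos _ _) _ hm, e2]

theorem es2_one [Finite I] (hE : Cone ⊤ E) (ha : AAct E a) (hp : Cmp n E a pr s) (hDE : D ⊆ E)
    (hD : Cone ⊤ D) (hst : ∀ g, ∀ x ∈ D, a g x ∈ D) (J : Finset I) :
    ∃ H : Subgroup Γ, H.FiniteIndex ∧ (∀ g ∈ H, ∀ i : I, g • i = i) ∧
      (es2_fx D a pr s H J).Nonempty := by
  classical
  induction J using Finset.induction_on with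
  | empty =>
    obtain ⟨x, hx⟩ := hD.ne
    refine ⟨(MulAction.toPermHom Γ I).ker, inferInstance, fun g hg i => ?_, x, hx,
      fun g _ i hi => absurd hi (by simp)⟩
    have := congrArg (fun π : Equiv.Perm I => π i) (MonoidHom.mem_ker.1 hg)
    simpa using this
  | insert i J _ ih =>
    obtain ⟨H, hfi, hH, hne⟩ := ih
    have hc := es2_cone ha hp hDE hD H J hne
    have hinv : ∀ h ∈ H, ∀ x ∈ es2_fx D a pr s H J, a h x ∈ es2_fx D a pr s H J := fun h hh =>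
      es2_inv ha hp hDE hst hH (fun g hg => H.mul_mem (H.mul_mem (H.inv_mem hh) hg) hh)
        fun j hj => by rwa [hH _ (H.inv_mem hh)]
    have hE' : ∀ y ∈ pr i '' es2_fx D a pr s H J, y ∈ E := by
      rintro _ ⟨x, hx, rfl⟩
      exact hp.mem i x (hDE hx.1)
    have hc' : Cone ⊤ (pr i '' es2_fx D a pr s H J) :=
      { ne := hne.image _
        filt := fun y hy => hE.filt y (hE' y hy)
        add_mem := by
          rintro _ ⟨x, hx, rfl⟩ _ ⟨y, hy, rfl⟩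
          exact ⟨add x y, hc.add_mem x hx y hy, hp.add i x (hDE hx.1) y (hDE hy.1)⟩
        sc_mem := by
          rintro c h0 _ ⟨x, hx, rfl⟩
          exact ⟨sc c x, hc.sc_mem c h0 x hx, hp.sc i c h0 x (hDE hx.1)⟩ }
    have ha' : AAct (pr i '' es2_fx D a pr s H J)
        fun (g : H) y => sc (s g i)⁻¹ (a g y) :=
      { mem := by
          rintro g _ ⟨x, hx, rfl⟩
          have h0 := inv_pos.2 (hp.pos g i)
          have h1 := hinv g g.2 x hx
          refine ⟨_, hc.sc_mem _ h0 _ h1, ?_⟩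
          rw [hp.sc i _ h0 _ (hDE h1.1), hp.eqv g i x (hDE hx.1), hH g g.2]
        one := fun y hy => by
          simp only [OneMemClass.coe_one]
          rw [es2_coc_one hp.pos hp.coc, inv_one, sc_one, ha.one y (hE' y hy)]
        mul := fun g h y hy => by
          simp only [Subgroup.coe_mul]
          rw [ha.sc g _ (inv_pos.2 (hp.pos h i)) _ (ha.mem h y (hE' y hy)), sc_sc,
            ha.mul _ _ y (hE' y hy), hp.coc, hH h h.2, mul_inv]
        add := fun g x hx y hy => by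
          rw [ha.add g x (hE' x hx) y (hE' y hy), sc_add (inv_pos.2 (hp.pos g i))]
        sc := fun g c h0 x hx => by
          rw [ha.sc g c h0 x (hE' x hx), es2_comm] }
    obtain ⟨x0, hx0⟩ := hne
    obtain ⟨W, hW, hty⟩ := hp.typ i x0 (hDE hx0.1)
    obtain ⟨H', hfi', _, ⟨x, hx, rfl⟩, hfix⟩ :=
      gen hc' ha' ⟨x0, hx0, rfl⟩ hW fun g => hty g
    refine ⟨H'.map H.subtype, ⟨?_⟩, ?_, x, hx.1, ?_⟩
    · rw [Subgroup.index_map_subtype]
      exact mul_ne_zero hfi'.1 hfi.1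
    · rintro _ ⟨g, -, rfl⟩
      exact hH g g.2
    · rintro _ ⟨g, hg, rfl⟩ j hj
      rcases Finset.mem_insert.1 (Finset.mem_coe.1 hj) with rfl | hj
      · have h1 := congrArg (sc (s g j)) (hfix g hg)
        rwa [sc_sc, mul_inv_cancel₀ (hp.pos g j).ne', sc_one] at h1
      · exact hx.2 g g.2 j hj

/-- A normal subgroup of finite index scales the components of a point. -/
theorem step1 [Finite I] (hE : Cone ⊤ E) (ha : AAct E a) (hp : Cmp n E a pr s) (hDE : D ⊆ E)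
    (hD : Cone ⊤ D) (hst : ∀ g, ∀ x ∈ D, a g x ∈ D) :
    ∃ (N : Subgroup Γ) (_ : N.Normal), N.FiniteIndex ∧ (∀ g ∈ N, ∀ i : I, g • i = i) ∧
      ∃ x ∈ D, ∀ g ∈ N, ∀ i, a g (pr i x) = sc (s g i) (pr i x) := by
  have := Fintype.ofFinite I
  obtain ⟨H, hfi, hH, x, hx⟩ := es2_one hE ha hp hDE hD hst Finset.univ
  exact ⟨H.normalCore, inferInstance, inferInstance, fun g hg => hH g (H.normalCore_le hg), x,
    hx.1, fun g hg i => hx.2 g (H.normalCore_le hg) i (by simp)⟩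

theorem step2 [Finite I] [FiniteDimensional k V] (hE : Cone ⊤ E) (ha : AAct E a)
    (hp : Cmp n E a pr s) (hDE : D ⊆ E) (hD : Cone ⊤ D) (hst : ∀ g, ∀ x ∈ D, a g x ∈ D)
    (N : Subgroup Γ) [N.Normal] [N.FiniteIndex] (hN : ∀ g ∈ N, ∀ i : I, g • i = i)
    (h0 : ∃ x ∈ D, ∀ g ∈ N, ∀ i, a g (pr i x) = sc (s g i) (pr i x)) (H : Subgroup Γ)
    (hH : Group.IsSolvable (H.map (QuotientGroup.mk' N))) :
    ∃ x ∈ D, ∀ h ∈ H, ∀ i, ∃ c : ℝ, 0 < c ∧ pr i (a h x) = sc c (pr i x) := by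
  have := Fintype.ofFinite I
  have hne : (es2_fx D a pr s N Set.univ).Nonempty := by
    obtain ⟨x, hx, h⟩ := h0
    exact ⟨x, hx, fun g hg i _ => h g hg i⟩
  set DN := es2_fx D a pr s N Set.univ with hDN
  have hc : Cone ⊤ DN := es2_cone ha hp hDE hD N _ hne
  have hcj : ∀ h, ∀ g ∈ N, h⁻¹ * g * h ∈ N := fun h g hg => by
    simpa using Subgroup.Normal.conj_mem ‹N.Normal› g hg h⁻¹
  have hinv : ∀ h, ∀ x ∈ DN, a h x ∈ DN := fun h =>
    es2_inv ha hp hDE hst hN (hcj h) fun _ _ => trivial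
  have hDN : ∀ x ∈ DN, x ∈ E := fun x hx => hDE hx.1
  let r : Setoid I :=
    { r := fun i j => ∀ g ∈ N, s g i = s g j
      iseqv := ⟨fun _ _ _ => rfl, fun h g hg => (h g hg).symm,
        fun h h' g hg => (h g hg).trans (h' g hg)⟩ }
  have hr : ∀ (h : Γ) i j, r i j → r (h • i) (h • j) := fun h i j hij g hg => by
    rw [← es2_coc_conj hp.pos hp.coc g h i (hN _ (hcj h g hg) _),
      ← es2_coc_conj hp.pos hp.coc g h j (hN _ (hcj h g hg) _)]
    exact hij _ (hcj h g hg)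
  let S : Set (I → ℝ) := {σ | (∀ i, 0 < σ i) ∧ (∀ i j, r i j → σ i = σ j) ∧
    ∀ x ∈ DN, ∃ x' ∈ DN, ∀ i, pr i x' = sc (σ i) (pr i x)}
  have hrat : ∀ ρ : I → ℝ, (∀ i, 0 < ρ i) → (∀ i j, r i j → ρ i = ρ j) →
      ∃ σ ∈ S, ∃ τ ∈ S, σ * ρ = τ := by
    refine ratio r S (fun σ h => h.1) (fun σ h => h.2.1) ?_ ?_ ?_ ?_ ?_
    · exact ⟨fun _ => one_pos, fun _ _ _ => rfl, fun x hx => ⟨x, hx, fun i => (sc_one _).symm⟩⟩
    · rintro σ ⟨h1, h2, h3⟩ τ ⟨h4, h5, h6⟩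
      refine ⟨fun i => add_pos (h1 i) (h4 i), fun i j h => ?_, fun x hx => ?_⟩
      · simp only [Pi.add_apply, h2 i j h, h5 i j h]
      · obtain ⟨y, hy, ey⟩ := h3 x hx
        obtain ⟨z, hz, ez⟩ := h6 x hx
        refine ⟨add y z, hc.add_mem y hy z hz, fun i => ?_⟩
        rw [hp.add i y (hDN y hy) z (hDN z hz), ey, ez,
          add_sc_sc (hE.filt _ (hp.mem i x (hDN x hx))) (h1 i) (h4 i), Pi.add_apply]
    · rintro σ ⟨h1, h2, h3⟩ τ ⟨h4, h5, h6⟩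
      refine ⟨fun i => mul_pos (h1 i) (h4 i), fun i j h => ?_, fun x hx => ?_⟩
      · simp only [Pi.mul_apply, h2 i j h, h5 i j h]
      · obtain ⟨z, hz, ez⟩ := h6 x hx
        obtain ⟨y, hy, ey⟩ := h3 z hz
        exact ⟨y, hy, fun i => by rw [ey, ez, sc_sc, Pi.mul_apply]⟩
    · rintro c h0 σ ⟨h1, h2, h3⟩
      refine ⟨fun i => mul_pos h0 (h1 i), fun i j h => ?_, fun x hx => ?_⟩
      · simp only [Pi.smul_apply, h2 i j h]
      · obtain ⟨y, hy, ey⟩ := h3 x hx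
        refine ⟨sc c y, hc.sc_mem c h0 y hy, fun i => ?_⟩
        rw [hp.sc i c h0 y (hDN y hy), ey, sc_sc, Pi.smul_apply, smul_eq_mul]
    · intro i j hij
      by_contra hcon
      refine hij fun g hg => by_contra fun hne' => hcon ⟨s g, ⟨hp.pos g, fun i j h => h g hg,
        fun x hx => ⟨a g x, hinv g x hx, fun l => ?_⟩⟩, hne'⟩
      rw [← hx.2 g hg l trivial, hp.eqv g l x (hDN x hx), hN g hg]
  obtain ⟨c, cpos, ccoc, ccl, ceq⟩ := mean_coc r hr s hp.pos hp.coc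
  let Dh : Set (ℝ → I → Submodule k V) := {X | ∃ x ∈ DN, ∃ ρ : I → ℝ, (∀ i, 0 < ρ i) ∧
    (∀ i j, r i j → ρ i = ρ j) ∧ ∀ i, (fun t => X t i) = sc (ρ i) (pr i x)}
  have hXE : ∀ X ∈ Dh, ∀ i, (fun t => X t i) ∈ E := by
    rintro X ⟨x, hx, ρ, h1, -, h3⟩ i
    rw [h3]
    exact hE.sc_mem _ (h1 i) _ (hp.mem i x (hDN x hx))
  have hDh : Cone ⊤ Dh :=
    { ne := by
        obtain ⟨x, hx⟩ := hne
        exact ⟨fun t i => pr i x t, x, hx, 1, fun _ => one_pos, fun _ _ _ => rfl,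
          fun i => (sc_one _).symm⟩
      filt := fun X hX => filt_pi fun i => hE.filt _ (hXE X hX i)
      add_mem := by
        rintro X ⟨x, hx, ρ, h1, h2, h3⟩ Y ⟨y, hy, ρ', h4, h5, h6⟩
        obtain ⟨σ, hσ, τ, hτ, e⟩ := hrat (fun i => ρ i / ρ' i) (fun i => div_pos (h1 i) (h4 i))
          fun i j h => by simp only [h2 i j h, h5 i j h]
        obtain ⟨x', hx', ex⟩ := hτ.2.2 x hx
        obtain ⟨y', hy', ey⟩ := hσ.2.2 y hy
        refine ⟨add x' y', hc.add_mem x' hx' y' hy', fun i => ρ' i / σ i,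
          fun i => div_pos (h4 i) (hσ.1 i), fun i j h => ?_, fun i => ?_⟩
        · simp only [h5 i j h, hσ.2.1 i j h]
        · have e1 : τ i = σ i * (ρ i / ρ' i) := (congrFun e i).symm
          have n1 := (h4 i).ne'
          have n2 := (hσ.1 i).ne'
          rw [add_pi, h3, h6, hp.add i x' (hDN x' hx') y' (hDN y' hy'),
            sc_add (div_pos (h4 i) (hσ.1 i)), ex, ey, sc_sc, sc_sc, e1,
            show ρ' i / σ i * (σ i * (ρ i / ρ' i)) = ρ i by field_simp,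
            show ρ' i / σ i * σ i = ρ' i by field_simp]
      sc_mem := by
        rintro d h0 X ⟨x, hx, ρ, h1, h2, h3⟩
        refine ⟨x, hx, fun i => d * ρ i, fun i => mul_pos h0 (h1 i), fun i j h => ?_, fun i => ?_⟩
        · simp only [h2 i j h]
        · rw [← sc_sc, ← h3]
          rfl }
  let b : Γ → (ℝ → I → Submodule k V) → ℝ → I → Submodule k V := fun h X t i =>
    sc (c h (h⁻¹ • i))⁻¹ (a h fun t => X t (h⁻¹ • i)) t
  have hb : ∀ h X i, (fun t => b h X t i) =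
      sc (c h (h⁻¹ • i))⁻¹ (a h fun t => X t (h⁻¹ • i)) := fun _ _ _ => rfl
  have hext : ∀ X Y : ℝ → I → Submodule k V,
      (∀ i, (fun t => X t i) = fun t => Y t i) → X = Y := fun X Y h => by
    funext t i
    exact congrFun (h i) t
  have hkey : ∀ (h : Γ) (X : ℝ → I → Submodule k V), ∀ x ∈ DN, ∀ ρ : I → ℝ, (∀ i, 0 < ρ i) →
      (∀ i, (fun t => X t i) = sc (ρ i) (pr i x)) → ∀ i, (fun t => b h X t i) =
        sc ((c h (h⁻¹ • i))⁻¹ * ρ (h⁻¹ • i)) (pr i (a h x)) := fun h X x hx ρ h1 h3 i => by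
    rw [hb, h3, ha.sc h _ (h1 _) _ (hp.mem _ x (hDN x hx)), hp.eqv h _ x (hDN x hx),
      smul_inv_smul, sc_sc]
  have hact : AAct Dh b :=
    { mem := by
        rintro h X ⟨x, hx, ρ, h1, h2, h3⟩
        refine ⟨a h x, hinv h x hx, fun i => (c h (h⁻¹ • i))⁻¹ * ρ (h⁻¹ • i),
          fun i => mul_pos (inv_pos.2 (cpos _ _)) (h1 _), fun i j hij => ?_,
          hkey h X x hx ρ h1 h3⟩
        simp only [h2 _ _ (hr h⁻¹ i j hij), ccl h _ _ (hr h⁻¹ i j hij)]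
      one := fun X hX => hext _ _ fun i => by
        rw [hb, es2_coc_one cpos ccoc, inv_one, sc_one, inv_one, one_smul,
          ha.one _ (hXE X hX i)]
      mul := fun g h X hX => hext _ _ fun i => by
        rw [hb, hb, hb, ha.sc g _ (inv_pos.2 (cpos _ _)) _ (ha.mem h _ (hXE X hX _)), sc_sc,
          ha.mul _ _ _ (hXE X hX _), ccoc, mul_inv_rev g h, mul_smul, smul_inv_smul, mul_inv]
      add := fun g X hX Y hY => hext _ _ fun i => by
        rw [hb, add_pi, add_pi, hb, hb, ha.add g _ (hXE X hX _) _ (hXE Y hY _),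
          sc_add (inv_pos.2 (cpos _ _))]
      sc := fun g d h0 X hX => hext _ _ fun i => by
        have e1 : (fun t => sc d X t (g⁻¹ • i)) = sc d fun t => X t (g⁻¹ • i) := rfl
        have e2 : (fun t => sc d (b g X) t i) = sc d fun t => b g X t i := rfl
        rw [hb, e1, e2, hb, ha.sc g d h0 _ (hXE X hX _), es2_comm] }
  have htriv : ∀ g ∈ N, ∀ X ∈ Dh, b g X = X := by
    rintro g hg X ⟨x, hx, ρ, h1, -, h3⟩
    refine hext _ _ fun i => ?_
    have e1 : pr i (a g x) = sc (s g i) (pr i x) := by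
      rw [← hx.2 g hg i trivial, hp.eqv g i x (hDN x hx), hN g hg]
    have n1 := (hp.pos g i).ne'
    rw [hkey g X x hx ρ h1 h3, hN _ (N.inv_mem hg), h3, e1, sc_sc,
      ceq g i fun j hj => (hj g hg).symm, show (s g i)⁻¹ * ρ i * s g i = ρ i by field_simp]
  obtain ⟨X, ⟨x, hx, ρ, h1, -, h3⟩, hfix⟩ :=
    solv_abs _ (rank_pi _ rank_mono) hDh hact N htriv H hH
  refine ⟨x, hx.1, fun h hh i => ?_⟩
  have e1 := hkey h X x hx ρ h1 h3 i
  rw [hfix h hh, h3] at e1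
  have p1 : 0 < (c h (h⁻¹ • i))⁻¹ * ρ (h⁻¹ • i) := mul_pos (inv_pos.2 (cpos _ _)) (h1 _)
  refine ⟨((c h (h⁻¹ • i))⁻¹ * ρ (h⁻¹ • i))⁻¹ * ρ i, mul_pos (inv_pos.2 p1) (h1 i), ?_⟩
  rw [← sc_sc, e1, sc_sc, inv_mul_cancel₀ p1.ne', sc_one]

theorem mainS [Finite I] [FiniteDimensional k V] (hE : Cone ⊤ E) (ha : AAct E a)
    (hp : Cmp n E a pr s) (hDE : D ⊆ E) (hD : Cone ⊤ D) (hst : ∀ g, ∀ x ∈ D, a g x ∈ D) :
    ∃ (N : Subgroup Γ) (_ : N.Normal), N.FiniteIndex ∧ ∀ H : Subgroup Γ,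
      Group.IsSolvable (H.map (QuotientGroup.mk' N)) →
      ∃ x ∈ D, ∀ h ∈ H, ∀ i, ∃ c : ℝ, 0 < c ∧ pr i (a h x) = sc c (pr i x) := by
  obtain ⟨N, hN, hfi, h1, h2⟩ := step1 hE ha hp hDE hD hst
  exact ⟨N, hN, hfi, fun H hH => step2 hE ha hp hDE hD hst N h1 h2 H hH⟩

end Pool.Agent.P.MP_6990a0_al.VC
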