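import Pool.Agent.P.MP_6990a0_al.EB3
import Pool.Agent.P.MP_6990a0_al.ES2

/-! The theorem for real points. -/

namespace Pool.Agent.P.MP_6990a0_al.VC

variable {k V : Type*} [Field k] [AddCommGroup V] [Module k V] {n : ℕ} {G : Type*} [Group G]
  {Γ : Type*} [Group Γ] {a : Γ → (ℝ → Submodule k V) → ℝ → Submodule k V}

namespace Geo0

section inner

variable {Y : Type*} [NormedAddCommGroup Y] [InnerProductSpace ℝ Y] [FiniteDimensional ℝ Y]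
  {X : Geo0 k V G Y n}

theorem AxI.finII (A : X.AxI) : Finite X.II := by
  have : {E : Submodule ℝ Y | ∃ a ∈ X.Φ, E = X.cls a}.Finite :=
    (A.fin.image X.cls).subset (by rintro _ ⟨a, ha, rfl⟩; exact ⟨a, ha, rfl⟩)
  exact this.to_subtype

theorem eb4_comm {E : Submodule ℝ Y} {w : Y ≃ₗᵢ[ℝ] Y}
    (h : E.map (w.toLinearEquiv : Y →ₗ[ℝ] Y) = E) (v : Y) :
    w (E.starProjection v) = E.starProjection (w v) := by
  symm
  apply Submodule.eq_starProjection_of_mem_of_inner_eq_zero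
  · exact h.le ⟨_, Submodule.starProjection_apply_mem E v, rfl⟩
  · intro y hy
    rw [← h] at hy
    obtain ⟨y, hy, rfl⟩ := hy
    change inner ℝ _ (w y) = 0
    rw [← map_sub, LinearIsometryEquiv.inner_map_map, real_inner_comm]
    exact Submodule.inner_right_of_mem_orthogonal hy
      (Submodule.sub_starProjection_mem_orthogonal (K := E) v)

theorem AxI.exists_pr (A : X.AxI) : ∃ pr : X.II → (ℝ → Submodule k V) → ℝ → Submodule k V,
    ∀ i g v, pr i (X.ap g v) = X.ap g (i.1.starProjection v) := by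
  classical
  have key : ∀ (i : X.II) g g' v v', X.ap g v = X.ap g' v' →
      X.ap g (i.1.starProjection v) = X.ap g' (i.1.starProjection v') := by
    rintro ⟨_, a, ha, rfl⟩ g g' v v' e
    obtain ⟨w, hw, h⟩ := A.reg e
    have h1 : w v = v' := A.toAx.ap_inj ((h v (Cl.refl v)).symm.trans e)
    have h2 : X.Cl v ((X.cls a).starProjection v) := fun b hb => by
      rcases A.root_proj ha hb v with t | t
      · rw [t.2]; exact ⟨le_of_lt, id⟩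
      · rw [t]; exact ⟨fun _ => le_rfl, fun _ => rfl⟩
    rw [← h1, ← eb4_comm (A.cls_W hw a ha)]
    exact h _ h2
  refine ⟨fun i x => if h : ∃ p : G × Y, x = X.ap p.1 p.2 then
    X.ap h.choose.1 (i.1.starProjection h.choose.2) else x, fun i g v => ?_⟩
  have h : ∃ p : G × Y, X.ap g v = X.ap p.1 p.2 := ⟨(g, v), rfl⟩
  exact (dif_pos h).trans (key i _ _ _ _ h.choose_spec).symm

theorem AxI.sim2 (A : X.AxI) (ha : X.GAct a) {γ : Γ} {g g' : G} {M : Y ≃ₗ[ℝ] Y}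
    (h : X.Tri (a γ) g g' M) : X.Sim M ∧ X.Sim M.symm := by
  refine ⟨A.sim (GAct.lin' A.toAx ha γ) h,
    A.sim (GAct.lin' A.toAx ha γ⁻¹) (g := g') (g' := g) fun v => ?_⟩
  have h1 : a γ (X.ap g (M.symm v)) = X.ap g' v := by
    rw [h]
    exact congrArg _ (M.apply_symm_apply v)
  rw [← h1, ← ha.mul _ _ _ ⟨_, _, rfl⟩, inv_mul_cancel, ha.one _ ⟨_, _, rfl⟩]
  rfl

/-- The action on the components and the scaling cocycle. -/
theorem AxI.exists_act (A : X.AxI) (ha : X.GAct a) :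
    ∃ (_ : MulAction Γ X.II) (s : Γ → X.II → ℝ), (∀ γ i, 0 < s γ i) ∧
      (∀ γ δ i, s (γ * δ) i = s γ (δ • i) * s δ i) ∧
      ∀ γ g g' (M : Y ≃ₗ[ℝ] Y), X.Tri (a γ) g g' M → ∀ i : X.II,
        (∀ v ∈ i.1, ‖M v‖ = s γ i * ‖v‖) ∧
        ∀ v, M (i.1.starProjection v) = (γ • i).1.starProjection (M v) := by
  choose gg MM hM using fun γ => GAct.lin' A.toAx ha γ 1
  have ex : ∀ γ (i : X.II), ∃ s : ℝ, 0 < s ∧
      (∃ b ∈ X.Φ, i.1.map (MM γ : Y →ₗ[ℝ] Y) = X.cls b) ∧ ∀ v ∈ i.1, ‖MM γ v‖ = s * ‖v‖ := by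
    rintro γ ⟨_, a0, ha0, rfl⟩
    obtain ⟨h1, h2⟩ := A.sim2 ha (hM γ)
    obtain ⟨b, hb, s, hs, e1, e2, -⟩ := A.sim_cls h1 h2 ha0
    exact ⟨s, hs, ⟨b, hb, e1⟩, e2⟩
  choose s hs hb hn using ex
  have key : ∀ γ g g' (M : Y ≃ₗ[ℝ] Y), X.Tri (a γ) g g' M → ∀ i : X.II,
      i.1.map (M : Y →ₗ[ℝ] Y) = i.1.map (MM γ : Y →ₗ[ℝ] Y) ∧
        ∀ v ∈ i.1, ‖M v‖ = s γ i * ‖v‖ := by
    intro γ g g' M h i
    obtain ⟨w, w', hw, hw', e⟩ := A.conn (GAct.lin' A.toAx ha γ) (hM γ) h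
    obtain ⟨a0, ha0, hi⟩ := i.2
    obtain ⟨b, hb', eb⟩ := hb γ i
    have e1 : i.1.map (w'.toLinearEquiv : Y →ₗ[ℝ] Y) = i.1 := by
      rw [hi]; exact A.cls_W hw' a0 ha0
    have e2 : (M : Y →ₗ[ℝ] Y) = (w.toLinearEquiv : Y →ₗ[ℝ] Y) ∘ₗ (MM γ : Y →ₗ[ℝ] Y) ∘ₗ
        (w'.toLinearEquiv : Y →ₗ[ℝ] Y) := LinearMap.ext e
    refine ⟨?_, fun v hv => ?_⟩
    · rw [e2, Submodule.map_comp, Submodule.map_comp, e1, eb, A.cls_W hw b hb']
    · have : w' v ∈ i.1 := by rw [← e1]; exact ⟨v, hv, rfl⟩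
      rw [e, LinearIsometryEquiv.norm_map, hn γ i _ this, LinearIsometryEquiv.norm_map]
  have comp : ∀ γ δ, ∃ (g1 g2 : G) (M : Y ≃ₗ[ℝ] Y), X.Tri (a γ) g1 g2 M ∧
      X.Tri (a (γ * δ)) 1 g2 ((MM δ).trans M : Y ≃ₗ[ℝ] Y) := by
    intro γ δ
    obtain ⟨g2, M, h⟩ := GAct.lin' A.toAx ha γ (gg δ)
    refine ⟨gg δ, g2, M, h, fun v => ?_⟩
    rw [ha.mul _ _ _ ⟨_, _, rfl⟩, hM δ v, h]
    rfl
  let act : Γ → X.II → X.II := fun γ i => ⟨i.1.map (MM γ : Y →ₗ[ℝ] Y), hb γ i⟩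
  have hone : ∀ i, act 1 i = i := fun i => Subtype.ext (by
    have := (key 1 1 1 (LinearEquiv.refl ℝ Y) (fun v => ha.one _ ⟨_, _, rfl⟩) i).1
    exact this.symm.trans (Submodule.map_id _))
  have hmul : ∀ γ δ i, act (γ * δ) i = act γ (act δ i) := fun γ δ i => Subtype.ext (by
    obtain ⟨g1, g2, M, h1, h2⟩ := comp γ δ
    exact (key _ _ _ _ h2 i).1.symm.trans
      ((Submodule.map_comp _ _ _).trans (key _ _ _ _ h1 (act δ i)).1))
  refine ⟨{ smul := act, one_smul := hone, mul_smul := hmul }, s, hs, fun γ δ i => ?_,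
    fun γ g g' M h i => ⟨(key γ g g' M h i).2, fun v => ?_⟩⟩
  · change _ = s γ (act δ i) * _
    obtain ⟨g1, g2, M, h1, h2⟩ := comp γ δ
    obtain ⟨a0, ha0, hi⟩ := i.2
    have hv : nv a0 ∈ i.1 := by rw [hi]; exact eb3_nv Relation.ReflTransGen.refl
    have h0 : ‖nv a0‖ ≠ 0 := fun h0 => by
      have := nv_pos (A.ne a0 ha0)
      rw [norm_eq_zero.1 h0, map_zero] at this
      exact lt_irrefl _ this
    have h3 := (key _ _ _ _ h2 i).2 _ hv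
    have h4 := (key _ _ _ _ h1 (act δ i)).2 (MM δ (nv a0)) ⟨_, hv, rfl⟩
    refine mul_right_cancel₀ h0 ?_
    rw [← h3, mul_assoc, ← hn δ i _ hv, ← h4]
    rfl
  · change _ = (i.1.map (MM γ : Y →ₗ[ℝ] Y)).starProjection (M v)
    have h5 := (key γ g g' M h i).1
    obtain ⟨_, a0, ha0, rfl⟩ := i
    obtain ⟨h1, h2⟩ := A.sim2 ha h
    obtain ⟨b, -, -, -, e1, -, e3⟩ := A.sim_cls h1 h2 ha0
    simp only [← h5, e1]
    exact e3 v

theorem AxI.same_act (A : X.AxI) (ha : X.GAct a) (γ : Γ) {x y : ℝ → Submodule k V}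
    (h : X.Same x y) : X.Same (a γ x) (a γ y) := by
  obtain ⟨g, v, v', rfl, rfl, hs⟩ := h
  obtain ⟨g', M, h⟩ := GAct.lin' A.toAx ha γ g
  exact ⟨g', M v, M v', h v, h v', (A.sim2 ha h).2.sg hs⟩

theorem AxI.main (A : X.AxI) (ha : X.GAct a) {D : Set (ℝ → Submodule k V)} (hDE : D ⊆ X.EE)
    (hD : Cone ⊤ D) (hst : ∀ g, ∀ x ∈ D, a g x ∈ D) :
    ∃ (N : Subgroup Γ) (_ : N.Normal), N.FiniteIndex ∧ ∀ H : Subgroup Γ,
      Group.IsSolvable (H.map (QuotientGroup.mk' N)) → ∃ x ∈ D, ∀ h ∈ H, X.Same (a h x) x := by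
  have := A.finII
  have : FiniteDimensional k V := Module.Finite.of_basis X.e
  obtain ⟨pr, hpr⟩ := A.exists_pr
  obtain ⟨_, s, hs, hc, hM⟩ := A.exists_act ha
  have hp : Cmp n X.EE a pr s := by
    refine ⟨?_, ?_, ?_, ?_, hs, hc, ?_⟩
    · rintro i _ ⟨g, v, rfl⟩
      exact ⟨g, _, hpr i g v⟩
    · rintro i _ ⟨g, v, rfl⟩ _ ⟨h, v', rfl⟩
      obtain ⟨p, z, z', e1, e2⟩ := A.toAx.common g h v v'
      rw [e1, e2, ap_add, hpr, hpr, hpr, ap_add, map_add]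
    · rintro i c hc' _ ⟨g, v, rfl⟩
      rw [ap_sc g hc', hpr, hpr, ap_sc g hc', map_smul]
    · rintro γ i _ ⟨g, v, rfl⟩
      obtain ⟨g', M, h⟩ := GAct.lin' A.toAx ha γ g
      rw [hpr, h, h, hpr]
      exact congrArg _ ((hM γ g g' M h i).2 v)
    · rintro i _ ⟨g, v, rfl⟩
      obtain ⟨a0, ha0, hi⟩ := i.2
      have hv : i.1.starProjection v ∈ X.cls a0 := by
        rw [← hi]; exact Submodule.starProjection_apply_mem _ v
      refine ⟨X.c '' _, (A.types ha0 hv).image _, fun γ => ?_⟩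
      obtain ⟨g', M, h⟩ := GAct.lin' A.toAx ha γ g
      obtain ⟨b, hb⟩ := ap_basis (X := X) g'
      refine ⟨b, _, ⟨_, ⟨M, s γ i, (A.sim2 ha h).1, hs γ i,
        fun y hy => (hM γ g g' M h i).1 y (by rw [hi]; exact hy), rfl⟩, rfl⟩, ?_⟩
      rw [hpr, h, ap_sc g' (inv_pos.2 (hs γ i)), hb]
      rfl
  obtain ⟨N, hN, hfi, h⟩ := mainS A.toAx.cone (GAct.aact A.toAx ha) hp hDE hD hst
  refine ⟨N, hN, hfi, fun H hH => ?_⟩
  obtain ⟨x, hx, h⟩ := h H hH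
  refine ⟨x, hx, fun γ hγ => ?_⟩
  obtain ⟨g, v, e⟩ := hDE (hst γ x hx)
  obtain ⟨g', v', e'⟩ := hDE hx
  obtain ⟨p, z, z', e1, e2⟩ := A.toAx.common g g' v v'
  refine ⟨p, z, z', e.trans e1, e'.trans e2, fun b hb => ?_⟩
  obtain ⟨c, hc', h3⟩ := h γ hγ ⟨X.cls b, b, hb, rfl⟩
  rw [e, e1, e', e2, hpr, hpr, ap_sc p hc'] at h3
  have h4 : (X.cls b).starProjection z = c • (X.cls b).starProjection z' := A.toAx.ap_inj h3
  have h5 : ∀ y, b ((X.cls b).starProjection y) = b y := fun y => by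
    have := Submodule.inner_right_of_mem_orthogonal
      (eb3_nv (X := X) (a := b) Relation.ReflTransGen.refl)
      (Submodule.sub_starProjection_mem_orthogonal (K := X.cls b) y)
    rw [inner_nv, map_sub, sub_eq_zero] at this
    exact this.symm
  rw [← h5 z, h4, map_smul, h5, smul_eq_mul, sign_mul, sign_pos hc', one_mul]

end inner

variable {Y : Type*} [AddCommGroup Y] [Module ℝ Y] [FiniteDimensional ℝ Y] {X : Geo0 k V G Y n}

theorem Ax.all (A : X.Ax) :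
    (∀ x ∈ X.EE, ∀ y ∈ X.EE, X.Same x y ↔ ∀ g, X.mv g x = x ↔ X.mv g y = y) ∧
    (X.GAct a → (∀ γ x y, X.Same x y → X.Same (a γ x) (a γ y)) ∧
      ∀ D : Set (ℝ → Submodule k V), D ⊆ X.EE → Cone ⊤ D → (∀ g, ∀ x ∈ D, a g x ∈ D) →
        ∃ (N : Subgroup Γ) (_ : N.Normal), N.FiniteIndex ∧ ∀ H : Subgroup Γ,
          Group.IsSolvable (H.map (QuotientGroup.mk' N)) →
            ∃ x ∈ D, ∀ h ∈ H, X.Same (a h x) x) := by
  let c' : Y →ₗ[ℝ] EuclideanSpace ℝ (Fin n) :=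
    (WithLp.linearEquiv 2 ℝ (Fin n → ℝ)).symm.toLinearMap ∘ₗ X.c
  have hc : Function.Injective c' :=
    (WithLp.linearEquiv 2 ℝ (Fin n → ℝ)).symm.injective.comp A.inj
  let _ : NormedAddCommGroup Y := NormedAddCommGroup.induced Y _ c' hc
  let _ : InnerProductSpace ℝ Y := InnerProductSpace.induced c'
  have B : X.AxI := ⟨A, fun v => EuclideanSpace.real_norm_sq_eq (c' v)⟩
  exact ⟨fun x hx y hy => B.same_iff hx hy, fun ha =>
    ⟨fun γ _ _ h => B.same_act ha γ h, fun D h1 h2 h3 => B.main ha h1 h2 h3⟩⟩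

end Geo0

end Pool.Agent.P.MP_6990a0_al.VC
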