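import Pool.Agent.P.MP_6990a0_al.VA1

namespace Pool.Agent.P.MP_6990a0_al.VC

open Classical

variable {k V : Type*} [Field k] [AddCommGroup V] [Module k V]

theorem mem_latIso (σ : k ≃+* k) (e : V ≃+ V) (h : ∀ c v, e (c • v) = σ c • e v)
    (S : Submodule k V) (v : V) : v ∈ latIso σ e h S ↔ e.symm v ∈ S := by
  exact Iff.rfl

theorem latIso_span (σ : k ≃+* k) (e : V ≃+ V) (h : ∀ c v, e (c • v) = σ c • e v) (A : Set V) :
    latIso σ e h (Submodule.span k A) = Submodule.span k (e '' A) := by
  apply le_antisymm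
  · intro v hv
    rw [mem_latIso] at hv
    have key : ∀ u ∈ Submodule.span k A, e u ∈ Submodule.span k (e '' A) := by
      intro u hu
      induction hu using Submodule.span_induction with
      | mem x hx => exact Submodule.subset_span ⟨x, hx, rfl⟩
      | zero => rw [map_zero]; exact Submodule.zero_mem _
      | add x y _ _ hx hy => rw [map_add]; exact Submodule.add_mem _ hx hy
      | smul c x _ hx => rw [h]; exact Submodule.smul_mem _ _ hx
    simpa using key _ hv
  · rw [Submodule.span_le]
    rintro _ ⟨x, hx, rfl⟩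
    rw [SetLike.mem_coe, mem_latIso, AddEquiv.symm_apply_apply]
    exact Submodule.subset_span hx

section
variable {Γ : Type*} [Group Γ] [MulSemiringAction Γ k] [DistribMulAction Γ V]
  (semi : ∀ (g : Γ) (c : k) (v : V), g • (c • v) = (g • c) • (g • v))

theorem va3_mem_lat (g : Γ) (S : Submodule k V) (v : V) : v ∈ lat semi g S ↔ g⁻¹ • v ∈ S :=
  Iff.rfl

theorem coe_lat (g : Γ) (S : Submodule k V) :
    (lat semi g S : Set V) = (fun v => g • v) '' (S : Set V) := by
  ext v
  rw [SetLike.mem_coe, va3_mem_lat]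
  constructor
  · intro hv
    exact ⟨g⁻¹ • v, hv, smul_inv_smul g v⟩
  · rintro ⟨u, hu, rfl⟩
    simpa using hu

theorem act_lat : Act (lat semi) := by
  constructor
  · intro B
    ext v
    rw [va3_mem_lat, inv_one, one_smul]
  · intro g h B
    ext v
    rw [va3_mem_lat, va3_mem_lat, va3_mem_lat, mul_inv_rev, mul_smul]

theorem lat_span (g : Γ) (A : Set V) :
    lat semi g (Submodule.span k A) = Submodule.span k ((fun v => g • v) '' A) := by
  exact latIso_span _ _ _ A

theorem lat_chart {ι : Type*} (g : Γ) (b : ι → V) (w : ι → ℝ) :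
    lat semi g ∘ chart k b w = chart k (g • b) w := by
  funext t
  simp only [Function.comp, chart]
  rw [lat_span, Set.image_image]
  rfl

include semi in
theorem li_smul {ι : Type*} (g : Γ) {b : ι → V} (hb : LinearIndependent k b) :
    LinearIndependent k (g • b) := by
  rw [linearIndependent_iff'] at hb ⊢
  intro s c hc i hi
  have h1 : ∑ j ∈ s, (g⁻¹ • c j) • b j = 0 := by
    have h2 := congrArg (fun v : V => g⁻¹ • v) hc
    simp only [Finset.smul_sum, smul_zero, Pi.smul_apply, semi, inv_smul_smul] at h2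
    exact h2
  have h3 := hb s (fun j => g⁻¹ • c j) h1 i hi
  have h4 := congrArg (fun a : k => g • a) h3
  simpa using h4

include semi in
theorem basis_smul {n : ℕ} (g : Γ) (b : Module.Basis (Fin n) k V) :
    ∃ b' : Module.Basis (Fin n) k V, (b' : Fin n → V) = g • (b : Fin n → V) := by
  have hsp : ⊤ ≤ Submodule.span k (Set.range (g • (b : Fin n → V))) := by
    have h1 := lat_span semi g (Set.range b)
    rw [b.span_eq, OrderIso.map_top, ← Set.range_comp] at h1
    exact h1.le
  exact ⟨Module.Basis.mk (li_smul semi g b.linearIndependent) hsp, Module.Basis.coe_mk _ _⟩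

theorem opp_lat (g : Γ) {x y : ℝ → Submodule k V} (h : Opp x y) :
    Opp (lat semi g ∘ x) (lat semi g ∘ y) := by
  obtain ⟨n, b, w, rfl, rfl⟩ := h
  obtain ⟨b', hb'⟩ := basis_smul semi g b
  exact ⟨n, b', w, by rw [lat_chart, hb'], by rw [lat_chart, hb']⟩

theorem un_lat {C : Set (ℝ → Submodule k V)} (hC : ∀ g, ∀ x ∈ C, lat semi g ∘ x ∈ C) :
    ∀ g, ∀ x ∈ Un C, lat semi g ∘ x ∈ Un C := by
  rintro g x ⟨hx, hun⟩
  refine ⟨hC g x hx, fun y hy hopp => hun _ (hC g⁻¹ y hy) ?_⟩
  have h1 := opp_lat semi g⁻¹ hopp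
  have h2 : lat semi g⁻¹ ∘ lat semi g ∘ x = x := by
    funext t
    simp only [Function.comp]
    rw [← (act_lat semi).mul, inv_mul_cancel, (act_lat semi).one]
  rwa [h2] at h1

end

theorem coords {n : ℕ} {e : Fin n → V} (he : LinearIndependent k e) :
    ∃ f : Fin n → V →ₗ[k] k, ∀ v ∈ Submodule.span k (Set.range e), ∑ j, f j v • e j = v := by
  choose f hf using fun j : Fin n => LinearMap.exists_extend
    (p := Submodule.span k (Set.range e)) ((Finsupp.lapply j).comp he.repr)
  refine ⟨f, fun v hv => ?_⟩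
  have h1 : ∀ j, f j v = he.repr ⟨v, hv⟩ j := fun j =>
    LinearMap.congr_fun (hf j) ⟨v, hv⟩
  have h2 := he.linearCombination_repr ⟨v, hv⟩
  rw [Finsupp.linearCombination_apply,
    Finsupp.sum_fintype _ (fun i (a : k) => a • e i) (fun i => zero_smul k (e i))] at h2
  simp only [h1]
  exact h2

theorem va3_sum_vec {n : ℕ} (e : Fin n → V) (M : Matrix (Fin n) (Fin n) k) (c : Fin n → k) :
    ∑ i, c i • vec e M i = ∑ j, Matrix.vecMul c M j • e j := by
  simp only [vec, Finset.smul_sum, smul_smul, Matrix.vecMul, dotProduct, Finset.sum_smul]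
  exact Finset.sum_comm

theorem vec_li {n : ℕ} {e : Fin n → V} (he : LinearIndependent k e)
    (M : Matrix (Fin n) (Fin n) k) (hM : M.det ≠ 0) : LinearIndependent k (vec e M) ∧
      Submodule.span k (Set.range (vec e M)) = Submodule.span k (Set.range e) := by
  constructor
  · rw [Fintype.linearIndependent_iff] at he ⊢
    intro c hc
    rw [va3_sum_vec] at hc
    have h1 : Matrix.vecMul c M = 0 := funext (he _ hc)
    exact congrFun (Matrix.eq_zero_of_vecMul_eq_zero hM h1)
  · apply le_antisymm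
    · rw [Submodule.span_le]
      rintro _ ⟨i, rfl⟩
      exact Submodule.sum_mem _ fun j _ =>
        Submodule.smul_mem _ _ (Submodule.subset_span ⟨j, rfl⟩)
    · rw [Submodule.span_le]
      rintro _ ⟨j, rfl⟩
      have h1 : ∑ i, M⁻¹ j i • vec e M i = e j := by
        rw [va3_sum_vec]
        have h2 : Matrix.vecMul (fun i => M⁻¹ j i) M = (M⁻¹ * M) j := rfl
        rw [h2, Matrix.nonsing_inv_mul M (Ne.isUnit hM)]
        simp [Matrix.one_apply]
      rw [← h1]
      exact Submodule.sum_mem _ fun i _ =>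
        Submodule.smul_mem _ _ (Submodule.subset_span ⟨i, rfl⟩)

theorem vec_det {n : ℕ} (e : Fin n → V) (M : Matrix (Fin n) (Fin n) k)
    (h : LinearIndependent k (vec e M)) : M.det ≠ 0 := by
  intro h0
  obtain ⟨c, hc0, hc⟩ := Matrix.exists_vecMul_eq_zero_iff.2 h0
  rw [Fintype.linearIndependent_iff] at h
  refine hc0 (funext (h c ?_))
  rw [va3_sum_vec, hc]
  simp

end Pool.Agent.P.MP_6990a0_al.VC
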