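import Pool.Agent.P.MP_6990a0_al.VA4

namespace Pool.Agent.P.MP_6990a0_al.VC

open Classical

variable {k V : Type*} [Field k] [AddCommGroup V] [Module k V]

theorem vp1_eps {n : ℕ} (s m : Fin n → ℝ) :
    ∃ ε0 : ℝ, 0 < ε0 ∧ ∀ ε, 0 < ε → ε < ε0 →
      ∀ i j, s i < s j → s i + ε * m i < s j + ε * m j := by
  have h : ∀ᶠ ε : ℝ in nhds 0, ∀ i j, s i < s j → s i + ε * m i < s j + ε * m j := by
    refine Filter.eventually_all.2 fun i => Filter.eventually_all.2 fun j => ?_
    by_cases hij : s i < s j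
    · have h1 : ∀ᶠ ε : ℝ in nhds 0, s i + ε * m i < s j + ε * m j :=
        ContinuousAt.eventually_lt (f := fun ε : ℝ => s i + ε * m i)
          (g := fun ε : ℝ => s j + ε * m j) (by fun_prop) (by fun_prop) (by simpa using hij)
      exact h1.mono fun _ h2 _ => h2
    · exact Filter.Eventually.of_forall fun _ h2 => absurd h2 hij
  obtain ⟨δ, hδ, h1⟩ := Metric.eventually_nhds_iff.1 h
  refine ⟨δ, hδ, fun ε h2 h3 => h1 ?_⟩
  rwa [Real.dist_eq, sub_zero, abs_of_pos h2]

theorem ideal_pt {n n' : ℕ} (b : Module.Basis (Fin n) k V) (w : Fin n → ℝ)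
    (b' : Module.Basis (Fin n') k V) (w' : Fin n' → ℝ) {x y z : ℝ → Submodule k V}
    (hx : x = chart k b w) (hy : y = chart k b' w') (h : Opp (add x y) z) :
    ∃ ε0 : ℝ, 0 < ε0 ∧ ∀ ε, 0 < ε → ε < ε0 →
      Opp x (add (sc ε⁻¹ (add (add (add x y) (sc ε y)) z)) z) := by
  obtain ⟨a, l, m, hl, hm, -, -⟩ := common_basis b b' w w'
  rw [← hx] at hl
  rw [← hy] at hm
  have hxy : add x y = chart k a (l + m) := by rw [hl, hm, add_chart a.linearIndependent]
  obtain ⟨n2, a', u, ha, hz'⟩ := h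
  obtain ⟨e, he, hes⟩ := opp_basis a (l + m) a' u (hxy.symm.trans ha)
  rw [← hz'] at hes
  obtain ⟨ε0, hε0, hlt⟩ := vp1_eps (l + m) m
  refine ⟨ε0, hε0, fun ε hε hε' => ?_⟩
  have h3 : chart k e (l + m + ε • m) = chart k a (l + m + ε • m) := by
    funext t
    exact ut_span a e (l + m) he _ fun i hi j hij => le_trans hi (hlt ε hε hε' i j hij).le
  have h4 : add (add x y) (sc ε y) = chart k e (l + m + ε • m) := by
    rw [h3, ← add_chart a.linearIndependent, ← hxy, ← sc_chart _ _ hε, ← hm]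
  have h7 : l + m + ε • m + -(l + m) = ε • m := by abel
  have h8 : m + -(l + m) = -l := by abel
  rw [h4, ← hes, add_chart e.linearIndependent, h7, sc_chart _ _ (inv_pos.2 hε), smul_smul,
    inv_mul_cancel₀ hε.ne', one_smul, add_chart e.linearIndependent, h8, hl]
  refine opp_of_compl a e l fun c => ?_
  obtain ⟨e', he'⟩ := ut_basis a (fun i => if c ≤ l i then a i else e i) (l + m) fun i => by
    by_cases hi : c ≤ l i
    · simp [hi]
    · simpa [hi] using he i
  have h10 := basis_compl e' {i | c ≤ l i}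
  have h11 : e' '' {i | c ≤ l i} = a '' {i | c ≤ l i} :=
    Set.image_congr fun i hi => by rw [he']; exact if_pos hi
  have h12 : e' '' {i | c ≤ l i}ᶜ = e '' {i | l i < c} := by
    have h13 : {i | c ≤ l i}ᶜ = {i | l i < c} := by
      ext i
      simp
    rw [h13]
    exact Set.image_congr fun i hi => by rw [he']; exact if_neg (not_le.2 hi)
  rwa [h11, h12] at h10

theorem opp_sc {x y : ℝ → Submodule k V} {c : ℝ} (hc : 0 < c) (h : Opp x y) :
    Opp (sc c x) (sc c y) := by
  obtain ⟨n, b, w, h1, h2⟩ := h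
  refine ⟨n, b, c • w, ?_, ?_⟩
  · rw [h1, sc_chart _ _ hc]
  · rw [h2, sc_chart _ _ hc, smul_neg]

theorem sc_sc {L : Type*} (c d : ℝ) (x : ℝ → L) : sc c (sc d x) = sc (c * d) x := by
  funext t
  simp only [sc, div_div]

theorem sc_one {L : Type*} (x : ℝ → L) : sc 1 x = x := by
  funext t
  simp only [sc, div_one]

end Pool.Agent.P.MP_6990a0_al.VC
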