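import Pool.Agent.P.MP_6990a0_al.ED
import Pool.Agent.P.MP_6990a0_al.VP1
import Pool.Agent.P.MP_6990a0_al.VA3

/-! Small facts on charts and on product lattices. -/

namespace Pool.Agent.P.MP_6990a0_al.VC

section lat
variable {L : Type*} [CompleteLattice L]

theorem sc_add {s : ℝ} (hs : 0 < s) (x y : ℝ → L) : sc s (add x y) = add (sc s x) (sc s y) := by
  funext t
  simp only [sc, add]
  refine le_antisymm (iSup_le fun a => le_iSup_of_le (s * a) ?_)
    (iSup_le fun a => le_iSup_of_le (a / s) ?_)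
  · rw [mul_div_cancel_left₀ _ hs.ne', sub_div, mul_div_cancel_left₀ _ hs.ne']
  · rw [sub_div]

theorem filt_sc {W : L} {x : ℝ → L} (hx : Filt W x) {s : ℝ} (hs : 0 < s) : Filt W (sc s x) := by
  obtain ⟨l, hl⟩ := hx.low
  obtain ⟨h, hh⟩ := hx.high
  refine ⟨fun a b hab => hx.anti (div_le_div_of_nonneg_right hab hs.le), fun t => hx.le _,
    ⟨s * l, ?_⟩, ⟨s * h, ?_⟩, fun t => ?_⟩
  · rw [sc, mul_div_cancel_left₀ _ hs.ne', hl]
  · rw [sc, mul_div_cancel_left₀ _ hs.ne', hh]
  · obtain ⟨ε, hε, e⟩ := hx.left (t / s)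
    exact ⟨s * ε, mul_pos hs hε, by rw [sc, sc, sub_div, mul_div_cancel_left₀ _ hs.ne', e]⟩

theorem add_pi {J : Type*} (x y : ℝ → J → L) (j : J) :
    (fun t => add x y t j) = add (fun t => x t j) fun t => y t j := by
  funext t
  simp only [add, iSup_apply, Pi.inf_apply]

theorem filt_pi {J : Type*} [Finite J] {x : ℝ → J → L} (h : ∀ j, Filt ⊤ fun t => x t j) :
    Filt ⊤ x := by
  choose l hl using fun j => (h j).low
  choose u hu using fun j => (h j).high
  obtain ⟨l0, hl0⟩ := (Set.finite_range l).bddBelow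
  obtain ⟨u0, hu0⟩ := (Set.finite_range u).bddAbove
  refine ⟨fun a b hab j => (h j).anti hab, fun _ => le_top, ⟨l0, funext fun j => ?_⟩,
    ⟨u0, funext fun j => ?_⟩, fun t => ?_⟩
  · exact top_le_iff.1 ((hl j).ge.trans ((h j).anti (hl0 ⟨j, rfl⟩)))
  · exact le_bot_iff.1 (((h j).anti (hu0 ⟨j, rfl⟩)).trans (hu j).le)
  · choose ε hε e using fun j => (h j).left t
    obtain ⟨δ, hδ, hd⟩ : ∃ δ : ℝ, 0 < δ ∧ ∀ j, δ ≤ ε j := by
      rcases isEmpty_or_nonempty J with _ | _
      · exact ⟨1, one_pos, fun j => isEmptyElim j⟩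
      · obtain ⟨j, hj⟩ := Finite.exists_min ε
        exact ⟨ε j, hε j, hj⟩
    refine ⟨δ, hδ, funext fun j => le_antisymm ?_ ((h j).anti (by linarith))⟩
    exact ((h j).anti (show t - ε j ≤ t - δ by linarith [hd j])).trans (e j).le

theorem rank_pi {J : Type*} [Fintype J] (r : L → ℕ) (hr : StrictMono r) :
    StrictMono fun B : J → L => ∑ j, r (B j) := by
  intro A B h
  obtain ⟨h1, j, hj⟩ := Pi.lt_def.1 h
  exact Finset.sum_lt_sum (fun i _ => hr.monotone (h1 i)) ⟨j, Finset.mem_univ _, hr hj⟩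

end lat

variable {k V : Type*} [Field k] [AddCommGroup V] [Module k V]

theorem chart_inj {ι : Type*} {b : ι → V} (hb : LinearIndependent k b) {w w' : ι → ℝ}
    (h : chart k b w = chart k b w') : w = w' := by
  funext i
  have h1 := va1_self (k := k) b w i
  have h2 := va1_self (k := k) b w' i
  rw [h] at h1
  rw [← h] at h2
  exact le_antisymm ((va1_mem hb _ i).1 h1) ((va1_mem hb _ i).1 h2)

theorem ec_card {n : ℕ} {b : Fin n → V} (hb : LinearIndependent k b) (A : Set (Fin n)) :
    Module.finrank k (Submodule.span k (b '' A)) = A.ncard := by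
  classical
  rw [Set.image_eq_range, Set.ncard_eq_toFinset_card', Set.toFinset_card]
  exact finrank_span_eq_card (hb.comp (Subtype.val : A → Fin n) Subtype.val_injective)

theorem chart_perm {n : ℕ} {b b' : Fin n → V} (hb : LinearIndependent k b)
    (hb' : LinearIndependent k b') {w w' : Fin n → ℝ} (h : chart k b w = chart k b' w') :
    ∃ σ : Equiv.Perm (Fin n), ∀ j, w' j = w (σ j) := by
  have key : ∀ (w : Fin n → ℝ) (c : ℝ),
      {i | w i = c}.ncard + {i | c < w i}.ncard = {i | c ≤ w i}.ncard := fun w c => by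
    rw [← Set.ncard_union_eq (s := {i | w i = c}) (t := {i | c < w i})
      (Set.disjoint_left.2 fun i (h1 : w i = c) (h2 : c < w i) => h2.ne' h1)]
    congr 1
    ext i
    simp [le_iff_eq_or_lt, eq_comm]
  have e : ∀ c, Nonempty ({j // w' j = c} ≃ {i // w i = c}) := fun c => by
    have h1 : {i | c ≤ w i}.ncard = {i | c ≤ w' i}.ncard := by
      rw [← ec_card hb, ← ec_card hb']
      exact congrArg (fun S : Submodule k V => Module.finrank k S) (congrFun h c)
    have h2 : {i | c < w i}.ncard = {i | c < w' i}.ncard := by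
      rw [← ec_card hb, ← ec_card hb', strict_eq b w b' w' h c]
    have h3 := key w c
    have h4 := key w' c
    exact Finite.card_eq.1 (show {i | w' i = c}.ncard = {i | w i = c}.ncard by omega)
  exact ⟨Equiv.ofFiberEquiv fun c => (e c).some,
    fun j => (Equiv.ofFiberEquiv_map (fun c => (e c).some) j).symm⟩

theorem filt_basis {n : ℕ} (e : Module.Basis (Fin n) k V) {x : ℝ → Submodule k V}
    (hx : Filt ⊤ x) : ∃ (b : Module.Basis (Fin n) k V) (w : Fin n → ℝ), x = chart k b w := by
  have := e.finiteDimensional_of_finite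
  obtain ⟨b, w, -, h1, h2, h3, -⟩ := common n ⊤
    (by rw [finrank_top, Module.finrank_eq_card_basis e, Fintype.card_fin]) hx hx
  exact ⟨Module.Basis.mk h1 h2.ge, w, by rw [Module.Basis.coe_mk]; exact h3⟩

theorem add_sc_sc [FiniteDimensional k V] {x : ℝ → Submodule k V} (hx : Filt ⊤ x) {s t : ℝ}
    (hs : 0 < s) (ht : 0 < t) : add (sc s x) (sc t x) = sc (s + t) x := by
  obtain ⟨b, w, rfl⟩ := filt_basis (Module.finBasis k V) hx
  rw [sc_chart _ _ hs, sc_chart _ _ ht, sc_chart _ _ (add_pos hs ht),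
    add_chart b.linearIndependent, add_smul]

theorem map_chart {ι : Type*} (f : V →ₗ[k] V) (b : ι → V) (w : ι → ℝ) (t : ℝ) :
    (chart k b w t).map f = chart k (fun i => f (b i)) w t := by
  rw [chart, chart, Submodule.map_span, Set.image_image]

end Pool.Agent.P.MP_6990a0_al.VC
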