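import Pool.Agent.P.MP_6990a0_al.VD

/-! Definitions for the abstract layers. -/

namespace Pool.Agent.P.MP_6990a0_al.VC

section lat
variable {L : Type*} [CompleteLattice L] {Γ : Type*} [Group Γ]

/-- An action on `D` that commutes with sums and positive multiples. -/
structure AAct (D : Set (ℝ → L)) (a : Γ → (ℝ → L) → ℝ → L) : Prop where
  mem : ∀ g, ∀ x ∈ D, a g x ∈ D
  one : ∀ x ∈ D, a 1 x = x
  mul : ∀ g h, ∀ x ∈ D, a (g * h) x = a g (a h x)
  add : ∀ g, ∀ x ∈ D, ∀ y ∈ D, a g (add x y) = add (a g x) (a g y)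
  sc : ∀ g (s : ℝ), 0 < s → ∀ x ∈ D, a g (sc s x) = sc s (a g x)

/-- Terms in the points `o (ω s)`. -/
inductive Tm {X : Type*} (o : X → ℝ → L) : ((ℕ → X) → ℝ → L) → Prop
  | gen (s : ℕ) : Tm o fun ω => o (ω s)
  | add {Φ Ψ : (ℕ → X) → ℝ → L} : Tm o Φ → Tm o Ψ → Tm o fun ω => add (Φ ω) (Ψ ω)
  | sc {Φ : (ℕ → X) → ℝ → L} (s : ℝ) : 0 < s → Tm o Φ → Tm o fun ω => sc s (Φ ω)

end lat

section ultra
variable {X P k : Type*} [CommRing P] [Field k]

/-- The zero set of the prime ideal of an ultrafilter. -/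
def UW (ev : X → P →+* k) (𝒰 : Ultrafilter X) : Set X :=
  {x | ∀ f, {y | ev y f = 0} ∈ 𝒰 → ev x f = 0}

/-- Membership of each translate of `B` in an ultrafilter depends only on its zero set. -/
def Det [Group X] (ev : X → P →+* k) (B : Set X) : Prop :=
  ∀ (g : X) (𝒰 𝒱 : Ultrafilter X), UW ev 𝒰 = UW ev 𝒱 → {x | g * x ∈ B} ∈ 𝒰 →
    {x | g * x ∈ B} ∈ 𝒱

/-- The iterated quantifier over the coordinates below `m`. -/
def QQ (𝒱 : ℕ → Ultrafilter X) (S : Set (ℕ → X)) : ℕ → (ℕ → X) → Prop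
  | 0, ω => ω ∈ S
  | m + 1, ω => {x | QQ 𝒱 S m (Function.update ω m x)} ∈ 𝒱 m

/-- A box. -/
def Box (W : ℕ → Set X) (m : ℕ) (ω₀ : ℕ → X) : Set (ℕ → X) :=
  {ω | (∀ s, s < m → ω s ∈ W s) ∧ ∀ s, m ≤ s → ω s = ω₀ s}

/-- Evaluation of polynomials in the coordinates. -/
noncomputable def evc {τ : Type*} (c : X → τ → k) (x : X) : MvPolynomial τ k →+* k :=
  MvPolynomial.eval (c x)

end ultra

section lin
variable {k V : Type*} [Field k] [AddCommGroup V] [Module k V] {n : ℕ}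

/-- `x'` is the generic value of `Φ`. -/
def Rp {X R : Type*} [CommRing R] [IsDomain R] (ev : X → R →+* k) (e : Fin n → V)
    (Φ : X → ℝ → Submodule k V)
    (x' : ℝ → Submodule (FractionRing R) (Fin n → FractionRing R)) : Prop :=
  ∃ (B : Matrix (Fin n) (Fin n) R) (w : Fin n → ℝ) (f : R), f ≠ 0 ∧ B.det ≠ 0 ∧
    x' = chart (FractionRing R) (rowK B) w ∧
    ∀ x, ev x f ≠ 0 → ev x B.det ≠ 0 ∧ Φ x = chart k (vec e (B.map (ev x))) w

/-- Coordinates for the points `o x`: a matrix and the indicator of a weight vector. -/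
structure Crd {X J : Type*} (e : Fin n → V) (o : X → ℝ → Submodule k V)
    (c : X → (Fin n × Fin n) ⊕ J → k) (wt : J → Fin n → ℝ) : Prop where
  ex : ∀ x, ∃ t, c x (.inr t) ≠ 0
  det : ∀ x, (Matrix.of fun i j => c x (.inl (i, j))).det ≠ 0
  eq : ∀ x t, c x (.inr t) ≠ 0 →
    o x = chart k (vec e (Matrix.of fun i j => c x (.inl (i, j)))) (wt t)

/-- Components of the points of `E`, permuted and scaled by the action. -/
structure Cmp (n : ℕ) {Γ I : Type*} [Group Γ] [MulAction Γ I] (E : Set (ℝ → Submodule k V))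
    (a : Γ → (ℝ → Submodule k V) → ℝ → Submodule k V)
    (pr : I → (ℝ → Submodule k V) → ℝ → Submodule k V) (s : Γ → I → ℝ) : Prop where
  mem : ∀ i, ∀ x ∈ E, pr i x ∈ E
  add : ∀ i, ∀ x ∈ E, ∀ y ∈ E, pr i (add x y) = add (pr i x) (pr i y)
  sc : ∀ i (c : ℝ), 0 < c → ∀ x ∈ E, pr i (sc c x) = sc c (pr i x)
  eqv : ∀ g i, ∀ x ∈ E, a g (pr i x) = pr (g • i) (a g x)
  pos : ∀ g i, 0 < s g i
  coc : ∀ g h i, s (g * h) i = s g (h • i) * s h i
  typ : ∀ i, ∀ x ∈ E, ∃ 𝒲 : Set (Fin n → ℝ), 𝒲.Finite ∧ ∀ g, ∃ b : Module.Basis (Fin n) k V,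
    ∃ w ∈ 𝒲, VC.sc (s g i)⁻¹ (a g (pr i x)) = chart k b w

/-- A group of linear maps with a standard apartment. -/
structure Geo0 (k V G Y : Type*) [Field k] [AddCommGroup V] [Module k V] [Group G]
    [AddCommGroup Y] [Module ℝ Y] (n : ℕ) where
  ρ : G →* V ≃ₗ[k] V
  e : Module.Basis (Fin n) k V
  c : Y →ₗ[ℝ] Fin n → ℝ
  Φ : Set (Module.Dual ℝ Y)

namespace Geo0

variable {G Y : Type*} [Group G] [AddCommGroup Y] [Module ℝ Y] (X : Geo0 k V G Y n)

/-- The chart of the apartment of `g`. -/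
noncomputable def ap (g : G) (v : Y) : ℝ → Submodule k V := chart k (fun j => X.ρ g (X.e j)) (X.c v)

/-- The action on filtrations. -/
def mv (g : G) (x : ℝ → Submodule k V) : ℝ → Submodule k V :=
  fun t => (x t).map (X.ρ g : V →ₗ[k] V)

/-- The union of the apartments. -/
def EE : Set (ℝ → Submodule k V) := {x | ∃ g v, x = X.ap g v}

/-- `v'` lies in the closure of the facet of `v`. -/
def Cl (v v' : Y) : Prop := ∀ a ∈ X.Φ, (0 < a v → 0 ≤ a v') ∧ (a v = 0 → a v' = 0)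

/-- Equal signs on the roots. -/
def Sg (v v' : Y) : Prop := ∀ a ∈ X.Φ, SignType.sign (a v) = SignType.sign (a v')

/-- Regular vectors. -/
def Reg (v : Y) : Prop := ∀ a ∈ X.Φ, a v ≠ 0

/-- Two points of one facet. -/
def Same (x y : ℝ → Submodule k V) : Prop :=
  ∃ g v v', x = X.ap g v ∧ y = X.ap g v' ∧ X.Sg v v'

/-- `κ` maps the apartment of `g` to that of `g'` through `M`. -/
def Tri (κ : (ℝ → Submodule k V) → ℝ → Submodule k V) (g g' : G) (M : Y →ₗ[ℝ] Y) : Prop :=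
  ∀ v, κ (X.ap g v) = X.ap g' (M v)

/-- `κ` maps each apartment linearly onto an apartment. -/
def Lin (κ : (ℝ → Submodule k V) → ℝ → Submodule k V) : Prop :=
  ∀ g, ∃ (g' : G) (M : Y ≃ₗ[ℝ] Y), X.Tri κ g g' M

/-- The axioms. -/
structure Ax : Prop where
  inj : Function.Injective X.c
  fin : X.Φ.Finite
  ne : ∀ a ∈ X.Φ, a ≠ 0
  br : ∀ (g : G) (v v' : Y), ∃ (p m q : G) (w : Y →ₗ[ℝ] Y), g = p * m * q ∧
    X.ap p v = X.ap 1 v ∧ X.ap q v' = X.ap 1 v' ∧ ∀ z, X.ap m z = X.ap 1 (w z)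
  mono : ∀ (g : G) (v v' : Y), X.Cl v v' → X.ap g v = X.ap 1 v → X.ap g v' = X.ap 1 v'
  root : ∀ a ∈ X.Φ, ∃ u : G, ∀ v, X.ap u v = X.ap 1 v ↔ 0 ≤ a v

/-- An action on the union of the apartments by apartment-linear maps. -/
structure GAct {Γ : Type*} [Group Γ] (a : Γ → (ℝ → Submodule k V) → ℝ → Submodule k V) :
    Prop where
  one : ∀ x ∈ X.EE, a 1 x = x
  mul : ∀ g h, ∀ x ∈ X.EE, a (g * h) x = a g (a h x)
  lin : ∀ γ g, ∃ g' M, X.Tri (a γ) g g' M

end Geo0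

section inner

variable {G Y : Type*} [Group G] [NormedAddCommGroup Y] [InnerProductSpace ℝ Y]
  [FiniteDimensional ℝ Y]

/-- The normal vector of a functional. -/
noncomputable def nv (a : Module.Dual ℝ Y) : Y :=
  haveI := FiniteDimensional.complete ℝ Y
  (InnerProductSpace.toDual ℝ Y).symm (LinearMap.toContinuousLinearMap a)

/-- The reflection in the kernel of `a`. -/
noncomputable def rfl' (a : Module.Dual ℝ Y) : Y ≃ₗᵢ[ℝ] Y := (LinearMap.ker a).reflection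

namespace Geo0

variable (X : Geo0 k V G Y n)

/-- The axioms, with the invariant inner product. -/
structure AxI : Prop extends X.Ax where
  nrm : ∀ v, ‖v‖ ^ 2 = ∑ j, X.c v j ^ 2

/-- `w` is induced by an element of the group. -/
def IsW (w : Y ≃ₗᵢ[ℝ] Y) : Prop := ∃ m : G, ∀ z, X.ap m z = X.ap 1 (w z)

/-- `M` permutes the reflections. -/
def Sim (M : Y ≃ₗ[ℝ] Y) : Prop :=
  ∀ a ∈ X.Φ, ∃ b ∈ X.Φ, ∃ c q : ℝ, c ≠ 0 ∧ 0 < q ∧ M (nv a) = c • nv b ∧
    ∀ v, inner ℝ (M (nv a)) (M v) = q * a v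

/-- Roots of one component. -/
def Rel : Module.Dual ℝ Y → Module.Dual ℝ Y → Prop :=
  Relation.ReflTransGen fun a b => a ∈ X.Φ ∧ b ∈ X.Φ ∧ a (nv b) ≠ 0

/-- The span of the normals of a component. -/
def cls (a : Module.Dual ℝ Y) : Submodule ℝ Y := Submodule.span ℝ (nv '' {b | X.Rel a b})

/-- The components. -/
def II : Type _ := {E : Submodule ℝ Y // ∃ a ∈ X.Φ, E = X.cls a}

end Geo0

end inner

namespace Geo0

variable {G : Type*} [Group G] {r : ℕ} (X : Geo0 k V G (Fin r → ℝ) n) (K : Subfield ℝ)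

/-- The inclusion of `K`-points. -/
def up {K : Subfield ℝ} (v : Fin r → K) : Fin r → ℝ := fun i => v i

/-- The `K`-points. -/
def EK : Set (ℝ → Submodule k V) := {x | ∃ g, ∃ v : Fin r → K, x = X.ap g (up v)}

/-- Opposite `K`-points. -/
def OppG (x y : ℝ → Submodule k V) : Prop :=
  ∃ g, ∃ v : Fin r → K, x = X.ap g (up v) ∧ y = X.ap g (up (-v))

/-- The weights and the roots are defined over `K`. -/
structure Rat : Prop where
  wt : ∀ i j, X.c (Pi.single i 1) j ∈ K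
  rt : ∀ a ∈ X.Φ, ∀ i, a (Pi.single i 1) ∈ K

/-- An action on the `K`-points by apartment-linear maps. -/
structure KAct {Γ : Type*} [Group Γ] (a : Γ → (ℝ → Submodule k V) → ℝ → Submodule k V) :
    Prop where
  one : ∀ x ∈ X.EK K, a 1 x = x
  mul : ∀ g h, ∀ x ∈ X.EK K, a (g * h) x = a g (a h x)
  lin : ∀ γ g, ∃ (g' : G) (M : (Fin r → K) →ₗ[K] Fin r → K),
    ∀ v, a γ (X.ap g (up v)) = X.ap g' (up (M v))

end Geo0

end lin

end Pool.Agent.P.MP_6990a0_al.VC
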