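import Pool.Agent.P.MP_c1f06d_ag.g.RStmt

/-! The vector edifice of an affine group scheme `G = Spec A` over a field `k`. -/

open WithConv Multiplicative

universe u

namespace Pool.Agent.Edif

variable (k : Type u) [Field k] (A : Type u) [CommRing A] [HopfAlgebra k A]

/-- The points `G(S)`, multiplied by convolution. -/
abbrev Pt (S : Type u) [CommRing S] [Algebra k S] : Type u := WithConv (A →ₐ[k] S)

variable {k A} {S S' : Type u} [CommRing S] [Algebra k S] [CommRing S'] [Algebra k S']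

/-- The map `G(S) → G(S')` of a map of algebras. -/
def Pt.map (f : S →ₐ[k] S') (g : Pt k A S) : Pt k A S' := toConv (f.comp g.ofConv)

/-- The image under `t` of the point of `G_m^r` at which the character `m` has the value `τ m`. -/
noncomputable def ev {r : ℕ} (t : A →ₐ[k] AddMonoidAlgebra k (Fin r → ℤ))
    (τ : Multiplicative (Fin r → ℤ) →* S) : Pt k A S :=
  toConv ((AddMonoidAlgebra.lift k S (Fin r → ℤ) τ).comp t)

variable (k A) in
/-- A split torus of `G`: a closed immersion `G_m^r → G` that is a homomorphism. -/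
structure Torus where
  r : ℕ
  t : A →ₐ[k] AddMonoidAlgebra k (Fin r → ℤ)
  onto : Function.Surjective t
  mul : ∀ (S : Type u) [CommRing S] [Algebra k S] (τ τ' : Multiplicative (Fin r → ℤ) →* S),
    ev t (τ * τ') = ev t τ * ev t τ'

namespace Torus

variable (T : Torus k A)

/-- No split torus strictly contains `T`. -/
def IsMax : Prop :=
  ∀ T' : Torus k A, RingHom.ker T'.t ≤ RingHom.ker T.t → RingHom.ker T.t ≤ RingHom.ker T'.t

/-- `a` is a nonzero weight of `T` on the Lie algebra `ker (G(k[ε]) → G(k))`: for some `ξ ≠ 1`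
in it, conjugation by a point `τ` of `T` replaces `ε` by `τ(a) ε`. -/
def IsRoot (a : Fin T.r → ℤ) : Prop :=
  a ≠ 0 ∧ ∃ ξ : Pt k A (DualNumber k), ξ ≠ 1 ∧ ξ.map (TrivSqZeroExt.fstHom k k k) = 1 ∧
    ∀ (S : Type u) [CommRing S] [Algebra k S] (τ : Multiplicative (Fin T.r → ℤ) →* S)
      (φ φ' : DualNumber k →ₐ[k] S), φ' DualNumber.eps = τ (ofAdd a) * φ DualNumber.eps →
        ev T.t τ * ξ.map φ = ξ.map φ' * ev T.t τ

/-- `g` lies in the parabolic subgroup of the cocharacter `l`: the map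
`s ↦ l(s) g l(s)⁻¹` extends from `G_m` to the affine line. -/
def InP (l : Fin T.r → ℤ) (g : Pt k A S) : Prop :=
  ∃ (τ : Multiplicative (Fin T.r → ℤ) →* LaurentPolynomial S) (h : Pt k A (Polynomial S)),
    (∀ m, τ (ofAdd m) = LaurentPolynomial.T (m ⬝ᵥ l)) ∧
      ev T.t τ * g.map (IsScalarTower.toAlgHom k S _) =
        h.map (Polynomial.toLaurentAlg.restrictScalars k) * ev T.t τ

variable {K : Subfield ℝ}

/-- `g` lies in `P_v` for `v` in `Y_T(K)`. -/
def Par (v : Fin T.r → K) (g : Pt k A S) : Prop :=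
  ∃ l : Fin T.r → ℤ, (∀ a, T.IsRoot a →
    SignType.sign (∑ i, (a i : ℝ) * (v i : ℝ)) = SignType.sign (a ⬝ᵥ l)) ∧ T.InP l g

/-- `g T g⁻¹ = T'`, and conjugation by `g` induces `θ` on characters. -/
def Conj (g : Pt k A k) (T' : Torus k A) (θ : (Fin T'.r → ℤ) ≃+ (Fin T.r → ℤ)) : Prop :=
  ∀ (S : Type u) [CommRing S] [Algebra k S] (τ : Multiplicative (Fin T.r → ℤ) →* S)
    (τ' : Multiplicative (Fin T'.r → ℤ) →* S), (∀ m, τ' (ofAdd m) = τ (ofAdd (θ m))) →
      g.map (Algebra.ofId k S) * ev T.t τ = ev T'.t τ' * g.map (Algebra.ofId k S)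

/-- `v' = g · v` for some `g` in `P_v(k)` with `g T g⁻¹ = T'`. -/
def Rel (v : Fin T.r → K) (T' : Torus k A) (v' : Fin T'.r → K) : Prop :=
  ∃ (g : Pt k A k) (θ : (Fin T'.r → ℤ) ≃+ (Fin T.r → ℤ)), T.Par v g ∧ T.Conj g T' θ ∧
    ∀ m, ∑ i, (m i : K) * v' i = ∑ i, (θ m i : K) * v i

end Torus

variable (k A) in
/-- The maximal split tori. -/
abbrev MaxT : Type u := {T : Torus k A // T.IsMax}

variable (k A) (K : Subfield ℝ)

/-- The vector edifice `V_G(K)`. -/
def Ed : Type u := Quot fun x y : Σ T : MaxT k A, Fin T.1.r → K => x.1.1.Rel x.2 y.1.1 y.2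

variable {k A K}

/-- The chart of the apartment of `T`. -/
def apt (T : MaxT k A) (v : Fin T.1.r → K) : Ed k A K := Quot.mk _ ⟨T, v⟩

/-- Opposite points. -/
def Opp (x y : Ed k A K) : Prop := ∃ T v, x = apt T v ∧ y = apt T (-v)

/-- `g` lies in `P_x`. -/
def InPar (x : Ed k A K) (g : Pt k A S) : Prop := ∃ T v, x = apt T v ∧ T.1.Par v g

/-- The facet of `x`: the points `y` with `P_y = P_x`. -/
def facet (x : Ed k A K) : Set (Ed k A K) :=
  {y | ∀ (S : Type u) [CommRing S] [Algebra k S] (g : Pt k A S), InPar y g ↔ InPar x g}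

/-- `f` maps each apartment linearly into an apartment. -/
def AptLin (f : Ed k A K → Ed k A K) : Prop :=
  ∀ T : MaxT k A, ∃ (T' : MaxT k A) (M : (Fin T.1.r → K) →ₗ[K] Fin T'.1.r → K),
    ∀ v, f (apt T v) = apt T' (M v)

end Pool.Agent.Edif
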