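import Pool.Agent.P.MP_6990a0_al.VA4

namespace Pool.Agent.P.MP_6990a0_al.VC

open Classical

variable {k V : Type*} [Field k] [AddCommGroup V] [Module k V]

theorem va5_eps {n : ℕ} (K : Subfield ℝ) (s m : Fin n → ℝ) :
    ∃ ε : ℝ, ε ∈ K ∧ 0 < ε ∧ ∀ i j, s i < s j → s i + ε * m i < s j + ε * m j := by
  have h : ∀ᶠ ε : ℝ in nhds 0, ∀ i j, s i < s j → s i + ε * m i < s j + ε * m j := by
    refine Filter.eventually_all.2 fun i => Filter.eventually_all.2 fun j => ?_
    by_cases hij : s i < s j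
    · have h1 : ∀ᶠ ε : ℝ in nhds 0, s i + ε * m i < s j + ε * m j :=
        ContinuousAt.eventually_lt (f := fun ε : ℝ => s i + ε * m i)
          (g := fun ε : ℝ => s j + ε * m j) (by fun_prop) (by fun_prop) (by simpa using hij)
      exact h1.mono fun _ h2 _ => h2
    · exact Filter.Eventually.of_forall fun _ h2 => absurd h2 hij
  obtain ⟨δ, hδ, h1⟩ := Metric.eventually_nhds_iff.1 h
  obtain ⟨q, hq0, hq1⟩ := exists_rat_btwn hδ
  refine ⟨q, SubfieldClass.ratCast_mem K q, hq0, h1 ?_⟩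
  rwa [Real.dist_eq, sub_zero, abs_of_pos hq0]

theorem ideal {K : Subfield ℝ} {C : Set (ℝ → Submodule k V)} (hC : KCone K C)
    {x y : ℝ → Submodule k V} (hx : x ∈ Un C) (hy : y ∈ C) : add x y ∈ Un C := by
  refine ⟨hC.add_mem x hx.1 y hy, fun z hz hopp => ?_⟩
  obtain ⟨n, b1, w1, -, h1⟩ := hC.pts x hx.1
  obtain ⟨n2, b2, w2, -, h2⟩ := hC.pts y hy
  obtain ⟨b, l, m, hl, hm, -, -⟩ := common_basis b1 b2 w1 w2
  rw [← h1] at hl
  rw [← h2] at hm
  have hxy : add x y = chart k b (l + m) := by rw [hl, hm, add_chart b.linearIndependent]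
  obtain ⟨n', a, w, ha, hz'⟩ := hopp
  obtain ⟨e, he, hes⟩ := opp_basis b (l + m) a w (hxy.symm.trans ha)
  rw [← hz'] at hes
  obtain ⟨ε, hεK, hε, hlt⟩ := va5_eps K (l + m) m
  have h3 : chart k e (l + m + ε • m) = chart k b (l + m + ε • m) := by
    funext t
    exact ut_span b e (l + m) he _ fun i hi j hij => le_trans hi (hlt i j hij).le
  have h4 : chart k e (l + m + ε • m) ∈ C := by
    rw [h3, ← add_chart b.linearIndependent, ← hxy, ← sc_chart _ _ hε, ← hm]
    exact hC.add_mem _ (hC.add_mem x hx.1 y hy) _ (hC.sc_mem ε hεK hε y hy)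
  have h5 : chart k e (ε • m) ∈ C := by
    have h6 := hC.add_mem _ h4 z hz
    rw [← hes, add_chart e.linearIndependent] at h6
    have h7 : l + m + ε • m + -(l + m) = ε • m := by abel
    rwa [h7] at h6
  have h8 : chart k e m ∈ C := by
    have h6 := hC.sc_mem ε⁻¹ (K.inv_mem hεK) (inv_pos.2 hε) _ h5
    rwa [sc_chart _ _ (inv_pos.2 hε), smul_smul, inv_mul_cancel₀ hε.ne', one_smul] at h6
  have h9 : chart k e (-l) ∈ C := by
    have h6 := hC.add_mem _ h8 z hz
    rw [← hes, add_chart e.linearIndependent] at h6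
    have h7 : m + -(l + m) = -l := by abel
    rwa [h7] at h6
  refine hx.2 _ h9 ?_
  rw [hl]
  refine opp_of_compl b e l fun c => ?_
  obtain ⟨e', he'⟩ := ut_basis b (fun i => if c ≤ l i then b i else e i) (l + m) fun i => by
    by_cases hi : c ≤ l i
    · simp [hi]
    · simpa [hi] using he i
  have h10 := basis_compl e' {i | c ≤ l i}
  have h11 : e' '' {i | c ≤ l i} = b '' {i | c ≤ l i} :=
    Set.image_congr fun i hi => by rw [he']; exact if_pos hi
  have h12 : e' '' {i | c ≤ l i}ᶜ = e '' {i | l i < c} := by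
    have h13 : {i | c ≤ l i}ᶜ = {i | l i < c} := by
      ext i
      simp
    rw [h13]
    exact Set.image_congr fun i hi => by rw [he']; exact if_neg (not_le.2 hi)
  rwa [h11, h12] at h10

theorem un_kcone {K : Subfield ℝ} {C : Set (ℝ → Submodule k V)} (hC : KCone K C) :
    KCone K (Un C) := by
  refine ⟨fun x hx => hC.pts x hx.1, fun x hx y hy => ideal hC hx hy.1,
    fun s hsK hs x hx => ⟨hC.sc_mem s hsK hs x hx.1, fun y hy hopp => ?_⟩⟩
  obtain ⟨n, b, w, h1, h2⟩ := hopp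
  have hs' := inv_pos.2 hs
  refine hx.2 _ (hC.sc_mem s⁻¹ (K.inv_mem hsK) hs' y hy) ⟨n, b, s⁻¹ • w, ?_, ?_⟩
  · rw [← sc_chart _ _ hs', ← h1]
    funext t
    simp only [sc]
    congr 1
    field_simp
  · rw [h2, sc_chart _ _ hs', smul_neg]

theorem kcone_of {K : Subfield ℝ} {C : Set (ℝ → Submodule k V)}
    (pts : ∀ x ∈ C, ∃ (n : ℕ) (b : Module.Basis (Fin n) k V) (w : Fin n → K),
      x = chart k b fun i => (w i : ℝ))
    (conv : ∀ (n : ℕ) (b : Module.Basis (Fin n) k V),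
      Convex K {w : Fin n → K | chart k b (fun i => (w i : ℝ)) ∈ C})
    (cone : ∀ (n : ℕ) (b : Module.Basis (Fin n) k V) (w : Fin n → K) (s : K), 0 < s →
      chart k b (fun i => (w i : ℝ)) ∈ C → chart k b (fun i => ((s * w i : K) : ℝ)) ∈ C) :
    KCone K C := by
  refine ⟨fun x hx => ?_, fun x hx y hy => ?_, fun s hsK hs x hx => ?_⟩
  · obtain ⟨n, b, w, h⟩ := pts x hx
    exact ⟨n, b, _, fun i => (w i).2, h⟩
  · obtain ⟨n, b1, w1, h1⟩ := pts x hx
    obtain ⟨n2, b2, w2, h2⟩ := pts y hy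
    obtain ⟨a, u, u', hu, hu', hj, hj'⟩ :=
      common_basis b1 b2 (fun i => (w1 i : ℝ)) (fun i => (w2 i : ℝ))
    choose j hj using hj
    choose j' hj' using hj'
    rw [← h1] at hu
    rw [← h2] at hu'
    have e1 : u = fun i => (w1 (j i) : ℝ) := funext hj
    have e2 : u' = fun i => (w2 (j' i) : ℝ) := funext hj'
    have m1 : (fun i => w1 (j i)) ∈ {w : Fin n → K | chart k a (fun i => (w i : ℝ)) ∈ C} := by
      change chart k a (fun i => (w1 (j i) : ℝ)) ∈ C
      rwa [← e1, ← hu]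
    have m2 : (fun i => w2 (j' i)) ∈ {w : Fin n → K | chart k a (fun i => (w i : ℝ)) ∈ C} := by
      change chart k a (fun i => (w2 (j' i) : ℝ)) ∈ C
      rwa [← e2, ← hu']
    have hh : (0 : K) ≤ 2⁻¹ := by positivity
    have m3 := conv n a m1 m2 hh hh (by norm_num)
    have m4 := cone n a _ 2 (by norm_num) m3
    have e3 : (fun i => (((2 : K) * ((2⁻¹ : K) • (fun i => w1 (j i))
        + (2⁻¹ : K) • (fun i => w2 (j' i)) : Fin n → K) i : K) : ℝ)) = u + u' := by
      funext i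
      have e4 : (2 : K) * ((2⁻¹ : K) • (fun i => w1 (j i))
          + (2⁻¹ : K) • (fun i => w2 (j' i)) : Fin n → K) i = w1 (j i) + w2 (j' i) := by
        simp only [Pi.add_apply, Pi.smul_apply, smul_eq_mul]
        ring
      rw [e4, Pi.add_apply, hj, hj']
      rfl
    rw [e3] at m4
    rwa [hu, hu', add_chart a.linearIndependent]
  · obtain ⟨n, b, w, h⟩ := pts x hx
    have m := cone n b w ⟨s, hsK⟩ hs (h ▸ hx)
    rw [h, sc_chart _ _ hs]
    exact m

end Pool.Agent.P.MP_6990a0_al.VC
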