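import Pool.Agent.P.MP_6990a0_al.VA2
import Pool.Agent.P.MP_6990a0_al.VA3

namespace Pool.Agent.P.MP_6990a0_al.VC

open Classical

variable {k V : Type*} [Field k] [AddCommGroup V] [Module k V]

theorem exists_T (K : Subfield ℝ) (Z : Finset ℝ) :
    ∃ T : ℝ →ₗ[K] K, ∀ z ∈ Z, 0 < z → (0 : ℝ) < (T z : ℝ) := by
  let β := Module.Basis.ofVectorSpace K ℝ
  let S : ℝ → ℝ := fun z => ∑ i ∈ (β.repr z).support, |((β.repr z i : K) : ℝ)|
  have hev : ∀ᶠ η in nhdsWithin (0 : ℝ) (Set.Ioi 0), ∀ z ∈ Z, 0 < z → η * S z < z := by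
    refine Filter.Eventually.filter_mono nhdsWithin_le_nhds ?_
    refine (Filter.eventually_all_finset Z).2 fun z _ => ?_
    by_cases hz : 0 < z
    · have hc : Filter.Tendsto (fun η : ℝ => η * S z) (nhds 0) (nhds (0 * S z)) :=
        (continuous_id.mul continuous_const).tendsto 0
      rw [zero_mul] at hc
      exact (hc.eventually_lt_const hz).mono fun η h _ => h
    · exact Filter.Eventually.of_forall fun η h => absurd h hz
  obtain ⟨η, hη, hη0⟩ := (hev.and self_mem_nhdsWithin).exists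
  choose q hq using fun i => exists_rat_near (β i : ℝ) (show (0 : ℝ) < η from hη0)
  refine ⟨β.constr K fun i => (q i : K), fun z hz hz0 => ?_⟩
  have h1 : (((β.constr K fun i => (q i : K)) z : K) : ℝ)
      = ∑ i ∈ (β.repr z).support, ((β.repr z i : K) : ℝ) * (q i : ℝ) := by
    rw [Module.Basis.constr_apply, Finsupp.sum]
    push_cast
    simp
  have h2 : z = ∑ i ∈ (β.repr z).support, ((β.repr z i : K) : ℝ) * (β i : ℝ) := by
    conv_lhs => rw [← β.linearCombination_repr z]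
    rw [Finsupp.linearCombination_apply, Finsupp.sum]
    rfl
  have h3 : z - (((β.constr K fun i => (q i : K)) z : K) : ℝ) ≤ η * S z := by
    rw [h1]
    conv_lhs => lhs; rw [h2]
    rw [← Finset.sum_sub_distrib, Finset.mul_sum]
    refine Finset.sum_le_sum fun i _ => ?_
    rw [← mul_sub, mul_comm η]
    refine (le_abs_self _).trans ?_
    rw [abs_mul]
    exact mul_le_mul_of_nonneg_left (hq i).le (abs_nonneg _)
  linarith [hη z hz hz0]

/-- the differences of the weights -/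
noncomputable def va6_dif {n : ℕ} (w : Fin n → ℝ) : Finset ℝ :=
  Finset.univ.image fun p : Fin n × Fin n => w p.2 - w p.1

theorem va6_mono {K : Subfield ℝ} {n : ℕ} (w : Fin n → ℝ) (T : ℝ →ₗ[K] K)
    (hT : ∀ z ∈ va6_dif w, 0 < z → (0 : ℝ) < (T z : ℝ)) (i j : Fin n) (h : w i ≤ w j) :
    (T (w i) : ℝ) ≤ (T (w j) : ℝ) := by
  rcases h.eq_or_lt with h | h
  · rw [h]
  · have h1 := hT (w j - w i) (Finset.mem_image.2 ⟨(i, j), Finset.mem_univ _, rfl⟩) (sub_pos.2 h)
    rw [map_sub] at h1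
    push_cast at h1
    linarith

theorem DR_cone {K : Subfield ℝ} {D : Set (ℝ → Submodule k V)} (hD : KCone K D)
    (hne : D.Nonempty) : Cone ⊤ (DR K D) := by
  refine ⟨?_, ?_, ?_, ?_⟩
  · obtain ⟨x, hx⟩ := hne
    obtain ⟨n, b, w, hw, rfl⟩ := hD.pts x hx
    refine ⟨_, n, b, w, {1}, rfl, fun T hT => ?_⟩
    have h1 : (0 : ℝ) < (T 1 : ℝ) := hT 1 (Finset.mem_singleton_self 1) one_pos
    have h2 := hD.sc_mem _ (T 1).2 h1 _ hx
    rw [sc_chart _ _ h1] at h2
    have e : (fun i => (T (w i) : ℝ)) = (T 1 : ℝ) • w := by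
      funext i
      have h3 : w i = (⟨w i, hw i⟩ : K) • (1 : ℝ) := by
        change w i = w i * 1
        rw [mul_one]
      rw [Pi.smul_apply, smul_eq_mul]
      conv_lhs => rw [h3, map_smul, smul_eq_mul]
      push_cast
      ring
    rwa [e]
  · rintro x ⟨n, b, w, Z, rfl, -⟩
    have h := chart_filt (k := k) b w
    rwa [b.span_eq] at h
  · rintro x ⟨n, b, w, Z, rfl, hx⟩ y ⟨n', b', w', Z', rfl, hy⟩
    obtain ⟨a, u, u', h1, h2, -, -⟩ := common_basis b b' w w'
    refine ⟨n, a, u + u', (Z ∪ va6_dif w) ∪ (Z' ∪ va6_dif w'), ?_, fun T hT => ?_⟩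
    · rw [h1, h2, add_chart a.linearIndependent]
    · have h3 := hx T fun z hz => hT z (by simp [hz])
      have h4 := hy T fun z hz => hT z (by simp [hz])
      rw [relabel b.linearIndependent w a.linearIndependent u h1 (fun r => (T r : ℝ))
        (va6_mono w T fun z hz => hT z (by simp [hz]))] at h3
      rw [relabel b'.linearIndependent w' a.linearIndependent u' h2 (fun r => (T r : ℝ))
        (va6_mono w' T fun z hz => hT z (by simp [hz]))] at h4
      have h5 := hD.add_mem _ h3 _ h4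
      rw [add_chart a.linearIndependent] at h5
      have e : (fun i => (T ((u + u') i) : ℝ))
          = (fun j => (T (u j) : ℝ)) + fun j => (T (u' j) : ℝ) := by
        funext i
        simp
      rwa [e]
  · rintro s hs x ⟨n, b, w, Z, rfl, hx⟩
    refine ⟨n, b, s • w, Z.image (s * ·), sc_chart _ _ hs, fun T hT => ?_⟩
    exact hx (T.comp (LinearMap.mulLeft K s)) fun z hz hz0 =>
      hT (s * z) (Finset.mem_image_of_mem _ hz) (mul_pos hs hz0)

theorem DR_lat {Γ : Type*} [Group Γ] [MulSemiringAction Γ k] [DistribMulAction Γ V]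
    (semi : ∀ (g : Γ) (c : k) (v : V), g • (c • v) = (g • c) • (g • v))
    {K : Subfield ℝ} {D : Set (ℝ → Submodule k V)} (h : ∀ g, ∀ x ∈ D, lat semi g ∘ x ∈ D) :
    ∀ g, ∀ x ∈ DR K D, lat semi g ∘ x ∈ DR K D := by
  rintro g x ⟨n, b, w, Z, rfl, hx⟩
  obtain ⟨b', hb'⟩ := basis_smul semi g b
  refine ⟨n, b', w, Z, by rw [lat_chart, hb'], fun T hT => ?_⟩
  have h1 := h g _ (hx T hT)
  rwa [lat_chart, ← hb'] at h1

theorem DR_back {K : Subfield ℝ} {D : Set (ℝ → Submodule k V)} {x : ℝ → Submodule k V}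
    (hx : x ∈ DR K D) : ∃ x' ∈ D, ∀ t, ∃ t', x' t = x t' := by
  obtain ⟨n, b, w, Z, rfl, hx⟩ := hx
  obtain ⟨T, hT⟩ := exists_T K (Z ∪ va6_dif w)
  exact ⟨_, hx T fun z hz => hT z (by simp [hz]), chart_vals b w (fun r => (T r : ℝ))
    (va6_mono w T fun z hz => hT z (by simp [hz]))⟩

end Pool.Agent.P.MP_6990a0_al.VC
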