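import Pool.Agent.P.MP_6990a0_al.EB4
import Pool.Agent.P.MP_6990a0_al.VA5
import Pool.Agent.P.MP_6990a0_al.VA6

/-! From real points to `K`-points. -/

namespace Pool.Agent.P.MP_6990a0_al.VC

variable {k V : Type*} [Field k] [AddCommGroup V] [Module k V] {n : ℕ} {G : Type*} [Group G]
  {Γ : Type*} [Group Γ] {a : Γ → (ℝ → Submodule k V) → ℝ → Submodule k V} {r : ℕ}
  {K : Subfield ℝ}

/-- A property of all maps `T` that are positive on the positive part of a finite set. -/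
def EvT (K : Subfield ℝ) (p : (ℝ →ₗ[K] K) → Prop) : Prop :=
  ∃ Z : Finset ℝ, ∀ T : ℝ →ₗ[K] K, (∀ z ∈ Z, 0 < z → (0 : ℝ) < (T z : ℝ)) → p T

theorem EvT.and {p q : (ℝ →ₗ[K] K) → Prop} (h : EvT K p) (h' : EvT K q) :
    EvT K fun T => p T ∧ q T := by
  classical
  obtain ⟨Z, hZ⟩ := h
  obtain ⟨Z', hZ'⟩ := h'
  exact ⟨Z ∪ Z', fun T hT => ⟨hZ T fun z hz => hT z (Finset.mem_union_left _ hz),
    hZ' T fun z hz => hT z (Finset.mem_union_right _ hz)⟩⟩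

theorem EvT.mono {p q : (ℝ →ₗ[K] K) → Prop} (h : EvT K p) (h' : ∀ T, p T → q T) : EvT K q :=
  let ⟨Z, hZ⟩ := h
  ⟨Z, fun T hT => h' T (hZ T hT)⟩

theorem EvT.exists {p : (ℝ →ₗ[K] K) → Prop} (h : EvT K p) : ∃ T, p T :=
  let ⟨Z, hZ⟩ := h
  let ⟨T, hT⟩ := exists_T K Z
  ⟨T, hZ T hT⟩

theorem evT_sign {S : Set ℝ} (hS : S.Finite) :
    EvT K fun T => ∀ z ∈ S, SignType.sign (T z : ℝ) = SignType.sign z := by
  classical
  refine ⟨hS.toFinset ∪ hS.toFinset.image Neg.neg, fun T hT z hz => ?_⟩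
  have hz' := hS.mem_toFinset.2 hz
  rcases lt_trichotomy z 0 with h | h | h
  · have h1 := hT (-z) (Finset.mem_union_right _ (Finset.mem_image_of_mem _ hz')) (neg_pos.2 h)
    rw [map_neg] at h1
    push_cast at h1
    rw [sign_neg h, sign_neg (neg_pos.1 h1)]
  · rw [h, map_zero]
    rfl
  · rw [sign_pos h, sign_pos (hT z (Finset.mem_union_left _ hz') h)]

theorem ek_one : EvT K fun T => (0 : ℝ) < (T 1 : ℝ) :=
  ⟨{1}, fun _ hT => hT 1 (Finset.mem_singleton_self 1) one_pos⟩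

theorem ek_up (T : ℝ →ₗ[K] K) (v : Fin r → K) :
    (Geo0.up fun i => T (Geo0.up v i)) = (T 1 : ℝ) • Geo0.up v := by
  funext i
  have e : Geo0.up v i = v i • (1 : ℝ) := (mul_one _).symm
  change ((T (Geo0.up v i) : K) : ℝ) = (T 1 : ℝ) * v i
  rw [e, map_smul, smul_eq_mul]
  exact mul_comm _ _

theorem ek_sum (f : (Fin r → ℝ) →ₗ[ℝ] ℝ) (v : Fin r → ℝ) :
    f v = ∑ i, v i * f (Pi.single i 1) := by
  have e : v = ∑ i, v i • (Pi.single i 1 : Fin r → ℝ) := pi_eq_sum_univ' v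
  conv_lhs => rw [e, map_sum]
  simp only [map_smul, smul_eq_mul]

theorem ek_rel {m m' : ℕ} (b : Module.Basis (Fin m) k V) (b' : Module.Basis (Fin m') k V)
    {w : Fin m → ℝ} {w' : Fin m' → ℝ} (h : chart k b w = chart k b' w') :
    EvT K fun T => chart k b (fun i => (T (w i) : ℝ)) = chart k b' fun j => (T (w' j) : ℝ) :=
  ⟨va6_dif w, fun T hT => relabel b.linearIndependent w b'.linearIndependent w' h
    (fun t => (T t : ℝ)) (va6_mono w T hT)⟩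

theorem ek_zero {m : ℕ} (b : Module.Basis (Fin m) k V) : chart k b 0 = zero ⊤ := by
  funext t
  unfold chart zero
  split_ifs with h
  · have e : {i : Fin m | t ≤ (0 : Fin m → ℝ) i} = Set.univ := Set.eq_univ_of_forall fun _ => h
    rw [e, Set.image_univ, b.span_eq]
  · have e : {i : Fin m | t ≤ (0 : Fin m → ℝ) i} = ∅ :=
      Set.eq_empty_of_forall_notMem fun _ => h
    rw [e, Set.image_empty, Submodule.span_empty]

/-- A functional defined over `K` commutes with `T`. -/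
theorem lin_T (f : (Fin r → ℝ) →ₗ[ℝ] ℝ) (hf : ∀ i, f (Pi.single i 1) ∈ K) (T : ℝ →ₗ[K] K)
    (v : Fin r → ℝ) : f (Geo0.up fun i => T (v i)) = T (f v) := by
  rw [ek_sum f, ek_sum f v, map_sum]
  push_cast
  refine Finset.sum_congr rfl fun i _ => ?_
  have e : v i * f (Pi.single i 1) = (⟨_, hf i⟩ : K) • v i := mul_comm _ _
  rw [e, map_smul, smul_eq_mul]
  exact mul_comm _ _

theorem exists_ext {r' : ℕ} (M : (Fin r → K) →ₗ[K] Fin r' → K) :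
    ∃ M' : (Fin r → ℝ) →ₗ[ℝ] Fin r' → ℝ, (∀ v, M' (Geo0.up v) = Geo0.up (M v)) ∧
      ∀ (T : ℝ →ₗ[K] K) (v : Fin r → ℝ), (M fun i => T (v i)) = fun i => T (M' v i) := by
  let M' : (Fin r → ℝ) →ₗ[ℝ] Fin r' → ℝ :=
    LinearMap.pi fun j => ∑ i, (M (Pi.single i 1) j : ℝ) • LinearMap.proj i
  have h1 : ∀ v, M' (Geo0.up v) = Geo0.up (M v) := fun v => by
    funext j
    have e : v = ∑ i, v i • (Pi.single i 1 : Fin r → K) := pi_eq_sum_univ' v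
    change _ = ((M v j : K) : ℝ)
    conv_rhs => rw [e, map_sum, Finset.sum_apply]
    push_cast
    simp only [M', LinearMap.pi_apply, LinearMap.sum_apply, LinearMap.smul_apply,
      LinearMap.proj_apply, smul_eq_mul, map_smul, Pi.smul_apply, Geo0.up]
    refine Finset.sum_congr rfl fun i _ => ?_
    push_cast
    exact mul_comm _ _
  refine ⟨M', h1, fun T v => funext fun j => Subtype.ext ?_⟩
  have h2 := lin_T (K := K) (LinearMap.proj j ∘ₗ M') (fun i => by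
    have e : (Pi.single i 1 : Fin r → ℝ) = Geo0.up (Pi.single i 1 : Fin r → K) := by
      funext i'
      by_cases h : i' = i
      · subst h
        simp [Geo0.up]
      · simp [Geo0.up, h]
    rw [e, LinearMap.comp_apply, h1]
    exact (M (Pi.single i 1) j).2) T v
  rw [LinearMap.comp_apply, h1] at h2
  exact h2

/-- Integral vectors with prescribed signs. -/
theorem exists_int (F : Set (Fin r → ℤ)) (hF : F.Finite) (v : Fin r → ℝ) :
    ∃ l : Fin r → ℤ, ∀ m ∈ F,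
      SignType.sign (∑ i, (m i : ℝ) * v i) = SignType.sign (m ⬝ᵥ l) := by
  obtain ⟨T, hT⟩ := (evT_sign (K := (algebraMap ℚ ℝ).fieldRange)
    (hF.image fun m => ∑ i, (m i : ℝ) * v i)).exists
  choose q hq using fun i => RingHom.mem_fieldRange.1 (T (v i)).2
  obtain ⟨b, hb⟩ := IsLocalization.exist_integer_multiples_of_finite (nonZeroDivisors ℤ) q
  choose z hz using hb
  refine ⟨fun i => b * z i, fun m hm => ?_⟩
  have hb0 : ((b : ℤ) : ℝ) ≠ 0 := Int.cast_ne_zero.2 (nonZeroDivisors.coe_ne_zero b)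
  have h1 : ((T (∑ i, (m i : ℝ) * v i) : _) : ℝ) = ∑ i, (m i : ℝ) * (T (v i) : ℝ) := by
    rw [map_sum]
    push_cast
    refine Finset.sum_congr rfl fun i _ => ?_
    rw [← zsmul_eq_mul, map_zsmul, zsmul_eq_mul]
    push_cast
    rfl
  have h2 : ((m ⬝ᵥ fun i => b * z i : ℤ) : ℝ) =
      ((b : ℤ) : ℝ) ^ 2 * ∑ i, (m i : ℝ) * (T (v i) : ℝ) := by
    rw [dotProduct, Finset.mul_sum]
    push_cast
    refine Finset.sum_congr rfl fun i _ => ?_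
    have h3 : ((z i : ℚ) : ℝ) = (((b : ℤ) • q i : ℚ) : ℝ) := congrArg _ (hz i)
    rw [zsmul_eq_mul] at h3
    push_cast at h3
    rw [h3, ← hq i]
    change _ = _ * (_ * (q i : ℝ))
    ring
  have h4 := (Int.cast_strictMono (R := ℝ)).sign_comp (f := Int.castRingHom ℝ)
    (m ⬝ᵥ fun i => b * z i)
  rw [← h4, ← hT _ ⟨m, hm, rfl⟩, h1, eq_intCast, h2, sign_mul,
    sign_pos (pow_pos (abs_pos.2 hb0) 2 |>.trans_eq (sq_abs _)), one_mul]

namespace Geo0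

variable {X : Geo0 k V G (Fin r → ℝ) n}

theorem Rat.ek_ap (hK : X.Rat K) (g : G) : ∃ b : Module.Basis (Fin n) k V,
    (∀ v, X.ap g v = chart k b (X.c v)) ∧ ∀ (T : ℝ →ₗ[K] K) (v : Fin r → ℝ),
      X.ap g (up fun i => T (v i)) = chart k b fun j => (T (X.c v j) : ℝ) := by
  obtain ⟨b, hb⟩ := ap_basis (X := X) g
  refine ⟨b, hb, fun T v => ?_⟩
  rw [hb]
  congr 1
  funext j
  exact lin_T (LinearMap.proj j ∘ₗ X.c) (fun i => hK.wt i j) T v

theorem Rat.rel (hK : X.Rat K) {g g' : G} {v v' : Fin r → ℝ} :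
    X.ap g v = X.ap g' v' ↔
      EvT K fun T => X.ap g (up fun i => T (v i)) = X.ap g' (up fun i => T (v' i)) := by
  obtain ⟨b, hb, hb1⟩ := hK.ek_ap g
  obtain ⟨b', hb', hb1'⟩ := hK.ek_ap g'
  simp only [hb1, hb1']
  rw [hb, hb']
  refine ⟨ek_rel b b', fun h => ?_⟩
  obtain ⟨a, u, u', h1, h2, -, -⟩ := common_basis b b' (X.c v) (X.c v')
  obtain ⟨T, ⟨⟨k1, k2⟩, k3⟩, k4⟩ := (((h.and (ek_rel b a h1)).and (ek_rel b' a h2)).and
    (evT_sign (Set.finite_range fun i => u i - u' i))).exists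
  have k5 := chart_inj a.linearIndependent (k2.symm.trans (k1.trans k3))
  rw [h1, h2]
  congr 1
  funext i
  have k6 := k4 _ ⟨i, rfl⟩
  have k7 : (T (u i) : ℝ) = T (u' i) := congrFun k5 i
  rw [map_sub] at k6
  push_cast at k6
  rw [k7, sub_self, sign_zero, eq_comm, sign_eq_zero_iff] at k6
  exact sub_eq_zero.1 k6

theorem Rat.mem_DR (hK : X.Rat K) {D : Set (ℝ → Submodule k V)} {g : G} {v : Fin r → ℝ} :
    X.ap g v ∈ DR K D ↔ EvT K fun T => X.ap g (up fun i => T (v i)) ∈ D := by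
  obtain ⟨b, hb, hb1⟩ := hK.ek_ap g
  simp only [hb1]
  rw [hb]
  constructor
  · rintro ⟨n', b', w', Z, e, h⟩
    exact ((ek_rel b b' e).and ⟨Z, h⟩).mono fun T hT => hT.1 ▸ hT.2
  · rintro ⟨Z, h⟩
    exact ⟨n, b, X.c v, Z, rfl, h⟩

/-- The action extends to the real points. -/
theorem Rat.ext (hK : X.Rat K) (ha : X.KAct K a) :
    ∃ b : Γ → (ℝ → Submodule k V) → ℝ → Submodule k V, X.GAct b ∧
      (∀ γ, ∀ x ∈ X.EK K, b γ x = a γ x) ∧ ∀ D : Set (ℝ → Submodule k V),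
        (∀ γ, ∀ x ∈ D ∩ X.EK K, a γ x ∈ D) → ∀ γ, ∀ x ∈ DR K D ∩ X.EE, b γ x ∈ DR K D := by
  classical
  choose g' M hM using ha.lin
  choose E h1 h2 using fun M : (Fin r → K) →ₗ[K] Fin r → K => exists_ext M
  have k0 : ∀ γ g v (T : ℝ →ₗ[K] K), a γ (X.ap g (up fun i => T (v i))) =
      X.ap (g' γ g) (up fun i => T (E (M γ g) v i)) := fun γ g v T => by rw [hM, h2]
  let b : Γ → (ℝ → Submodule k V) → ℝ → Submodule k V := fun γ x =>
    if h : x ∈ X.EE then X.ap (g' γ h.choose) (E (M γ h.choose) h.choose_spec.choose) else x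
  have key : ∀ γ g v, b γ (X.ap g v) = X.ap (g' γ g) (E (M γ g) v) := fun γ g v => by
    have h : X.ap g v ∈ X.EE := ⟨g, v, rfl⟩
    have e := h.choose_spec.choose_spec
    simp only [b, dif_pos h]
    exact hK.rel.2 ((hK.rel.1 e).mono fun T hT => by rw [← k0, ← k0, hT])
  refine ⟨b, ⟨?_, ?_, fun γ g => ⟨g' γ g, E (M γ g), key γ g⟩⟩, ?_, ?_⟩
  · rintro _ ⟨g, v, rfl⟩
    rw [key]
    exact hK.rel.2 (ek_one.mono fun T _ => by rw [← k0, ha.one _ ⟨g, _, rfl⟩])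
  · rintro γ δ _ ⟨g, v, rfl⟩
    rw [key, key, key]
    exact hK.rel.2 (ek_one.mono fun T _ => by
      rw [← k0, ← k0, ← k0, ha.mul _ _ _ ⟨g, _, rfl⟩])
  · rintro γ _ ⟨g, v, rfl⟩
    rw [key, h1, hM]
  · rintro D hD γ _ ⟨hx, g, v, rfl⟩
    rw [key]
    exact hK.mem_DR.2 ((hK.mem_DR.1 hx).mono fun T hT => k0 γ g v T ▸ hD γ _ ⟨hT, g, _, rfl⟩)

theorem Ax.commonK (A : X.Ax) (hK : X.Rat K) {x y : ℝ → Submodule k V} (hx : x ∈ X.EK K)
    (hy : y ∈ X.EK K) : ∃ g, ∃ v v' : Fin r → K, x = X.ap g (up v) ∧ y = X.ap g (up v') := by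
  obtain ⟨g, v, rfl⟩ := hx
  obtain ⟨h, v', rfl⟩ := hy
  obtain ⟨p, z, z', h1, h2⟩ := A.common g h (up v) (up v')
  obtain ⟨T, ⟨k1, k2⟩, k3⟩ := (((hK.rel.1 h1).and (hK.rel.1 h2)).and ek_one).exists
  have k4 : ∀ (g : G) (v : Fin r → K) (z : Fin r → K),
      X.ap g (up fun i => T (up v i)) = X.ap p (up z) →
      X.ap g (up v) = X.ap p (up ((T 1)⁻¹ • z)) := fun g v z e => by
    have e1 := congrArg (sc (T 1 : ℝ)⁻¹) e
    rw [ap_sc _ (inv_pos.2 k3), ap_sc _ (inv_pos.2 k3), ek_up, inv_smul_smul₀ k3.ne'] at e1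
    rw [e1]
    congr 1
  exact ⟨p, _, _, k4 _ _ _ k1, k4 _ _ _ k2⟩

theorem Ax.opp_iff (A : X.Ax) (hK : X.Rat K) {x y : ℝ → Submodule k V} (hx : x ∈ X.EK K)
    (hy : y ∈ X.EK K) : Opp x y ↔ X.OppG K x y := by
  constructor
  · rintro ⟨m, b, w, e1, e2⟩
    obtain ⟨g, v, v', rfl, rfl⟩ := A.commonK hK hx hy
    obtain ⟨b', hb'⟩ := ap_basis (X := X) g
    have h1 : X.ap g (up v + up v') = X.ap g 0 := by
      rw [← ap_add, e1, e2, add_chart b.linearIndependent, add_neg_cancel, hb', map_zero,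
        ek_zero, ek_zero]
    refine ⟨g, v, rfl, ?_⟩
    rw [eq_neg_of_add_eq_zero_right (A.ap_inj h1)]
    rfl
  · rintro ⟨g, v, rfl, rfl⟩
    obtain ⟨b, hb⟩ := ap_basis (X := X) g
    refine ⟨n, b, X.c (up v), hb _, ?_⟩
    rw [hb, ← map_neg]
    rfl

theorem Ax.mainK (A : X.Ax) (hK : X.Rat K) (ha : X.KAct K a) {C : Set (ℝ → Submodule k V)}
    (hC : C ⊆ X.EK K) (hadd : ∀ x ∈ C, ∀ y ∈ C, add x y ∈ C)
    (hsc : ∀ s ∈ K, 0 < s → ∀ x ∈ C, sc s x ∈ C) (hst : ∀ γ, ∀ x ∈ C, a γ x ∈ C)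
    (hn : ∃ x ∈ C, ∀ y ∈ C, ¬ X.OppG K x y) :
    ∃ (N : Subgroup Γ) (_ : N.Normal), N.FiniteIndex ∧ ∀ H : Subgroup Γ,
      Group.IsSolvable (H.map (QuotientGroup.mk' N)) → ∃ x ∈ C, (∀ y ∈ C, ¬ X.OppG K x y) ∧
        ∀ h ∈ H, ∀ y ∈ X.EK K, X.Same y x → X.Same (a h y) x := by
  have hCK : KCone K C := by
    refine ⟨fun x hx => ?_, hadd, hsc⟩
    obtain ⟨g, v, rfl⟩ := hC hx
    obtain ⟨b, hb⟩ := ap_basis (X := X) g
    refine ⟨n, b, X.c (up v), fun j => ?_, hb _⟩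
    have e : X.c (up v) j = _ := ek_sum (LinearMap.proj j ∘ₗ X.c) (up v)
    rw [e]
    exact K.sum_mem fun i _ => K.mul_mem (v i).2 (hK.wt i j)
  have hD := un_kcone hCK
  have hun : ∀ x, x ∈ Un C ↔ x ∈ C ∧ ∀ y ∈ C, ¬ X.OppG K x y := fun x =>
    and_congr_right fun hx => forall₂_congr fun y hy =>
      not_congr (A.opp_iff hK (hC hx) (hC hy))
  obtain ⟨x0, hx0⟩ := hn
  have hx1 := (hun x0).2 hx0
  have c1 := DR_cone hD ⟨x0, hx1⟩
  have c2 := A.cone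
  have c3 : Cone ⊤ (DR K (Un C) ∩ X.EE) := by
    refine ⟨?_, fun x hx => c2.filt x hx.2,
      fun x hx y hy => ⟨c1.add_mem x hx.1 y hy.1, c2.add_mem x hx.2 y hy.2⟩,
      fun s hs x hx => ⟨c1.sc_mem s hs x hx.1, c2.sc_mem s hs x hx.2⟩⟩
    obtain ⟨g, v, rfl⟩ := hC hx0.1
    refine ⟨_, hK.mem_DR.2 (ek_one.mono fun T hT => ?_), g, up v, rfl⟩
    rw [ek_up, ← ap_sc g hT]
    exact hD.sc_mem _ (T 1).2 hT _ hx1
  have hst' : ∀ γ, ∀ x ∈ Un C ∩ X.EK K, a γ x ∈ Un C := by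
    rintro γ x ⟨hx, hxK⟩
    have hx' := (hun x).1 hx
    refine (hun _).2 ⟨hst γ x hx'.1, ?_⟩
    rintro y hy ⟨g, v, e1, e2⟩
    obtain ⟨g', M, hM⟩ := ha.lin γ⁻¹ g
    refine hx'.2 _ (hst γ⁻¹ y hy) ⟨g', M v, ?_, ?_⟩
    · rw [← hM, ← e1, ← ha.mul _ _ _ hxK, inv_mul_cancel, ha.one _ hxK]
    · rw [e2, hM, map_neg]
  obtain ⟨b, hb, hba, hbD⟩ := hK.ext ha
  obtain ⟨hsame, hall⟩ := A.all (a := b)
  obtain ⟨hact, hmain⟩ := hall hb
  have hsymm : ∀ {x y}, X.Same x y → X.Same y x := by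
    rintro _ _ ⟨g, v, v', rfl, rfl, h⟩
    exact ⟨g, v', v, rfl, rfl, fun a ha => (h a ha).symm⟩
  have hmem : ∀ {x y}, X.Same x y → x ∈ X.EE := by
    rintro _ _ ⟨g, v, v', rfl, rfl, -⟩
    exact ⟨g, v, rfl⟩
  have htr : ∀ {x y z}, X.Same x y → X.Same y z → X.Same x z := fun h h' =>
    (hsame _ (hmem h) _ (hmem (hsymm h'))).2 fun g =>
      ((hsame _ (hmem h) _ (hmem h')).1 h g).trans
        ((hsame _ (hmem h') _ (hmem (hsymm h'))).1 h' g)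
  obtain ⟨N, hN, hfin, hH⟩ := hmain _ Set.inter_subset_right c3 fun γ x hx =>
    ⟨hbD _ hst' γ x hx, (hb.aact A).mem γ x hx.2⟩
  refine ⟨N, hN, hfin, fun H hs => ?_⟩
  obtain ⟨_, ⟨hx, g, v, rfl⟩, hfix⟩ := hH H hs
  obtain ⟨T, k1, k2⟩ := ((hK.mem_DR.1 hx).and (evT_sign (A.fin.image fun a => a v))).exists
  have k3 : X.Same (X.ap g (up fun i => T (v i))) (X.ap g v) :=
    ⟨g, _, v, rfl, rfl, fun a ha => by rw [lin_T a (hK.rt a ha), k2 _ ⟨a, ha, rfl⟩]⟩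
  refine ⟨_, ((hun _).1 k1).1, ((hun _).1 k1).2, fun h hh y hy hs => ?_⟩
  rw [← hba h y hy]
  exact htr (htr (hact h _ _ (htr hs k3)) (hfix h hh)) (hsymm k3)

end Geo0

end Pool.Agent.P.MP_6990a0_al.VC
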