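import Pool.Agent.P.MP_c1f06d_ag.g.BTop

/-! A reductive group over a field is the stabiliser of a point of a homogeneous space. -/

open WithConv Pool.Agent.GR Pool.Agent.RG Matrix
open scoped TensorProduct

universe u

namespace Pool.Agent.RED

variable {k A : Type u} [Field k] [CommRing A] [HopfAlgebra k A]

theorem el0_bot (k : Type u) [Field k] : (⊥ : Subfield (⊥ : Subfield k)) = ⊤ := by
  refine eq_top_iff.2 fun x _ => ?_
  have h : (⊥ : Subfield k) ≤ (⊥ : Subfield (⊥ : Subfield k)).map (⊥ : Subfield k).subtype :=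
    bot_le
  obtain ⟨y, hy, e⟩ := h x.2
  rwa [← Subtype.ext e]

theorem el0_real {k0 : Type u} [Field k0] [Algebra k0 k] {n : ℕ} {G H : AffQuot k0 n}
    {z : H.B →ₐ[k0] k} {u : GL (Fin n) A} (hN : H.Normalizes G) (hu : Presents G H z u) :
    Nonempty (Real k A (AffQuot.twHS z hN)) := by
  have hr : IsRep k u := fun C _ _ g g' => Units.ext (Matrix.ext fun i j => by
    rw [Units.val_mul, Matrix.mul_apply, gm_apply, pt_mul_apply, hu.comul, map_sum]
    exact Finset.sum_congr rfl fun l _ => by
      rw [Algebra.TensorProduct.lift_tmul, gm_apply, gm_apply])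
  refine ⟨⟨⟨fun T _ _ _ => hr.pts T, fun _ _ _ _ _ _ _ _ _ => rfl, fun T _ _ _ x y e => ?_⟩,
    fun T c i i' st g => ?_⟩⟩
  · refine WithConv.ext (hu.inj T _ _ fun i j => ?_)
    rw [← gm_apply, ← gm_apply]
    exact congrArg (fun g : GL (Fin n) T => (g : Matrix (Fin n) (Fin n) T) i j) e
  · obtain rfl : i = i' := Algebra.algebra_ext _ _ fun c =>
      @IsScalarTower.algebraMap_apply k k T _ _ _ _ i' i st c
    rw [AffQuot.mem_twHS_G, hu.pts]
    constructor
    · rintro ⟨x, hx⟩
      exact ⟨toConv x, Units.ext (Matrix.ext fun a b => (hx a b).symm)⟩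
    · rintro ⟨x, rfl⟩
      exact ⟨x.ofConv, fun _ _ => rfl⟩

theorem exists_real (hA : IsReductive k A) :
    ∃ (n : ℕ) (H : HS k n), Nonempty (Real k A H) := by
  have : IsLocalization.AtPrime k (⊥ : Ideal k) := by
    refine IsLocalization.self fun x hx => ?_
    exact IsUnit.mk0 x fun h => hx (h ▸ Ideal.zero_mem _)
  obtain ⟨n, r, r', G, H, χ, χ', z, u, hN, -, -, -, hu⟩ :=
    bridge' (⊥ : Subfield k) (el0_bot k) k k ⊥ k A hA
  exact ⟨n, _, el0_real hN hu⟩

theorem isDomain_of_red (hA : IsReductive k A) : IsDomain (k ⊗[k] A) := by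
  have := gi_of_red hA (AlgebraicClosure k)
  refine Function.Injective.isDomain (Algebra.TensorProduct.map
    (Algebra.ofId k (AlgebraicClosure k)) (AlgHom.id k A)).toRingHom ?_
  exact Module.Flat.rTensor_preserves_injective_linearMap (M := A)
    (Algebra.linearMap k (AlgebraicClosure k)) (algebraMap k (AlgebraicClosure k)).injective

end Pool.Agent.RED
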