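import Pool.Agent.P.MP_6990a0_al.EDefs
import Pool.Agent.P.MP_6990a0_al.EC
import Pool.Agent.P.MP_c1f06d_ag.g.FibA

/-! Tori as points, and filtrations of matrices. -/

open WithConv Pool.Agent.GR Matrix Pool.Agent.P.MP_6990a0_al

universe u

namespace Pool.Agent.RED

section mat

variable {n r : ℕ} {S S' : Type u} [CommRing S] [CommRing S']

/-- The real weights of a vector. -/
def rwt (χ : Fin n → XL r) (v : Fin r → ℝ) : Fin n → ℝ := fun j => ∑ i, (χ j i : ℝ) * v i

/-- `M i j = 0` if `w i < w' j`. -/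
def TriR (w w' : Fin n → ℝ) (M : Mat n S) : Prop := ∀ i j, w i < w' j → M i j = 0

theorem TriR.mul {a b c : Fin n → ℝ} {M N : Mat n S} (h : TriR a b M) (h' : TriR b c N) :
    TriR a c (M * N) := by
  intro i j e
  rw [mul_apply]
  refine Finset.sum_eq_zero fun l _ => ?_
  rcases lt_or_ge (a i) (b l) with e' | e'
  · rw [h i l e', zero_mul]
  · rw [h' l j (e'.trans_lt e), mul_zero]

theorem TriR.map {a b : Fin n → ℝ} {M : Mat n S} (h : TriR a b M) (f : S →+* S') :
    TriR a b (M.map f) := fun i j e => by rw [map_apply, h i j e, map_zero]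

/-- An integral vector with the signs of `v` on a finite set and on the weight differences. -/
theorem triR_iff_inP {χ : Fin n → XL r} {v : Fin r → ℝ} {l : Fin r → ℤ}
    (h : ∀ i j, SignType.sign (∑ s, ((χ i - χ j) s : ℝ) * v s) =
      SignType.sign ((χ i - χ j) ⬝ᵥ l)) (M : Mat n S) :
    TriR (rwt χ v) (rwt χ v) M ↔ InP (fun i => χ i ⬝ᵥ l) M := by
  refine forall_congr' fun i => forall_congr' fun j => imp_congr_left ?_
  have e1 : ∑ s, ((χ i - χ j) s : ℝ) * v s = rwt χ v i - rwt χ v j := by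
    simp only [rwt, Pi.sub_apply, Int.cast_sub, sub_mul, Finset.sum_sub_distrib]
  have e := h i j
  rw [e1, sub_dotProduct] at e
  rw [← sub_neg, ← sign_eq_neg_one_iff, e, sign_eq_neg_one_iff, sub_neg]

variable {k : Type u} [Field k]

/-- The filtration with weights `w` on the columns of `γ`. -/
def fl (γ : GL (Fin n) k) (w : Fin n → ℝ) : ℝ → Submodule k (Fin n → k) :=
  VC.chart k (fun j i => (γ : Mat n k) i j) w

theorem fl_li (γ : GL (Fin n) k) : LinearIndependent k fun j i => (γ : Mat n k) i j := by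
  exact Matrix.linearIndependent_cols_iff_isUnit.2 γ.isUnit

theorem el1_mem (γ : GL (Fin n) k) (w : Fin n → ℝ) (t : ℝ) (x : Fin n → k) :
    x ∈ fl γ w t ↔ ∀ i, w i < t → (((γ⁻¹ : GL (Fin n) k) : Mat n k) *ᵥ x) i = 0 := by
  constructor
  · intro hx i hi
    induction hx using Submodule.span_induction with
    | mem x hx =>
      obtain ⟨j, hj, rfl⟩ := hx
      have e : i ≠ j := by
        rintro rfl
        exact absurd hi (not_lt.2 hj)
      have := congrFun (congrFun γ.inv_mul i) j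
      rw [mul_apply, one_apply_ne e] at this
      exact this
    | zero => simp
    | add x y _ _ hx hy => rw [mulVec_add, Pi.add_apply, hx, hy, add_zero]
    | smul c x _ hx => rw [mulVec_smul, Pi.smul_apply, hx, smul_zero]
  · intro hx
    have e : x = ∑ j, (((γ⁻¹ : GL (Fin n) k) : Mat n k) *ᵥ x) j • fun i => (γ : Mat n k) i j := by
      have : x = (γ : Mat n k) *ᵥ (((γ⁻¹ : GL (Fin n) k) : Mat n k) *ᵥ x) := by
        rw [mulVec_mulVec, Units.mul_inv, one_mulVec]
      refine this.trans (funext fun i => ?_)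
      generalize ((γ⁻¹ : GL (Fin n) k) : Mat n k) *ᵥ x = c
      simp only [Finset.sum_apply, Pi.smul_apply, smul_eq_mul, mulVec, dotProduct, mul_comm]
    rw [e]
    refine Submodule.sum_mem _ fun j _ => ?_
    rcases lt_or_ge (w j) t with h | h
    · rw [hx j h, zero_smul]
      exact zero_mem _
    · exact Submodule.smul_mem _ _ (Submodule.subset_span ⟨j, h, rfl⟩)

theorem fl_le_iff (γ γ' : GL (Fin n) k) (w w' : Fin n → ℝ) :
    fl γ' w' ≤ fl γ w ↔ TriR w w' ((γ⁻¹ * γ' : GL (Fin n) k) : Mat n k) := by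
  constructor
  · intro h i j e
    have := (el1_mem γ w (w' j) _).1 (h (w' j) (Submodule.subset_span ⟨j, le_refl (w' j), rfl⟩)) i e
    rw [Units.val_mul, mul_apply]
    exact this
  · intro h t
    refine Submodule.span_le.2 ?_
    rintro _ ⟨j, hj, rfl⟩
    refine (el1_mem γ w t _).2 fun i e => ?_
    have := h i j (e.trans_le hj)
    rw [Units.val_mul, mul_apply] at this
    exact this

theorem el1_rank (γ : GL (Fin n) k) (w : Fin n → ℝ) (t : ℝ) :
    Module.finrank k (fl γ w t) = Nat.card {i // t ≤ w i} := by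
  classical
  have := finrank_span_eq_card ((fl_li γ).comp (Subtype.val : {i // t ≤ w i} → Fin n)
    Subtype.val_injective)
  rw [Nat.card_eq_fintype_card, ← this, fl, VC.chart, Set.image_eq_range]
  rfl

theorem fl_fix_iff (γ q : GL (Fin n) k) (w : Fin n → ℝ) :
    fl (γ * q) w = fl γ w ↔ TriR w w (q : Mat n k) := by
  have e := fl_le_iff γ (γ * q) w w
  rw [inv_mul_cancel_left] at e
  refine ⟨fun h => e.1 h.le, fun h => funext fun t => ?_⟩
  exact Submodule.eq_of_le_of_finrank_eq (e.2 h t) (by rw [el1_rank, el1_rank])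

theorem fl_intw {ι : Type} {a b : Fin n → ι} (γ : GL (Fin n) k) {q : GL (Fin n) k}
    (h : Intw a b (q : Mat n k)) (f : ι → ℝ) :
    fl (γ * q) (fun j => f (b j)) = fl γ fun i => f (a i) := by
  refine le_antisymm ((fl_le_iff _ _ _ _).2 ?_) ((fl_le_iff _ _ _ _).2 ?_)
  · rw [inv_mul_cancel_left]
    exact fun i j e => h i j fun e' => e.ne (congrArg f e')
  · rw [_root_.mul_inv_rev, inv_mul_cancel_right]
    exact fun i j e => h.inv i j fun e' => e.ne (congrArg f e')

/-- The parabolic subgroup of a filtration, over any ring. -/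
theorem triR_of_fl_eq [Algebra k S] {γ γ' : GL (Fin n) k} {w w' : Fin n → ℝ}
    (h : fl γ w = fl γ' w') {g : GL (Fin n) S}
    (hg : TriR w w (((gm (Algebra.ofId k S) γ)⁻¹ * g * gm (Algebra.ofId k S) γ :
      GL (Fin n) S) : Mat n S)) :
    TriR w' w' (((gm (Algebra.ofId k S) γ')⁻¹ * g * gm (Algebra.ofId k S) γ' :
      GL (Fin n) S) : Mat n S) := by
  have h1 := ((fl_le_iff γ γ' w w').1 h.ge).map (algebraMap k S)
  have h2 := ((fl_le_iff γ' γ w' w).1 h.le).map (algebraMap k S)
  have e : (gm (Algebra.ofId k S) γ')⁻¹ * g * gm (Algebra.ofId k S) γ' =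
      gm (Algebra.ofId k S) (γ'⁻¹ * γ) * ((gm (Algebra.ofId k S) γ)⁻¹ * g *
        gm (Algebra.ofId k S) γ) * gm (Algebra.ofId k S) (γ⁻¹ * γ') := by
    simp only [map_mul, map_inv]
    group
  rw [e, Units.val_mul, Units.val_mul]
  exact (h2.mul hg).mul h1

end mat

variable {k A : Type u} [Field k] [CommRing A] [HopfAlgebra k A] {n : ℕ} {H : HS k n}
  {S : Type u} [CommRing S] [Algebra k S]

/-- The universal point of a torus. -/
def tpt (T : Edif.Torus k A) : Pt k A (GA k (XL T.r)) := toConv T.t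

theorem ev_eq (T : Edif.Torus k A) (τ : Multiplicative (XL T.r) →* S) :
    Edif.ev T.t τ = tev (tpt T) (Algebra.ofId k S) τ.toHomUnits := by
  have : AddMonoidAlgebra.lift k S (XL T.r) τ = tl (Algebra.ofId k S) τ.toHomUnits :=
    AddMonoidAlgebra.algHom_ext (fun m => by simp [chv]) (Subsingleton.elim _ _)
  rw [Edif.ev, this]
  rfl

theorem tev_eq (T : Edif.Torus k A) (τ : TP (XL T.r) S) :
    tev (tpt T) (Algebra.ofId k S) τ = Edif.ev T.t ((Units.coeHom S).comp τ) := by
  rw [ev_eq]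
  congr 1
  exact MonoidHom.ext fun m => Units.ext rfl

theorem isHom_tpt (T : Edif.Torus k A) : IsHom (tpt T) := by
  intro S _ _ j τ τ'
  obtain rfl : j = Algebra.ofId k S := Subsingleton.elim _ _
  rw [tev_eq, tev_eq, tev_eq]
  exact T.mul S ((Units.coeHom S).comp τ) ((Units.coeHom S).comp τ')

theorem span_of_dg (X : MRep k A k n) (T : Edif.Torus k A) {χ : Fin n → XL T.r}
    (h : X.Dg (tpt T) χ) : Submodule.span ℤ (Set.range χ) = ⊤ := by
  let N := (Submodule.span ℤ (Set.range χ)).toAddSubgroup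
  let τ := (uT k (XL T.r ⧸ N)).comp (QuotientAddGroup.mk' N).toMultiplicative
  have e0 : tev (tpt T) (cst k k _) τ = tev (tpt T) (cst k k _) 1 := X.inj _ (cst k k _) (by
    rw [h.tev, h.tev]
    refine congrArg dgU (funext fun i => ?_)
    have : QuotientAddGroup.mk' N (χ i) = 0 :=
      (QuotientAddGroup.eq_zero_iff _).2 (Submodule.subset_span ⟨i, rfl⟩)
    exact (congrArg (uu k) this).trans τ.map_one)
  have e : τ = 1 := tp_ext fun m => by
    obtain ⟨a, ha⟩ := T.onto (AddMonoidAlgebra.single m 1)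
    have := congrArg (fun x : Pt k A (GA k (XL T.r ⧸ N)) => x.ofConv a) e0
    simp only [tev, pm_apply, tpt, ha, tl_single, map_one, one_mul] at this
    exact this
  refine eq_top_iff.2 fun x _ => (QuotientAddGroup.eq_zero_iff (N := N) x).1 (uu_inj (A := k) ?_)
  exact (DFunLike.congr_fun e (Multiplicative.ofAdd x)).trans τ.map_one.symm

/-- Conjugation by a rational point, on functions. -/
noncomputable def el1_c (g : Pt k A k) : A →ₐ[k] A :=
  (pm (Algebra.ofId k A) g * toConv (AlgHom.id k A) * (pm (Algebra.ofId k A) g)⁻¹).ofConv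

theorem el1_pt (g : Pt k A k) (x : Pt k A S) : toConv (x.ofConv.comp (el1_c g)) =
    pm (Algebra.ofId k S) g * x * (pm (Algebra.ofId k S) g)⁻¹ := by
  have e : x.ofConv.comp (Algebra.ofId k A) = Algebra.ofId k S := Subsingleton.elim _ _
  refine Eq.trans (b := pm x.ofConv (pm (Algebra.ofId k A) g * toConv (AlgHom.id k A) *
    (pm (Algebra.ofId k A) g)⁻¹)) rfl ?_
  rw [map_mul, map_mul, map_inv, pm_pm, e]
  rfl

theorem el1_cc (g : Pt k A k) (a : A) : el1_c g (el1_c g⁻¹ a) = a := by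
  have e := el1_pt g⁻¹ (toConv (el1_c g))
  have e' : pm (Algebra.ofId k A) g⁻¹ * toConv (el1_c g) * (pm (Algebra.ofId k A) g⁻¹)⁻¹ =
      toConv (AlgHom.id k A) := by
    rw [el1_c, toConv_ofConv, map_inv]
    group
  exact congrArg (fun x : Pt k A A => x.ofConv a) (e.trans e')

theorem el1_ev (T : Edif.Torus k A) (g : Pt k A k) (τ : Multiplicative (XL T.r) →* S) :
    Edif.ev (T.t.comp (el1_c g)) τ =
      pm (Algebra.ofId k S) g * Edif.ev T.t τ * (pm (Algebra.ofId k S) g)⁻¹ :=
  el1_pt g (Edif.ev T.t τ)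

/-- The conjugate torus. -/
noncomputable def el1_tor (T : Edif.Torus k A) (g : Pt k A k) : Edif.Torus k A where
  r := T.r
  t := T.t.comp (el1_c g)
  onto := T.onto.comp fun a => ⟨_, el1_cc g a⟩
  mul S _ _ τ τ' := by
    rw [el1_ev, el1_ev, el1_ev, T.mul]
    group

/-- The conjugate of a maximal torus. -/
theorem exists_conj (T : Edif.Torus k A) (hT : T.IsMax) (g : Pt k A k) :
    ∃ (t : A →ₐ[k] GA k (XL T.r)) (h1 : Function.Surjective t) (h2 : _),
      (⟨T.r, t, h1, h2⟩ : Edif.Torus k A).IsMax ∧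
      T.Conj g ⟨T.r, t, h1, h2⟩ (AddEquiv.refl _) := by
  refine ⟨(el1_tor T g).t, (el1_tor T g).onto, (el1_tor T g).mul, fun T' h a ha => ?_,
    fun S _ _ τ τ' e => ?_⟩
  · have := hT (el1_tor T' g⁻¹) (fun b hb => by
      have : T.t (el1_c g (el1_c g⁻¹ b)) = 0 := h (x := el1_c g⁻¹ b) hb
      rwa [el1_cc] at this) (show el1_c g a ∈ RingHom.ker T.t from ha)
    have e : T'.t (el1_c g⁻¹ (el1_c g⁻¹⁻¹ a)) = 0 := by rwa [inv_inv]
    rwa [el1_cc] at e
  · obtain rfl : τ' = τ := MonoidHom.ext fun m => e m.toAdd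
    exact eq_mul_of_mul_inv_eq (el1_ev T g τ').symm

theorem conj_iff (X : Real k A H) {T T' : Edif.Torus k A} {γ γ' : GL (Fin n) k}
    {χ : Fin n → XL T.r} {χ' : Fin n → XL T'.r} (h : (X.rb γ).Dg (tpt T) χ)
    (h' : (X.rb γ').Dg (tpt T') χ') (g : Pt k A k) (θ : XL T'.r ≃+ XL T.r) :
    T.Conj g T' θ ↔ Intw (fun i => θ (χ' i)) χ
      ((γ'⁻¹ * X.ρ k (Algebra.ofId k k) g * γ : GL (Fin n) k) : Mat n k) := by
  have key : ∀ (S : Type u) [CommRing S] [Algebra k S] (τ : TP (XL T.r) S) (τ' : TP (XL T'.r) S),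
      pm (Algebra.ofId k S) g * tev (tpt T) (Algebra.ofId k S) τ =
        tev (tpt T') (Algebra.ofId k S) τ' * pm (Algebra.ofId k S) g ↔
      gm (Algebra.ofId k S) (γ'⁻¹ * X.ρ k (Algebra.ofId k k) g * γ) * tp χ τ =
        tp χ' τ' * gm (Algebra.ofId k S) (γ'⁻¹ * X.ρ k (Algebra.ofId k k) g * γ) := by
    intro S _ _ τ τ'
    have e1 := h.tev (Algebra.ofId k S) τ
    have e2 := h'.tev (Algebra.ofId k S) τ'
    have e3 := X.nat _ _ (Algebra.ofId k S) (Algebra.ofId k k) g
    rw [show (Algebra.ofId k S).comp (Algebra.ofId k k) = Algebra.ofId k S from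
      Subsingleton.elim _ _] at e3
    rw [Real.rb_ρ] at e1 e2
    rw [← (X.inj S (Algebra.ofId k S)).eq_iff, ← e1, ← e2]
    simp only [map_mul, map_inv, e3]
    constructor
    · intro e
      simp only [mul_assoc, mul_inv_cancel_left]
      rw [← mul_assoc (X.ρ S _ (pm _ g)), e, mul_assoc]
    · intro e
      simp only [mul_assoc, mul_inv_cancel_left] at e
      rw [← mul_assoc (X.ρ S _ (pm _ g)), ← mul_assoc (X.ρ S _ (tev (tpt T') _ _))] at e
      exact mul_right_cancel (mul_left_cancel e)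
  constructor
  · intro hc i j hij
    let τ := uT k (XL T.r)
    let τ' : TP (XL T'.r) (GA k (XL T.r)) := τ.comp (θ : XL T'.r →+ XL T.r).toMultiplicative
    have e := hc (GA k (XL T.r)) ((Units.coeHom _).comp τ) ((Units.coeHom _).comp τ') fun _ => rfl
    rw [← tev_eq, ← tev_eq] at e
    have e' := congrArg (fun M : GL (Fin n) (GA k (XL T.r)) =>
      ((M : Mat n (GA k (XL T.r))) i j).coeff (χ j)) ((key _ τ τ').1 e)
    generalize γ'⁻¹ * X.ρ k (Algebra.ofId k k) g * γ = N at e' ⊢
    have e1 : (tp χ τ : GL (Fin n) _) = rho k χ := rfl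
    have e2 : (tp χ' τ' : GL (Fin n) _) = rho k fun i => θ (χ' i) := rfl
    simp only [e1, e2, Units.val_mul, rho, dgU, uu, mul_diagonal, diagonal_mul, gm_apply,
      Algebra.ofId_apply, AddMonoidAlgebra.coe_algebraMap, Function.comp_apply,
      AddMonoidAlgebra.single_mul_single, AddMonoidAlgebra.coeff_single] at e'
    simpa [Finsupp.single_apply, hij] using e'
  · intro hi S _ _ τ τ' e
    rw [ev_eq, ev_eq]
    refine (key S _ _).2 (Units.ext ?_)
    have := Intw.diag_mul (a := fun i => θ (χ' i)) (b := χ)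
      (M := (gm (Algebra.ofId k S) (γ'⁻¹ * X.ρ k (Algebra.ofId k k) g * γ) : GL (Fin n) S))
      (fun a b e => by rw [gm_apply, hi a b e, map_zero]) fun x => τ (Multiplicative.ofAdd x)
    simp only [← e] at this
    exact this.symm

end Pool.Agent.RED
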