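import Pool.Agent.P.MP_6990a0_al.EL1
import Pool.Agent.P.MP_c1f06d_ag.g.HsMax

/-! A maximal split torus is a frame. -/

open WithConv Pool.Agent.GR Matrix

universe u

namespace Pool.Agent.RED

variable {k A : Type u} [Field k] [CommRing A] [HopfAlgebra k A] {n : ℕ} {H : HS k n}

theorem el2_ev {r : ℕ} (t : Pt k A (GA k (XL r))) {S : Type u} [CommRing S] [Algebra k S]
    (τ : Multiplicative (XL r) →* S) :
    Edif.ev t.ofConv τ = tev t (Algebra.ofId k S) τ.toHomUnits := by
  have : AddMonoidAlgebra.lift k S (XL r) τ = tl (Algebra.ofId k S) τ.toHomUnits :=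
    AddMonoidAlgebra.algHom_ext (fun m => by simp [chv]) (Subsingleton.elim _ _)
  rw [Edif.ev, this]
  rfl

/-- A diagonal torus with spanning weights is a torus of the group. -/
theorem exists_torus (X : Real k A H) {r : ℕ} {ψ : Fin n → XL r}
    (hs : Submodule.span ℤ (Set.range ψ) = ⊤) {t : Pt k A (GA k (XL r))} (h : X.Dg t ψ) :
    ∃ (h1 : Function.Surjective t.ofConv) (h2 : _),
      tpt (⟨r, t.ofConv, h1, h2⟩ : Edif.Torus k A) = t := by
  refine ⟨?_, fun S _ _ τ τ' => ?_, rfl⟩
  · let w := X.ρ A (Algebra.ofId k A) (toConv (AlgHom.id k A))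
    have e : gm t.ofConv w = rho k ψ := by
      have e0 := X.nat _ _ t.ofConv (Algebra.ofId k A) (toConv (AlgHom.id k A))
      rw [show t.ofConv.comp (Algebra.ofId k A) = cst k k (XL r) from Subsingleton.elim _ _] at e0
      exact e0.trans h
    have e' : gm t.ofConv w⁻¹ = (rho k ψ)⁻¹ := by rw [map_inv, e]
    have key : ∀ m ∈ Submodule.span ℤ (Set.range ψ),
        (AddMonoidAlgebra.single m 1 : GA k (XL r)) ∈ t.ofConv.range ∧
          (AddMonoidAlgebra.single (-m) 1 : GA k (XL r)) ∈ t.ofConv.range := by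
      intro m hm
      rw [← Submodule.mem_toAddSubgroup, Submodule.span_int_eq_addSubgroupClosure] at hm
      induction hm using AddSubgroup.closure_induction with
      | mem x hx =>
        obtain ⟨i, rfl⟩ := hx
        have h1 := congrArg (fun g : GL (Fin n) (GA k (XL r)) => g.val i i) e
        have h2 := congrArg (fun g : GL (Fin n) (GA k (XL r)) => g.val i i) e'
        refine ⟨⟨_, h1.trans ?_⟩, ⟨_, h2.trans ?_⟩⟩
        · exact diagonal_apply_eq _ i
        · exact diagonal_apply_eq _ i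
      | zero => rw [neg_zero, and_self]; exact one_mem _
      | add x y _ _ hx hy =>
        have h1 := mul_mem hx.1 hy.1
        have h2 := mul_mem hx.2 hy.2
        rw [AddMonoidAlgebra.single_mul_single, mul_one] at h1 h2
        rw [neg_add]
        exact ⟨h1, h2⟩
      | neg x _ hx => rw [neg_neg]; exact hx.symm
    intro f
    change f ∈ t.ofConv.range
    induction f using AddMonoidAlgebra.induction_on with
    | of m => exact (key m (by rw [hs]; trivial)).1
    | add f g hf hg => exact add_mem hf hg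
    | smul c f hf => exact Subalgebra.smul_mem _ hf c
  · rw [el2_ev, el2_ev, el2_ev, ← h.isHom]
    congr 1
    exact MonoidHom.ext fun m => Units.ext rfl

theorem el2_fix (X : Real k A H) {M : Type} [AddCommGroup M] {χ : Fin n → M} :
    H.Fixed χ (H.pt k) ↔ ∃ t : Pt k A (GA k M), X.Dg t χ := by
  unfold HS.Fixed HS.orb
  rw [H.pt_map]
  exact X.mem _ _

theorem frame_of_max (X : Real k A H) {T : Edif.Torus k A} (hT : T.IsMax) {χ : Fin n → XL T.r}
    (h : X.Dg (tpt T) χ) : H.Frame χ (H.pt k) := by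
  have hf : H.Fixed χ (H.pt k) := (el2_fix X).2 ⟨_, h⟩
  refine ⟨hf, fun q a hq ha => ?_⟩
  obtain ⟨s, ψ, f, f1, f2, f3, f4⟩ := lattice_step χ (span_of_dg X.toMRep T h) a
  have h1 : H.Fixed ψ (H.act q (H.pt k)) := HS.Fixed.pull f f1 (by
    have := ((hf.act hq).push (AddMonoidHom.inl _ ℤ)).plus (ha.push (AddMonoidHom.inr _ ℤ))
    simpa [f3] using this)
  have e1 : (H.rb q⁻¹).pt k = H.act q (H.pt k) := by
    rw [H.pt_rb, map_inv, inv_inv, show Algebra.ofId k k = AlgHom.id k k from
      Subsingleton.elim _ _, gm_id]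
  obtain ⟨t', ht'⟩ := (el2_fix (X.rb q⁻¹) (χ := ψ)).1 (by rw [e1]; exact h1)
  obtain ⟨o1, o2, -⟩ := exists_torus (X.rb q⁻¹) f2 ht'
  let p : XL s →+ XL T.r := (AddMonoidHom.fst _ ℤ).comp f
  let τ : TP (XL s) (GA k (XL T.r)) := (uT k (XL T.r)).comp p.toMultiplicative
  have e2 : tev t' (cst k k _) τ = tpt T := (X.rb q⁻¹).inj _ (cst k k _) (by
    have e3 : tp ψ τ = rho k χ := congrArg dgU (funext fun i =>
      congrArg (uu k) (congrArg Prod.fst (f3 i)))
    have e4 := rho_conj_of_inL (k := k) χ hq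
    rw [ht'.tev, e3, Real.rb_ρ, show X.ρ _ (cst k k _) (tpt T) = rho k χ from h, map_inv,
      inv_inv, eq_mul_inv_iff_mul_eq]
    exact mul_inv_eq_iff_eq_mul.1 e4)
  have e5 : ∀ b, T.t b = tl (cst k k _) τ (t'.ofConv b) := fun b =>
    (congrArg (fun x : Pt k A (GA k (XL T.r)) => x.ofConv b) e2).symm
  have hk := hT ⟨s, t'.ofConv, o1, o2⟩ fun b hb => by
    have hb' : t'.ofConv b = 0 := hb
    rw [RingHom.mem_ker, e5, hb', map_zero]
  have hp : Function.Injective p := (injective_iff_map_eq_zero p).2 fun m hm => by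
    obtain ⟨b, hb⟩ := o1 (AddMonoidAlgebra.single m 1 - 1)
    have e6 : chv τ m = 1 := congrArg Units.val ((congrArg (uu k) hm).trans (uT k _).map_one)
    have e7 : t'.ofConv b = 0 := hk (x := b) (by
      rw [RingHom.mem_ker, e5, hb, map_sub, tl_single, map_one, map_one, one_mul, e6, sub_self])
    rw [hb, sub_eq_zero] at e7
    exact AddMonoidAlgebra.single_left_injective one_ne_zero e7
  refine f4 ?_
  simpa using LinearMap.finrank_le_finrank_of_injective (f := p.toIntLinearMap) hp

end Pool.Agent.RED
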