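import Pool.Agent.P.MP_c1f06d_ag.g.HsConj

/-! The Bruhat decomposition for two frames. -/

open Matrix

universe u

namespace Pool.Agent.GR.HS

variable {k : Type u} [Field k] {n r r' : ℕ} {H : HS k n} {Ω : Type u} [Field Ω] [Algebra k Ω]
  {χ : Fin n → Fin r → ℤ} {χ' : Fin n → Fin r' → ℤ} {y : H.B →ₐ[k] Ω}

theorem el3_conj {A : Type u} [CommRing A] {a a' : Fin n → ℤ} {X M Y : Mat n A} (hX : Intw a a' X)
    (hM : InP a' M) (hY : Intw a' a Y) : InP a (X * M * Y) := fun i j h => by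
  rw [mul_apply]
  refine Finset.sum_eq_zero fun q _ => ?_
  by_cases hq : a' q = a j
  · rw [mul_apply, Finset.sum_eq_zero, zero_mul]
    intro p _
    by_cases hp : a i = a' p
    · rw [hM p q (by omega), mul_zero]
    · rw [hX i p hp, zero_mul]
  · rw [hY q j hq, mul_zero]

/-- The proof of `Frame.br` with its parabolic factors. -/
theorem Frame.br2 (F : H.Frame χ y) {μ a : Fin n → ℤ} (fμ : H.Fixed μ y)
    (hμ : ∀ i j, μ i = μ j → χ i = χ j) {β g : GL (Fin n) Ω} (hβ : H.Fixed a (H.act β⁻¹ y))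
    (hg : g ∈ H.St y) : ∃ a₀ : (Fin r → ℤ) →+ ℤ, ∃ p ∈ H.St y, ∃ m ∈ H.St y,
      InP μ (p : Mat n Ω) ∧ Intw (fun i => a₀ (χ i)) a ((m * β : GL (Fin n) Ω) : Mat n Ω) ∧
      InP a ((β⁻¹ * (m⁻¹ * p⁻¹ * g) * β : GL (Fin n) Ω) : Mat n Ω) := by
  classical
  obtain ⟨u, b, w, eg, hu, hb, -⟩ := bruhat μ a (fun _ => (0 : ℤ)) (g * β)
    fun _ _ h => absurd rfl h
  set a' : Fin n → ℤ := fun i => a (w.symm i) with ha'
  set yw := H.act (pmat Ω w) (H.act β⁻¹ y) with hyw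
  set b' := pmat Ω w * b * (pmat Ω w)⁻¹ with hb'
  have fw : H.Fixed a' yw := hβ.intw (intw_pmat a w)
  have pb : InP a' (b' : Mat n Ω) := inP_pmat_conj hb.1 w
  have eg' : g = u * pmat Ω w * b * β⁻¹ := by rw [← eg, mul_inv_cancel_right]
  have e0 : H.act u⁻¹ y = H.act b' yw := by
    have h : H.act g y = y := hg
    conv_lhs => rw [← h]
    rw [hyw, ← H.act_mul, ← H.act_mul, ← H.act_mul, hb', eg']
    congr 1
    group
  let C : Fin n → ℤ × ℤ := fun i => (μ i, a' i)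
  let M1 : AddSubmonoid (ℤ × ℤ) :=
    { carrier := {δ | 0 ≤ δ.1}
      add_mem' := fun {x y} (h : 0 ≤ x.1) (h' : 0 ≤ y.1) => add_nonneg h h'
      zero_mem' := le_refl (0 : ℤ) }
  let M2 : AddSubmonoid (ℤ × ℤ) :=
    { carrier := {δ | 0 ≤ δ.2}
      add_mem' := fun {x y} (h : 0 ≤ x.2) (h' : 0 ≤ y.2) => add_nonneg h h'
      zero_mem' := le_refl (0 : ℤ) }
  have m1 : ∀ δ, δ ∈ M1 ↔ 0 ≤ δ.1 := fun _ => Iff.rfl
  have m2 : ∀ δ, δ ∈ M2 ↔ 0 ≤ δ.2 := fun _ => Iff.rfl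
  have k1 : ∀ p : Mat n Ω, InP μ p → ∀ i j, C i - C j ∉ M1 → p i j = 0 :=
    fun p hp i j h => hp i j (by simpa [m1, C] using h)
  have k2 : ∀ p : Mat n Ω, InP a' p → ∀ i j, C i - C j ∉ M2 → p i j = 0 :=
    fun p hp i j h => hp i j (by simpa [m2, C] using h)
  have f1 : H.Fixed (fun i => ((μ i, 0) : ℤ × ℤ)) y := fμ.push (AddMonoidHom.inl ℤ ℤ)
  have f2 : H.Fixed (fun i => ((0, a' i) : ℤ × ℤ)) yw := fw.push (AddMonoidHom.inr ℤ ℤ)
  obtain ⟨p, hp, hp1, -⟩ := H.attr C (M1 ⊓ M2) (AddMonoidHom.fst ℤ ℤ + AddMonoidHom.snd ℤ ℤ)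
    (fun δ hδ h0 => by
      have h1 : 0 ≤ δ.1 := hδ.1
      have h4 : 0 ≤ δ.2 := hδ.2
      show 1 ≤ δ.1 + δ.2
      by_contra h
      exact h0 (Prod.ext (show δ.1 = 0 by omega) (show δ.2 = 0 by omega)))
    (H.act u⁻¹ y) (fun δ hδ x => by
      by_cases h : δ ∈ M1
      · rw [e0]
        exact f2.supp M2 (fun i => by simp [m2, C]) (fun i => by simp [m2, C]) b' (k2 _ pb)
          (k2 _ pb.inv) δ (fun h' => hδ ⟨h, h'⟩) x
      · exact f1.supp M1 (fun i => by simp [m1, C]) (fun i => by simp [m1, C]) u⁻¹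
          (k1 _ hu.1.inv) (k1 _ hu.1.inv.inv) δ h x)
  have hp0 : ∀ i j, C i - C j ∉ M1 ⊓ M2 → (p : Mat n Ω) i j = 0 := fun i j h => by
    have h1 := hp1 i j (Or.inl h)
    have h2 : i ≠ j := fun e => h (by rw [e, sub_self]; exact zero_mem _)
    rwa [Matrix.sub_apply, one_apply_ne h2, sub_zero] at h1
  have pμ : InP μ (p : Mat n Ω) := fun i j h => hp0 i j fun h' =>
    absurd ((m1 _).1 h'.1) (by simpa [C] using h)
  have pa : InP a' (p : Mat n Ω) := fun i j h => hp0 i j fun h' =>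
    absurd ((m2 _).1 h'.2) (by simpa [C] using h)
  have g1 : H.Fixed μ (H.act p (H.act u⁻¹ y)) := hp.push (AddMonoidHom.fst ℤ ℤ)
  have g2 : H.Fixed a' (H.act p (H.act u⁻¹ y)) := hp.push (AddMonoidHom.snd ℤ ℤ)
  have pq1 : InP μ ((p * u⁻¹ : GL (Fin n) Ω) : Mat n Ω) := pμ.mul hu.1.inv
  have pq2 : InP a' ((p * b' : GL (Fin n) Ω) : Mat n Ω) := pa.mul pb
  obtain ⟨q1, hq1, -, e1⟩ := H.lim μ fμ g1 (p * u⁻¹) pq1 pq1.inv (H.act_mul _ _ _)
  obtain ⟨q2, hq2, -, e2⟩ := H.lim a' fw g2 (p * b') pq2 pq2.inv (by rw [H.act_mul, ← e0])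
  have l0 : InL μ (q1 : Mat n Ω) := hq1 ▸ lv_inL_self μ _
  have l1 : InL χ (q1 : Mat n Ω) := fun i j h => l0 i j fun e => h (hμ i j e)
  have i2 : Intw a' a' (q2 : Mat n Ω) := hq2 ▸ lv_inL_self a' _
  obtain ⟨a₀, ha₀⟩ := F.zt q1 a' l1 (e1 ▸ g2)
  refine ⟨a₀, (p * u⁻¹)⁻¹ * q1, ?_, q1⁻¹ * q2 * pmat Ω w * β⁻¹, ?_, ?_, ?_, ?_⟩
  · show H.act _ y = y
    rw [H.act_mul, e1, ← H.act_mul p, H.act_inv_act]
  · show H.act _ y = y
    rw [H.act_mul, H.act_mul, H.act_mul, ← hyw, e2, ← e1, H.act_inv_act]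
  · exact pq1.inv.mul fun i j h => l0 i j h.ne
  · have i1 : Intw (fun i => a₀ (χ i)) (fun i => a₀ (χ i)) ((q1⁻¹ : GL (Fin n) Ω) : Mat n Ω) :=
      Intw.comp (a := χ) (b := χ) l1.inv a₀
    have e3 : (fun i => a₀ (χ i)) = a' := (funext ha₀).symm
    rw [inv_mul_cancel_right, Units.val_mul, Units.val_mul]
    rw [e3] at i1 ⊢
    exact (i1.mul i2).mul (intw_pmat a w)
  · have e4 : β⁻¹ * ((q1⁻¹ * q2 * pmat Ω w * β⁻¹)⁻¹ * ((p * u⁻¹)⁻¹ * q1)⁻¹ * g) * β =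
        (q2 * pmat Ω w)⁻¹ * p * pmat Ω w * b := by
      rw [eg']
      group
    have i3 : Intw a' a ((q2 * pmat Ω w : GL (Fin n) Ω) : Mat n Ω) := i2.mul (intw_pmat a w)
    rw [e4, Units.val_mul, Units.val_mul, Units.val_mul]
    exact (el3_conj i3.inv pa (intw_pmat a w)).mul hb.1

theorem Frame.fr2 (F : H.Frame χ' y) {s : GL (Fin n) Ω} (hfix : H.Fixed χ (H.act s y))
    {ι : Type} {c c' : Fin n → ι} (hs : Intw c c' (s : Mat n Ω))
    (hc : ∀ i j, χ i = χ j → c i = c j) (hc' : ∀ i j, c' i = c' j → χ' i = χ' j) :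
    ∃ e : (Fin r' → ℤ) →+ (Fin r → ℤ), Intw χ (fun j => e (χ' j)) (s : Mat n Ω) := by
  classical
  have hI := (idem_eps (A := Ω) χ).conj' s⁻¹
  rw [inv_inv] at hI
  obtain ⟨β, a, hβ, hβ', haS, hd⟩ := diag_idem hI (c := χ') fun m _ i j e =>
    ((hs.inv.mul (intw_diagonal c _)).mul hs) i j fun e' => e (hc' i j e')
  have i1 : Intw χ a ((s * β : GL (Fin n) Ω) : Mat n Ω) :=
    intw_of_eps fun j => by
      rw [← hd _ (haS j), Units.val_mul]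
      simp only [Matrix.mul_assoc, Units.mul_inv_cancel_left]
  have fa : H.Fixed a (H.act β⁻¹ y) := by
    have := hfix.intw i1.inv
    rwa [_root_.mul_inv_rev, H.act_mul, H.act_inv_act] at this
  choose a₀ ha₀ using fun l : Fin r =>
    F.zt β⁻¹ (fun i => a i l) hβ' (fa.push (Pi.evalAddMonoidHom (fun _ => ℤ) l))
  have ea : a = fun j => AddMonoidHom.pi a₀ (χ' j) := funext fun j => funext fun l => ha₀ l j
  refine ⟨AddMonoidHom.pi a₀, ?_⟩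
  have i2 := (ea ▸ i1).mul (Intw.comp (a := χ') (b := χ') hβ' (AddMonoidHom.pi a₀))
  rwa [← Units.val_mul, mul_inv_cancel_right] at i2

theorem exists_refine (χ : Fin n → Fin r → ℤ) (ν : (Fin r → ℤ) →+ ℤ) :
    ∃ μ : (Fin r → ℤ) →+ ℤ, (∀ i j, μ (χ i) = μ (χ j) → χ i = χ j) ∧
      ∀ i j, ν (χ i) < ν (χ j) → μ (χ i) < μ (χ j) := by
  obtain ⟨μ, hμ⟩ := exists_add_sep (XX χ)
  have hμ' : ∀ i j, μ (χ i) = μ (χ j) → χ i = χ j := fun i j => hμ _ (chi_XX χ i) _ (chi_XX χ j)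
  obtain ⟨K, hK⟩ : ∃ K : ℤ, ∀ i j, μ (χ i) - μ (χ j) < K := by
    obtain ⟨K, hK⟩ := (Set.finite_range fun p : Fin n × Fin n => μ (χ p.1) - μ (χ p.2)).bddAbove
    exact ⟨K + 1, fun i j => Int.lt_add_one_of_le (hK ⟨(i, j), rfl⟩)⟩
  have hlt : ∀ i j, ν (χ i) < ν (χ j) → (K • ν + μ) (χ i) < (K • ν + μ) (χ j) := fun i j h => by
    have h1 := hK i j
    have h2 := hK i i
    simp only [AddMonoidHom.add_apply, AddMonoidHom.smul_apply, smul_eq_mul]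
    nlinarith
  refine ⟨K • ν + μ, fun i j h => ?_, hlt⟩
  rcases lt_trichotomy (ν (χ i)) (ν (χ j)) with e | e | e
  · exact absurd h (hlt i j e).ne
  · exact hμ' i j (by simpa [e] using h)
  · exact absurd h (hlt j i e).ne'

theorem Frame.brm (F : H.Frame χ y) {β : GL (Fin n) Ω} (F' : H.Frame χ' (H.act β⁻¹ y))
    (hs : Submodule.span ℤ (Set.range χ) = ⊤) (hs' : Submodule.span ℤ (Set.range χ') = ⊤)
    (a : (Fin r → ℤ) →+ ℤ) (a' : (Fin r' → ℤ) →+ ℤ) {g : GL (Fin n) Ω} (hg : g ∈ H.St y) :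
    ∃ p ∈ H.St y, ∃ m ∈ H.St y, ∃ q ∈ H.St y, g = p * m * q ∧
      InP (fun i => a (χ i)) (p : Mat n Ω) ∧
      InP (fun i => a' (χ' i)) ((β⁻¹ * q * β : GL (Fin n) Ω) : Mat n Ω) ∧
      ∃ e : (Fin r → ℤ) ≃+ (Fin r' → ℤ),
        Intw (fun i => e (χ i)) χ' ((m * β : GL (Fin n) Ω) : Mat n Ω) := by
  obtain ⟨μ, hμ, hlt⟩ := exists_refine χ a
  obtain ⟨μ', hμ', hlt'⟩ := exists_refine χ' a'
  obtain ⟨a₀, p, hp, m, hm, h1, h2, h3⟩ := F.br2 (F.fix.push μ) hμ (F'.fix.push μ') hg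
  have hm' : H.act m y = y := hm
  obtain ⟨e', he'⟩ := F'.fr2 (χ := χ) (s := m * β)
    (by rw [H.act_mul, H.act_act_inv, hm']; exact F.fix) h2 (fun i j h => congrArg a₀ h) hμ'
  obtain ⟨e, he⟩ := F.fr2 (χ := χ') (s := (m * β)⁻¹)
    (by rw [_root_.mul_inv_rev, H.act_mul, show H.act m⁻¹ y = y from inv_mem hm]; exact F'.fix)
    he'.inv (fun i j h => congrArg e' h) fun _ _ h => h
  have he2 := he.inv
  rw [inv_inv] at he2
  have l1 : e'.comp e = AddMonoidHom.id _ := add_ext_chi hs fun i => by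
    obtain ⟨j, hj⟩ := exists_row (m * β) i
    have h4 : χ i = e' (χ' j) := by_contra fun h => hj (he' i j h)
    have h5 : e (χ i) = χ' j := by_contra fun h => hj (he2 i j h)
    rw [AddMonoidHom.comp_apply, h5, ← h4, AddMonoidHom.id_apply]
  have l2 : e.comp e' = AddMonoidHom.id _ := add_ext_chi hs' fun j => by
    obtain ⟨i, hi⟩ := exists_col (m * β) j
    have h4 : χ i = e' (χ' j) := by_contra fun h => hi (he' i j h)
    have h5 : e (χ i) = χ' j := by_contra fun h => hi (he2 i j h)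
    rw [AddMonoidHom.comp_apply, ← h4, h5, AddMonoidHom.id_apply]
  refine ⟨p, hp, m, hm, m⁻¹ * p⁻¹ * g, mul_mem (mul_mem (inv_mem hm) (inv_mem hp)) hg, by group,
    fun i j h => h1 i j (hlt i j h), fun i j h => h3 i j (hlt' i j h),
    ⟨⟨e, e', DFunLike.congr_fun l1, DFunLike.congr_fun l2⟩, e.map_add⟩, he2⟩

end Pool.Agent.GR.HS
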