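import Pool.Agent.P.MP_6990a0_al.EL1
import Pool.Agent.P.MP_c1f06d_ag.g.Root
import Pool.Agent.P.MP_c1f06d_ag.g.Chart

/-! Roots, and the parabolic subgroup of a cocharacter. -/

open WithConv Pool.Agent.GR Matrix

universe u

namespace Pool.Agent.RED

variable {k A : Type u} [Field k] [CommRing A] [HopfAlgebra k A] {n : ℕ} {H : HS k n}
  {S : Type u} [CommRing S] [Algebra k S]

theorem isRoot_iff (T : Edif.Torus k A) {ι : Type} {deg : ι → XL T.r} (hw : Wts (tpt T) deg)
    (a : XL T.r) : T.IsRoot a ↔ a ∈ Set.range deg := by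
  classical
  constructor
  · rintro ⟨ha, ξ, h1, h2, h3⟩
    by_contra hn
    let D := DualNumber k
    let φ' : D →ₐ[k] GA D (XL T.r) := DualNumber.lift
      ⟨(Algebra.ofId k _, AddMonoidAlgebra.single a DualNumber.eps), by
        show AddMonoidAlgebra.single a DualNumber.eps * AddMonoidAlgebra.single a DualNumber.eps = 0
        rw [AddMonoidAlgebra.single_mul_single, DualNumber.eps_mul_eps,
          AddMonoidAlgebra.single_zero], fun _ => Commute.all _ _⟩
    have e := h3 (GA D (XL T.r)) ((Units.coeHom _).comp (uT D (XL T.r))) (cst k D _) φ' (by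
      show Algebra.ofId k _ 0 + Algebra.ofId k _ 1 * AddMonoidAlgebra.single a DualNumber.eps =
        AddMonoidAlgebra.single a 1 * AddMonoidAlgebra.single 0 DualNumber.eps
      rw [map_zero, map_one, zero_add, one_mul, AddMonoidAlgebra.single_mul_single, add_zero,
        one_mul])
    rw [← tev_eq] at e
    have ec : cj (tpt T) (Algebra.ofId k D) ξ = pm φ' ξ := by
      rw [cj_eq, show (cst k D (XL T.r)).comp (Algebra.ofId k D) = Algebra.ofId k _ from
        Subsingleton.elim _ _]
      exact mul_inv_eq_of_eq_mul e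
    have ef : ∀ b, (ξ.ofConv b).fst = Coalgebra.counit (R := k) b := fun b =>
      congrArg (fun x : Pt k A k => x.ofConv b) h2
    have co : ∀ b, (cj (tpt T) (Algebra.ofId k D) ξ).ofConv b =
        AddMonoidAlgebra.single 0 (algebraMap k D (Coalgebra.counit (R := k) b)) +
          AddMonoidAlgebra.single a (algebraMap k D (ξ.ofConv b).snd * DualNumber.eps) := by
      intro b
      rw [ec, pm_apply, ← ef]
      show AddMonoidAlgebra.single 0 (algebraMap k D (ξ.ofConv b).fst) +
        AddMonoidAlgebra.single 0 (algebraMap k D (ξ.ofConv b).snd) *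
          AddMonoidAlgebra.single a DualNumber.eps = _
      rw [AddMonoidAlgebra.single_mul_single, zero_add]
    have hp : ∀ b, ∀ m' ≠ 0, m' ≠ a →
        ((cj (tpt T) (Algebra.ofId k D) ξ).ofConv b).coeff m' = 0 := fun b m' e0 e1 => by
      rw [co]
      simp [e0.symm, e1.symm]
    refine h1 (Wts.tangent (isHom_tpt T) hw (TrivSqZeroExt.fstHom k k k) ?_ h2 ha
      ⟨fun b m hm => hp b m ?_ ?_, fun b => ?_⟩ hp fun i hi => hn ⟨i, hi⟩)
    · rw [pow_two, eq_bot_iff, Ideal.mul_le]
      intro x hx y hy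
      have hx' : x.fst = 0 := hx
      have hy' : y.fst = 0 := hy
      exact (Submodule.mem_bot _).2 (TrivSqZeroExt.ext (by simp [hx']) (by simp [hx', hy']))
    · rintro rfl
      exact hm (zero_mem _)
    · rintro rfl
      exact hm (self_mem_ray _)
    · rw [co, one_apply]
      simp [ha]
      rfl
  · rintro ⟨i, rfl⟩
    obtain ⟨Y, hY⟩ := hw.2 _ (pos_ray (hw.1 i))
    let i' : {j // deg j ∈ ray (deg i)} := ⟨i, self_mem_ray _⟩
    refine ⟨hw.1 i, xev Y (Algebra.ofId k _) (Pi.single i' DualNumber.eps), fun e => ?_, ?_,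
      fun S _ _ τ φ φ' e => ?_⟩
    · have := congrFun ((hY.bij _ _).injOn (Set.mem_univ _) (Set.mem_univ _)
        (e.trans (hY.zero _ _).symm)) i'
      have := congrArg TrivSqZeroExt.snd this
      simp at this
    · refine (pm_xev Y _ _ _).trans (Eq.trans ?_ (hY.zero k (Algebra.ofId k k)))
      congr 1
      funext j
      by_cases h : j = i'
      · subst h
        simp
      · simp [h]
    · have e1 := hY.eqv S (Algebra.ofId k S) τ.toHomUnits fun j => φ (Pi.single (M := fun _ =>
        DualNumber k) i' DualNumber.eps j)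
      rw [ev_eq]
      refine Eq.trans ?_ ((eq_mul_of_mul_inv_eq e1).trans ?_)
      · congr 1
        refine (pm_xev Y _ _ _).trans ?_
        congr 1
        exact Subsingleton.elim _ _
      · congr 1
        refine Eq.trans ?_ (pm_xev Y _ _ _).symm
        congr 1
        · exact Subsingleton.elim _ _
        · funext j
          by_cases h : j = i'
          · subst h
            simp only [Pi.single_eq_same]
            exact e.symm
          · simp [h]

theorem inP_iff (X : Real k A H) (T : Edif.Torus k A) {χ : Fin n → XL T.r}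
    (h : X.Dg (tpt T) χ) (l : Fin T.r → ℤ) (g : Pt k A S) :
    T.InP l g ↔ InP (fun i => χ i ⬝ᵥ l) (X.ρ S (Algebra.ofId k S) g : Mat n S) := by
  let c : S →ₐ[k] LaurentPolynomial S := IsScalarTower.toAlgHom k S _
  let f : Polynomial S →ₐ[k] LaurentPolynomial S := Polynomial.toLaurentAlg.restrictScalars k
  have key : ∀ τ : Multiplicative (XL T.r) →* LaurentPolynomial S,
      (∀ m, τ (Multiplicative.ofAdd m) = LaurentPolynomial.T (m ⬝ᵥ l)) → ∀ a b,
      (X.ρ _ (Algebra.ofId k _) (Edif.ev T.t τ * pm c g * (Edif.ev T.t τ)⁻¹) :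
        Mat n (LaurentPolynomial S)) a b = LaurentPolynomial.C
          ((X.ρ S (Algebra.ofId k S) g : Mat n S) a b) *
            LaurentPolynomial.T (χ a ⬝ᵥ l - χ b ⬝ᵥ l) := by
    intro τ hτ a b
    have e3 := X.nat _ _ c (Algebra.ofId k S) g
    rw [show c.comp (Algebra.ofId k S) = Algebra.ofId k _ from Subsingleton.elim _ _] at e3
    rw [map_mul, map_mul, map_inv, ev_eq, h.tev, ← e3]
    show (diagonal (fun i => τ (Multiplicative.ofAdd (χ i))) *
      (X.ρ S (Algebra.ofId k S) g : Mat n S).map c *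
        diagonal fun i => τ (Multiplicative.ofAdd (-χ i))) a b = _
    rw [mul_diagonal, diagonal_mul, map_apply, hτ, hτ, neg_dotProduct, LaurentPolynomial.T_sub,
      mul_comm (LaurentPolynomial.T _), mul_assoc]
    rfl
  constructor
  · rintro ⟨τ, y, hτ, e⟩ a b hab
    have e1 : Edif.ev T.t τ * pm c g * (Edif.ev T.t τ)⁻¹ = pm f y := mul_inv_eq_of_eq_mul e
    have e2 := key τ hτ a b
    have e3 := X.nat _ _ f (Algebra.ofId k _) y
    rw [show f.comp (Algebra.ofId k _) = Algebra.ofId k _ from Subsingleton.elim _ _] at e3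
    rw [e1, ← e3, gm_apply] at e2
    have e4 := congrArg (fun z : LaurentPolynomial S => z.coeff (χ a ⬝ᵥ l - χ b ⬝ᵥ l)) e2
    rw [← LaurentPolynomial.single_eq_C_mul_T, AddMonoidAlgebra.coeff_single,
      Finsupp.single_eq_same] at e4
    rw [← e4]
    refine (congrArg (fun z : ℤ →₀ S => z _) (LaurentPolynomial.coeff_toLaurent _)).trans ?_
    refine Finsupp.mapDomain_of_notMem_range _ _ ?_
    rintro ⟨m, hm⟩
    have : (χ a ⬝ᵥ l : ℤ) < χ b ⬝ᵥ l := hab
    have hm' : (m : ℤ) = χ a ⬝ᵥ l - χ b ⬝ᵥ l := hm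
    omega
  · intro hg
    let τ : Multiplicative (XL T.r) →* LaurentPolynomial S :=
      { toFun := fun m => LaurentPolynomial.T (m.toAdd ⬝ᵥ l)
        map_one' := by simp
        map_mul' := fun a b => by rw [toAdd_mul, add_dotProduct, LaurentPolynomial.T_add] }
    let W := X.ρ _ (Algebra.ofId k _) (Edif.ev T.t τ * pm c g * (Edif.ev T.t τ)⁻¹)
    let N : Mat n (Polynomial S) := of fun a b => Polynomial.C
      ((X.ρ S (Algebra.ofId k S) g : Mat n S) a b) * Polynomial.X ^ (χ a ⬝ᵥ l - χ b ⬝ᵥ l).toNat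
    have e : f.mapMatrix N = (W : Mat n (LaurentPolynomial S)) := Matrix.ext fun a b => by
      refine Eq.trans ?_ (key τ (fun _ => rfl) a b).symm
      refine (Polynomial.toLaurent_C_mul_X_pow _ _).trans ?_
      rcases lt_or_ge (χ a ⬝ᵥ l) (χ b ⬝ᵥ l) with hab | hab
      · rw [hg a b hab, map_zero, zero_mul, zero_mul]
      · rw [Int.toNat_of_nonneg (sub_nonneg.2 hab)]
    have e3 := X.nat _ _ c (Algebra.ofId k S) g
    rw [show c.comp (Algebra.ofId k S) = Algebra.ofId k _ from Subsingleton.elim _ _] at e3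
    have hd : N.det = Polynomial.C (X.ρ S (Algebra.ofId k S) g : Mat n S).det :=
      Polynomial.toLaurent_injective (by
        have := f.map_det N
        rw [e, show W = _ from (map_mul _ _ _).trans (congrArg₂ _ (map_mul _ _ _) (map_inv _ _)),
          Units.val_mul, Units.val_mul, det_units_conj, ← e3] at this
        rw [Polynomial.toLaurent_C]
        exact this.trans (c.map_det _).symm)
    obtain ⟨N', hN⟩ : IsUnit N := (isUnit_iff_isUnit_det _).2
      (hd ▸ ((isUnit_iff_isUnit_det _).1 (X.ρ S _ g).isUnit).map Polynomial.C)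
    have ef : f.comp (Algebra.ofId k _) = Algebra.ofId k _ := Subsingleton.elim _ _
    have e' : W = gm f N' := Units.ext (by rw [← e, ← hN]; rfl)
    obtain ⟨y, hy⟩ := X.sat f Polynomial.toLaurent_injective (Algebra.ofId k _) (g := N')
      ⟨_, by rw [ef]; exact e'⟩
    refine ⟨τ, y, fun _ => rfl, eq_mul_of_mul_inv_eq (X.inj _ (Algebra.ofId k _) ?_)⟩
    have e4 := X.nat _ _ f (Algebra.ofId k _) y
    rw [ef, hy] at e4
    exact e'.trans e4

theorem exists_root_elt (X : Real k A H) {r : ℕ} {t : Pt k A (GA k (XL r))} {χ : Fin n → XL r}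
    (h : X.Dg t χ) {ι : Type} {deg : ι → XL r} (hw : Wts t deg) (i : ι) :
    ∃ u : Pt k A k, ∀ v : Fin r → ℝ,
      TriR (rwt χ v) (rwt χ v) (X.ρ k (Algebra.ofId k k) u : Mat n k) ↔
        0 ≤ ∑ s, (deg i s : ℝ) * v s := by
  classical
  have hΛ := pos_ray (hw.1 i)
  obtain ⟨Y, hY⟩ := hw.2 _ hΛ
  let i' : {j // deg j ∈ ray (deg i)} := ⟨i, self_mem_ray _⟩
  let u := xev Y (Algebra.ofId k k) (Pi.single i' 1)
  have hu := (Real.inU_iff h hΛ).1 ((hY.bij k (Algebra.ofId k k)).mapsTo (Set.mem_univ
    (Pi.single i' 1)))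
  have key : ∀ (v : Fin r → ℝ) (a b : Fin n) (p q : ℕ), q • (χ a - χ b) = p • deg i →
      q * (rwt χ v a - rwt χ v b) = p * ∑ s, (deg i s : ℝ) * v s := by
    intro v a b p q e
    simp only [rwt, ← Finset.sum_sub_distrib, Finset.mul_sum]
    refine Finset.sum_congr rfl fun s _ => ?_
    have := congrArg (Int.cast : ℤ → ℝ) (congrFun e s)
    simp only [Pi.smul_apply, Pi.sub_apply, nsmul_eq_mul, Int.cast_mul, Int.cast_natCast,
      Int.cast_sub] at this
    rw [← sub_mul, ← mul_assoc, this, mul_assoc]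
  refine ⟨u, fun v => ⟨fun hT => ?_, fun hv a b hab => ?_⟩⟩
  · by_contra hv
    have hv := not_le.1 hv
    have e : u = 1 := X.inj k (Algebra.ofId k k) (Units.ext (by
      rw [map_one, Units.val_one, ← sub_eq_zero]
      ext a b
      by_cases h1 : χ a - χ b ∉ ray (deg i) ∨ χ a = χ b
      · exact hu a b h1
      obtain ⟨h1, h2⟩ := not_or.1 h1
      obtain ⟨p, q, hq, e⟩ := not_not.1 h1
      have hp : p ≠ 0 := by
        rintro rfl
        rw [zero_smul, smul_eq_zero] at e
        exact e.elim hq.ne' fun e => h2 (sub_eq_zero.1 e)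
      have h3 := key v a b p q e
      have h4 : rwt χ v a - rwt χ v b < 0 := by
        by_contra h5
        have h6 := mul_nonneg (Nat.cast_nonneg q : (0 : ℝ) ≤ q) (not_lt.1 h5)
        rw [h3] at h6
        exact absurd h6 (not_le.2
          (mul_neg_of_pos_of_neg (Nat.cast_pos.2 (Nat.pos_of_ne_zero hp)) hv))
      rw [Matrix.sub_apply, hT a b (sub_neg.1 h4), one_apply_ne (by rintro rfl; exact h2 rfl),
        sub_zero, Matrix.zero_apply]))
    have := congrFun ((hY.bij _ _).injOn (Set.mem_univ _) (Set.mem_univ _)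
      (e.trans (hY.zero _ _).symm)) i'
    simp at this
  · have := hu a b (Or.inl (by
      rintro ⟨p, q, hq, e⟩
      have h3 := key v a b p q e
      have h4 := mul_neg_of_pos_of_neg (Nat.cast_pos.2 hq : (0 : ℝ) < q) (sub_neg.2 hab)
      exact absurd (h3 ▸ h4) (not_lt.2 (mul_nonneg (Nat.cast_nonneg p) hv))))
    rwa [Matrix.sub_apply, one_apply_ne (by rintro rfl; exact lt_irrefl _ hab), sub_zero] at this

end Pool.Agent.RED
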