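import Pool.Agent.P.MP_6990a0_al.EL4
import Pool.Agent.P.MP_6990a0_al.EK
import Pool.Agent.P.MP_c1f06d_ag.g.Cell
import Pool.Agent.P.MP_c1f06d_ag.g.PreOk

/-! The parabolic subgroup depends only on the signs of the roots. -/

open WithConv Pool.Agent.GR Matrix Pool.Agent.P.MP_6990a0_al
open scoped TensorProduct

universe u

namespace Pool.Agent.RED

variable {k A : Type u} [Field k] [CommRing A] [HopfAlgebra k A] [Algebra.Smooth k A]
  [IsDomain (k ⊗[k] A)] {n : ℕ} {H : HS k n} {S : Type u} [CommRing S] [Algebra k S]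
  {r : ℕ} {t : Pt k A (GA k (XL r))} {χ : Fin n → XL r} {ι : Type} [Finite ι] {deg : ι → XL r}

omit [Algebra.Smooth k A] [IsDomain (k ⊗[k] A)] in
/-- The torus pushed along a cocharacter. -/
theorem el5_push (X : Real k A H) (h : X.Dg t χ) (l : XL r →+ ℤ) :
    ∃ s : Pt k A (GA k ℤ), X.Dg s fun i => l (χ i) :=
  ⟨tev t (cst k k ℤ) ((uT k ℤ).comp l.toMultiplicative), h.tev _ _⟩

omit [Algebra.Smooth k A] [IsDomain (k ⊗[k] A)] [Finite ι] in
theorem el5_unip (X : Real k A H) (h : X.Dg t χ) (hw : Wts t deg) {l l' μ : XL r →+ ℤ}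
    (hl : ∀ i, l (deg i) = 0 → l' (deg i) = 0) {j : k →ₐ[k] S} {g : Pt k A S}
    (hu : InU (hs μ) t j g) (hg : InL (fun i => l (χ i)) (X.ρ S j g : Mat n S)) :
    InL (fun i => l' (χ i)) (X.ρ S j g : Mat n S) := by
  have hp : Pos (hs μ ⊓ AddMonoidHom.mker l) := (pos_hs μ).mono inf_le_left
  have h1 := (Real.inU_iff h (pos_hs μ)).1 hu
  have h2 : InU (hs μ ⊓ AddMonoidHom.mker l) t j g := (Real.inU_iff h hp).2 fun a b e => by
    by_cases e' : l (χ a) = l (χ b)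
    · refine h1 a b (e.imp_left fun e1 e2 => e1 ⟨e2, ?_⟩)
      show l (χ a - χ b) = 0
      rw [map_sub, e', sub_self]
    · rw [Matrix.sub_apply, hg a b e', one_apply_ne fun e1 => e' (by rw [e1]), sub_zero]
  have h3 := hw.inU_of (Λ := AddMonoidHom.mker l') hp (fun i hi => hl i hi.2) h2
  exact fun a b e => h.of_inG h3.1 a b fun e' => e (sub_eq_zero.1 ((map_sub l' _ _).symm.trans e'))

omit [IsDomain (k ⊗[k] A)] in
theorem el5_loc (X : Real k A H) (h : X.Dg t χ) (hw : Wts t deg) {l l' : XL r →+ ℤ}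
    (hl : ∀ i, l (deg i) = 0 → l' (deg i) = 0) [IsLocalRing S] (e : S →ₐ[k] k) {j : k →ₐ[k] S}
    {g : Pt k A S} (he : pm e g = 1) (hg : InL (fun i => l (χ i)) (X.ρ S j g : Mat n S)) :
    InL (fun i => l' (χ i)) (X.ρ S j g : Mat n S) := by
  classical
  obtain ⟨μ, hμ⟩ : ∃ μ : XL r →+ ℤ, ∀ i, μ (deg i) ≠ 0 := by
    rcases isEmpty_or_nonempty ι with _ | ⟨⟨i₀⟩⟩
    · exact ⟨0, fun i => isEmptyElim i⟩
    · have := Fintype.ofFinite ι
      obtain ⟨l, -, hl⟩ := exists_generic (Finset.univ.image deg) (fun m hm => by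
        obtain ⟨i, -, rfl⟩ := Finset.mem_image.1 hm
        exact hw.1 i) (hw.1 i₀)
      exact ⟨l, fun i => hl _ (Finset.mem_image_of_mem _ (Finset.mem_univ i))⟩
  have hs' : Function.Surjective e := fun c => ⟨algebraMap k S c, e.commutes c⟩
  obtain ⟨v, z, w, hv, hz, hw', eg⟩ := inCell_of_points (j := j) h.isHom hw hμ g fun m hm =>
    ⟨k, inferInstance, inferInstance, inferInstance, e, fun x hx => by
      have h1 : (RingHom.ker e).IsMaximal := RingHom.ker_isMaximal_of_surjective e hs'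
      rw [IsLocalRing.eq_maximalIdeal hm, ← IsLocalRing.eq_maximalIdeal h1] at hx
      exact hx, he ▸ RED.X.cel_one InG.one⟩
  have cU : ∀ {ν : XL r →+ ℤ} {x : Pt k A S}, InU (hs ν) t j x →
      GR.InU (fun i => ν (χ i)) (X.ρ S j x : Mat n S) := fun {ν x} hx =>
    inU_iff.2 fun a b e => (Real.inU_iff h (pos_hs ν)).1 hx a b (by
      by_cases e' : χ a = χ b
      · exact Or.inr e'
      · refine Or.inl fun e1 => e1.elim (fun e2 => e' (sub_eq_zero.1 e2)) fun e2 => ?_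
        rw [map_sub] at e2
        omega)
  have cz : ∀ ν : XL r →+ ℤ, InL (fun i => ν (χ i)) (X.ρ S j z : Mat n S) := fun ν a b e =>
    h.of_inG hz a b fun e' => e (congrArg ν (sub_eq_zero.1 e'))
  have h1 : InL (fun i => l (χ i)) (X.ρ S j v⁻¹ : Mat n S) :=
    lu_inL (a := fun i => μ (χ i)) hg (cU (hv.inv (pos_hs _))) (by
      rw [← map_mul, eg, mul_assoc, inv_mul_cancel_left, map_mul]
      exact (cz μ).inP.mul (cU hw').1)
  have h2 : InL (fun i => l (χ i)) (X.ρ S j v : Mat n S) := by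
    have := h1.inv
    rwa [← map_inv, inv_inv] at this
  have h3 : InL (fun i => l (χ i)) (X.ρ S j w : Mat n S) := by
    have e3 : w = z⁻¹ * (v⁻¹ * g) := by rw [eg]; group
    rw [e3, map_mul, map_mul, map_inv]
    exact (cz l).inv.mul (h1.mul hg)
  rw [eg, map_mul, map_mul]
  exact ((el5_unip X h hw hl hv h2).mul (cz l')).mul (el5_unip X h hw hl hw' h3)

theorem mono_Z (X : Real k A H) (h : X.Dg t χ) (hw : Wts t deg) {l l' : XL r →+ ℤ}
    (hl : ∀ i, l (deg i) = 0 → l' (deg i) = 0) {g : Pt k A S}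
    (hg : InL (fun i => l (χ i)) (X.ρ S (Algebra.ofId k S) g : Mat n S)) :
    InL (fun i => l' (χ i)) (X.ρ S (Algebra.ofId k S) g : Mat n S) := by
  obtain ⟨s, hs'⟩ := el5_push X h l
  obtain ⟨m, d, hd⟩ := exists_wts hs'.isHom
  obtain ⟨C, _, _, jC, u, hC⟩ := exists_repZ hs'.isHom
  have : IsDomain C := Rep.isDomain_Z hs'.isHom hd hC
  obtain ⟨φ₀, -, h0⟩ := (hC.mem k (AlgHom.id k k) 1).1 InG.one
  have : (RingHom.ker φ₀).IsPrime := RingHom.ker_isPrime φ₀
  let L := Localization.AtPrime (RingHom.ker φ₀)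
  let c : C →ₐ[k] L := IsScalarTower.toAlgHom k C L
  have hc : Function.Injective c :=
    IsLocalization.injective L (RingHom.ker φ₀).primeCompl_le_nonZeroDivisors
  let e : L →ₐ[k] k := IsLocalization.liftAlgHom (M := (RingHom.ker φ₀).primeCompl) (f := φ₀)
    fun y => Ne.isUnit y.2
  have ec : e.comp c = φ₀ := AlgHom.ext fun x => IsLocalization.lift_eq _ x
  have hu : InG ⊥ s jC u := (hC.mem C jC u).2 ⟨AlgHom.id k C, rfl, rfl⟩
  have h1 := el5_loc X h hw hl e (j := c.comp jC) (g := pm c u) (by rw [pm_pm, ec, h0])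
    fun a b e' => hs'.of_inG (hu.map c) a b fun e1 => e' (sub_eq_zero.1 e1)
  obtain ⟨φ, hφ, rfl⟩ := (hC.mem S (Algebra.ofId k S) g).1 ((Real.inG_iff hs').2 fun a b e' =>
    hg a b fun e1 => e' (sub_eq_zero.2 e1))
  intro a b e'
  have h2 := h1 a b e'
  rw [← X.nat, gm_apply] at h2
  rw [← hφ, ← X.nat, gm_apply, hc (h2.trans (map_zero c).symm), map_zero]

theorem mono_int (X : Real k A H) (h : X.Dg t χ) (hw : Wts t deg) {l l' : XL r →+ ℤ}
    (hl : ∀ i, (0 < l (deg i) → 0 ≤ l' (deg i)) ∧ (l (deg i) = 0 → l' (deg i) = 0))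
    {g : Pt k A S} (hg : InP (fun i => l (χ i)) (X.ρ S (Algebra.ofId k S) g : Mat n S)) :
    InP (fun i => l' (χ i)) (X.ρ S (Algebra.ofId k S) g : Mat n S) := by
  obtain ⟨s, hs'⟩ := el5_push X h l
  have h1 : InG (hs (AddMonoidHom.id ℤ)) s (Algebra.ofId k S) g :=
    (Real.inG_iff hs').2 fun a b e => hg a b (not_le.1 fun e' : l (χ b) ≤ l (χ a) => e (by
      show _ = _ ∨ 0 < l (χ a) - l (χ b)
      omega))
  obtain ⟨z, hz, hu, -⟩ := h1.split hs'.isHom (pos_hs _)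
  have h2 := mono_Z X h hw (fun i => (hl i).2) (g := z) fun a b e =>
    hs'.of_inG hz a b fun e' => e (sub_eq_zero.1 e')
  have h3 : InU (hs l) t (Algebra.ofId k S) (g * z⁻¹) :=
    (Real.inU_iff h (pos_hs l)).2 fun a b e => (Real.inU_iff hs' (pos_hs _)).1 hu a b (by
      by_cases e' : l (χ a) = l (χ b)
      · exact Or.inr e'
      · refine Or.inl fun e1 => e.elim (fun e2 => e2 (Or.inr ?_)) fun e2 => e' (by rw [e2])
        rw [map_sub]
        exact e1.resolve_left fun e3 => e' (sub_eq_zero.1 e3))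
  have h4 := hw.inU_of (Λ := (AddSubmonoid.nonneg ℤ).comap l') (pos_hs l)
    (fun i hi => (hl i).1 (hi.resolve_left (hw.1 i))) h3
  rw [← inv_mul_cancel_right g z, map_mul]
  refine InP.mul (fun a b e => h.of_inG h4.1 a b fun e' => ?_) h2.inP
  have e2 : 0 ≤ l' (χ a - χ b) := e'
  rw [map_sub] at e2
  exact absurd e (by omega)

/-- The pairing with an integral vector. -/
def el5_dot {r : ℕ} (l : Fin r → ℤ) : XL r →+ ℤ where
  toFun m := m ⬝ᵥ l
  map_zero' := zero_dotProduct l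
  map_add' a b := add_dotProduct a b l

theorem el5_int (χ : Fin n → XL r) (deg : ι → XL r) (v : Fin r → ℝ) :
    ∃ l : Fin r → ℤ, (∀ i j, SignType.sign (∑ s, ((χ i - χ j) s : ℝ) * v s) =
      SignType.sign ((χ i - χ j) ⬝ᵥ l)) ∧
      ∀ i, SignType.sign (∑ s, (deg i s : ℝ) * v s) = SignType.sign (deg i ⬝ᵥ l) := by
  obtain ⟨l, hl⟩ := VC.exists_int
    (Set.range (fun p : Fin n × Fin n => χ p.1 - χ p.2) ∪ Set.range deg)
    ((Set.finite_range _).union (Set.finite_range _)) v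
  exact ⟨l, fun i j => hl _ (Or.inl ⟨(i, j), rfl⟩), fun i => hl _ (Or.inr ⟨i, rfl⟩)⟩

theorem mono_real (X : Real k A H) (h : X.Dg t χ) (hw : Wts t deg) {v v' : Fin r → ℝ}
    (hl : ∀ i, (0 < ∑ s, (deg i s : ℝ) * v s → 0 ≤ ∑ s, (deg i s : ℝ) * v' s) ∧
      (∑ s, (deg i s : ℝ) * v s = 0 → ∑ s, (deg i s : ℝ) * v' s = 0)) {g : Pt k A S}
    (hg : TriR (rwt χ v) (rwt χ v) (X.ρ S (Algebra.ofId k S) g : Mat n S)) :
    TriR (rwt χ v') (rwt χ v') (X.ρ S (Algebra.ofId k S) g : Mat n S) := by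
  obtain ⟨l, h1, h2⟩ := el5_int χ deg v
  obtain ⟨l', h1', h2'⟩ := el5_int χ deg v'
  refine (triR_iff_inP h1' _).2 (mono_int X h hw (l := el5_dot l) (l' := el5_dot l')
    (fun i => ⟨fun e => ?_, fun e => ?_⟩) ((triR_iff_inP h1 _).1 hg))
  · have e1 : SignType.sign (deg i ⬝ᵥ l) = 1 := sign_eq_one_iff.2 e
    have e2 := sign_nonneg_iff.2 ((hl i).1 (sign_eq_one_iff.1 ((h2 i).trans e1)))
    exact sign_nonneg_iff.1 (h2' i ▸ e2)
  · have e1 : SignType.sign (deg i ⬝ᵥ l) = 0 := sign_eq_zero_iff.2 e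
    have e2 := sign_eq_zero_iff.2 ((hl i).2 (sign_eq_zero_iff.1 ((h2 i).trans e1)))
    exact sign_eq_zero_iff.1 ((h2' i).symm.trans e2)

theorem par_iff (X : Real k A H) (T : Edif.Torus k A) {χ : Fin n → XL T.r}
    (h : X.Dg (tpt T) χ) {K : Subfield ℝ} (v : Fin T.r → K) (g : Pt k A S) :
    T.Par v g ↔ TriR (rwt χ fun i => v i) (rwt χ fun i => v i)
      (X.ρ S (Algebra.ofId k S) g : Mat n S) := by
  obtain ⟨m, deg, hw⟩ := exists_wts h.isHom
  obtain ⟨l', h1, h2⟩ := el5_int χ deg fun i => v i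
  rw [triR_iff_inP h1]
  constructor
  · rintro ⟨l, hl, hg⟩
    have h3 : ∀ i, SignType.sign (deg i ⬝ᵥ l) = SignType.sign (deg i ⬝ᵥ l') := fun i =>
      (hl _ ((isRoot_iff T hw _).2 ⟨i, rfl⟩)).symm.trans (h2 i)
    refine mono_int X h hw (l := el5_dot l) (l' := el5_dot l') (fun i => ⟨fun e => ?_, fun e => ?_⟩)
      ((inP_iff X T h l g).1 hg)
    · exact (sign_eq_one_iff.1 ((h3 i).symm.trans (sign_eq_one_iff.2 e))).le
    · exact sign_eq_zero_iff.1 ((h3 i).symm.trans (sign_eq_zero_iff.2 e))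
  · refine fun hg => ⟨l', fun a ha => ?_, (inP_iff X T h l' g).2 hg⟩
    obtain ⟨i, rfl⟩ := (isRoot_iff T hw a).1 ha
    exact h2 i

end Pool.Agent.RED
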