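import Pool.Agent.P.MP_6990a0_al.EL2
import Pool.Agent.P.MP_6990a0_al.EL3
import Pool.Agent.P.MP_6990a0_al.EL5

/-! The standard apartment of a reductive group satisfies the axioms. -/

open WithConv Pool.Agent.GR Matrix Pool.Agent.P.MP_6990a0_al
open scoped TensorProduct

universe u

namespace Pool.Agent.RED

variable {k A : Type u} [Field k] [CommRing A] [HopfAlgebra k A] {n : ℕ} {H : HS k n}

/-- The matrix of a rational point. -/
noncomputable abbrev Real.m (X : Real k A H) : Pt k A k →* GL (Fin n) k :=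
  X.ρ k (Algebra.ofId k k)

theorem el6_mem (X : Real k A H) (g : GL (Fin n) k) : g ∈ H.G k ↔ ∃ x, X.m x = g := X.mem k g

theorem el6_frame (X : Real k A H) {T : Edif.Torus k A} (hT : T.IsMax) {γ : GL (Fin n) k}
    {χ : Fin n → XL T.r} (h : (X.rb γ).Dg (tpt T) χ) : H.Frame χ (H.act γ⁻¹ (H.pt k)) := by
  have F := frame_of_max (X.rb γ) hT h
  have hγ : gm (Algebra.ofId k k) γ = γ := Units.ext rfl
  rw [HS.pt_rb, hγ] at F
  exact ⟨F.fix, F.zt⟩

theorem br_tori (X : Real k A H) {T T' : Edif.Torus k A} (hT : T.IsMax) (hT' : T'.IsMax)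
    {γ γ' : GL (Fin n) k} {χ : Fin n → XL T.r} {χ' : Fin n → XL T'.r}
    (h : (X.rb γ).Dg (tpt T) χ) (h' : (X.rb γ').Dg (tpt T') χ') (v : Fin T.r → ℝ)
    (v' : Fin T'.r → ℝ) (g : Pt k A k) :
    ∃ (p m q : Pt k A k) (θ : XL T'.r ≃+ XL T.r), g = p * m * q ∧
      fl (X.m p * γ') (rwt χ' v') = fl γ' (rwt χ' v') ∧
      fl (X.m q * γ) (rwt χ v) = fl γ (rwt χ v) ∧ T.Conj m T' θ := by
  obtain ⟨l, h1, -⟩ := el5_int χ χ v
  obtain ⟨l', h1', -⟩ := el5_int χ' χ' v'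
  obtain ⟨p, hp, m, hm, q, hq, e, i1, i2, θ, i3⟩ := (el6_frame X hT' h').brm (β := γ'⁻¹ * γ)
    (by
      rw [_root_.mul_inv_rev, inv_inv, H.act_mul, H.act_act_inv]
      exact el6_frame X hT h) (span_of_dg _ T' h') (span_of_dg _ T h) (el5_dot l') (el5_dot l)
    (g := γ'⁻¹ * X.m g * γ') ((HS.mem_St_frame γ' _).2 ((el6_mem X _).2 ⟨g, by group⟩))
  obtain ⟨p, hp⟩ := (el6_mem X _).1 ((HS.mem_St_frame γ' _).1 hp)
  obtain ⟨m, hm⟩ := (el6_mem X _).1 ((HS.mem_St_frame γ' _).1 hm)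
  obtain ⟨q, hq⟩ := (el6_mem X _).1 ((HS.mem_St_frame γ' _).1 hq)
  refine ⟨p, m, q, θ, X.inj k (Algebra.ofId k k) ?_, ?_, ?_, (conj_iff X h h' m θ).2 ?_⟩
  · show X.m g = X.m (p * m * q)
    rw [map_mul, map_mul, hp, hm, hq, ← mul_inv_cancel_left γ' (X.m g),
      ← mul_inv_cancel_right (γ'⁻¹ * X.m g) γ', e]
    group
  · rw [hp, inv_mul_cancel_right]
    exact (fl_fix_iff _ _ _).2 ((triR_iff_inP h1' _).2 i1)
  · rw [hq, ← (fl_fix_iff γ _ _).2 ((triR_iff_inP h1 _).2 i2)]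
    congr 1
    group
  · refine (congrArg (fun z : GL (Fin n) k => Intw _ _ (z : Mat n k)) ?_).mp i3
    show _ = γ'⁻¹ * X.m m * γ
    rw [hm]
    group

theorem fl_conj (X : Real k A H) {T T' : Edif.Torus k A} {γ γ' : GL (Fin n) k}
    {χ : Fin n → XL T.r} {χ' : Fin n → XL T'.r} (h : (X.rb γ).Dg (tpt T) χ)
    (h' : (X.rb γ').Dg (tpt T') χ') {g : Pt k A k} {θ : XL T'.r ≃+ XL T.r} (hc : T.Conj g T' θ)
    {v : Fin T.r → ℝ} {v' : Fin T'.r → ℝ}
    (hv : ∀ m : XL T'.r, ∑ i, (m i : ℝ) * v' i = ∑ i, (θ m i : ℝ) * v i) :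
    fl (X.m g * γ) (rwt χ v) = fl γ' (rwt χ' v') := by
  have h1 := fl_intw γ' ((conj_iff X h h' g θ).1 hc) fun m => ∑ i, (m i : ℝ) * v i
  simp only [← hv] at h1
  rw [mul_assoc, mul_inv_cancel_left] at h1
  exact h1

/-- The transpose of a map of lattices. -/
theorem exists_transp {r r' : ℕ} (θ : XL r' →+ XL r) (K : Type) [CommRing K] :
    ∃ L : (Fin r → K) →ₗ[K] Fin r' → K, ∀ (v : Fin r → K) (m : XL r'),
      ∑ i, (m i : K) * L v i = ∑ i, (θ m i : K) * v i := by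
  refine ⟨Matrix.toLin' (of fun i j => (θ (Pi.single i 1) j : K)), fun v m => ?_⟩
  have e : θ m = ∑ i, m i • θ (Pi.single i 1) := by
    conv_lhs => rw [← Finset.univ_sum_single m, map_sum]
    refine Finset.sum_congr rfl fun i _ => ?_
    rw [← map_zsmul, ← Pi.single_smul, smul_eq_mul, mul_one]
  simp only [e, toLin'_apply, mulVec, dotProduct, of_apply, Finset.sum_apply, Pi.smul_apply,
    smul_eq_mul, Int.cast_sum, Int.cast_mul, Finset.mul_sum, Finset.sum_mul, mul_assoc]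
  exact Finset.sum_comm

theorem rwt_inj {r : ℕ} {χ : Fin n → XL r} (hs : Submodule.span ℤ (Set.range χ) = ⊤)
    {v v' : Fin r → ℝ} (h : rwt χ v = rwt χ v') : v = v' := by
  let f : (Fin r → ℝ) → XL r →+ ℝ := fun v => AddMonoidHom.mk' (fun m => ∑ i, (m i : ℝ) * v i)
    fun a b => by simp [add_mul, Finset.sum_add_distrib]
  have e : f v = f v' := add_ext_chi hs fun j => congrFun h j
  funext i
  simpa [f, Pi.single_apply] using DFunLike.congr_fun e (Pi.single i 1)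

/-- The functional of a character. -/
noncomputable def lf {r : ℕ} (m : XL r) : Module.Dual ℝ (Fin r → ℝ) :=
  ∑ i, (m i : ℝ) • LinearMap.proj i

theorem lf_apply {r : ℕ} (m : XL r) (v : Fin r → ℝ) : lf m v = ∑ i, (m i : ℝ) * v i := by
  simp [lf]

/-- The standard apartment. -/
noncomputable def geo (X : Real k A H) {r : ℕ} (χ : Fin n → XL r) {ι : Type} (deg : ι → XL r) :
    VC.Geo0 k (Fin n → k) (Pt k A k) (Fin r → ℝ) n where
  ρ := ((LinearMap.GeneralLinearGroup.generalLinearEquiv k (Fin n → k)).toMonoidHom.comp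
    GeneralLinearGroup.toLin.toMonoidHom).comp X.m
  e := Pi.basisFun k (Fin n)
  c := LinearMap.pi fun j => lf (χ j)
  Φ := Set.range fun i => lf (deg i)

variable (X : Real k A H) {r : ℕ} (χ : Fin n → XL r) {ι : Type} (deg : ι → XL r)

theorem geo_ap (g : Pt k A k) (v : Fin r → ℝ) :
    (geo X χ deg).ap g v = fl (X.m g) (rwt χ v) := by
  refine congrArg₂ (VC.chart k) (funext fun j => funext fun i => ?_)
    (funext fun j => lf_apply (χ j) v)
  show ((X.m g : Mat n k) *ᵥ Pi.basisFun k (Fin n) j) i = _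
  simp

theorem geo_mv (g : Pt k A k) (γ : GL (Fin n) k) (w : Fin n → ℝ) :
    (geo X χ deg).mv g (fl γ w) = fl (X.m g * γ) w := by
  funext t
  refine (VC.map_chart _ _ w t).trans (congrArg (fun b => VC.chart k b w t) ?_)
  funext j i
  rfl

theorem geo_rat (K : Subfield ℝ) : (geo X χ deg).Rat K := by
  refine ⟨fun i j => ?_, ?_⟩
  · show lf (χ j) (Pi.single i 1) ∈ K
    simp [lf_apply, Pi.single_apply]
  · rintro _ ⟨j, rfl⟩ i
    simp [lf_apply, Pi.single_apply]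

theorem dg_rb_one {t : Pt k A (GA k (XL r))} (h : X.Dg t χ) : (X.rb 1).Dg t χ := by
  rw [MRep.Dg, Real.rb_ρ, map_one, inv_one, one_mul, mul_one]
  exact h

theorem geo_ax [Algebra.Smooth k A] [IsDomain (k ⊗[k] A)] {T : Edif.Torus k A} (hT : T.IsMax)
    {χ : Fin n → XL T.r} (h : X.Dg (tpt T) χ) {ι : Type} [Finite ι] {deg : ι → XL T.r}
    (hw : Wts (tpt T) deg) : (geo X χ deg).Ax := by
  have h1 := dg_rb_one X χ h
  have fix : ∀ (g : Pt k A k) (v : Fin T.r → ℝ), (geo X χ deg).ap g v = (geo X χ deg).ap 1 v ↔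
      TriR (rwt χ v) (rwt χ v) (X.m g : Mat n k) := fun g v => by
    rw [geo_ap, geo_ap, map_one, ← fl_fix_iff 1, one_mul]
  refine ⟨fun v v' e => rwt_inj (span_of_dg _ T h) (funext fun j => ?_), Set.finite_range _, ?_,
    fun g v v' => ?_, fun g v v' hc e => (fix g v').2 (mono_real X h hw (fun i => ?_)
      ((fix g v).1 e)), ?_⟩
  · exact ((lf_apply _ _).symm.trans (congrFun e j)).trans (lf_apply _ _)
  · rintro _ ⟨i, rfl⟩ e
    refine hw.1 i (funext fun s => ?_)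
    simpa [lf_apply, Pi.single_apply] using LinearMap.congr_fun e (Pi.single s 1)
  · obtain ⟨p, m, q, θ, e, e1, e2, hc⟩ := br_tori X hT hT h1 h1 v' v g
    obtain ⟨L, hL⟩ := exists_transp (θ : XL T.r →+ XL T.r) ℝ
    rw [mul_one] at e1 e2
    refine ⟨p, m, q, L, e, by rwa [geo_ap, geo_ap, map_one], by rwa [geo_ap, geo_ap, map_one],
      fun z => ?_⟩
    rw [geo_ap, geo_ap, map_one, ← fl_conj X h1 h1 hc (hL z), mul_one]
  · simpa only [lf_apply] using hc _ ⟨i, rfl⟩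
  · rintro _ ⟨i, rfl⟩
    obtain ⟨u, hu⟩ := exists_root_elt X h hw i
    exact ⟨u, fun v => by rw [fix, lf_apply]; exact hu v⟩

end Pool.Agent.RED
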