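import Pool.Agent.P.MP_6990a0_al.EL6

/-! The edifice inside the space of filtrations. -/

open WithConv Pool.Agent.GR Matrix Pool.Agent.P.MP_6990a0_al
open scoped TensorProduct

universe u

namespace Pool.Agent.RED

variable {k A : Type u} [Field k] [CommRing A] [HopfAlgebra k A] [Algebra.Smooth k A]
  [IsDomain (k ⊗[k] A)] {n : ℕ} {H : HS k n} (X : Real k A H) {K : Subfield ℝ}

/-- `ι` sends a point of the edifice to its weight filtration. -/
def IsIo (ι : Edif.Ed k A K → ℝ → Submodule k (Fin n → k)) : Prop :=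
  ∀ (T : Edif.MaxT k A) (γ : GL (Fin n) k) (χ : Fin n → XL T.1.r), (X.rb γ).Dg (tpt T.1) χ →
    ∀ v, ι (Edif.apt T v) = fl γ (rwt χ (VC.Geo0.up v))

omit [Algebra.Smooth k A] [IsDomain (k ⊗[k] A)] in
theorem el7_gm (γ : GL (Fin n) k) : gm (Algebra.ofId k k) γ = γ := Units.ext rfl

theorem el7_mul {γ γ' : GL (Fin n) k} {w w' : Fin n → ℝ} (h : fl γ w = fl γ' w')
    (a : GL (Fin n) k) : fl (a * γ) w = fl (a * γ') w' := by
  have e : ∀ x y : GL (Fin n) k, (a * x)⁻¹ * (a * y) = x⁻¹ * y := fun x y => by group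
  refine le_antisymm ?_ ?_
  · rw [fl_le_iff, e, ← fl_le_iff, h]
  · rw [fl_le_iff, e, ← fl_le_iff, h]

theorem el7_fix (a γ : GL (Fin n) k) (w : Fin n → ℝ) :
    fl (a * γ) w = fl γ w ↔ TriR w w ((γ⁻¹ * a * γ : GL (Fin n) k) : Mat n k) := by
  rw [← fl_fix_iff γ, ← mul_assoc, ← mul_assoc, mul_inv_cancel, one_mul]

theorem el7_par {T : Edif.Torus k A} {γ : GL (Fin n) k} {χ : Fin n → XL T.r}
    (h : (X.rb γ).Dg (tpt T) χ) (v : Fin T.r → K) {S : Type u} [CommRing S] [Algebra k S]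
    (g : Pt k A S) : T.Par v g ↔ TriR (rwt χ (VC.Geo0.up v)) (rwt χ (VC.Geo0.up v))
      (((gm (Algebra.ofId k S) γ)⁻¹ * X.ρ S (Algebra.ofId k S) g *
        gm (Algebra.ofId k S) γ : GL (Fin n) S) : Mat n S) := by
  rw [par_iff (X.rb γ) T h v g, Real.rb_ρ]
  rfl

omit [Algebra.Smooth k A] [IsDomain (k ⊗[k] A)] in
theorem el7_one (T : Edif.Torus k A) : T.Conj 1 T (AddEquiv.refl _) := by
  intro S _ _ τ τ' h
  have e : τ' = τ := MonoidHom.ext fun m => h m.toAdd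
  have e1 : Edif.Pt.map (Algebra.ofId k S) (1 : Pt k A k) = (1 : Pt k A S) :=
    map_one (pm (Algebra.ofId k S))
  rw [e, e1, one_mul, mul_one]

theorem el7_cast {r r' : ℕ} {m : XL r} {m' : XL r'} {v : Fin r → K} {v' : Fin r' → K}
    (h : ∑ i, (m i : K) * v i = ∑ i, (m' i : K) * v' i) :
    ∑ i, (m i : ℝ) * VC.Geo0.up v i = ∑ i, (m' i : ℝ) * VC.Geo0.up v' i := by
  have := congrArg (fun x : K => (x : ℝ)) h
  push_cast at this
  exact this

theorem exists_io (K : Subfield ℝ) : ∃ ι, IsIo (K := K) X ι := by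
  choose γ χ h using fun T : Edif.MaxT k A => X.exists_diag (isHom_tpt T.1)
  refine ⟨Quot.lift (fun x => fl (γ x.1) (rwt (χ x.1) (VC.Geo0.up x.2))) ?_, ?_⟩
  · rintro ⟨T, v⟩ ⟨T', v'⟩ ⟨g, θ, h1, h2, h3⟩
    refine Eq.trans ?_ (fl_conj X (h T) (h T') h2 fun m => el7_cast (h3 m))
    have := (el7_par X (h T) v g).1 h1
    rw [el7_gm] at this
    exact ((el7_fix _ _ _).2 this).symm
  · intro T γ' χ' h' v
    have := fl_conj X (h T) h' (el7_one T.1) (v := VC.Geo0.up v) (v' := VC.Geo0.up v)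
      fun _ => rfl
    rw [map_one, one_mul] at this
    exact this

variable {X} {io : Edif.Ed k A K → ℝ → Submodule k (Fin n → k)}

theorem IsIo.inj (hι : IsIo X io) : Function.Injective io := by
  rintro ⟨T, v⟩ ⟨T', v'⟩ e
  obtain ⟨γ, χ, h⟩ := X.exists_diag (isHom_tpt T.1)
  obtain ⟨γ', χ', h'⟩ := X.exists_diag (isHom_tpt T'.1)
  have e0 : fl γ (rwt χ (VC.Geo0.up v)) = fl γ' (rwt χ' (VC.Geo0.up v')) :=
    (hι T γ χ h v).symm.trans (e.trans (hι T' γ' χ' h' v'))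
  obtain ⟨p, m, q, θ, e1, e2, e3, e4⟩ :=
    br_tori X T.2 T'.2 h h' (VC.Geo0.up v) (VC.Geo0.up v') 1
  obtain ⟨L, hL⟩ := exists_transp θ.toAddMonoidHom K
  have hm : X.m m = (X.m p)⁻¹ * (X.m q)⁻¹ := by
    have : X.m p * X.m m * X.m q = 1 := by rw [← map_mul, ← map_mul, ← e1, map_one]
    rw [eq_inv_mul_iff_mul_eq, eq_inv_iff_mul_eq_one, this]
  have f1 := el7_mul e3 (X.m q)⁻¹
  have f2 := el7_mul e2 (X.m p)⁻¹
  rw [inv_mul_cancel_left] at f1 f2
  have f3 : fl (X.m m * γ) (rwt χ (VC.Geo0.up v)) = fl γ (rwt χ (VC.Geo0.up v)) := by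
    rw [hm, mul_assoc, el7_mul (f1.symm.trans e0), ← f2, e0]
  have f4 := fl_conj X h h' e4 (v := VC.Geo0.up v) (v' := VC.Geo0.up (L v))
    fun m => el7_cast (hL v m)
  have f5 : VC.Geo0.up (L v) = VC.Geo0.up v' :=
    rwt_inj (span_of_dg _ T'.1 h') (VC.chart_inj (fl_li γ') (f4.symm.trans (f3.trans e0)))
  have f6 : L v = v' := funext fun i => Subtype.ext (congrFun f5 i)
  refine Quot.sound ⟨m, θ, (el7_par X h v m).2 ?_, e4, fun m => ?_⟩
  · rw [el7_gm]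
    exact (el7_fix _ _ _).1 f3
  · rw [← f6]
    exact hL v m

theorem IsIo.inPar (hι : IsIo X io) {x : Edif.Ed k A K} {γ : GL (Fin n) k} {w : Fin n → ℝ}
    (hx : io x = fl γ w) {S : Type u} [CommRing S] [Algebra k S] (g : Pt k A S) :
    Edif.InPar x g ↔ TriR w w (((gm (Algebra.ofId k S) γ)⁻¹ * X.ρ S (Algebra.ofId k S) g *
      gm (Algebra.ofId k S) γ : GL (Fin n) S) : Mat n S) := by
  constructor
  · rintro ⟨T, v, rfl, hp⟩
    obtain ⟨γ0, χ, h⟩ := X.exists_diag (isHom_tpt T.1)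
    exact triR_of_fl_eq ((hι T γ0 χ h v).symm.trans hx) ((el7_par X h v g).1 hp)
  · intro ht
    obtain ⟨⟨T, v⟩, rfl⟩ := Quot.exists_rep x
    obtain ⟨γ0, χ, h⟩ := X.exists_diag (isHom_tpt T.1)
    exact ⟨T, v, rfl, (el7_par X h v g).2 (triR_of_fl_eq (hx.symm.trans (hι T γ0 χ h v)) ht)⟩

variable {T₀ : Edif.MaxT k A} {χ : Fin n → XL T₀.1.r} {ι : Type} [Finite ι] {deg : ι → XL T₀.1.r}

theorem IsIo.of_ap (hι : IsIo X io) (h : X.Dg (tpt T₀.1) χ) (g : Pt k A k) :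
    ∃ (T : Edif.MaxT k A) (L : (Fin T₀.1.r → K) →ₗ[K] Fin T.1.r → K),
      ∀ v, io (Edif.apt T (L v)) = (geo X χ deg).ap g (VC.Geo0.up v) := by
  obtain ⟨t, h1, h2, h3, h4⟩ := exists_conj T₀.1 T₀.2 g
  obtain ⟨γ', χ', h'⟩ := X.exists_diag (isHom_tpt ⟨T₀.1.r, t, h1, h2⟩)
  refine ⟨⟨_, h3⟩, LinearMap.id, fun v => ?_⟩
  have := fl_conj X (dg_rb_one X χ h) h' h4 (v := VC.Geo0.up v) (v' := VC.Geo0.up v)
    fun _ => rfl
  rw [mul_one] at this
  rw [geo_ap, this]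
  exact hι ⟨_, h3⟩ γ' χ' h' v

theorem IsIo.to_ap (hι : IsIo X io) (h : X.Dg (tpt T₀.1) χ) (T : Edif.MaxT k A) :
    ∃ (g : Pt k A k) (L : (Fin T.1.r → K) →ₗ[K] Fin T₀.1.r → K),
      ∀ v, io (Edif.apt T v) = (geo X χ deg).ap g (VC.Geo0.up (L v)) := by
  obtain ⟨γ', χ', h'⟩ := X.exists_diag (isHom_tpt T.1)
  obtain ⟨-, m, -, θ, -, -, -, e4⟩ := br_tori X T₀.2 T.2 (dg_rb_one X χ h) h' 0 0 1
  obtain ⟨L, hL⟩ := exists_transp θ.symm.toAddMonoidHom K
  refine ⟨m, L, fun v => ?_⟩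
  have := fl_conj X (dg_rb_one X χ h) h' e4 (v := VC.Geo0.up (L v)) (v' := VC.Geo0.up v)
    fun m => el7_cast (by
      rw [hL v (θ m)]
      exact Finset.sum_congr rfl fun i _ => by simp)
  rw [mul_one] at this
  rw [geo_ap, this]
  exact hι T γ' χ' h' v

theorem IsIo.facet (hι : IsIo X io) (h : X.Dg (tpt T₀.1) χ) (hw : Wts (tpt T₀.1) deg)
    (x y : Edif.Ed k A K) : y ∈ Edif.facet x ↔ (geo X χ deg).Same (io y) (io x) := by
  have mem : ∀ z : Edif.Ed k A K, io z ∈ (geo X χ deg).EE := fun z => by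
    obtain ⟨⟨T, v⟩, rfl⟩ := Quot.exists_rep z
    obtain ⟨g, L, e⟩ := hι.to_ap (deg := deg) h T
    exact ⟨g, _, e v⟩
  constructor
  · intro hy
    refine (((geo_ax X T₀.2 h hw).all (Γ := Pt k A k) (a := fun _ z => z)).1 _ (mem y) _
      (mem x)).2 fun g => ?_
    have key : ∀ z : Edif.Ed k A K, (geo X χ deg).mv g (io z) = io z ↔ Edif.InPar z g := by
      intro z
      obtain ⟨p, v, e⟩ := mem z
      rw [geo_ap] at e
      rw [hι.inPar e, e, geo_mv, el7_fix, el7_gm]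
    rw [key, key]
    exact hy k g
  · rintro ⟨p, v, v', e, e', hs⟩ S _ _ g
    rw [geo_ap] at e e'
    have e1 : gm (Algebra.ofId k S) (X.m p) = X.ρ S (Algebra.ofId k S) (pm (Algebra.ofId k S) p) :=
      (X.nat k S (Algebra.ofId k S) (Algebra.ofId k k) p).trans
        (by rw [Subsingleton.elim ((Algebra.ofId k S).comp (Algebra.ofId k k)) (Algebra.ofId k S)])
    have hs' : ∀ i, SignType.sign (∑ s, (deg i s : ℝ) * v s) =
        SignType.sign (∑ s, (deg i s : ℝ) * v' s) := fun i => by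
      rw [← lf_apply, ← lf_apply]
      exact hs _ ⟨i, rfl⟩
    have sg : ∀ a b : ℝ, SignType.sign a = SignType.sign b →
        (0 < a → 0 ≤ b) ∧ (a = 0 → b = 0) := fun a b e => ⟨fun t => by
          rw [sign_pos t] at e
          exact (sign_eq_one_iff.1 e.symm).le, fun t => by
          rw [t, sign_zero] at e
          exact sign_eq_zero_iff.1 e.symm⟩
    rw [hι.inPar e, hι.inPar e', e1, ← map_inv, ← map_mul, ← map_mul]
    exact ⟨mono_real X h hw fun i => sg _ _ (hs' i), mono_real X h hw fun i => sg _ _ (hs' i).symm⟩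

end Pool.Agent.RED
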