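import Pool.Agent.P.MP_6990a0_al.EL0
import Pool.Agent.P.MP_6990a0_al.EL7

/-! The theorem. -/

open Pool.Agent.GR Pool.Agent.RED Pool.Agent.P.MP_6990a0_al Pool.Agent.P.MP_6990a0_al.VC

universe u v

namespace Pool.Agent.Edif

theorem top (k : Type u) [Field k] (A : Type u) [CommRing A] [HopfAlgebra k A]
    (hA : RG.IsReductive k A) (K : Subfield ℝ) (C : Set (Ed k A K))
    (conv : ∀ x ∈ C, ∀ y ∈ C, ∃ T v w, x = apt T v ∧ y = apt T w ∧ apt T '' segment K v w ⊆ C)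
    (cone : ∀ T v (c : K), 0 < c → apt T v ∈ C → apt T (c • v) ∈ C)
    (noncr : ∃ x ∈ C, ∀ y ∈ C, ¬ Opp x y)
    (Γ : Type v) [Group Γ] [MulAction Γ (Ed k A K)] (aut : ∀ γ : Γ, AptLin (γ • · : Ed k A K → _))
    (stab : ∀ γ : Γ, (γ • ·) '' C = C) :
    ∃ (N : Subgroup Γ) (_ : N.Normal), N.FiniteIndex ∧ ∀ H : Subgroup Γ,
      Group.IsSolvable (H.map (QuotientGroup.mk' N)) →
      ∃ x ∈ C, (∀ T, x ≠ apt T 0) ∧ (∀ y ∈ C, ¬ Opp x y) ∧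
        ∀ γ ∈ H, (γ • ·) '' facet x = facet x := by
  have := hA.smooth
  have := isDomain_of_red hA
  obtain ⟨n, H₀, ⟨X₀⟩⟩ := exists_real hA
  obtain ⟨x₀, hx₀, hx₀'⟩ := noncr
  obtain ⟨⟨T₀, v₀⟩, -⟩ := Quot.exists_rep x₀
  obtain ⟨γ, χ, h⟩ := X₀.exists_diag (isHom_tpt T₀.1)
  generalize X₀.rb γ = X at h
  obtain ⟨m, deg, hw⟩ := exists_wts (isHom_tpt T₀.1)
  obtain ⟨io, hι⟩ := exists_io X K
  have hi := hι.inj
  have rep : ∀ x : Ed k A K, ∃ T v, x = apt T v := fun x =>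
    let ⟨⟨T, v⟩, e⟩ := Quot.exists_rep x
    ⟨T, v, e.symm⟩
  have ofa := hι.of_ap (deg := deg) h
  have toa := hι.to_ap (deg := deg) h
  set Y := geo X χ deg
  have mem : ∀ x, io x ∈ Y.EK K := fun x => by
    obtain ⟨T, v, rfl⟩ := rep x
    obtain ⟨g, L, e⟩ := toa T
    exact ⟨g, _, e v⟩
  have sur : ∀ z ∈ Y.EK K, ∃ x, io x = z := by
    rintro _ ⟨g, v, rfl⟩
    obtain ⟨T, L, e⟩ := ofa g
    exact ⟨_, e v⟩
  have opp : ∀ x y, Y.OppG K (io x) (io y) ↔ Opp x y := fun x y => by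
    constructor
    · rintro ⟨g, v, e1, e2⟩
      obtain ⟨T, L, e⟩ := ofa g
      exact ⟨T, L v, hi (e1.trans (e v).symm), hi (by rw [← map_neg, e, e2])⟩
    · rintro ⟨T, v, rfl, rfl⟩
      obtain ⟨g, L, e⟩ := toa T
      exact ⟨g, L v, e v, by rw [e, map_neg]⟩
  let a : Γ → (ℝ → Submodule k (Fin n → k)) → ℝ → Submodule k (Fin n → k) :=
    fun κ => Function.extend io (fun x => io (κ • x)) id
  have ha : ∀ κ x, a κ (io x) = io (κ • x) := fun κ x => hi.extend_apply _ _ x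
  have up_add : ∀ v w : Fin T₀.1.r → K, Geo0.up (v + w) = Geo0.up v + Geo0.up w :=
    fun _ _ => rfl
  have up_smul : ∀ (c : K) (v : Fin T₀.1.r → K), Geo0.up (c • v) = (c : ℝ) • Geo0.up v :=
    fun _ _ => rfl
  obtain ⟨N, hN, hfi, hH⟩ := (geo_ax X T₀.2 h hw).mainK (a := a) (C := io '' C)
    (geo_rat X χ deg K)
    ⟨fun z hz => by obtain ⟨x, rfl⟩ := sur z hz; rw [ha, one_smul],
      fun g g' z hz => by obtain ⟨x, rfl⟩ := sur z hz; rw [ha, ha, ha, mul_smul],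
      fun κ g => by
        obtain ⟨T, L, e⟩ := ofa g
        obtain ⟨T', M, e'⟩ := aut κ T
        obtain ⟨g', L', e''⟩ := toa T'
        exact ⟨g', L' ∘ₗ M ∘ₗ L, fun v => by rw [← e, ha]; exact (congrArg io (e' _)).trans (e'' _)⟩⟩
    (by rintro _ ⟨x, -, rfl⟩; exact mem x)
    (by
      rintro _ ⟨x, hx, rfl⟩ _ ⟨y, hy, rfl⟩
      obtain ⟨T, v, w, rfl, rfl, hs⟩ := conv x hx y hy
      obtain ⟨g, L, e⟩ := toa T
      have h2 := cone T _ 2 two_pos (hs ⟨_, ⟨2⁻¹, 2⁻¹, by positivity, by positivity,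
        by norm_num, rfl⟩, rfl⟩)
      rw [smul_add, smul_smul, smul_smul, mul_inv_cancel₀ two_ne_zero, one_smul, one_smul] at h2
      exact ⟨_, h2, by rw [e, e, e, Geo0.ap_add, map_add, up_add]⟩)
    (by
      rintro s hs h0 _ ⟨x, hx, rfl⟩
      obtain ⟨T, v, rfl⟩ := rep x
      obtain ⟨g, L, e⟩ := toa T
      exact ⟨_, cone T v ⟨s, hs⟩ h0 hx, by rw [e, e, Geo0.ap_sc _ h0, map_smul, up_smul]⟩)
    (by
      rintro κ _ ⟨x, hx, rfl⟩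
      exact ⟨_, stab κ ▸ ⟨x, hx, rfl⟩, (ha κ x).symm⟩)
    ⟨_, ⟨x₀, hx₀, rfl⟩, by
      rintro _ ⟨y, hy, rfl⟩
      exact fun e => hx₀' y hy ((opp _ _).1 e)⟩
  refine ⟨N, hN, hfi, fun H hs => ?_⟩
  obtain ⟨_, ⟨x, hx, rfl⟩, h1, h2⟩ := hH H hs
  have h3 : ∀ y ∈ C, ¬ Opp x y := fun y hy e => h1 _ ⟨y, hy, rfl⟩ ((opp _ _).2 e)
  have h4 : ∀ κ ∈ H, ∀ y ∈ facet x, κ • y ∈ facet x := fun κ hκ y hy => by
    rw [hι.facet h hw] at hy ⊢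
    rw [← ha]
    exact h2 κ hκ _ (mem y) hy
  refine ⟨x, hx, fun T e => h3 x hx ⟨T, 0, e, by rw [neg_zero]; exact e⟩, h3, fun κ hκ => ?_⟩
  refine Set.Subset.antisymm ?_ fun y hy => ⟨_, h4 κ⁻¹ (H.inv_mem hκ) y hy, by simp⟩
  rintro _ ⟨y, hy, rfl⟩
  exact h4 κ hκ y hy

end Pool.Agent.Edif
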