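import Pool.Agent.P.MP_6990a0_al.Bary

namespace Pool.Agent.P.MP_6990a0_al

open scoped Classical
open Filter Topology

set_option linter.unusedSectionVars false

variable {Ω ι : Type*} {Γ : Type*} [Group Γ] [MulAction Γ Ω]
variable {π : Ω → ι} {s : Γ → Ω → ℝ} {f m m' : Ω → ℝ} {C : Set (Ω → ℝ)} {ω ω' : Ω}

noncomputable def avg [Fintype Γ] (s : Γ → Ω → ℝ) (m : Ω → ℝ) : Ω → ℝ := ∑ g, act s g m

theorem avg_mem [Fintype Γ] (A : Act π s) (hC : Good π s C) (h : m ∈ MM π C) :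
    avg s m ∈ MM π C := MM.sum _ fun g _ => MM.act A hC h g

theorem act_avg [Fintype Γ] (A : Act π s) (g : Γ) (m : Ω → ℝ) : act s g (avg s m) = avg s m := by
  have : act s g (avg s m) = ∑ h, act s g (act s h m) := by
    funext ω; simp [avg, act, Finset.mul_sum]
  rw [this]
  simp only [A.act_act]
  exact Fintype.sum_equiv (Equiv.mulLeft g) _ _ fun h => rfl

theorem avg_nonpos [Fintype Γ] (A : Act π s) (hC : Good π s C) (hcl : IsClosed C)
    (h0 : (0 : Ω → ℝ) ∈ C) (H : ¬∃ x ∈ C, x ≠ 0 ∧ InvT Γ x) (h : m ∈ MM π C) (ω : Ω) :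
    avg s m ω ≤ 0 := by
  by_contra h1
  refine H ⟨_, MM.bb_mem hC hcl h0 (avg_mem A hC h), fun h2 => ?_, fun g a ha => ?_⟩
  · exact h1 (bb_eq_zero.1 (congrFun h2 ω))
  · rw [bb_ne_zero] at ha ⊢
    rw [← act_avg A g m, act_smul]
    exact mul_pos (A.pos g a) ha

def three (π : Ω → ι) (C : Set (Ω → ℝ)) (i : ι) : Prop :=
  ∃ a b c, π a = i ∧ π b = i ∧ π c = i ∧ a ∈ used C ∧ b ∈ used C ∧ c ∈ used C ∧
    a ≠ b ∧ a ≠ c ∧ b ≠ c

def Axis (π : Ω → ι) (C : Set (Ω → ℝ)) (e : Ω → ℝ) : Prop :=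
  e ∈ C ∧ ∀ x ∈ C, ∃ t : ℝ, ∀ ω, e ω ≠ 0 → hh π x ω = t * e ω

theorem Axis.act {e : Ω → ℝ} (A : Act π s) (hC : Good π s C) (he : Axis π C e) (g : Γ) :
    Axis π C (act s g e) := by
  refine ⟨hC.inv g e he.1, fun x hx => ?_⟩
  obtain ⟨t, ht⟩ := he.2 _ (hC.inv g⁻¹ x hx)
  refine ⟨t, fun ω h => ?_⟩
  obtain ⟨ω, rfl⟩ : ∃ ω', ω = g • ω' := ⟨g⁻¹ • ω, by simp⟩
  rw [A.act_ne_zero] at h
  have h1 : x = Pool.Agent.P.MP_6990a0_al.act s g (Pool.Agent.P.MP_6990a0_al.act s g⁻¹ x) := by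
    rw [A.act_act, mul_inv_cancel, A.act_one]
  rw [h1, A.hh_act g (hC.valid _ (hC.inv g⁻¹ x hx)), act_smul, act_smul, ht ω h]; ring

theorem Valid.fib_zero_of_hh (hf : Valid π f) (h : hh π f ω = 0) (h1 : π ω' = π ω) :
    f ω' = 0 := by
  have h2 : f ω = 0 := by
    by_contra h2; rw [hf.hh_self h2] at h; exact h2 h
  rw [hh_zero h2, neg_eq_zero] at h
  have := hf.le_nrm ω'
  rw [h1, h] at this
  exact le_antisymm this (hf.1 ω')

theorem Axis.kill [Finite Ω] {e x : Ω → ℝ} (hC : Good π s C) (he : Axis π C e)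
    (hx : Unopp π C x)
    (hmin : ∀ x', Unopp π C x' → ∀ ω, (∀ a, x' a ≠ 0 → x a ≠ 0) → x ω ≠ 0 → x' ω ≠ 0)
    (h : e ω ≠ 0) : 0 ≤ hh π x ω := by
  by_contra h1
  have h1 := not_le.1 h1
  obtain ⟨t, ht⟩ := he.2 x hx.1
  have ve := hC.valid e he.1
  have vx := hC.valid x hx.1
  have tneg : 0 < -t := by
    rw [ht ω h] at h1
    have := ve.pos h
    by_contra h2
    have : 0 ≤ t := by linarith [not_lt.1 h2]
    nlinarith
  have hm := hC.smul e he.1 _ tneg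
  have vm := hC.valid _ hm
  have k : ∀ a b, e a ≠ 0 → π b = π a → pls π x ((-t) • e) b = 0 := by
    intro a b ha hb
    refine vx.add_fib_zero vm ?_ hb
    rw [ve.hh_smul, ht a ha]; simp [ve.hh_self ha]
  rcases fib_cases (π := π) x (π ω) with h2 | ⟨b, hb, hxb⟩
  · rw [hh_fib_zero h2] at h1; exact lt_irrefl _ h1
  refine hmin _ (hx.add hC hm) b (fun a ha => ?_) hxb (k ω b h hb)
  rcases fib_cases (π := π) e (π a) with h2 | ⟨c, hc, hec⟩
  · rwa [vx.add_of_fib_zero (fun a' ha' => by simp [h2 a' ha'])] at ha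
  · exact absurd (k c a hec hc.symm) ha

theorem exists_axis [Finite Ω] (hC : Good π s C) (hcl : IsClosed C) (h0 : (0 : Ω → ℝ) ∈ C)
    {m0 : Ω → ℝ} (hm0 : m0 ∈ MM π C) (hneg : ∀ ω ∈ used C, m0 ω < 0)
    (hne : ∃ x ∈ C, x ≠ 0) : ∃ e, e ≠ 0 ∧ Axis π C e := by
  have := Fintype.ofFinite Ω
  have hle : ∀ ω, m0 ω ≤ 0 := fun ω => by
    by_cases h : ω ∈ used C
    · exact (hneg ω h).le
    · exact MM.unused hC hm0 h
  have husd : ∀ m ∈ MM π C, ∀ ω, 0 < m ω → ω ∈ used C := fun m hm ω h => by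
    by_contra h1; exact absurd (MM.unused hC hm h1) (not_le.2 h)
  obtain ⟨m, ⟨hm, a0, ha0⟩, hmin⟩ := exists_minimalFor_of_wellFoundedLT
    (fun m => m ∈ MM π C ∧ ∃ ω, 0 < m ω) (fun m => {ω | 0 < m ω}.ncard) (by
      obtain ⟨x, hx, hx0⟩ := hne
      obtain ⟨ω, hω⟩ := Function.ne_iff.1 hx0
      exact ⟨_, MM.of hx, ω, by
        rw [(hC.valid x hx).hh_self hω]; exact (hC.valid x hx).pos hω⟩)
  have lemA : ∀ m' ∈ MM π C, (∀ ω, 0 < m' ω ↔ 0 < m ω) →
      ∃ t : ℝ, 0 < t ∧ ∀ ω, 0 < m ω → m' ω = -t * m0 ω := by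
    intro m' hm' hP
    obtain ⟨a, ha, hamin⟩ := Finset.exists_min_image (Finset.univ.filter fun ω => 0 < m ω)
      (fun ω => m' ω / (-m0 ω)) ⟨a0, by simpa using ha0⟩
    simp only [Finset.mem_filter, Finset.mem_univ, true_and] at ha hamin
    have na : 0 < -m0 a := by linarith [hneg a (husd m hm a ha)]
    have tpos : 0 < m' a / (-m0 a) := div_pos ((hP a).2 ha) na
    refine ⟨_, tpos, fun ω hω => ?_⟩
    have nω : 0 < -m0 ω := by linarith [hneg ω (husd m hm ω hω)]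
    have h1 := hamin ω hω
    rw [le_div_iff₀ nω] at h1
    by_contra h2
    have h3 : 0 < (m' + (m' a / (-m0 a)) • m0) ω := by
      simp only [Pi.add_apply, Pi.smul_apply, smul_eq_mul]
      have : m' a / -m0 a * -m0 ω ≠ m' ω := fun h => h2 (by rw [← h]; ring)
      have := lt_of_le_of_ne h1 this
      linarith
    have h4 : {ω | 0 < (m' + (m' a / (-m0 a)) • m0) ω}.ncard < {ω | 0 < m ω}.ncard := by
      apply Set.ncard_lt_ncard _ (Set.toFinite _)
      refine ⟨fun b hb => ?_, fun h => ?_⟩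
      · simp only [Set.mem_ofPred_eq, Pi.add_apply, Pi.smul_apply, smul_eq_mul] at hb ⊢
        rw [← hP]
        nlinarith [hle b]
      · have := h (show a ∈ {ω | 0 < m ω} from ha)
        simp only [Set.mem_ofPred_eq, Pi.add_apply, Pi.smul_apply, smul_eq_mul] at this
        have e : m' a / -m0 a * m0 a = -m' a := by
          have : m0 a ≠ 0 := by linarith
          field_simp
        linarith
    exact absurd (hmin ⟨MM.add hm' (MM.smul hC hm0 tpos.le), ω, h3⟩ h4.le) (not_le.2 h4)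
  obtain ⟨t, ht, hmt⟩ := lemA m hm fun _ => Iff.rfl
  refine ⟨bb m, fun h => (bb_ne_zero.2 ha0) (congrFun h a0), MM.bb_mem hC hcl h0 hm,
    fun x hx => ?_⟩
  have ev : ∀ᶠ ε : ℝ in 𝓝[>] 0, ∀ ω, ω ∈ used C → ε * |hh π x ω| < t / 2 * (-m0 ω) := by
    rw [eventually_all]
    intro ω
    by_cases hω : ω ∈ used C
    · have p : (0 : ℝ) * |hh π x ω| < t / 2 * (-m0 ω) := by
        have := hneg ω hω
        rw [zero_mul]; apply mul_pos <;> linarith
      have c : Continuous fun ε : ℝ => ε * |hh π x ω| := by fun_prop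
      exact ((c.tendsto 0).eventually_lt_const p).filter_mono nhdsWithin_le_nhds |>.mono
        fun ε h _ => h
    · exact Eventually.of_forall fun _ h => absurd h hω
  obtain ⟨ε, hε, εpos⟩ := (ev.and self_mem_nhdsWithin).exists
  have εpos : 0 < ε := εpos
  have hm2 : m + (t / 2) • m0 + ε • hh π x ∈ MM π C :=
    MM.add (MM.add hm (MM.smul hC hm0 (by linarith))) (MM.smul hC (MM.of hx) εpos.le)
  obtain ⟨t', -, ht'⟩ := lemA _ hm2 (fun ω => by
    by_cases hω : ω ∈ used C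
    · have h1 := hε ω hω
      have h2 := le_abs_self (hh π x ω)
      have h3 := neg_abs_le (hh π x ω)
      simp only [Pi.add_apply, Pi.smul_apply, smul_eq_mul]
      constructor
      · intro h; nlinarith
      · intro h; rw [hmt ω h]; nlinarith
    · exact iff_of_false (not_lt.2 (MM.unused hC hm2 hω)) (not_lt.2 (MM.unused hC hm hω)))
  refine ⟨(t' - t / 2) / (ε * t), fun ω h => ?_⟩
  rw [bb_ne_zero] at h
  have h1 := ht' ω h
  simp only [Pi.add_apply, Pi.smul_apply, smul_eq_mul] at h1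
  rw [bb_of_nonneg h.le, hmt ω h]
  rw [hmt ω h] at h1
  field_simp
  linarith

theorem fin_step [Finite Ω] [Fintype Γ] (A : Act π s) (hC : Good π s C) (hcl : IsClosed C)
    (h0 : (0 : Ω → ℝ) ∈ C) (hU : ∃ x, Unopp π C x) (H : ¬∃ x ∈ C, x ≠ 0 ∧ InvT Γ x) :
    ∃ J : Set ι, (∀ (g : Γ) ω, π ω ∈ J → π (g • ω) ∈ J) ∧ (∃ ω ∈ used C, π ω ∈ J) ∧
      ∃ x, Unopp π C x ∧ ∀ ω, π ω ∈ J → x ω = 0 := by
  have := Fintype.ofFinite Ω
  by_cases h3 : ∃ ω ∈ used C, ¬three π C (π ω)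
  · refine ⟨{i | ¬three π C i}, fun g ω h h' => h ?_, h3, ?_⟩
    · obtain ⟨a, b, c, ha, hb, hc, ua, ub, uc, h1, h2, h3⟩ := h'
      have k : ∀ a, π a = π (g • ω) → π (g⁻¹ • a) = π ω := fun a ha => by
        simpa using A.fib g⁻¹ _ _ ha
      exact ⟨_, _, _, k a ha, k b hb, k c hc, hC.used_smul A _ ua, hC.used_smul A _ ub,
        hC.used_smul A _ uc, by simpa using h1, by simpa using h2, by simpa using h3⟩
    obtain ⟨x, hx⟩ := hU
    have lin : ∀ q ∈ used C, ¬three π C (π q) → ∀ u ∈ C, ∀ v ∈ C,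
        hh π (pls π u v) q = hh π u q + hh π v q := by
      intro q hq h u hu v hv
      refine (hC.valid u hu).hh_add_eq (hC.valid v hv) fun a c ha hc haq hcq h1 h2 => ?_
      by_contra h4
      exact h ⟨a, c, q, ha, hc, rfl, ⟨u, hu, h1⟩, ⟨v, hv, h2⟩, hq, h4, haq, hcq⟩
    have key : ∀ B : Finset Γ, ∃ τ ∈ C, ∀ q ∈ used C, ¬three π C (π q) →
        hh π τ q = ∑ g ∈ B, act s g (hh π x) q := by
      intro B
      induction B using Finset.induction_on with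
      | empty => exact ⟨0, h0, fun q _ _ => by simp [hh_zero_fun]⟩
      | insert g B hg ih =>
        obtain ⟨τ, hτ, h⟩ := ih
        refine ⟨_, hC.add _ (hC.inv g x hx.1) _ hτ, fun q hq h1 => ?_⟩
        rw [lin q hq h1 _ (hC.inv g x hx.1) _ hτ, Finset.sum_insert hg, h q hq h1,
          A.hh_act g (hC.valid x hx.1)]
    obtain ⟨τ, hτ, h⟩ := key (Finset.univ.erase 1)
    have hu := hx.add hC hτ
    refine ⟨_, hu, fun ω hω => ?_⟩
    by_contra h1
    have hq : ω ∈ used C := ⟨_, hu.1, h1⟩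
    have h2 := avg_nonpos A hC hcl h0 H (MM.of hx.1) ω
    have h4 : avg s (hh π x) ω = hh π (pls π x τ) ω := by
      rw [lin ω hq hω _ hx.1 _ hτ, h ω hq hω, avg, Finset.sum_apply,
        ← Finset.add_sum_erase _ _ (Finset.mem_univ 1), A.act_one]
    rw [h4, (hC.valid _ hu.1).hh_self h1] at h2
    exact h1 (le_antisymm h2 ((hC.valid _ hu.1).1 ω))
  · have h4 : ∀ ω, ∃ u ∈ C, ∃ v ∈ C, ω ∈ used C →
        hh π u ω + hh π v ω < hh π (pls π u v) ω := by
      intro ω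
      by_cases hω : ω ∈ used C
      · have : three π C (π ω) := by by_contra h; exact h3 ⟨ω, hω, h⟩
        obtain ⟨a, b, c, ha, hb, hc, ua, ub, uc, h1, h2, h4⟩ := this
        have k : ∀ a b, π a = π ω → π b = π ω → a ∈ used C → b ∈ used C → a ≠ b → a ≠ ω → b ≠ ω →
            ∃ u ∈ C, ∃ v ∈ C, ω ∈ used C → hh π u ω + hh π v ω < hh π (pls π u v) ω := by
          rintro a b ha hb ⟨u, hu, h5⟩ ⟨v, hv, h6⟩ h7 h8 h9
          exact ⟨u, hu, v, hv, fun _ =>
            (hC.valid u hu).hh_add_lt (hC.valid v hv) ha hb h8 h9 h7 h5 h6⟩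
        by_cases e1 : a = ω
        · exact k b c hb hc ub uc h4 (fun h => h1 (e1.trans h.symm)) (fun h => h2 (e1.trans h.symm))
        · by_cases e2 : b = ω
          · exact k a c ha hc ua uc h2 e1 (fun h => h4 (e2.trans h.symm))
          · exact k a b ha hb ua ub h1 e1 e2
      · exact ⟨0, h0, 0, h0, fun h => absurd h hω⟩
    choose u hu v hv huv using h4
    have ma : ∑ ω, (hh π (u ω) + hh π (v ω)) ∈ MM π C :=
      MM.sum _ fun ω _ => MM.add (MM.of (hu ω)) (MM.of (hv ω))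
    have mb : ∑ ω, hh π (pls π (u ω) (v ω)) ∈ MM π C :=
      MM.sum _ fun ω _ => MM.of (hC.add _ (hu ω) _ (hv ω))
    have lt : ∀ a ∈ used C, (∑ ω, (hh π (u ω) + hh π (v ω))) a <
        (∑ ω, hh π (pls π (u ω) (v ω))) a := by
      intro a ha
      rw [Finset.sum_apply, Finset.sum_apply]
      exact Finset.sum_lt_sum (fun ω _ => (hC.valid _ (hu ω)).le_hh_add (hC.valid _ (hv ω)) a)
        ⟨a, Finset.mem_univ _, huv a ha⟩
    have hneg : ∀ a ∈ used C, avg s (∑ ω, (hh π (u ω) + hh π (v ω))) a < 0 := by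
      intro a ha
      refine lt_of_lt_of_le ?_ (avg_nonpos A hC hcl h0 H mb a)
      rw [avg, avg, Finset.sum_apply, Finset.sum_apply]
      exact Finset.sum_lt_sum_of_nonempty Finset.univ_nonempty fun g _ =>
        mul_lt_mul_of_pos_left (lt _ (hC.used_smul A _ ha)) (A.pos _ _)
    obtain ⟨x, hx, hmin⟩ := exists_min_unopp hU
    obtain ⟨e, he0, he⟩ := exists_axis hC hcl h0 (avg_mem A hC ma) hneg ⟨x, hx.1, hx.ne_zero⟩
    have h5 : ¬∀ (g : Γ) ω ω', e ω ≠ 0 → e ω' ≠ 0 → π (g • ω') = π ω → g • ω' = ω :=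
      fun h => H (hC.compat_orbit A he.1 he0 h)
    push Not at h5
    obtain ⟨g, ω, ω', e1, e2, e3, e4⟩ := h5
    refine ⟨{i | ∃ h : Γ, π (h • ω) = i}, ?_, ⟨ω, ⟨e, he.1, e1⟩, 1, by simp⟩, x, hx, ?_⟩
    · rintro g' a ⟨h, hh⟩
      exact ⟨g' * h, by rw [mul_smul]; exact A.fib _ _ _ hh⟩
    · rintro a ⟨h, ha⟩
      have k1 := (he.act A hC h).kill hC hx hmin ((A.act_ne_zero h).2 e1)
      have k2 := (he.act A hC (h * g)).kill hC hx hmin ((A.act_ne_zero (h * g)).2 e2)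
      have k3 := (hC.valid x hx.1).adm (h • ω) ((h * g) • ω')
        (by rw [mul_smul]; exact (A.fib h _ _ e3).symm)
        (by rw [mul_smul]; intro h6; exact e4 (smul_left_cancel h h6).symm)
      exact (hC.valid x hx.1).fib_zero_of_hh (ω := h • ω) (by linarith) ha.symm

theorem isClosed_restr (hcl : IsClosed C) (J : Set ι) : IsClosed (restr π J C) := by
  have : restr π J C = C ∩ ⋂ ω, ⋂ (_ : π ω ∈ J), {x : Ω → ℝ | x ω = 0} := by
    ext x; simp [restr]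
  rw [this]
  exact hcl.inter (isClosed_iInter fun ω => isClosed_iInter fun _ =>
    isClosed_eq (continuous_apply ω) continuous_const)

theorem finThm [Finite Ω] [Fintype Γ] (A : Act π s) (n : ℕ) : ∀ C : Set (Ω → ℝ),
    (used C).ncard = n → Good π s C → IsClosed C → (0 : Ω → ℝ) ∈ C → (∃ x, Unopp π C x) →
      ∃ x ∈ C, x ≠ 0 ∧ InvT Γ x := by
  induction n using Nat.strong_induction_on with
  | _ n ih =>
    intro C hn hC hcl h0 hU
    by_contra H
    obtain ⟨J, hJ, ⟨ω, hω, hωJ⟩, x, hx, hxJ⟩ := fin_step A hC hcl h0 hU H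
    obtain ⟨y, hy, hy0, hyT⟩ := ih _ (hn ▸ used_restr_lt hω hωJ) _ rfl (hC.restr A hJ)
      (isClosed_restr hcl J) ⟨h0, fun _ _ => rfl⟩ ⟨x, hx.restr hxJ⟩
    exact H ⟨y, hy.1, hy0, hyT⟩

end Pool.Agent.P.MP_6990a0_al
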