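import Pool.Agent.P.MP_6990a0_al.Fin

namespace Pool.Agent.P.MP_6990a0_al

open scoped Classical
open Filter Topology

set_option linter.unusedSectionVars false

universe u

variable {Ω ι : Type*} {π : Ω → ι} {C : Set (Ω → ℝ)}

theorem scalarThm [Finite Ω] {Γ : Type*} [Group Γ] [MulAction Γ Ω] {s : Γ → Ω → ℝ} (A : Act π s)
    (hC : Good π s C) (hcl : IsClosed C) (h0 : (0 : Ω → ℝ) ∈ C) (hU : ∃ x, Unopp π C x)
    (hN : ∀ n : Γ, (∀ ω : Ω, n • ω = ω) → ∀ ω ∈ used C, ∀ ω' ∈ used C, s n ω = s n ω') :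
    ∃ x ∈ C, x ≠ 0 ∧ InvT Γ x := by
  set W : Finset Ω := (Set.toFinite (used C)).toFinset with hW
  have memW : ∀ ω, ω ∈ W ↔ ω ∈ used C := fun ω => by simp [hW]
  obtain ⟨a0, ha0⟩ : ∃ a, a ∈ used C := by
    obtain ⟨x, hx⟩ := hU
    obtain ⟨ω, hω⟩ := Function.ne_iff.1 hx.ne_zero
    exact ⟨ω, x, hx.1, hω⟩
  have cardW : (W.card : ℝ) ≠ 0 := by
    have : 0 < W.card := Finset.card_pos.2 ⟨a0, (memW _).2 ha0⟩
    positivity
  set χ : Γ → ℝ := fun γ => Real.exp ((∑ ω ∈ W, Real.log (s γ ω)) / W.card) with hχ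
  have χpos : ∀ γ, 0 < χ γ := fun γ => Real.exp_pos _
  have χmul : ∀ g h, χ (g * h) = χ g * χ h := by
    intro g h
    simp only [hχ]
    rw [← Real.exp_add, ← add_div]
    congr 2
    have : ∑ ω ∈ W, Real.log (s g ω) = ∑ ω ∈ W, Real.log (s g (h • ω)) := by
      symm
      refine Finset.sum_nbij' (fun ω => h • ω) (fun ω => h⁻¹ • ω) ?_ ?_ ?_ ?_ ?_
      · intro ω hω; exact (memW _).2 (hC.used_smul A h ((memW _).1 hω))
      · intro ω hω; exact (memW _).2 (hC.used_smul A h⁻¹ ((memW _).1 hω))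
      · intro ω _; simp
      · intro ω _; simp
      · intro ω _; rfl
    rw [this, ← Finset.sum_add_distrib]
    exact Finset.sum_congr rfl fun ω _ => by
      rw [A.mul, Real.log_mul (A.pos _ _).ne' (A.pos _ _).ne']
  have χN : ∀ n : Γ, (∀ ω : Ω, n • ω = ω) → ∀ ω ∈ used C, χ n = s n ω := by
    intro n hn ω hω
    simp only [hχ]
    rw [Finset.sum_congr rfl (g := fun _ => Real.log (s n ω))
      (fun a ha => by rw [hN n hn a ((memW _).1 ha) ω hω]), Finset.sum_const, nsmul_eq_mul,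
      mul_div_cancel_left₀ _ cardW, Real.exp_log (A.pos _ _)]
  have same : ∀ γ γ' : Γ, (∀ ω : Ω, γ • ω = γ' • ω) → ∀ ω, (∃ a ∈ used C, π a = π ω) →
      s γ ω / χ γ = s γ' ω / χ γ' := by
    rintro γ γ' h ω ⟨a, ha, haω⟩
    have hn : ∀ ω : Ω, (γ'⁻¹ * γ) • ω = ω := fun ω => by rw [mul_smul, h, inv_smul_smul]
    have e : γ = γ' * (γ'⁻¹ * γ) := by group
    have e1 : s γ ω = s γ' ω * χ (γ'⁻¹ * γ) := by
      rw [χN _ hn a ha, A.const _ _ _ haω]
      conv_lhs => rw [e, A.mul, hn]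
    have e2 : χ γ = χ γ' * χ (γ'⁻¹ * γ) := by rw [← χmul, ← e]
    rw [e1, e2, mul_div_mul_right _ _ (χpos _).ne']
  set G := (MulAction.toPermHom Γ Ω).range with hG
  have : Fintype G := Fintype.ofFinite G
  have hl : ∀ g : G, ∃ γ : Γ, ∀ ω : Ω, γ • ω = g • ω := by
    rintro ⟨g, γ, rfl⟩
    exact ⟨γ, fun ω => rfl⟩
  choose l hl using hl
  have hl' : ∀ (g : G) (ω : Ω), (l g)⁻¹ • ω = g⁻¹ • ω := fun g ω => by
    rw [inv_smul_eq_iff, hl, smul_inv_smul]
  have ufib : ∀ (γ : Γ) ω, (∃ a ∈ used C, π a = π (γ • ω)) ↔ ∃ a ∈ used C, π a = π ω := by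
    intro γ ω
    constructor
    · rintro ⟨a, ha, h⟩
      exact ⟨_, hC.used_smul A γ⁻¹ ha, by simpa using A.fib γ⁻¹ _ _ h⟩
    · rintro ⟨a, ha, h⟩
      exact ⟨_, hC.used_smul A γ ha, A.fib γ _ _ h⟩
  set s' : G → Ω → ℝ := fun g ω =>
    if ∃ a ∈ used C, π a = π ω then s (l g) ω / χ (l g) else 1 with hs'
  have A' : Act π s' := by
    refine ⟨fun g ω => ?_, fun g h ω => ?_, fun g ω ω' h => ?_, fun g ω ω' h => ?_⟩
    · simp only [hs']; split_ifs
      · exact div_pos (A.pos _ _) (χpos _)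
      · exact one_pos
    · simp only [hs']
      rw [← hl h ω, ufib]
      split_ifs with h1
      · rw [same _ (l g * l h) (fun a => by rw [hl, mul_smul, mul_smul, hl, hl]) ω h1, A.mul, χmul,
          div_mul_div_comm]
      · simp
    · rw [← hl, ← hl]; exact A.fib _ _ _ h
    · simp only [hs', h, A.const _ _ _ h]
  have hC' : Good π s' C := by
    refine ⟨hC.valid, hC.add, hC.smul, fun g x hx => ?_⟩
    have : act s' g x = (χ (l g))⁻¹ • act s (l g) x := by
      funext ω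
      simp only [act, Pi.smul_apply, smul_eq_mul, hl', hs']
      by_cases h : x (g⁻¹ • ω) = 0
      · simp [h]
      · rw [if_pos ⟨_, ⟨x, hx, h⟩, rfl⟩]; ring
    rw [this]
    exact hC.smul _ (hC.inv _ _ hx) _ (inv_pos.2 (χpos _))
  obtain ⟨x, hx, hx0, hxT⟩ := finThm A' _ C rfl hC' hcl h0 hU
  exact ⟨x, hx, hx0, fun γ ω h => hxT ⟨MulAction.toPermHom Γ Ω γ, γ, rfl⟩ ω h⟩

theorem min_block [Finite Ω] {Γ : Type*} [Group Γ] [MulAction Γ Ω] {s : Γ → Ω → ℝ} (A : Act π s)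
    (hC : Good π s C) (hcl : IsClosed C) {x : Ω → ℝ} (hx : Unopp π C x)
    (hmin : ∀ x', Unopp π C x' → ∀ ω, (∀ a, x' a ≠ 0 → x a ≠ 0) → x ω ≠ 0 → x' ω ≠ 0)
    (n : Γ) (hn : ∀ ω : Ω, n • ω = ω) {ω ω' : Ω} (h : x ω ≠ 0) (h' : x ω' ≠ 0) :
    s n ω = s n ω' := by
  have := Fintype.ofFinite Ω
  obtain ⟨a, ha, hamax⟩ := Finset.exists_max_image (Finset.univ.filter fun ω => x ω ≠ 0)
    (s n) ⟨ω, by simpa using h⟩
  simp only [Finset.mem_filter, Finset.mem_univ, true_and] at ha hamax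
  suffices H : ∀ b, x b ≠ 0 → s n b = s n a by rw [H ω h, H ω' h']
  intro b hb
  by_contra hne
  have vx := hC.valid x hx.1
  have pa := A.pos n a
  set xp : Ω → ℝ := fun c => if s n c = s n a then x c else 0 with hxp
  have hninv : ∀ c : Ω, n⁻¹ • c = c := fun c => by rw [inv_smul_eq_iff, hn]
  have mem : ∀ k : ℕ, (fun c => (s n c / s n a) ^ k * x c) ∈ C := by
    intro k
    induction k with
    | zero => simpa using hx.1
    | succ k ih =>
      have := hC.smul _ (hC.inv n _ ih) _ (inv_pos.2 pa)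
      have e : (s n a)⁻¹ • act s n (fun c => (s n c / s n a) ^ k * x c) =
          fun c => (s n c / s n a) ^ (k + 1) * x c := by
        funext c; simp only [act, hninv, Pi.smul_apply, smul_eq_mul]; rw [pow_succ, div_eq_mul_inv]; ring
      rwa [e] at this
  have xpC : xp ∈ C := by
    refine hcl.mem_of_tendsto (b := atTop) ?_ (Eventually.of_forall mem)
    rw [tendsto_pi_nhds]
    intro c
    simp only [hxp]
    split_ifs with h1
    · rw [h1, div_self pa.ne']; simp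
    · by_cases h2 : x c = 0
      · simp [h2]
      · have h3 : s n c / s n a < 1 := (div_lt_one pa).2 (lt_of_le_of_ne (hamax c h2) h1)
        have := (tendsto_pow_atTop_nhds_zero_of_lt_one (div_pos (A.pos n c) pa).le h3).mul_const (x c)
        simpa using this
  have vp := hC.valid _ xpC
  have sub : ∀ c, xp c ≠ 0 → x c ≠ 0 := fun c hc h1 => hc (by simp [hxp, h1])
  have : ¬Unopp π C xp := fun h1 => hmin _ h1 b sub hb (by simp [hxp, hne])
  obtain ⟨y, hy, hy0⟩ : ∃ y ∈ C, pls π xp y = 0 := by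
    by_contra h1
    exact this ⟨xpC, fun y hy h2 => h1 ⟨y, hy, h2⟩⟩
  have vy := hC.valid _ hy
  have k1 : ∀ c, s n c = s n a → pls π x y c = 0 := by
    intro c hc
    have e : hh π x c = hh π xp c := hh_congr fun d hd => by
      simp [hxp, A.const n _ _ hd, hc]
    rw [add_eq_zero_iff, e, ← add_eq_zero_iff, hy0]; rfl
  refine hmin _ (hx.add hC hy) a (fun c hc => ?_) ha (k1 a rfl)
  by_cases h1 : s n c = s n a
  · exact absurd (k1 c h1) hc
  · rwa [vx.add_of_fib_zero] at hc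
    intro d hd
    refine vp.opp_fib_zero vy (fun _ _ => by rw [hy0]; rfl) fun e he => ?_
    simp [hxp, A.const n _ _ (he.trans hd), h1]

theorem genThm [Finite Ω] (k : ℕ) : ∀ (Γ : Type u) [Group Γ] [MulAction Γ Ω] (s : Γ → Ω → ℝ)
    (C : Set (Ω → ℝ)), Act π s → (used C).ncard = k → Good π s C → IsClosed C →
      (0 : Ω → ℝ) ∈ C → (∃ x, Unopp π C x) → ∃ x ∈ C, x ≠ 0 ∧ InvT Γ x := by
  induction k using Nat.strong_induction_on with
  | _ k ih =>
    intro Γ _ _ s C A hk hC hcl h0 hU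
    by_cases hN : ∀ n : Γ, (∀ ω : Ω, n • ω = ω) → ∀ ω ∈ used C, ∀ ω' ∈ used C, s n ω = s n ω'
    · exact scalarThm A hC hcl h0 hU hN
    obtain ⟨x, hx, hmin⟩ := exists_min_unopp hU
    obtain ⟨ω0, hω0⟩ := Function.ne_iff.1 hx.ne_zero
    let r : Ω → Ω → Prop := fun a b => ∀ n : Γ, (∀ ω : Ω, n • ω = ω) → s n a = s n b
    have rconj : ∀ (g n : Γ), (∀ ω : Ω, n • ω = ω) → ∀ a, s n (g • a) = s (g⁻¹ * n * g) a := by
      intro g n hn a
      have h1 := A.mul n g a
      have h2 := A.mul g (g⁻¹ * n * g) a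
      have e : g * (g⁻¹ * n * g) = n * g := by group
      have e2 : (g⁻¹ * n * g) • a = a := by rw [mul_smul, mul_smul, hn, inv_smul_smul]
      rw [e, h1, e2, mul_comm] at h2
      exact mul_left_cancel₀ (A.pos g a).ne' h2
    have rsm : ∀ (g : Γ) a b, r a b → r (g • a) (g • b) := by
      intro g a b h n hn
      rw [rconj g n hn, rconj g n hn]
      exact h _ fun ω => by rw [mul_smul, mul_smul, hn, inv_smul_smul]
    have rfib : ∀ a b, π a = π b → r a b := fun a b h n _ => A.const n _ _ h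
    have rsymm : ∀ a b, r a b → r b a := fun a b h n hn => (h n hn).symm
    have rtrans : ∀ a b c, r a b → r b c → r a c := fun a b c h h' n hn => (h n hn).trans (h' n hn)
    let Δ : Subgroup Γ :=
      { carrier := {g | r (g • ω0) ω0}
        one_mem' := by intro n _; simp
        mul_mem' := by
          intro g h hg hh
          refine rtrans _ _ _ ?_ hg
          rw [mul_smul]; exact rsm g _ _ hh
        inv_mem' := by
          intro g hg
          have := rsm g⁻¹ _ _ hg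
          rw [inv_smul_smul] at this
          exact rsymm _ _ this }
    set J : Set ι := {i | ∃ a, π a = i ∧ ¬r a ω0} with hJ
    have memJ : ∀ a, π a ∈ J ↔ ¬r a ω0 := fun a =>
      ⟨fun ⟨b, hb, h⟩ h' => h (rtrans _ _ _ (rfib _ _ hb) h'), fun h => ⟨a, rfl, h⟩⟩
    have AΔ : Act π (fun g : Δ => s g) :=
      ⟨fun g => A.pos g, fun g h => A.mul g h, fun g => A.fib g, fun g => A.const g⟩
    have hCΔ : Good π (fun g : Δ => s g) C := ⟨hC.valid, hC.add, hC.smul, fun g => hC.inv g⟩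
    obtain ⟨b, hb, hbJ⟩ : ∃ b ∈ used C, π b ∈ J := by
      by_contra h
      apply hN
      intro n hn a ha b hb
      have k : ∀ a ∈ used C, r a ω0 := fun a ha => by
        by_contra h1; exact h ⟨a, ha, (memJ a).2 h1⟩
      rw [k a ha n hn, k b hb n hn]
    obtain ⟨y, hy, hy0, hyT⟩ := ih _ (hk ▸ used_restr_lt hb hbJ) Δ _ (restr π J C) AΔ rfl
      (hCΔ.restr AΔ (fun g a ha => by
        rw [memJ] at ha ⊢
        intro h
        have h1 := rsm (g : Γ)⁻¹ _ _ h
        change r ((g : Γ)⁻¹ • (g : Γ) • a) _ at h1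
        rw [inv_smul_smul] at h1
        exact ha (rtrans _ _ _ h1 (Δ.inv_mem g.2))))
      (isClosed_restr hcl J) ⟨h0, fun _ _ => rfl⟩
      ⟨x, hx.restr fun a ha => by
        by_contra h
        exact (memJ a).1 ha fun n hn => min_block A hC hcl hx hmin n hn h hω0⟩
    refine hC.compat_orbit A hy.1 hy0 fun g a a' ha ha' h => ?_
    have ra : ∀ a, y a ≠ 0 → r a ω0 := fun a ha => by
      by_contra h1; exact ha (hy.2 a ((memJ a).2 h1))
    have hg : g ∈ Δ := rtrans _ _ _ (rsm g _ _ (rsymm _ _ (ra a' ha')))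
      (rtrans _ _ _ (rfib _ _ h) (ra a ha))
    exact (hC.valid y hy.1).2 _ _ h (hyT ⟨g, hg⟩ a' ha') ha

end Pool.Agent.P.MP_6990a0_al
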