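import Pool.Agent.P.MP_6990a0_al.KFin

namespace Pool.Agent.P.MP_6990a0_al

open scoped Classical

set_option linter.unusedSectionVars false

variable {K : Type*} [Field K] [LinearOrder K] [IsStrictOrderedRing K] {Ω ι : Type*}
  {Γ : Type*} [Group Γ] [MulAction Γ Ω]
  {π : Ω → ι} {s : Γ → Ω → K} {E : Set (Ω → K)} {ρ : K →+* ℝ}

theorem Valid.injOn {x : Ω → K} (hx : Valid π x) : Set.InjOn π (Function.support x) :=
  fun a ha b hb h => hx.2 a b h ha hb

theorem Valid.supp_finite [Finite ι] {x : Ω → K} (hx : Valid π x) :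
    (Function.support x).Finite :=
  Set.Finite.of_finite_image (Set.toFinite _) hx.injOn

theorem infThm [Finite ι] (hρ : StrictMono ρ) (A : Act π s) (hE : Good π s E)
    (hne : E.Nonempty) : ∃ x ∈ E, InvT Γ x := by
  set M : Set (Ω → K) := {x | x ∈ E ∧ ∀ y ∈ E,
    (Function.support x).ncard ≤ (Function.support y).ncard} with hM
  have Mne : M.Nonempty := by
    obtain ⟨x, hx, hmin⟩ := exists_minimalFor_of_wellFoundedLT (fun x => x ∈ E)
      (fun x => (Function.support x).ncard) hne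
    refine ⟨x, hx, fun y hy => ?_⟩
    by_contra h
    exact h (hmin hy (not_le.1 h).le)
  have Minv : ∀ (g : Γ), ∀ x ∈ M, act s g x ∈ M := by
    intro g x hx
    refine ⟨hE.inv g x hx.1, fun y hy => ?_⟩
    have : Function.support (act s g x) = (fun ω => g • ω) '' Function.support x := by
      ext ω
      rw [Function.mem_support, A.act_ne_zero']
      constructor
      · intro h; exact ⟨_, h, by simp⟩
      · rintro ⟨a, ha, rfl⟩; simpa using ha
    rw [this, Set.ncard_image_of_injective _ (MulAction.injective g)]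
    exact hx.2 y hy
  have same : ∀ x ∈ M, ∀ y ∈ M, π '' Function.support x = π '' Function.support y →
      ∀ ω, x ω ≠ 0 → y ω ≠ 0 := by
    intro x hx y hy h ω hω
    have vx := hE.valid x hx.1
    have vy := hE.valid y hy.1
    obtain ⟨a, ha, haω⟩ : π ω ∈ π '' Function.support y := h ▸ ⟨ω, hω, rfl⟩
    by_contra h1
    have ha' : y a ≠ 0 := ha
    have ht : 0 < x ω / y a := div_pos (vx.pos hω) (vy.pos ha')
    have hz := hE.add x hx.1 _ (hE.smul y hy.1 _ ht)
    have vt := vy.smul ht.le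
    have k : hh π x ω + hh π ((x ω / y a) • y) ω = 0 := by
      rw [vx.hh_self hω, vy.hh_smul, Pi.smul_apply, hh_zero h1, ← haω, vy.nrm_eq ha', smul_eq_mul]
      field_simp; ring
    have lt : (π '' Function.support (pls π x ((x ω / y a) • y))).ncard <
        (π '' Function.support x).ncard := by
      apply Set.ncard_lt_ncard _ (Set.toFinite _)
      refine ⟨?_, fun h2 => ?_⟩
      · rintro _ ⟨b, hb, rfl⟩
        rcases vx.add_supp vt hb with h2 | h2
        · exact ⟨b, h2, rfl⟩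
        · rw [h]; exact ⟨b, fun h3 => h2 (by simp [h3]), rfl⟩
      · obtain ⟨b, hb, h3⟩ := h2 ⟨ω, hω, rfl⟩
        exact hb (vx.add_fib_zero vt k h3)
    rw [(hE.valid _ hz).injOn.ncard_image, vx.injOn.ncard_image] at lt
    exact absurd (hx.2 _ hz) (not_le.2 lt)
  let S : SubMulAction Γ Ω :=
    { carrier := {ω | ∃ x ∈ M, x ω ≠ 0}
      smul_mem' := by
        rintro g ω ⟨x, hx, h⟩
        exact ⟨_, Minv g x hx, (A.act_ne_zero g).2 h⟩ }
  have Sfin : (S : Set Ω).Finite := by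
    have h1 : ∀ J : Set ι, ∃ B : Set Ω, B.Finite ∧ ∀ x ∈ M, π '' Function.support x = J →
        ∀ ω, x ω ≠ 0 → ω ∈ B := by
      intro J
      by_cases h : ∃ y ∈ M, π '' Function.support y = J
      · obtain ⟨y, hy, h⟩ := h
        exact ⟨_, (hE.valid y hy.1).supp_finite, fun x hx h2 => same x hx y hy (h2.trans h.symm)⟩
      · exact ⟨∅, Set.finite_empty, fun x hx h2 => absurd ⟨x, hx, h2⟩ h⟩
    choose B hB hB' using h1
    refine (Set.finite_iUnion hB).subset ?_
    rintro ω ⟨x, hx, h⟩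
    exact Set.mem_iUnion.2 ⟨_, hB' _ x hx rfl ω h⟩
  have : Finite S := Sfin
  set π' : S → ι := fun a => π a with hπ'
  set s' : Γ → S → K := fun g a => s g a with hs'
  have A' : Act π' s' := ⟨fun g a => A.pos g a, fun g h a => A.mul g h a,
    fun g a b => A.fib g a b, fun g a b => A.const g a b⟩
  set ES : Set (Ω → K) := {x | x ∈ E ∧ ∀ ω, x ω ≠ 0 → ω ∈ S} with hES
  set R : (Ω → K) → (S → K) := fun x a => x a with hR
  have Rv : ∀ x, Valid π x → Valid π' (R x) := fun x hx =>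
    ⟨fun a => hx.1 a, fun a b h h1 h2 => Subtype.ext (hx.2 a b h h1 h2)⟩
  have Rh : ∀ x ∈ ES, ∀ a : S, hh π' (R x) a = hh π x a := by
    intro x hx a
    have vx := hE.valid x hx.1
    have : nrm π' (R x) (π' a) = nrm π x (π a) := by
      rcases fib_cases (π := π) x (π a) with h | ⟨b, hb, h⟩
      · rw [nrm_eq_zero h, nrm_eq_zero]
        intro b hb; exact h b hb
      · have e : π' a = π' ⟨b, hx.2 b h⟩ := hb.symm
        rw [e, (Rv x vx).nrm_eq (ω := ⟨b, hx.2 b h⟩) h, ← hb, vx.nrm_eq h]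
    unfold hh; rw [this]
  have good : Good π' s' (R '' ES) := by
    refine ⟨?_, ?_, ?_, ?_⟩
    · rintro _ ⟨x, hx, rfl⟩; exact Rv x (hE.valid x hx.1)
    · rintro _ ⟨x, hx, rfl⟩ _ ⟨z, hz, rfl⟩
      refine ⟨pls π x z, ⟨hE.add x hx.1 z hz.1, fun ω h => ?_⟩, ?_⟩
      · rcases (hE.valid x hx.1).add_supp (hE.valid z hz.1) h with h1 | h1
        · exact hx.2 ω h1
        · exact hz.2 ω h1
      · funext a
        rw [add_apply, Rh x hx, Rh z hz]; rfl
    · rintro _ ⟨x, hx, rfl⟩ t ht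
      exact ⟨t • x, ⟨hE.smul x hx.1 t ht, fun ω h => hx.2 ω fun h1 => h (by simp [h1])⟩, rfl⟩
    · rintro g _ ⟨x, hx, rfl⟩
      refine ⟨act s g x, ⟨hE.inv g x hx.1, fun ω h => ?_⟩, rfl⟩
      have := S.smul_mem g (hx.2 _ ((A.act_ne_zero' g).1 h))
      simpa using this
  obtain ⟨x0, hx0⟩ := Mne
  obtain ⟨_, ⟨x, hx, rfl⟩, hinv⟩ := kfinThm hρ A' _ _ rfl good
    ⟨_, x0, ⟨hx0.1, fun ω h => ⟨x0, hx0, h⟩⟩, rfl⟩
  exact ⟨x, hx.1, fun g ω h => hinv g ⟨ω, hx.2 ω h⟩ h⟩

end Pool.Agent.P.MP_6990a0_al
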