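import Pool.Agent.P.MP_6990a0_al.JD

/-! Ultraproducts of fields, frames and distances of filtrations. -/

namespace Pool.Agent.P.MP_6990a0_al.VC

open Filter

universe u

theorem exists_ultra {ι : Type} (𝒰 : Ultrafilter ι) (k : ι → Type u) [∀ i, Field (k i)] :
    ∃ (K : Type u) (_ : Field K) (π : (∀ i, k i) →+* K),
      ∀ x, π x = 0 ↔ ∀ᶠ i in 𝒰, x i = 0 := by
  let I : Ideal (∀ i, k i) :=
    { carrier := {x | ∀ᶠ i in 𝒰, x i = 0}
      zero_mem' := Eventually.of_forall fun _ => rfl
      add_mem' := fun {x y} hx hy => (Eventually.and hx hy).mono fun i h => by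
        rw [Pi.add_apply, h.1, h.2, add_zero]
      smul_mem' := fun c x hx => Eventually.mono hx fun i h => by
        rw [smul_eq_mul, Pi.mul_apply, h, mul_zero] }
  have hI : I.IsMaximal := by
    refine Ideal.isMaximal_iff.2 ⟨fun h => ?_, fun J x hJ hx hxJ => ?_⟩
    · obtain ⟨i, hi⟩ := Eventually.exists (show ∀ᶠ i in 𝒰, (1 : ∀ i, k i) i = 0 from h)
      exact one_ne_zero hi
    · have h1 : ∀ᶠ i in 𝒰, ¬ x i = 0 := Ultrafilter.eventually_not.2 hx
      have h2 : 1 - (fun i => (x i)⁻¹) * x ∈ I := h1.mono fun i h => by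
        rw [Pi.sub_apply, Pi.mul_apply, inv_mul_cancel₀ h, Pi.one_apply, sub_self]
      have h3 := J.add_mem (hJ h2) (J.mul_mem_left (fun i => (x i)⁻¹) hxJ)
      rwa [sub_add_cancel] at h3
  exact ⟨(∀ i, k i) ⧸ I, Ideal.Quotient.field I, Ideal.Quotient.mk I,
    fun x => Ideal.Quotient.eq_zero_iff_mem⟩

theorem exists_frame {ι : Type} {k : ι → Type u} [∀ i, Field (k i)] {n : ℕ}
    (b : ∀ i, GL (Fin n) (k i)) : ∃ β, ∀ i, atI β i = b i := by
  refine ⟨⟨Matrix.of fun r s i => (b i).1 r s, Matrix.of fun r s i => (b i)⁻¹.1 r s, ?_, ?_⟩,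
    fun i => Units.ext rfl⟩
  · ext r s i
    have h := congrFun (congrFun (b i).mul_inv r) s
    rw [Matrix.mul_apply] at h
    simp only [Matrix.mul_apply, Matrix.of_apply, Finset.sum_apply, Pi.mul_apply, h]
    by_cases e : r = s <;> simp [Matrix.one_apply, e]
  · ext r s i
    have h := congrFun (congrFun (b i).inv_mul r) s
    rw [Matrix.mul_apply] at h
    simp only [Matrix.mul_apply, Matrix.of_apply, Finset.sum_apply, Pi.mul_apply, h]
    by_cases e : r = s <;> simp [Matrix.one_apply, e]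

section lat
variable {L : Type*} [CompleteLattice L] {x y z : ℝ → L} {δ δ' : ℝ}

theorem near_refl (hx : Antitone x) (h : 0 ≤ δ) : Near δ x x := by
  exact fun t => hx (sub_le_self t h)

theorem near_trans (h : Near δ x y) (h' : Near δ' y z) : Near (δ + δ') x z := by
  intro t
  rw [← sub_sub]
  exact (h t).trans (h' _)

theorem near_sc (h : Near δ x y) {c : ℝ} (hc : 0 < c) : Near (c * δ) (sc c x) (sc c y) := by
  intro t
  have e : (t - c * δ) / c = t / c - δ := by rw [sub_div, mul_div_cancel_left₀ _ hc.ne']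
  unfold sc
  rw [e]
  exact h _

end lat

section
variable {K V : Type*} [Field K] [AddCommGroup V] [Module K V] {n : ℕ}

theorem near_chart {J : Type*} {b : J → V} (hb : LinearIndependent K b) (w w' : J → ℝ) (δ : ℝ) :
    Near δ (chart K b w) (chart K b w') ↔ ∀ j, w j ≤ w' j + δ := by
  refine ⟨fun h j => ?_, fun h t => Submodule.span_mono (Set.image_mono fun j hj => ?_)⟩
  · exact sub_le_iff_le_add.1 ((va1_mem hb _ j).1 (h _ (va1_self b w j)))
  · exact sub_le_iff_le_add.2 (le_trans hj (h j))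

theorem xt_chart (b : Module.Basis (Fin n) K V) :
    ∃ b' : Module.Basis (Fin (n + 1)) K (V × K), ∀ w c,
      xt (chart K b w) c = chart K b' (Fin.cons c w) := by
  let e : Fin n ⊕ Unit ≃ Fin (n + 1) :=
    { toFun := Sum.elim Fin.succ fun _ => 0
      invFun := Fin.cons (Sum.inr ()) Sum.inl
      left_inv := by rintro (j | j) <;> simp
      right_inv := fun j => by refine Fin.cases ?_ (fun j => ?_) j <;> simp }
  refine ⟨(b.prod (Module.Basis.singleton Unit K)).reindex e, fun w c => funext fun t => ?_⟩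
  have h0 : (b.prod (Module.Basis.singleton Unit K)).reindex e 0 = (0, 1) := by
    rw [Module.Basis.reindex_apply]
    exact (Module.Basis.prod_apply _ _ (Sum.inr ())).trans (by simp)
  have h1 : ∀ j, (b.prod (Module.Basis.singleton Unit K)).reindex e j.succ = (b j, 0) := by
    intro j
    rw [Module.Basis.reindex_apply]
    exact (Module.Basis.prod_apply _ _ (Sum.inl j)).trans (by simp)
  generalize (b.prod (Module.Basis.singleton Unit K)).reindex e = b' at h0 h1
  apply le_antisymm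
  · unfold xt
    rw [LinearMap.prod_eq_sup_map]
    refine sup_le ?_ ?_
    · unfold chart
      rw [Submodule.map_span]
      refine Submodule.span_mono ?_
      rintro _ ⟨_, ⟨j, hj, rfl⟩, rfl⟩
      exact ⟨j.succ, by simpa using hj, h1 j⟩
    · rintro _ ⟨a, ha, rfl⟩
      split_ifs at ha with h
      · have h2 : b' 0 ∈ chart K b' (Fin.cons c w) t :=
          Submodule.subset_span ⟨0, by simpa using h, rfl⟩
        have h3 := Submodule.smul_mem _ a h2
        rw [h0] at h3
        simpa using h3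
      · have h2 : a = 0 := ha
        rw [h2, map_zero]
        exact zero_mem _
  · refine Submodule.span_le.2 ?_
    rintro _ ⟨j, hj, rfl⟩
    revert hj
    refine Fin.cases (fun hj => ?_) (fun j hj => ?_) j
    · have h2 : t ≤ c := by simpa using hj
      rw [h0]
      exact ⟨zero_mem _, by simp [h2]⟩
    · have h2 : t ≤ w j := by simpa using hj
      rw [h1]
      exact ⟨Submodule.subset_span ⟨j, h2, rfl⟩, zero_mem _⟩

theorem xt_inj {x x' : ℝ → Submodule K V} {c c' : ℝ} :
    xt x c = xt x' c' ↔ x = x' ∧ c = c' := by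
  refine ⟨fun h => ?_, fun h => by rw [h.1, h.2]⟩
  have h1 : ∀ t (p : V × K), p ∈ xt x c t ↔ p ∈ xt x' c' t := fun t p => by rw [h]
  refine ⟨funext fun t => Submodule.ext fun v => ?_, le_antisymm ?_ ?_⟩
  · simpa [xt] using h1 t (v, 0)
  · by_contra hc
    simpa [xt, hc] using h1 c (0, 1)
  · by_contra hc
    simpa [xt, hc] using h1 c' (0, 1)

end

variable {k : Type u} [Field k] {n : ℕ}

theorem exists_fl (b : Module.Basis (Fin n) k (Fin n → k)) :
    ∃ γ : GL (Fin n) k, ∀ w, chart k b w = RED.fl γ w := by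
  have h : IsUnit (Matrix.of fun i j => b j i : Matrix (Fin n) (Fin n) k) :=
    Matrix.linearIndependent_cols_iff_isUnit.1 b.linearIndependent
  exact ⟨h.unit, fun w => rfl⟩

theorem fl_basis (γ : GL (Fin n) k) :
    ∃ b : Module.Basis (Fin n) k (Fin n → k), ∀ w, RED.fl γ w = chart k b w := by
  refine ⟨Module.Basis.mk (RED.fl_li γ)
    ((RED.fl_li γ).span_eq_top_of_card_eq_finrank' (by simp)).ge, fun w => ?_⟩
  rw [Module.Basis.coe_mk]
  rfl

theorem near_fl (γ γ' : GL (Fin n) k) (w w' : Fin n → ℝ) (δ : ℝ) :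
    Near δ (RED.fl γ w) (RED.fl γ' w') ↔
      ∀ i j, (γ'⁻¹ * γ).1 i j ≠ 0 → w j ≤ w' i + δ := by
  have e : ∀ t, RED.fl γ' w' (t - δ) = RED.fl γ' (fun i => w' i + δ) t := fun t => by
    simp only [RED.fl, chart, sub_le_iff_le_add]
  have h : Near δ (RED.fl γ w) (RED.fl γ' w') ↔ RED.fl γ w ≤ RED.fl γ' fun i => w' i + δ :=
    forall_congr' fun t => by rw [e]
  rw [h, RED.fl_le_iff]
  exact forall_congr' fun i => forall_congr' fun j => by rw [← not_lt, not_imp_not]

theorem fl_common (γ γ' : GL (Fin n) k) (w w' : Fin n → ℝ) :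
    ∃ (γ'' : GL (Fin n) k) (σ σ' : Fin n → Fin n),
      RED.fl γ w = RED.fl γ'' (w ∘ σ) ∧ RED.fl γ' w' = RED.fl γ'' (w' ∘ σ') := by
  obtain ⟨b, hb⟩ := fl_basis γ
  obtain ⟨b', hb'⟩ := fl_basis γ'
  obtain ⟨a, u, u', h1, h2, h3, h4⟩ := common_basis b b' w w'
  choose σ hσ using h3
  choose σ' hσ' using h4
  obtain ⟨γ'', h⟩ := exists_fl a
  refine ⟨γ'', σ, σ', ?_, ?_⟩
  · rw [hb, h1, h, funext hσ]
    rfl
  · rw [hb', h2, h, funext hσ']
    rfl

end Pool.Agent.P.MP_6990a0_al.VC
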