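import Pool.Agent.P.MP_6990a0_al.JS
import Pool.Agent.P.MP_6990a0_al.JU2
import Pool.Agent.P.MP_6990a0_al.EB4

/-! The theorem for real points, with a bound for the index. -/

namespace Pool.Agent.P.MP_6990a0_al.VC

universe u v

namespace Geo0

section cnt

variable {k V : Type*} [Field k] [AddCommGroup V] [Module k V] {n m : ℕ} {G : Type*} [Group G]
  {Y : Type*} [NormedAddCommGroup Y] [InnerProductSpace ℝ Y] [FiniteDimensional ℝ Y]
  {X : Geo0 k V G Y n}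

theorem AxI.cardII (A : X.AxI) (hm : X.Φ.ncard ≤ m) : Nat.card X.II ≤ m := by
  have e : {E : Submodule ℝ Y | ∃ a ∈ X.Φ, E = X.cls a} = X.cls '' X.Φ :=
    Set.ext fun E => exists_congr fun a => and_congr_right fun _ => eq_comm
  have h : Nat.card X.II = {E : Submodule ℝ Y | ∃ a ∈ X.Φ, E = X.cls a}.ncard := rfl
  rw [h, e]
  exact (Set.ncard_image_le A.fin).trans hm

theorem AxI.typesB (A : X.AxI) (hm : X.Φ.ncard ≤ m) {a : Module.Dual ℝ Y} (ha : a ∈ X.Φ) {v : Y}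
    (hv : v ∈ X.cls a) : ∃ f : Fin ((2 * m + 1) ^ m) → Y, ∀ (M : Y ≃ₗ[ℝ] Y) (s : ℝ), X.Sim M →
      0 < s → (∀ y ∈ X.cls a, ‖M y‖ = s * ‖y‖) → ∃ t, s⁻¹ • M v = f t := by
  classical
  have hR : {d | X.Rel a d} ⊆ X.Φ := fun d hd => eb3_mem ha hd
  have := A.fin.fintype
  have := (A.fin.subset hR).fintype
  rw [cls, Set.image_eq_range, Submodule.mem_span_range_iff_exists_fun] at hv
  obtain ⟨c, rfl⟩ := hv
  have : Nonempty ({d | X.Rel a d} → X.Φ × Bool) := ⟨fun _ => (⟨a, ha⟩, true)⟩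
  have h1 : Fintype.card X.Φ ≤ m := by
    rw [← Nat.card_eq_fintype_card]
    exact hm
  have h2 : Fintype.card {d | X.Rel a d} ≤ m := by
    rw [← Nat.card_eq_fintype_card]
    exact (Set.ncard_le_ncard hR A.fin).trans hm
  obtain ⟨e⟩ := Function.Embedding.nonempty_of_card_le
    (α := {d | X.Rel a d} → X.Φ × Bool) (β := Fin ((2 * m + 1) ^ m)) (by
      rw [Fintype.card_fun, Fintype.card_prod, Fintype.card_bool, Fintype.card_fin]
      exact (Nat.pow_le_pow_left (by omega) _).trans (Nat.pow_le_pow_right (by omega) h2))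
  let F : ({d | X.Rel a d} → X.Φ × Bool) → Y := fun τ => ∑ d, c d •
    ((if (τ d).2 then 1 else -1) * (‖nv d.1‖ / ‖nv (τ d).1.1‖)) • nv (τ d).1.1
  refine ⟨fun t => F (Function.invFun e t), fun M s hM hs hn => ?_⟩
  have key : ∀ d : {d | X.Rel a d}, ∃ p : X.Φ × Bool, s⁻¹ • M (nv d.1) =
      ((if p.2 then 1 else -1) * (‖nv d.1‖ / ‖nv p.1.1‖)) • nv p.1.1 := by
    rintro ⟨d, hd⟩
    obtain ⟨b, hb, c, q, -, -, e1, -⟩ := hM d (eb3_mem ha hd)
    have h1 := hn _ (eb3_nv hd)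
    have hb0 : ‖nv b‖ ≠ 0 := fun h0 => by
      have := nv_pos (A.ne b hb)
      rw [norm_eq_zero.1 h0, map_zero] at this
      exact lt_irrefl _ this
    rw [e1, norm_smul, Real.norm_eq_abs] at h1
    have h2 : |s⁻¹ * c| = ‖nv d‖ / ‖nv b‖ := by
      rw [abs_mul, abs_of_pos (inv_pos.2 hs), eq_div_iff hb0, mul_assoc, h1,
        inv_mul_cancel_left₀ hs.ne']
    rw [e1, smul_smul]
    rcases abs_cases (s⁻¹ * c) with t | t
    · exact ⟨(⟨b, hb⟩, true), by rw [if_pos rfl, one_mul, ← h2, t.1]⟩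
    · exact ⟨(⟨b, hb⟩, false), by
        rw [if_neg Bool.false_ne_true, neg_one_mul, ← h2, t.1, neg_neg]⟩
  choose τ hτ using key
  refine ⟨e τ, ?_⟩
  beta_reduce
  rw [Function.leftInverse_invFun e.injective τ, map_sum, Finset.smul_sum]
  exact Finset.sum_congr rfl fun d _ => by rw [map_smul, smul_comm, hτ]

omit [FiniteDimensional ℝ Y] in
theorem AxI.near_iso (A : X.AxI) {g g' : G} {v v' w w' : Y} {δ : ℝ} (hδ : 0 < δ)
    (h : Near δ (X.ap g v) (X.ap g v')) (h' : Near δ (X.ap g v') (X.ap g v))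
    (e : ‖w - w'‖ ≤ ‖v - v'‖) : Near ((n + 1) * δ) (X.ap g' w) (X.ap g' w') := by
  obtain ⟨b, hb⟩ := ap_basis (X := X) g
  obtain ⟨b', hb'⟩ := ap_basis (X := X) g'
  rw [hb, hb, near_chart b.linearIndependent] at h h'
  rw [hb', hb', near_chart b'.linearIndependent]
  intro j
  have h1 : ‖v - v'‖ ^ 2 ≤ n * δ ^ 2 := by
    rw [A.nrm]
    refine (Finset.sum_le_card_nsmul _ _ (δ ^ 2) fun i _ => ?_).trans_eq (by simp)
    rw [map_sub, Pi.sub_apply]
    exact sq_le_sq' (by linarith [h' i]) (by linarith [h i])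
  have h2 : X.c (w - w') j ^ 2 ≤ ‖w - w'‖ ^ 2 := by
    rw [A.nrm]
    exact Finset.single_le_sum (f := fun i => X.c (w - w') i ^ 2) (fun _ _ => sq_nonneg _)
      (Finset.mem_univ j)
  have h3 : ‖w - w'‖ ^ 2 ≤ ‖v - v'‖ ^ 2 := pow_le_pow_left₀ (norm_nonneg _) e 2
  have h4 : (0 : ℝ) ≤ n := Nat.cast_nonneg n
  have h5 : X.c (w - w') j ^ 2 ≤ ((n + 1) * δ) ^ 2 := by
    rw [mul_pow]
    exact (h2.trans (h3.trans h1)).trans
      (mul_le_mul_of_nonneg_right (by nlinarith) (sq_nonneg _))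
  have h6 := (abs_le_of_sq_le_sq' h5 (by positivity)).2
  rw [map_sub, Pi.sub_apply] at h6
  linarith

end cnt

variable {k : Type u} [Field k] {n m J : ℕ} {G : Type*} [Group G] {Γ : Type v} [Group Γ]
  {a : Γ → (ℝ → Submodule k (Fin n → k)) → ℝ → Submodule k (Fin n → k)}

theorem AxI.mainB {Y : Type*} [NormedAddCommGroup Y] [InnerProductSpace ℝ Y]
    [FiniteDimensional ℝ Y] {X : Geo0 k (Fin n → k) G Y n} (A : X.AxI) (hm : X.Φ.ncard ≤ m)
    (hG : GenB.{u, v} n ((2 * m + 1) ^ m) J) (ha : X.GAct a)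
    {D : Set (ℝ → Submodule k (Fin n → k))} (hDE : D ⊆ X.EE) (hD : Cone ⊤ D)
    (hst : ∀ g, ∀ x ∈ D, a g x ∈ D) :
    ∃ (N : Subgroup Γ) (_ : N.Normal), N.FiniteIndex ∧ N.index ≤ bnd m J ∧ ∀ H : Subgroup Γ,
      Group.IsSolvable (H.map (QuotientGroup.mk' N)) → ∃ x ∈ D, ∀ h ∈ H, X.Same (a h x) x := by
  have := A.finII
  obtain ⟨pr, hpr⟩ := A.exists_pr
  obtain ⟨_, s, hs, hc, hM⟩ := A.exists_act ha
  have hp : Cmp n X.EE a pr s := by
    refine ⟨?_, ?_, ?_, ?_, hs, hc, ?_⟩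
    · rintro i _ ⟨g, v, rfl⟩
      exact ⟨g, _, hpr i g v⟩
    · rintro i _ ⟨g, v, rfl⟩ _ ⟨h, v', rfl⟩
      obtain ⟨p, z, z', e1, e2⟩ := A.toAx.common g h v v'
      rw [e1, e2, ap_add, hpr, hpr, hpr, ap_add, map_add]
    · rintro i c hc' _ ⟨g, v, rfl⟩
      rw [ap_sc g hc', hpr, hpr, ap_sc g hc', map_smul]
    · rintro γ i _ ⟨g, v, rfl⟩
      obtain ⟨g', M, h⟩ := GAct.lin' A.toAx ha γ g
      rw [hpr, h, h, hpr]
      exact congrArg _ ((hM γ g g' M h i).2 v)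
    · rintro i _ ⟨g, v, rfl⟩
      obtain ⟨a0, ha0, hi⟩ := i.2
      have hv : i.1.starProjection v ∈ X.cls a0 := by
        rw [← hi]; exact Submodule.starProjection_apply_mem _ v
      refine ⟨X.c '' _, (A.types ha0 hv).image _, fun γ => ?_⟩
      obtain ⟨g', M, h⟩ := GAct.lin' A.toAx ha γ g
      obtain ⟨b, hb⟩ := ap_basis (X := X) g'
      refine ⟨b, _, ⟨_, ⟨M, s γ i, (A.sim2 ha h).1, hs γ i,
        fun y hy => (hM γ g g' M h i).1 y (by rw [hi]; exact hy), rfl⟩, rfl⟩, ?_⟩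
      rw [hpr, h, ap_sc g' (inv_pos.2 (hs γ i)), hb]
      rfl
  have hx : CmpX ((2 * m + 1) ^ m) X.EE a pr s := by
    constructor
    · rintro i _ ⟨g, v, rfl⟩
      obtain ⟨a0, ha0, hi⟩ := i.2
      have hv : i.1.starProjection v ∈ X.cls a0 := by
        rw [← hi]; exact Submodule.starProjection_apply_mem _ v
      obtain ⟨f, hf⟩ := A.typesB hm ha0 hv
      refine ⟨fun t => X.c (f t), fun γ => ?_⟩
      obtain ⟨g', M, h⟩ := GAct.lin' A.toAx ha γ g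
      obtain ⟨b, hb⟩ := ap_basis (X := X) g'
      obtain ⟨t, ht⟩ := hf M (s γ i) (A.sim2 ha h).1 (hs γ i)
        fun y hy => (hM γ g g' M h i).1 y (by rw [hi]; exact hy)
      refine ⟨b, t, ?_⟩
      rw [hpr, h, ap_sc g' (inv_pos.2 (hs γ i)), hb]
      exact congrArg (fun y => chart k b (X.c y)) ht
    · rintro γ i _ ⟨g, v, rfl⟩ _ ⟨g', v', rfl⟩ δ hδ h1 h2
      obtain ⟨p, z, z', e1, e2⟩ := A.toAx.common g g' v v'
      obtain ⟨p', M, h⟩ := GAct.lin' A.toAx ha γ p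
      rw [e1, e2, hpr, hpr] at h1 h2 ⊢
      rw [h, h, ap_sc p' (inv_pos.2 (hs γ i)), ap_sc p' (inv_pos.2 (hs γ i))]
      refine A.near_iso hδ h1 h2 (le_of_eq ?_)
      have h3 := (hM γ p p' M h i).1 _ (sub_mem (Submodule.starProjection_apply_mem i.1 z)
        (Submodule.starProjection_apply_mem i.1 z'))
      rw [← smul_sub, ← map_sub, norm_smul, Real.norm_eq_abs, abs_of_pos (inv_pos.2 (hs γ i))]
      exact (congrArg _ h3).trans (inv_mul_cancel_left₀ (hs γ i).ne' _)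
  obtain ⟨N, hN, hfi, hb, h⟩ :=
    mainSB hG (A.cardII hm) A.toAx.cone (GAct.aact A.toAx ha) hp hx hDE hD hst
  refine ⟨N, hN, hfi, hb, fun H hH => ?_⟩
  obtain ⟨x, hx, h⟩ := h H hH
  refine ⟨x, hx, fun γ hγ => ?_⟩
  obtain ⟨g, v, e⟩ := hDE (hst γ x hx)
  obtain ⟨g', v', e'⟩ := hDE hx
  obtain ⟨p, z, z', e1, e2⟩ := A.toAx.common g g' v v'
  refine ⟨p, z, z', e.trans e1, e'.trans e2, fun b hb => ?_⟩
  obtain ⟨c, hc', h3⟩ := h γ hγ ⟨X.cls b, b, hb, rfl⟩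
  rw [e, e1, e', e2, hpr, hpr, ap_sc p hc'] at h3
  have h4 : (X.cls b).starProjection z = c • (X.cls b).starProjection z' := A.toAx.ap_inj h3
  have h5 : ∀ y, b ((X.cls b).starProjection y) = b y := fun y => by
    have := Submodule.inner_right_of_mem_orthogonal
      (eb3_nv (X := X) (a := b) Relation.ReflTransGen.refl)
      (Submodule.sub_starProjection_mem_orthogonal (K := X.cls b) y)
    rw [inner_nv, map_sub, sub_eq_zero] at this
    exact this.symm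
  rw [← h5 z, h4, map_smul, h5, smul_eq_mul, sign_mul, sign_pos hc', one_mul]

theorem Ax.allB {Y : Type*} [AddCommGroup Y] [Module ℝ Y] [FiniteDimensional ℝ Y]
    {X : Geo0 k (Fin n → k) G Y n} (A : X.Ax) (hm : X.Φ.ncard ≤ m)
    (hG : GenB.{u, v} n ((2 * m + 1) ^ m) J) (ha : X.GAct a)
    {D : Set (ℝ → Submodule k (Fin n → k))} (hDE : D ⊆ X.EE) (hD : Cone ⊤ D)
    (hst : ∀ g, ∀ x ∈ D, a g x ∈ D) :
    ∃ (N : Subgroup Γ) (_ : N.Normal), N.FiniteIndex ∧ N.index ≤ bnd m J ∧ ∀ H : Subgroup Γ,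
      Group.IsSolvable (H.map (QuotientGroup.mk' N)) → ∃ x ∈ D, ∀ h ∈ H, X.Same (a h x) x := by
  let c' : Y →ₗ[ℝ] EuclideanSpace ℝ (Fin n) :=
    (WithLp.linearEquiv 2 ℝ (Fin n → ℝ)).symm.toLinearMap ∘ₗ X.c
  have hc : Function.Injective c' :=
    (WithLp.linearEquiv 2 ℝ (Fin n → ℝ)).symm.injective.comp A.inj
  let _ : NormedAddCommGroup Y := NormedAddCommGroup.induced Y _ c' hc
  let _ : InnerProductSpace ℝ Y := InnerProductSpace.induced c'
  have B : X.AxI := ⟨A, fun v => EuclideanSpace.real_norm_sq_eq (c' v)⟩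
  exact B.mainB hm hG ha hDE hD hst

end Geo0

end Pool.Agent.P.MP_6990a0_al.VC
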