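import Pool.Agent.P.MP_6990a0_al.EL1
import Pool.Agent.P.MP_6990a0_al.EA5

/-! Definitions for the uniform bound. -/

namespace Pool.Agent.P.MP_6990a0_al.VC

open Filter

universe u v

/-- A Lipschitz action. -/
def Lipz {L Γ : Type*} [CompleteLattice L] (c : ℝ) (D : Set (ℝ → L))
    (a : Γ → (ℝ → L) → ℝ → L) : Prop :=
  ∀ g, ∀ x ∈ D, ∀ y ∈ D, ∀ δ : ℝ, 0 < δ → Near δ x y → Near δ y x → Near (c * δ) (a g x) (a g y)

/-- A subgroup of index at most `J` fixes a point. -/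
def GenB (n B J : ℕ) : Prop :=
  ∀ (k : Type u) [Field k] (Γ : Type v) [Group Γ] (D : Set (ℝ → Submodule k (Fin n → k)))
    (a : Γ → (ℝ → Submodule k (Fin n → k)) → ℝ → Submodule k (Fin n → k))
    (u : ℝ → Submodule k (Fin n → k)) (f : Fin B → Fin n → ℝ),
    Cone ⊤ D → AAct D a → Lipz (n + 1) D a → u ∈ D →
    (∀ g, ∃ (b : Module.Basis (Fin n) k (Fin n → k)) (t : Fin B), a g u = chart k b (f t)) →
    ∃ H : Subgroup Γ, H.FiniteIndex ∧ H.index ≤ J ∧ ∃ x ∈ D, ∀ g ∈ H, a g x = x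

/-- The bound for the index. -/
def bnd (m J : ℕ) : ℕ := (m.factorial * (J + 1) ^ m).factorial

/-- Bounded types and a Lipschitz bound for the components. -/
structure CmpX {k Γ I : Type*} [Field k] {n : ℕ} (B : ℕ) (E : Set (ℝ → Submodule k (Fin n → k)))
    (a : Γ → (ℝ → Submodule k (Fin n → k)) → ℝ → Submodule k (Fin n → k))
    (pr : I → (ℝ → Submodule k (Fin n → k)) → ℝ → Submodule k (Fin n → k))
    (s : Γ → I → ℝ) : Prop where
  typ : ∀ i, ∀ x ∈ E, ∃ f : Fin B → Fin n → ℝ, ∀ g,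
    ∃ (b : Module.Basis (Fin n) k (Fin n → k)) (t : Fin B),
      sc (s g i)⁻¹ (a g (pr i x)) = chart k b (f t)
  lip : ∀ g i, ∀ x ∈ E, ∀ y ∈ E, ∀ δ : ℝ, 0 < δ → Near δ (pr i x) (pr i y) →
    Near δ (pr i y) (pr i x) →
      Near ((n + 1) * δ) (sc (s g i)⁻¹ (a g (pr i x))) (sc (s g i)⁻¹ (a g (pr i y)))

/-- A filtration with one more line of weight `c`. -/
noncomputable def xt {K V : Type*} [Field K] [AddCommGroup V] [Module K V]
    (x : ℝ → Submodule K V) (c : ℝ) : ℝ → Submodule K (V × K) :=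
  fun t => (x t).prod (if t ≤ c then ⊤ else ⊥)

variable {ι : Type} {d n : ℕ}

/-- A tower of scales, each negligible against the earlier ones. -/
structure Sc (𝒰 : Ultrafilter ι) (ε : Fin d → ι → ℝ) : Prop where
  pos : ∀ l i, 0 < ε l i
  lim : ∀ l l', l < l' → ∀ η : ℝ, 0 < η → ∀ᶠ i in 𝒰, ε l' i ≤ η * ε l i

/-- The combination of the scales with coefficients `x`. -/
def cmb (ε : Fin d → ι → ℝ) (i : ι) (x : Fin d → ℝ) : ℝ := ∑ l, ε l i * x l

/-- The lexicographic preorder on the coordinates below `m`. -/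
def LexLe (m : ℕ) (x y : Fin d → ℝ) : Prop :=
  ∀ l : Fin d, l.val < m → (∀ l', l' < l → x l' = y l') → x l ≤ y l

/-- `ν` codes the lexicographic preorder on the admissible vectors. -/
def Code (m : ℕ) (t : Fin n → Fin d → ℝ) (lam : ℝ) (ν : Fin d → ℝ) : Prop :=
  ∀ c : ℝ, 0 < c → ∀ (x y : Fin d → ℝ) (j j' : Fin n),
    (∀ l : Fin d, l.val < m → x l = c * t j l) → (∀ l : Fin d, l.val < m → y l = c * t j' l) →
    (∀ l : Fin d, l.val = m → |x l| ≤ lam * c ∧ |y l| ≤ lam * c) →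
      (ν ⬝ᵥ x ≤ ν ⬝ᵥ y ↔ LexLe (m + 1) x y)

/-- Admissible weights. -/
def Adm (m : ℕ) (t : Fin n → Fin d → ℝ) (lam c : ℝ) (W : Fin n → Fin d → ℝ) : Prop :=
  ∀ j, (∃ j', ∀ l : Fin d, l.val < m → W j l = c * t j' l) ∧
    ∀ l : Fin d, l.val = m → |W j l| ≤ lam * c

variable {k : ι → Type u} [∀ i, Field (k i)] {Γ : ι → Type v}

variable (k n) in
/-- Families of filtrations. -/
abbrev Sq : Type u := ∀ i, ℝ → Submodule (k i) (Fin n → k i)

/-- The frame at `i`. -/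
def atI (β : GL (Fin n) (∀ i, k i)) (i : ι) : GL (Fin n) (k i) :=
  Matrix.GeneralLinearGroup.map (Pi.evalRingHom k i) β

/-- Normal forms. -/
def NF (𝒰 : Ultrafilter ι) (ε : Fin d → ι → ℝ) (z : Sq n k) (β : GL (Fin n) (∀ i, k i))
    (W : Fin n → Fin d → ℝ) : Prop :=
  ∀ᶠ i in 𝒰, z i = RED.fl (atI β i) fun j => cmb ε i (W j)

/-- `z ≤ z'` up to an error that is negligible against the scales below `m`. -/
def Cle (𝒰 : Ultrafilter ι) (ε : Fin d → ι → ℝ) (m : ℕ) (z z' : Sq n k) : Prop :=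
  ∀ l : Fin d, l.val < m → ∀ η : ℝ, 0 < η → ∀ᶠ i in 𝒰, Near (η * ε l i) (z i) (z' i)

/-- Equality on the scales below `m`. -/
def Cq (𝒰 : Ultrafilter ι) (ε : Fin d → ι → ℝ) (m : ℕ) (z z' : Sq n k) : Prop :=
  Cle 𝒰 ε m z z' ∧ Cle 𝒰 ε m z' z

/-- Sums of families. -/
def addS (z z' : Sq n k) : Sq n k := fun i => add (z i) (z' i)

/-- Multiples of families. -/
noncomputable def scS (c : ℝ) (z : Sq n k) : Sq n k := fun i => sc c (z i)

/-- The action on families. -/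
def actS (a : ∀ i, Γ i → (ℝ → Submodule (k i) (Fin n → k i)) → ℝ → Submodule (k i) (Fin n → k i))
    (g : ∀ i, Γ i) (z : Sq n k) : Sq n k := fun i => a i (g i) (z i)

/-- The families whose orbit has finitely many types. -/
def Fam (𝒰 : Ultrafilter ι) (ε : Fin d → ι → ℝ)
    (D : ∀ i, Set (ℝ → Submodule (k i) (Fin n → k i)))
    (a : ∀ i, Γ i → (ℝ → Submodule (k i) (Fin n → k i)) → ℝ → Submodule (k i) (Fin n → k i)) :
    Set (Sq n k) :=
  {z | (∀ i, z i ∈ D i) ∧ ∃ 𝒲 : Set (Fin n → Fin d → ℝ), 𝒲.Finite ∧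
    ∀ g, ∃ β, ∃ W ∈ 𝒲, NF 𝒰 ε (actS a g z) β W}

/-- The roots replaced by the differences of weights on their rays. -/
def Geo0.nz {k V G Y : Type*} [Field k] [AddCommGroup V] [Module k V] [Group G] [AddCommGroup Y]
    [Module ℝ Y] {n : ℕ} (X : Geo0 k V G Y n) : Geo0 k V G Y n :=
  { X with Φ := {b | (∃ i j, b = LinearMap.proj i ∘ₗ X.c - LinearMap.proj j ∘ₗ X.c) ∧
      ∃ a ∈ X.Φ, ∃ t : ℝ, 0 < t ∧ b = t • a} }

end Pool.Agent.P.MP_6990a0_al.VC
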