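import Pool.Agent.P.MP_6990a0_al.EDefs

/-! Closed embeddings of `G = Spec A` in `GL_n`. -/

universe u

namespace Pool.Agent.Edif

variable (k : Type u) [Field k] {A : Type u} [CommRing A] [HopfAlgebra k A]

/-- The invertible matrix `u` of functions on `G` is a closed embedding of groups `G → GL_n`. -/
structure IsEmb {n : ℕ} (u : GL (Fin n) A) : Prop where
  mul : ∀ (S : Type u) [CommRing S] [Algebra k S] (g h : Pt k A S),
    u.1.map (g * h).ofConv = u.1.map g.ofConv * u.1.map h.ofConv
  gen : Algebra.adjoin k {a | ∃ i j, a = u.1 i j ∨ a = u⁻¹.1 i j} = ⊤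

end Pool.Agent.Edif
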