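import Pool.Agent.P.MP_6990a0_al.JN
import Pool.Agent.P.MP_c1f06d_ag.g.NV

/-! The definitions of the edifice for the general linear group. -/

open WithConv Matrix Pool.Agent.GR Pool.Agent.RED Pool.Agent.P.MP_6990a0_al
open Pool.Agent.P.MP_6990a0_al.VC

universe u

namespace Pool.Agent.Edif

variable {k : Type u} [Field k] {A : Type u} [CommRing A] [HopfAlgebra k A] {n : ℕ}

/-- The one-point homogeneous space. -/
noncomputable def jgH (k : Type u) [Field k] (n : ℕ) : HS k n where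
  B := k
  ft := inferInstance
  act _ y := y
  act_one _ := rfl
  act_mul _ _ _ := rfl
  act_nat _ _ _ := rfl
  y0 := AlgHom.id k k
  t2 _ _ y y' _ := ⟨1, fun i j => by simp, Subsingleton.elim _ _⟩
  t4 f h := ⟨GR.ev k (1 : GL (Fin n) k) f, fun S _ _ g => by
    have := h S 1 g rfl
    rw [one_mul] at this
    rw [this]
    exact (Co.map_ev (Algebra.ofId k S) 1 f).trans (by rw [map_one])⟩

theorem jg_real {u : GL (Fin n) A} (hu : IsEmb k u)
    (hs : ∀ (S : Type u) [CommRing S] [Algebra k S] (g : GL (Fin n) S),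
      ∃ x : Pt k A S, u.1.map x.ofConv = g.1) :
    ∃ X : Real k A (jgH k n), ∀ (S : Type u) [CommRing S] [Algebra k S] (j : k →ₐ[k] S)
      (x : Pt k A S), X.ρ S j x = gm x.ofConv u := by
  have hr : IsRep k u := fun C _ _ g g' => Units.ext (hu.mul C g g')
  refine ⟨⟨⟨fun T _ _ _ => hr.pts T, fun _ _ _ _ _ _ _ _ _ => rfl, fun T _ _ _ x y e => ?_⟩,
    fun T c i i' st g => ?_⟩, fun _ _ _ _ _ => rfl⟩
  · exact WithConv.ext (jl1_ext hu e)
  · refine ⟨fun _ => ?_, fun _ => rfl⟩
    obtain ⟨x, hx⟩ := @hs T c i g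
    exact ⟨x, Units.ext hx⟩

theorem jg_span (n : ℕ) :
    Submodule.span ℤ (Set.range fun i : Fin n => (Pi.single i 1 : XL n)) = ⊤ := by
  have := (Pi.basisFun ℤ (Fin n)).span_eq
  rwa [show (Pi.basisFun ℤ (Fin n) : Fin n → XL n) = fun i => Pi.single i 1 from
    funext fun i => Pi.basisFun_apply _ _ i] at this

theorem jg_ne {i j : Fin n} (h : i ≠ j) : (Pi.single i 1 : XL n) ≠ Pi.single j 1 := fun e => by
  simpa [h] using congrFun e i

theorem jg_max (X : Real k A (jgH k n)) {t : A →ₐ[k] GA k (XL n)} {h1 : Function.Surjective t}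
    {h2 : _} (h : X.Dg (tpt (⟨n, t, h1, h2⟩ : Torus k A)) fun i => Pi.single i 1) :
    (⟨n, t, h1, h2⟩ : Torus k A).IsMax := by
  intro T' hk
  let B := GA k (XL T'.r)
  obtain ⟨φ, hφ⟩ : ∃ φ : B →ₐ[k] GA k (XL n), ∀ a, φ (T'.t a) = t a :=
    ⟨_, AlgHom.liftOfSurjective_apply T'.t T'.onto t hk⟩
  have evl : ∀ (S : Type u) [CommRing S] [Algebra k S] (f : B →ₐ[k] S),
      ev T'.t ((AddMonoidAlgebra.lift k S (XL T'.r)).symm f) = pm f (tpt T') := fun S _ _ f => by
    rw [ev, Equiv.apply_symm_apply]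
    rfl
  have com : ∀ (S : Type u) [CommRing S] [Algebra k S] (f f' : B →ₐ[k] S),
      pm f (tpt T') * pm f' (tpt T') = pm f' (tpt T') * pm f (tpt T') := fun S _ _ f f' => by
    rw [← evl, ← evl]
    exact (T'.mul S _ _).symm.trans ((congrArg _ (mul_comm _ _)).trans (T'.mul S _ _))
  let w := X.ρ B (Algebra.ofId k B) (tpt T')
  have e1 : X.ρ _ (Algebra.ofId k _) (pm ((tl (Algebra.ofId k _) (uT B (XL n))).comp φ) (tpt T')) =
      rho B fun i : Fin n => (Pi.single i 1 : XL n) := by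
    have e0 : pm ((tl (Algebra.ofId k (GA B (XL n))) (uT B (XL n))).comp φ) (tpt T') =
        tev (tpt (⟨n, t, h1, h2⟩ : Torus k A)) (Algebra.ofId k _) (uT B (XL n)) :=
      WithConv.ext (AlgHom.ext fun a =>
        congrArg (tl (Algebra.ofId k (GA B (XL n))) (uT B (XL n))) (hφ a))
    rw [e0, h.tev]
    rfl
  have e2 : X.ρ _ (Algebra.ofId k _) (pm (cst k B (XL n)) (tpt T')) = gm (cst k B (XL n)) w :=
    ((X.nat _ _ (cst k B (XL n)) (Algebra.ofId k B) (tpt T')).trans
      (by rw [Subsingleton.elim ((cst k B (XL n)).comp _) (Algebra.ofId k _)])).symm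
  have e3 := congrArg (X.ρ _ (Algebra.ofId k _))
    (com _ ((tl (Algebra.ofId k _) (uT B (XL n))).comp φ) (cst k B (XL n)))
  rw [map_mul, map_mul, e1, e2] at e3
  have off : ∀ i j, i ≠ j → w.1 i j = 0 := fun i j hij => by
    have e4 := congrArg (fun g : GL (Fin n) (GA B (XL n)) => g.1 i j) e3
    simp only [Units.val_mul, GR.rho, dgU] at e4
    rw [diagonal_mul, mul_diagonal] at e4
    change AddMonoidAlgebra.single _ 1 * AddMonoidAlgebra.single 0 (w.1 i j) =
      AddMonoidAlgebra.single 0 (w.1 i j) * AddMonoidAlgebra.single _ 1 at e4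
    rw [AddMonoidAlgebra.single_mul_single, AddMonoidAlgebra.single_mul_single, add_zero, zero_add,
      one_mul, mul_one] at e4
    by_contra h0
    exact jg_ne hij (AddMonoidAlgebra.single_left_injective h0 e4)
  have un : ∀ i, IsUnit (w.1 i i) := fun i => by
    have := congrFun (congrFun w.mul_inv i) i
    rw [mul_apply, Finset.sum_eq_single i (fun j _ hj => by rw [off i j hj.symm, zero_mul])
      (fun hi => absurd (Finset.mem_univ i) hi), one_apply_eq] at this
    exact IsUnit.of_mul_eq_one _ this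
  let τ : TP (XL n) B := MonoidHom.mk' (fun m => ∏ i, (un i).unit ^ m.toAdd i) fun a b => by
    simp only [toAdd_mul, Pi.add_apply, _root_.zpow_add, Finset.prod_mul_distrib]
  have e5 : tev (tpt (⟨n, t, h1, h2⟩ : Torus k A)) (Algebra.ofId k B) τ = tpt T' :=
    X.inj B (Algebra.ofId k B) ((h.tev _ τ).trans (Units.ext (Matrix.ext fun i j => by
      change diagonal (fun i => ((∏ l, (un l).unit ^ (Pi.single i 1 : XL n) l : Bˣ) : B)) i j =
        w.1 i j
      by_cases hij : i = j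
      · subst hij
        rw [diagonal_apply_eq, Finset.prod_eq_single i (fun l _ hl => by simp [hl])
          (fun hi => absurd (Finset.mem_univ i) hi)]
        simp
      · rw [diagonal_apply_ne _ hij, off i j hij])))
  intro a ha
  have ha' : t a = 0 := ha
  have := congrArg (fun x : Pt k A B => x.ofConv a) e5
  change tl _ τ (t a) = T'.t a at this
  rw [RingHom.mem_ker, ← this, ha', map_zero]

theorem jg_root (X : Real k A (jgH k n)) {t : A →ₐ[k] GA k (XL n)} {h1 : Function.Surjective t}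
    {h2 : _} (h : X.Dg (tpt (⟨n, t, h1, h2⟩ : Torus k A)) fun i => Pi.single i 1) (a : XL n) :
    (⟨n, t, h1, h2⟩ : Torus k A).IsRoot a ↔
      ∃ i j, i ≠ j ∧ a = Pi.single i 1 - Pi.single j 1 := by
  let D := DualNumber k
  have nat : ∀ (S : Type u) [CommRing S] [Algebra k S] (φ : D →ₐ[k] S) (ξ : Pt k A D),
      X.ρ S (Algebra.ofId k S) (ξ.map φ) = gm φ (X.ρ D (Algebra.ofId k D) ξ) := fun S _ _ φ ξ =>
    ((X.nat _ _ φ (Algebra.ofId k D) ξ).trans
      (by rw [Subsingleton.elim (φ.comp _) (Algebra.ofId k _)]; rfl)).symm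
  have dg : ∀ (S : Type u) [CommRing S] [Algebra k S] (τ : Multiplicative (XL n) →* S),
      (X.ρ S (Algebra.ofId k S) (ev t τ)).1 =
        diagonal fun i => τ (Multiplicative.ofAdd (Pi.single i 1)) := fun S _ _ τ =>
    congrArg Units.val ((congrArg _ (ev_eq (⟨n, t, h1, h2⟩ : Torus k A) τ)).trans (h.tev _ _))
  constructor
  · rintro ⟨ha, ξ, n1, n2, n3⟩
    let w := X.ρ D (Algebra.ofId k D) ξ
    have f1 : ∀ i j, (w.1 i j).fst = (1 : Mat n k) i j := fun i j => by
      have := nat k (TrivSqZeroExt.fstHom k k k) ξ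
      rw [n2, map_one] at this
      exact (congrArg (fun g : GL (Fin n) k => g.1 i j) this).symm
    obtain ⟨i, j, hij⟩ : ∃ i j, (w.1 i j).snd ≠ 0 := by
      by_contra hn
      push Not at hn
      refine n1 (X.inj D (Algebra.ofId k D) ?_)
      rw [map_one]
      refine Units.ext (Matrix.ext fun i j => TrivSqZeroExt.ext ((f1 i j).trans ?_)
        ((hn i j).trans ?_))
      · by_cases e : i = j <;> simp [Matrix.one_apply, e]
      · by_cases e : i = j <;> simp [e]
    let φ' : D →ₐ[k] GA D (XL n) := DualNumber.lift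
      ⟨(Algebra.ofId k _, AddMonoidAlgebra.single a DualNumber.eps), by
        show AddMonoidAlgebra.single a DualNumber.eps * AddMonoidAlgebra.single a DualNumber.eps = 0
        rw [AddMonoidAlgebra.single_mul_single, DualNumber.eps_mul_eps,
          AddMonoidAlgebra.single_zero], fun _ => Commute.all _ _⟩
    have e := congrArg (fun x => (X.ρ _ (Algebra.ofId k _) x).1 i j)
      (n3 (GA D (XL n)) ((Units.coeHom _).comp (uT D (XL n))) (cst k D _) φ' (by
        show Algebra.ofId k _ 0 + Algebra.ofId k _ 1 * AddMonoidAlgebra.single a DualNumber.eps =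
          AddMonoidAlgebra.single a 1 * AddMonoidAlgebra.single 0 DualNumber.eps
        rw [map_zero, map_one, zero_add, one_mul, AddMonoidAlgebra.single_mul_single, add_zero,
          one_mul]))
    simp only [map_mul, Units.val_mul, nat, dg] at e
    rw [diagonal_mul, mul_diagonal] at e
    change AddMonoidAlgebra.single _ 1 * AddMonoidAlgebra.single 0 (w.1 i j) =
      (AddMonoidAlgebra.single 0 (algebraMap k D (w.1 i j).fst) +
        AddMonoidAlgebra.single 0 (algebraMap k D (w.1 i j).snd) *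
          AddMonoidAlgebra.single a DualNumber.eps) * AddMonoidAlgebra.single _ 1 at e
    simp only [add_mul, AddMonoidAlgebra.single_mul_single, zero_add, add_zero, one_mul,
      mul_one, toAdd_ofAdd] at e
    have e' := congrArg (fun x : GA D (XL n) => (x.coeff (Pi.single i 1)).snd) e
    have key : a + Pi.single j 1 = Pi.single i 1 := by
      by_contra hne
      refine hij ?_
      rw [AddMonoidAlgebra.coeff_add, Finsupp.add_apply, AddMonoidAlgebra.coeff_single,
        AddMonoidAlgebra.coeff_single, AddMonoidAlgebra.coeff_single, Finsupp.single_eq_same,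
        Finsupp.single_eq_of_ne' hne, add_zero, Finsupp.single_apply] at e'
      refine e'.trans ?_
      split_ifs <;> rfl
    refine ⟨i, j, fun e => ha ?_, eq_sub_of_add_eq key⟩
    subst e
    exact add_eq_right.1 key
  · rintro ⟨i, j, hij, rfl⟩
    obtain ⟨ξ, hξ⟩ := (X.mem D ⟨transvection i j DualNumber.eps, transvection i j (-DualNumber.eps),
      by rw [transvection_mul_transvection_same i j hij, add_neg_cancel, transvection_zero],
      by rw [transvection_mul_transvection_same i j hij, neg_add_cancel, transvection_zero]⟩).1 rfl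
    have hw : (X.ρ D (Algebra.ofId k D) ξ).1 = transvection i j DualNumber.eps :=
      congrArg Units.val ((congrArg (fun z => X.ρ D z ξ) (Subsingleton.elim _ _)).trans hξ)
    have hm : ∀ (S : Type u) [CommRing S] [Algebra k S] (φ : D →ₐ[k] S),
        (X.ρ S (Algebra.ofId k S) (Pt.map φ ξ)).1 = transvection i j (φ DualNumber.eps) := by
      intro S _ _ φ
      rw [nat]
      change (X.ρ D (Algebra.ofId k D) ξ).1.map φ = _
      rw [hw]
      ext p q
      simp [transvection, Matrix.one_apply, single, apply_ite φ]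
    refine ⟨sub_ne_zero.2 (jg_ne hij), ξ, fun e => ?_, X.inj k (Algebra.ofId k k) ?_,
      fun S _ _ τ φ φ' e => X.inj S (Algebra.ofId k S) (Units.ext ?_)⟩
    · rw [e, map_one] at hw
      have := congrArg (fun M : Mat n D => (M i j).snd) hw
      simp [transvection, hij] at this
    · rw [map_one]
      refine Units.ext ((hm k _).trans ?_)
      exact transvection_zero i j
    · simp only [map_mul, Units.val_mul, hm, dg]
      have e1 : τ (Multiplicative.ofAdd (Pi.single i 1 - Pi.single j 1)) *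
          τ (Multiplicative.ofAdd (Pi.single j 1)) = τ (Multiplicative.ofAdd (Pi.single i 1)) := by
        rw [← map_mul, ← ofAdd_add, sub_add_cancel]
      ext p q
      rw [diagonal_mul, mul_diagonal, e]
      by_cases hp : i = p ∧ j = q
      · obtain ⟨rfl, rfl⟩ := hp
        simp only [transvection, Matrix.add_apply, one_apply_ne hij, single_apply_same, zero_add, ← e1]
        ring
      · simp only [transvection, Matrix.add_apply, single_apply_of_ne _ _ _ _ _ hp, add_zero]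
        by_cases hq : p = q
        · subst hq
          simp
        · simp [one_apply_ne hq]

theorem jg_gl (hA : RG.IsReductive k A) {u : GL (Fin n) A} (hu : IsEmb k u)
    (hs : ∀ (S : Type u) [CommRing S] [Algebra k S] (g : GL (Fin n) S),
      ∃ x : Pt k A S, u.1.map x.ofConv = g.1) (K : Subfield ℝ) :
    ∃ (T : MaxT k A) (e : Fin n ≃ Fin T.1.r),
      (∀ a, T.1.IsRoot a ↔ ∃ i j, i ≠ j ∧ a = Pi.single i 1 - Pi.single j 1) ∧
      ∀ (v : Fin T.1.r → K) (S : Type u) [CommRing S] [Algebra k S] (g : Pt k A S),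
        InPar (apt T v) g ↔ ∀ i j, v (e i) < v (e j) → g.ofConv (u.1 i j) = 0 := by
  have := hA.smooth
  have := isDomain_of_red hA
  obtain ⟨X, hX⟩ := jg_real hu hs
  obtain ⟨t, ht⟩ := (el2_fix X (χ := fun i : Fin n => (Pi.single i 1 : XL n))).1 rfl
  obtain ⟨h1, h2, -⟩ := exists_torus X (jg_span n) ht
  obtain ⟨io, hι⟩ := exists_io X K
  refine ⟨⟨⟨n, t.ofConv, h1, h2⟩, jg_max X ht⟩, Equiv.refl _, jg_root X ht, fun v S _ _ g => ?_⟩
  rw [hι.inPar (hι ⟨_, jg_max X ht⟩ 1 _ (dg_rb_one X _ ht) v), map_one, inv_one, one_mul, mul_one,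
    hX]
  refine forall_congr' fun i => forall_congr' fun j => imp_congr ?_ Iff.rfl
  simp [rwt, Pi.single_apply, Geo0.up]

theorem jg_gl' (hA : RG.IsReductive k A) {u : GL (Fin n) A} (hu : IsEmb k u)
    (hs : ∀ (S : Type u) [CommRing S] [Algebra k S] (g : GL (Fin n) S),
      ∃ x : Pt k A S, ∀ i j, x.ofConv (u.1 i j) = g.1 i j) (K : Subfield ℝ) :
    ∃ (T : MaxT k A) (e : Fin n ≃ Fin T.1.r),
      (∀ a, T.1.IsRoot a ↔ ∃ i j, i ≠ j ∧
        ∀ l, a l = (if l = i then 1 else 0) - if l = j then 1 else 0) ∧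
      ∀ (v : Fin T.1.r → K) (S : Type u) [CommRing S] [Algebra k S] (g : Pt k A S),
        InPar (apt T v) g ↔ ∀ i j, v (e i) < v (e j) → g.ofConv (u.1 i j) = 0 := by
  obtain ⟨T, e, h1, h2⟩ := jg_gl hA hu
    (fun S _ _ g => (hs S g).imp fun _ hx => Matrix.ext hx) K
  refine ⟨T, e, fun a => (h1 a).trans ?_, h2⟩
  simp only [funext_iff, Pi.sub_apply, Pi.single_apply]

theorem jg_exists (k : Type u) [Field k] (n : ℕ) : ∃ (A : Type u) (_ : CommRing A)
    (_ : HopfAlgebra k A) (U : GL (Fin n) A), RG.IsReductive k A ∧ IsEmb k U ∧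
    ∀ (S : Type u) [CommRing S] [Algebra k S] (g : GL (Fin n) S),
      ∃ x : Pt k A S, ∀ i j, x.ofConv (U.1 i j) = g.1 i j := by
  let _ := (NV.natGL k n).hopf
  refine ⟨OGL k n, inferInstance, inferInstance, Co.ug k n, NV.isReductive_ogl k n,
    ⟨fun S _ _ g h => congrArg Units.val (map_mul (NV.glPts k n S) g h), ?_⟩,
    fun S _ _ g => ⟨toConv (GR.ev k g), Co.ev_ug_apply g⟩⟩
  set B := Algebra.adjoin k {a | ∃ i j, a = (Co.ug k n).1 i j ∨ a = (Co.ug k n)⁻¹.1 i j}
  have inj : Function.Injective (B.val.toRingHom.mapMatrix : Mat n B → Mat n (OGL k n)) :=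
    Matrix.map_injective Subtype.val_injective
  let g : GL (Fin n) B :=
    ⟨of fun i j => ⟨(Co.ug k n).1 i j, Algebra.subset_adjoin ⟨i, j, .inl rfl⟩⟩,
      of fun i j => ⟨(Co.ug k n)⁻¹.1 i j, Algebra.subset_adjoin ⟨i, j, .inr rfl⟩⟩,
      inj (by rw [map_mul, map_one]; exact (Co.ug k n).mul_inv),
      inj (by rw [map_mul, map_one]; exact (Co.ug k n).inv_mul)⟩
  refine eq_top_iff.2 fun a _ => ?_
  have e : gm B.val g = Co.ug k n := Units.ext rfl
  have := Co.map_ev B.val g a
  rw [e, Co.ev_ug] at this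
  exact (show a = (GR.ev k g a).1 from this.symm) ▸ (GR.ev k g a).2

theorem jg_rat (n : ℕ) : ∃ J : ℕ, ∀ (k : Type u) [Field k] (A : Type u) [CommRing A]
    [HopfAlgebra k A], RG.IsReductive k A → ∀ u : GL (Fin n) A, IsEmb k u →
    ∀ (K : Subfield ℝ) [MulAction (Pt k A k) (Ed k A K)],
    (∀ (g : Pt k A k) (T T' : MaxT k A) θ (v : Fin T.1.r → K) (v' : Fin T'.1.r → K),
      T.1.Conj g T'.1 θ → (∀ m, ∑ i, (m i : K) * v' i = ∑ i, (θ m i : K) * v i) →
      g • apt T v = apt T' v') → ∀ C : Set (Ed k A K),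
    (∀ x ∈ C, ∀ y ∈ C, ∃ T v w, x = apt T v ∧ y = apt T w ∧ apt T '' segment K v w ⊆ C) →
    (∀ T v (c : K), 0 < c → apt T v ∈ C → apt T (c • v) ∈ C) →
    (∃ x ∈ C, ∀ y ∈ C, ¬ Opp x y) →
    ∀ Γ : Subgroup (Pt k A k), (∀ γ ∈ Γ, (γ • ·) '' C = C) →
    ∃ (N : Subgroup Γ) (_ : N.Normal), N.FiniteIndex ∧ N.index ≤ J ∧ ∀ H : Subgroup Γ,
      Group.IsSolvable (H.map (QuotientGroup.mk' N)) →
      ∃ x ∈ C, (∀ T, x ≠ apt T 0) ∧ (∀ y ∈ C, ¬ Opp x y) ∧
        ∀ γ ∈ H, γ.1 • x = x ∧ InPar x γ.1 := by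
  obtain ⟨J, hJ⟩ := topJ.{u, u} n
  refine ⟨J, fun k _ A _ _ hA u hu K a ha C conv cone noncr Γ stab => ?_⟩
  obtain ⟨b, b1, b2, b3, b4⟩ := jn_act hA K
  obtain rfl : a = b := by
    ext g x
    obtain ⟨T, v, rfl⟩ := jn_rep x
    obtain ⟨t, h1, h2, h3, h4⟩ := exists_conj T.1 T.2 g
    exact (ha g T ⟨_, h3⟩ _ v v h4 fun _ => rfl).trans
      (b4 g T ⟨_, h3⟩ _ v v h4 fun _ => rfl).symm
  obtain ⟨N, h1, h2, h3, h4⟩ := hJ k A hA u hu K C conv cone noncr Γ (fun γ => b1 γ.1)
    fun γ => stab γ.1 γ.2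
  refine ⟨N, h1, h2, h3, fun H hH => ?_⟩
  obtain ⟨x, x1, x2, x3, x4⟩ := h4 H hH
  exact ⟨x, x1, x2, x3, fun γ hγ => ⟨(b2 _ x).2 ((b3 _ x).1 (x4 γ hγ)), (b3 _ x).1 (x4 γ hγ)⟩⟩

end Pool.Agent.Edif
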