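import Pool.Agent.P.MP_6990a0_al.JB
import Pool.Agent.P.MP_6990a0_al.EK

/-! The theorem for `K`-points, with a bound for the index. -/

namespace Pool.Agent.P.MP_6990a0_al.VC.Geo0

universe u v

variable {k : Type u} [Field k] {n m J r : ℕ} {G : Type*} [Group G] {Γ : Type v} [Group Γ]
  {a : Γ → (ℝ → Submodule k (Fin n → k)) → ℝ → Submodule k (Fin n → k)} {K : Subfield ℝ}
  {X : Geo0 k (Fin n → k) G (Fin r → ℝ) n}

theorem Ax.mainKB (A : X.Ax) (hm : X.Φ.ncard ≤ m) (hG : GenB.{u, v} n ((2 * m + 1) ^ m) J)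
    (hK : X.Rat K) (ha : X.KAct K a) {C : Set (ℝ → Submodule k (Fin n → k))}
    (hC : C ⊆ X.EK K) (hadd : ∀ x ∈ C, ∀ y ∈ C, add x y ∈ C)
    (hsc : ∀ s ∈ K, 0 < s → ∀ x ∈ C, sc s x ∈ C) (hst : ∀ γ, ∀ x ∈ C, a γ x ∈ C)
    (hn : ∃ x ∈ C, ∀ y ∈ C, ¬ X.OppG K x y) :
    ∃ (N : Subgroup Γ) (_ : N.Normal), N.FiniteIndex ∧ N.index ≤ bnd m J ∧ ∀ H : Subgroup Γ,
      Group.IsSolvable (H.map (QuotientGroup.mk' N)) → ∃ x ∈ C, (∀ y ∈ C, ¬ X.OppG K x y) ∧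
        ∀ h ∈ H, ∀ y ∈ X.EK K, X.Same y x → X.Same (a h y) x := by
  have hCK : KCone K C := by
    refine ⟨fun x hx => ?_, hadd, hsc⟩
    obtain ⟨g, v, rfl⟩ := hC hx
    obtain ⟨b, hb⟩ := ap_basis (X := X) g
    refine ⟨n, b, X.c (up v), fun j => ?_, hb _⟩
    have e : X.c (up v) j = _ := ek_sum (LinearMap.proj j ∘ₗ X.c) (up v)
    rw [e]
    exact K.sum_mem fun i _ => K.mul_mem (v i).2 (hK.wt i j)
  have hD := un_kcone hCK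
  have hun : ∀ x, x ∈ Un C ↔ x ∈ C ∧ ∀ y ∈ C, ¬ X.OppG K x y := fun x =>
    and_congr_right fun hx => forall₂_congr fun y hy =>
      not_congr (A.opp_iff hK (hC hx) (hC hy))
  obtain ⟨x0, hx0⟩ := hn
  have hx1 := (hun x0).2 hx0
  have c1 := DR_cone hD ⟨x0, hx1⟩
  have c2 := A.cone
  have c3 : Cone ⊤ (DR K (Un C) ∩ X.EE) := by
    refine ⟨?_, fun x hx => c2.filt x hx.2,
      fun x hx y hy => ⟨c1.add_mem x hx.1 y hy.1, c2.add_mem x hx.2 y hy.2⟩,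
      fun s hs x hx => ⟨c1.sc_mem s hs x hx.1, c2.sc_mem s hs x hx.2⟩⟩
    obtain ⟨g, v, rfl⟩ := hC hx0.1
    refine ⟨_, hK.mem_DR.2 (ek_one.mono fun T hT => ?_), g, up v, rfl⟩
    rw [ek_up, ← ap_sc g hT]
    exact hD.sc_mem _ (T 1).2 hT _ hx1
  have hst' : ∀ γ, ∀ x ∈ Un C ∩ X.EK K, a γ x ∈ Un C := by
    rintro γ x ⟨hx, hxK⟩
    have hx' := (hun x).1 hx
    refine (hun _).2 ⟨hst γ x hx'.1, ?_⟩
    rintro y hy ⟨g, v, e1, e2⟩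
    obtain ⟨g', M, hM⟩ := ha.lin γ⁻¹ g
    refine hx'.2 _ (hst γ⁻¹ y hy) ⟨g', M v, ?_, ?_⟩
    · rw [← hM, ← e1, ← ha.mul _ _ _ hxK, inv_mul_cancel, ha.one _ hxK]
    · rw [e2, hM, map_neg]
  obtain ⟨b, hb, hba, hbD⟩ := hK.ext ha
  obtain ⟨hsame, hall⟩ := A.all (a := b)
  obtain ⟨hact, -⟩ := hall hb
  have hsymm : ∀ {x y}, X.Same x y → X.Same y x := by
    rintro _ _ ⟨g, v, v', rfl, rfl, h⟩
    exact ⟨g, v', v, rfl, rfl, fun a ha => (h a ha).symm⟩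
  have hmem : ∀ {x y}, X.Same x y → x ∈ X.EE := by
    rintro _ _ ⟨g, v, v', rfl, rfl, -⟩
    exact ⟨g, v, rfl⟩
  have htr : ∀ {x y z}, X.Same x y → X.Same y z → X.Same x z := fun h h' =>
    (hsame _ (hmem h) _ (hmem (hsymm h'))).2 fun g =>
      ((hsame _ (hmem h) _ (hmem h')).1 h g).trans
        ((hsame _ (hmem h') _ (hmem (hsymm h'))).1 h' g)
  obtain ⟨N, hN, hfin, hi, hH⟩ := A.allB hm hG hb Set.inter_subset_right c3 fun γ x hx =>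
    ⟨hbD _ hst' γ x hx, (hb.aact A).mem γ x hx.2⟩
  refine ⟨N, hN, hfin, hi, fun H hs => ?_⟩
  obtain ⟨_, ⟨hx, g, v, rfl⟩, hfix⟩ := hH H hs
  obtain ⟨T, k1, k2⟩ := ((hK.mem_DR.1 hx).and (evT_sign (A.fin.image fun a => a v))).exists
  have k3 : X.Same (X.ap g (up fun i => T (v i))) (X.ap g v) :=
    ⟨g, _, v, rfl, rfl, fun a ha => by rw [lin_T a (hK.rt a ha), k2 _ ⟨a, ha, rfl⟩]⟩
  refine ⟨_, ((hun _).1 k1).1, ((hun _).1 k1).2, fun h hh y hy hs => ?_⟩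
  rw [← hba h y hy]
  exact htr (htr (hact h _ _ (htr hs k3)) (hfix h hh)) (hsymm k3)

end Pool.Agent.P.MP_6990a0_al.VC.Geo0
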