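import Pool.Agent.P.MP_6990a0_al.JDefs
import Pool.Agent.P.MP_6990a0_al.EL0
import Pool.Agent.P.MP_6990a0_al.EL1

/-! Closed embeddings in `GL_n` as representations on points. -/

open WithConv Pool.Agent.GR Matrix Pool.Agent.P.MP_6990a0_al

universe u

namespace Pool.Agent.RED

variable {k A : Type u} [Field k] [CommRing A] [HopfAlgebra k A] {n : ℕ}

/-- A matrix that is a point over a larger ring is a point. -/
def MRep.Sat (X : MRep k A k n) : Prop :=
  ∀ (T T' : Type u) [CommRing T] [Algebra k T] [CommRing T'] [Algebra k T'] (f : T →ₐ[k] T'),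
    Function.Injective f → ∀ (j : k →ₐ[k] T) (g : GL (Fin n) T),
      (∃ x, X.ρ T' (f.comp j) x = gm f g) → ∃ x, X.ρ T j x = g

theorem jl1_ext {u : GL (Fin n) A} (hu : Edif.IsEmb k u) {T : Type u} [CommRing T] [Algebra k T]
    {x y : A →ₐ[k] T} (e : gm x u = gm y u) : x = y := by
  refine AlgHom.ext_of_adjoin_eq_top hu.gen ?_
  rintro _ ⟨i, j, rfl | rfl⟩
  · exact congrArg (fun w : GL (Fin n) T => w.1 i j) e
  · exact congrArg (fun w : GL (Fin n) T => w⁻¹.1 i j) e

theorem emb_mrep {u : GL (Fin n) A} (hu : Edif.IsEmb k u) : ∃ X : MRep k A k n, X.Sat := by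
  have hr : IsRep k u := fun C _ _ g g' => Units.ext (hu.mul C g g')
  refine ⟨⟨fun T _ _ _ => hr.pts T, fun _ _ _ _ _ _ _ _ _ => rfl, fun T _ _ _ x y e => ?_⟩,
    fun T T' _ _ _ _ f hf j g h => ?_⟩
  · exact WithConv.ext (jl1_ext hu e)
  · obtain ⟨x, hx⟩ := h
    have hx' : gm x.ofConv u = gm f g := hx
    have hm : ∀ a, x.ofConv a ∈ f.range := fun a => by
      have ha : a ∈ (f.range.comap x.ofConv : Subalgebra k A) := by
        refine (Algebra.adjoin_le ?_ : _ ≤ f.range.comap x.ofConv) (hu.gen ▸ Algebra.mem_top)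
        rintro _ ⟨i, j, rfl | rfl⟩
        · exact ⟨g.1 i j, (congrArg (fun w : GL (Fin n) T' => w.1 i j) hx').symm⟩
        · exact ⟨g⁻¹.1 i j, (congrArg (fun w : GL (Fin n) T' => w⁻¹.1 i j) hx').symm⟩
      exact ha
    let y : A →ₐ[k] T := (AlgEquiv.ofInjective f hf).symm.toAlgHom.comp
      (x.ofConv.codRestrict f.range hm)
    have hy : f.comp y = x.ofConv := AlgHom.ext fun a =>
      congrArg Subtype.val ((AlgEquiv.ofInjective f hf).apply_symm_apply ⟨_, hm a⟩)
    refine ⟨toConv y, gm_inj f hf ?_⟩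
    show gm f (gm y u) = _
    rw [gm_comp, hy, hx']

/-- Change of frame. -/
noncomputable def jl1_rb (X : MRep k A k n) (γ : GL (Fin n) k) : MRep k A k n where
  ρ T _ _ j := (MulAut.conj (gm j γ)⁻¹).toMonoidHom.comp (X.ρ T j)
  nat T T' _ _ _ _ f j x := by
    show gm f ((gm j γ)⁻¹ * X.ρ T j x * (gm j γ)⁻¹⁻¹) = (gm _ γ)⁻¹ * X.ρ T' _ _ * (gm _ γ)⁻¹⁻¹
    simp only [map_mul, map_inv, X.nat, gm_comp]
  inj T _ _ j := (MulAut.conj _).injective.comp (X.inj T j)

theorem jl1_rb_ρ (X : MRep k A k n) (γ : GL (Fin n) k) {T : Type u} [CommRing T] [Algebra k T]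
    (j : k →ₐ[k] T) (x : Pt k A T) :
    (jl1_rb X γ).ρ T j x = (gm j γ)⁻¹ * X.ρ T j x * gm j γ := by
  show (gm j γ)⁻¹ * X.ρ T j x * (gm j γ)⁻¹⁻¹ = _
  rw [inv_inv]

theorem jl1_rb_sat {X : MRep k A k n} (hX : X.Sat) (γ : GL (Fin n) k) : (jl1_rb X γ).Sat := by
  rintro T T' _ _ _ _ f hf j g ⟨x, hx⟩
  rw [jl1_rb_ρ] at hx
  obtain ⟨y, hy⟩ := hX T T' f hf j (gm j γ * g * (gm j γ)⁻¹) ⟨x, by
    rw [map_mul, map_mul, map_inv, gm_comp, ← hx]
    group⟩
  refine ⟨y, ?_⟩
  rw [jl1_rb_ρ, hy]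
  group

open AddMonoidAlgebra in
theorem jl1_diag (X : MRep k A k n) {M : Type} [AddCommGroup M] {t : Pt k A (GA k M)}
    (ht : IsHom t) : ∃ (γ : GL (Fin n) k) (χ : Fin n → M), (jl1_rb X γ).Dg t χ := by
  classical
  let W := X.ρ _ (cst k k M) t
  let E : M → Mat n k := fun m => of fun a b => ((W : Mat n (GA k M)) a b).coeff m
  let S : Finset M := Finset.univ.biUnion fun p : Fin n × Fin n =>
    ((W : Mat n (GA k M)) p.1 p.2).coeff.support
  have hW : ∀ a b, (W : Mat n (GA k M)) a b = ∑ m ∈ S, AddMonoidAlgebra.single m (E m a b) :=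
    fun a b => coeff_injective (Finsupp.ext fun m => by
      rw [coeff_sum, Finsupp.finsetSum_apply, Finset.sum_eq_single m
        (fun m' _ h => by simp [h]) fun h => ?_]
      · simp [E]
      · have : E m a b = 0 := by_contra fun h' => h (Finset.mem_biUnion.2
          ⟨(a, b), Finset.mem_univ _, Finsupp.mem_support_iff.2 h'⟩)
        simp [this])
  have hF : ∀ (T : Type u) [CommRing T] [Algebra k T] (j : k →ₐ[k] T) (τ : TP M T) (a b : Fin n),
      (X.ρ T j (tev t j τ) : Mat n T) a b = ∑ m ∈ S, j (E m a b) * chv τ m := by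
    intro T _ _ j τ a b
    have := X.nat _ _ (tl j τ) (cst k k M) t
    rw [tl_comp_cst] at this
    rw [tev, ← this, gm_apply, hW, map_sum]
    simp only [tl_single]
  have hm : ∀ p ∈ S, ∀ q ∈ S, E p * E q = if p = q then E p else 0 := by
    intro p hp q hq
    ext a b
    let τ := (uT k (M × M)).comp (AddMonoidHom.inl M M).toMultiplicative
    let τ' := (uT k (M × M)).comp (AddMonoidHom.inr M M).toMultiplicative
    have e := congrArg (fun g => ((X.ρ _ (cst k k (M × M)) g : Mat n (GA k (M × M))) a b).coeff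
      (p, q)) (ht _ (cst k k (M × M)) τ τ')
    have e1 : ∀ m, chv τ m = AddMonoidAlgebra.single (m, 0) 1 := fun _ => rfl
    have e2 : ∀ m, chv τ' m = AddMonoidAlgebra.single (0, m) 1 := fun _ => rfl
    simp only [map_mul, Units.val_mul, Matrix.mul_apply, hF, chv_mul, e1, e2, cst_apply,
      Finset.sum_mul_sum, single_mul_single, coeff_sum, Finsupp.finsetSum_apply, coeff_single,
      Finsupp.single_apply, Prod.mk_add_mk, add_zero, zero_add, Prod.mk.injEq, mul_one,
      ite_and, Finset.sum_ite_eq', Finset.sum_ite_irrel, Finset.sum_const_zero, hp, hq,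
      if_true] at e
    rw [Matrix.mul_apply, ← e]
    split_ifs <;> rfl
  have hI : Idem S E := ⟨fun p hp => by rw [hm p hp p hp, if_pos rfl],
    fun p hp q hq e => by rw [hm p hp q hq, if_neg e], by
      ext a b
      have := hF k (AlgHom.id k k) 1 a b
      rw [ht.tev_one, map_one] at this
      simpa [Matrix.sum_apply, chv] using this.symm⟩
  obtain ⟨γ, χ, -, -, hS, hE⟩ := diag_idem hI (c := fun _ => ()) fun _ _ _ _ h => (h rfl).elim
  refine ⟨γ, χ, ?_⟩
  have e : W = gm (cst k k M) γ * rho k χ * (gm (cst k k M) γ)⁻¹ := Units.ext (by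
    rw [← tmat_fe γ hS, tmat]
    ext a b : 1
    rw [hW, Matrix.sum_apply]
    refine Finset.sum_congr rfl fun m hm => ?_
    rw [fe, ← hE m hm, ← Matrix.mul_assoc, ← Matrix.mul_assoc, Units.mul_inv, Matrix.one_mul,
      Matrix.mul_assoc, Units.mul_inv, Matrix.mul_one]
    simp [uu, single_mul_single])
  rw [MRep.Dg, jl1_rb_ρ]
  exact (congrArg (fun g => _ * g * _) e).trans (by group)

/-- After a change of frame a torus is diagonal. -/
theorem MRep.Sat.diag {X : MRep k A k n} (hX : X.Sat) {M : Type} [AddCommGroup M]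
    {t : Pt k A (GA k M)} (ht : IsHom t) :
    ∃ (X' : MRep k A k n) (χ : Fin n → M), X'.Sat ∧ X'.Dg t χ := by
  obtain ⟨γ, χ, h⟩ := jl1_diag X ht
  exact ⟨_, χ, jl1_rb_sat hX γ, h⟩

/-- A reductive group is a closed subgroup of some `GL_n`. -/
theorem exists_emb (hA : RG.IsReductive k A) :
    ∃ (n : ℕ) (u : GL (Fin n) A), Edif.IsEmb k u := by
  obtain ⟨n, H, ⟨X⟩⟩ := exists_real hA
  let u : GL (Fin n) A := X.ρ A (Algebra.ofId k A) (toConv (AlgHom.id k A))
  have hu : ∀ (S : Type u) [CommRing S] [Algebra k S] (j : k →ₐ[k] S) (x : Pt k A S),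
      gm x.ofConv u = X.ρ S j x := fun S _ _ j x => by
    rw [X.nat, Subsingleton.elim (x.ofConv.comp (Algebra.ofId k A)) j]
    rfl
  refine ⟨n, u, fun S _ _ g h => ?_, ?_⟩
  · have := (X.ρ S (Algebra.ofId k S)).map_mul g h
    rw [← hu, ← hu, ← hu] at this
    exact congrArg Units.val this
  · set B := Algebra.adjoin k {a | ∃ i j, a = u.1 i j ∨ a = u⁻¹.1 i j}
    obtain ⟨w, hw⟩ := exists_gm_of_range B.val Subtype.val_injective u
      (fun i j => ⟨⟨_, Algebra.subset_adjoin ⟨i, j, Or.inl rfl⟩⟩, rfl⟩)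
      (fun i j => ⟨⟨_, Algebra.subset_adjoin ⟨i, j, Or.inr rfl⟩⟩, rfl⟩)
    obtain ⟨x, hx⟩ := X.sat B.val Subtype.val_injective (Algebra.ofId k B) (g := w)
      ⟨toConv (AlgHom.id k A), by rw [hw, ← hu]; exact gm_id u⟩
    have h1 : pm B.val x = toConv (AlgHom.id k A) := X.inj A (B.val.comp (Algebra.ofId k B)) (by
      rw [← X.nat, hx, hw, ← hu]
      exact (gm_id u).symm)
    refine eq_top_iff.2 fun a _ => ?_
    have h2 : B.val (x.ofConv a) = a := congrArg (fun z : Pt k A A => z.ofConv a) h1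
    exact h2 ▸ (x.ofConv a).2

end Pool.Agent.RED
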