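import Pool.Agent.P.MP_6990a0_al.JD
import Pool.Agent.P.MP_6990a0_al.EB1

/-! Change of the representation, and a bound for the number of roots. -/

namespace Pool.Agent.P.MP_6990a0_al.VC.Geo0

variable {k V V' G Y : Type*} [Field k] [AddCommGroup V] [Module k V] [AddCommGroup V']
  [Module k V'] [Group G] [AddCommGroup Y] [Module ℝ Y] {n n' : ℕ} {X : Geo0 k V G Y n}
  {X' : Geo0 k V' G Y n'}

/-- Two representations with the same stabilisers and a joint Bruhat decomposition. -/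
structure Tr (X : Geo0 k V G Y n) (X' : Geo0 k V' G Y n') : Prop where
  phi : X'.Φ = X.Φ
  inj : Function.Injective X'.c
  fix : ∀ g v, X.ap g v = X.ap 1 v ↔ X'.ap g v = X'.ap 1 v
  br : ∀ (g : G) (v v' : Y), ∃ (p m q : G) (w : Y →ₗ[ℝ] Y), g = p * m * q ∧
    X.ap p v = X.ap 1 v ∧ X.ap q v' = X.ap 1 v' ∧ (∀ z, X.ap m z = X.ap 1 (w z)) ∧
    ∀ z, X'.ap m z = X'.ap 1 (w z)

theorem Tr.ax (h : Tr X X') (A : X.Ax) : X'.Ax := by
  refine ⟨h.inj, h.phi ▸ A.fin, h.phi ▸ A.ne, fun g v v' => ?_, fun g v v' hc e => ?_,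
    fun a ha => ?_⟩
  · obtain ⟨p, m, q, w, e, h1, h2, -, h4⟩ := h.br g v v'
    exact ⟨p, m, q, w, e, (h.fix p v).1 h1, (h.fix q v').1 h2, h4⟩
  · exact (h.fix g v').1 (A.mono g v v' (fun a ha => hc a (h.phi ▸ ha)) ((h.fix g v).2 e))
  · obtain ⟨u, hu⟩ := A.root a (h.phi ▸ ha)
    exact ⟨u, fun v => (h.fix u v).symm.trans (hu v)⟩

theorem jt_one (A : X.Ax) {p m q : G} {w : Y →ₗ[ℝ] Y} {v v' : Y} (hp : X.ap p v' = X.ap 1 v')
    (hq : X.ap q v = X.ap 1 v) (hm : ∀ z, X.ap m z = X.ap 1 (w z)) :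
    X.ap (p * m * q) v = X.ap 1 v' ↔ w v = v' := by
  rw [ap_mul hq, mul_one, ap_mul (hm v), mul_one, ← hp]
  exact ⟨A.ap_inj, fun e => by rw [e]⟩

theorem jt_red (X : Geo0 k V G Y n) (g g' : G) (v v' : Y) :
    X.ap g v = X.ap g' v' ↔ X.ap (g'⁻¹ * g) v = X.ap 1 v' := by
  refine ⟨fun e => ?_, fun e => ?_⟩
  · rw [ap_mul e, inv_mul_cancel]
  · have := ap_mul e g'
    rwa [mul_inv_cancel_left, mul_one] at this

theorem Tr.ap_iff (h : Tr X X') (A : X.Ax) (g g' : G) (v v' : Y) :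
    X.ap g v = X.ap g' v' ↔ X'.ap g v = X'.ap g' v' := by
  obtain ⟨p, m, q, w, e, h1, h2, h3, h4⟩ := h.br (g'⁻¹ * g) v' v
  rw [jt_red X, jt_red X', e, jt_one A h1 h2 h3,
    jt_one (h.ax A) ((h.fix p v').1 h1) ((h.fix q v).1 h2) h4]

theorem Tr.exists_tr (h : Tr X X') (A : X.Ax) :
    ∃ tr : (ℝ → Submodule k V) → ℝ → Submodule k V', (∀ g v, tr (X.ap g v) = X'.ap g v) ∧
      Set.InjOn tr X.EE ∧ ∀ x ∈ X.EE, ∀ y ∈ X.EE, X.Same x y ↔ X'.Same (tr x) (tr y) := by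
  classical
  let tr : (ℝ → Submodule k V) → ℝ → Submodule k V' := fun x =>
    if hx : ∃ p : G × Y, x = X.ap p.1 p.2 then X'.ap hx.choose.1 hx.choose.2 else X'.ap 1 0
  have ht : ∀ g v, tr (X.ap g v) = X'.ap g v := fun g v => by
    have hx : ∃ p : G × Y, X.ap g v = X.ap p.1 p.2 := ⟨(g, v), rfl⟩
    simp only [tr]
    rw [dif_pos hx]
    exact ((h.ap_iff A _ _ _ _).1 hx.choose_spec).symm
  refine ⟨tr, ht, ?_, ?_⟩
  · rintro _ ⟨g, v, rfl⟩ _ ⟨g', v', rfl⟩ e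
    rw [ht, ht] at e
    exact (h.ap_iff A _ _ _ _).2 e
  · rintro _ ⟨g, v, rfl⟩ _ ⟨g', v', rfl⟩
    rw [ht, ht]
    constructor
    · rintro ⟨p, z, z', e1, e2, hs⟩
      exact ⟨p, z, z', (h.ap_iff A _ _ _ _).1 e1, (h.ap_iff A _ _ _ _).1 e2,
        fun a ha => hs a (h.phi ▸ ha)⟩
    · rintro ⟨p, z, z', e1, e2, hs⟩
      exact ⟨p, z, z', (h.ap_iff A _ _ _ _).2 e1, (h.ap_iff A _ _ _ _).2 e2,
        fun a ha => hs a (h.phi.symm ▸ ha)⟩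

theorem jt_le (X : Geo0 k V G Y n) (u : G) (v : Y) :
    X.ap u v ≤ X.ap 1 v ↔ ∀ i j, X.e.repr (X.ρ u (X.e j)) i ≠ 0 → X.c v j ≤ X.c v i := by
  have e1 : X.ap 1 v = chart k X.e (X.c v) := by
    unfold ap
    rw [map_one]
    rfl
  rw [e1]
  refine ⟨fun h i j hij => ?_, fun h t => ?_⟩
  · have h1 : X.ρ u (X.e j) ∈ chart k X.e (X.c v) (X.c v j) :=
      h _ (Submodule.subset_span ⟨j, le_refl (X.c v j), rfl⟩)
    exact X.e.mem_span_image.1 h1 (Finset.mem_coe.2 (Finsupp.mem_support_iff.2 hij))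
  · refine Submodule.span_le.2 ?_
    rintro _ ⟨j, hj, rfl⟩
    refine X.e.mem_span_image.2 fun i hi => ?_
    exact le_trans hj (h i j (Finsupp.mem_support_iff.1 (Finset.mem_coe.1 hi)))

theorem jt_eq (X : Geo0 k V G Y n) (u : G) (v : Y) :
    X.ap u v = X.ap 1 v ↔ X.ap u v ≤ X.ap 1 v ∧ X.ap u⁻¹ v ≤ X.ap 1 v := by
  refine ⟨fun e => ⟨e.le, ?_⟩, fun e => le_antisymm e.1 fun t => ?_⟩
  · have := ap_mul e u⁻¹
    rw [inv_mul_cancel, mul_one] at this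
    exact this.ge
  · have h1 : X.mv u (X.ap u⁻¹ v) t ≤ X.mv u (X.ap 1 v) t := Submodule.map_mono (e.2 t)
    rwa [mv_ap, mv_ap, mul_inv_cancel, mul_one] at h1

theorem jt_ray {a f : Module.Dual ℝ Y} (ha : a ≠ 0) (hf : f ≠ 0)
    (h : ∀ v, 0 ≤ a v → 0 ≤ f v) : ∃ t : ℝ, 0 < t ∧ f = t • a := by
  obtain ⟨y0, hy0⟩ : ∃ y, a y ≠ 0 := by
    by_contra hn
    push Not at hn
    exact ha (LinearMap.ext hn)
  obtain ⟨y, hy⟩ : ∃ y, a y = 1 :=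
    ⟨(a y0)⁻¹ • y0, by rw [map_smul, smul_eq_mul, inv_mul_cancel₀ hy0]⟩
  have h1 : f = f y • a := LinearMap.ext fun v => by
    have h2 : a (v - a v • y) = 0 := by rw [map_sub, map_smul, hy, smul_eq_mul, mul_one, sub_self]
    have h3 := h _ h2.ge
    have h4 := h (-(v - a v • y)) (by rw [map_neg, h2, neg_zero])
    rw [map_neg] at h4
    rw [map_sub, map_smul, smul_eq_mul] at h3 h4
    rw [LinearMap.smul_apply, smul_eq_mul]
    linarith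
  refine ⟨f y, lt_of_le_of_ne (h y (by rw [hy]; exact zero_le_one)) fun e => hf ?_, h1⟩
  rw [h1, ← e, zero_smul]

theorem Ax.root_diff (A : X.Ax) {a : Module.Dual ℝ Y} (ha : a ∈ X.Φ) :
    ∃ (i j : Fin n) (t : ℝ), 0 < t ∧
      LinearMap.proj i ∘ₗ X.c - LinearMap.proj j ∘ₗ X.c = t • a := by
  obtain ⟨u, hu⟩ := A.root a ha
  have key : ∀ v, 0 ≤ a v ↔ ∀ i j, X.e.repr (X.ρ u (X.e j)) i ≠ 0 ∨
      X.e.repr (X.ρ u⁻¹ (X.e j)) i ≠ 0 → X.c v j ≤ X.c v i := fun v => by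
    rw [← hu, jt_eq, jt_le, jt_le]
    exact ⟨fun h i j hij => hij.elim (h.1 i j) (h.2 i j),
      fun h => ⟨fun i j hij => h i j (Or.inl hij), fun i j hij => h i j (Or.inr hij)⟩⟩
  obtain ⟨i, j, hij, hne⟩ : ∃ i j, (X.e.repr (X.ρ u (X.e j)) i ≠ 0 ∨
      X.e.repr (X.ρ u⁻¹ (X.e j)) i ≠ 0) ∧
      (LinearMap.proj i ∘ₗ X.c - LinearMap.proj j ∘ₗ X.c : Module.Dual ℝ Y) ≠ 0 := by
    by_contra hn
    have h0 : ∀ v, 0 ≤ a v := fun v => (key v).2 fun i j hij => by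
      have h1 : (LinearMap.proj i ∘ₗ X.c - LinearMap.proj j ∘ₗ X.c : Module.Dual ℝ Y) = 0 :=
        by_contra fun h2 => hn ⟨i, j, hij, h2⟩
      have h2 : X.c v i - X.c v j = 0 := LinearMap.congr_fun h1 v
      linarith
    refine A.ne a ha (LinearMap.ext fun v => le_antisymm ?_ (h0 v))
    have := h0 (-v)
    rw [map_neg] at this
    exact neg_nonneg.1 this
  obtain ⟨t, ht, e⟩ := jt_ray (A.ne a ha) hne fun v hv =>
    (sub_nonneg.2 ((key v).1 hv i j hij) : 0 ≤ X.c v i - X.c v j)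
  exact ⟨i, j, t, ht, e⟩

theorem jt_mem (A : X.Ax) {a : Module.Dual ℝ Y} (ha : a ∈ X.Φ) :
    ∃ t : ℝ, 0 < t ∧ t • a ∈ X.nz.Φ := by
  obtain ⟨i, j, t, ht, e⟩ := A.root_diff ha
  exact ⟨t, ht, ⟨i, j, e.symm⟩, a, ha, t, ht, rfl⟩

theorem jt_sub (X : Geo0 k V G Y n) : X.nz.Φ ⊆ Set.range fun p : Fin n × Fin n =>
    (LinearMap.proj p.1 ∘ₗ X.c - LinearMap.proj p.2 ∘ₗ X.c : Module.Dual ℝ Y) := by
  rintro _ ⟨⟨i, j, rfl⟩, -⟩
  exact ⟨(i, j), rfl⟩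

theorem Ax.nz (A : X.Ax) : X.nz.Ax := by
  refine ⟨A.inj, (Set.finite_range _).subset (jt_sub X), ?_, A.br, fun g v v' hc e => ?_, ?_⟩
  · rintro _ ⟨-, a, ha, t, ht, rfl⟩
    exact smul_ne_zero ht.ne' (A.ne a ha)
  · refine A.mono g v v' (fun a ha => ?_) e
    obtain ⟨t, ht, hm⟩ := jt_mem A ha
    have h1 := hc _ hm
    simp only [LinearMap.smul_apply, smul_eq_mul] at h1
    refine ⟨fun h2 => (mul_nonneg_iff_of_pos_left ht).1 (h1.1 (mul_pos ht h2)), fun h2 => ?_⟩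
    exact (mul_eq_zero.1 (h1.2 (by rw [h2, mul_zero]))).resolve_left ht.ne'
  · rintro _ ⟨-, a, ha, t, ht, rfl⟩
    obtain ⟨u, hu⟩ := A.root a ha
    exact ⟨u, fun v => (hu v).trans (mul_nonneg_iff_of_pos_left ht).symm⟩

theorem jt_sg (A : X.Ax) (v v' : Y) : X.nz.Sg v v' ↔ X.Sg v v' := by
  refine ⟨fun h a ha => ?_, ?_⟩
  · obtain ⟨t, ht, hm⟩ := jt_mem A ha
    have h1 := h _ hm
    simp only [LinearMap.smul_apply, smul_eq_mul, sign_mul, sign_pos ht, one_mul] at h1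
    exact h1
  · rintro h _ ⟨-, a, ha, t, ht, rfl⟩
    simp only [LinearMap.smul_apply, smul_eq_mul, sign_mul, h a ha]

theorem Ax.nz_same (A : X.Ax) (x y : ℝ → Submodule k V) : X.nz.Same x y ↔ X.Same x y :=
  ⟨fun ⟨g, v, v', e1, e2, h⟩ => ⟨g, v, v', e1, e2, (jt_sg A v v').1 h⟩,
    fun ⟨g, v, v', e1, e2, h⟩ => ⟨g, v, v', e1, e2, (jt_sg A v v').2 h⟩⟩

theorem nz_card (X : Geo0 k V G Y n) : X.nz.Φ.ncard ≤ n * n := by
  refine (Set.ncard_le_ncard (jt_sub X) (Set.finite_range _)).trans ?_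
  rw [← Set.image_univ]
  refine (Set.ncard_image_le Set.finite_univ).trans ?_
  rw [Set.ncard_univ, Nat.card_prod, Nat.card_fin]

theorem nz_rat {r : ℕ} {X : Geo0 k V G (Fin r → ℝ) n} {K : Subfield ℝ}
    (h : ∀ i j, X.c (Pi.single i 1) j ∈ K) : X.nz.Rat K := by
  refine ⟨h, ?_⟩
  rintro _ ⟨⟨i, j, rfl⟩, -⟩ l
  exact K.sub_mem (h l i) (h l j)

end Pool.Agent.P.MP_6990a0_al.VC.Geo0
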