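import Pool.Agent.P.MP_6990a0_al.JL1
import Pool.Agent.P.MP_6990a0_al.JT
import Pool.Agent.P.MP_6990a0_al.EL7

/-! The standard apartment in a given closed embedding. -/

open WithConv Pool.Agent.GR Matrix Pool.Agent.P.MP_6990a0_al

universe u

namespace Pool.Agent.RED

variable {k A : Type u} [Field k] [CommRing A] [HopfAlgebra k A] {n n' : ℕ} {H : HS k n}

theorem MRep.Sat.inP_iff {X : MRep k A k n} (hX : X.Sat) (T : Edif.Torus k A)
    {χ : Fin n → XL T.r} (h : X.Dg (tpt T) χ) (l : Fin T.r → ℤ) {S : Type u} [CommRing S]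
    [Algebra k S] (g : Pt k A S) :
    T.InP l g ↔ InP (fun i => χ i ⬝ᵥ l) (X.ρ S (Algebra.ofId k S) g : Mat n S) := by
  let c : S →ₐ[k] LaurentPolynomial S := IsScalarTower.toAlgHom k S _
  let f : Polynomial S →ₐ[k] LaurentPolynomial S := Polynomial.toLaurentAlg.restrictScalars k
  have key : ∀ τ : Multiplicative (XL T.r) →* LaurentPolynomial S,
      (∀ m, τ (Multiplicative.ofAdd m) = LaurentPolynomial.T (m ⬝ᵥ l)) → ∀ a b,
      (X.ρ _ (Algebra.ofId k _) (Edif.ev T.t τ * pm c g * (Edif.ev T.t τ)⁻¹) :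
        Mat n (LaurentPolynomial S)) a b = LaurentPolynomial.C
          ((X.ρ S (Algebra.ofId k S) g : Mat n S) a b) *
            LaurentPolynomial.T (χ a ⬝ᵥ l - χ b ⬝ᵥ l) := by
    intro τ hτ a b
    have e3 := X.nat _ _ c (Algebra.ofId k S) g
    rw [show c.comp (Algebra.ofId k S) = Algebra.ofId k _ from Subsingleton.elim _ _] at e3
    rw [map_mul, map_mul, map_inv, ev_eq, h.tev, ← e3]
    show (diagonal (fun i => τ (Multiplicative.ofAdd (χ i))) *
      (X.ρ S (Algebra.ofId k S) g : Mat n S).map c *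
        diagonal fun i => τ (Multiplicative.ofAdd (-χ i))) a b = _
    rw [mul_diagonal, diagonal_mul, map_apply, hτ, hτ, neg_dotProduct, LaurentPolynomial.T_sub,
      mul_comm (LaurentPolynomial.T _), mul_assoc]
    rfl
  constructor
  · rintro ⟨τ, y, hτ, e⟩ a b hab
    have e1 : Edif.ev T.t τ * pm c g * (Edif.ev T.t τ)⁻¹ = pm f y := mul_inv_eq_of_eq_mul e
    have e2 := key τ hτ a b
    have e3 := X.nat _ _ f (Algebra.ofId k _) y
    rw [show f.comp (Algebra.ofId k _) = Algebra.ofId k _ from Subsingleton.elim _ _] at e3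
    rw [e1, ← e3, gm_apply] at e2
    have e4 := congrArg (fun z : LaurentPolynomial S => z.coeff (χ a ⬝ᵥ l - χ b ⬝ᵥ l)) e2
    rw [← LaurentPolynomial.single_eq_C_mul_T, AddMonoidAlgebra.coeff_single,
      Finsupp.single_eq_same] at e4
    rw [← e4]
    refine (congrArg (fun z : ℤ →₀ S => z _) (LaurentPolynomial.coeff_toLaurent _)).trans ?_
    refine Finsupp.mapDomain_of_notMem_range _ _ ?_
    rintro ⟨m, hm⟩
    have : (χ a ⬝ᵥ l : ℤ) < χ b ⬝ᵥ l := hab
    have hm' : (m : ℤ) = χ a ⬝ᵥ l - χ b ⬝ᵥ l := hm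
    omega
  · intro hg
    let τ : Multiplicative (XL T.r) →* LaurentPolynomial S :=
      { toFun := fun m => LaurentPolynomial.T (m.toAdd ⬝ᵥ l)
        map_one' := by simp
        map_mul' := fun a b => by rw [toAdd_mul, add_dotProduct, LaurentPolynomial.T_add] }
    let W := X.ρ _ (Algebra.ofId k _) (Edif.ev T.t τ * pm c g * (Edif.ev T.t τ)⁻¹)
    let N : Mat n (Polynomial S) := of fun a b => Polynomial.C
      ((X.ρ S (Algebra.ofId k S) g : Mat n S) a b) * Polynomial.X ^ (χ a ⬝ᵥ l - χ b ⬝ᵥ l).toNat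
    have e : f.mapMatrix N = (W : Mat n (LaurentPolynomial S)) := Matrix.ext fun a b => by
      refine Eq.trans ?_ (key τ (fun _ => rfl) a b).symm
      refine (Polynomial.toLaurent_C_mul_X_pow _ _).trans ?_
      rcases lt_or_ge (χ a ⬝ᵥ l) (χ b ⬝ᵥ l) with hab | hab
      · rw [hg a b hab, map_zero, zero_mul, zero_mul]
      · rw [Int.toNat_of_nonneg (sub_nonneg.2 hab)]
    have e3 := X.nat _ _ c (Algebra.ofId k S) g
    rw [show c.comp (Algebra.ofId k S) = Algebra.ofId k _ from Subsingleton.elim _ _] at e3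
    have hd : N.det = Polynomial.C (X.ρ S (Algebra.ofId k S) g : Mat n S).det :=
      Polynomial.toLaurent_injective (by
        have := f.map_det N
        rw [e, show W = _ from (map_mul _ _ _).trans (congrArg₂ _ (map_mul _ _ _) (map_inv _ _)),
          Units.val_mul, Units.val_mul, det_units_conj, ← e3] at this
        rw [Polynomial.toLaurent_C]
        exact this.trans (c.map_det _).symm)
    obtain ⟨N', hN⟩ : IsUnit N := (isUnit_iff_isUnit_det _).2
      (hd ▸ ((isUnit_iff_isUnit_det _).1 (X.ρ S _ g).isUnit).map Polynomial.C)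
    have ef : f.comp (Algebra.ofId k _) = Algebra.ofId k _ := Subsingleton.elim _ _
    have e' : W = gm f N' := Units.ext (by rw [← e, ← hN]; rfl)
    obtain ⟨y, hy⟩ := hX _ _ f Polynomial.toLaurent_injective (Algebra.ofId k _) N'
      ⟨_, by rw [ef]; exact e'⟩
    refine ⟨τ, y, fun _ => rfl, eq_mul_of_mul_inv_eq (X.inj _ (Algebra.ofId k _) ?_)⟩
    have e4 := X.nat _ _ f (Algebra.ofId k _) y
    rw [ef, hy] at e4
    exact e'.trans e4

theorem conj_intw {X : MRep k A k n} {T : Edif.Torus k A} {χ : Fin n → XL T.r}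
    (h : X.Dg (tpt T) χ) {g : Pt k A k} {θ : XL T.r ≃+ XL T.r} (hc : T.Conj g T θ) :
    Intw (fun i => θ (χ i)) χ (X.ρ k (Algebra.ofId k k) g : Mat n k) := by
  intro i j hij
  let τ := uT k (XL T.r)
  let τ' : TP (XL T.r) (GA k (XL T.r)) := τ.comp (θ : XL T.r →+ XL T.r).toMultiplicative
  have e := hc (GA k (XL T.r)) ((Units.coeHom _).comp τ) ((Units.coeHom _).comp τ') fun _ => rfl
  rw [← tev_eq, ← tev_eq] at e
  have e3 := X.nat _ _ (Algebra.ofId k (GA k (XL T.r))) (Algebra.ofId k k) g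
  rw [show (Algebra.ofId k (GA k (XL T.r))).comp (Algebra.ofId k k) = Algebra.ofId k _ from
    Subsingleton.elim _ _] at e3
  have e0 : gm (Algebra.ofId k (GA k (XL T.r))) (X.ρ k (Algebra.ofId k k) g) * tp χ τ =
      tp χ τ' * gm (Algebra.ofId k (GA k (XL T.r))) (X.ρ k (Algebra.ofId k k) g) := by
    rw [e3, ← h.tev (Algebra.ofId k _) τ, ← h.tev (Algebra.ofId k _) τ', ← map_mul, ← map_mul]
    exact congrArg _ e
  have e' := congrArg (fun M : GL (Fin n) (GA k (XL T.r)) =>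
    ((M : Mat n (GA k (XL T.r))) i j).coeff (χ j)) e0
  generalize X.ρ k (Algebra.ofId k k) g = N at e' ⊢
  have e1 : (tp χ τ : GL (Fin n) _) = rho k χ := rfl
  have e2 : (tp χ τ' : GL (Fin n) _) = rho k fun i => θ (χ i) := rfl
  simp only [e1, e2, Units.val_mul, rho, dgU, uu, mul_diagonal, diagonal_mul, gm_apply,
    Algebra.ofId_apply, AddMonoidAlgebra.coe_algebraMap, Function.comp_apply,
    AddMonoidAlgebra.single_mul_single, AddMonoidAlgebra.coeff_single] at e'
  simpa [Finsupp.single_apply, hij] using e'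

/-- The standard apartment. -/
noncomputable def geoM (X : MRep k A k n) {r : ℕ} (χ : Fin n → XL r)
    (Φ : Set (Module.Dual ℝ (Fin r → ℝ))) : VC.Geo0 k (Fin n → k) (Pt k A k) (Fin r → ℝ) n where
  ρ := ((LinearMap.GeneralLinearGroup.generalLinearEquiv k (Fin n → k)).toMonoidHom.comp
    GeneralLinearGroup.toLin.toMonoidHom).comp (X.ρ k (Algebra.ofId k k))
  e := Pi.basisFun k (Fin n)
  c := LinearMap.pi fun j => lf (χ j)
  Φ := Φ

theorem geoM_ap (X : MRep k A k n) {r : ℕ} (χ : Fin n → XL r) (Φ) (g : Pt k A k)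
    (v : Fin r → ℝ) : (geoM X χ Φ).ap g v = fl (X.ρ k (Algebra.ofId k k) g) (rwt χ v) := by
  refine congrArg₂ (VC.chart k) (funext fun j => funext fun i => ?_)
    (funext fun j => lf_apply (χ j) v)
  show ((X.ρ k (Algebra.ofId k k) g : Mat n k) *ᵥ Pi.basisFun k (Fin n) j) i = _
  simp

theorem geoM_wt (X : MRep k A k n) {r : ℕ} (χ : Fin n → XL r) (Φ) (K : Subfield ℝ) (i : Fin r)
    (j : Fin n) : (geoM X χ Φ).c (Pi.single i 1) j ∈ K := by
  show lf (χ j) (Pi.single i 1) ∈ K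
  simp [lf_apply, Pi.single_apply]

theorem geo_tr (X : Real k A H) {X' : MRep k A k n'} (hX : X'.Sat) {T : Edif.Torus k A}
    (hT : T.IsMax) {χ : Fin n → XL T.r} {χ' : Fin n' → XL T.r} (h : X.Dg (tpt T) χ)
    (h' : X'.Dg (tpt T) χ') {ι : Type} (deg : ι → XL T.r) :
    (geo X χ deg).Tr (geoM X' χ' (geo X χ deg).Φ) := by
  have h1 := dg_rb_one X χ h
  refine ⟨rfl, fun v v' e => rwt_inj (span_of_dg _ T h') (funext fun j => ?_), fun g v => ?_,
    fun g v v' => ?_⟩
  · exact ((lf_apply _ _).symm.trans (congrFun e j)).trans (lf_apply _ _)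
  · obtain ⟨l, l1, l2⟩ := el5_int χ (fun p : Fin n' × Fin n' => χ' p.1 - χ' p.2) v
    rw [geo_ap, geo_ap, geoM_ap, geoM_ap, map_one, map_one, ← one_mul (X.m g),
      ← one_mul (X'.ρ k (Algebra.ofId k k) g), fl_fix_iff, fl_fix_iff, triR_iff_inP l1,
      triR_iff_inP fun i j => l2 (i, j), ← inP_iff X T h l g, ← hX.inP_iff T h' l g]
  · obtain ⟨p, m, q, θ, e, e1, e2, hc⟩ := br_tori X hT hT h1 h1 v' v g
    obtain ⟨L, hL⟩ := exists_transp (θ : XL T.r →+ XL T.r) ℝ
    rw [mul_one] at e1 e2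
    refine ⟨p, m, q, L, e, by rwa [geo_ap, geo_ap, map_one], by rwa [geo_ap, geo_ap, map_one],
      fun z => ?_, fun z => ?_⟩
    · rw [geo_ap, geo_ap, map_one, ← fl_conj X h1 h1 hc (hL z), mul_one]
    · have h2 := fl_intw 1 (conj_intw h' hc) fun m => ∑ i, (m i : ℝ) * z i
      rw [one_mul] at h2
      rw [geoM_ap, geoM_ap, map_one]
      exact h2.trans (congrArg (fl 1) (funext fun i => (hL z (χ' i)).symm))

end Pool.Agent.RED
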