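import Pool.Agent.P.MP_6990a0_al.JTop

/-! Controls for the definitions of the edifice. -/

open WithConv Pool.Agent.GR Pool.Agent.RED Pool.Agent.P.MP_6990a0_al Pool.Agent.P.MP_6990a0_al.VC
open scoped TensorProduct

universe u

namespace Pool.Agent.P.MP_6990a0_al.VC.Geo0

variable {k V : Type*} [Field k] [AddCommGroup V] [Module k V] {n : ℕ} {G : Type*} [Group G]

theorem AxI.fix_sg {Y : Type*} [NormedAddCommGroup Y] [InnerProductSpace ℝ Y]
    [FiniteDimensional ℝ Y] {X : Geo0 k V G Y n} (A : X.AxI) {w : Y ≃ₗᵢ[ℝ] Y} (h : X.IsW w)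
    {v : Y} (e : X.Sg v (w v)) : w v = v := by
  have hp : ∀ j : ℕ, X.IsW (w ^ j) := fun j => by
    induction j with
    | zero => rw [pow_zero]; exact IsW.one
    | succ j ih => rw [pow_succ]; exact ih.mul h
  have hfin : IsOfFinOrder w := by
    rw [← finite_powers]
    exact A.finW.subset (by rintro _ ⟨j, rfl⟩; exact hp j)
  obtain ⟨N, hN, hw⟩ := isOfFinOrder_iff_pow_eq_one.1 hfin
  have hs : X.Sim w.toLinearEquiv.symm := A.sim_W h.inv
  have hsg : ∀ j : ℕ, X.Sg v ((w ^ j) v) := fun j => by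
    induction j with
    | zero => intro a _; rfl
    | succ j ih =>
      intro a ha
      rw [pow_succ']
      exact (e a ha).trans (hs.sg ih a ha)
  have h3 : X.Sg (∑ j ∈ Finset.range N, (w ^ j) v) v := fun a ha => by
    rw [map_sum]
    rcases lt_trichotomy (a v) 0 with t | t | t
    · rw [sign_neg t, sign_neg (Finset.sum_neg (fun j _ => sign_eq_neg_one_iff.1
        ((hsg j a ha).symm.trans (sign_neg t))) (Finset.nonempty_range_iff.2 hN.ne'))]
    · rw [t, Finset.sum_eq_zero fun j _ => sign_eq_zero_iff.1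
        ((hsg j a ha).symm.trans (sign_eq_zero_iff.2 t))]
    · rw [sign_pos t, sign_pos (Finset.sum_pos (fun j _ => sign_eq_one_iff.1
        ((hsg j a ha).symm.trans (sign_pos t))) (Finset.nonempty_range_iff.2 hN.ne'))]
  have h4 : w (∑ j ∈ Finset.range N, (w ^ j) v) = ∑ j ∈ Finset.range N, (w ^ j) v := by
    have h1 := Finset.sum_range_succ (fun j => (w ^ j) v) N
    have h2 := Finset.sum_range_succ' (fun j => (w ^ j) v) N
    rw [h1, hw, pow_zero] at h2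
    rw [map_sum, add_right_cancel h2]
    exact Finset.sum_congr rfl fun j _ => by rw [pow_succ']; rfl
  obtain ⟨m, hm⟩ := h
  have h5 := A.mono m _ v h3.cl (by rw [hm, h4])
  rw [hm] at h5
  exact A.toAx.ap_inj h5

variable {Y : Type*} [AddCommGroup Y] [Module ℝ Y] [FiniteDimensional ℝ Y] {X : Geo0 k V G Y n}

theorem Ax.sg_of_fix (A : X.Ax) {z z' : Y}
    (h' : ∀ g, X.ap g z = X.ap 1 z ↔ X.ap g z' = X.ap 1 z') : X.Sg z z' := by
  let c' : Y →ₗ[ℝ] EuclideanSpace ℝ (Fin n) :=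
    (WithLp.linearEquiv 2 ℝ (Fin n → ℝ)).symm.toLinearMap ∘ₗ X.c
  have hc : Function.Injective c' :=
    (WithLp.linearEquiv 2 ℝ (Fin n → ℝ)).symm.injective.comp A.inj
  let _ : NormedAddCommGroup Y := NormedAddCommGroup.induced Y _ c' hc
  let _ : InnerProductSpace ℝ Y := InnerProductSpace.induced c'
  have B : X.AxI := ⟨A, fun v => EuclideanSpace.real_norm_sq_eq (c' v)⟩
  intro a ha
  have ha0 := A.ne a ha
  obtain ⟨u, hu⟩ := A.root a ha
  obtain ⟨m, hm⟩ := B.isW_rfl ha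
  have key : ∀ (p g : G) (z : Y),
      X.ap (g * p) z = X.ap p z ↔ X.ap (p⁻¹ * g * p) z = X.ap 1 z := by
    intro p g z
    constructor
    · intro e
      have := ap_mul e p⁻¹
      rwa [inv_mul_cancel, ← mul_assoc] at this
    · intro e
      have := ap_mul e p
      rwa [mul_one, ← mul_assoc, ← mul_assoc, mul_inv_cancel, one_mul] at this
  have hneg : ∀ y, X.ap (m⁻¹ * u * m) y = X.ap 1 y ↔ a y ≤ 0 := fun y => by
    rw [← key, ap_mul (hm y) u, mul_one, hm, hu, eb2_neg ha0, neg_nonneg]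
  have i1 : 0 ≤ a z ↔ 0 ≤ a z' := by rw [← hu, ← hu, h']
  have i2 : a z ≤ 0 ↔ a z' ≤ 0 := by rw [← hneg, ← hneg, h']
  rcases lt_trichotomy (a z) 0 with t | t | t
  · rw [sign_neg t, sign_neg (not_le.1 fun s => absurd (i1.2 s) (not_le.2 t))]
  · rw [t, le_antisymm (i2.1 t.le) (i1.1 t.ge)]
  · rw [sign_pos t, sign_pos (not_le.1 fun s => absurd (i2.2 s) (not_le.2 t))]

theorem Ax.fix_of_fix (A : X.Ax) {g : G} {v : Y}
    (h : ∀ s, X.ap (s * g) v = X.ap g v ↔ X.ap s v = X.ap 1 v) : X.ap g v = X.ap 1 v := by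
  obtain ⟨p, m, q, w, e, h1, h2, h3⟩ := A.br g v v
  have e1 : ∀ s, X.ap (s * g) v = X.ap (s * p) (w v) := fun s => by
    rw [e, ← mul_assoc, ← mul_assoc, ap_mul h2, mul_one, ap_mul (h3 v), mul_one]
  have e2 : X.ap g v = X.ap p (w v) := by simpa using e1 1
  have hs : X.Sg v (w v) := A.sg_of_fix fun s => by
    have := h (p * s * p⁻¹)
    rw [e1, e2, inv_mul_cancel_right] at this
    have h4 : X.ap p⁻¹ v = X.ap 1 v := by
      have := ap_mul h1 p⁻¹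
      rw [inv_mul_cancel, mul_one] at this
      exact this.symm
    rw [ap_mul h4, mul_one] at this
    constructor
    · intro t
      have := ap_mul (this.2 (by rw [ap_mul t, mul_one, h1])) p⁻¹
      rwa [inv_mul_cancel_left, inv_mul_cancel] at this
    · intro t
      have := ap_mul (this.1 (by rw [ap_mul t, mul_one])) p⁻¹
      rwa [inv_mul_cancel_left, mul_one, h4] at this
  let c' : Y →ₗ[ℝ] EuclideanSpace ℝ (Fin n) :=
    (WithLp.linearEquiv 2 ℝ (Fin n → ℝ)).symm.toLinearMap ∘ₗ X.c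
  have hc : Function.Injective c' :=
    (WithLp.linearEquiv 2 ℝ (Fin n → ℝ)).symm.injective.comp A.inj
  let _ : NormedAddCommGroup Y := NormedAddCommGroup.induced Y _ c' hc
  let _ : InnerProductSpace ℝ Y := InnerProductSpace.induced c'
  have B : X.AxI := ⟨A, fun v => EuclideanSpace.real_norm_sq_eq (c' v)⟩
  obtain ⟨w', h5, h6⟩ := B.isW h3
  rw [e2, ← h6, B.fix_sg h5 (by rw [h6]; exact hs), h1]

omit [FiniteDimensional ℝ Y] in
theorem ap_zero (g : G) : X.ap g 0 = zero ⊤ := by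
  obtain ⟨b, hb⟩ := ap_basis (X := X) g
  rw [hb, map_zero, ek_zero]

end Pool.Agent.P.MP_6990a0_al.VC.Geo0

namespace Pool.Agent.Edif

variable {k : Type u} [Field k] {A : Type u} [CommRing A] [HopfAlgebra k A] {K : Subfield ℝ}

theorem jn_rep (x : Ed k A K) : ∃ T v, x = apt T v :=
  let ⟨⟨T, v⟩, e⟩ := Quot.exists_rep x
  ⟨T, v, e.symm⟩

theorem jn_up {r : ℕ} {v w : Fin r → K} (h : Geo0.up v = Geo0.up w) : v = w :=
  funext fun i => Subtype.ext (congrFun h i)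

theorem jn_rel (hA : RG.IsReductive k A) (T T' : MaxT k A) (v : Fin T.1.r → K)
    (v' : Fin T'.1.r → K) : apt T v = apt T' v' ↔ T.1.Rel v T'.1 v' := by
  refine ⟨fun e => ?_, fun h => Quot.sound h⟩
  have := hA.smooth
  have := isDomain_of_red hA
  obtain ⟨n, H₀, ⟨X⟩⟩ := exists_real hA
  obtain ⟨io, hι⟩ := exists_io X K
  obtain ⟨γ, χ, h⟩ := X.exists_diag (isHom_tpt T.1)
  obtain ⟨γ', χ', h'⟩ := X.exists_diag (isHom_tpt T'.1)
  have e0 : fl γ (rwt χ (Geo0.up v)) = fl γ' (rwt χ' (Geo0.up v')) :=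
    (hι T γ χ h v).symm.trans ((congrArg io e).trans (hι T' γ' χ' h' v'))
  obtain ⟨p, m, q, θ, e1, e2, e3, e4⟩ :=
    br_tori X T.2 T'.2 h h' (Geo0.up v) (Geo0.up v') 1
  obtain ⟨L, hL⟩ := exists_transp θ.toAddMonoidHom K
  have hm : X.m m = (X.m p)⁻¹ * (X.m q)⁻¹ := by
    have : X.m p * X.m m * X.m q = 1 := by rw [← map_mul, ← map_mul, ← e1, map_one]
    rw [eq_inv_mul_iff_mul_eq, eq_inv_iff_mul_eq_one, this]
  have f1 := el7_mul e3 (X.m q)⁻¹
  have f2 := el7_mul e2 (X.m p)⁻¹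
  rw [inv_mul_cancel_left] at f1 f2
  have f3 : fl (X.m m * γ) (rwt χ (Geo0.up v)) = fl γ (rwt χ (Geo0.up v)) := by
    rw [hm, mul_assoc, el7_mul (f1.symm.trans e0), ← f2, e0]
  have f4 := fl_conj X h h' e4 (v := Geo0.up v) (v' := Geo0.up (L v))
    fun m => el7_cast (hL v m)
  have f6 : L v = v' := jn_up
    (rwt_inj (span_of_dg _ T'.1 h') (chart_inj (fl_li γ') (f4.symm.trans (f3.trans e0))))
  refine ⟨m, θ, (el7_par X h v m).2 ?_, e4, fun m => ?_⟩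
  · rw [el7_gm]
    exact (el7_fix _ _ _).1 f3
  · rw [← f6]
    exact hL v m

theorem jn_pack (hA : RG.IsReductive k A) (K : Subfield ℝ) (T₀ : MaxT k A) :
    ∃ (n : ℕ) (Y : Geo0 k (Fin n → k) (Pt k A k) (Fin T₀.1.r → ℝ) n)
      (io : Ed k A K → ℝ → Submodule k (Fin n → k)), Y.Ax ∧ Y.Rat K ∧ Function.Injective io ∧
      (∀ v, io (apt T₀ v) = Y.ap 1 (Geo0.up v)) ∧
      (∀ g, ∃ (T : MaxT k A) (L : (Fin T₀.1.r → K) →ₗ[K] Fin T.1.r → K),
        ∀ v, io (apt T (L v)) = Y.ap g (Geo0.up v)) ∧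
      (∀ T : MaxT k A, ∃ (g : Pt k A k) (L : (Fin T.1.r → K) →ₗ[K] Fin T₀.1.r → K),
        ∀ v, io (apt T v) = Y.ap g (Geo0.up (L v))) ∧
      (∀ x y, y ∈ facet x ↔ Y.Same (io y) (io x)) ∧
      (∀ g z, Y.mv g (io z) = io z ↔ InPar z g) ∧
      (∀ a, a ∈ Y.Φ ↔ ∃ m, T₀.1.IsRoot m ∧ a = lf m) ∧
      ∀ (g : Pt k A k) (T T' : MaxT k A) θ (v : Fin T.1.r → K) (v' : Fin T'.1.r → K),
        T.1.Conj g T'.1 θ → (∀ m, ∑ i, (m i : K) * v' i = ∑ i, (θ m i : K) * v i) →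
        Y.mv g (io (apt T v)) = io (apt T' v') := by
  have := hA.smooth
  have := isDomain_of_red hA
  obtain ⟨n, H₀, ⟨X₀⟩⟩ := exists_real hA
  obtain ⟨γ, χ, h⟩ := X₀.exists_diag (isHom_tpt T₀.1)
  generalize X₀.rb γ = X at h
  obtain ⟨m, deg, hw⟩ := exists_wts (isHom_tpt T₀.1)
  obtain ⟨io, hι⟩ := exists_io X K
  refine ⟨n, geo X χ deg, io, geo_ax X T₀.2 h hw, geo_rat X χ deg K, hι.inj, fun v => ?_,
    hι.of_ap h, hι.to_ap h, hι.facet h hw, fun g z => ?_, fun a => ?_,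
    fun g T T' θ v v' hc hv => ?_⟩
  · rw [geo_ap, map_one]
    exact hι T₀ 1 χ (dg_rb_one X χ h) v
  · obtain ⟨T, v, rfl⟩ := jn_rep z
    obtain ⟨p, L, e⟩ := hι.to_ap (deg := deg) h T
    have e := e v
    rw [geo_ap] at e
    rw [hι.inPar e, e, geo_mv, el7_fix, el7_gm]
  · constructor
    · rintro ⟨i, rfl⟩
      exact ⟨_, (isRoot_iff T₀.1 hw _).2 ⟨i, rfl⟩, rfl⟩
    · rintro ⟨_, hm, rfl⟩
      obtain ⟨i, rfl⟩ := (isRoot_iff T₀.1 hw _).1 hm
      exact ⟨i, rfl⟩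
  · obtain ⟨γ₁, χ₁, h₁⟩ := X.exists_diag (isHom_tpt T.1)
    obtain ⟨γ₂, χ₂, h₂⟩ := X.exists_diag (isHom_tpt T'.1)
    rw [hι T γ₁ χ₁ h₁, hι T' γ₂ χ₂ h₂, geo_mv]
    exact fl_conj X h₁ h₂ hc fun m => el7_cast (hv m)

theorem jn_inj (hA : RG.IsReductive k A) (T : MaxT k A) :
    Function.Injective (apt T : (Fin T.1.r → K) → Ed k A K) := fun v w e => by
  obtain ⟨n, Y, io, hY, -, -, h0, -⟩ := jn_pack hA K T
  exact jn_up (hY.ap_inj ((h0 v).symm.trans ((congrArg io e).trans (h0 w))))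

theorem jn_common (hA : RG.IsReductive k A) (x y : Ed k A K) :
    ∃ T v w, x = apt T v ∧ y = apt T w := by
  obtain ⟨T, v, rfl⟩ := jn_rep x
  obtain ⟨T', v', rfl⟩ := jn_rep y
  obtain ⟨n, Y, io, hY, hK, hi, h0, ofa, toa, -⟩ := jn_pack hA K T
  obtain ⟨g', L', e'⟩ := toa T'
  obtain ⟨g, a, b, e1, e2⟩ := hY.commonK hK (x := io (apt T v)) (y := io (apt T' v'))
    ⟨1, v, h0 v⟩ ⟨g', _, e' v'⟩
  obtain ⟨T₁, L, e⟩ := ofa g
  exact ⟨T₁, L a, L b, hi (e1.trans (e a).symm), hi (e2.trans (e b).symm)⟩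

theorem jn_lin (hA : RG.IsReductive k A) {T T' : MaxT k A} {v w : Fin T.1.r → K}
    {v' w' : Fin T'.1.r → K} (hv : apt T v = apt T' v') (hw : apt T w = apt T' w') {a b : K}
    (ha : 0 ≤ a) (hb : 0 ≤ b) : apt T (a • v + b • w) = apt T' (a • v' + b • w') := by
  obtain ⟨n, Y, io, hY, hK, hi, h0, ofa, toa, -⟩ := jn_pack hA K T
  obtain ⟨g, L, e⟩ := toa T'
  have sm : ∀ (c : K) (v : Fin T.1.r → K) v', 0 ≤ c → apt T v = apt T' v' →
      Y.ap 1 (Geo0.up (c • v)) = Y.ap g (Geo0.up (c • L v')) := fun c v v' hc h => by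
    rcases hc.eq_or_lt with rfl | hc
    · rw [zero_smul, zero_smul]
      exact (Geo0.ap_zero 1).trans (Geo0.ap_zero g).symm
    · have := congrArg (sc (c : ℝ)) ((h0 v).symm.trans ((congrArg io h).trans (e v')))
      rw [Geo0.ap_sc _ hc, Geo0.ap_sc _ hc] at this
      exact this
  refine hi ?_
  have := congrArg₂ add (sm a v v' ha hv) (sm b w w' hb hw)
  rw [Geo0.ap_add, Geo0.ap_add] at this
  rw [h0, e, map_add, map_smul, map_smul]
  exact this

theorem jn_opp (hA : RG.IsReductive k A) (T : MaxT k A) (v w : Fin T.1.r → K) :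
    Opp (apt T v) (apt T w) ↔ w = -v := by
  refine ⟨?_, fun e => ⟨T, v, rfl, by rw [e]⟩⟩
  rintro ⟨T', z, e1, e2⟩
  have h1 := jn_lin hA e1 e2 zero_le_one zero_le_one
  have h2 := jn_lin hA e1 e2 le_rfl le_rfl
  simp only [one_smul, zero_smul, add_neg_cancel, add_zero] at h1 h2
  exact eq_neg_of_add_eq_zero_right (jn_inj hA T (h1.trans h2.symm))

theorem jn_facet (hA : RG.IsReductive k A) (T : MaxT k A) (v w : Fin T.1.r → K) :
    apt T w ∈ facet (apt T v) ↔ ∀ a, T.1.IsRoot a →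
      SignType.sign (∑ i, (a i : ℝ) * (w i : ℝ)) = SignType.sign (∑ i, (a i : ℝ) * (v i : ℝ)) := by
  obtain ⟨n, Y, io, hY, hK, hi, h0, ofa, toa, fac, st, rt, -⟩ := jn_pack hA K T
  constructor
  · intro h a ha
    have := hY.sg_of_fix (z := Geo0.up w) (z' := Geo0.up v) (fun g => by
      have := h k g
      rw [← st, ← st, h0, h0, Geo0.mv_ap, Geo0.mv_ap, mul_one] at this
      exact this) (lf a) ((rt _).2 ⟨a, ha, rfl⟩)
    rw [lf_apply, lf_apply] at this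
    exact this
  · intro h
    refine (fac _ _).2 ⟨1, _, _, h0 w, h0 v, fun a ha => ?_⟩
    obtain ⟨m, hm, rfl⟩ := (rt a).1 ha
    rw [lf_apply, lf_apply]
    exact h m hm

theorem jn_max (hA : RG.IsReductive k A) (T : Torus k A) :
    ∃ T' : MaxT k A, RingHom.ker T'.1.t ≤ RingHom.ker T.t := by
  have := hA.smooth
  have : IsNoetherianRing A := Algebra.FiniteType.isNoetherianRing k A
  have pr : ∀ S : Torus k A, (RingHom.ker S.t).IsPrime := fun S => RingHom.ker_isPrime _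
  obtain ⟨S, hS, hm⟩ := (wellFounded_lt (α := ℕ∞)).onFun (f := fun S : Torus k A =>
    (RingHom.ker S.t).height) |>.has_min {S | RingHom.ker S.t ≤ RingHom.ker T.t}
      ⟨T, le_refl (RingHom.ker T.t)⟩
  refine ⟨⟨S, fun S' h => ?_⟩, hS⟩
  by_contra h'
  have := pr S
  have := pr S'
  exact hm S' (h.trans hS) (Ideal.height_strict_mono_of_isPrime_of_isPrime (lt_of_le_not_ge h h'))

theorem jn_nonempty (hA : RG.IsReductive k A) : Nonempty (MaxT k A) := by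
  have e : ∀ (S : Type u) [CommRing S] [Algebra k S] (τ : Multiplicative (Fin 0 → ℤ) →* S),
      ev (1 : Pt k A (AddMonoidAlgebra k (Fin 0 → ℤ))).ofConv τ = 1 := fun S _ _ τ =>
    map_one (pm (AddMonoidAlgebra.lift k S (Fin 0 → ℤ) τ))
  refine ⟨(jn_max hA ⟨0, (1 : Pt k A (AddMonoidAlgebra k (Fin 0 → ℤ))).ofConv, fun f => ?_,
    fun S _ _ τ τ' => by rw [e, e, e, mul_one]⟩).choose⟩
  induction f using AddMonoidAlgebra.induction_on with
  | of m => exact ⟨1, by rw [map_one, Subsingleton.elim m 0]; rfl⟩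
  | add f g hf hg =>
    obtain ⟨a, rfl⟩ := hf
    obtain ⟨b, rfl⟩ := hg
    exact ⟨a + b, map_add _ _ _⟩
  | smul c f hf =>
    obtain ⟨a, rfl⟩ := hf
    exact ⟨c • a, map_smul _ _ _⟩

theorem jn_act (hA : RG.IsReductive k A) (K : Subfield ℝ) :
    ∃ _ : MulAction (Pt k A k) (Ed k A K), (∀ g : Pt k A k, AptLin (g • · : Ed k A K → _)) ∧
      (∀ (g : Pt k A k) (x : Ed k A K), g • x = x ↔ InPar x g) ∧
      (∀ (g : Pt k A k) (x : Ed k A K), (g • ·) '' facet x = facet x ↔ InPar x g) ∧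
      ∀ (g : Pt k A k) (T T' : MaxT k A) θ (v : Fin T.1.r → K) (v' : Fin T'.1.r → K),
        T.1.Conj g T'.1 θ → (∀ m, ∑ i, (m i : K) * v' i = ∑ i, (θ m i : K) * v i) →
        g • apt T v = apt T' v' := by
  obtain ⟨T₀⟩ := jn_nonempty hA
  obtain ⟨n, Y, io, hY, hK, hi, h0, ofa, toa, fac, st, rt, cj⟩ := jn_pack hA K T₀
  have ex : ∀ (g : Pt k A k) (T : MaxT k A), ∃ (T' : MaxT k A)
      (M : (Fin T.1.r → K) →ₗ[K] Fin T'.1.r → K),
      ∀ v, io (apt T' (M v)) = Y.mv g (io (apt T v)) := fun g T => by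
    obtain ⟨p, L, e⟩ := toa T
    obtain ⟨T', L', e'⟩ := ofa (g * p)
    exact ⟨T', L' ∘ₗ L, fun v => by rw [e, Geo0.mv_ap]; exact e' _⟩
  have ex' : ∀ (g : Pt k A k) (x : Ed k A K), ∃ y, io y = Y.mv g (io x) := fun g x => by
    obtain ⟨T, v, rfl⟩ := jn_rep x
    obtain ⟨T', M, e⟩ := ex g T
    exact ⟨_, e v⟩
  choose a ha using ex'
  have mem : ∀ x, ∃ p v, io x = Y.ap p v := fun x => by
    obtain ⟨T, v, rfl⟩ := jn_rep x
    obtain ⟨p, L, e⟩ := toa T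
    exact ⟨p, _, e v⟩
  have sa : ∀ g x, a g x = x ↔ InPar x g := fun g x => by
    rw [← st, ← ha]
    exact hi.eq_iff.symm
  refine ⟨{ smul := a, one_smul := fun x => hi ?_, mul_smul := fun g h x => hi ?_ },
    fun g T => ?_, sa, fun g x => ⟨fun h => ?_, fun h => ?_⟩,
    fun g T T' θ v v' hc hv => hi ((ha _ _).trans (cj _ _ _ _ _ _ hc hv))⟩
  · obtain ⟨p, v, e⟩ := mem x
    refine (ha _ x).trans (Eq.trans ?_ (ha g (a h x)).symm)
    rw [ha, e, Geo0.mv_ap, Geo0.mv_ap, Geo0.mv_ap, mul_assoc]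
  · obtain ⟨p, v, e⟩ := mem x
    exact (ha 1 x).trans (by rw [e, Geo0.mv_ap, one_mul])
  · obtain ⟨T', M, e⟩ := ex g T
    exact ⟨T', M, fun v => hi ((ha _ _).trans (e v).symm)⟩
  · have h1 : a g x ∈ facet x := h ▸ ⟨x, fun _ _ _ _ => Iff.rfl, rfl⟩
    obtain ⟨p, v, e⟩ := mem x
    have h2 := hY.fix_of_fix (g := p⁻¹ * g * p) (v := v) fun s => by
      have := h1 k (p * s * p⁻¹)
      rw [← st, ← st, ha, e, Geo0.mv_ap, Geo0.mv_ap, Geo0.mv_ap, inv_mul_cancel_right] at this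
      constructor
      · intro t
        have t' := Geo0.ap_mul t p
        have := Geo0.ap_mul (this.1 (by simpa only [mul_assoc, mul_inv_cancel_left] using t')) p⁻¹
        rwa [inv_mul_cancel_left, inv_mul_cancel] at this
      · intro t
        have := Geo0.ap_mul (this.2 (by rw [Geo0.ap_mul t, mul_one])) p⁻¹
        simpa only [mul_assoc, inv_mul_cancel_left] using this
    have h3 := Geo0.ap_mul h2 p
    rw [← st, e, Geo0.mv_ap]
    simpa only [mul_assoc, mul_inv_cancel_left, mul_one] using h3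
  · refine (Set.image_congr fun y hy => ?_).trans (Set.image_id _)
    exact (sa g y).2 ((hy k g).2 h)

theorem jn_seg (hA : RG.IsReductive k A) {T T' : MaxT k A} {v w : Fin T.1.r → K}
    {v' w' : Fin T'.1.r → K} (hv : apt T v = apt T' v') (hw : apt T w = apt T' w') :
    apt T '' segment K v w = apt T' '' segment K v' w' := by
  refine Set.Subset.antisymm ?_ ?_
  · rintro _ ⟨_, ⟨a, b, ha, hb, e, rfl⟩, rfl⟩
    exact ⟨_, ⟨a, b, ha, hb, e, rfl⟩, (jn_lin hA hv hw ha hb).symm⟩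
  · rintro _ ⟨_, ⟨a, b, ha, hb, e, rfl⟩, rfl⟩
    exact ⟨_, ⟨a, b, ha, hb, e, rfl⟩, jn_lin hA hv hw ha hb⟩

/-- A convex cone of an apartment which does not contain the negative of one of its points. -/
theorem jn_cone (hA : RG.IsReductive k A) (T₀ : MaxT k A) (D : Set (Fin T₀.1.r → K))
    (h1 : Convex K D) (h2 : ∀ v ∈ D, ∀ c : K, 0 < c → c • v ∈ D) (h3 : ∃ v ∈ D, -v ∉ D) :
    (∀ x ∈ apt T₀ '' D, ∀ y ∈ apt T₀ '' D, ∃ T v w, x = apt T v ∧ y = apt T w ∧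
      apt T '' segment K v w ⊆ apt T₀ '' D) ∧
    (∀ T v (c : K), 0 < c → apt T v ∈ apt T₀ '' D → apt T (c • v) ∈ apt T₀ '' D) ∧
    ∃ x ∈ apt T₀ '' D, ∀ y ∈ apt T₀ '' D, ¬ Opp x y := by
  refine ⟨?_, ?_, ?_⟩
  · rintro _ ⟨v, hv, rfl⟩ _ ⟨w, hw, rfl⟩
    exact ⟨T₀, v, w, rfl, rfl, Set.image_mono (h1.segment_subset hv hw)⟩
  · rintro T v c hc ⟨w, hw, e⟩
    have := jn_lin hA e e hc.le le_rfl
    rw [zero_smul, zero_smul, add_zero, add_zero] at this
    exact ⟨_, h2 w hw c hc, this⟩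
  · obtain ⟨v, hv, hv'⟩ := h3
    refine ⟨_, ⟨v, hv, rfl⟩, ?_⟩
    rintro _ ⟨w, hw, rfl⟩ e
    exact hv' ((jn_opp hA T₀ v w).1 e ▸ hw)

end Pool.Agent.Edif
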