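import Pool.Agent.P.MP_6990a0_al.JD
import Pool.Agent.P.MP_6990a0_al.ES2

/-! Components and scalings, with a bound for the index. -/

namespace Pool.Agent.P.MP_6990a0_al.VC

universe u v

variable {k : Type u} [Field k] {n B J m : ℕ} {Γ : Type v} {I : Type*} [Group Γ]
  [MulAction Γ I] {E D : Set (ℝ → Submodule k (Fin n → k))}
  {a : Γ → (ℝ → Submodule k (Fin n → k)) → ℝ → Submodule k (Fin n → k)}
  {pr : I → (ℝ → Submodule k (Fin n → k)) → ℝ → Submodule k (Fin n → k)} {s : Γ → I → ℝ}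

theorem index_core (H : Subgroup Γ) [H.FiniteIndex] {c : ℕ} (h : H.index ≤ c) :
    H.normalCore.index ≤ c.factorial := by
  have : Finite (Γ ⧸ H) := H.finite_quotient_of_finiteIndex
  rw [Subgroup.normalCore_eq_ker, Subgroup.index_ker]
  refine (Subgroup.card_le_card_group _).trans ?_
  rw [Nat.card_perm]
  exact Nat.factorial_le h

theorem js_one [Finite I] (hG : GenB.{u, v} n B J) (hI : Nat.card I ≤ m) (hE : Cone ⊤ E)
    (ha : AAct E a) (hp : Cmp n E a pr s) (hx : CmpX B E a pr s) (hDE : D ⊆ E) (hD : Cone ⊤ D)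
    (hst : ∀ g, ∀ x ∈ D, a g x ∈ D) (F : Finset I) :
    ∃ H : Subgroup Γ, H.FiniteIndex ∧ H.index ≤ m.factorial * (J + 1) ^ F.card ∧
      (∀ g ∈ H, ∀ i : I, g • i = i) ∧ (es2_fx D a pr s H F).Nonempty := by
  classical
  induction F using Finset.induction_on with
  | empty =>
    obtain ⟨x, hx⟩ := hD.ne
    refine ⟨(MulAction.toPermHom Γ I).ker, inferInstance, ?_, fun g hg i => ?_, x, hx,
      fun g _ i hi => absurd hi (by simp)⟩
    · rw [Subgroup.index_ker, Finset.card_empty, pow_zero, mul_one]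
      refine (Subgroup.card_le_card_group _).trans ?_
      rw [Nat.card_perm]
      exact Nat.factorial_le hI
    · have := congrArg (fun π : Equiv.Perm I => π i) (MonoidHom.mem_ker.1 hg)
      simpa using this
  | insert i F hiF ih =>
    obtain ⟨H, hfi, hix, hH, hne⟩ := ih
    have hc := es2_cone ha hp hDE hD H F hne
    have hinv : ∀ h ∈ H, ∀ x ∈ es2_fx D a pr s H F, a h x ∈ es2_fx D a pr s H F := fun h hh =>
      es2_inv ha hp hDE hst hH (fun g hg => H.mul_mem (H.mul_mem (H.inv_mem hh) hg) hh)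
        fun j hj => by rwa [hH _ (H.inv_mem hh)]
    have hE' : ∀ y ∈ pr i '' es2_fx D a pr s H F, y ∈ E := by
      rintro _ ⟨x, hx, rfl⟩
      exact hp.mem i x (hDE hx.1)
    have hc' : Cone ⊤ (pr i '' es2_fx D a pr s H F) :=
      { ne := hne.image _
        filt := fun y hy => hE.filt y (hE' y hy)
        add_mem := by
          rintro _ ⟨x, hx, rfl⟩ _ ⟨y, hy, rfl⟩
          exact ⟨add x y, hc.add_mem x hx y hy, hp.add i x (hDE hx.1) y (hDE hy.1)⟩
        sc_mem := by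
          rintro c h0 _ ⟨x, hx, rfl⟩
          exact ⟨sc c x, hc.sc_mem c h0 x hx, hp.sc i c h0 x (hDE hx.1)⟩ }
    have ha' : AAct (pr i '' es2_fx D a pr s H F)
        fun (g : H) y => sc (s g i)⁻¹ (a g y) :=
      { mem := by
          rintro g _ ⟨x, hx, rfl⟩
          have h0 := inv_pos.2 (hp.pos g i)
          have h1 := hinv g g.2 x hx
          refine ⟨_, hc.sc_mem _ h0 _ h1, ?_⟩
          rw [hp.sc i _ h0 _ (hDE h1.1), hp.eqv g i x (hDE hx.1), hH g g.2]
        one := fun y hy => by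
          simp only [OneMemClass.coe_one]
          rw [es2_coc_one hp.pos hp.coc, inv_one, sc_one, ha.one y (hE' y hy)]
        mul := fun g h y hy => by
          simp only [Subgroup.coe_mul]
          rw [ha.sc g _ (inv_pos.2 (hp.pos h i)) _ (ha.mem h y (hE' y hy)), sc_sc,
            ha.mul _ _ y (hE' y hy), hp.coc, hH h h.2, mul_inv]
        add := fun g x hx y hy => by
          rw [ha.add g x (hE' x hx) y (hE' y hy), sc_add (inv_pos.2 (hp.pos g i))]
        sc := fun g c h0 x hx => by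
          rw [ha.sc g c h0 x (hE' x hx), es2_comm] }
    have hL : Lipz (n + 1) (pr i '' es2_fx D a pr s H F)
        fun (g : H) y => sc (s g i)⁻¹ (a g y) := by
      rintro g _ ⟨x, hx', rfl⟩ _ ⟨y, hy', rfl⟩ δ h0 h1 h2
      exact hx.lip g i x (hDE hx'.1) y (hDE hy'.1) δ h0 h1 h2
    obtain ⟨x0, hx0⟩ := hne
    obtain ⟨f, hty⟩ := hx.typ i x0 (hDE hx0.1)
    obtain ⟨H', hfi', hix', _, ⟨x, hx', rfl⟩, hfix⟩ :=
      hG k H _ _ _ f hc' ha' hL ⟨x0, hx0, rfl⟩ fun g => hty g
    refine ⟨H'.map H.subtype, ⟨?_⟩, ?_, ?_, x, hx'.1, ?_⟩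
    · rw [Subgroup.index_map_subtype]
      exact mul_ne_zero hfi'.1 hfi.1
    · rw [Subgroup.index_map_subtype, Finset.card_insert_of_notMem hiF, pow_succ, ← mul_assoc,
        mul_comm]
      exact Nat.mul_le_mul hix (hix'.trans J.le_succ)
    · rintro _ ⟨g, -, rfl⟩
      exact hH g g.2
    · rintro _ ⟨g, hg, rfl⟩ j hj
      rcases Finset.mem_insert.1 (Finset.mem_coe.1 hj) with rfl | hj
      · have h1 := congrArg (sc (s g j)) (hfix g hg)
        rwa [sc_sc, mul_inv_cancel₀ (hp.pos g j).ne', sc_one] at h1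
      · exact hx'.2 g g.2 j hj

theorem mainSB [Finite I] (hG : GenB.{u, v} n B J) (hI : Nat.card I ≤ m) (hE : Cone ⊤ E)
    (ha : AAct E a) (hp : Cmp n E a pr s) (hx : CmpX B E a pr s) (hDE : D ⊆ E) (hD : Cone ⊤ D)
    (hst : ∀ g, ∀ x ∈ D, a g x ∈ D) :
    ∃ (N : Subgroup Γ) (_ : N.Normal), N.FiniteIndex ∧ N.index ≤ bnd m J ∧ ∀ H : Subgroup Γ,
      Group.IsSolvable (H.map (QuotientGroup.mk' N)) →
      ∃ x ∈ D, ∀ h ∈ H, ∀ i, ∃ c : ℝ, 0 < c ∧ pr i (a h x) = sc c (pr i x) := by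
  have := Fintype.ofFinite I
  obtain ⟨H, hfi, hi, hH, x, h⟩ := js_one hG hI hE ha hp hx hDE hD hst Finset.univ
  rw [Finset.card_univ, ← Nat.card_eq_fintype_card] at hi
  exact ⟨H.normalCore, inferInstance, inferInstance, index_core H (hi.trans
    (Nat.mul_le_mul_left _ (Nat.pow_le_pow_right J.succ_pos hI))), fun H' hH' =>
      step2 hE ha hp hDE hD hst _ (fun g hg => hH g (H.normalCore_le hg))
        ⟨x, h.1, fun g hg i => h.2 g (H.normalCore_le hg) i (by simp)⟩ H' hH'⟩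

end Pool.Agent.P.MP_6990a0_al.VC
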