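import Pool.Agent.P.MP_6990a0_al.JU4

/-! The uniform bound. -/

namespace Pool.Agent.P.MP_6990a0_al.VC

open Filter

universe u v

theorem index_ae {ι : Type} (𝒰 : Ultrafilter ι) {Γ : ι → Type v} [∀ i, Group (Γ i)]
    (S : ∀ i, Subgroup (Γ i)) (H : Subgroup (∀ i, Γ i)) [H.FiniteIndex]
    (h : ∀ g ∈ H, ∀ᶠ i in 𝒰, g i ∈ S i) :
    ∀ᶠ i in 𝒰, (S i).FiniteIndex ∧ (S i).index ≤ H.index := by
  classical
  by_contra hcon
  rw [← Ultrafilter.eventually_not] at hcon
  have key : ∀ i, ∃ g : Fin (H.index + 1) → Γ i,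
      ¬ ((S i).FiniteIndex ∧ (S i).index ≤ H.index) →
        Function.Injective fun t => (g t : Γ i ⧸ S i) := by
    intro i
    by_cases hi : (S i).FiniteIndex ∧ (S i).index ≤ H.index
    · exact ⟨fun _ => 1, fun h' => absurd hi h'⟩
    · have : Nonempty (Fin (H.index + 1) ↪ Γ i ⧸ S i) := by
        rcases finite_or_infinite (Γ i ⧸ S i) with hf | hf
        · have := Fintype.ofFinite (Γ i ⧸ S i)
          refine Function.Embedding.nonempty_of_card_le ?_
          rw [Fintype.card_fin, ← Nat.card_eq_fintype_card]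
          exact Nat.succ_le_of_lt (not_le.1 fun h' =>
            hi ⟨(S i).finiteIndex_of_finite_quotient, h'⟩)
        · exact ⟨Fin.valEmbedding.trans (Infinite.natEmbedding _)⟩
      obtain ⟨e⟩ := this
      refine ⟨fun t => (e t).out, fun _ => ?_⟩
      simpa only [QuotientGroup.out_eq'] using e.injective
  choose g hg using key
  have : Finite ((∀ i, Γ i) ⧸ H) := H.finite_quotient_of_finiteIndex
  have := Fintype.ofFinite ((∀ i, Γ i) ⧸ H)
  obtain ⟨s, t, hst, e⟩ := Fintype.exists_ne_map_eq_of_card_lt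
    (fun t : Fin (H.index + 1) => (QuotientGroup.mk (fun i => g i t) : (∀ i, Γ i) ⧸ H)) (by
      rw [Fintype.card_fin, ← Nat.card_eq_fintype_card]
      exact Nat.lt_succ_self _)
  obtain ⟨i, h1, h2⟩ := (hcon.and (h _ (QuotientGroup.eq.1 e))).exists
  exact hst (hg i h1 (QuotientGroup.eq.2 h2))

theorem genU (n B : ℕ) : ∃ J, GenB.{u, v} n B J := by
  by_contra hcon
  simp only [GenB, not_exists, not_forall] at hcon
  choose k hk Γ hΓ D a u f hD ha hL hu hf hno using hcon
  obtain ⟨d, ε, hε, hz⟩ := exists_fam (k := k) (z := u) (D := D) (a := a)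
    (hyperfilter ℕ) f hu hf
  obtain ⟨H, hfi, z, hz, hfix⟩ := hε.fix hD ha (by positivity) hL hz
  let S : ∀ i, Subgroup (Γ i) := fun i =>
    { carrier := {g | a i g (z i) = z i}
      one_mem' := (ha i).one _ (hz i)
      mul_mem' := fun {g h} hg hh => by
        rw [Set.mem_ofPred_eq] at hg hh ⊢
        rw [(ha i).mul g h _ (hz i), hh, hg]
      inv_mem' := fun {g} hg => by
        rw [Set.mem_ofPred_eq] at hg ⊢
        have h1 := (ha i).mul g⁻¹ g _ (hz i)
        rw [inv_mul_cancel, (ha i).one _ (hz i), hg] at h1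
        exact h1.symm }
  have h1 := index_ae (hyperfilter ℕ) S H hfix
  have h2 : ∀ᶠ i in (hyperfilter ℕ : Filter ℕ), H.index ≤ i :=
    (Nat.hyperfilter_le_atTop) (eventually_ge_atTop _)
  obtain ⟨i, ⟨h3, h4⟩, h5⟩ := (h1.and h2).exists
  exact hno i (S i) ⟨h3, h4.trans h5, z i, hz i, fun g hg => hg⟩

end Pool.Agent.P.MP_6990a0_al.VC
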