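import Pool.Agent.P.MP_6990a0_al.JK
import Pool.Agent.P.MP_6990a0_al.JL2
import Pool.Agent.P.MP_6990a0_al.JU5

/-! The theorem with the bound. -/

open Pool.Agent.GR Pool.Agent.RED Pool.Agent.P.MP_6990a0_al Pool.Agent.P.MP_6990a0_al.VC

universe u v

namespace Pool.Agent.Edif

theorem top_core {k : Type u} [Field k] {A : Type u} [CommRing A] [HopfAlgebra k A]
    {K : Subfield ℝ} {G : Type*} [Group G] {n r m J : ℕ} {Y : Geo0 k (Fin n → k) G (Fin r → ℝ) n}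
    (hY : Y.Ax) (hm : Y.Φ.ncard ≤ m) (hG : GenB.{u, v} n ((2 * m + 1) ^ m) J) (hK : Y.Rat K)
    {io : Ed k A K → ℝ → Submodule k (Fin n → k)} (hi : Function.Injective io)
    (ofa : ∀ g, ∃ (T : MaxT k A) (L : (Fin r → K) →ₗ[K] Fin T.1.r → K),
      ∀ v, io (apt T (L v)) = Y.ap g (Geo0.up v))
    (toa : ∀ T : MaxT k A, ∃ (g : G) (L : (Fin T.1.r → K) →ₗ[K] Fin r → K),
      ∀ v, io (apt T v) = Y.ap g (Geo0.up (L v)))
    (fac : ∀ x y, y ∈ facet x ↔ Y.Same (io y) (io x)) (C : Set (Ed k A K))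
    (conv : ∀ x ∈ C, ∀ y ∈ C, ∃ T v w, x = apt T v ∧ y = apt T w ∧ apt T '' segment K v w ⊆ C)
    (cone : ∀ T v (c : K), 0 < c → apt T v ∈ C → apt T (c • v) ∈ C)
    (noncr : ∃ x ∈ C, ∀ y ∈ C, ¬ Opp x y)
    (Γ : Type v) [Group Γ] [MulAction Γ (Ed k A K)] (aut : ∀ γ : Γ, AptLin (γ • · : Ed k A K → _))
    (stab : ∀ γ : Γ, (γ • ·) '' C = C) :
    ∃ (N : Subgroup Γ) (_ : N.Normal), N.FiniteIndex ∧ N.index ≤ bnd m J ∧ ∀ H : Subgroup Γ,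
      Group.IsSolvable (H.map (QuotientGroup.mk' N)) →
      ∃ x ∈ C, (∀ T, x ≠ apt T 0) ∧ (∀ y ∈ C, ¬ Opp x y) ∧
        ∀ γ ∈ H, (γ • ·) '' facet x = facet x := by
  obtain ⟨x₀, hx₀, hx₀'⟩ := noncr
  have rep : ∀ x : Ed k A K, ∃ T v, x = apt T v := fun x =>
    let ⟨⟨T, v⟩, e⟩ := Quot.exists_rep x
    ⟨T, v, e.symm⟩
  have mem : ∀ x, io x ∈ Y.EK K := fun x => by
    obtain ⟨T, v, rfl⟩ := rep x
    obtain ⟨g, L, e⟩ := toa T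
    exact ⟨g, _, e v⟩
  have sur : ∀ z ∈ Y.EK K, ∃ x, io x = z := by
    rintro _ ⟨g, v, rfl⟩
    obtain ⟨T, L, e⟩ := ofa g
    exact ⟨_, e v⟩
  have opp : ∀ x y, Y.OppG K (io x) (io y) ↔ Opp x y := fun x y => by
    constructor
    · rintro ⟨g, v, e1, e2⟩
      obtain ⟨T, L, e⟩ := ofa g
      exact ⟨T, L v, hi (e1.trans (e v).symm), hi (by rw [← map_neg, e, e2])⟩
    · rintro ⟨T, v, rfl, rfl⟩
      obtain ⟨g, L, e⟩ := toa T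
      exact ⟨g, L v, e v, by rw [e, map_neg]⟩
  let a : Γ → (ℝ → Submodule k (Fin n → k)) → ℝ → Submodule k (Fin n → k) :=
    fun κ => Function.extend io (fun x => io (κ • x)) id
  have ha : ∀ κ x, a κ (io x) = io (κ • x) := fun κ x => hi.extend_apply _ _ x
  have up_add : ∀ v w : Fin r → K, Geo0.up (v + w) = Geo0.up v + Geo0.up w :=
    fun _ _ => rfl
  have up_smul : ∀ (c : K) (v : Fin r → K), Geo0.up (c • v) = (c : ℝ) • Geo0.up v :=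
    fun _ _ => rfl
  obtain ⟨N, hN, hfi, hb, hH⟩ := hY.mainKB (a := a) (C := io '' C) hm hG hK
    ⟨fun z hz => by obtain ⟨x, rfl⟩ := sur z hz; rw [ha, one_smul],
      fun g g' z hz => by obtain ⟨x, rfl⟩ := sur z hz; rw [ha, ha, ha, mul_smul],
      fun κ g => by
        obtain ⟨T, L, e⟩ := ofa g
        obtain ⟨T', M, e'⟩ := aut κ T
        obtain ⟨g', L', e''⟩ := toa T'
        exact ⟨g', L' ∘ₗ M ∘ₗ L, fun v => by rw [← e, ha]; exact (congrArg io (e' _)).trans (e'' _)⟩⟩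
    (by rintro _ ⟨x, -, rfl⟩; exact mem x)
    (by
      rintro _ ⟨x, hx, rfl⟩ _ ⟨y, hy, rfl⟩
      obtain ⟨T, v, w, rfl, rfl, hs⟩ := conv x hx y hy
      obtain ⟨g, L, e⟩ := toa T
      have h2 := cone T _ 2 two_pos (hs ⟨_, ⟨2⁻¹, 2⁻¹, by positivity, by positivity,
        by norm_num, rfl⟩, rfl⟩)
      rw [smul_add, smul_smul, smul_smul, mul_inv_cancel₀ two_ne_zero, one_smul, one_smul] at h2
      exact ⟨_, h2, by rw [e, e, e, Geo0.ap_add, map_add, up_add]⟩)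
    (by
      rintro s hs h0 _ ⟨x, hx, rfl⟩
      obtain ⟨T, v, rfl⟩ := rep x
      obtain ⟨g, L, e⟩ := toa T
      exact ⟨_, cone T v ⟨s, hs⟩ h0 hx, by rw [e, e, Geo0.ap_sc _ h0, map_smul, up_smul]⟩)
    (by
      rintro κ _ ⟨x, hx, rfl⟩
      exact ⟨_, stab κ ▸ ⟨x, hx, rfl⟩, (ha κ x).symm⟩)
    ⟨_, ⟨x₀, hx₀, rfl⟩, by
      rintro _ ⟨y, hy, rfl⟩
      exact fun e => hx₀' y hy ((opp _ _).1 e)⟩
  refine ⟨N, hN, hfi, hb, fun H hs => ?_⟩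
  obtain ⟨_, ⟨x, hx, rfl⟩, h1, h2⟩ := hH H hs
  have h3 : ∀ y ∈ C, ¬ Opp x y := fun y hy e => h1 _ ⟨y, hy, rfl⟩ ((opp _ _).2 e)
  have h4 : ∀ κ ∈ H, ∀ y ∈ facet x, κ • y ∈ facet x := fun κ hκ y hy => by
    rw [fac] at hy ⊢
    rw [← ha]
    exact h2 κ hκ _ (mem y) hy
  refine ⟨x, hx, fun T e => h3 x hx ⟨T, 0, e, by rw [neg_zero]; exact e⟩, h3, fun κ hκ => ?_⟩
  refine Set.Subset.antisymm ?_ fun y hy => ⟨_, h4 κ⁻¹ (H.inv_mem hκ) y hy, by simp⟩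
  rintro _ ⟨y, hy, rfl⟩
  exact h4 κ hκ y hy

theorem topJ (n : ℕ) : ∃ J : ℕ, ∀ (k : Type u) [Field k] (A : Type u) [CommRing A]
    [HopfAlgebra k A], RG.IsReductive k A → ∀ u : GL (Fin n) A, IsEmb k u →
    ∀ (K : Subfield ℝ) (C : Set (Ed k A K)),
    (∀ x ∈ C, ∀ y ∈ C, ∃ T v w, x = apt T v ∧ y = apt T w ∧ apt T '' segment K v w ⊆ C) →
    (∀ T v (c : K), 0 < c → apt T v ∈ C → apt T (c • v) ∈ C) →
    (∃ x ∈ C, ∀ y ∈ C, ¬ Opp x y) →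
    ∀ (Γ : Type v) [Group Γ] [MulAction Γ (Ed k A K)],
    (∀ γ : Γ, AptLin (γ • · : Ed k A K → _)) → (∀ γ : Γ, (γ • ·) '' C = C) →
    ∃ (N : Subgroup Γ) (_ : N.Normal), N.FiniteIndex ∧ N.index ≤ J ∧ ∀ H : Subgroup Γ,
      Group.IsSolvable (H.map (QuotientGroup.mk' N)) →
      ∃ x ∈ C, (∀ T, x ≠ apt T 0) ∧ (∀ y ∈ C, ¬ Opp x y) ∧
        ∀ γ ∈ H, (γ • ·) '' facet x = facet x := by
  obtain ⟨J, hJ⟩ := genU.{u, v} n ((2 * (n * n) + 1) ^ (n * n))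
  refine ⟨bnd (n * n) J, fun k _ A _ _ hA u hu K C conv cone noncr Γ _ _ aut stab => ?_⟩
  have := hA.smooth
  have := isDomain_of_red hA
  obtain ⟨n₀, H₀, ⟨X₀⟩⟩ := exists_real hA
  obtain ⟨⟨T₀, v₀⟩, -⟩ := Quot.exists_rep noncr.choose
  obtain ⟨γ, χ, h⟩ := X₀.exists_diag (isHom_tpt T₀.1)
  generalize X₀.rb γ = X at h
  obtain ⟨m, deg, hw⟩ := exists_wts (isHom_tpt T₀.1)
  obtain ⟨io, hι⟩ := exists_io X K
  obtain ⟨X₁, hX₁⟩ := emb_mrep hu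
  obtain ⟨X', χ', hX', h'⟩ := hX₁.diag (isHom_tpt T₀.1)
  have hA0 := geo_ax X T₀.2 h hw
  have ht := geo_tr X hX' T₀.2 h h' deg
  obtain ⟨tr, t1, t2, t3⟩ := ht.exists_tr hA0
  have mem : ∀ z, io z ∈ (geo X χ deg).EE := fun z => by
    obtain ⟨⟨T, v⟩, rfl⟩ := Quot.exists_rep z
    obtain ⟨g, L, e⟩ := hι.to_ap (deg := deg) h T
    exact ⟨g, _, e v⟩
  refine top_core (ht.ax hA0).nz (Geo0.nz_card _) hJ (Geo0.nz_rat (geoM_wt _ _ _ K))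
    (io := tr ∘ io) (fun x y e => hι.inj (t2 (mem x) (mem y) e)) (fun g => ?_) (fun T => ?_)
    (fun x y => ?_) C conv cone noncr Γ aut stab
  · obtain ⟨T, L, e⟩ := hι.of_ap (deg := deg) h g
    exact ⟨T, L, fun v => (congrArg tr (e v)).trans (t1 _ _)⟩
  · obtain ⟨g, L, e⟩ := hι.to_ap (deg := deg) h T
    exact ⟨g, L, fun v => (congrArg tr (e v)).trans (t1 _ _)⟩
  · rw [hι.facet h hw, (ht.ax hA0).nz_same]
    exact t3 _ (mem y) _ (mem x)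

end Pool.Agent.Edif
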