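import Pool.Agent.P.MP_6990a0_al.JD

/-! Scales and the lexicographic order. -/

namespace Pool.Agent.P.MP_6990a0_al.VC

open Filter

variable {ι : Type} {d n : ℕ} {𝒰 : Ultrafilter ι} {ε : Fin d → ι → ℝ}

theorem cmb_add (i : ι) (x y : Fin d → ℝ) : cmb ε i (x + y) = cmb ε i x + cmb ε i y := by
  simp [cmb, mul_add, Finset.sum_add_distrib]

theorem cmb_smul (i : ι) (c : ℝ) (x : Fin d → ℝ) : cmb ε i (c • x) = c * cmb ε i x := by
  simp [cmb, Finset.mul_sum, mul_left_comm]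

theorem ju1a_aux (𝒰 : Ultrafilter ι) {J : Type} [Fintype J] (N : ℕ) :
    ∀ (S : Finset J), S.card ≤ N → ∀ f : ι → J → ℝ, (∀ᶠ i in 𝒰, ∀ j, j ∉ S → f i j = 0) →
      ∃ (d : ℕ) (ε : Fin d → ι → ℝ) (F : J → Fin d → ℝ), Sc 𝒰 ε ∧
        (∀ᶠ i in 𝒰, ∀ j, f i j = cmb ε i (F j)) ∧
        ∀ l, ∃ C : ℝ, 0 < C ∧ ∀ᶠ i in 𝒰, ε l i ≤ C * ‖f i‖ := by
  classical
  have zero : ∀ f : ι → J → ℝ, (∀ᶠ i in 𝒰, f i = 0) →
      ∃ (d : ℕ) (ε : Fin d → ι → ℝ) (F : J → Fin d → ℝ), Sc 𝒰 ε ∧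
        (∀ᶠ i in 𝒰, ∀ j, f i j = cmb ε i (F j)) ∧
        ∀ l, ∃ C : ℝ, 0 < C ∧ ∀ᶠ i in 𝒰, ε l i ≤ C * ‖f i‖ := fun f h =>
    ⟨0, fun l => l.elim0, fun _ l => l.elim0, ⟨fun l => l.elim0, fun l => l.elim0⟩,
      h.mono fun i hi j => by simp [cmb, hi], fun l => l.elim0⟩
  induction N with
  | zero =>
    intro S hS f hf
    have : S = ∅ := Finset.card_eq_zero.mp (by omega)
    subst this
    exact zero f (hf.mono fun i hi => funext fun j => hi j (by simp))
  | succ N ih =>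
    intro S hS f hf
    by_cases h0 : ∀ᶠ i in 𝒰, f i = 0
    · exact zero f h0
    have hne : ∀ᶠ i in 𝒰, 0 < ‖f i‖ :=
      (Ultrafilter.eventually_not.mpr h0).mono fun i hi => norm_pos_iff.mpr hi
    let g : ι → J → ℝ := fun i => ‖f i‖⁻¹ • f i
    have hg : ∀ᶠ i in 𝒰, g i ∈ Metric.sphere (0 : J → ℝ) 1 := hne.mono fun i hi => by
      simp only [g, mem_sphere_zero_iff_norm, norm_smul, norm_inv, norm_norm]
      exact inv_mul_cancel₀ hi.ne'
    obtain ⟨p, hp1, hp⟩ := (isCompact_sphere (0 : J → ℝ) 1).ultrafilter_le_nhds (𝒰.map g)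
      (by rw [Ultrafilter.coe_map, le_principal_iff]; exact hg)
    have hp : Tendsto g 𝒰 (nhds p) := hp
    have hpj : ∀ j, Tendsto (fun i => g i j) 𝒰 (nhds (p j)) := tendsto_pi_nhds.mp hp
    have hpS : ∀ j, j ∉ S → p j = 0 := fun j hj =>
      tendsto_nhds_unique_of_eventuallyEq (hpj j) tendsto_const_nhds
        (hf.mono fun i hi => by simp [g, hi j hj])
    obtain ⟨j0, hj0⟩ : ∃ j, p j ≠ 0 := by
      by_contra hc
      push Not at hc
      rw [show p = 0 from funext hc] at hp1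
      simp at hp1
    have hj0S : j0 ∈ S := by
      by_contra hc
      exact hj0 (hpS j0 hc)
    let r : ι → ℝ := fun i => g i j0 / p j0
    have hr : Tendsto r 𝒰 (nhds 1) := by
      have := (hpj j0).div_const (p j0)
      rwa [div_self hj0] at this
    have hh : Tendsto (fun i => ‖g i - r i • p‖) 𝒰 (nhds 0) := by
      have := (hp.sub (hr.smul_const p)).norm
      simpa using this
    let e : ι → ℝ := fun i => ‖f i‖ * r i
    let f' : ι → J → ℝ := fun i => f i - e i • p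
    have hf' : ∀ᶠ i in 𝒰, ‖f' i‖ = ‖f i‖ * ‖g i - r i • p‖ := hne.mono fun i hi => by
      have : f' i = ‖f i‖ • (g i - r i • p) := by
        simp only [f', e, g, smul_sub, smul_smul, mul_inv_cancel₀ hi.ne', one_smul]
      rw [this, norm_smul, norm_norm]
    have he : ∀ᶠ i in 𝒰, 0 < e i ∧ ‖f i‖ ≤ 2 * e i ∧ e i ≤ 2 * ‖f i‖ := by
      filter_upwards [hne, hr.eventually (lt_mem_nhds (show (1 / 2 : ℝ) < 1 by norm_num)),
        hr.eventually (gt_mem_nhds (show (1 : ℝ) < 2 by norm_num))] with i h1 h2 h3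
      simp only [e]
      refine ⟨by positivity, by nlinarith, by nlinarith⟩
    obtain ⟨d, ε, F, hSc, hF, hC⟩ := ih (S.erase j0)
      (by rw [Finset.card_erase_of_mem hj0S]; omega) f' (by
        filter_upwards [hf, hne] with i hi h1 j hj
        by_cases hjj : j = j0
        · subst hjj
          simp only [f', e, r, g, Pi.sub_apply, Pi.smul_apply, smul_eq_mul]
          field_simp
          ring
        · have : j ∉ S := fun h => hj (Finset.mem_erase.mpr ⟨hjj, h⟩)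
          simp [f', hi j this, hpS j this])
    refine ⟨d + 1, Fin.cons (fun i => if 0 < e i then e i else 1) ε,
      fun j => Fin.cons (p j) (F j), ⟨fun l i => ?_, fun l l' hl η hη => ?_⟩, ?_, fun l => ?_⟩
    · refine Fin.cases ?_ (fun l => ?_) l
      · simp only [Fin.cons_zero]
        split_ifs with h
        · exact h
        · exact one_pos
      · simpa using hSc.pos l i
    · obtain ⟨l', rfl⟩ := Fin.exists_succ_eq.mpr (Fin.pos_iff_ne_zero.mp
        (lt_of_le_of_lt (Fin.zero_le l) hl))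
      revert hl
      refine Fin.cases (fun _ => ?_) (fun l hl => ?_) l
      · obtain ⟨C, hC0, hC⟩ := hC l'
        filter_upwards [hC, hf', he,
          hh.eventually (gt_mem_nhds (show (0 : ℝ) < η / (2 * C) by positivity))]
          with i h1 h2 h3 h4
        simp only [Fin.cons_zero, Fin.cons_succ, if_pos h3.1]
        rw [h2] at h1
        have h5 : ‖g i - r i • p‖ * (2 * C) ≤ η := ((lt_div_iff₀ (by positivity)).mp h4).le
        have h6 : C * (‖f i‖ * ‖g i - r i • p‖) ≤ C * (2 * e i * ‖g i - r i • p‖) :=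
          mul_le_mul_of_nonneg_left
            (mul_le_mul_of_nonneg_right h3.2.1 (norm_nonneg _)) hC0.le
        nlinarith [h3.1]
      · simpa using hSc.lim l l' (Fin.succ_lt_succ_iff.mp hl) η hη
    · filter_upwards [hF, he] with i h1 h2 j
      have := h1 j
      simp only [cmb, Fin.sum_univ_succ, Fin.cons_zero, Fin.cons_succ, if_pos h2.1] at this ⊢
      simp only [f', Pi.sub_apply, Pi.smul_apply, smul_eq_mul] at this
      linarith
    · refine Fin.cases ?_ (fun l => ?_) l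
      · refine ⟨2, two_pos, he.mono fun i hi => ?_⟩
        simp only [Fin.cons_zero, if_pos hi.1]
        exact hi.2.2
      · obtain ⟨C, hC0, hC⟩ := hC l
        refine ⟨C, hC0, ?_⟩
        filter_upwards [hC, hf', hh.eventually (gt_mem_nhds (show (0 : ℝ) < 1 by norm_num))]
          with i h1 h2 h3
        simp only [Fin.cons_succ]
        rw [h2] at h1
        refine h1.trans (mul_le_mul_of_nonneg_left ?_ hC0.le)
        exact mul_le_of_le_one_right (norm_nonneg _) h3.le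

theorem exists_scales (𝒰 : Ultrafilter ι) {J : Type} [Finite J] (f : ι → J → ℝ) :
    ∃ (d : ℕ) (ε : Fin d → ι → ℝ) (F : J → Fin d → ℝ), Sc 𝒰 ε ∧
      ∀ᶠ i in 𝒰, ∀ j, f i j = cmb ε i (F j) := by
  have := Fintype.ofFinite J
  obtain ⟨d, ε, F, h1, h2, -⟩ := ju1a_aux 𝒰 _ Finset.univ le_rfl f
    (Eventually.of_forall fun i j hj => absurd (Finset.mem_univ j) hj)
  exact ⟨d, ε, F, h1, h2⟩

theorem ju1b_first {x y : Fin d → ℝ} {l : Fin d} (h : x l ≠ y l) :
    ∃ l0, l0 ≤ l ∧ x l0 ≠ y l0 ∧ ∀ l', l' < l0 → x l' = y l' := by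
  classical
  obtain ⟨l0, h0, h1⟩ := (wellFounded_lt (α := Fin d)).has_min {l | x l ≠ y l} ⟨l, h⟩
  refine ⟨l0, not_lt.1 (h1 l h), h0, fun l' hl' => ?_⟩
  by_contra h2
  exact h1 l' h2 hl'

theorem ju1b_sum {u : Fin d → ℝ} (l0 : Fin d) {B : ℝ} (hB : 0 ≤ B)
    (h : ∀ l, l ≠ l0 → |u l| ≤ B) : |∑ l, u l - u l0| ≤ d * B := by
  classical
  rw [← Finset.add_sum_erase _ _ (Finset.mem_univ l0), add_sub_cancel_left]
  refine (Finset.abs_sum_le_sum_abs _ _).trans ?_
  refine (Finset.sum_le_card_nsmul _ _ B fun l hl => h l (Finset.ne_of_mem_erase hl)).trans ?_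
  rw [nsmul_eq_mul]
  refine mul_le_mul_of_nonneg_right ?_ hB
  have : (Finset.univ.erase l0).card ≤ d := by
    simp
  exact_mod_cast this

theorem ju1b_key (h : Sc 𝒰 ε) {x y : Fin d → ℝ} (l0 : Fin d)
    (hz : ∀ l', l' < l0 → x l' = y l') {η : ℝ} (hη : 0 < η) :
    ∀ᶠ i in 𝒰, |cmb ε i x - cmb ε i y - ε l0 i * (x l0 - y l0)| ≤ η * ε l0 i := by
  have hd : (0 : ℝ) < d := by exact_mod_cast l0.pos
  have key : ∀ l, ∀ᶠ i in 𝒰, l ≠ l0 → |ε l i * (x l - y l)| ≤ η / d * ε l0 i := by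
    intro l
    rcases lt_trichotomy l l0 with hl | hl | hl
    · refine Eventually.of_forall fun i _ => ?_
      rw [hz l hl, sub_self, mul_zero, abs_zero]
      exact (mul_pos (div_pos hη hd) (h.pos l0 i)).le
    · exact Eventually.of_forall fun i h' => absurd hl h'
    · have hp : 0 < |x l - y l| + 1 := by positivity
      filter_upwards [h.lim l0 l hl (η / d / (|x l - y l| + 1)) (div_pos (div_pos hη hd) hp)]
        with i hi _
      rw [abs_mul, abs_of_pos (h.pos l i)]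
      rw [div_mul_eq_mul_div, le_div_iff₀ hp] at hi
      nlinarith [h.pos l i]
  filter_upwards [eventually_all.2 key] with i hi
  have h1 := ju1b_sum (u := fun l => ε l i * (x l - y l)) l0
    (mul_pos (div_pos hη hd) (h.pos l0 i)).le hi
  have h2 : cmb ε i x - cmb ε i y = ∑ l, ε l i * (x l - y l) := by
    simp only [cmb, mul_sub, Finset.sum_sub_distrib]
  have h3 : (d : ℝ) * (η / d * ε l0 i) = η * ε l0 i := by field_simp
  rw [h2, ← h3]
  exact h1

theorem ju1b_lt (h : Sc 𝒰 ε) {x y : Fin d → ℝ} (l0 : Fin d)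
    (hz : ∀ l', l' < l0 → x l' = y l') (hl : x l0 < y l0) :
    ∀ᶠ i in 𝒰, cmb ε i x ≤ cmb ε i y := by
  filter_upwards [ju1b_key h l0 hz (sub_pos.2 hl)] with i hi
  nlinarith [(abs_le.1 hi).2]

theorem Sc.lex_iff (h : Sc 𝒰 ε) (m : ℕ) (x y : Fin d → ℝ) :
    (∀ l : Fin d, l.val < m → ∀ η : ℝ, 0 < η →
      ∀ᶠ i in 𝒰, cmb ε i x ≤ cmb ε i y + η * ε l i) ↔ LexLe m x y := by
  constructor
  · intro H l hl hz
    by_contra hc
    have hp : 0 < (x l - y l) / 3 := by linarith [not_le.1 hc]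
    obtain ⟨i, h1, h2⟩ := ((H l hl _ hp).and (ju1b_key h l hz hp)).exists
    nlinarith [(abs_le.1 h2).1, mul_pos hp (h.pos l i)]
  · intro H l hl η hη
    by_cases hc : ∀ l', l' ≤ l → x l' = y l'
    · filter_upwards [ju1b_key h l (fun l' hl' => hc l' hl'.le) hη] with i hi
      rw [hc l le_rfl, sub_self, mul_zero, sub_zero] at hi
      linarith [(abs_le.1 hi).2]
    · obtain ⟨l1, h1⟩ := not_forall.1 hc
      obtain ⟨h2, h3⟩ := Classical.not_imp.1 h1
      obtain ⟨l0, h4, h5, h6⟩ := ju1b_first h3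
      have h7 : l0.val < m := lt_of_le_of_lt (Fin.le_def.1 (h4.trans h2)) hl
      filter_upwards [ju1b_lt h l0 h6 (lt_of_le_of_ne (H l0 h7 h6) h5)] with i hi
      linarith [mul_pos hη (h.pos l i)]

theorem Sc.lex_fin (h : Sc 𝒰 ε) {x y : Fin d → ℝ} (hx : LexLe d x y) :
    ∀ᶠ i in 𝒰, cmb ε i x ≤ cmb ε i y := by
  by_cases hc : x = y
  · exact Eventually.of_forall fun i => by rw [hc]
  · obtain ⟨l1, h1⟩ := Function.ne_iff.1 hc
    obtain ⟨l0, -, h5, h6⟩ := ju1b_first h1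
    exact ju1b_lt h l0 h6 (lt_of_le_of_ne (hx l0 l0.2 h6) h5)

theorem LexLe.antisymm {m : ℕ} {x y : Fin d → ℝ} (h : LexLe m x y) (h' : LexLe m y x)
    (l : Fin d) (hl : l.val < m) : x l = y l := by
  by_contra hc
  obtain ⟨l0, h4, h5, h6⟩ := ju1b_first hc
  have h7 : l0.val < m := lt_of_le_of_lt (Fin.le_def.1 h4) hl
  exact h5 (le_antisymm (h l0 h7 h6) (h' l0 h7 fun l' hl' => (h6 l' hl').symm))

theorem ju1b_lex {m : ℕ} {x y : Fin d → ℝ} {l0 : Fin d} (h0 : l0.val < m) (h5 : x l0 ≠ y l0)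
    (h6 : ∀ l', l' < l0 → x l' = y l') : LexLe m x y ↔ x l0 ≤ y l0 := by
  refine ⟨fun H => H l0 h0 h6, fun H l _ hz => ?_⟩
  rcases lt_trichotomy l l0 with hl | hl | hl
  · exact (h6 l hl).le
  · rw [hl]; exact H
  · exact absurd (hz l0 hl) h5

theorem ju1b_sign {m : ℕ} {ρ B : ℝ} (h0 : 0 < ρ) (h1 : ρ ≤ 1) (hB : 0 ≤ B) {x y : Fin d → ℝ}
    {l0 : Fin d} (hm : l0.val ≤ m) (h6 : ∀ l', l' < l0 → x l' = y l')
    (hb : ∀ l, l0 < l → l.val ≤ m → |x l - y l| ≤ B) (hs : ρ * (d * B) < |x l0 - y l0|) :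
    ((fun l : Fin d => if l.val ≤ m then ρ ^ l.val else 0) ⬝ᵥ x ≤
      (fun l : Fin d => if l.val ≤ m then ρ ^ l.val else 0) ⬝ᵥ y) ↔ x l0 ≤ y l0 := by
  have hp : 0 < ρ ^ l0.val := pow_pos h0 _
  have hB' : 0 ≤ ρ ^ l0.val * ρ * B := by positivity
  have h2 := ju1b_sum (u := fun l : Fin d => (if l.val ≤ m then ρ ^ l.val else 0) * (x l - y l))
    l0 hB' (fun l hl => by
      rcases lt_or_gt_of_ne hl with hl | hl
      · simpa [h6 l hl] using hB'
      · split_ifs with h3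
        · rw [abs_mul, abs_of_pos (pow_pos h0 _), ← pow_succ]
          exact mul_le_mul (pow_le_pow_of_le_one h0.le h1 (Fin.lt_def.1 hl)) (hb l hl h3)
            (abs_nonneg _) (pow_pos h0 _).le
        · simpa using hB')
  simp only [hm, if_true] at h2
  rw [← sub_nonpos, ← dotProduct_sub]
  simp only [dotProduct, Pi.sub_apply]
  have h3 : (d : ℝ) * (ρ ^ l0.val * ρ * B) = ρ ^ l0.val * (ρ * (d * B)) := by ring
  have h4 := mul_lt_mul_of_pos_left hs hp
  rw [h3, abs_le] at h2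
  rcases le_or_gt (x l0) (y l0) with h5 | h5
  · rw [abs_of_nonpos (sub_nonpos.2 h5)] at h4
    exact iff_of_true (by nlinarith [h2.2]) h5
  · rw [abs_of_pos (sub_pos.2 h5)] at h4
    exact iff_of_false (not_le.2 (by nlinarith [h2.1])) (not_le.2 h5)

theorem ju1b_small {T : Type} [Finite T] (g : T → ℝ) (C : ℝ) :
    ∃ ρ : ℝ, 0 < ρ ∧ ρ ≤ 1 ∧ ∀ p, g p ≠ 0 → ρ * C < |g p| := by
  have h1 : ∀ p, ∀ᶠ ρ in nhds (0 : ℝ), g p ≠ 0 → ρ * C < |g p| := by
    intro p
    by_cases hp : g p = 0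
    · exact Eventually.of_forall fun _ h => absurd hp h
    · have h2 : Tendsto (fun ρ : ℝ => ρ * C) (nhds 0) (nhds (0 * C)) :=
        (continuous_id.mul continuous_const).tendsto 0
      rw [zero_mul] at h2
      filter_upwards [h2.eventually (gt_mem_nhds (abs_pos.2 hp))] with ρ hρ _ using hρ
  have h3 : ∀ᶠ ρ in nhdsWithin (0 : ℝ) (Set.Ioi 0), ρ ∈ Set.Ioo (0 : ℝ) 1 :=
    Ioo_mem_nhdsGT one_pos
  obtain ⟨ρ, h4, h5⟩ := (h3.and ((eventually_all.2 h1).filter_mono nhdsWithin_le_nhds)).exists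
  exact ⟨ρ, h4.1, h4.2.le, h5⟩

theorem exists_code (m : ℕ) (t : Fin n → Fin d → ℝ) (lam : ℝ) : ∃ ν, Code m t lam ν := by
  obtain ⟨K, hK⟩ := (Set.finite_range fun p : Fin n × Fin n × Fin d =>
    |t p.1 p.2.2 - t p.2.1 p.2.2|).bddAbove
  have hK' : ∀ j j' l, |t j l - t j' l| ≤ K := fun j j' l => hK ⟨(j, j', l), rfl⟩
  obtain ⟨ρ, h0, h1, hρ⟩ := ju1b_small
    (fun p : Fin n × Fin n × Fin d => t p.1 p.2.2 - t p.2.1 p.2.2) (d * (|K| + 2 * |lam|))
  refine ⟨fun l => if l.val ≤ m then ρ ^ l.val else 0, fun c hc x y j j' hx hy hxy => ?_⟩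
  by_cases he : ∀ l : Fin d, l.val ≤ m → x l = y l
  · refine iff_of_true (le_of_eq (Finset.sum_congr rfl fun l _ => ?_))
      fun l hl _ => (he l (Nat.lt_succ_iff.1 hl)).le
    by_cases h2 : l.val ≤ m
    · rw [he l h2]
    · simp [h2]
  obtain ⟨l1, h2⟩ := not_forall.1 he
  obtain ⟨h3, h4⟩ := Classical.not_imp.1 h2
  obtain ⟨l0, h5, h6, h7⟩ := ju1b_first h4
  have h8 : l0.val ≤ m := (Fin.le_def.1 h5).trans h3
  rw [ju1b_lex (Nat.lt_succ_iff.2 h8) h6 h7]
  have hd : ∀ l : Fin d, l.val < m → x l - y l = c * (t j l - t j' l) := fun l hl => by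
    rw [hx l hl, hy l hl, mul_sub]
  rcases h8.lt_or_eq with h9 | h9
  · refine ju1b_sign (B := c * (|K| + 2 * |lam|)) h0 h1 (by positivity) h8 h7
      (fun l _ hl => ?_) ?_
    · rcases hl.lt_or_eq with hl | hl
      · rw [hd l hl, abs_mul, abs_of_pos hc]
        refine mul_le_mul_of_nonneg_left ?_ hc.le
        linarith [hK' j j' l, le_abs_self K, abs_nonneg lam]
      · have h10 := hxy l hl
        have h11 := abs_sub (x l) (y l)
        nlinarith [le_abs_self lam, abs_nonneg K, h10.1, h10.2]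
    · have h10 : t j l0 - t j' l0 ≠ 0 := fun h => h6 (by
        rw [← sub_eq_zero, hd l0 h9, h, mul_zero])
      have h11 := mul_lt_mul_of_pos_left (hρ (j, j', l0) h10) hc
      rw [hd l0 h9, abs_mul, abs_of_pos hc]
      nlinarith [h11]
  · refine ju1b_sign (B := 0) h0 h1 le_rfl h8 h7 (fun l h hl => ?_) ?_
    · exact absurd (Fin.lt_def.1 h) (by omega)
    · simpa using sub_ne_zero.2 h6

end Pool.Agent.P.MP_6990a0_al.VC
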