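import Pool.Agent.P.MP_6990a0_al.VL1

namespace Pool.Agent.P.MP_6990a0_al.VC

open Classical

variable {L : Type*} [CompleteLattice L]

theorem near_add {ε ε' : ℝ} {x x' y y' : ℝ → L} (h : Near ε x x') (h' : Near ε' y y') :
    Near (ε + ε') (add x y) (add x' y') := by
  intro t
  refine iSup_le fun a => le_iSup_of_le (a - ε) (inf_le_inf (h a) ?_)
  have e : t - (ε + ε') - (a - ε) = t - a - ε' := by ring
  rw [e]
  exact h' (t - a)

theorem sm_near {W : L} {x : ℝ → L} (hx : Filt W x) :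
    ∃ M : ℝ, 0 ≤ M ∧ ∀ s s' : ℝ, ∀ ε, M * |s - s'| ≤ ε → Near ε (sm W s x) (sm W s' x) := by
  obtain ⟨l, hl⟩ := hx.low
  obtain ⟨h, hh⟩ := hx.high
  have hMl : |l| ≤ max |l| |h| := le_max_left _ _
  have hMh : |h| ≤ max |l| |h| := le_max_right _ _
  generalize max |l| |h| = M at hMl hMh
  have hM : 0 ≤ M := (abs_nonneg _).trans hMl
  have hl1 := abs_le.1 hMl
  have hh1 := abs_le.1 hMh
  have key : ∀ a d : ℝ, |a| ≤ M → a * d ≤ M * |d| := fun a d ha =>
    (le_abs_self _).trans (by rw [abs_mul]; exact mul_le_mul_of_nonneg_right ha (abs_nonneg _))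
  have hlow : ∀ a b, b ≤ l → x a ≤ x b := fun a b hb =>
    (hx.le a).trans (hl.symm.le.trans (hx.anti hb))
  have hhigh : ∀ a, h ≤ a → x a = ⊥ := fun a ha => le_bot_iff.1 ((hx.anti ha).trans hh.le)
  refine ⟨M, hM, fun s s' ε hε t => ?_⟩
  have hε0 : 0 ≤ ε := (mul_nonneg hM (abs_nonneg _)).trans hε
  by_cases hs : 0 < s <;> by_cases hs' : 0 < s'
  · simp only [sm, hs, hs', if_true, sc]
    have ht : t = t / s * s := by field_simp
    generalize t / s = a at ht
    by_cases ha : h ≤ a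
    · rw [hhigh a ha]; exact bot_le
    by_cases ha' : l ≤ a
    · apply hx.anti
      rw [div_le_iff₀ hs']
      have := key a (s - s') (abs_le.2 ⟨by linarith, by linarith⟩)
      nlinarith
    · apply hlow
      rw [div_le_iff₀ hs']
      have := key l (s - s') hMl
      have h2 : a * s ≤ l * s := mul_le_mul_of_nonneg_right (by linarith) hs.le
      nlinarith
  · simp only [sm, hs, hs', if_true, if_false, sc, zero]
    split_ifs with ht
    · exact hx.le _
    · rw [hhigh]
      rw [le_div_iff₀ hs]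
      rw [abs_of_pos (by linarith)] at hε
      have h2 : h * s ≤ M * s := mul_le_mul_of_nonneg_right hh1.2 hs.le
      have h3 : M * s' ≤ 0 := mul_nonpos_of_nonneg_of_nonpos hM (not_lt.1 hs')
      nlinarith
  · simp only [sm, hs, hs', if_true, if_false, sc, zero]
    split_ifs with ht
    · refine hl.symm.le.trans (hx.anti ?_)
      rw [div_le_iff₀ hs']
      rw [abs_of_neg (by linarith)] at hε
      have h2 : -M * s' ≤ l * s' := mul_le_mul_of_nonneg_right hl1.1 hs'.le
      have h3 : M * s ≤ 0 := mul_nonpos_of_nonneg_of_nonpos hM (not_lt.1 hs)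
      nlinarith
    · exact bot_le
  · simp only [sm, hs, hs', if_false, zero]
    by_cases ht : t ≤ 0
    · rw [if_pos ht, if_pos (by linarith)]
    · rw [if_neg ht]; exact bot_le

theorem lip_sm {ι : Type*} [Fintype ι] {W : L} {x : ℝ → L} (hx : Filt W x) (i : ι) :
    Lip (fun v : ι → ℝ => sm W (v i) x) := by
  obtain ⟨M, hM, h⟩ := sm_near hx
  refine ⟨M, hM, fun v v' => h _ _ _ (mul_le_mul_of_nonneg_left ?_ hM)⟩
  rw [← Real.dist_eq]
  exact dist_le_pi_dist v v' i

theorem lip_sumL {ι : Type*} [Fintype ι] (W : L) {J : Type*} (js : List J)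
    (f : J → (ι → ℝ) → ℝ → L) (h : ∀ j ∈ js, Lip (f j)) :
    Lip (fun v => sumL W (js.map fun j => f j v)) := by
  induction js with
  | nil =>
    refine ⟨0, le_rfl, fun v v' t => ?_⟩
    simp [sumL]
  | cons j js ih =>
    obtain ⟨M, hM, h1⟩ := h j (List.mem_cons_self)
    obtain ⟨M', hM', h2⟩ := ih fun i hi => h i (List.mem_cons_of_mem _ hi)
    refine ⟨M + M', add_nonneg hM hM', fun v v' => ?_⟩
    rw [add_mul]
    exact near_add (h1 v v') (h2 v v')

theorem sm_mem {W : L} {D : Set (ℝ → L)} (hD : Cone W D) {x : ℝ → L} (hx : x ∈ D) (s : ℝ) :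
    (sm W s x ∈ D ∨ sm W s x = zero W) ∧ (0 < s → sm W s x ∈ D) := by
  by_cases hs : 0 < s
  · have : sm W s x ∈ D := by
      rw [sm, if_pos hs]; exact hD.sc_mem s hs x hx
    exact ⟨Or.inl this, fun _ => this⟩
  · exact ⟨Or.inr (by rw [sm, if_neg hs]), fun h => absurd h hs⟩

theorem sumL_mem {W : L} {D : Set (ℝ → L)} (hD : Cone W D) (l : List (ℝ → L))
    (h : ∀ y ∈ l, y ∈ D ∨ y = zero W) :
    (sumL W l ∈ D ∨ sumL W l = zero W) ∧ ((∃ y ∈ l, y ∈ D) → sumL W l ∈ D) := by
  induction l with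
  | nil => exact ⟨Or.inr rfl, fun ⟨y, hy, _⟩ => absurd hy List.not_mem_nil⟩
  | cons a l ih =>
    obtain ⟨i1, i2⟩ := ih fun y hy => h y (List.mem_cons_of_mem _ hy)
    have e : sumL W (a :: l) = add a (sumL W l) := rfl
    have hA : a ∈ D → add a (sumL W l) ∈ D := fun ha => by
      rcases i1 with i1 | i1
      · exact hD.add_mem _ ha _ i1
      · rw [i1, add_zero' (hD.filt _ ha)]; exact ha
    have hB : sumL W l ∈ D → add a (sumL W l) ∈ D := fun hl => by
      rcases h a List.mem_cons_self with ha | ha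
      · exact hA ha
      · rw [ha, zero_add' (hD.filt _ hl)]; exact hl
    rw [e]
    refine ⟨?_, ?_⟩
    · rcases h a List.mem_cons_self with ha | ha
      · exact Or.inl (hA ha)
      · rcases i1 with i1 | i1
        · exact Or.inl (hB i1)
        · right; rw [ha, i1, add_zero' (filt_zero W)]
    · rintro ⟨y, hy, hyD⟩
      rcases List.mem_cons.1 hy with rfl | hy
      · exact hA hyD
      · exact hB (i2 ⟨y, hy, hyD⟩)

theorem sumL_single {W : L} {J : Type*} (js : List J) (hj : js.Nodup) (f : J → ℝ → L) (j0 : J)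
    (h0 : j0 ∈ js) (hf : Filt W (f j0)) (h : ∀ j ∈ js, j ≠ j0 → f j = zero W) :
    sumL W (js.map f) = f j0 := by
  have hz : ∀ js : List J, (∀ j ∈ js, f j = zero W) → sumL W (js.map f) = zero W := by
    intro js
    induction js with
    | nil => intro _; rfl
    | cons a l ih =>
      intro hh
      have e : sumL W ((a :: l).map f) = add (f a) (sumL W (l.map f)) := rfl
      rw [e, hh a List.mem_cons_self, ih fun j hj => hh j (List.mem_cons_of_mem _ hj),
        add_zero' (filt_zero W)]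
  induction js with
  | nil => exact absurd h0 List.not_mem_nil
  | cons a l ih =>
    have e : sumL W ((a :: l).map f) = add (f a) (sumL W (l.map f)) := rfl
    obtain ⟨hal, hl⟩ := List.nodup_cons.1 hj
    rw [e]
    rcases List.mem_cons.1 h0 with rfl | h0
    · rw [hz l fun j hj => h j (List.mem_cons_of_mem _ hj) (fun e => hal (e ▸ hj)), add_zero' hf]
    · rw [ih hl h0 fun j hj => h j (List.mem_cons_of_mem _ hj),
        h a List.mem_cons_self (fun e => hal (e ▸ h0)), zero_add' hf]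

theorem usc (r : L → ℕ) (hr : StrictMono r) {W : L} (hW : W ≠ ⊥) {x : ℝ → L} (hx : Filt W x) :
    ∃ δ : ℝ, 0 < δ ∧ ∀ y ε, Filt W y → 0 ≤ ε → ε < δ → Near ε x y → Near ε y x →
      bot W x ≤ bot W y := by
  obtain ⟨l, δ, hδ, -, h2, h3, h4, h5⟩ := bot_spec r hr hx hW
  refine ⟨δ / 2, half_pos hδ, fun y ε _ h0 hε hxy hyx => ?_⟩
  have e1 : bot W x ≤ y (l + δ - ε) := (h3 (l + δ) (by linarith) le_rfl).symm.le.trans (hxy _)
  rcases val_cases W y (l + δ - ε) with hy | hy
  · exfalso
    apply h4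
    refine le_antisymm h5 ?_
    exact hy.symm.le.trans ((hyx _).trans (h2 _ (by linarith)))
  · exact e1.trans hy

theorem usc_of_lip (r : L → ℕ) (hr : StrictMono r) {W : L} (hW : W ≠ ⊥) {ι : Type*} [Fintype ι]
    (f : (ι → ℝ) → ℝ → L) (hf : Lip f) (hF : ∀ v, Filt W (f v)) (v : ι → ℝ) :
    ∃ δ : ℝ, 0 < δ ∧ ∀ v', dist v v' < δ → bot W (f v) ≤ bot W (f v') := by
  obtain ⟨M, hM, h⟩ := hf
  obtain ⟨δ, hδ, hh⟩ := usc r hr hW (hF v)
  refine ⟨δ / (M + 1), by positivity, fun v' hv => ?_⟩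
  refine hh (f v') (M * dist v v') (hF v') (by positivity) ?_ (h v v') ?_
  · rw [lt_div_iff₀ (by positivity)] at hv
    have := dist_nonneg (x := v) (y := v')
    nlinarith
  · rw [dist_comm]; exact h v' v

end Pool.Agent.P.MP_6990a0_al.VC
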