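import Pool.Agent.P.MP_6990a0_al.JU1
import Pool.Agent.P.MP_6990a0_al.JU2
import Pool.Agent.P.MP_6990a0_al.VL3

/-! Normal forms of families of filtrations. -/

namespace Pool.Agent.P.MP_6990a0_al.VC

open Filter Matrix

universe u v

variable {ι : Type} {d n m : ℕ} {𝒰 : Ultrafilter ι} {ε : Fin d → ι → ℝ} {k : ι → Type u}
  [∀ i, Field (k i)] {z z' z'' y y' : Sq n k} {β β' : GL (Fin n) (∀ i, k i)}
  {W W' : Fin n → Fin d → ℝ}

theorem NF.sc (h : NF 𝒰 ε z β W) {c : ℝ} (hc : 0 < c) : NF 𝒰 ε (scS c z) β (c • W) := by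
  filter_upwards [h] with i hi
  obtain ⟨b, hb⟩ := fl_basis (atI β i)
  rw [scS, hi, hb, hb, sc_chart _ _ hc]
  refine congrArg _ (funext fun j => ?_)
  rw [Pi.smul_apply, Pi.smul_apply, cmb_smul, smul_eq_mul]

theorem NF.add (h : NF 𝒰 ε z β W) (h' : NF 𝒰 ε z' β W') : NF 𝒰 ε (addS z z') β (W + W') := by
  filter_upwards [h, h'] with i hi hi'
  obtain ⟨b, hb⟩ := fl_basis (atI β i)
  rw [addS, hi, hi', hb, hb, hb, add_chart b.linearIndependent]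
  refine congrArg _ (funext fun j => ?_)
  rw [Pi.add_apply, Pi.add_apply, cmb_add]

theorem NF.common (h : NF 𝒰 ε z β W) (h' : NF 𝒰 ε z' β' W') :
    ∃ (β'' : GL (Fin n) (∀ i, k i)) (σ σ' : Fin n → Fin n),
      NF 𝒰 ε z β'' (W ∘ σ) ∧ NF 𝒰 ε z' β'' (W' ∘ σ') := by
  choose γ σ σ' h1 h2 using fun i => fl_common (atI β i) (atI β' i) (fun j => cmb ε i (W j))
    fun j => cmb ε i (W' j)
  obtain ⟨β'', hβ⟩ := exists_frame γ
  obtain ⟨p, hp⟩ := (Ultrafilter.eventually_exists_iff (f := 𝒰)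
    (P := fun (p : (Fin n → Fin n) × (Fin n → Fin n)) i => (σ i, σ' i) = p)).1
      (Eventually.of_forall fun i => ⟨_, rfl⟩)
  refine ⟨β'', p.1, p.2, ?_, ?_⟩
  · filter_upwards [h, hp] with i hi hpi
    rw [hi, h1, hβ, ← hpi]
    rfl
  · filter_upwards [h', hp] with i hi hpi
    rw [hi, h2, hβ, ← hpi]
    rfl

theorem ju3_entry {K : Type u} [Field K] {π : (∀ i, k i) →+* K}
    (hπ : ∀ x, π x = 0 ↔ ∀ᶠ i in 𝒰, x i = 0) (β β' : GL (Fin n) (∀ i, k i)) (i j : Fin n) :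
    ((GeneralLinearGroup.map π β')⁻¹ * GeneralLinearGroup.map π β).1 i j ≠ 0 ↔
      ∀ᶠ s in 𝒰, ((atI β' s)⁻¹ * atI β s).1 i j ≠ 0 := by
  have e1 : ((GeneralLinearGroup.map π β')⁻¹ * GeneralLinearGroup.map π β).1 i j =
      π ((β'⁻¹ * β).1 i j) := by
    rw [← map_inv, ← map_mul]
    rfl
  have e2 : ∀ s, ((atI β' s)⁻¹ * atI β s).1 i j = (β'⁻¹ * β).1 i j s := fun s => by
    rw [atI, atI, ← map_inv, ← map_mul]
    rfl
  simp only [e1, e2]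
  rw [Ne, hπ, Ultrafilter.eventually_not]

theorem Sc.cle_iff (hε : Sc 𝒰 ε) {K : Type u} [Field K] {π : (∀ i, k i) →+* K}
    (hπ : ∀ x, π x = 0 ↔ ∀ᶠ i in 𝒰, x i = 0) (h : NF 𝒰 ε z β W) (h' : NF 𝒰 ε z' β' W') :
    Cle 𝒰 ε m z z' ↔ ∀ i j, ((GeneralLinearGroup.map π β')⁻¹ * GeneralLinearGroup.map π β).1 i j ≠
      0 → LexLe m (W j) (W' i) := by
  have key := fun i j => ju3_entry hπ β β' i j
  constructor
  · intro hc i j hij
    refine (hε.lex_iff m _ _).1 fun l hl η hη => ?_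
    filter_upwards [hc l hl η hη, h, h', (key i j).1 hij] with s hs e e' hne
    rw [e, e', near_fl] at hs
    exact hs i j hne
  · intro hc l hl η hη
    have H : ∀ i j, ∀ᶠ s in 𝒰, ((atI β' s)⁻¹ * atI β s).1 i j ≠ 0 →
        cmb ε s (W j) ≤ cmb ε s (W' i) + η * ε l s := fun i j => by
      by_cases hij : ((GeneralLinearGroup.map π β')⁻¹ * GeneralLinearGroup.map π β).1 i j = 0
      · have := Ultrafilter.eventually_not.2 fun hh => (key i j).2 hh hij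
        filter_upwards [this] with s hs hne
        exact absurd hne hs
      · filter_upwards [(hε.lex_iff m _ _).2 (hc i j hij) l hl η hη] with s hs _
        exact hs
    filter_upwards [h, h', eventually_all.2 fun i => eventually_all.2 (H i)] with s e e' hs
    rw [e, e', near_fl]
    exact hs

theorem Sc.cq_match (hε : Sc 𝒰 ε) (h : NF 𝒰 ε z β W) (h' : NF 𝒰 ε z' β' W')
    (hc : Cq 𝒰 ε m z z') (j : Fin n) : ∃ i, ∀ l : Fin d, l.val < m → W j l = W' i l := by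
  obtain ⟨K, _, π, hπ⟩ := exists_ultra 𝒰 k
  have h1 := (hε.cle_iff hπ h h').1 hc.1
  have h2 := (hε.cle_iff hπ h' h).1 hc.2
  have e : ((GeneralLinearGroup.map π β)⁻¹ * GeneralLinearGroup.map π β').1 *
      ((GeneralLinearGroup.map π β')⁻¹ * GeneralLinearGroup.map π β).1 = 1 := by
    rw [← Units.val_mul, mul_assoc, mul_inv_cancel_left, inv_mul_cancel, Units.val_one]
  have e' := congrFun (congrFun e j) j
  rw [Matrix.mul_apply, Matrix.one_apply_eq] at e'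
  obtain ⟨i, -, hi⟩ := Finset.exists_ne_zero_of_sum_ne_zero (e'.trans_ne one_ne_zero)
  exact ⟨i, (h1 i j (right_ne_zero_of_mul hi)).antisymm (h2 j i (left_ne_zero_of_mul hi))⟩

theorem Sc.cq_refl (hε : Sc 𝒰 ε) (h : ∀ᶠ i in 𝒰, Antitone (z i)) : Cq 𝒰 ε m z z := by
  have : Cle 𝒰 ε m z z := fun l _ η hη => by
    filter_upwards [h] with i hi
    exact near_refl hi (mul_pos hη (hε.pos l i)).le
  exact ⟨this, this⟩

theorem Sc.nf_perm (hε : Sc 𝒰 ε) (h : NF 𝒰 ε z β W) (h' : NF 𝒰 ε z β' W') (j : Fin n) :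
    ∃ i, W j = W' i := by
  have ha : ∀ᶠ i in 𝒰, Antitone (z i) := by
    filter_upwards [h] with i hi
    obtain ⟨b, hb⟩ := fl_basis (atI β i)
    rw [hi, hb]
    exact (chart_filt _ _).anti
  obtain ⟨i, hi⟩ := hε.cq_match h h' (hε.cq_refl (m := d) ha) j
  exact ⟨i, funext fun l => hi l l.2⟩

theorem ju3_le (hε : Sc 𝒰 ε) {K : Type u} [Field K] {π : (∀ i, k i) →+* K}
    (hπ : ∀ x, π x = 0 ↔ ∀ᶠ i in 𝒰, x i = 0) (h : NF 𝒰 ε z β W) (h' : NF 𝒰 ε z' β' W')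
    (hc : Cle 𝒰 ε d z z') : ∀ᶠ i in 𝒰, z i ≤ z' i := by
  have h1 := (hε.cle_iff hπ h h').1 hc
  have H : ∀ i j, ∀ᶠ s in 𝒰, ((atI β' s)⁻¹ * atI β s).1 i j ≠ 0 →
      cmb ε s (W j) ≤ cmb ε s (W' i) + 0 := fun i j => by
    by_cases hij : ((GeneralLinearGroup.map π β')⁻¹ * GeneralLinearGroup.map π β).1 i j = 0
    · have := Ultrafilter.eventually_not.2 fun hh => (ju3_entry hπ β β' i j).2 hh hij
      filter_upwards [this] with s hs hne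
      exact absurd hne hs
    · filter_upwards [hε.lex_fin (h1 i j hij)] with s hs _
      rwa [add_zero]
  filter_upwards [h, h', eventually_all.2 fun i => eventually_all.2 (H i)] with s e e' hs
  have hn : Near 0 (z s) (z' s) := by
    rw [e, e', near_fl]
    exact hs
  intro t
  simpa only [sub_zero] using hn t

theorem Sc.cq_fin (hε : Sc 𝒰 ε) (h : NF 𝒰 ε z β W) (h' : NF 𝒰 ε z' β' W')
    (hc : Cq 𝒰 ε d z z') : ∀ᶠ i in 𝒰, z i = z' i := by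
  obtain ⟨K, _, π, hπ⟩ := exists_ultra 𝒰 k
  filter_upwards [ju3_le hε hπ h h' hc.1, ju3_le hε hπ h' h hc.2] with i h1 h2
  exact le_antisymm h1 h2

theorem Cq.symm (h : Cq 𝒰 ε m z z') : Cq 𝒰 ε m z' z := ⟨h.2, h.1⟩

theorem Cq.trans (h : Cq 𝒰 ε m z z') (h' : Cq 𝒰 ε m z' z'') : Cq 𝒰 ε m z z'' := by
  have key : ∀ {x y w : Sq n k}, Cle 𝒰 ε m x y → Cle 𝒰 ε m y w → Cle 𝒰 ε m x w := by
    intro x y w h1 h2 l hl η hη
    filter_upwards [h1 l hl (η / 2) (half_pos hη), h2 l hl (η / 2) (half_pos hη)] with i h3 h4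
    have h5 := near_trans h3 h4
    rwa [← add_mul, add_halves] at h5
  exact ⟨key h.1 h'.1, key h'.2 h.2⟩

theorem Cq.add (h : Cq 𝒰 ε m z z') (h' : Cq 𝒰 ε m y y') :
    Cq 𝒰 ε m (addS z y) (addS z' y') := by
  have key : ∀ {x x' w w' : Sq n k}, Cle 𝒰 ε m x x' → Cle 𝒰 ε m w w' →
      Cle 𝒰 ε m (addS x w) (addS x' w') := by
    intro x x' w w' h1 h2 l hl η hη
    filter_upwards [h1 l hl (η / 2) (half_pos hη), h2 l hl (η / 2) (half_pos hη)] with i h3 h4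
    have h5 := near_add h3 h4
    rwa [← add_mul, add_halves] at h5
  exact ⟨key h.1 h'.1, key h.2 h'.2⟩

theorem Cq.sc (h : Cq 𝒰 ε m z z') {c : ℝ} (hc : 0 < c) : Cq 𝒰 ε m (scS c z) (scS c z') := by
  have key : ∀ {x x' : Sq n k}, Cle 𝒰 ε m x x' → Cle 𝒰 ε m (scS c x) (scS c x') := by
    intro x x' h1 l hl η hη
    filter_upwards [h1 l hl (η / c) (div_pos hη hc)] with i h3
    have h5 := near_sc h3 hc
    rwa [← mul_assoc, mul_div_cancel₀ _ hc.ne'] at h5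
  exact ⟨key h.1, key h.2⟩

variable {Γ : ι → Type v} {D : ∀ i, Set (ℝ → Submodule (k i) (Fin n → k i))}
  {a : ∀ i, Γ i → (ℝ → Submodule (k i) (Fin n → k i)) → ℝ → Submodule (k i) (Fin n → k i)}

theorem Sc.cq_act (hε : Sc 𝒰 ε) {c : ℝ} (hc : 0 < c) (hL : ∀ i, Lipz c (D i) (a i))
    (hz : ∀ i, z i ∈ D i) (hz' : ∀ i, z' i ∈ D i) (h : Cq 𝒰 ε m z z') (g : ∀ i, Γ i) :
    Cq 𝒰 ε m (actS a g z) (actS a g z') := by
  have key : ∀ {x x' : Sq n k}, (∀ i, x i ∈ D i) → (∀ i, x' i ∈ D i) → Cle 𝒰 ε m x x' →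
      Cle 𝒰 ε m x' x → Cle 𝒰 ε m (actS a g x) (actS a g x') := by
    intro x x' hx hx' h1 h2 l hl η hη
    filter_upwards [h1 l hl (η / c) (div_pos hη hc), h2 l hl (η / c) (div_pos hη hc)]
      with i h3 h4
    have h5 := hL i (g i) _ (hx i) _ (hx' i) _ (mul_pos (div_pos hη hc) (hε.pos l i)) h3 h4
    rwa [← mul_assoc, mul_div_cancel₀ _ hc.ne'] at h5
  exact ⟨key hz hz' h.1 h.2, key hz' hz h.2 h.1⟩

variable [∀ i, Group (Γ i)]

theorem fam_add (hD : ∀ i, Cone ⊤ (D i)) (ha : ∀ i, AAct (D i) (a i)) (hz : z ∈ Fam 𝒰 ε D a)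
    (hz' : z' ∈ Fam 𝒰 ε D a) : addS z z' ∈ Fam 𝒰 ε D a := by
  obtain ⟨h1, 𝒲, hf, h2⟩ := hz
  obtain ⟨h1', 𝒲', hf', h2'⟩ := hz'
  refine ⟨fun i => (hD i).add_mem _ (h1 i) _ (h1' i),
    (fun q : ((Fin n → Fin d → ℝ) × (Fin n → Fin d → ℝ)) × (Fin n → Fin n) × (Fin n → Fin n) =>
      q.1.1 ∘ q.2.1 + q.1.2 ∘ q.2.2) '' ((𝒲 ×ˢ 𝒲') ×ˢ Set.univ),
    ((hf.prod hf').prod Set.finite_univ).image _, fun g => ?_⟩
  obtain ⟨β, W, hW, h3⟩ := h2 g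
  obtain ⟨β', W', hW', h3'⟩ := h2' g
  obtain ⟨β'', σ, σ', h4, h5⟩ := h3.common h3'
  refine ⟨β'', W ∘ σ + W' ∘ σ', ⟨((W, W'), σ, σ'), ⟨⟨hW, hW'⟩, Set.mem_univ _⟩, rfl⟩, ?_⟩
  have h6 : actS a g (addS z z') = addS (actS a g z) (actS a g z') :=
    funext fun i => (ha i).add (g i) _ (h1 i) _ (h1' i)
  rw [h6]
  exact h4.add h5

theorem fam_sc (hD : ∀ i, Cone ⊤ (D i)) (ha : ∀ i, AAct (D i) (a i)) (hz : z ∈ Fam 𝒰 ε D a)
    {c : ℝ} (hc : 0 < c) : scS c z ∈ Fam 𝒰 ε D a := by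
  obtain ⟨h1, 𝒲, hf, h2⟩ := hz
  refine ⟨fun i => (hD i).sc_mem c hc _ (h1 i), (fun W => c • W) '' 𝒲, hf.image _, fun g => ?_⟩
  obtain ⟨β, W, hW, h3⟩ := h2 g
  refine ⟨β, c • W, ⟨W, hW, rfl⟩, ?_⟩
  have h6 : actS a g (scS c z) = scS c (actS a g z) :=
    funext fun i => (ha i).sc (g i) c hc _ (h1 i)
  rw [h6]
  exact h3.sc hc

theorem fam_act (ha : ∀ i, AAct (D i) (a i)) (hz : z ∈ Fam 𝒰 ε D a) (g : ∀ i, Γ i) :
    actS a g z ∈ Fam 𝒰 ε D a := by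
  obtain ⟨h1, 𝒲, hf, h2⟩ := hz
  refine ⟨fun i => (ha i).mem _ _ (h1 i), 𝒲, hf, fun g' => ?_⟩
  have h6 : actS a g' (actS a g z) = actS a (g' * g) z :=
    funext fun i => ((ha i).mul (g' i) (g i) _ (h1 i)).symm
  rw [h6]
  exact h2 _

omit [∀ i, Group (Γ i)] in
theorem exists_fam (𝒰 : Ultrafilter ι) {B : ℕ} (f : ι → Fin B → Fin n → ℝ) (hz : ∀ i, z i ∈ D i)
    (h : ∀ i g, ∃ (b : Module.Basis (Fin n) (k i) (Fin n → k i)) (t : Fin B),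
      a i g (z i) = chart (k i) b (f i t)) :
    ∃ (d : ℕ) (ε : Fin d → ι → ℝ), Sc 𝒰 ε ∧ z ∈ Fam 𝒰 ε D a := by
  obtain ⟨d, ε, F, hε, hF⟩ := exists_scales 𝒰 (J := Fin B × Fin n) fun i q => f i q.1 q.2
  refine ⟨d, ε, hε, hz, Set.range fun (t : Fin B) (j : Fin n) => F (t, j), Set.finite_range _,
    fun g => ?_⟩
  choose b t hb using fun i => h i (g i)
  choose γ hγ using fun i => exists_fl (b i)
  obtain ⟨β, hβ⟩ := exists_frame γ
  obtain ⟨t0, ht⟩ : ∃ t0, ∀ᶠ i in 𝒰, t i = t0 :=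
    Ultrafilter.eventually_exists_iff.1 (Eventually.of_forall fun i => ⟨t i, rfl⟩)
  refine ⟨β, _, ⟨t0, rfl⟩, ?_⟩
  filter_upwards [hF, ht] with i h1 h2
  show a i (g i) (z i) = _
  rw [hb i, hγ i, hβ i, h2]
  exact congrArg _ (funext fun j => h1 (t0, j))

end Pool.Agent.P.MP_6990a0_al.VC
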