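import Pool.Agent.P.MP_6990a0_al.JU3

/-! One scale after the other. -/

namespace Pool.Agent.P.MP_6990a0_al.VC

open Filter Matrix

universe u v

/-- The fixed point theorem for an action on representatives. -/
theorem gen_desc {K V P Γ : Type*} [Field K] [AddCommGroup V] [Module K V] [Group Γ] {n : ℕ}
    (S : Set P) (ad : P → P → P) (sm : ℝ → P → P) (ac : Γ → P → P) (cd : P → ℝ → Submodule K V)
    (ad_mem : ∀ p ∈ S, ∀ q ∈ S, ad p q ∈ S) (sm_mem : ∀ s : ℝ, 0 < s → ∀ p ∈ S, sm s p ∈ S)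
    (ac_mem : ∀ g, ∀ p ∈ S, ac g p ∈ S) (filt : ∀ p ∈ S, Filt ⊤ (cd p))
    (cd_ad : ∀ p ∈ S, ∀ q ∈ S, cd (ad p q) = add (cd p) (cd q))
    (cd_sm : ∀ s : ℝ, 0 < s → ∀ p ∈ S, cd (sm s p) = sc s (cd p))
    (desc : ∀ g, ∀ p ∈ S, ∀ q ∈ S, cd p = cd q → cd (ac g p) = cd (ac g q))
    (ac_one : ∀ p ∈ S, ac 1 p = p) (ac_mul : ∀ g h, ∀ p ∈ S, ac (g * h) p = ac g (ac h p))
    (ac_ad : ∀ g, ∀ p ∈ S, ∀ q ∈ S, ac g (ad p q) = ad (ac g p) (ac g q))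
    (ac_sm : ∀ g (s : ℝ), 0 < s → ∀ p ∈ S, ac g (sm s p) = sm s (ac g p))
    {p₀ : P} (h₀ : p₀ ∈ S) {𝒲 : Set (Fin n → ℝ)} (hW : 𝒲.Finite)
    (typ : ∀ g, ∃ b : Module.Basis (Fin n) K V, ∃ w ∈ 𝒲, cd (ac g p₀) = chart K b w) :
    ∃ H : Subgroup Γ, H.FiniteIndex ∧ ∃ p ∈ S, ∀ g ∈ H, cd (ac g p) = cd p := by
  have : Nonempty P := ⟨p₀⟩
  obtain ⟨a, ha⟩ : ∃ a : Γ → (ℝ → Submodule K V) → ℝ → Submodule K V,
      ∀ g, ∀ p ∈ S, a g (cd p) = cd (ac g p) :=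
    ⟨fun g x => cd (ac g (Function.invFunOn cd S x)), fun g p hp =>
      desc g _ (Function.invFunOn_apply_mem hp) p hp (Function.invFunOn_apply_eq hp)⟩
  have hD : Cone ⊤ (cd '' S) := by
    refine ⟨⟨_, p₀, h₀, rfl⟩, ?_, ?_, ?_⟩
    · rintro _ ⟨p, hp, rfl⟩
      exact filt p hp
    · rintro _ ⟨p, hp, rfl⟩ _ ⟨q, hq, rfl⟩
      exact ⟨_, ad_mem p hp q hq, cd_ad p hp q hq⟩
    · rintro s hs _ ⟨p, hp, rfl⟩
      exact ⟨_, sm_mem s hs p hp, cd_sm s hs p hp⟩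
  have hA : AAct (cd '' S) a := by
    refine ⟨?_, ?_, ?_, ?_, ?_⟩
    · rintro g _ ⟨p, hp, rfl⟩
      exact ⟨_, ac_mem g p hp, (ha g p hp).symm⟩
    · rintro _ ⟨p, hp, rfl⟩
      rw [ha 1 p hp, ac_one p hp]
    · rintro g h _ ⟨p, hp, rfl⟩
      rw [ha _ p hp, ha h p hp, ha g _ (ac_mem h p hp), ac_mul g h p hp]
    · rintro g _ ⟨p, hp, rfl⟩ _ ⟨q, hq, rfl⟩
      rw [← cd_ad p hp q hq, ha g _ (ad_mem p hp q hq), ha g p hp, ha g q hq, ac_ad g p hp q hq,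
        cd_ad _ (ac_mem g p hp) _ (ac_mem g q hq)]
    · rintro g s hs _ ⟨p, hp, rfl⟩
      rw [← cd_sm s hs p hp, ha g _ (sm_mem s hs p hp), ha g p hp, ac_sm g s hs p hp,
        cd_sm s hs _ (ac_mem g p hp)]
  obtain ⟨H, hH, _, ⟨p, hp, rfl⟩, h⟩ := gen hD hA ⟨p₀, h₀, rfl⟩ hW fun g => by
    rw [ha g p₀ h₀]
    exact typ g
  exact ⟨H, hH, p, hp, fun g hg => (ha g p hp).symm.trans (h g hg)⟩

variable {ι : Type} {d n m : ℕ} {𝒰 : Ultrafilter ι} {ε : Fin d → ι → ℝ} {k : ι → Type u}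
  [∀ i, Field (k i)] {z z' : Sq n k} {β β' : GL (Fin n) (∀ i, k i)} {W W' : Fin n → Fin d → ℝ}

theorem ju4_eq {L : Type*} [CompleteLattice L] (x y : ℝ → L) :
    x = y ↔ Near 0 x y ∧ Near 0 y x := by
  simp only [Near, sub_zero]
  exact ⟨fun h => ⟨fun t => (congrFun h t).le, fun t => (congrFun h t).ge⟩,
    fun h => funext fun t => le_antisymm (h.1 t) (h.2 t)⟩

theorem Sc.code_eq (hε : Sc 𝒰 ε) {K : Type u} [Field K] {π : (∀ i, k i) →+* K}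
    (hπ : ∀ x, π x = 0 ↔ ∀ᶠ i in 𝒰, x i = 0) {t : Fin n → Fin d → ℝ} {lam c : ℝ}
    {ν : Fin d → ℝ} (hν : Code m t lam ν) (hc : 0 < c) (h : NF 𝒰 ε z β W)
    (h' : NF 𝒰 ε z' β' W') (hW : Adm m t lam c W) (hW' : Adm m t lam c W') :
    (RED.fl (GeneralLinearGroup.map π β) fun j => ν ⬝ᵥ W j) =
      (RED.fl (GeneralLinearGroup.map π β') fun j => ν ⬝ᵥ W' j) ↔ Cq 𝒰 ε (m + 1) z z' := by
  have key : ∀ {X X' : Fin n → Fin d → ℝ}, Adm m t lam c X → Adm m t lam c X' → ∀ i j,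
      (ν ⬝ᵥ X j ≤ ν ⬝ᵥ X' i + 0 ↔ LexLe (m + 1) (X j) (X' i)) := fun hX hX' i j => by
    obtain ⟨⟨j', h1⟩, h2⟩ := hX j
    obtain ⟨⟨i', h3⟩, h4⟩ := hX' i
    rw [add_zero]
    exact hν c hc _ _ j' i' h1 h3 fun l hl => ⟨h2 l hl, h4 l hl⟩
  rw [ju4_eq, near_fl, near_fl, Cq, hε.cle_iff hπ h h', hε.cle_iff hπ h' h]
  simp only [key hW hW', key hW' hW]

theorem NF.anti (h : NF 𝒰 ε z β W) : ∀ᶠ i in 𝒰, Antitone (z i) :=
  Filter.Eventually.mono h fun _ e => e ▸ (chart_filt _ _).anti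

theorem xt_fl {K : Type u} [Field K] (γ : GL (Fin n) K) :
    ∃ b : Module.Basis (Fin (n + 1)) K ((Fin n → K) × K), ∀ w c,
      xt (RED.fl γ w) c = chart K b (Fin.cons c w) :=
  let ⟨b, hb⟩ := fl_basis γ
  let ⟨b', hb'⟩ := xt_chart b
  ⟨b', fun w c => hb w ▸ hb' w c⟩

variable {Γ : ι → Type v} [∀ i, Group (Γ i)] {D : ∀ i, Set (ℝ → Submodule (k i) (Fin n → k i))}
  {a : ∀ i, Γ i → (ℝ → Submodule (k i) (Fin n → k i)) → ℝ → Submodule (k i) (Fin n → k i)}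

theorem Sc.step (hε : Sc 𝒰 ε) (hD : ∀ i, Cone ⊤ (D i)) (ha : ∀ i, AAct (D i) (a i)) {c : ℝ}
    (hc : 0 < c) (hL : ∀ i, Lipz c (D i) (a i)) (H : Subgroup (∀ i, Γ i)) [H.FiniteIndex]
    (hz : z ∈ Fam 𝒰 ε D a) (h : ∀ g ∈ H, Cq 𝒰 ε m (actS a g z) z) :
    ∃ H' : Subgroup (∀ i, Γ i), H'.FiniteIndex ∧ ∃ z' ∈ Fam 𝒰 ε D a,
      ∀ g ∈ H', Cq 𝒰 ε (m + 1) (actS a g z') z' := by
  classical
  obtain ⟨K, _, π, hπ⟩ := exists_ultra 𝒰 k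
  have a1 : ∀ y : Sq n k, (∀ i, y i ∈ D i) → actS a 1 y = y := fun y hy =>
    funext fun i => (ha i).one _ (hy i)
  have am : ∀ g g', ∀ y : Sq n k, (∀ i, y i ∈ D i) →
      actS a (g * g') y = actS a g (actS a g' y) := fun g g' y hy =>
    funext fun i => (ha i).mul _ _ _ (hy i)
  have aa : ∀ g, ∀ y y' : Sq n k, (∀ i, y i ∈ D i) → (∀ i, y' i ∈ D i) →
      actS a g (addS y y') = addS (actS a g y) (actS a g y') := fun g y y' hy hy' =>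
    funext fun i => (ha i).add _ _ (hy i) _ (hy' i)
  have as : ∀ g (s : ℝ), 0 < s → ∀ y : Sq n k, (∀ i, y i ∈ D i) →
      actS a g (scS s y) = scS s (actS a g y) := fun g s hs y hy =>
    funext fun i => (ha i).sc _ s hs _ (hy i)
  have nf : ∀ y : Sq n k, ∃ β W, y ∈ Fam 𝒰 ε D a → NF 𝒰 ε y β W := fun y => by
    by_cases hy : y ∈ Fam 𝒰 ε D a
    · obtain ⟨_, -, h1⟩ := hy.2
      obtain ⟨β, W, -, h2⟩ := h1 1
      exact ⟨β, W, fun _ => a1 y hy.1 ▸ h2⟩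
    · exact ⟨1, 0, fun h => absurd h hy⟩
  choose fb fw hf using nf
  obtain ⟨𝒲, hW, h𝒲⟩ := hz.2
  obtain ⟨lam, hlam⟩ := (hW.biUnion fun W _ =>
    Set.finite_range fun p : Fin n × Fin d => |W p.1 p.2|).bddAbove
  obtain ⟨ν, hν⟩ := exists_code m (fw z) lam
  let S : Set (Sq n k × ℝ) := {p | p.1 ∈ Fam 𝒰 ε D a ∧ 0 < p.2 ∧ Cq 𝒰 ε m p.1 (scS p.2 z) ∧
    ∀ g ∈ H, ∃ β W, NF 𝒰 ε (actS a g p.1) β W ∧
      ∀ j (l : Fin d), l.val = m → |W j l| ≤ lam * p.2}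
  let fx : GL (Fin n) (∀ i, k i) → (Fin n → Fin d → ℝ) → ℝ → Submodule K (Fin n → K) :=
    fun β W => RED.fl (GeneralLinearGroup.map π β) fun j => ν ⬝ᵥ W j
  let cd : Sq n k × ℝ → ℝ → Submodule K ((Fin n → K) × K) := fun p =>
    xt (fx (fb p.1) (fw p.1)) p.2
  have adm : ∀ p ∈ S, ∀ β W, NF 𝒰 ε p.1 β W → Adm m (fw z) lam p.2 W := fun p hp β W e j => by
    refine ⟨hε.cq_match e ((hf z hz).sc hp.2.1) hp.2.2.1 j, fun l hl => ?_⟩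
    obtain ⟨β', W', e', h1⟩ := hp.2.2.2 1 H.one_mem
    rw [a1 _ hp.1.1] at e'
    obtain ⟨i, hi⟩ := hε.nf_perm e e' j
    rw [hi]
    exact h1 i l hl
  have key : ∀ p ∈ S, ∀ q ∈ S, cd p = cd q ↔ Cq 𝒰 ε (m + 1) p.1 q.1 ∧ p.2 = q.2 :=
    fun p hp q hq => xt_inj.trans (and_congr_left fun e => hε.code_eq hπ hν hp.2.1 (hf _ hp.1)
      (hf _ hq.1) (adm p hp _ _ (hf _ hp.1)) (e ▸ adm q hq _ _ (hf _ hq.1)))
  have any : ∀ p ∈ S, ∀ β W, NF 𝒰 ε p.1 β W → cd p = xt (fx β W) p.2 := fun p hp β W e =>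
    congrArg (xt · p.2) ((hε.code_eq hπ hν hp.2.1 (hf _ hp.1) e (adm p hp _ _ (hf _ hp.1))
      (adm p hp _ _ e)).2 (hε.cq_refl e.anti))
  have ad_mem : ∀ p ∈ S, ∀ q ∈ S, (addS p.1 q.1, p.2 + q.2) ∈ S := fun p hp q hq => by
    refine ⟨fam_add hD ha hp.1 hq.1, add_pos hp.2.1 hq.2.1, ?_, fun g hg => ?_⟩
    · have e : addS (scS p.2 z) (scS q.2 z) = scS (p.2 + q.2) z :=
        funext fun i => add_sc_sc ((hD i).filt _ (hz.1 i)) hp.2.1 hq.2.1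
      exact e ▸ hp.2.2.1.add hq.2.2.1
    · obtain ⟨β, W, e, h1⟩ := hp.2.2.2 g hg
      obtain ⟨β', W', e', h2⟩ := hq.2.2.2 g hg
      obtain ⟨β'', σ, σ', e1, e2⟩ := e.common e'
      refine ⟨β'', _, aa g _ _ hp.1.1 hq.1.1 ▸ e1.add e2, fun j l hl => ?_⟩
      rw [mul_add]
      exact (abs_add_le _ _).trans (add_le_add (h1 _ l hl) (h2 _ l hl))
  have sm_mem : ∀ s : ℝ, 0 < s → ∀ p ∈ S, (scS s p.1, s * p.2) ∈ S := fun s hs p hp => by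
    refine ⟨fam_sc hD ha hp.1 hs, mul_pos hs hp.2.1, ?_, fun g hg => ?_⟩
    · have e : scS s (scS p.2 z) = scS (s * p.2) z := funext fun i => sc_sc _ _ _
      exact e ▸ hp.2.2.1.sc hs
    · obtain ⟨β, W, e, h1⟩ := hp.2.2.2 g hg
      refine ⟨β, _, as g s hs _ hp.1.1 ▸ e.sc hs, fun j l hl => ?_⟩
      show |s * W j l| ≤ lam * (s * p.2)
      rw [abs_mul, abs_of_pos hs, mul_left_comm]
      exact mul_le_mul_of_nonneg_left (h1 j l hl) hs.le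
  have ac_mem : ∀ g : H, ∀ p ∈ S, (actS a g p.1, p.2) ∈ S := fun g p hp => by
    refine ⟨fam_act ha hp.1 g, hp.2.1, ?_, fun g' hg => ?_⟩
    · have e := hε.cq_act hc hL hp.1.1 (fam_sc hD ha hz hp.2.1).1 hp.2.2.1 g
      rw [as g _ hp.2.1 _ hz.1] at e
      exact e.trans ((h g g.2).sc hp.2.1)
    · exact am g' g _ hp.1.1 ▸ hp.2.2.2 _ (H.mul_mem hg g.2)
  have h₀ : (z, (1 : ℝ)) ∈ S := by
    refine ⟨hz, one_pos, ?_, fun g _ => ?_⟩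
    · have e : scS 1 z = z := funext fun i => sc_one _
      exact e.symm ▸ hε.cq_refl (hf z hz).anti
    · obtain ⟨β, W, h1, h2⟩ := h𝒲 g
      exact ⟨β, W, h2, fun j l _ =>
        (hlam (Set.mem_biUnion h1 ⟨(j, l), rfl⟩)).trans_eq (mul_one _).symm⟩
  obtain ⟨H', hH', p, hp, hfix⟩ := gen_desc (n := n + 1) S
    (fun p q => (addS p.1 q.1, p.2 + q.2)) (fun s p => (scS s p.1, s * p.2))
    (fun (g : H) p => (actS a g p.1, p.2)) cd ad_mem sm_mem ac_mem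
    (fun p _ => by
      obtain ⟨b, hb⟩ := xt_fl (GeneralLinearGroup.map π (fb p.1))
      exact (congrArg (Filt ⊤) (hb _ p.2)).mpr (b.span_eq ▸ chart_filt b _))
    (fun p hp q hq => by
      obtain ⟨β, σ, σ', e1, e2⟩ := (hf _ hp.1).common (hf _ hq.1)
      obtain ⟨b, hb⟩ := xt_fl (GeneralLinearGroup.map π β)
      rw [any _ (ad_mem p hp q hq) _ _ (e1.add e2), any p hp _ _ e1, any q hq _ _ e2, hb, hb, hb,
        add_chart b.linearIndependent]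
      congr 1
      funext j
      refine Fin.cases rfl (fun j => ?_) j
      exact dotProduct_add ν _ _)
    (fun s hs p hp => by
      obtain ⟨b, hb⟩ := xt_fl (GeneralLinearGroup.map π (fb p.1))
      rw [any _ (sm_mem s hs p hp) _ _ ((hf _ hp.1).sc hs), any p hp _ _ (hf _ hp.1), hb, hb,
        sc_chart _ _ hs]
      congr 1
      funext j
      refine Fin.cases rfl (fun j => ?_) j
      exact dotProduct_smul s ν _)
    (fun g p hp q hq e => (key _ (ac_mem g p hp) _ (ac_mem g q hq)).2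
      ⟨hε.cq_act hc hL hp.1.1 hq.1.1 ((key p hp q hq).1 e).1 g, ((key p hp q hq).1 e).2⟩)
    (fun p hp => Prod.ext (a1 _ hp.1.1) rfl) (fun g g' p hp => Prod.ext (am _ _ _ hp.1.1) rfl)
    (fun g p hp q hq => Prod.ext (aa _ _ _ hp.1.1 hq.1.1) rfl)
    (fun g s hs p hp => Prod.ext (as _ s hs _ hp.1.1) rfl) h₀
    (hW.image fun W => Fin.cons 1 fun j => ν ⬝ᵥ W j) (fun g => by
      obtain ⟨β, W, h1, h2⟩ := h𝒲 g
      obtain ⟨b, hb⟩ := xt_fl (GeneralLinearGroup.map π β)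
      exact ⟨b, _, ⟨W, h1, rfl⟩, (any _ (ac_mem g _ h₀) β W h2).trans (hb _ _)⟩)
  refine ⟨H'.map H.subtype, ⟨?_⟩, p.1, hp.1, ?_⟩
  · rw [Subgroup.index_map_subtype]
    exact mul_ne_zero hH'.1 Subgroup.FiniteIndex.index_ne_zero
  · rintro _ ⟨g, hg, rfl⟩
    exact ((key _ (ac_mem g p hp) p hp).1 (hfix g hg)).1

theorem Sc.fix (hε : Sc 𝒰 ε) (hD : ∀ i, Cone ⊤ (D i)) (ha : ∀ i, AAct (D i) (a i)) {c : ℝ}
    (hc : 0 < c) (hL : ∀ i, Lipz c (D i) (a i)) (hz : z ∈ Fam 𝒰 ε D a) :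
    ∃ H : Subgroup (∀ i, Γ i), H.FiniteIndex ∧ ∃ z' : Sq n k, (∀ i, z' i ∈ D i) ∧
      ∀ g ∈ H, ∀ᶠ i in 𝒰, a i (g i) (z' i) = z' i := by
  have h : ∀ m : ℕ, ∃ H : Subgroup (∀ i, Γ i), H.FiniteIndex ∧ ∃ z' ∈ Fam 𝒰 ε D a,
      ∀ g ∈ H, Cq 𝒰 ε m (actS a g z') z' := by
    intro m
    induction m with
    | zero =>
      exact ⟨⊤, inferInstance, z, hz, fun g _ =>
        ⟨fun l hl => absurd hl (Nat.not_lt_zero _), fun l hl => absurd hl (Nat.not_lt_zero _)⟩⟩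
    | succ m ih =>
      obtain ⟨H, hH, y, hy, h⟩ := ih
      exact hε.step hD ha hc hL H hy h
  obtain ⟨H, hH, y, hy, h⟩ := h d
  obtain ⟨𝒲, -, h1⟩ := hy.2
  obtain ⟨β, W, -, h2⟩ := h1 1
  have h3 : actS a 1 y = y := funext fun i => (ha i).one _ (hy.1 i)
  rw [h3] at h2
  refine ⟨H, hH, y, hy.1, fun g hg => ?_⟩
  obtain ⟨β', W', -, h4⟩ := h1 g
  exact hε.cq_fin h4 h2 (h g hg)

end Pool.Agent.P.MP_6990a0_al.VC
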