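import Pool.Agent.P.MP_6990a0_al.Gen

namespace Pool.Agent.P.MP_6990a0_al

open scoped Classical
open Filter Topology

set_option linter.unusedSectionVars false

variable {K : Type*} [Field K] [LinearOrder K] [IsStrictOrderedRing K] {Ω ι : Type*}
  {Γ : Type*} [Group Γ] [MulAction Γ Ω]
  {π : Ω → ι} {s : Γ → Ω → K} {E : Set (Ω → K)} {ρ : K →+* ℝ}

theorem Valid.cast (hρ : StrictMono ρ) {x : Ω → K} (hx : Valid π x) : Valid π (ρ ∘ x) := by
  refine ⟨fun ω => ?_, fun ω ω' h h1 h2 => hx.2 ω ω' h ?_ ?_⟩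
  · simpa using hρ.monotone (hx.1 ω)
  · simpa using h1
  · simpa using h2

theorem Valid.nrm_cast (hρ : StrictMono ρ) {x : Ω → K} (hx : Valid π x) (i : ι) :
    nrm π (ρ ∘ x) i = ρ (nrm π x i) := by
  rcases fib_cases (π := π) x i with h | ⟨a, rfl, ha⟩
  · rw [nrm_eq_zero h, nrm_eq_zero, map_zero]
    intro ω h1; simp [h ω h1]
  · rw [hx.nrm_eq ha, (hx.cast hρ).nrm_eq (by simpa using ha)]; rfl

theorem Valid.hh_cast (hρ : StrictMono ρ) {x : Ω → K} (hx : Valid π x) :
    hh π (ρ ∘ x) = ρ ∘ hh π x := by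
  funext ω
  simp only [hh, hx.nrm_cast hρ, Function.comp_apply, map_sub, map_mul, map_ofNat]

theorem Valid.pls_cast (hρ : StrictMono ρ) {x y : Ω → K} (hx : Valid π x) (hy : Valid π y) :
    pls π (ρ ∘ x) (ρ ∘ y) = ρ ∘ pls π x y := by
  funext ω
  rw [add_apply, hx.hh_cast hρ, hy.hh_cast hρ]
  simp only [Function.comp_apply, add_apply]
  rw [hρ.monotone.map_max, map_add, map_zero]

theorem continuous_hh [Finite Ω] (ω : Ω) : Continuous fun u : Ω → ℝ => hh π u ω := by
  have := Fintype.ofFinite Ω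
  simp only [hh, nrm, finsum_eq_sum_of_fintype]
  refine (continuous_const.mul (continuous_apply ω)).sub (continuous_finsetSum _ fun a _ => ?_)
  split_ifs
  · exact continuous_apply a
  · exact continuous_const

theorem Act.cast (hρ : StrictMono ρ) (A : Act π s) : Act π (fun g ω => ρ (s g ω)) :=
  ⟨fun g ω => by simpa using hρ (A.pos g ω), fun g h ω => by rw [A.mul, map_mul], A.fib,
    fun g ω ω' h => by rw [A.const g ω ω' h]⟩

theorem closure_smul (_hρ : StrictMono ρ) (hE : Good π s E) {x : Ω → ℝ}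
    (hx : x ∈ closure ((fun x => ρ ∘ x) '' E)) {t : ℝ} (ht : 0 ≤ t) :
    t • x ∈ closure ((fun x => ρ ∘ x) '' E) := by
  refine map_mem_closure₂ (f := fun (t : ℝ) (x : Ω → ℝ) => t • x) (s := ρ '' {q | 0 < q})
    continuous_smul ?_ hx ?_
  · rw [Metric.mem_closure_iff]
    intro ε hε
    obtain ⟨q, h1, h2⟩ := exists_rat_btwn (show t < t + ε by linarith)
    refine ⟨q, ⟨(q : K), ?_, by simp⟩, ?_⟩
    · have : (0 : ℝ) < q := by linarith
      have : 0 < q := by exact_mod_cast this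
      show (0 : K) < q
      exact_mod_cast this
    · rw [Real.dist_eq, abs_lt]; constructor <;> linarith
  · rintro _ ⟨q, hq, rfl⟩ _ ⟨y, hy, rfl⟩
    exact ⟨q • y, hE.smul y hy q hq, by funext ω; simp⟩

theorem Good.closure [Finite Ω] (hρ : StrictMono ρ) (hE : Good π s E) :
    Good π (fun g ω => ρ (s g ω)) (closure ((fun x => ρ ∘ x) '' E)) := by
  refine ⟨fun x hx => ?_, fun x hx y hy => ?_, fun x hx t ht => closure_smul hρ hE hx ht.le,
    fun g x hx => ?_⟩
  · refine ⟨fun ω => ?_, fun ω ω' h h1 h2 => ?_⟩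
    · refine closure_minimal (t := {u : Ω → ℝ | 0 ≤ u ω}) ?_
        (isClosed_le continuous_const (continuous_apply ω)) hx
      rintro _ ⟨y, hy, rfl⟩
      exact ((hE.valid y hy).cast hρ).1 ω
    · by_contra h3
      refine mul_ne_zero h1 h2 (closure_minimal (t := {u : Ω → ℝ | u ω * u ω' = 0}) ?_
        (isClosed_eq ((continuous_apply ω).mul (continuous_apply ω')) continuous_const) hx)
      rintro _ ⟨y, hy, rfl⟩
      by_contra h4
      exact h3 (((hE.valid y hy).cast hρ).2 ω ω' h (left_ne_zero_of_mul h4)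
        (right_ne_zero_of_mul h4))
  · refine map_mem_closure₂ (f := pls π) ?_ hx hy ?_
    · refine continuous_pi fun ω => ?_
      exact (((continuous_hh ω).comp continuous_fst).add
        ((continuous_hh ω).comp continuous_snd)).max continuous_const
    · rintro _ ⟨u, hu, rfl⟩ _ ⟨v, hv, rfl⟩
      exact ⟨_, hE.add u hu v hv, ((hE.valid u hu).pls_cast hρ (hE.valid v hv)).symm⟩
  · refine map_mem_closure (f := act (fun g ω => ρ (s g ω)) g) ?_ hx ?_
    · exact continuous_pi fun ω => continuous_const.mul (continuous_apply _)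
    · rintro _ ⟨u, hu, rfl⟩
      exact ⟨_, hE.inv g u hu, by funext ω; simp [act]⟩

theorem exists_small [Finite Ω] {x : Ω → K} (hx : Valid π x) (m : Ω → K) :
    ∃ ε : K, 0 < ε ∧ ∀ ω, x ω ≠ 0 → 0 < x ω + ε * m ω := by
  have := Fintype.ofFinite Ω
  set N : K := 1 + ∑ ω, |m ω| / x ω with hN
  have h0 : ∀ ω, 0 ≤ |m ω| / x ω := fun ω => div_nonneg (abs_nonneg _) (hx.1 ω)
  have hN0 : 0 < N := by
    have := Finset.sum_nonneg (s := Finset.univ) fun ω _ => h0 ω
    linarith
  refine ⟨N⁻¹, inv_pos.2 hN0, fun ω h => ?_⟩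
  have h1 := Finset.single_le_sum (f := fun ω => |m ω| / x ω) (fun ω _ => h0 ω) (Finset.mem_univ ω)
  have h2 : |m ω| / x ω < N := by linarith
  rw [div_lt_iff₀ (hx.pos h)] at h2
  have h3 := neg_abs_le (m ω)
  have : x ω + N⁻¹ * m ω = N⁻¹ * (N * x ω + m ω) := by field_simp
  rw [this]
  exact mul_pos (inv_pos.2 hN0) (by linarith)

theorem exists_full [Finite Ω] (hE : Good π s E) (hne : E.Nonempty) :
    ∃ x0 ∈ E, ∀ y ∈ E, ∀ a, y a ≠ 0 → ∃ ω, x0 ω ≠ 0 ∧ π ω = π a := by
  have := Fintype.ofFinite Ω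
  obtain ⟨x, hx, hmax⟩ := exists_minimalFor_of_wellFoundedLT (fun x => x ∈ E)
    (fun x => (Function.support x)ᶜ.ncard) hne
  refine ⟨x, hx, fun y hy a ha => ?_⟩
  by_contra h
  have h' : ∀ ω, π ω = π a → x ω = 0 := fun ω h1 => by
    by_contra h2; exact h ⟨ω, h2, h1⟩
  have vx := hE.valid x hx
  have vy := hE.valid y hy
  obtain ⟨ε, hε, h1⟩ := exists_small vx (hh π y)
  have hz := hE.add x hx _ (hE.smul y hy ε hε)
  have : (Function.support (pls π x (ε • y)))ᶜ.ncard < (Function.support x)ᶜ.ncard := by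
    apply Set.ncard_lt_ncard _ (Set.toFinite _)
    refine ⟨Set.compl_subset_compl.2 fun ω hω => ?_, fun h2 => ?_⟩
    · rw [Function.mem_support, add_ne_zero_iff, vx.hh_self hω, vy.hh_smul]
      exact h1 ω hω
    · have : a ∈ (Function.support (pls π x (ε • y)))ᶜ := h2 (by simp [h' a rfl])
      apply this
      rw [Function.mem_support, add_comm', (vy.smul hε.le).add_of_fib_zero h']
      simp [hε.ne', ha]
  exact absurd (hmax hz this.le) (not_le.2 this)

theorem closure_unopp [Finite Ω] (hρ : StrictMono ρ) (hE : Good π s E) (hne : E.Nonempty)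
    (h0 : (0 : Ω → K) ∉ E) : ∃ x, Unopp π (closure ((fun x => ρ ∘ x) '' E)) x := by
  have := Fintype.ofFinite Ω
  obtain ⟨x0, hx0, full⟩ := exists_full hE hne
  have v0 := hE.valid x0 hx0
  set F : Set (Ω → K) := {x | x ∈ E ∧ ∀ ω, x ω ≠ 0 → x0 ω ≠ 0} with hF
  have hhF : ∀ u ∈ F, ∀ ω, x0 ω ≠ 0 → hh π u ω = u ω := by
    intro u hu ω h
    by_cases h1 : u ω = 0
    · rw [h1]; apply hh_fib_zero
      intro a ha; by_contra h2
      exact h2 (v0.2 a ω ha (hu.2 a h2) h ▸ h1)
    · exact (hE.valid u hu.1).hh_self h1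
  have addF : ∀ u v, u ∈ F → v ∈ F → u + v ∈ F := by
    intro u v hu hv
    have vu := hE.valid u hu.1
    have vv := hE.valid v hv.1
    have : pls π u v = u + v := by
      funext ω
      by_cases h : x0 ω = 0
      · have h1 : u ω = 0 := by by_contra h1; exact hu.2 ω h1 h
        have h2 : v ω = 0 := by by_contra h2; exact hv.2 ω h2 h
        rw [Pi.add_apply, h1, h2, add_zero]
        by_contra h3
        rcases vu.add_supp vv h3 with h4 | h4
        · exact h4 h1
        · exact h4 h2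
      · rw [add_apply, hhF u hu ω h, hhF v hv ω h, max_eq_left (add_nonneg (vu.1 ω) (vv.1 ω))]; rfl
    refine ⟨this ▸ hE.add u hu.1 v hv.1, fun ω h => ?_⟩
    by_contra h1
    have h2 : u ω = 0 := by by_contra h2; exact hu.2 ω h2 h1
    have h3 : v ω = 0 := by by_contra h3; exact hv.2 ω h3 h1
    exact h (by simp [h2, h3])
  have smF : ∀ u ∈ F, ∀ t : K, 0 < t → t • u ∈ F := fun u hu t ht =>
    ⟨hE.smul u hu.1 t ht, fun ω h => hu.2 ω fun h1 => h (by simp [h1])⟩
  obtain ⟨b, hbF, hspan, hli⟩ := exists_linearIndependent K F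
  have : Finite b := hli.set_finite_of_isNoetherian
  have := Fintype.ofFinite b
  set T := Fintype.linearCombination K ((↑) : b → (Ω → K)) with hT
  have rT : ∀ u ∈ Submodule.span K F, ∃ c, T c = u := by
    intro u hu
    rw [← hspan] at hu
    have : u ∈ LinearMap.range T := by
      rw [hT, Fintype.range_linearCombination, Subtype.range_coe]; exact hu
    exact this
  obtain ⟨L, hL⟩ := T.exists_leftInverse_of_injective (LinearMap.ker_eq_bot.2
    (linearIndependent_iff_injective_fintypeLinearCombination.1 hli))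
  have hTL : ∀ u ∈ Submodule.span K F, T (L u) = u := by
    intro u hu
    obtain ⟨c, rfl⟩ := rT u hu
    have : L (T c) = c := LinearMap.congr_fun hL c
    rw [this]
  have x0F : x0 ∈ F := ⟨hx0, fun _ h => h⟩
  have ex : ∀ ω, x0 ω ≠ 0 → ∃ v : b, (v : Ω → K) ω ≠ 0 := by
    intro ω h
    by_contra h1
    push Not at h1
    obtain ⟨c, hc⟩ := rT x0 (Submodule.subset_span x0F)
    apply h
    rw [← hc, hT, Fintype.linearCombination_apply, Finset.sum_apply]
    exact Finset.sum_eq_zero fun v _ => by simp [h1 v]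
  have bne : Nonempty b := by
    have : x0 ≠ 0 := fun h => h0 (h ▸ hx0)
    obtain ⟨ω, hω⟩ := Function.ne_iff.1 this
    obtain ⟨v, -⟩ := ex ω hω
    exact ⟨v⟩
  have TF : ∀ c : b → K, (∀ v, 0 < c v) → T c ∈ F := by
    intro c hc
    rw [hT, Fintype.linearCombination_apply]
    exact Finset.sum_induction_nonempty _ (· ∈ F) addF Finset.univ_nonempty
      fun v _ => smF _ (hbF v.2) _ (hc v)
  set x := T 1 with hx
  have xF : x ∈ F := TF 1 fun _ => one_pos
  have vx := hE.valid x xF.1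
  have xfull : ∀ ω, x0 ω ≠ 0 → x ω ≠ 0 := by
    intro ω h
    obtain ⟨v, hv⟩ := ex ω h
    rw [hx, hT, Fintype.linearCombination_apply, Finset.sum_apply]
    refine (Finset.sum_pos' (fun w _ => ?_) ⟨v, Finset.mem_univ _, ?_⟩).ne'
    · simpa using (hE.valid _ (hbF w.2).1).1 ω
    · simpa using (hE.valid _ (hbF v.2).1).pos hv
  refine ⟨ρ ∘ x, subset_closure ⟨x, xF.1, rfl⟩, fun x' hx' hopp => ?_⟩
  have vx' := (hE.closure hρ).valid x' hx'
  have hx'' : ∀ ω, x0 ω ≠ 0 → hh π x' ω = -ρ (x ω) := by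
    intro ω h
    have h1 : (ρ ∘ x) ω ≠ 0 := by simpa using xfull ω h
    obtain ⟨d, hd, hdω, e⟩ := (vx.cast hρ).opp_ray vx' (ω := ω) (fun _ _ => by rw [hopp]; rfl) h1
    have h2 : x' d ≠ 0 := by rw [e]; exact h1
    rw [hh_zero (vx'.zero_of_ne h2 hd.symm (Ne.symm hdω)), ← hd, vx'.nrm_eq h2, e]; rfl
  set Φ : b → (Ω → ℝ) → ℝ := fun v u => ∑ ω, (if x0 ω ≠ 0 then ρ (x ω) + hh π u ω else 0) *
    ρ (L (fun j => if ω = j then 1 else 0) v) with hΦ
  have cΦ : ∀ v, Continuous (Φ v) := fun v => continuous_finsetSum _ fun ω _ => by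
    refine Continuous.mul ?_ continuous_const
    split_ifs
    · exact continuous_const.add (continuous_hh ω)
    · exact continuous_const
  obtain ⟨_, h1, y, hy, rfl⟩ := mem_closure_iff.1 hx' (⋂ v, {u | Φ v u < 1})
    (isOpen_iInter_of_finite fun v => isOpen_lt (cΦ v) continuous_const) (by
      simp only [Set.mem_iInter, Set.mem_ofPred_eq]
      intro v
      have : Φ v x' = 0 := Finset.sum_eq_zero fun ω _ => by
        split_ifs with h
        · rw [hx'' ω h]; simp
        · simp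
      rw [this]; exact one_pos)
  simp only [Set.mem_iInter, Set.mem_ofPred_eq] at h1
  have vy := hE.valid y hy
  set ζ : Ω → K := fun ω => if x0 ω ≠ 0 then x ω + hh π y ω else 0 with hζ
  have small : ∀ v, L ζ v < 1 := by
    intro v
    have : ρ (L ζ v) = Φ v (ρ ∘ y) := by
      rw [LinearMap.pi_apply_eq_sum_univ L ζ, Finset.sum_apply, map_sum]
      refine Finset.sum_congr rfl fun ω _ => ?_
      rw [Pi.smul_apply, smul_eq_mul, map_mul, vy.hh_cast hρ]
      simp only [hζ]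
      split_ifs <;> simp
    have h2 := h1 v
    rw [← this, ← map_one ρ] at h2
    exact hρ.lt_iff_lt.1 h2
  have ζspan : ζ ∈ Submodule.span K F := by
    obtain ⟨ε, hε, h2⟩ := exists_small vx (hh π y)
    have hz := hE.add x xF.1 _ (hE.smul y hy ε hε)
    have zval : ∀ ω, x0 ω ≠ 0 → pls π x (ε • y) ω = x ω + ε * hh π y ω := by
      intro ω h
      rw [add_apply, vx.hh_self (xfull ω h), vy.hh_smul]
      exact max_eq_left (h2 ω (xfull ω h)).le
    have zF : pls π x (ε • y) ∈ F := by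
      refine ⟨hz, fun a ha => ?_⟩
      obtain ⟨ω, h3, h4⟩ := full _ hz a ha
      have : pls π x (ε • y) ω ≠ 0 := by rw [zval ω h3]; exact (h2 ω (xfull ω h3)).ne'
      exact (hE.valid _ hz).2 _ _ h4 this ha ▸ h3
    have : ζ = x + ε⁻¹ • (pls π x (ε • y) - x) := by
      funext ω
      simp only [hζ, Pi.add_apply, Pi.smul_apply, Pi.sub_apply, smul_eq_mul]
      split_ifs with h
      · rw [zval ω h]; field_simp; ring
      · have h3 : x ω = 0 := by by_contra h3; exact h (xF.2 ω h3)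
        have h4 : pls π x (ε • y) ω = 0 := by by_contra h4; exact h (zF.2 ω h4)
        rw [h3, h4]; simp
    rw [this]
    exact Submodule.add_mem _ (Submodule.subset_span xF) (Submodule.smul_mem _ _
      (Submodule.sub_mem _ (Submodule.subset_span zF) (Submodule.subset_span xF)))
  have wF : T (1 - L ζ) ∈ F := TF _ fun v => by
    have := small v
    simp only [Pi.sub_apply, Pi.one_apply]; linarith
  have wval : T (1 - L ζ) = x - ζ := by rw [map_sub, hTL ζ ζspan]
  apply h0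
  have : pls π (T (1 - L ζ)) y = 0 := by
    funext a
    by_contra h2
    obtain ⟨ω, h3, h4⟩ := full _ (hE.add _ wF.1 _ hy) a h2
    refine h2 ((hE.valid _ wF.1).add_fib_zero vy (ω := ω) ?_ h4.symm)
    rw [hhF _ wF ω h3, wval]
    simp [hζ, h3]
  exact this ▸ hE.add _ wF.1 _ hy

theorem kfin_step [Finite Ω] (hρ : StrictMono ρ) (A : Act π s) (hE : Good π s E)
    (hne : E.Nonempty) (h0 : (0 : Ω → K) ∉ E) :
    ∃ T : Set Ω, T.Nonempty ∧ (∀ (g : Γ), ∀ ω ∈ T, g • ω ∈ T) ∧ ∃ y ∈ E, ∀ ω ∈ T, y ω ≠ 0 := by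
  obtain ⟨e, he, he0, heT⟩ := genThm _ Γ _ _ (A.cast hρ) rfl (hE.closure hρ) isClosed_closure
    (by
      obtain ⟨x, hx⟩ := hne
      simpa using closure_smul hρ hE (subset_closure ⟨x, hx, rfl⟩) le_rfl)
    (closure_unopp hρ hE hne h0)
  refine ⟨Function.support e, Function.support_nonempty_iff.2 he0, heT, ?_⟩
  obtain ⟨_, h1, y, hy, rfl⟩ := mem_closure_iff.1 he (⋂ ω, ⋂ (_ : e ω ≠ 0), {u | u ω ≠ 0})
    (isOpen_iInter_of_finite fun ω => isOpen_iInter_of_finite fun _ =>
      isOpen_ne_fun (continuous_apply ω) continuous_const) (by simp)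
  refine ⟨y, hy, fun ω h => ?_⟩
  simp only [Set.mem_iInter, Set.mem_ofPred_eq] at h1
  simpa using h1 ω h

theorem kfinThm [Finite Ω] (hρ : StrictMono ρ) (A : Act π s) (n : ℕ) : ∀ E : Set (Ω → K),
    (used E).ncard = n → Good π s E → E.Nonempty → ∃ x ∈ E, InvT Γ x := by
  induction n using Nat.strong_induction_on with
  | _ n ih =>
    intro E hn hE hne
    by_cases h0 : (0 : Ω → K) ∈ E
    · exact ⟨0, h0, fun _ _ h => absurd rfl h⟩
    obtain ⟨T, ⟨t0, ht0⟩, hT, y, hy, hyT⟩ := kfin_step hρ A hE hne h0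
    set P : (Ω → K) → (Ω → K) := fun x ω => if π ω ∈ π '' T then 0 else x ω with hP
    set ET : Set (Ω → K) := {x | x ∈ E ∧ ∀ ω ∈ T, x ω ≠ 0} with hET
    have Pne : ∀ x ω, P x ω ≠ 0 → x ω ≠ 0 ∧ π ω ∉ π '' T := by
      intro x ω h
      simp only [hP] at h
      split_ifs at h with h1
      · exact absurd rfl h
      · exact ⟨h, h1⟩
    have Pv : ∀ x, Valid π x → Valid π (P x) := by
      intro x hx
      refine ⟨fun ω => ?_, fun ω ω' h h1 h2 => hx.2 _ _ h (Pne _ _ h1).1 (Pne _ _ h2).1⟩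
      simp only [hP]; split_ifs
      · exact le_rfl
      · exact hx.1 ω
    have Tinv : ∀ (g : Γ) ω, π ω ∈ π '' T → π (g • ω) ∈ π '' T := by
      rintro g ω ⟨t, ht, h⟩
      exact ⟨_, hT g t ht, A.fib g _ _ h⟩
    have good : Good π s (P '' ET) := by
      refine ⟨?_, ?_, ?_, ?_⟩
      · rintro _ ⟨x, hx, rfl⟩; exact Pv x (hE.valid x hx.1)
      · rintro _ ⟨x, hx, rfl⟩ _ ⟨z, hz, rfl⟩
        have vx := hE.valid x hx.1
        have vz := hE.valid z hz.1
        refine ⟨pls π x z, ⟨hE.add x hx.1 z hz.1, fun ω h => vx.add_ne_zero_of_compat vz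
          (hx.2 ω h) fun a ha h1 => vz.2 _ _ ha h1 (hz.2 ω h)⟩, ?_⟩
        funext ω
        by_cases h : π ω ∈ π '' T
        · have : P (pls π x z) ω = 0 := by simp only [hP, if_pos h]
          rw [this]; symm
          by_contra h1
          rcases (Pv x vx).add_supp (Pv z vz) h1 with h2 | h2
          · exact (Pne _ _ h2).2 h
          · exact (Pne _ _ h2).2 h
        · have k : ∀ u, hh π (P u) ω = hh π u ω := fun u => hh_congr fun a ha => by
            simp only [hP, ha, if_neg h]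
          rw [add_apply, k, k]; simp only [hP, if_neg h]; rfl
      · rintro _ ⟨x, hx, rfl⟩ t ht
        refine ⟨t • x, ⟨hE.smul x hx.1 t ht, fun ω h => by simp [ht.ne', hx.2 ω h]⟩, ?_⟩
        funext ω; simp only [hP, Pi.smul_apply]; split_ifs <;> simp
      · rintro g _ ⟨x, hx, rfl⟩
        refine ⟨act s g x, ⟨hE.inv g x hx.1, fun ω h => (A.act_ne_zero' g).2 (hx.2 _ (hT _ _ h))⟩, ?_⟩
        funext ω
        simp only [hP, act]
        by_cases h : π ω ∈ π '' T
        · rw [if_pos h, if_pos (Tinv _ _ h), mul_zero]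
        · rw [if_neg h, if_neg fun h1 => h (by simpa using Tinv g _ h1)]
    have lt : (used (P '' ET)).ncard < n := by
      rw [← hn]
      apply Set.ncard_lt_ncard _ (Set.toFinite _)
      refine ⟨?_, fun h => ?_⟩
      · rintro a ⟨_, ⟨x, hx, rfl⟩, h⟩
        exact ⟨x, hx.1, (Pne _ _ h).1⟩
      · obtain ⟨_, ⟨x, -, rfl⟩, h1⟩ := h (show t0 ∈ used E from ⟨y, hy, hyT t0 ht0⟩)
        exact (Pne _ _ h1).2 ⟨t0, ht0, rfl⟩
    obtain ⟨_, ⟨x, hx, rfl⟩, hinv⟩ := ih _ lt _ rfl good ⟨_, y, ⟨hy, hyT⟩, rfl⟩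
    refine ⟨x, hx.1, fun g ω h => ?_⟩
    by_cases h1 : π ω ∈ π '' T
    · obtain ⟨t, ht, h2⟩ := h1
      rw [← (hE.valid x hx.1).2 _ _ h2 (hx.2 t ht) h]
      exact hx.2 _ (hT g t ht)
    · exact (Pne _ _ (hinv g ω (by simp only [hP, if_neg h1]; exact h))).1

end Pool.Agent.P.MP_6990a0_al
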