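import Pool.Agent.P.MP_6990a0_al.KLGame
import Pool.Agent.P.MP_6990a0_al.Defs

namespace Pool.Agent.P.MP_6990a0_al.KL

open scoped Classical

set_option linter.unusedSectionVars false

variable {K : Type*} [Field K] [LinearOrder K] [IsStrictOrderedRing K]

theorem Win.retarget {τ μ} (h : Win τ μ) (τ' : Fin 4 → Fin 4) (hτ : ∀ i, τ' i ≠ i) :
    ∃ μ', Win τ' μ' ∧ ∀ i, μ' i ≤ μ i ∧ (τ' i = τ i → μ' i = μ i) := by
  have : ∀ s : Finset (Fin 4), ∃ μ', Win (fun i => if i ∈ s then τ' i else τ i) μ' ∧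
      ∀ i, μ' i ≤ μ i ∧ (i ∉ s ∨ τ' i = τ i → μ' i = μ i) := by
    intro s
    induction s using Finset.induction_on with
    | empty => exact ⟨μ, by simpa using h, fun i => ⟨le_rfl, fun _ => rfl⟩⟩
    | insert a s ha ih =>
      obtain ⟨μ1, h1, h2⟩ := ih
      obtain ⟨μ2, h3, h4, h5, h6⟩ := h1.move a (τ' a) (hτ a)
      refine ⟨μ2, ?_, fun i => ?_⟩
      · have : (fun i => if i ∈ insert a s then τ' i else τ i) =
            Function.update (fun i => if i ∈ s then τ' i else τ i) a (τ' a) := by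
          funext i
          by_cases hi : i = a
          · subst hi; simp
          · simp [hi]
        rw [this]; exact h3
      · by_cases hi : i = a
        · subst hi
          refine ⟨h5.trans (h2 i).1, fun h7 => ?_⟩
          rcases h7 with h7 | h7
          · simp at h7
          · rw [h6 (by simp [ha, h7]), (h2 i).2 (Or.inl ha)]
        · rw [h4 i hi]
          refine ⟨(h2 i).1, fun h7 => (h2 i).2 ?_⟩
          rcases h7 with h7 | h7
          · left; intro h8; exact h7 (Finset.mem_insert_of_mem h8)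
          · exact Or.inr h7
  obtain ⟨μ', h1, h2⟩ := this Finset.univ
  exact ⟨μ', by simpa using h1, fun i => ⟨(h2 i).1, fun h => (h2 i).2 (Or.inr h)⟩⟩

theorem wt_le (x : ℤ) (h1 : -16 ≤ x) (h2 : x ≤ 16) :
    (1001 / 1000 : K) ^ x ≤ 1 + (x : K) / 1000 + 14 / 100000 := by
  interval_cases x <;> norm_num

theorem Win.con {τ μ} (h : Win τ μ) (j : Fin 4) :
    ∑ m, (if τ m = j then (1001 / 1000 : K) ^ μ m else 0) ≤
      299942 / 100000 * (1001 / 1000 : K) ^ μ j := by
  have hq : (0 : K) < 1001 / 1000 := by norm_num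
  have hw : (0 : K) < (1001 / 1000 : K) ^ μ j := zpow_pos hq _
  have key : ∀ m, (1001 / 1000 : K) ^ μ m ≤
      (1 + ((μ m : K) - μ j) / 1000 + 14 / 100000) * (1001 / 1000 : K) ^ μ j := by
    intro m
    have := wt_le (K := K) (μ m - μ j) (by linarith [h.spread m j]) (h.spread j m)
    calc (1001 / 1000 : K) ^ μ m = (1001 / 1000 : K) ^ (μ m - μ j) * (1001 / 1000 : K) ^ μ j := by
          rw [← zpow_add₀ hq.ne']; congr 1; ring
      _ ≤ _ := by
          apply mul_le_mul_of_nonneg_right _ hw.le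
          push_cast at this; exact this
  have sp : ∀ m, (μ m : K) - μ j ≤ 16 := fun m => by exact_mod_cast h.spread j m
  by_cases hj : ∀ m, m ≠ j → τ m = j
  · have f1 : (∑ m, (μ m : K)) + 1 ≤ 4 * μ j := by exact_mod_cast h.full j hj
    calc _ ≤ ∑ m, ((1 + ((μ m : K) - μ j) / 1000 + 14 / 100000) * (1001 / 1000 : K) ^ μ j -
          if m = j then (1 + 14 / 100000) * (1001 / 1000 : K) ^ μ j else 0) := by
          apply Finset.sum_le_sum
          intro m _
          by_cases hm : m = j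
          · subst hm; rw [if_neg (h.ne m), if_pos rfl]; apply le_of_eq; ring
          · rw [if_pos (hj m hm), if_neg hm, sub_zero]; exact key m
      _ ≤ _ := by
          rw [Finset.sum_sub_distrib, Finset.sum_ite_eq' Finset.univ j, ← Finset.sum_mul]
          simp only [Finset.mem_univ, if_true]
          rw [← sub_mul]
          apply mul_le_mul_of_nonneg_right _ hw.le
          simp only [Fin.sum_univ_four] at f1 ⊢
          linarith
  · push Not at hj
    obtain ⟨m0, h1, h2⟩ := hj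
    calc _ ≤ ∑ m, (11 / 10 * (1001 / 1000 : K) ^ μ j -
          (if m = j then 11 / 10 * (1001 / 1000 : K) ^ μ j else 0) -
          if m = m0 then 11 / 10 * (1001 / 1000 : K) ^ μ j else 0) := by
          apply Finset.sum_le_sum
          intro m _
          by_cases hm : m = j
          · subst hm; rw [if_neg (h.ne m), if_pos rfl, if_neg h1.symm]; apply le_of_eq; ring
          by_cases hm0 : m = m0
          · subst hm0; rw [if_neg h2, if_neg hm, if_pos rfl]; apply le_of_eq; ring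
          rw [if_neg hm, if_neg hm0, sub_zero, sub_zero]
          split_ifs
          · refine (key m).trans (mul_le_mul_of_nonneg_right ?_ hw.le)
            linarith [sp m]
          · positivity
      _ ≤ _ := by
          rw [Finset.sum_sub_distrib, Finset.sum_sub_distrib, Finset.sum_ite_eq' Finset.univ j,
            Finset.sum_ite_eq' Finset.univ m0]
          simp only [Finset.mem_univ, if_true, Fin.sum_univ_four]
          nlinarith

theorem mgame (K : Type*) [Field K] [LinearOrder K] [IsStrictOrderedRing K] :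
    ∃ (W : (Fin 4 → Fin 4) → (Fin 4 → K) → Prop) (p : K), 2 ≤ p ∧ p < 3 ∧
      (∀ τ lam, W τ lam → ∀ i, 0 < lam i) ∧
      (∀ τ lam, W τ lam → ∀ j, ∑ m, (if τ m = j then lam m else 0) ≤ p * lam j) ∧
      (∀ τ lam, W τ lam → ∀ τ' : Fin 4 → Fin 4, (∀ i, τ' i ≠ i) →
        ∃ lam', W τ' lam' ∧ ∀ i, lam' i ≤ lam i ∧ (τ' i = τ i → lam' i = lam i)) ∧
      ∀ τ : Fin 4 → Fin 4, (∀ i, τ i ≠ i) → ∀ k, ∃ lam η, 0 < η ∧ W τ lam ∧
        W τ fun i => lam i + if i = k then η else 0 := by
  have hq : (0 : K) < 1001 / 1000 := by norm_num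
  refine ⟨fun τ lam => ∃ (μ : Fin 4 → ℤ) (κ : Fin 4 → K), Win τ μ ∧
    (∀ i, 1 ≤ κ i ∧ κ i ≤ 100001 / 100000) ∧ ∀ i, lam i = κ i * (1001 / 1000 : K) ^ μ i,
    29995 / 10000, by norm_num, by norm_num, ?_, ?_, ?_, ?_⟩
  · rintro τ lam ⟨μ, κ, -, h2, h3⟩ i
    rw [h3]; exact mul_pos (by linarith [(h2 i).1]) (zpow_pos hq _)
  · rintro τ lam ⟨μ, κ, h1, h2, h3⟩ j
    have hw : (0 : K) < (1001 / 1000 : K) ^ μ j := zpow_pos hq _
    calc _ ≤ ∑ m, 100001 / 100000 * (if τ m = j then (1001 / 1000 : K) ^ μ m else 0) := by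
          apply Finset.sum_le_sum
          intro m _
          split_ifs
          · rw [h3]; exact mul_le_mul_of_nonneg_right (h2 m).2 (zpow_pos hq _).le
          · simp
      _ ≤ 100001 / 100000 * (299942 / 100000 * (1001 / 1000 : K) ^ μ j) := by
          rw [← Finset.mul_sum]
          exact mul_le_mul_of_nonneg_left (h1.con j) (by norm_num)
      _ ≤ _ := by
          rw [h3]
          nlinarith [(h2 j).1]
  · rintro τ lam ⟨μ, κ, h1, h2, h3⟩ τ' hτ
    obtain ⟨μ', h4, h5⟩ := h1.retarget τ' hτ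
    refine ⟨fun i => κ i * (1001 / 1000 : K) ^ μ' i, ⟨μ', κ, h4, h2, fun _ => rfl⟩, fun i => ⟨?_, ?_⟩⟩
    · rw [h3]
      exact mul_le_mul_of_nonneg_left (zpow_le_zpow_right₀ (by norm_num) (h5 i).1)
        (by linarith [(h2 i).1])
    · intro h; rw [h3, ← (h5 i).2 h]
  · intro τ hτ k
    obtain ⟨τ0, μ0, h0⟩ := win_init
    obtain ⟨μ, h1, -⟩ := h0.retarget τ hτ
    refine ⟨fun i => (1001 / 1000 : K) ^ μ i, 1 / 100000 * (1001 / 1000 : K) ^ μ k,
      mul_pos (by norm_num) (zpow_pos hq _), ⟨μ, fun _ => 1, h1, fun _ => by norm_num, by simp⟩,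
      ⟨μ, fun i => if i = k then 100001 / 100000 else 1, h1, fun i => ?_, fun i => ?_⟩⟩
    · beta_reduce; split_ifs <;> norm_num
    · by_cases h : i = k
      · subst h; simp only [if_true]; ring
      · simp [h]

variable {Ω : Type*}

noncomputable def gv (a b ω : Ω) (t : K) : K :=
  if ω = a then max t 0 else if ω = b then max (-t) 0 else 0

theorem apt_val {π : Ω → Fin 4} {φ : (Fin 4 → K) × Unit → EdPt K π Unit} (h : IsApt π φ) :
    ∃ a b : Fin 4 → Ω, (∀ i, π (a i) = i ∧ π (b i) = i ∧ a i ≠ b i) ∧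
      ∀ v i ω, π ω = i → (φ v).1.1 ω = gv (a i) (b i) ω (v.1 i) := by
  obtain ⟨a, b, h1, h2⟩ := h
  refine ⟨a, b, h1, fun v i ω hω => ?_⟩
  unfold gv
  split_ifs with h3 h4
  · rw [h3]; exact ((h2 v).2 i).1
  · rw [h4]; exact ((h2 v).2 i).2.1
  · exact ((h2 v).2 i).2.2 ω hω h3 h4

theorem exists_apt {π : Ω → Fin 4} (a b : Fin 4 → Ω)
    (h : ∀ i, π (a i) = i ∧ π (b i) = i ∧ a i ≠ b i) :
    ∃ φ : (Fin 4 → K) × Unit → EdPt K π Unit, IsApt π φ ∧
      ∀ v ω, (φ v).1.1 ω = gv (a (π ω)) (b (π ω)) ω (v.1 (π ω)) := by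
  refine ⟨fun v => ⟨(fun ω => gv (a (π ω)) (b (π ω)) ω (v.1 (π ω)), ()), fun ω => ?_,
    fun ω ω' h1 h2 h3 => ?_⟩, ⟨a, b, h, fun v => ⟨rfl, fun i => ⟨?_, ?_, fun ω h1 h2 h3 => ?_⟩⟩⟩,
    fun _ _ => rfl⟩
  · simp only [gv]; split_ifs <;> simp
  · simp only [gv] at h2 h3
    rw [← h1] at h3
    split_ifs at h2 h3 with c1 c2 c3 c4 c5 c6
    · rw [c2]; exact c1
    · exfalso
      rcases le_total (v.1 (π ω)) 0 with h4 | h4
      · exact h2 (max_eq_right h4)
      · exact h3 (max_eq_right (by linarith))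
    · exact absurd rfl h3
    · exfalso
      rcases le_total (v.1 (π ω)) 0 with h4 | h4
      · exact h3 (max_eq_right h4)
      · exact h2 (max_eq_right (by linarith))
    · rw [c6]; exact c4
    · exact absurd rfl h3
    all_goals exact absurd rfl h2
  · simp [gv, (h i).1]
  · simp [gv, (h i).2.1, (h i).2.2.symm]
  · simp [gv, h1, h2, h3]

noncomputable def rs (a b s ρ : Ω) : Ω := if s = a then b else if s = b then a else ρ

theorem T_concave {a b s ρ : Ω} (hab : a ≠ b) {α β t t' : K} (hα : 0 ≤ α) (hβ : 0 ≤ β) :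
    α * (gv a b s t - gv a b (rs a b s ρ) t) + β * (gv a b s t' - gv a b (rs a b s ρ) t') ≤
      gv a b s (α * t + β * t') - gv a b (rs a b s ρ) (α * t + β * t') := by
  have e : ∀ x : K, max x 0 - max (-x) 0 = x := fun x => by
    rcases le_total x 0 with h | h
    · rw [max_eq_right h, max_eq_left (by linarith)]; ring
    · rw [max_eq_left h, max_eq_right (by linarith)]; ring
  have e' : ∀ x : K, max (-x) 0 - max x 0 = -x := fun x => by linarith [e x]
  have c : ∀ x y : K, max (α * x + β * y) 0 ≤ α * max x 0 + β * max y 0 := fun x y =>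
    max_le (add_le_add (mul_le_mul_of_nonneg_left (le_max_left _ _) hα)
      (mul_le_mul_of_nonneg_left (le_max_left _ _) hβ)) (by positivity)
  by_cases h1 : s = a
  · subst h1
    simp only [gv, rs, if_true, if_neg hab.symm, e]; exact le_rfl
  by_cases h2 : s = b
  · subst h2
    simp only [gv, rs, if_true, if_neg h1, e']; apply le_of_eq; ring
  simp only [gv, rs, if_neg h1, if_neg h2]
  split_ifs
  · linarith [c t t']
  · have := c (-t) (-t')
    rw [show α * -t + β * -t' = -(α * t + β * t') by ring] at this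
    linarith
  · simp

theorem T_relabel {a b s ρ : Ω} (hρ : ρ ≠ s) {l l' t : K} (h0 : 0 < l') (h1 : l' ≤ l)
    (h2 : rs a b s ρ = ρ → l' = l) :
    l' * (gv a b s t - gv a b (rs a b s ρ) t) ≤ l * (gv a b s t - gv a b ρ t) := by
  by_cases h : rs a b s ρ = ρ
  · rw [h, h2 h]
  have hz : gv a b ρ t = 0 := by
    unfold rs at h
    unfold gv
    split_ifs at h with c1 c2
    · rw [if_neg (c1 ▸ hρ), if_neg (Ne.symm h)]
    · rw [if_neg (Ne.symm h), if_neg (c2 ▸ hρ)]
    · exact absurd rfl h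
  have hn : ∀ ω, 0 ≤ gv a b ω t := fun ω => by unfold gv; split_ifs <;> simp
  rw [hz]
  nlinarith [hn s, hn (rs a b s ρ)]

theorem gv_smul {a b ω : Ω} {c t : K} (hc : 0 < c) : gv a b ω (c * t) = c * gv a b ω t := by
  unfold gv
  split_ifs
  · rw [mul_max_of_nonneg _ _ hc.le, mul_zero]
  · rw [mul_max_of_nonneg _ _ hc.le, mul_zero, mul_neg]
  · simp

theorem T_opp {a b s : Ω} (hab : a ≠ b) (t : K) :
    (gv a b s t - gv a b (rs a b s a) t) + (gv a b s (-t) - gv a b (rs a b s a) (-t)) ≤ 0 ∧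
    (gv a b s t - gv a b (rs a b s a) t = 0 → gv a b s (-t) - gv a b (rs a b s a) (-t) = 0 →
      t = 0) := by
  by_cases h1 : s = a
  · subst h1
    simp only [gv, rs, if_true, if_neg hab.symm, neg_neg]
    refine ⟨by linarith, fun h _ => ?_⟩
    rcases le_total t 0 with h3 | h3
    · rw [max_eq_right h3, max_eq_left (by linarith)] at h; linarith
    · rw [max_eq_left h3, max_eq_right (by linarith)] at h; linarith
  by_cases h2 : s = b
  · subst h2
    simp only [gv, rs, if_true, if_neg h1, neg_neg]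
    refine ⟨by linarith, fun h _ => ?_⟩
    rcases le_total t 0 with h3 | h3
    · rw [max_eq_right h3, max_eq_left (by linarith)] at h; linarith
    · rw [max_eq_left h3, max_eq_right (by linarith)] at h; linarith
  simp only [gv, rs, if_neg h1, if_neg h2, if_true]
  refine ⟨by linarith [le_max_right t 0, le_max_right (-t) 0], fun h h' => ?_⟩
  linarith [le_max_left t 0, le_max_left (-t) 0]

theorem rs_ok {π : Ω → Fin 4} {a b s ρ : Ω} {i : Fin 4} (ha : π a = i) (hb : π b = i) (hab : a ≠ b)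
    (hρ : π ρ = i) (h : ρ ≠ s ∨ ρ = a) : π (rs a b s ρ) = i ∧ rs a b s ρ ≠ s := by
  unfold rs
  split_ifs with h1 h2
  · exact ⟨hb, h1 ▸ hab.symm⟩
  · exact ⟨ha, h2 ▸ hab⟩
  · refine ⟨hρ, ?_⟩
    rcases h with h | h
    · exact h
    · rw [h]; exact Ne.symm h1

theorem exists_cls {π : Ω → Fin 4} (e : Fin 4 → Fin 4 → Ω) (h1 : ∀ i, Function.Injective (e i))
    (h2 : ∀ i j, π (e i j) = i) :
    ∃ cls : Ω → Fin 4, (∀ i j, cls (e i j) = j) ∧ ∀ ω i, π ω = i → ω ≠ e i i → cls ω ≠ i := by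
  refine ⟨fun ω => if h : ∃ j, e (π ω) j = ω then h.choose else π ω + 1, fun i j => ?_,
    fun ω i hω hne => ?_⟩
  · have h : ∃ j', e (π (e i j)) j' = e i j := ⟨j, by rw [h2]⟩
    beta_reduce
    rw [dif_pos h]
    have := h.choose_spec
    generalize h.choose = j' at this
    rw [h2] at this
    exact h1 i this
  · beta_reduce
    split_ifs with h
    · have := h.choose_spec
      generalize h.choose = j' at this
      rintro rfl
      rw [hω] at this
      exact hne this.symm
    · rw [hω]; exact (by decide : ∀ i : Fin 4, i + 1 ≠ i) i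

theorem main {π : Ω → Fin 4}
    (four : ∀ i, ∃ e : Fin 4 → Ω, Function.Injective e ∧ ∀ j, π (e j) = i) :
    ∃ C : Set (EdPt K π Unit),
      (∀ y : EdPt K π Unit,
        (∀ ε : K, 0 < ε → ∃ x ∈ C, ∀ ω, |x.1.1 ω - y.1.1 ω| < ε) → y ∈ C) ∧
      (∀ φ, IsApt π φ → Convex K (φ ⁻¹' C)) ∧
      (∀ φ, IsApt π φ → ∀ v, ∀ t : K, 0 < t → φ v ∈ C → φ (t • v) ∈ C) ∧
      (∃ x ∈ C, x.1.1 ≠ 0) ∧
      (∀ x ∈ C, ∀ y ∈ C, AreOpp π x y → x.1.1 = 0) ∧
      ∀ c : Fin 4 → K, (∀ i, 0 < c i) → ∃ ε : K, 0 < ε ∧ ∀ z : EdPt K π Unit, z.1.1 ≠ 0 →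
        ∃ y ∈ C, ∃ φ, IsApt π φ ∧ ∃ u v, z = φ u ∧ y = φ v ∧
          ∑ i, c i * u.1 i * v.1 i < 0 ∧
          ε * (∑ i, c i * u.1 i ^ 2) * (∑ i, c i * v.1 i ^ 2) ≤ (∑ i, c i * u.1 i * v.1 i) ^ 2 := by
  choose e he1 he2 using four
  obtain ⟨cls, hc1, hc2⟩ := exists_cls e he1 he2
  obtain ⟨W, p, p2, p3, Wpos, Wcon, Wre, Wsp⟩ := mgame K
  let C : Set (EdPt K π Unit) := {y | ∀ (ρ : Fin 4 → Ω) (lam : Fin 4 → K),
    (∀ i, π (ρ i) = i ∧ ρ i ≠ e i i) → W (fun i => cls (ρ i)) lam →
      0 ≤ ∑ i, lam i * (y.1.1 (e i i) - y.1.1 (ρ i))}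
  let Y : Fin 4 → EdPt K π Unit := fun j =>
    ⟨(fun ω => if ω = e (π ω) j then (if π ω = j then p else 1) else 0, ()), fun ω => by
      dsimp only; split_ifs <;> linarith, fun ω ω' h1 h2 h3 => by
      dsimp only at h2 h3
      by_cases a1 : ω = e (π ω) j
      · by_cases a2 : ω' = e (π ω') j
        · rw [a1, a2, h1]
        · exact absurd (if_neg a2) h3
      · exact absurd (if_neg a1) h2⟩
  have hY : ∀ j ω, (Y j).1.1 ω = if ω = e (π ω) j then (if π ω = j then p else 1) else 0 :=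
    fun _ _ => rfl
  have YC : ∀ j, Y j ∈ C := by
    intro j ρ lam hρ hW
    have h1 := Wcon _ _ hW j
    have h2 : ∀ i, (if i = j then p * lam j else 0) - (if cls (ρ i) = j then lam i else 0) ≤
        lam i * ((Y j).1.1 (e i i) - (Y j).1.1 (ρ i)) := by
      intro i
      have hp := Wpos _ _ hW i
      rw [hY, hY, he2, (hρ i).1]
      by_cases hi : i = j
      · subst hi
        rw [if_pos rfl, if_pos rfl, if_pos rfl, if_neg (hρ i).2,
          if_neg (hc2 _ _ (hρ i).1 (hρ i).2)]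
        apply le_of_eq; ring
      · rw [if_neg hi, if_neg hi, if_neg fun h => hi (he1 i h)]
        by_cases h3 : ρ i = e i j
        · rw [if_pos h3, if_pos (by rw [h3, hc1])]; apply le_of_eq; ring
        · rw [if_neg h3]; split_ifs <;> linarith
    refine le_trans ?_ (Finset.sum_le_sum fun i _ => h2 i)
    rw [Finset.sum_sub_distrib, Finset.sum_ite_eq' Finset.univ j]
    simp only [Finset.mem_univ, if_true]
    linarith
  refine ⟨C, fun y hy ρ lam hρ hW => ?_, fun φ hφ => ?_, fun φ hφ v t ht hv ρ lam hρ hW => ?_,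
    ⟨Y 0, YC 0, fun h => ?_⟩, ?_, fun c hc => ?_⟩
  · by_contra hneg
    push Not at hneg
    have hS : 0 < ∑ i, lam i := Finset.sum_pos (fun i _ => Wpos _ _ hW i) Finset.univ_nonempty
    obtain ⟨x, hx, hε⟩ := hy (-(∑ i, lam i * (y.1.1 (e i i) - y.1.1 (ρ i))) / (4 * ∑ i, lam i))
      (div_pos (by linarith) (by linarith))
    set ε := -(∑ i, lam i * (y.1.1 (e i i) - y.1.1 (ρ i))) / (4 * ∑ i, lam i) with hεd
    have h1 := hx ρ lam hρ hW
    have h2 : ∑ i, lam i * (x.1.1 (e i i) - x.1.1 (ρ i)) ≤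
        ∑ i, (lam i * (y.1.1 (e i i) - y.1.1 (ρ i)) + 2 * ε * lam i) := by
      apply Finset.sum_le_sum
      intro i _
      have a1 := abs_lt.1 (hε (e i i))
      have a2 := abs_lt.1 (hε (ρ i))
      nlinarith [Wpos _ _ hW i]
    rw [Finset.sum_add_distrib, ← Finset.mul_sum] at h2
    have h3 : ε * (4 * ∑ i, lam i) = -(∑ i, lam i * (y.1.1 (e i i) - y.1.1 (ρ i))) := by
      rw [hεd]; field_simp
    nlinarith
  · obtain ⟨a, b, hab, hv⟩ := apt_val hφ
    intro v hv1 v' hv2 α β hα hβ _ ρ lam hρ hW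
    have hr : ∀ i, π (rs (a i) (b i) (e i i) (ρ i)) = i ∧ rs (a i) (b i) (e i i) (ρ i) ≠ e i i :=
      fun i => rs_ok (hab i).1 (hab i).2.1 (hab i).2.2 (hρ i).1 (Or.inl (hρ i).2)
    obtain ⟨lam', h1, h2⟩ := Wre _ _ hW (fun i => cls (rs (a i) (b i) (e i i) (ρ i)))
      fun i => hc2 _ _ (hr i).1 (hr i).2
    have k1 := hv1 _ lam' hr h1
    have k2 := hv2 _ lam' hr h1
    have k3 := add_nonneg (mul_nonneg hα k1) (mul_nonneg hβ k2)
    rw [Finset.mul_sum, Finset.mul_sum, ← Finset.sum_add_distrib] at k3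
    refine k3.trans (Finset.sum_le_sum fun i _ => ?_)
    rw [hv _ i _ (he2 i i), hv _ i _ (hr i).1, hv _ i _ (he2 i i), hv _ i _ (hr i).1,
      hv _ i _ (he2 i i), hv _ i _ (hρ i).1]
    have hp := Wpos _ _ h1 i
    have t1 := T_concave (s := e i i) (ρ := ρ i) (t := v.1 i) (t' := v'.1 i) (hab i).2.2 hα hβ
    have t2 := T_relabel (a := a i) (b := b i) (t := α * v.1 i + β * v'.1 i) (hρ i).2 hp (h2 i).1
      fun h => (h2 i).2 (by beta_reduce; rw [h])
    have : (α • v + β • v').1 i = α * v.1 i + β * v'.1 i := rfl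
    rw [this]
    nlinarith [mul_le_mul_of_nonneg_left t1 hp.le]
  · obtain ⟨a, b, hab, hv'⟩ := apt_val hφ
    have k := mul_nonneg ht.le (hv ρ lam hρ hW)
    rw [Finset.mul_sum] at k
    refine k.trans (le_of_eq (Finset.sum_congr rfl fun i _ => ?_))
    rw [hv' _ i _ (he2 i i), hv' _ i _ (hρ i).1, hv' _ i _ (he2 i i), hv' _ i _ (hρ i).1]
    have : (t • v).1 i = t * v.1 i := rfl
    rw [this, gv_smul ht, gv_smul ht]; ring
  · have := congrFun h (e 0 0)
    rw [hY, he2] at this
    simp at this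
    linarith
  · rintro x hx y hy ⟨φ, hφ, v, rfl, rfl⟩
    obtain ⟨a, b, hab, hv⟩ := apt_val hφ
    have hr : ∀ i, π (rs (a i) (b i) (e i i) (a i)) = i ∧ rs (a i) (b i) (e i i) (a i) ≠ e i i :=
      fun i => rs_ok (hab i).1 (hab i).2.1 (hab i).2.2 (hab i).1 (Or.inr rfl)
    let T : Fin 4 → K → K := fun i t =>
      gv (a i) (b i) (e i i) t - gv (a i) (b i) (rs (a i) (b i) (e i i) (a i)) t
    have hT : ∀ i t, T i t + T i (-t) ≤ 0 ∧ (T i t = 0 → T i (-t) = 0 → t = 0) :=
      fun i t => T_opp (hab i).2.2 t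
    have k : ∀ lam, W (fun i => cls (rs (a i) (b i) (e i i) (a i))) lam →
        ∑ i, lam i * T i (v.1 i) = 0 ∧ ∑ i, lam i * T i (-v.1 i) = 0 := by
      intro lam hW
      have k1 := hx _ lam hr hW
      have k2 := hy _ lam hr hW
      have e1 : ∀ w, ∑ i, lam i * ((φ w).1.1 (e i i) - (φ w).1.1 (rs (a i) (b i) (e i i) (a i))) =
          ∑ i, lam i * T i (w.1 i) := fun w => Finset.sum_congr rfl fun i _ => by
        rw [hv _ i _ (he2 i i), hv _ i _ (hr i).1]
      rw [e1] at k1 k2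
      have k3 : ∑ i, lam i * T i (v.1 i) + ∑ i, lam i * T i (-v.1 i) ≤ 0 := by
        rw [← Finset.sum_add_distrib]
        apply Finset.sum_nonpos
        intro i _
        nlinarith [Wpos _ _ hW i, (hT i (v.1 i)).1]
      have k4 : 0 ≤ ∑ i, lam i * T i (-v.1 i) := k2
      constructor <;> linarith
    have hv0 : ∀ j, v.1 j = 0 := by
      intro j
      obtain ⟨lam, η, hη, w1, w2⟩ := Wsp (fun i => cls (rs (a i) (b i) (e i i) (a i)))
        (fun i => hc2 _ _ (hr i).1 (hr i).2) j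
      have a1 := k _ w1
      have a2 := k _ w2
      simp only [add_mul, Finset.sum_add_distrib, ite_mul, zero_mul, Finset.sum_ite_eq',
        Finset.mem_univ, if_true, a1.1, a1.2, zero_add] at a2
      exact (hT j _).2 ((mul_eq_zero.1 a2.1).resolve_left hη.ne')
        ((mul_eq_zero.1 a2.2).resolve_left hη.ne')
    funext ω
    rw [hv v _ ω rfl, hv0]
    simp [gv]
  · have hc1' : 0 < ∑ i, 1 / c i :=
      Finset.sum_pos (fun i _ => one_div_pos.2 (hc i)) Finset.univ_nonempty
    have hc2' : 0 < ∑ i, c i := Finset.sum_pos (fun i _ => hc i) Finset.univ_nonempty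
    have hγ : 0 < (3 - p) / 4 := by linarith
    refine ⟨((3 - p) / 4) ^ 2 / ((∑ i, 1 / c i) * (9 * ∑ i, c i)), by positivity, fun z hz => ?_⟩
    have hr : ∀ i, ∃ r, π r = i ∧ ∀ ω, π ω = i → ω ≠ r → z.1.1 ω = 0 := by
      intro i
      by_cases h : ∃ r, π r = i ∧ z.1.1 r ≠ 0
      · obtain ⟨r, h1, h2⟩ := h
        refine ⟨r, h1, fun ω h3 h4 => ?_⟩
        by_contra h5
        exact h4 (z.2.2 _ _ (h3.trans h1.symm) h5 h2)
      · push Not at h
        exact ⟨e i i, he2 i i, fun ω h3 _ => h ω h3⟩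
    choose r hr1 hr2 using hr
    have s0 : ∀ i, 0 ≤ z.1.1 (r i) := fun i => z.2.1 _
    let P : Fin 4 → Fin 4 → K := fun i j => if i = j then p else 1
    let V : Fin 4 → Fin 4 → K := fun j i => if r i = e i j then P i j else -P i j
    have hA : 0 < ∑ i, c i * z.1.1 (r i) := by
      obtain ⟨ω, hω⟩ := Function.ne_iff.1 hz
      have h1 : ω = r (π ω) := by
        by_contra h; exact hω (hr2 _ ω rfl h)
      apply Finset.sum_pos' (fun i _ => mul_nonneg (hc i).le (s0 i))
      refine ⟨π ω, Finset.mem_univ _, mul_pos (hc _) ?_⟩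
      rw [← h1]; exact lt_of_le_of_ne (z.2.1 ω) (Ne.symm hω)
    have hV : ∀ i, ∑ j, V j i ≤ p - 3 := by
      intro i
      have h1 : ∑ j, P i j = p + 3 := by
        simp only [P, Fin.sum_univ_four]
        fin_cases i <;> simp <;> ring
      by_cases h : ∃ j, r i = e i j
      · obtain ⟨j0, h0⟩ := h
        have h2 : ∀ j, V j i = (if j = j0 then 2 * P i j0 else 0) - P i j := by
          intro j
          simp only [V]
          by_cases hj : j = j0
          · subst hj; rw [if_pos h0, if_pos rfl]; ring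
          · rw [if_neg hj, if_neg fun h => hj (he1 i (h.symm.trans h0))]; ring
        simp only [h2, Finset.sum_sub_distrib, Finset.sum_ite_eq', Finset.mem_univ, if_true, h1]
        simp only [P]
        split_ifs <;> linarith
      · push Not at h
        simp only [V, if_neg (h _), Finset.sum_neg_distrib, h1]
        linarith
    obtain ⟨j, -, hj⟩ := Finset.exists_le_of_sum_le (s := Finset.univ) Finset.univ_nonempty
      (f := fun j => ∑ i, c i * z.1.1 (r i) * V j i)
      (g := fun _ => -((3 - p) / 4 * ∑ i, c i * z.1.1 (r i))) (by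
        rw [Finset.sum_comm]
        calc _ ≤ ∑ i, c i * z.1.1 (r i) * (p - 3) := Finset.sum_le_sum fun i _ => by
              rw [← Finset.mul_sum]
              exact mul_le_mul_of_nonneg_left (hV i) (mul_nonneg (hc i).le (s0 i))
          _ = _ := by rw [← Finset.sum_mul]; simp; ring)
    have hP : ∀ i, 0 < P i j ∧ P i j ≤ 3 := fun i => by
      simp only [P]; split_ifs <;> constructor <;> linarith
    have hne : ∀ i, e i j ≠ e i (j + 1) := fun i h => by
      have := he1 i h; revert this; generalize j = j; revert j; decide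
    obtain ⟨φ, hφ, hv⟩ := exists_apt (K := K) (π := π) r
      (fun i => if r i = e i j then e i (j + 1) else e i j) fun i => by
        refine ⟨hr1 i, ?_, ?_⟩
        · beta_reduce; split_ifs <;> exact he2 _ _
        · beta_reduce; split_ifs with h
          · rw [h]; exact hne i
          · exact h
    refine ⟨Y j, YC j, φ, hφ, (fun i => z.1.1 (r i), ()), (V j, ()), ?_, ?_, ?_, ?_⟩
    · apply Subtype.ext
      refine Prod.ext (funext fun ω => ?_) (Subsingleton.elim _ _)
      rw [hv]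
      unfold gv
      split_ifs with h1 h2 h3 h4 h5
      · rw [max_eq_left (s0 _), ← h1]
      all_goals rw [hr2 _ ω rfl h1]
      all_goals exact (max_eq_right (neg_nonpos.2 (s0 _))).symm
    · apply Subtype.ext
      refine Prod.ext (funext fun ω => ?_) (Subsingleton.elim _ _)
      rw [hv, hY]
      have hp := hP (π ω)
      simp only [gv, V]
      by_cases h1 : r (π ω) = e (π ω) j
      · simp only [if_pos h1]
        by_cases h2 : ω = r (π ω)
        · rw [if_pos h2, if_pos (h2.trans h1), max_eq_left hp.1.le]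
        · rw [if_neg h2, if_neg fun h => h2 (h.trans h1.symm), max_eq_right (by linarith)]
          simp
      · simp only [if_neg h1]
        by_cases h2 : ω = r (π ω)
        · rw [if_pos h2, if_neg fun h => h1 (h2.symm.trans h), max_eq_right (by linarith)]
        · rw [if_neg h2, neg_neg, max_eq_left hp.1.le]
    · exact lt_of_le_of_lt hj (neg_neg_of_pos (mul_pos hγ hA))
    · have b1 : ∑ i, c i * z.1.1 (r i) ^ 2 ≤ (∑ i, 1 / c i) * (∑ i, c i * z.1.1 (r i)) ^ 2 := by
        rw [Finset.sum_mul]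
        apply Finset.sum_le_sum
        intro i _
        have h1 : c i * z.1.1 (r i) ≤ ∑ i, c i * z.1.1 (r i) :=
          Finset.single_le_sum (f := fun i => c i * z.1.1 (r i))
            (fun i _ => mul_nonneg (hc i).le (s0 i)) (Finset.mem_univ i)
        have h2 := pow_le_pow_left₀ (mul_nonneg (hc i).le (s0 i)) h1 2
        have h3 : c i * z.1.1 (r i) ^ 2 = 1 / c i * (c i * z.1.1 (r i)) ^ 2 := by
          have := (hc i).ne'; field_simp
        rw [h3]
        exact mul_le_mul_of_nonneg_left h2 (one_div_pos.2 (hc i)).le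
      have b2 : ∑ i, c i * V j i ^ 2 ≤ 9 * ∑ i, c i := by
        rw [Finset.mul_sum]
        apply Finset.sum_le_sum
        intro i _
        have : V j i ^ 2 ≤ 9 := by
          simp only [V]; split_ifs <;> nlinarith [hP i]
        nlinarith [hc i]
      have b3 : ((3 - p) / 4 * ∑ i, c i * z.1.1 (r i)) ^ 2 ≤ (∑ i, c i * z.1.1 (r i) * V j i) ^ 2 := by
        have := mul_pos hγ hA
        nlinarith
      refine le_trans ?_ b3
      have b4 : 0 ≤ ∑ i, c i * V j i ^ 2 :=
        Finset.sum_nonneg fun i _ => mul_nonneg (hc i).le (sq_nonneg _)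
      calc _ ≤ ((3 - p) / 4) ^ 2 / ((∑ i, 1 / c i) * (9 * ∑ i, c i)) *
            ((∑ i, 1 / c i) * (∑ i, c i * z.1.1 (r i)) ^ 2) * (9 * ∑ i, c i) := by
            apply mul_le_mul _ b2 b4 (by positivity)
            exact mul_le_mul_of_nonneg_left b1 (by positivity)
        _ = _ := by field_simp

end Pool.Agent.P.MP_6990a0_al.KL
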