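import Pool.Agent.P.MP_6990a0_al.Inf
import Pool.Agent.P.MP_6990a0_al.Defs

namespace Pool.Agent.P.MP_6990a0_al

open scoped Classical

set_option linter.unusedSectionVars false

variable {K : Type*} [Field K] [LinearOrder K] [IsStrictOrderedRing K] {Ω ι Z : Type*}
  [AddCommGroup Z] [Module K Z] {π : Ω → ι}

def Thick (π : Ω → ι) : Prop :=
  ∀ i, ∃ a b c, π a = i ∧ π b = i ∧ π c = i ∧ a ≠ b ∧ a ≠ c ∧ b ≠ c

def Pr (π : Ω → ι) (a b : ι → Ω) : Prop := ∀ i, π (a i) = i ∧ π (b i) = i ∧ a i ≠ b i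

def Ch (π : Ω → ι) (a b : ι → Ω) (φ : (ι → K) × Z → EdPt K π Z) : Prop :=
  ∀ v, (φ v).1.2 = v.2 ∧ ∀ i, (φ v).1.1 (a i) = max (v.1 i) 0 ∧
      (φ v).1.1 (b i) = max (-v.1 i) 0 ∧ ∀ ω, π ω = i → ω ≠ a i → ω ≠ b i → (φ v).1.1 ω = 0

def In (π : Ω → ι) (a b : ι → Ω) (f : Ω → K) : Prop :=
  ∀ ω, f ω ≠ 0 → ω = a (π ω) ∨ ω = b (π ω)

theorem EdPt.valid (x : EdPt K π Z) : Valid π x.1.1 := x.2

noncomputable def padd (x y : EdPt K π Z) : EdPt K π Z :=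
  ⟨(pls π x.1.1 y.1.1, x.1.2 + y.1.2), x.valid.add y.valid⟩

noncomputable def psm (t : K) (ht : 0 ≤ t) (x : EdPt K π Z) : EdPt K π Z :=
  ⟨(t • x.1.1, t • x.1.2), x.valid.smul ht⟩

variable {a b : ι → Ω} {φ : (ι → K) × Z → EdPt K π Z}

theorem exists_ch (h : Pr π a b) : ∃ φ : (ι → K) × Z → EdPt K π Z, Ch π a b φ := by
  have adm : ∀ v : ι → K, Adm π fun ω => if ω = a (π ω) then v (π ω) else
      if ω = b (π ω) then -v (π ω) else -|v (π ω)| := by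
    intro v ω ω' h1 h2
    have := le_abs_self (v (π ω))
    have := neg_abs_le (v (π ω))
    have := abs_nonneg (v (π ω))
    simp only [← h1]
    split_ifs with c1 c2 c3 c4 c5 c6 <;>
      first | linarith | exact absurd (c1.trans c2.symm) h2 | exact absurd (c4.trans c6.symm) h2
  refine ⟨fun v => ⟨(bb _, v.2), (adm v.1).valid⟩, fun v => ⟨rfl, fun i => ⟨?_, ?_, ?_⟩⟩⟩
  · simp [bb, (h i).1]
  · simp [bb, (h i).2.1, (h i).2.2.symm]
  · rintro ω rfl h1 h2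
    simp [bb, h1, h2]

theorem Ch.inn (h : Ch π a b φ) (v : (ι → K) × Z) : In π a b (φ v).1.1 := by
  intro ω h1
  by_contra h2
  push Not at h2
  exact h1 (((h v).2 _).2.2 ω rfl h2.1 h2.2)

theorem Ch.hh_eq (hp : Pr π a b) (h : Ch π a b φ) (v : (ι → K) × Z) (i : ι) :
    hh π (φ v).1.1 (a i) = v.1 i := by
  obtain ⟨h1, h2, -⟩ := (h v).2 i
  have vv := (φ v).valid
  rcases lt_trichotomy (v.1 i) 0 with h3 | h3 | h3
  · rw [max_eq_right h3.le] at h1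
    rw [max_eq_left (by linarith)] at h2
    have : (φ v).1.1 (b i) ≠ 0 := by rw [h2]; linarith
    rw [hh_zero h1, (hp i).1, ← (hp i).2.1, vv.nrm_eq this, h2, (hp i).2.1, neg_neg]
  · rw [h3, hh_fib_zero]
    intro ω h4
    rw [(hp i).1] at h4
    by_contra h5
    rcases h.inn v ω h5 with h6 | h6
    · rw [h6, h4, h1, h3] at h5; simp at h5
    · rw [h6, h4, h2, h3] at h5; simp at h5
  · rw [max_eq_left h3.le] at h1
    rw [vv.hh_self (by rw [h1]; exact h3.ne'), h1]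

theorem In.hh_neg {f : Ω → K} (hp : Pr π a b) (hf : Valid π f) (h : In π a b f) (i : ι) :
    hh π f (b i) = -hh π f (a i) := by
  rcases fib_cases (π := π) f i with h1 | ⟨c, hc, h1⟩
  · rw [hh_fib_zero, hh_fib_zero, neg_zero]
    · intro ω h2; exact h1 ω (h2.trans (hp i).1)
    · intro ω h2; exact h1 ω (h2.trans (hp i).2.1)
  · have e := (hp i).1.trans (hp i).2.1.symm
    rcases h c h1 with h2 | h2
    · rw [hc] at h2; rw [h2] at h1
      rw [hf.hh_self h1, hh_zero (hf.zero_of_ne h1 e.symm (hp i).2.2.symm), ← e, hf.nrm_eq h1]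
    · rw [hc] at h2; rw [h2] at h1
      rw [hf.hh_self h1, hh_zero (hf.zero_of_ne h1 e (hp i).2.2), e, hf.nrm_eq h1, neg_neg]

theorem Ch.eq_of (hp : Pr π a b) (h : Ch π a b φ) {x : EdPt K π Z} (hx : In π a b x.1.1)
    {v : (ι → K) × Z} (h1 : ∀ i, hh π x.1.1 (a i) = v.1 i) (h2 : x.1.2 = v.2) : φ v = x := by
  refine Subtype.ext (Prod.ext ?_ ((h v).1.trans h2.symm))
  funext ω
  obtain ⟨e1, e2, e3⟩ := (h v).2 (π ω)
  have k := fun ω => (congrFun x.valid.bb_hh ω).symm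
  by_cases h3 : ω = a (π ω)
  · rw [h3, e1, k, ← h1]; rfl
  · by_cases h4 : ω = b (π ω)
    · rw [h4, e2, k, ← h1, ← hx.hh_neg hp x.valid]; rfl
    · rw [e3 ω rfl h3 h4]
      by_contra h5
      rcases hx ω (Ne.symm h5) with h6 | h6
      · exact h3 h6
      · exact h4 h6

theorem Ch.mem_range (hp : Pr π a b) (h : Ch π a b φ) {x : EdPt K π Z} :
    x ∈ Set.range φ ↔ In π a b x.1.1 :=
  ⟨fun ⟨v, hv⟩ => hv ▸ h.inn v,
    fun hx => ⟨(fun i => hh π x.1.1 (a i), x.1.2), h.eq_of hp hx (fun _ => rfl) rfl⟩⟩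

theorem IsApt.injective (h : IsApt π φ) : Function.Injective φ := by
  obtain ⟨a, b, hp, h⟩ := h
  intro v w hvw
  refine Prod.ext (funext fun i => ?_) ?_
  · rw [← Ch.hh_eq hp h v, ← Ch.hh_eq hp h w, hvw]
  · rw [← (h v).1, ← (h w).1, hvw]

theorem IsApt.add (h : IsApt π φ) (v w : (ι → K) × Z) : φ (v + w) = padd (φ v) (φ w) := by
  obtain ⟨a, b, hp, h⟩ := h
  refine Ch.eq_of hp h (fun ω h1 => ?_) (fun i => ?_) ?_
  · rcases (φ v).valid.add_supp (φ w).valid h1 with h2 | h2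
    · exact Ch.inn h v ω h2
    · exact Ch.inn h w ω h2
  · change hh π (pls π _ _) _ = _
    rw [(φ v).valid.hh_add_eq (φ w).valid, Ch.hh_eq hp h, Ch.hh_eq hp h]
    · rfl
    · intro c d hc hd h1 h2 h3 h4
      rw [(hp i).1] at hc hd
      rcases Ch.inn h v c h3 with h5 | h5
      · exact absurd (hc ▸ h5) h1
      rcases Ch.inn h w d h4 with h6 | h6
      · exact absurd (hd ▸ h6) h2
      rw [h5, h6, hc, hd]
  · change (φ v).1.2 + (φ w).1.2 = _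
    rw [(h v).1, (h w).1]; rfl

theorem IsApt.smul (h : IsApt π φ) {t : K} (ht : 0 ≤ t) (v : (ι → K) × Z) :
    φ (t • v) = psm t ht (φ v) := by
  obtain ⟨a, b, hp, h⟩ := h
  refine Ch.eq_of hp h (fun ω h1 => Ch.inn h v ω fun h2 => h1 ?_) (fun i => ?_) ?_
  · change t * _ = 0
    rw [h2, mul_zero]
  · change hh π (t • _) _ = _
    rw [(φ v).valid.hh_smul, Pi.smul_apply, Ch.hh_eq hp h]; rfl
  · change t • (φ v).1.2 = _
    rw [(h v).1]; rfl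

theorem IsApt.zero (h : IsApt π φ) : (φ 0).1 = 0 := by
  have := h.smul le_rfl 0
  rw [smul_zero] at this
  rw [this]
  simp [psm]

theorem Thick.third (h : Thick π) (i : ι) (p q : Ω) : ∃ c, π c = i ∧ c ≠ p ∧ c ≠ q := by
  obtain ⟨a, b, c, ha, hb, hc, h1, h2, h3⟩ := h i
  by_contra h4
  push Not at h4
  by_cases e1 : a = p
  · exact h3 ((h4 b hb fun e => h1 (e1.trans e.symm)).trans
      (h4 c hc fun e => h2 (e1.trans e.symm)).symm)
  · by_cases e2 : b = p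
    · exact h2 ((h4 a ha e1).trans (h4 c hc fun e => h3 (e2.trans e.symm)).symm)
    · exact h1 ((h4 a ha e1).trans (h4 b hb e2).symm)

theorem Thick.ray (h : Thick π) {f : Ω → K} (hf : Valid π f) (i : ι) (ω : Ω) :
    ∃ c, π c = i ∧ (∀ ω', π ω' = i → f ω' ≠ 0 → ω' = c) ∧ (f ω = 0 → c ≠ ω) := by
  rcases fib_cases (π := π) f i with h1 | ⟨c, hc, h1⟩
  · obtain ⟨c, hc, h2, -⟩ := h.third i ω ω
    exact ⟨c, hc, fun ω' h3 h4 => absurd (h1 ω' h3) h4, fun _ => h2⟩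
  · exact ⟨c, hc, fun ω' h3 h4 => hf.2 _ _ (h3.trans hc.symm) h4 h1, fun h2 h3 => h1 (h3 ▸ h2)⟩

theorem Thick.common (h : Thick π) (x y : EdPt K π Z) :
    ∃ φ : (ι → K) × Z → EdPt K π Z, IsApt π φ ∧ ∃ v w, x = φ v ∧ y = φ w := by
  have : ∀ i, ∃ a b, (π a = i ∧ π b = i ∧ a ≠ b) ∧ ∀ ω, π ω = i →
      (x.1.1 ω ≠ 0 ∨ y.1.1 ω ≠ 0) → ω = a ∨ ω = b := by
    intro i
    obtain ⟨o, -⟩ := h i
    obtain ⟨c, hc, h1, -⟩ := h.ray x.valid i o
    obtain ⟨d, hd, h2, -⟩ := h.ray y.valid i o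
    by_cases h3 : c = d
    · obtain ⟨e, he, h4, -⟩ := h.third i c c
      exact ⟨c, e, ⟨hc, he, h4.symm⟩, fun ω h5 h6 =>
        Or.inl (h6.elim (h1 ω h5) fun h7 => h3 ▸ h2 ω h5 h7)⟩
    · exact ⟨c, d, ⟨hc, hd, h3⟩, fun ω h5 h6 => h6.imp (h1 ω h5) (h2 ω h5)⟩
  choose a b hp hin using this
  obtain ⟨φ, hφ⟩ := exists_ch (K := K) (Z := Z) hp
  obtain ⟨v, hv⟩ := (hφ.mem_range hp (x := x)).2 fun ω h1 => hin _ ω rfl (Or.inl h1)
  obtain ⟨w, hw⟩ := (hφ.mem_range hp (x := y)).2 fun ω h1 => hin _ ω rfl (Or.inr h1)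
  exact ⟨φ, ⟨a, b, hp, hφ⟩, v, w, hv.symm, hw.symm⟩

theorem Thick.opp_iff (h : Thick π) {x y : EdPt K π Z} :
    AreOpp π x y ↔ (padd x y).1 = 0 := by
  constructor
  · rintro ⟨φ, hφ, v, rfl, rfl⟩
    rw [← hφ.add, add_neg_cancel, hφ.zero]
  · intro h1
    obtain ⟨φ, hφ, v, w, rfl, rfl⟩ := h.common x y
    rw [← hφ.add, ← hφ.zero] at h1
    have := hφ.injective (Subtype.ext h1)
    exact ⟨φ, hφ, v, rfl, by rw [eq_neg_of_add_eq_zero_right this]⟩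

variable {κ : EdPt K π Z → EdPt K π Z}

theorem AptLinear.padd (h : Thick π) (hκ : AptLinear π κ) (x y : EdPt K π Z) :
    κ (padd x y) = padd (κ x) (κ y) := by
  obtain ⟨φ, hφ, v, w, rfl, rfl⟩ := h.common x y
  obtain ⟨ψ, hψ, L, hL⟩ := hκ φ hφ
  rw [← hφ.add, hL, hL, hL, map_add, hψ.add]

theorem AptLinear.psm (h : Thick π) (hκ : AptLinear π κ) {t : K} (ht : 0 ≤ t) (x : EdPt K π Z) :
    κ (psm t ht x) = psm t ht (κ x) := by
  obtain ⟨φ, hφ, v, -, rfl, -⟩ := h.common x x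
  obtain ⟨ψ, hψ, L, hL⟩ := hκ φ hφ
  rw [← hφ.smul, hL, hL, map_smul, hψ.smul]

theorem AptLinear.zero (h : Thick π) (hκ : AptLinear π κ) {x : EdPt K π Z} (hx : x.1 = 0) :
    (κ x).1 = 0 := by
  have : x = Pool.Agent.P.MP_6990a0_al.psm 0 le_rfl x := by
    apply Subtype.ext; rw [hx]; simp [Pool.Agent.P.MP_6990a0_al.psm, Prod.ext_iff]
  rw [this, hκ.psm h]
  simp [Pool.Agent.P.MP_6990a0_al.psm]

def ple (x y : EdPt K π Z) : Prop := ∀ ω, x.1.1 ω ≠ 0 → y.1.1 ω ≠ 0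

theorem Thick.ple_iff (h : Thick π) {x y : EdPt K π Z} : ple x y ↔
    ∀ φ : (ι → K) × Z → EdPt K π Z, IsApt π φ → y ∈ Set.range φ → x ∈ Set.range φ := by
  constructor
  · rintro h1 φ ⟨a, b, hp, hφ⟩ hy
    rw [Ch.mem_range hp hφ] at hy ⊢
    exact fun ω h2 => hy ω (h1 ω h2)
  · intro h1 ω h2 h3
    have : ∀ i, ∃ a b, (π a = i ∧ π b = i ∧ a ≠ b) ∧ a ≠ ω ∧ b ≠ ω ∧ ∀ ω', π ω' = i →
        y.1.1 ω' ≠ 0 → ω' = a := by
      intro i
      obtain ⟨c, hc, h4, h5⟩ := h.ray y.valid i ω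
      obtain ⟨d, hd, h6, h7⟩ := h.third i c ω
      exact ⟨c, d, ⟨hc, hd, h6.symm⟩, h5 h3, h7, h4⟩
    choose a b hp ha hb hin using this
    obtain ⟨φ, hφ⟩ := exists_ch (K := K) (Z := Z) hp
    have := h1 φ ⟨a, b, hp, hφ⟩ ((hφ.mem_range hp).2 fun ω' h4 => Or.inl (hin _ ω' rfl h4))
    rcases (hφ.mem_range hp).1 this ω h2 with h4 | h4
    · exact ha _ h4.symm
    · exact hb _ h4.symm

theorem ple_map [Finite ι] [FiniteDimensional K Z] (h : Thick π) (κ : Equiv.Perm (EdPt K π Z))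
    (hκ : AptLinear π κ.symm) {x y : EdPt K π Z} (hxy : ple x y) : ple (κ x) (κ y) := by
  rw [h.ple_iff] at hxy ⊢
  rintro φ hφ ⟨v, hv⟩
  obtain ⟨ψ, hψ, L, hL⟩ := hκ φ hφ
  have inj : Function.Injective L := by
    intro v w h1
    apply hφ.injective
    apply κ.symm.injective
    rw [hL, hL, h1]
  obtain ⟨w, hw⟩ := hxy ψ hψ ⟨L v, by rw [← hL, hv]; simp⟩
  obtain ⟨u, rfl⟩ := LinearMap.injective_iff_surjective.1 inj w
  exact ⟨u, by rw [← hw, ← hL]; simp⟩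

noncomputable def ax (K : Type*) [Field K] [LinearOrder K] [IsStrictOrderedRing K] (π : Ω → ι)
    (Z : Type*) [AddCommGroup Z] (ω : Ω) : EdPt K π Z :=
  ⟨(fun a => if a = ω then 1 else 0, 0), fun a => by
    dsimp only; split_ifs; exacts [zero_le_one, le_rfl], fun a b _ h1 h2 => by simp_all⟩

theorem ax_ne {ω c : Ω} : (ax K π Z ω).1.1 c ≠ 0 ↔ c = ω := by simp [ax]

theorem ax_ple {ω : Ω} {x : EdPt K π Z} : ple (ax K π Z ω) x ↔ x.1.1 ω ≠ 0 :=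
  ⟨fun h => h ω (ax_ne.2 rfl), fun h c hc => by rwa [ax_ne.1 hc]⟩

theorem exists_ray [Finite ι] [FiniteDimensional K Z] (h : Thick π) (κ : Equiv.Perm (EdPt K π Z))
    (hκ : AptLinear π κ) (hκ' : AptLinear π κ.symm) (ω : Ω) :
    ∃ β, ∀ c, (κ (ax K π Z ω)).1.1 c ≠ 0 ↔ c = β := by
  have k : ∀ {x y}, ple (κ x) y → ple x (κ.symm y) := fun h1 => by
    simpa using ple_map h κ.symm hκ h1
  have k' : ∀ {x y}, ple x (κ y) → ple (κ.symm x) y := fun h1 => by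
    simpa using ple_map h κ.symm hκ h1
  let o : EdPt K π Z := ⟨0, valid_zero⟩
  obtain ⟨β, hβ⟩ : ∃ β, (κ (ax K π Z ω)).1.1 β ≠ 0 := by
    by_contra h1
    have : ple (κ (ax K π Z ω)) o := fun c hc => absurd ⟨c, hc⟩ h1
    have := ax_ple.1 (k this)
    rw [hκ'.zero h rfl] at this
    exact this rfl
  refine ⟨β, fun c => ⟨fun hc => ?_, fun hc => hc ▸ hβ⟩⟩
  have h1 := k' (ax_ple.2 hβ)
  obtain ⟨d, hd⟩ : ∃ d, (κ.symm (ax K π Z β)).1.1 d ≠ 0 := by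
    by_contra h2
    have : ple (κ.symm (ax K π Z β)) o := fun c hc => absurd ⟨c, hc⟩ h2
    have := ple_map h κ hκ' this
    rw [Equiv.apply_symm_apply, ax_ple, hκ.zero h rfl] at this
    exact this rfl
  rw [ax_ne.1 (h1 d hd)] at hd
  have := ple_map h κ hκ' (ax_ple.2 hd)
  rw [Equiv.apply_symm_apply] at this
  exact ax_ne.1 (this c hc)

theorem main [Archimedean K] [Finite ι] [FiniteDimensional K Z] (h : Thick π)
    (C : Set (EdPt K π Z))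
    (conv : ∀ φ, IsApt π φ → Convex K (φ ⁻¹' C))
    (cone : ∀ φ, IsApt π φ → ∀ v, ∀ t : K, 0 < t → φ v ∈ C → φ (t • v) ∈ C)
    (noncr : ∃ x ∈ C, ∀ y ∈ C, ¬AreOpp π x y)
    (Γ : Subgroup (Equiv.Perm (EdPt K π Z)))
    (hΓ : ∀ κ ∈ Γ, AptLinear π κ ∧ AptLinear π κ.symm) (stab : ∀ κ ∈ Γ, κ '' C = C) :
    ∃ x ∈ C, x.1 ≠ 0 ∧ (∀ κ ∈ Γ, κ '' facetOf π x = facetOf π x) ∧
      ∀ y ∈ C, ¬AreOpp π x y := by
  have Csm : ∀ x ∈ C, ∀ (t : K) (ht : 0 < t), psm t ht.le x ∈ C := by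
    intro x hx t ht
    obtain ⟨φ, hφ, v, -, rfl, -⟩ := h.common x x
    rw [← hφ.smul]; exact cone φ hφ v t ht hx
  have Cadd : ∀ x ∈ C, ∀ y ∈ C, padd x y ∈ C := by
    intro x hx y hy
    obtain ⟨φ, hφ, v, w, rfl, rfl⟩ := h.common x y
    have h1 := conv φ hφ (show v ∈ φ ⁻¹' C from hx) (show w ∈ φ ⁻¹' C from hy)
      (a := 1 / 2) (b := 1 / 2) (by norm_num) (by norm_num) (by norm_num)
    have h2 := cone φ hφ _ 2 two_pos h1
    rw [← smul_add, smul_smul, mul_one_div_cancel two_ne_zero, one_smul, hφ.add] at h2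
    exact h2
  have Cκ : ∀ κ ∈ Γ, ∀ x ∈ C, κ x ∈ C := fun κ hκ x hx => stab κ hκ ▸ ⟨x, hx, rfl⟩
  choose β hβ using fun (κ : Γ) ω => exists_ray h κ.1 (hΓ _ κ.2).1 (hΓ _ κ.2).2 ω
  have supp : ∀ (κ : Γ) (x : EdPt K π Z) ω, (κ.1 x).1.1 (β κ ω) ≠ 0 ↔ x.1.1 ω ≠ 0 := by
    intro κ x ω
    constructor
    · intro h1
      have h2 : ple (κ.1 (ax K π Z ω)) (κ.1 x) := fun c hc => by rwa [(hβ κ ω c).1 hc]
      have := ple_map h κ.1.symm (hΓ _ κ.2).1 h2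
      simpa [ax_ple] using this
    · intro h1
      exact ple_map h κ.1 (hΓ _ κ.2).2 (ax_ple.2 h1) _ ((hβ κ ω _).2 rfl)
  let _ : MulAction Γ Ω :=
    { smul := β
      one_smul := fun ω => ax_ne.1 ((hβ 1 ω _).2 rfl)
      mul_smul := fun κ κ' ω => by
        refine ((hβ (κ * κ') ω _).1 ?_).symm
        exact (supp κ _ _).2 ((hβ κ' ω _).2 rfl) }
  have sm : ∀ (κ : Γ) (ω : Ω), κ • ω = β κ ω := fun _ _ => rfl
  set s : Γ → Ω → K := fun κ ω => (κ.1 (ax K π Z ω)).1.1 (κ • ω) with hs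
  have fibc : ∀ (κ : Γ) ω ω', π ω = π ω' → π (κ • ω) = π (κ • ω') ∧ s κ ω = s κ ω' := by
    intro κ ω ω' h1
    by_cases h2 : ω = ω'
    · simp [h2]
    have h3 : (padd (ax K π Z ω) (ax K π Z ω')).1 = 0 := by
      refine Prod.ext ?_ (by simp [padd, ax])
      funext c
      by_contra h4
      have v1 := (ax K π Z ω).valid
      have v2 := (ax K π Z ω').valid
      have h5 : π c = π ω := by
        rcases v1.add_supp v2 h4 with h5 | h5
        · rw [ax_ne.1 h5]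
        · rw [ax_ne.1 h5, h1]
      refine h4 (v1.add_fib_zero v2 ?_ h5)
      rw [v1.hh_self (ax_ne.2 rfl), hh_zero (by simp [ax, h2]), h1, v2.nrm_eq (ax_ne.2 rfl)]
      simp [ax]
    have h4 := (hΓ _ κ.2).1.zero h h3
    rw [(hΓ _ κ.2).1.padd h] at h4
    have h5 := congrArg Prod.fst h4
    have p1 := (hβ κ ω _).2 rfl
    obtain ⟨d, hd, -, h6⟩ := (κ.1 (ax K π Z ω)).valid.opp_ray (κ.1 (ax K π Z ω')).valid
      (ω := β κ ω) (fun c _ => congrFun h5 c) p1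
    have h7 : d = β κ ω' := (hβ κ ω' d).1 (by rw [h6]; exact p1)
    rw [h7] at hd h6
    exact ⟨hd.symm, h6.symm⟩
  have form : ∀ (κ : Γ) (x : EdPt K π Z) ω, (κ.1 x).1.1 (κ • ω) = s κ ω * x.1.1 ω := by
    intro κ x ω
    by_cases h1 : x.1.1 ω = 0
    · rw [h1, mul_zero]
      by_contra h2; exact (supp κ x ω).1 h2 h1
    let y : EdPt K π Z := ⟨(fun c => if π c = π ω then 0 else x.1.1 c, x.1.2),
      fun c => by dsimp only; split_ifs; exacts [le_rfl, x.valid.1 c],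
      fun c d h2 h3 h4 => x.valid.2 c d h2 (fun h5 => h3 (by simp [h5])) (fun h5 => h4 (by simp [h5]))⟩
    have e : x = padd (psm _ (x.valid.1 ω) (ax K π Z ω)) y := by
      refine Subtype.ext (Prod.ext ?_ (by simp [padd, psm, ax, y]))
      funext c
      change _ = pls π _ _ c
      by_cases h2 : π c = π ω
      · rw [(psm _ (x.valid.1 ω) (ax K π Z ω)).valid.add_of_fib_zero
          (fun d hd => by simp [y, hd, h2])]
        by_cases h3 : c = ω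
        · simp [psm, ax, h3]
        · simp [psm, ax, h3, x.valid.zero_of_ne h1 h2 h3]
      · rw [add_comm', y.valid.add_of_fib_zero]
        · simp [y, h2]
        · intro d hd
          have : d ≠ ω := fun h3 => h2 (by rw [← hd, h3])
          simp [psm, ax, this]
    conv_lhs => rw [e, (hΓ _ κ.2).1.padd h, (hΓ _ κ.2).1.psm h]
    change pls π _ _ _ = _
    rw [(psm _ _ _).valid.add_of_fib_zero]
    · simp [psm, hs, mul_comm]
    · intro c hc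
      by_contra h2
      have h3 : (κ.1 y).1.1 (β κ (κ⁻¹ • c)) ≠ 0 := by rwa [← sm, smul_inv_smul]
      have h4 := (fibc κ⁻¹ _ _ hc).1
      rw [inv_smul_smul] at h4
      exact (supp κ y _).1 h3 (by simp [y, h4])
  have A : Act π s := ⟨fun κ ω => (κ.1 _).valid.pos ((hβ κ ω _).2 rfl),
    fun κ κ' ω => by rw [← form, ← mul_smul]; rfl,
    fun κ ω ω' h1 => (fibc κ ω ω' h1).1, fun κ ω ω' h1 => (fibc κ ω ω' h1).2⟩
  have actκ : ∀ (κ : Γ) (x : EdPt K π Z), act s κ x.1.1 = (κ.1 x).1.1 := by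
    intro κ x
    funext ω
    rw [← smul_inv_smul κ ω, act_smul, form]
  set U : Set (EdPt K π Z) := {x | x ∈ C ∧ ∀ y ∈ C, (padd x y).1 ≠ 0} with hU
  have good : Good π s ((fun x : EdPt K π Z => x.1.1) '' U) := by
    refine ⟨?_, ?_, ?_, ?_⟩
    · rintro _ ⟨x, -, rfl⟩; exact x.valid
    · rintro _ ⟨x, hx, rfl⟩ _ ⟨c, hc, rfl⟩
      refine ⟨padd x c, ⟨Cadd x hx.1 c hc.1, fun y hy h1 => ?_⟩, rfl⟩
      obtain ⟨N, hN, h2⟩ := lemmaU x.valid c.valid y.valid (x.valid.add c.valid).supp_finite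
        (congrArg Prod.fst h1)
      refine hx.2 _ (Cadd _ (Cadd _ (Cadd _ hc.1 _ (Csm _ (Cadd x hx.1 c hc.1) N hN)) _
        (Csm y hy N hN)) y hy) (Prod.ext h2 ?_)
      have h3 : x.1.2 + c.1.2 + y.1.2 = 0 := congrArg Prod.snd h1
      change x.1.2 + (c.1.2 + N • (x.1.2 + c.1.2) + N • y.1.2 + y.1.2) = 0
      rw [add_assoc c.1.2, ← smul_add, h3, smul_zero, add_zero, ← add_assoc, h3]
    · rintro _ ⟨x, hx, rfl⟩ t ht
      refine ⟨psm t ht.le x, ⟨Csm x hx.1 t ht, fun y hy h1 => ?_⟩, rfl⟩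
      refine hx.2 _ (Csm y hy t⁻¹ (inv_pos.2 ht)) ?_
      obtain ⟨φ, hφ, v, w, rfl, rfl⟩ := h.common x y
      rw [← hφ.smul, ← hφ.add, ← hφ.zero] at h1 ⊢
      have := hφ.injective (Subtype.ext h1)
      rw [eq_neg_of_add_eq_zero_right this, smul_neg, smul_smul, inv_mul_cancel₀ ht.ne', one_smul,
        add_neg_cancel]
    · rintro κ _ ⟨x, hx, rfl⟩
      refine ⟨κ.1 x, ⟨Cκ _ κ.2 x hx.1, fun y hy h1 => ?_⟩, (actκ κ x).symm⟩
      refine hx.2 _ (Cκ _ (Γ.inv_mem κ.2) y hy) ?_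
      have h2 := (hΓ _ κ.2).2.zero h h1
      rw [(hΓ _ κ.2).2.padd h, Equiv.symm_apply_apply] at h2
      exact h2
  let ρ := ConditionallyCompleteLinearOrderedField.inducedOrderRingHom K ℝ
  obtain ⟨x0, hx0, hx0'⟩ := noncr
  obtain ⟨_, ⟨x, hx, rfl⟩, hinv⟩ := infThm (ρ := ρ.toRingHom)
    (ρ.monotone'.strictMono_of_injective ρ.toRingHom.injective) A good
    ⟨_, x0, ⟨hx0, fun y hy h1 => hx0' y hy (h.opp_iff.2 h1)⟩, rfl⟩
  have fac : ∀ κ : Γ, ∀ y ∈ facetOf π x, κ.1 y ∈ facetOf π x := by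
    intro κ y hy ω
    rw [← actκ, A.act_ne_zero', hy]
    exact ⟨fun h1 => by simpa using hinv κ _ h1, hinv κ⁻¹ ω⟩
  refine ⟨x, hx.1, fun h1 => hx.2 x hx.1 ?_, fun κ hκ => ?_, fun y hy h1 =>
    hx.2 y hy (h.opp_iff.1 h1)⟩
  · refine Prod.ext ?_ ?_
    · change pls π x.1.1 x.1.1 = 0
      rw [h1]; exact valid_zero.add_zero
    · change x.1.2 + x.1.2 = 0
      rw [h1]; simp
  · refine Set.Subset.antisymm ?_ fun y hy => ⟨_, fac ⟨κ, hκ⟩⁻¹ y hy, by simp⟩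
    rintro _ ⟨y, hy, rfl⟩
    exact fac ⟨κ, hκ⟩ y hy

end Pool.Agent.P.MP_6990a0_al
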