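import Pool.Agent.P.MP_6990a0_al.KLMain

open Pool.Agent.P.MP_6990a0_al

theorem Pool.Agent.P.MP_6990a0_al.unclaimedRadiusQuestion
    {K : Type*} [Field K] [LinearOrder K] [IsStrictOrderedRing K] {Ω : Type*} (π : Ω → Fin 4)
    (four : ∀ i, ∃ e : Fin 4 → Ω, Function.Injective e ∧ ∀ j, π (e j) = i) :
    ∃ C : Set (EdPt K π Unit),
      (∀ y : EdPt K π Unit,
        (∀ ε : K, 0 < ε → ∃ x ∈ C, ∀ ω, |x.1.1 ω - y.1.1 ω| < ε) → y ∈ C) ∧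
      (∀ φ, IsApt π φ → Convex K (φ ⁻¹' C)) ∧
      (∀ φ, IsApt π φ → ∀ v, ∀ t : K, 0 < t → φ v ∈ C → φ (t • v) ∈ C) ∧
      (∃ x ∈ C, x.1.1 ≠ 0) ∧
      (∀ x ∈ C, ∀ y ∈ C, AreOpp π x y → x.1.1 = 0) ∧
      ∀ c : Fin 4 → K, (∀ i, 0 < c i) → ∃ ε : K, 0 < ε ∧ ∀ z : EdPt K π Unit, z.1.1 ≠ 0 →
        ∃ y ∈ C, ∃ φ, IsApt π φ ∧ ∃ u v, z = φ u ∧ y = φ v ∧
          ∑ i, c i * u.1 i * v.1 i < 0 ∧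
          ε * (∑ i, c i * u.1 i ^ 2) * (∑ i, c i * v.1 i ^ 2) ≤ (∑ i, c i * u.1 i * v.1 i) ^ 2 :=
  KL.main four
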