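import Pool.Agent.P.MP_6990a0_al.VL1

namespace Pool.Agent.P.MP_6990a0_al.VC

open Classical

variable {k V : Type*} [Field k] [AddCommGroup V] [Module k V]

theorem va1_inf {ι : Type*} {b : ι → V} (hb : LinearIndependent k b) (A B : Set ι) :
    Submodule.span k (b '' A) ⊓ Submodule.span k (b '' B) = Submodule.span k (b '' (A ∩ B)) := by
  refine le_antisymm ?_ (le_inf (Submodule.span_mono (Set.image_mono Set.inter_subset_left))
    (Submodule.span_mono (Set.image_mono Set.inter_subset_right)))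
  rintro v ⟨hA, hB⟩
  obtain ⟨l, hl, rfl⟩ := (Finsupp.mem_span_image_iff_linearCombination k).1 hA
  obtain ⟨l', hl', h⟩ := (Finsupp.mem_span_image_iff_linearCombination k).1 hB
  have e : l' = l := hb h
  subst e
  exact (Finsupp.mem_span_image_iff_linearCombination k).2
    ⟨l', (Finsupp.mem_supported _ _).2 (Set.subset_inter hl hl'), rfl⟩

theorem va1_mem {ι : Type*} {b : ι → V} (hb : LinearIndependent k b) (A : Set ι) (i : ι) :
    b i ∈ Submodule.span k (b '' A) ↔ i ∈ A :=
  ⟨fun h => by_contra fun hi => hb.notMem_span_image hi h,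
    fun h => Submodule.subset_span ⟨i, h, rfl⟩⟩

theorem va1_gap {ι : Type*} [Fintype ι] (w : ι → ℝ) (t : ℝ) :
    ∃ ε, 0 < ε ∧ ∀ i, t < w i → t + ε < w i := by
  by_cases h : (Finset.univ.filter fun i => t < w i).Nonempty
  · obtain ⟨i0, hi0, hmin⟩ := Finset.exists_min_image _ w h
    have h1 : t < w i0 := (Finset.mem_filter.1 hi0).2
    refine ⟨(w i0 - t) / 2, by linarith, fun i hi => ?_⟩
    have := hmin i (Finset.mem_filter.2 ⟨Finset.mem_univ _, hi⟩)
    linarith
  · exact ⟨1, one_pos, fun i hi => absurd ⟨i, Finset.mem_filter.2 ⟨Finset.mem_univ _, hi⟩⟩ h⟩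

theorem va1_self {ι : Type*} (b : ι → V) (w : ι → ℝ) (i : ι) : b i ∈ chart k b w (w i) :=
  Submodule.subset_span ⟨i, le_refl (w i), rfl⟩

theorem va1_strict {ι : Type*} (b : ι → V) (w : ι → ℝ) (c : ℝ) :
    Submodule.span k (b '' {i | c < w i}) = ⨆ t, ⨆ _ : c < t, chart k b w t := by
  refine le_antisymm (Submodule.span_le.2 ?_) (iSup_le fun t => iSup_le fun ht => ?_)
  · rintro _ ⟨i, hi, rfl⟩
    exact (le_iSup₂ (f := fun t (_ : c < t) => chart k b w t) (w i) hi) (va1_self b w i)
  · exact Submodule.span_mono (Set.image_mono fun i hi => lt_of_lt_of_le ht hi)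

theorem va1_rel {ι ι' : Type*} (b : ι → V) (w : ι → ℝ) (b' : ι' → V) (w' : ι' → ℝ)
    (h : chart k b w = chart k b' w') (f : ℝ → ℝ)
    (hf : ∀ i j, w i ≤ w' j → f (w i) ≤ f (w' j)) (t : ℝ) :
    chart k b (fun i => f (w i)) t ≤ chart k b' (fun j => f (w' j)) t := by
  refine Submodule.span_le.2 ?_
  rintro _ ⟨i, hi, rfl⟩
  have h1 := va1_self (k := k) b w i
  rw [h] at h1
  exact Submodule.span_mono (Set.image_mono fun j hj => le_trans hi (hf i j hj)) h1

theorem va1_high {ι : Type*} [Fintype ι] (w : ι → ℝ) : ∃ h, {i | h ≤ w i} = ∅ := by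
  obtain ⟨h, hh⟩ := (Set.finite_range w).bddAbove
  refine ⟨h + 1, Set.eq_empty_of_forall_notMem fun i hi => ?_⟩
  have h1 : w i ≤ h := hh ⟨i, rfl⟩
  have h2 : h + 1 ≤ w i := hi
  linarith

theorem chart_filt {ι : Type*} [Fintype ι] (b : ι → V) (w : ι → ℝ) :
    Filt (Submodule.span k (Set.range b)) (chart k b w) := by
  refine ⟨fun s t hst => Submodule.span_mono (Set.image_mono fun i hi => le_trans hst hi),
    fun t => Submodule.span_mono (Set.image_subset_range _ _), ?_, ?_, fun t => ?_⟩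
  · obtain ⟨l, hl⟩ := (Set.finite_range w).bddBelow
    refine ⟨l, ?_⟩
    have e : {i | l ≤ w i} = Set.univ := Set.eq_univ_of_forall fun i => hl ⟨i, rfl⟩
    unfold chart
    rw [e, Set.image_univ]
  · obtain ⟨h, hh⟩ := va1_high w
    refine ⟨h, ?_⟩
    unfold chart
    rw [hh, Set.image_empty, Submodule.span_empty]
  · obtain ⟨ε, hε, h⟩ := va1_gap (fun i => -w i) (-t)
    refine ⟨ε, hε, ?_⟩
    have e : {i | t - ε ≤ w i} = {i | t ≤ w i} := by
      ext i
      constructor
      · intro hi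
        by_contra hn
        have h1 : w i < t := not_le.1 hn
        have h2 := h i (by linarith)
        have h3 : t - ε ≤ w i := hi
        linarith
      · intro hi
        have h3 : t ≤ w i := hi
        show t - ε ≤ w i
        linarith
    unfold chart
    rw [e]

theorem add_chart {ι : Type*} {b : ι → V} (hb : LinearIndependent k b) (w w' : ι → ℝ) :
    add (chart k b w) (chart k b w') = chart k b (w + w') := by
  funext t
  unfold add chart
  simp only [va1_inf hb]
  refine le_antisymm (iSup_le fun a => Submodule.span_mono (Set.image_mono ?_))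
    (Submodule.span_le.2 ?_)
  · rintro i ⟨h1, h2⟩
    have h3 : a ≤ w i := h1
    have h4 : t - a ≤ w' i := h2
    show t ≤ w i + w' i
    linarith
  · rintro _ ⟨i, hi, rfl⟩
    have h3 : t ≤ w i + w' i := hi
    refine (le_iSup (fun a => Submodule.span k (b '' ({i | a ≤ w i} ∩ {i | t - a ≤ w' i}))) (w i))
      (Submodule.subset_span ⟨i, ⟨le_refl (w i), ?_⟩, rfl⟩)
    show t - w i ≤ w' i
    linarith

theorem sc_chart {ι : Type*} (b : ι → V) (w : ι → ℝ) {s : ℝ} (hs : 0 < s) :
    sc s (chart k b w) = chart k b (s • w) := by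
  funext t
  unfold sc chart
  have e : {i | t / s ≤ w i} = {i | t ≤ (s • w) i} := by
    ext i
    show t / s ≤ w i ↔ t ≤ s * w i
    rw [div_le_iff₀ hs, mul_comm]
  rw [e]

theorem bot_chart {ι : Type*} [Fintype ι] {b : ι → V} (hb : LinearIndependent k b) (w : ι → ℝ)
    (i0 : ι) (h0 : ∀ i, w i0 ≤ w i) :
    bot (Submodule.span k (Set.range b)) (chart k b w) =
      Submodule.span k (b '' {i | w i0 < w i}) := by
  unfold bot
  refine le_antisymm (sSup_le ?_) (Submodule.span_le.2 ?_)
  · rintro B ⟨hB, t, rfl⟩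
    have ht : w i0 < t := by
      by_contra hn
      apply hB
      have e : {i | t ≤ w i} = Set.univ :=
        Set.eq_univ_of_forall fun i => le_trans (not_lt.1 hn) (h0 i)
      unfold chart
      rw [e, Set.image_univ]
    exact Submodule.span_mono (Set.image_mono fun i hi => lt_of_lt_of_le ht hi)
  · rintro _ ⟨i, hi, rfl⟩
    have hne : chart k b w (w i) ≠ Submodule.span k (Set.range b) := by
      intro h
      have h1 : b i0 ∈ chart k b w (w i) := by
        rw [h]
        exact Submodule.subset_span ⟨i0, rfl⟩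
      have h2 : w i ≤ w i0 := (va1_mem hb _ i0).1 h1
      have h3 : w i0 < w i := hi
      linarith
    exact (le_sSup (s := {B | B ≠ Submodule.span k (Set.range b) ∧ ∃ t, chart k b w t = B})
      ⟨hne, w i, rfl⟩) (va1_self b w i)

theorem jumps {ι ι' : Type*} [Fintype ι'] {b : ι → V} (hb : LinearIndependent k b) (w : ι → ℝ)
    (b' : ι' → V) (w' : ι' → ℝ) (h : chart k b w = chart k b' w') (i : ι) : ∃ j, w i = w' j := by
  by_contra hn
  obtain ⟨ε, hε, hg⟩ := va1_gap w' (w i)
  have h1 := va1_self (k := k) b w i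
  rw [h] at h1
  have h2 : b i ∈ chart k b' w' (w i + ε) :=
    Submodule.span_mono (Set.image_mono fun j hj =>
      (hg j (lt_of_le_of_ne hj fun e => hn ⟨j, e⟩)).le) h1
  rw [← h] at h2
  have h3 : w i + ε ≤ w i := (va1_mem hb _ i).1 h2
  linarith

theorem strict_eq {ι ι' : Type*} (b : ι → V) (w : ι → ℝ) (b' : ι' → V) (w' : ι' → ℝ)
    (h : chart k b w = chart k b' w') (c : ℝ) :
    Submodule.span k (b '' {i | c < w i}) = Submodule.span k (b' '' {j | c < w' j}) := by
  rw [va1_strict, va1_strict, h]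

theorem relabel {ι ι' : Type*} [Fintype ι] [Fintype ι'] {b : ι → V} (hb : LinearIndependent k b)
    (w : ι → ℝ) {b' : ι' → V} (hb' : LinearIndependent k b') (w' : ι' → ℝ)
    (h : chart k b w = chart k b' w') (f : ℝ → ℝ) (hf : ∀ i j, w i ≤ w j → f (w i) ≤ f (w j)) :
    chart k b (fun i => f (w i)) = chart k b' (fun j => f (w' j)) := by
  funext t
  refine le_antisymm (va1_rel b w b' w' h f (fun i j hij => ?_) t)
    (va1_rel b' w' b w h.symm f (fun j i hij => ?_) t)
  · obtain ⟨i', hi'⟩ := jumps hb' w' b w h.symm j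
    rw [hi'] at hij ⊢
    exact hf _ _ hij
  · obtain ⟨i', hi'⟩ := jumps hb' w' b w h.symm j
    rw [hi'] at hij ⊢
    exact hf _ _ hij

theorem chart_vals {ι : Type*} [Fintype ι] (b : ι → V) (w : ι → ℝ) (f : ℝ → ℝ)
    (hf : ∀ i j, w i ≤ w j → f (w i) ≤ f (w j)) (t : ℝ) :
    ∃ t', chart k b (fun i => f (w i)) t = chart k b w t' := by
  by_cases h : (Finset.univ.filter fun i => t ≤ f (w i)).Nonempty
  · obtain ⟨i0, hi0, hmin⟩ := Finset.exists_min_image _ w h
    refine ⟨w i0, ?_⟩
    have e : {i | t ≤ f (w i)} = {i | w i0 ≤ w i} := by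
      ext i
      exact ⟨fun hi => hmin i (Finset.mem_filter.2 ⟨Finset.mem_univ _, hi⟩),
        fun hi => le_trans (Finset.mem_filter.1 hi0).2 (hf _ _ hi)⟩
    unfold chart
    rw [e]
  · obtain ⟨t', ht'⟩ := va1_high w
    refine ⟨t', ?_⟩
    have e : {i | t ≤ f (w i)} = ∅ := Set.eq_empty_of_forall_notMem fun i hi =>
      h ⟨i, Finset.mem_filter.2 ⟨Finset.mem_univ _, hi⟩⟩
    unfold chart
    rw [e, ht']

theorem rank_mono [FiniteDimensional k V] :
    StrictMono (fun S : Submodule k V => Module.finrank k S) := by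
  exact Submodule.finrank_strictMono

end Pool.Agent.P.MP_6990a0_al.VC
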