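import Pool.Agent.P.MP_6990a0_al.VA1

namespace Pool.Agent.P.MP_6990a0_al.VC

open Classical

variable {k V : Type*} [Field k] [AddCommGroup V] [Module k V]

theorem va2_res {W H : Submodule k V} (hH : H ≤ W) {z : ℝ → Submodule k V} (hz : Filt W z) :
    Filt H (res H z) := by
  obtain ⟨l, hl⟩ := hz.low
  obtain ⟨h, hh⟩ := hz.high
  refine ⟨fun s t hst => inf_le_inf_right _ (hz.anti hst), fun t => inf_le_right,
    ⟨l, ?_⟩, ⟨h, ?_⟩, fun t => ?_⟩
  · simp only [res, hl]
    exact inf_eq_right.2 hH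
  · simp only [res, hh]
    exact bot_inf_eq _
  · obtain ⟨ε, h1, h2⟩ := hz.left t
    exact ⟨ε, h1, by simp only [res, h2]⟩

theorem va2_sub (f : Module.Dual k V) {v : V} (hv : f v ≠ 0) (u : V) :
    u - (f u / f v) • v ∈ LinearMap.ker f := by
  rw [LinearMap.mem_ker, map_sub, map_smul, smul_eq_mul, div_mul_cancel₀ _ hv, sub_self]

theorem va2_step {n : ℕ} {W : Submodule k V} (f : Module.Dual k V) {v : V} (hv : f v ≠ 0)
    {z : ℝ → Submodule k V} (hz : Filt W z) {l : ℝ} (h1 : ∀ t, t ≤ l → v ∈ z t)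
    (h2 : ∀ t, l < t → z t ≤ LinearMap.ker f) {b : Fin n → V} {w : Fin n → ℝ}
    (h : res (W ⊓ LinearMap.ker f) z = chart k b w) :
    z = chart k (Fin.cons v b : Fin (n + 1) → V) (Fin.cons l w : Fin (n + 1) → ℝ) := by
  funext t
  have h3 : z t ⊓ (W ⊓ LinearMap.ker f) = Submodule.span k (b '' {i | t ≤ w i}) := congrFun h t
  have h4 : Submodule.span k (b '' {i | t ≤ w i}) ≤
      chart k (Fin.cons v b : Fin (n + 1) → V) (Fin.cons l w : Fin (n + 1) → ℝ) t := by
    refine Submodule.span_mono ?_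
    rintro _ ⟨i, hi, rfl⟩
    exact ⟨i.succ, by simpa using hi, by simp⟩
  apply le_antisymm
  · intro u hu
    rcases le_or_gt t l with ht | ht
    · have h5 : u - (f u / f v) • v ∈ z t := (z t).sub_mem hu ((z t).smul_mem _ (h1 t ht))
      have h6 := h4 (h3.le ⟨h5, hz.le t h5, va2_sub f hv u⟩)
      have h7 : v ∈ chart k (Fin.cons v b : Fin (n + 1) → V)
          (Fin.cons l w : Fin (n + 1) → ℝ) t :=
        Submodule.subset_span ⟨0, by simpa using ht, by simp⟩
      have h8 := Submodule.add_mem _ h6 (Submodule.smul_mem _ (f u / f v) h7)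
      rwa [sub_add_cancel] at h8
    · exact h4 (h3.le ⟨hu, hz.le t hu, h2 t ht hu⟩)
  · refine Submodule.span_le.2 ?_
    rintro _ ⟨i, hi, rfl⟩
    induction i using Fin.cases with
    | zero => simpa using h1 t (by simpa using hi)
    | succ j =>
      have h5 : b j ∈ z t ⊓ (W ⊓ LinearMap.ker f) :=
        h3 ▸ Submodule.subset_span ⟨j, by simpa using hi, rfl⟩
      simpa using h5.1

theorem va2_level {W : Submodule k V} (f : Module.Dual k V) (hf : ¬ W ≤ LinearMap.ker f)
    {y : ℝ → Submodule k V} (hy : Filt W y) :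
    ∃ (l : ℝ) (v : V), f v ≠ 0 ∧ (∀ t, t ≤ l → v ∈ y t) ∧ ∀ t, l < t → y t ≤ LinearMap.ker f := by
  obtain ⟨l0, hl0⟩ := hy.low
  obtain ⟨h, hh⟩ := hy.high
  have hne : {t | ¬ y t ≤ LinearMap.ker f}.Nonempty := ⟨l0, by simpa [hl0] using hf⟩
  have hbd : BddAbove {t | ¬ y t ≤ LinearMap.ker f} := by
    refine ⟨h, fun t ht => ?_⟩
    by_contra hc
    exact ht ((hy.anti (not_le.1 hc).le).trans (hh ▸ bot_le))
  obtain ⟨ε, h1, h2⟩ := hy.left (sSup {t | ¬ y t ≤ LinearMap.ker f})
  obtain ⟨t, ht, h3⟩ := exists_lt_of_lt_csSup hne (sub_lt_self _ h1)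
  have h4 : ¬ y (sSup {t | ¬ y t ≤ LinearMap.ker f}) ≤ LinearMap.ker f :=
    fun h5 => ht ((hy.anti h3.le).trans (h2 ▸ h5))
  obtain ⟨v, hv, hv'⟩ := SetLike.not_le_iff_exists.1 h4
  refine ⟨_, v, hv', fun s hs => hy.anti hs hv, fun s hs => ?_⟩
  by_contra hc
  exact absurd (le_csSup hbd hc) (not_le.2 hs)

theorem common [FiniteDimensional k V] (n : ℕ) (W : Submodule k V) (hn : Module.finrank k W = n)
    {x y : ℝ → Submodule k V} (hx : Filt W x) (hy : Filt W y) :
    ∃ (b : Fin n → V) (w w' : Fin n → ℝ), LinearIndependent k b ∧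
      Submodule.span k (Set.range b) = W ∧ x = chart k b w ∧ y = chart k b w' := by
  induction n generalizing W x y with
  | zero =>
    have hW : W = ⊥ := Submodule.finrank_eq_zero.1 hn
    have key : ∀ z : ℝ → Submodule k V, Filt W z → z = chart k Fin.elim0 Fin.elim0 := by
      intro z hz
      funext t
      have h1 : z t = ⊥ := le_bot_iff.1 (hW ▸ hz.le t)
      rw [h1, chart, Set.eq_empty_of_isEmpty {i : Fin 0 | t ≤ Fin.elim0 i}]
      simp
    exact ⟨Fin.elim0, Fin.elim0, Fin.elim0, linearIndependent_empty_type, by simp [hW],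
      key x hx, key y hy⟩
  | succ n ih =>
    have hW : W ≠ ⊥ := by
      rintro rfl
      simp at hn
    obtain ⟨l, δ, -, h1, h2, -, h3, h4⟩ := bot_spec _ rank_mono hx hW
    obtain ⟨u, hu, hu'⟩ := SetLike.not_le_iff_exists.1 fun h5 => h3 (le_antisymm h4 h5)
    obtain ⟨f, hf, hf'⟩ := Submodule.exists_dual_map_eq_bot_of_notMem hu' inferInstance
    have hB : bot W x ≤ LinearMap.ker f := LinearMap.le_ker_iff_map.2 hf'
    have hWf : ¬ W ≤ LinearMap.ker f := fun h5 => hf (h5 hu)
    obtain ⟨l', v, hv, h5, h6⟩ := va2_level f hWf hy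
    have hvW : v ∈ W := hy.le l' (h5 l' le_rfl)
    have hsup : Submodule.span k {v} ⊔ (W ⊓ LinearMap.ker f) = W := by
      refine le_antisymm (sup_le ((Submodule.span_singleton_le_iff_mem _ _).2 hvW) inf_le_left)
        fun a ha => ?_
      have h7 : a - (f a / f v) • v ∈ W ⊓ LinearMap.ker f :=
        ⟨W.sub_mem ha (W.smul_mem _ hvW), va2_sub f hv a⟩
      have h8 := Submodule.add_mem_sup
        (Submodule.smul_mem _ (f a / f v) (Submodule.mem_span_singleton_self v)) h7
      rwa [add_sub_cancel] at h8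
    have hfin : Module.finrank k (W ⊓ LinearMap.ker f : Submodule k V) = n := by
      have e1 : Module.finrank k (W ⊓ LinearMap.ker f : Submodule k V) < Module.finrank k W :=
        Submodule.finrank_lt_finrank_of_lt
          (lt_of_le_of_ne inf_le_left fun h7 => hWf (h7 ▸ inf_le_right))
      have e2 := Submodule.finrank_sup_add_finrank_inf_eq (Submodule.span k {v})
        (W ⊓ LinearMap.ker f)
      have e3 : Module.finrank k (Submodule.span k {v}) = 1 :=
        finrank_span_singleton (by rintro rfl; simp at hv)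
      rw [hsup] at e2
      omega
    obtain ⟨b, w, w', hb, hs, e1, e2⟩ :=
      ih _ hfin (va2_res inf_le_left hx) (va2_res inf_le_left hy)
    refine ⟨Fin.cons v b, Fin.cons l w, Fin.cons l' w', ?_, ?_,
      va2_step f hv hx (fun t ht => h1 t ht ▸ hvW) (fun t ht => (h2 t ht).trans hB) e1,
      va2_step f hv hy h5 h6 e2⟩
    · exact hb.finCons (by rw [hs]; exact fun h7 => hv h7.2)
    · rw [Fin.range_cons, Submodule.span_insert, hs, hsup]

theorem common_basis {n n' : ℕ} (b : Module.Basis (Fin n) k V) (b' : Module.Basis (Fin n') k V)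
    (w : Fin n → ℝ) (w' : Fin n' → ℝ) :
    ∃ (a : Module.Basis (Fin n) k V) (u u' : Fin n → ℝ), chart k b w = chart k a u ∧
      chart k b' w' = chart k a u' ∧ (∀ i, ∃ j, u i = w j) ∧ ∀ i, ∃ j, u' i = w' j := by
  have : FiniteDimensional k V := b.finiteDimensional_of_finite
  have hx := chart_filt (k := k) b w
  have hy := chart_filt (k := k) b' w'
  rw [b.span_eq] at hx
  rw [b'.span_eq] at hy
  obtain ⟨a, u, u', ha, hs, e1, e2⟩ := common n ⊤
    (by rw [finrank_top, Module.finrank_eq_card_basis b, Fintype.card_fin]) hx hy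
  refine ⟨Module.Basis.mk ha hs.ge, u, u', ?_, ?_, jumps ha u b w e1.symm,
    jumps ha u' b' w' e2.symm⟩
  · rw [Module.Basis.coe_mk]; exact e1
  · rw [Module.Basis.coe_mk]; exact e2

end Pool.Agent.P.MP_6990a0_al.VC
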