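import Pool.Agent.P.MP_6990a0_al.VA2

namespace Pool.Agent.P.MP_6990a0_al.VC

open Classical

variable {k V : Type*} [Field k] [AddCommGroup V] [Module k V]

theorem ut_span {n : ℕ} (b e : Fin n → V) (s : Fin n → ℝ)
    (h : ∀ i, e i - b i ∈ Submodule.span k (b '' {j | s i < s j})) (A : Set (Fin n))
    (hA : ∀ i ∈ A, ∀ j, s i < s j → j ∈ A) :
    Submodule.span k (e '' A) = Submodule.span k (b '' A) := by
  apply le_antisymm
  · rw [Submodule.span_le]
    rintro _ ⟨i, hi, rfl⟩
    have h1 : e i - b i ∈ Submodule.span k (b '' A) :=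
      Submodule.span_mono (Set.image_mono fun j hj => hA i hi j hj) (h i)
    have h2 : b i ∈ Submodule.span k (b '' A) := Submodule.subset_span ⟨i, hi, rfl⟩
    simpa using Submodule.add_mem _ h1 h2
  · rw [Submodule.span_le]
    rintro _ ⟨i, hi, rfl⟩
    have wf : WellFounded fun j i : Fin n => s i < s j := by
      have : IsTrans (Fin n) fun j i : Fin n => s i < s j := ⟨fun _ _ _ h1 h2 => h2.trans h1⟩
      have : Std.Irrefl fun j i : Fin n => s i < s j := ⟨fun _ => lt_irrefl _⟩
      exact Finite.wellFounded_of_trans_of_irrefl _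
    induction i using wf.induction with
    | _ i ih =>
      have h1 : Submodule.span k (b '' {j | s i < s j}) ≤ Submodule.span k (e '' A) := by
        rw [Submodule.span_le]
        rintro _ ⟨j, hj, rfl⟩
        exact ih j hj (hA i hi j hj)
      have h2 : e i ∈ Submodule.span k (e '' A) := Submodule.subset_span ⟨i, hi, rfl⟩
      simpa using Submodule.sub_mem _ h2 (h1 (h i))

theorem ut_basis {n : ℕ} (b : Module.Basis (Fin n) k V) (e : Fin n → V) (s : Fin n → ℝ)
    (h : ∀ i, e i - b i ∈ Submodule.span k (b '' {j | s i < s j})) :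
    ∃ e' : Module.Basis (Fin n) k V, (e' : Fin n → V) = e := by
  have h1 := ut_span b e s h Set.univ fun _ _ _ _ => Set.mem_univ _
  rw [Set.image_univ, Set.image_univ, b.span_eq] at h1
  exact ⟨basisOfTopLeSpanOfCardEqFinrank e h1.ge (Module.finrank_eq_card_basis b).symm,
    coe_basisOfTopLeSpanOfCardEqFinrank _ _ _⟩

theorem basis_compl {n : ℕ} (b : Module.Basis (Fin n) k V) (A : Set (Fin n)) :
    IsCompl (Submodule.span k (b '' A)) (Submodule.span k (b '' Aᶜ)) := by
  refine ⟨b.linearIndependent.disjoint_span_image disjoint_compl_right, ?_⟩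
  rw [codisjoint_iff, ← Submodule.span_union, ← Set.image_union, Set.union_compl_self,
    Set.image_univ, b.span_eq]

theorem opp_of_compl {n : ℕ} (b e : Module.Basis (Fin n) k V) (l : Fin n → ℝ)
    (h : ∀ c, IsCompl (Submodule.span k (b '' {i | c ≤ l i}))
      (Submodule.span k (e '' {i | l i < c}))) : Opp (chart k b l) (chart k e (-l)) := by
  obtain ⟨a, u, u', h1, h2, -, -⟩ := common_basis b e l (-l)
  have key : ∀ c, IsCompl (Submodule.span k (a '' {j | c ≤ u j}))
      (Submodule.span k (a '' {j | -c < u' j})) := by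
    intro c
    have e1 : Submodule.span k (b '' {i | c ≤ l i}) = Submodule.span k (a '' {j | c ≤ u j}) :=
      congrFun h1 c
    have e2 := strict_eq e (-l) a u' h2 (-c)
    have e3 : {i | -c < (-l) i} = {i | l i < c} := by
      ext i; simp
    rw [e3] at e2
    rw [← e1, ← e2]
    exact h c
  have hu : u' = -u := by
    funext j
    rw [Pi.neg_apply]
    apply le_antisymm
    · by_contra hlt
      have hd := (key (u j)).disjoint
      have m1 : a j ∈ Submodule.span k (a '' {i | u j ≤ u i}) :=
        Submodule.subset_span ⟨j, le_refl (u j), rfl⟩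
      have m2 : a j ∈ Submodule.span k (a '' {i | -u j < u' i}) :=
        Submodule.subset_span ⟨j, not_le.1 hlt, rfl⟩
      exact a.ne_zero j (Submodule.disjoint_def.1 hd _ m1 m2)
    · by_contra hlt
      have hc := (key (-u' j)).codisjoint
      rw [codisjoint_iff, ← Submodule.span_union, ← Set.image_union] at hc
      refine a.linearIndependent.notMem_span_image
        (s := {i | -u' j ≤ u i} ∪ {i | - -u' j < u' i}) (x := j) ?_ (hc ▸ Submodule.mem_top)
      rintro (h3 | h3)
      · exact hlt (by have : -u' j ≤ u j := h3; linarith)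
      · have : - -u' j < u' j := h3
        simp at this
  exact ⟨n, a, u, h1, hu ▸ h2⟩

theorem opp_basis {n n' : ℕ} (b : Module.Basis (Fin n) k V) (s : Fin n → ℝ)
    (a : Module.Basis (Fin n') k V) (w : Fin n' → ℝ) (h : chart k b s = chart k a w) :
    ∃ e : Module.Basis (Fin n) k V,
      (∀ i, e i - b i ∈ Submodule.span k (b '' {j | s i < s j})) ∧
      chart k e (-s) = chart k a (-w) := by
  let e : Fin n → V := fun i => ∑ j, if w j = s i then a.repr (b i) j • a j else 0
  have he : ∀ i, e i - b i ∈ Submodule.span k (b '' {j | s i < s j}) := by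
    intro i
    rw [strict_eq b s a w h (s i)]
    have m1 : b i ∈ chart k b s (s i) := Submodule.subset_span ⟨i, le_refl (s i), rfl⟩
    rw [h] at m1
    have m2 := a.mem_span_image.1 m1
    have e1 : e i - b i = ∑ j, ((if w j = s i then a.repr (b i) j • a j else 0)
        - a.repr (b i) j • a j) := by
      rw [Finset.sum_sub_distrib, a.sum_repr]
    rw [e1]
    refine Submodule.sum_mem _ fun j _ => ?_
    by_cases h1 : w j = s i
    · simp [h1]
    · rw [if_neg h1, zero_sub]
      by_cases h2 : a.repr (b i) j = 0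
      · simp [h2]
      · have h3 : s i ≤ w j := m2 (Finsupp.mem_support_iff.2 h2)
        exact Submodule.neg_mem _ (Submodule.smul_mem _ _
          (Submodule.subset_span ⟨j, lt_of_le_of_ne h3 (Ne.symm h1), rfl⟩))
  obtain ⟨e', he'⟩ := ut_basis b e s he
  refine ⟨e', by rw [he']; exact he, ?_⟩
  funext t
  have hR : Submodule.span k (e' '' {i | t ≤ (-s) i}ᶜ)
      = Submodule.span k (a '' {j | t ≤ (-w) j}ᶜ) := by
    have e1 : {i | t ≤ (-s) i}ᶜ = {i | -t < s i} := by
      ext i; simp [neg_lt]
    have e2 : {j | t ≤ (-w) j}ᶜ = {j | -t < w j} := by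
      ext j; simp [neg_lt]
    rw [e1, e2, he', ut_span b e s he {i | -t < s i} fun i hi j hj => lt_trans hi hj]
    exact strict_eq b s a w h (-t)
  have c1 := basis_compl e' {i | t ≤ (-s) i}
  have c2 := basis_compl a {j | t ≤ (-w) j}
  rw [hR] at c1
  have hle : Submodule.span k (e' '' {i | t ≤ (-s) i})
      ≤ Submodule.span k (a '' {j | t ≤ (-w) j}) := by
    rw [Submodule.span_le, he']
    rintro _ ⟨i, hi, rfl⟩
    refine Submodule.sum_mem _ fun j _ => ?_
    by_cases h1 : w j = s i
    · rw [if_pos h1]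
      refine Submodule.smul_mem _ _ (Submodule.subset_span ⟨j, ?_, rfl⟩)
      have : t ≤ -s i := hi
      change t ≤ -w j
      rwa [h1]
    · rw [if_neg h1]; exact Submodule.zero_mem _
  refine eq_of_le_of_inf_le_of_le_sup (z := Submodule.span k (a '' {j | t ≤ (-w) j}ᶜ)) hle ?_ ?_
  · exact c2.disjoint.le_bot.trans bot_le
  · exact le_top.trans c1.codisjoint.top_le

end Pool.Agent.P.MP_6990a0_al.VC
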