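import Pool.Agent.P.MP_6990a0_al.VD

namespace Pool.Agent.P.MP_6990a0_al.VC

open Classical

variable {α β : Type*}

theorem vc1_ext {M : Type*} [AddCommGroup M] (T T' : Ch α →+ M)
    (h : ∀ l, T (ofL l) = T' (ofL l)) (z : Ch α) : T z = T' z := by
  have : T = T' := FreeAbelianGroup.lift_ext T T' h
  rw [this]

theorem cns_ofL (a : α) (l : List α) : cns a (ofL l) = ofL (a :: l) := by
  simp [cns, ofL]

theorem mp_ofL (f : α → β) (l : List α) : mp f (ofL l) = ofL (l.map f) := by
  simp [mp, ofL]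

theorem bd_ofL (l : List α) : bd (ofL l) = bdL l := by
  simp [bd, ofL]

theorem bd_cns (a : α) (z : Ch α) : bd (cns a z) = z - cns a (bd z) := by
  have := vc1_ext (bd.comp (cns a)) (AddMonoidHom.id _ - (cns a).comp bd) (fun l => by
    simp only [AddMonoidHom.comp_apply, AddMonoidHom.sub_apply, AddMonoidHom.id_apply, cns_ofL,
      bd_ofL, bdL]) z
  simpa using this

theorem vc1_bd_bdL (l : List α) : bd (bdL l) = 0 := by
  induction l with
  | nil => simp [bdL]
  | cons a l ih => rw [bdL, map_sub, bd_cns, ih, bd_ofL]; simp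

theorem bd_bd (z : Ch α) : bd (bd z) = 0 := by
  have := vc1_ext (bd.comp (bd (α := α))) 0 (fun l => by
    simp only [AddMonoidHom.comp_apply, bd_ofL, vc1_bd_bdL, AddMonoidHom.zero_apply]) z
  simpa using this

theorem mp_cns (f : α → β) (a : α) (z : Ch α) : mp f (cns a z) = cns (f a) (mp f z) := by
  have := vc1_ext ((mp f).comp (cns a)) ((cns (f a)).comp (mp f)) (fun l => by
    simp only [AddMonoidHom.comp_apply, cns_ofL, mp_ofL, List.map_cons]) z
  simpa using this

theorem vc1_bdL_map (f : α → β) (l : List α) : bdL (l.map f) = mp f (bdL l) := by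
  induction l with
  | nil => simp [bdL]
  | cons a l ih => rw [List.map_cons, bdL, bdL, map_sub, mp_cns, ih, mp_ofL]

theorem bd_mp (f : α → β) (z : Ch α) : bd (mp f z) = mp f (bd z) := by
  have := vc1_ext (bd.comp (mp f)) ((mp f).comp bd) (fun l => by
    simp only [AddMonoidHom.comp_apply, mp_ofL, bd_ofL, vc1_bdL_map]) z
  simpa using this

theorem mp_mp {γ : Type*} (f : α → β) (g : β → γ) (z : Ch α) :
    mp g (mp f z) = mp (g ∘ f) z := by
  have := vc1_ext ((mp g).comp (mp f)) (mp (g ∘ f)) (fun l => by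
    simp only [AddMonoidHom.comp_apply, mp_ofL, List.map_map]) z
  simpa using this

theorem mp_id (z : Ch α) : mp id z = z := by
  have := vc1_ext (mp (id : α → α)) (AddMonoidHom.id _) (fun l => by
    simp only [mp_ofL, List.map_id, AddMonoidHom.id_apply]) z
  simpa using this

theorem psi_zero (c : List α → β) (l : List α) : psi c 0 (ofL l) = ofL [] := by
  simp [psi, ofL]

theorem psi_succ (c : List α → β) (n : ℕ) (l : List α) :
    psi c (n + 1) (ofL l) = cns (c l) (psi c n (bdL l)) := by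
  rw [psi, ofL, FreeAbelianGroup.lift_apply_of]

theorem vc1_bd_psi_zero (c : List α → β) (z : Ch α) : bd (psi c 0 z) = 0 := by
  have := vc1_ext (bd.comp (psi c 0)) 0 (fun l => by
    simp only [AddMonoidHom.comp_apply, psi_zero, bd_ofL, bdL, AddMonoidHom.zero_apply]) z
  simpa using this

theorem bd_psi (c : List α → β) (n : ℕ) (z : Ch α) : bd (psi c (n + 1) z) = psi c n (bd z) := by
  induction n generalizing z with
  | zero =>
    have := vc1_ext (bd.comp (psi c 1)) ((psi c 0).comp bd) (fun l => by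
      simp only [AddMonoidHom.comp_apply]
      rw [psi_succ c 0 l, bd_cns, vc1_bd_psi_zero, bd_ofL]; simp) z
    simpa using this
  | succ n ih =>
    have := vc1_ext (bd.comp (psi c (n + 1 + 1))) ((psi c (n + 1)).comp bd) (fun l => by
      simp only [AddMonoidHom.comp_apply]
      rw [psi_succ c (n + 1) l, bd_cns, ih, vc1_bd_bdL, bd_ofL]; simp) z
    simpa using this

theorem ofL_mem {P : List α → Prop} {l : List α} (h : P l) : ofL l ∈ Sp P :=
  AddSubgroup.subset_closure ⟨l, h, rfl⟩

theorem Sp_map {M : Type*} [AddCommGroup M] {P : List α → Prop} (T : Ch α →+ M)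
    (Q : AddSubgroup M) (h : ∀ l, P l → T (ofL l) ∈ Q) {z : Ch α} (hz : z ∈ Sp P) : T z ∈ Q := by
  have : Sp P ≤ Q.comap T := by
    refine (AddSubgroup.closure_le _).2 ?_
    rintro _ ⟨l, hl, rfl⟩
    exact h l hl
  exact this hz

theorem Sp_mono {P Q : List α → Prop} (h : ∀ l, P l → Q l) {z : Ch α} (hz : z ∈ Sp P) :
    z ∈ Sp Q :=
  Sp_map (AddMonoidHom.id _) (Sp Q) (fun l hl => ofL_mem (h l hl)) hz

theorem Sp_ext {M : Type*} [AddCommGroup M] {P : List α → Prop} (T T' : Ch α →+ M)
    (h : ∀ l, P l → T (ofL l) = T' (ofL l)) {z : Ch α} (hz : z ∈ Sp P) : T z = T' z := by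
  have := Sp_map (T - T') ⊥ (fun l hl => by
    rw [AddSubgroup.mem_bot, AddMonoidHom.sub_apply, h l hl, sub_self]) hz
  rw [AddSubgroup.mem_bot, AddMonoidHom.sub_apply] at this
  exact sub_eq_zero.1 this

theorem bdL_mem (l : List α) :
    bdL l ∈ Sp (fun s : List α => s.Sublist l ∧ s.length + 1 = l.length) := by
  induction l with
  | nil => exact AddSubgroup.zero_mem _
  | cons a l ih =>
    rw [bdL]
    refine AddSubgroup.sub_mem _ (ofL_mem ⟨List.sublist_cons_self a l, rfl⟩) ?_
    refine Sp_map (cns a) _ (fun s hs => ?_) ih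
    rw [cns_ofL]
    exact ofL_mem ⟨hs.1.cons_cons a, by simp [hs.2]⟩

theorem vc1_psi_mem (c : List α → β) (n : ℕ) :
    ∀ l : List α, l.length = n → psi c n (ofL l) ∈ Sp (Fl c l) := by
  induction n with
  | zero =>
    intro l hl
    rw [psi_zero]
    exact ofL_mem ⟨[], rfl, by simp [hl], by simp, List.Pairwise.nil⟩
  | succ n ih =>
    intro l hl
    rw [psi_succ]
    refine Sp_map ((cns (c l)).comp (psi c n)) _ (fun s hs => ?_) (bdL_mem l)
    have hsn : s.length = n := by have := hs.2; omega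
    rw [AddMonoidHom.comp_apply]
    refine Sp_map (cns (c l)) _ (fun m hm => ?_) (ih s hsn)
    obtain ⟨ss, rfl, h1, h2, h3⟩ := hm
    rw [cns_ofL]
    refine ofL_mem ⟨l :: ss, rfl, by simp [h1, hs.2], ?_, ?_⟩
    · intro t ht
      rcases List.mem_cons.1 ht with rfl | ht
      · refine ⟨List.Sublist.refl _, ?_⟩
        rintro rfl
        simp at hl
      · exact ⟨(h2 t ht).1.trans hs.1, (h2 t ht).2⟩
    · exact List.Pairwise.cons (fun t ht => (h2 t ht).1.trans hs.1) h3

theorem psi_mem (c : List α → β) (l : List α) : psi c l.length (ofL l) ∈ Sp (Fl c l) :=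
  vc1_psi_mem c _ l rfl

theorem psi_nat {α' β' : Type*} (c : List α → β) (c' : List α' → β') (f : α → α') (g : β → β')
    (G : List α → Prop) (hG : ∀ l s, G l → s.Sublist l → G s)
    (h : ∀ l, G l → c' (l.map f) = g (c l)) (n : ℕ) {z : Ch α} (hz : z ∈ Sp G) :
    psi c' n (mp f z) = mp g (psi c n z) := by
  induction n generalizing z with
  | zero =>
    exact Sp_ext ((psi c' 0).comp (mp f)) ((mp g).comp (psi c 0)) (fun l _ => by
      simp only [AddMonoidHom.comp_apply, mp_ofL, psi_zero, List.map_nil]) hz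
  | succ n ih =>
    exact Sp_ext ((psi c' (n + 1)).comp (mp f)) ((mp g).comp (psi c (n + 1))) (fun l hl => by
      simp only [AddMonoidHom.comp_apply]
      rw [mp_ofL, psi_succ, psi_succ, mp_cns, h l hl, vc1_bdL_map,
        ih (Sp_mono (fun s hs => hG l s hl hs.1) (bdL_mem l))]) hz

theorem rho_apply (g : α → α) (p q : ℕ) (z : Ch α) :
    rho g p q z = if q % 2 = 0 then mp g z - z else ∑ i ∈ Finset.range p, mp (g^[i]) z := by
  unfold rho
  split_ifs
  · simp [tau]
  · simp [nrm]

theorem bd_rho (g : α → α) (p q : ℕ) (z : Ch α) : bd (rho g p q z) = rho g p q (bd z) := by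
  rw [rho_apply, rho_apply]
  split_ifs
  · rw [map_sub, bd_mp]
  · rw [map_sum]
    exact Finset.sum_congr rfl fun i _ => bd_mp _ _

end Pool.Agent.P.MP_6990a0_al.VC
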