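import Pool.Agent.P.MP_6990a0_al.VC1

namespace Pool.Agent.P.MP_6990a0_al.VC

open Classical

variable {ι : Type*}

theorem vc2_bary_eq (l : List (ι → ℝ)) :
    bary l = ∑ i : Fin l.length, (l.length : ℝ)⁻¹ • l[i.1] := by
  rw [bary, ← Finset.smul_sum, Fin.sum_univ_getElem]

theorem bary_mem (l : List (ι → ℝ)) (hl : l ≠ []) : bary l ∈ hullL l := by
  have hn : (l.length : ℝ) ≠ 0 := by
    exact_mod_cast (List.length_pos_iff.mpr hl).ne'
  rw [vc2_bary_eq]
  refine (convex_convexHull ℝ _).sum_mem (fun i _ => by positivity) ?_ fun i _ => ?_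
  · simp [hn]
  · exact subset_convexHull ℝ _ (List.getElem_mem i.2)

theorem vc2_vertex [Fintype ι] (s : List (ι → ℝ)) (u : ι → ℝ) (hu : u ∈ s) (d : ℝ)
    (hd : ∀ u ∈ s, ∀ v ∈ s, dist u v ≤ d) :
    dist (bary s) u ≤ (1 - 1 / (s.length : ℝ)) * d := by
  obtain ⟨j, hj, rfl⟩ := List.getElem_of_mem hu
  have hn : (0 : ℝ) < s.length := by
    exact_mod_cast (Nat.zero_le j).trans_lt hj
  have e : bary s - s[j] = (s.length : ℝ)⁻¹ • ∑ i : Fin s.length, (s[i.1] - s[j]) := by
    rw [Finset.sum_sub_distrib, smul_sub, bary, Fin.sum_univ_getElem, Finset.sum_const,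
      Finset.card_univ, Fintype.card_fin, ← Nat.cast_smul_eq_nsmul ℝ, smul_smul,
      inv_mul_cancel₀ hn.ne', one_smul]
  have hsum : ∑ i : Fin s.length, ‖s[i.1] - s[j]‖ ≤ ((s.length : ℝ) - 1) * d := by
    rw [← Finset.add_sum_erase _ _ (Finset.mem_univ (⟨j, hj⟩ : Fin s.length))]
    have h2 : ∑ i ∈ Finset.univ.erase (⟨j, hj⟩ : Fin s.length), ‖s[i.1] - s[j]‖
        ≤ ∑ i ∈ Finset.univ.erase (⟨j, hj⟩ : Fin s.length), d :=
      Finset.sum_le_sum fun i _ => by
        rw [← dist_eq_norm]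
        exact hd _ (List.getElem_mem i.2) _ (List.getElem_mem hj)
    rw [Finset.sum_const, Finset.card_erase_of_mem (Finset.mem_univ _), Finset.card_univ,
      Fintype.card_fin, nsmul_eq_mul, Nat.cast_sub (by omega), Nat.cast_one] at h2
    simpa using h2
  rw [dist_eq_norm, e, norm_smul, norm_inv, Real.norm_natCast]
  calc (s.length : ℝ)⁻¹ * ‖∑ i : Fin s.length, (s[i.1] - s[j])‖
      ≤ (s.length : ℝ)⁻¹ * (((s.length : ℝ) - 1) * d) :=
        mul_le_mul_of_nonneg_left ((norm_sum_le _ _).trans hsum) (by positivity)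
    _ = (1 - 1 / (s.length : ℝ)) * d := by field_simp

theorem bary_dist [Fintype ι] (s s' : List (ι → ℝ)) (h : s'.Sublist s) (hs : s' ≠ []) (N : ℕ)
    (hN : s.length ≤ N) (d : ℝ) (hd : ∀ u ∈ s, ∀ v ∈ s, dist u v ≤ d) :
    dist (bary s) (bary s') ≤ (1 - 1 / (N : ℝ)) * d := by
  obtain ⟨u0, hu0⟩ := List.exists_mem_of_ne_nil s' hs
  have hu1 : u0 ∈ s := h.subset hu0
  have hd0 : 0 ≤ d := dist_nonneg.trans (hd u0 hu1 u0 hu1)
  have hn : (0 : ℝ) < s.length := by
    exact_mod_cast List.length_pos_of_mem hu1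
  have hle : (1 - 1 / (s.length : ℝ)) * d ≤ (1 - 1 / (N : ℝ)) * d := by
    refine mul_le_mul_of_nonneg_right ?_ hd0
    have : 1 / (N : ℝ) ≤ 1 / (s.length : ℝ) :=
      one_div_le_one_div_of_le hn (by exact_mod_cast hN)
    linarith
  have hsub : hullL s' ⊆ Metric.closedBall (bary s) ((1 - 1 / (N : ℝ)) * d) := by
    refine convexHull_min (fun u hu => ?_) (convex_closedBall _ _)
    rw [Metric.mem_closedBall, dist_comm]
    exact (vc2_vertex s u (h.subset hu) d hd).trans hle
  have := hsub (bary_mem s' hs)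
  rwa [Metric.mem_closedBall, dist_comm] at this

theorem vc2_hull {l m s : List (ι → ℝ)} (hm : ∀ u ∈ m, u ∈ hullL l) (h : s.Sublist m)
    (hs : s ≠ []) : bary s ∈ hullL l :=
  convexHull_min (fun u hu => hm u (h.subset hu)) (convex_convexHull ℝ _) (bary_mem s hs)

theorem sdI_hull (r : ℕ) (l : List (ι → ℝ)) :
    sdI l.length r (ofL l) ∈ Sp (fun m => m.length = l.length ∧ ∀ u ∈ m, u ∈ hullL l) := by
  induction r with
  | zero => exact ofL_mem ⟨rfl, fun u hu => subset_convexHull ℝ _ hu⟩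
  | succ r ih =>
    refine Sp_map (psi bary l.length) _ (fun m hm => ?_) ih
    have hp := psi_mem (bary (ι := ι)) m
    rw [hm.1] at hp
    refine Sp_mono (fun m' hm' => ?_) hp
    obtain ⟨ss, rfl, hlen, hss, -⟩ := hm'
    refine ⟨by rw [List.length_map, hlen, hm.1], fun u hu => ?_⟩
    obtain ⟨s, hs, rfl⟩ := List.mem_map.mp hu
    exact vc2_hull hm.2 (hss s hs).1 (hss s hs).2

theorem vc2_chain {α : Type*} {ss : List (List α)}
    (h : ss.Pairwise fun s s' => s'.Sublist s) {a b : List α} (ha : a ∈ ss) (hb : b ∈ ss) :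
    b.Sublist a ∨ a.Sublist b := by
  induction ss with
  | nil => simp at ha
  | cons c ss ih =>
    rw [List.pairwise_cons] at h
    rcases List.mem_cons.mp ha with rfl | ha' <;> rcases List.mem_cons.mp hb with rfl | hb'
    · exact Or.inl (List.Sublist.refl _)
    · exact Or.inl (h.1 _ hb')
    · exact Or.inr (h.1 _ ha')
    · exact ih h.2 ha' hb'

theorem sdI_mem [Fintype ι] (N r : ℕ) (l : List (ι → ℝ)) (hN : l.length ≤ N) (d : ℝ)
    (hd : ∀ u ∈ l, ∀ v ∈ l, dist u v ≤ d) :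
    sdI l.length r (ofL l) ∈ Sp (fun m => m.length = l.length ∧ (∀ u ∈ m, u ∈ hullL l) ∧
      ∀ u ∈ m, ∀ v ∈ m, dist u v ≤ (1 - 1 / (N : ℝ)) ^ r * d) := by
  induction r with
  | zero =>
    exact ofL_mem ⟨rfl, fun u hu => subset_convexHull ℝ _ hu, fun u hu v hv => by
      simpa using hd u hu v hv⟩
  | succ r ih =>
    refine Sp_map (psi bary l.length) _ (fun m hm => ?_) ih
    have hp := psi_mem (bary (ι := ι)) m
    rw [hm.1] at hp
    refine Sp_mono (fun m' hm' => ?_) hp
    obtain ⟨ss, rfl, hlen, hss, hpw⟩ := hm'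
    refine ⟨by rw [List.length_map, hlen, hm.1], fun u hu => ?_, fun u hu v hv => ?_⟩
    · obtain ⟨s, hs, rfl⟩ := List.mem_map.mp hu
      exact vc2_hull hm.2.1 (hss s hs).1 (hss s hs).2
    · obtain ⟨s, hs, rfl⟩ := List.mem_map.mp hu
      obtain ⟨s', hs', rfl⟩ := List.mem_map.mp hv
      have key : ∀ a ∈ ss, ∀ b ∈ ss, b.Sublist a →
          dist (bary a) (bary b) ≤ (1 - 1 / (N : ℝ)) ^ (r + 1) * d := fun a ha b hb hab => by
        have := bary_dist a b hab (hss b hb).2 N
          ((hss a ha).1.length_le.trans (hm.1.le.trans hN)) _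
          (fun x hx y hy => hm.2.2 x ((hss a ha).1.subset hx) y ((hss a ha).1.subset hy))
        rwa [← mul_assoc, ← pow_succ'] at this
      have hor := vc2_chain hpw hs hs'
      rcases hor with h | h
      · exact key s hs s' hs' h
      · rw [dist_comm]; exact key s' hs' s hs h

theorem bd_sdI (n r : ℕ) (z : Ch (ι → ℝ)) : bd (sdI (n + 1) r z) = sdI n r (bd z) := by
  induction r with
  | zero => rfl
  | succ r ih =>
    change bd (psi bary (n + 1) (sdI (n + 1) r z)) = psi bary n (sdI n r (bd z))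
    rw [bd_psi, ih]

theorem vc2_top {α : Type*} (z : Ch α) : z ∈ Sp (fun _ : List α => True) := by
  induction z using FreeAbelianGroup.induction_on with
  | zero => exact zero_mem _
  | of l => exact ofL_mem trivial
  | neg l h => exact neg_mem h
  | add a b ha hb => exact add_mem ha hb

theorem sdI_nat (T : (ι → ℝ) →ₗ[ℝ] (ι → ℝ)) (n r : ℕ) (z : Ch (ι → ℝ)) :
    sdI n r (mp T z) = mp T (sdI n r z) := by
  induction r with
  | zero => rfl
  | succ r ih =>
    change psi bary n (sdI n r (mp T z)) = mp T (psi bary n (sdI n r z))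
    rw [ih]
    refine psi_nat bary bary T T (fun _ => True) (fun _ _ _ _ => trivial) (fun l _ => ?_) n
      (vc2_top _)
    rw [bary, bary, map_smul, map_list_sum, List.length_map]

end Pool.Agent.P.MP_6990a0_al.VC
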