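import Pool.Agent.P.MP_6990a0_al.VL1

namespace Pool.Agent.P.MP_6990a0_al.VC

open Classical

variable {L : Type*} [CompleteLattice L]

theorem fixed_of_bot {W : L} {x : ℝ → L} (φ : L ≃o L) (hφ : φ W = W) (h : bot W x = ⊥) :
    φ ∘ x = x := by
  funext t
  rcases val_cases W x t with h1 | h1
  · simp only [Function.comp, h1, hφ]
  · rw [h, le_bot_iff] at h1
    simp only [Function.comp, h1, OrderIso.map_bot]

theorem fixed_of_filt_bot {x : ℝ → L} (hx : Filt ⊥ x) (φ : L ≃o L) : φ ∘ x = x := by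
  funext t
  have h1 : x t = ⊥ := le_bot_iff.1 (hx.le t)
  simp only [Function.comp, h1, OrderIso.map_bot]

theorem bots_spec (r : L → ℕ) (hr : StrictMono r) {W : L} (hW : W ≠ ⊥) {D : Set (ℝ → L)}
    (hD : Cone W D) {B : L} (hB : B ∈ bots W D) : B ≤ W ∧ B ≠ W := by
  obtain ⟨x, hx, rfl⟩ := hB
  obtain ⟨_, _, _, _, _, _, h1, h2⟩ := bot_spec r hr (hD.filt x hx) hW
  exact ⟨h2, h1⟩

theorem bots_sup (r : L → ℕ) (hr : StrictMono r) {W : L} (hW : W ≠ ⊥) {D : Set (ℝ → L)}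
    (hD : Cone W D) : ∀ A ∈ bots W D, ∀ B ∈ bots W D, A ⊔ B ≠ W → A ⊔ B ∈ bots W D := by
  rintro _ ⟨x, hx, rfl⟩ _ ⟨y, hy, rfl⟩ h
  exact ⟨add x y, hD.add_mem x hx y hy, bot_add r hr (hD.filt x hx) (hD.filt y hy) hW h⟩

theorem bots_map {W : L} {D : Set (ℝ → L)} (φ : L ≃o L) (hφ : φ W = W)
    (h1 : ∀ x ∈ D, φ ∘ x ∈ D) (h2 : ∀ x ∈ D, φ.symm ∘ x ∈ D) (B : L) :
    B ∈ bots W D ↔ φ B ∈ bots W D := by
  constructor
  · rintro ⟨x, hx, rfl⟩
    exact ⟨φ ∘ x, h1 x hx, bot_map φ hφ x⟩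
  · rintro ⟨x, hx, hB⟩
    have h3 : φ.symm W = W := by
      apply φ.injective
      rw [φ.apply_symm_apply, hφ]
    refine ⟨φ.symm ∘ x, h2 x hx, ?_⟩
    rw [bot_map φ.symm h3 x, hB, φ.symm_apply_apply]

theorem vl2_res_add {W B : L} (hBW : B ≤ W) {x y : ℝ → L} (hx : bot W x ≤ B)
    (hy : bot W y ≤ B) : add (res B x) (res B y) = res B (add x y) := by
  funext t
  simp only [add, res]
  apply le_antisymm
  · refine iSup_le fun a => le_inf ?_ (inf_le_left.trans inf_le_right)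
    exact le_iSup_of_le a (inf_le_inf inf_le_left inf_le_left)
  · by_cases h : ∃ a, x a = W ∧ y (t - a) = W
    · obtain ⟨a, h1, h2⟩ := h
      refine inf_le_right.trans (le_iSup_of_le a ?_)
      rw [h1, h2]
      exact le_inf (le_inf hBW le_rfl) (le_inf hBW le_rfl)
    · refine inf_le_left.trans (iSup_le fun a => le_iSup_of_le a ?_)
      have h3 : x a ⊓ y (t - a) ≤ B := by
        rcases val_cases W x a with h1 | h1
        · rcases val_cases W y (t - a) with h2 | h2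
          · exact absurd ⟨a, h1, h2⟩ h
          · exact inf_le_right.trans (h2.trans hy)
        · exact inf_le_left.trans (h1.trans hx)
      exact le_inf (le_inf inf_le_left h3) (le_inf inf_le_right h3)

theorem resD_cone (r : L → ℕ) (hr : StrictMono r) {W : L} (hW : W ≠ ⊥) {D : Set (ℝ → L)}
    (hD : Cone W D) {B : L} (hB : B ∈ bots W D) : Cone B (resD W B D) := by
  obtain ⟨hBW, hBne⟩ := bots_spec r hr hW hD hB
  refine ⟨?_, ?_, ?_, ?_⟩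
  · obtain ⟨x, hx, hxB⟩ := hB
    exact ⟨res B x, x, hx, hxB.le, rfl⟩
  · rintro _ ⟨x, hx, _, rfl⟩
    have hf := hD.filt x hx
    refine ⟨fun a b hab => inf_le_inf_right B (hf.anti hab), fun t => inf_le_right, ?_, ?_, ?_⟩
    · obtain ⟨l, hl⟩ := hf.low
      exact ⟨l, by simp only [res, hl]; exact inf_eq_right.2 hBW⟩
    · obtain ⟨l, hl⟩ := hf.high
      exact ⟨l, by simp only [res, hl]; exact bot_inf_eq B⟩
    · intro t
      obtain ⟨ε, h1, h2⟩ := hf.left t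
      exact ⟨ε, h1, by simp only [res, h2]⟩
  · rintro _ ⟨x, hx, hxB, rfl⟩ _ ⟨y, hy, hyB, rfl⟩
    have hne : bot W x ⊔ bot W y ≠ W := fun h =>
      hBne (le_antisymm hBW (h ▸ sup_le hxB hyB))
    refine ⟨add x y, hD.add_mem x hx y hy, ?_, vl2_res_add hBW hxB hyB⟩
    rw [bot_add r hr (hD.filt x hx) (hD.filt y hy) hW hne]
    exact sup_le hxB hyB
  · rintro s hs _ ⟨x, hx, hxB, rfl⟩
    exact ⟨sc s x, hD.sc_mem s hs x hx, by rw [bot_sc W x hs]; exact hxB, rfl⟩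

theorem resD_map {W B : L} {D : Set (ℝ → L)} (φ : L ≃o L) (hφ : φ W = W) (hB : φ B = B)
    (h1 : ∀ x ∈ D, φ ∘ x ∈ D) : ∀ y ∈ resD W B D, φ ∘ y ∈ resD W B D := by
  rintro _ ⟨x, hx, hxB, rfl⟩
  refine ⟨φ ∘ x, h1 x hx, ?_, ?_⟩
  · rw [bot_map φ hφ x, ← hB]
    exact φ.monotone hxB
  · funext t
    simp only [Function.comp, res, OrderIso.map_inf, hB]

theorem fixed_of_res {W B : L} {x : ℝ → L} (φ : L ≃o L) (hφ : φ W = W) (hx : bot W x ≤ B)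
    (h : φ ∘ res B x = res B x) : φ ∘ x = x := by
  funext t
  rcases val_cases W x t with h1 | h1
  · simp only [Function.comp, h1, hφ]
  · have h2 := congrFun h t
    have h3 : x t ⊓ B = x t := inf_eq_left.2 (h1.trans hx)
    simpa only [Function.comp, res, h3] using h2

theorem vl2_lt (r : L → ℕ) (hr : StrictMono r) {W B : L} (h : B ≤ W ∧ B ≠ W) : r B < r W :=
  hr (lt_of_le_of_ne h.1 h.2)

theorem Phi_mem (r : L → ℕ) (hr : StrictMono r) {E : Type*} (W : L) (𝓑 : Set L)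
    (hsup : ∀ A ∈ 𝓑, ∀ B ∈ 𝓑, A ⊔ B ≠ W → A ⊔ B ∈ 𝓑) (β : E → L) (s : List E) (hs : s ≠ [])
    (hβ : ∀ v ∈ s, β v ≤ W ∧ β v ≠ W) (h0 : ∃ B ∈ 𝓑, ∀ v ∈ s, B ≤ β v) : Phi 𝓑 β s ∈ 𝓑 := by
  obtain ⟨v0, hv0⟩ := List.exists_mem_of_ne_nil s hs
  have hbd : ∀ B, (B ∈ 𝓑 ∧ ∀ v ∈ s, B ≤ β v) → r B ≤ r W := fun B hB =>
    hr.monotone ((hB.2 v0 hv0).trans (hβ v0 hv0).1)
  have hex : ∃ n, ∃ B, (B ∈ 𝓑 ∧ ∀ v ∈ s, B ≤ β v) ∧ r W - r B = n := by
    obtain ⟨B, h1, h2⟩ := h0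
    exact ⟨_, B, ⟨h1, h2⟩, rfl⟩
  obtain ⟨M, hM, hMn⟩ := Nat.find_spec hex
  have hgr : ∀ B, (B ∈ 𝓑 ∧ ∀ v ∈ s, B ≤ β v) → B ≤ M := by
    intro B hB
    have h1 : ∀ v ∈ s, M ⊔ B ≤ β v := fun v hv => sup_le (hM.2 v hv) (hB.2 v hv)
    have h2 : M ⊔ B ≠ W := fun h =>
      (hβ v0 hv0).2 (le_antisymm (hβ v0 hv0).1 (h ▸ h1 v0 hv0))
    have h3 := hsup M hM.1 B hB.1 h2
    have h4 := Nat.find_min' hex ⟨M ⊔ B, ⟨h3, h1⟩, rfl⟩
    have h5 := hbd _ ⟨h3, h1⟩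
    by_contra hc
    have h6 : M < M ⊔ B := left_lt_sup.2 hc
    have h7 := hr h6
    omega
  have : Phi 𝓑 β s = M := le_antisymm (sSup_le fun B hB => hgr B hB) (le_sSup hM)
  rw [this]
  exact hM.1

theorem Phi_anti {E : Type*} (𝓑 : Set L) (β : E → L) {s s' : List E} (h : ∀ v ∈ s', v ∈ s) :
    Phi 𝓑 β s ≤ Phi 𝓑 β s' :=
  sSup_le_sSup fun _ hB => ⟨hB.1, fun v hv => hB.2 v (h v hv)⟩

theorem Phi_nat {E : Type*} (𝓑 : Set L) (β : E → L) (φ : L ≃o L) (hφ : ∀ B, B ∈ 𝓑 ↔ φ B ∈ 𝓑)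
    (T : E → E) (s : List E) (h : ∀ v ∈ s, β (T v) = φ (β v)) :
    Phi 𝓑 β (s.map T) = φ (Phi 𝓑 β s) := by
  apply le_antisymm
  · refine sSup_le fun B hB => ?_
    rw [← φ.symm_apply_le]
    refine le_sSup ⟨(hφ _).2 (by rw [φ.apply_symm_apply]; exact hB.1), fun v hv => ?_⟩
    rw [φ.symm_apply_le, ← h v hv]
    exact hB.2 _ (List.mem_map_of_mem hv)
  · rw [← φ.le_symm_apply]
    refine sSup_le fun B hB => ?_
    rw [φ.le_symm_apply]
    refine le_sSup ⟨(hφ _).1 hB.1, fun w hw => ?_⟩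
    obtain ⟨v, hv, rfl⟩ := List.mem_map.1 hw
    rw [h v hv]
    exact φ.monotone (hB.2 v hv)

theorem not_nodup (r : L → ℕ) (hr : StrictMono r) (W : L) (m : List L)
    (h1 : m.Pairwise (· ≤ ·)) (h2 : ∀ B ∈ m, B ≤ W ∧ B ≠ W) (h3 : r W < m.length) :
    ¬ m.Nodup := by
  intro hn
  have h4 : (m.map r).Nodup := by
    unfold List.Nodup at hn ⊢
    rw [List.pairwise_map]
    exact (h1.and hn).imp fun h => (hr (lt_of_le_of_ne h.1 h.2)).ne
  have h5 : (m.map r).toFinset ⊆ Finset.range (r W) := by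
    intro n hn'
    obtain ⟨B, hB, rfl⟩ := List.mem_map.1 (List.mem_toFinset.1 hn')
    exact Finset.mem_range.2 (vl2_lt r hr (h2 B hB))
  have h6 := Finset.card_le_card h5
  rw [List.toFinset_card_of_nodup h4, List.length_map, Finset.card_range] at h6
  omega

theorem fix_cone {Γ : Type*} (a : Γ → L ≃o L) {W : L} {D : Set (ℝ → L)} (hD : Cone W D)
    (S : Set Γ) (h : (Fix a D S).Nonempty) : Cone W (Fix a D S) := by
  refine ⟨h, fun x hx => hD.filt x hx.1, fun x hx y hy => ⟨hD.add_mem x hx.1 y hy.1, ?_⟩,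
    fun s hs x hx => ⟨hD.sc_mem s hs x hx.1, ?_⟩⟩
  · intro g hg
    rw [map_add', hx.2 g hg, hy.2 g hg]
  · intro g hg
    rw [map_sc, hx.2 g hg]

end Pool.Agent.P.MP_6990a0_al.VC
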