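import Pool.Agent.P.MP_6990a0_al.VC2
import Pool.Agent.P.MP_6990a0_al.VL2

namespace Pool.Agent.P.MP_6990a0_al.VC

open Classical

variable {ι L : Type*} [CompleteLattice L]

theorem bd_Psi (𝓑 : Set L) (β : (ι → ℝ) → L) (r n : ℕ) (z : Ch (ι → ℝ)) :
    bd (Psi 𝓑 β r (n + 1) z) = Psi 𝓑 β r n (bd z) := by
  simp only [Psi, AddMonoidHom.comp_apply]
  rw [bd_psi, bd_sdI]

theorem Psi_zero (𝓑 : Set L) (β : (ι → ℝ) → L) (r : ℕ) : Psi 𝓑 β r 0 (ofL []) = ofL [] := by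
  have h : ∀ r : ℕ, sdI (ι := ι) 0 r (ofL []) = ofL [] := by
    intro r
    induction r with
    | zero => rfl
    | succ r ih =>
      simp only [sdI, AddMonoidHom.comp_apply]
      rw [ih, psi_zero]
  simp only [Psi, AddMonoidHom.comp_apply]
  rw [h, psi_zero]

theorem Psi_nat (𝓑 : Set L) (β : (ι → ℝ) → L) (φ : L ≃o L) (hφ : ∀ B, B ∈ 𝓑 ↔ φ B ∈ 𝓑)
    (T : (ι → ℝ) →ₗ[ℝ] (ι → ℝ)) (r : ℕ) (l : List (ι → ℝ))
    (h : ∀ u ∈ hullL l, β (T u) = φ (β u)) :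
    Psi 𝓑 β r l.length (mp T (ofL l)) = mp φ (Psi 𝓑 β r l.length (ofL l)) := by
  simp only [Psi, AddMonoidHom.comp_apply]
  rw [sdI_nat]
  refine psi_nat (Phi 𝓑 β) (Phi 𝓑 β) T φ (fun s => ∀ u ∈ s, u ∈ hullL l)
    (fun m s hm hs u hu => hm u (hs.subset hu))
    (fun s hs => Phi_nat 𝓑 β φ hφ T s fun v hv => h v (hs v hv)) _ ?_
  exact Sp_mono (fun m hm => hm.2) (sdI_hull r l)

theorem carrier [Fintype ι] (r : L → ℕ) (hr : StrictMono r) (W : L) (𝓑 : Set L)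
    (hsup : ∀ A ∈ 𝓑, ∀ B ∈ 𝓑, A ⊔ B ≠ W → A ⊔ B ∈ 𝓑) (β : (ι → ℝ) → L)
    (hβ : ∀ v ∈ stdSimplex ℝ ι, β v ∈ 𝓑 ∧ β v ≤ W ∧ β v ≠ W)
    (husc : ∀ v, ∃ δ : ℝ, 0 < δ ∧ ∀ v', dist v v' < δ → β v ≤ β v') (N : ℕ) :
    ∃ r0 : ℕ, ∀ l : List (ι → ℝ), l.length ≤ N → (∀ u ∈ l, u ∈ stdSimplex ℝ ι) →
      Psi 𝓑 β r0 l.length (ofL l) ∈ Sp (fun m => m.length = l.length ∧ m.Pairwise (· ≤ ·) ∧
        ∀ B ∈ m, B ∈ 𝓑 ∧ ∃ s : List (ι → ℝ), (∀ u ∈ s, u ∈ hullL l) ∧ B = Phi 𝓑 β s) := by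
  choose δ hδ hδβ using husc
  obtain ⟨ε, hε, hcov⟩ := lebesgue_number_lemma_of_metric (isCompact_stdSimplex ℝ ι)
    (c := fun v : stdSimplex ℝ ι => Metric.ball (v : ι → ℝ) (δ v)) (fun _ => Metric.isOpen_ball)
    (fun v hv => Set.mem_iUnion.2 ⟨⟨v, hv⟩, Metric.mem_ball_self (hδ v)⟩)
  have hq : (1 - 1 / ((N + 1 : ℕ) : ℝ)) < 1 := by
    have : (0 : ℝ) < 1 / ((N + 1 : ℕ) : ℝ) := by positivity
    linarith
  obtain ⟨r0, hr0⟩ := exists_pow_lt_of_lt_one hε hq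
  refine ⟨r0, fun l hl hsim => ?_⟩
  have hhull : hullL l ⊆ stdSimplex ℝ ι := convexHull_min hsim (convex_stdSimplex ℝ ι)
  have hd : ∀ u ∈ l, ∀ v ∈ l, dist u v ≤ 1 := by
    intro u hu v hv
    refine (dist_pi_le_iff zero_le_one).2 fun j => ?_
    exact Real.dist_le_of_mem_Icc_01 (mem_Icc_of_mem_stdSimplex (hsim u hu) j)
      (mem_Icc_of_mem_stdSimplex (hsim v hv) j)
  have hm := sdI_mem (N + 1) r0 l (by omega) 1 hd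
  simp only [Psi, AddMonoidHom.comp_apply]
  refine Sp_map (psi (Phi 𝓑 β) l.length) _ ?_ hm
  rintro m ⟨hlen, hin, hdist⟩
  rw [← hlen]
  refine Sp_mono ?_ (psi_mem (Phi 𝓑 β) m)
  rintro m' ⟨ss, rfl, hss, hsub, hpw⟩
  refine ⟨by rw [List.length_map, hss], ?_, ?_⟩
  · rw [List.pairwise_map]
    exact hpw.imp fun h => Phi_anti 𝓑 β fun v hv => h.subset hv
  · intro B hB
    obtain ⟨s, hs, rfl⟩ := List.mem_map.1 hB
    obtain ⟨hsm, hne⟩ := hsub s hs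
    have hsl : ∀ u ∈ s, u ∈ hullL l := fun u hu => hin u (hsm.subset hu)
    refine ⟨?_, s, hsl, rfl⟩
    obtain ⟨u, hu⟩ := List.exists_mem_of_ne_nil s hne
    obtain ⟨v0, hv0⟩ := hcov u (hhull (hsl u hu))
    refine Phi_mem r hr W 𝓑 hsup β s hne (fun v hv => (hβ v (hhull (hsl v hv))).2)
      ⟨β v0, (hβ v0 v0.2).1, fun v hv => hδβ v0 v ?_⟩
    have h1 : v ∈ Metric.ball u ε := by
      have h2 := hdist v (hsm.subset hv) u (hsm.subset hu)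
      rw [mul_one] at h2
      exact lt_of_le_of_lt h2 hr0
    have h3 := hv0 h1
    rw [Metric.mem_ball, dist_comm] at h3
    exact h3

end Pool.Agent.P.MP_6990a0_al.VC
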