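import Pool.Agent.P.MP_6990a0_al.VC1

namespace Pool.Agent.P.MP_6990a0_al.VC

open Classical

variable {α β : Type*}

noncomputable def vc4_chi (T : Finset α) : Ch α →+ ZMod 2 :=
  FreeAbelianGroup.lift fun s => if s.Nodup ∧ s.toFinset = T then 1 else 0

theorem vc4_chi_ofL (T : Finset α) (s : List α) :
    vc4_chi T (ofL s) = if s.Nodup ∧ s.toFinset = T then 1 else 0 := by
  unfold vc4_chi ofL
  rw [FreeAbelianGroup.lift_apply_of]

theorem vc4_chi_cons (T : Finset α) (b : α) (s : List α) :
    vc4_chi T (ofL (b :: s)) = if b ∈ T then vc4_chi (T.erase b) (ofL s) else 0 := by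
  rw [vc4_chi_ofL, vc4_chi_ofL]
  have key : ((b :: s).Nodup ∧ (b :: s).toFinset = T)
      ↔ b ∈ T ∧ (s.Nodup ∧ s.toFinset = T.erase b) := by
    rw [List.nodup_cons, List.toFinset_cons]
    constructor
    · rintro ⟨⟨h1, h2⟩, h3⟩
      subst h3
      refine ⟨Finset.mem_insert_self _ _, h2, ?_⟩
      rw [Finset.erase_insert (by simpa using h1)]
    · rintro ⟨h1, h2, h3⟩
      refine ⟨⟨fun hb => ?_, h2⟩, ?_⟩
      · have : b ∈ T.erase b := h3 ▸ List.mem_toFinset.2 hb
        simp at this
      · rw [h3, Finset.insert_erase h1]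
  by_cases hb : b ∈ T
  · simp only [key, hb, true_and, if_true]
  · simp only [key, hb, false_and, if_false]

theorem vc4_chi_cns (T : Finset α) (b : α) (z : Ch α) :
    vc4_chi T (cns b z) = if b ∈ T then vc4_chi (T.erase b) z else 0 := by
  induction z using FreeAbelianGroup.induction_on with
  | zero => simp
  | of s => exact (congrArg _ (cns_ofL b s)).trans (vc4_chi_cons T b s)
  | neg s h => rw [map_neg, map_neg, map_neg, h]; split_ifs <;> simp
  | add y z hy hz => rw [map_add, map_add, map_add, hy, hz]; split_ifs <;> simp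

theorem vc4_key (U : Finset α) : ∀ (s : List α), (∀ a ∈ s, a ∈ U) → ∀ T : Finset α,
    vc4_chi T (bdL s) = ∑ c ∈ U \ T, vc4_chi (insert c T) (ofL s)
  | [], _, T => by
    rw [bdL, map_zero]
    refine (Finset.sum_eq_zero fun c _ => ?_).symm
    rw [vc4_chi_ofL, if_neg]
    rintro ⟨-, h⟩
    exact (Finset.insert_nonempty c T).ne_empty (by simpa using h.symm)
  | b :: s, hs, T => by
    have hb : b ∈ U := hs b List.mem_cons_self
    have ih := vc4_key U s fun a ha => hs a (List.mem_cons_of_mem _ ha)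
    rw [bdL, map_sub, vc4_chi_cns]
    simp only [vc4_chi_cons]
    by_cases hT : b ∈ T
    · have e : U \ T.erase b = insert b (U \ T) := by
        ext c
        simp only [Finset.mem_sdiff, Finset.mem_erase, Finset.mem_insert]
        by_cases hc : c = b
        · subst hc; simp [hb]
        · simp [hc]
      rw [if_pos hT, ih, e, Finset.sum_insert (by simp [hT]), Finset.insert_erase hT,
        sub_add_cancel_left, ZMod.neg_eq_self_mod_two]
      refine Finset.sum_congr rfl fun c hc => ?_
      have hcb : c ≠ b := fun h => (Finset.mem_sdiff.1 hc).2 (h ▸ hT)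
      rw [if_pos (Finset.mem_insert_of_mem hT), Finset.erase_insert_of_ne hcb]
    · rw [if_neg hT, sub_zero, Finset.sum_eq_single b]
      · rw [if_pos (Finset.mem_insert_self _ _), Finset.erase_insert hT]
      · intro c _ hcb
        rw [if_neg]
        rw [Finset.mem_insert]
        rintro (h | h)
        · exact hcb h.symm
        · exact hT h
      · intro h
        exact absurd (Finset.mem_sdiff.2 ⟨hb, hT⟩) h

theorem vc4_face {a : α} {T : Finset α} (ha : a ∉ T) {s : List α}
    (hs : ∀ c ∈ s, c ∈ insert a T) : vc4_chi T (bd (ofL s)) = vc4_chi (insert a T) (ofL s) := by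
  rw [bd_ofL, vc4_key (insert a T) s hs T, Finset.insert_sdiff_of_notMem _ ha, Finset.sdiff_self,
    Finset.insert_empty, Finset.sum_singleton]

theorem vc4_one (Ψ : ℕ → Ch α →+ Ch α) (hb : ∀ n z, bd (Ψ (n + 1) z) = Ψ n (bd z))
    (h0 : Ψ 0 (ofL []) = ofL []) (l0 : List α) (hl0 : l0.Nodup)
    (hc : ∀ l : List α, l.Sublist l0 →
      Ψ l.length (ofL l) ∈ Sp (fun s => s.length = l.length ∧ ∀ a ∈ s, a ∈ l)) :
    ∀ l : List α, l.Sublist l0 → vc4_chi l.toFinset (Ψ l.length (ofL l)) = 1
  | [], _ => by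
    rw [List.length_nil, h0, vc4_chi_ofL, if_pos ⟨List.nodup_nil, rfl⟩]
  | a :: l, hl => by
    have hl' : l.Sublist l0 := (List.sublist_cons_self a l).trans hl
    have ih := vc4_one Ψ hb h0 l0 hl0 hc l hl'
    have hnd := List.nodup_cons.1 (hl0.sublist hl)
    have ha : a ∉ l.toFinset := by simpa using hnd.1
    have h1 : ((vc4_chi l.toFinset).comp bd) (Ψ (a :: l).length (ofL (a :: l)))
        = vc4_chi (insert a l.toFinset) (Ψ (a :: l).length (ofL (a :: l))) := by
      refine Sp_ext _ _ (fun s hs => ?_) (hc _ hl)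
      refine vc4_face ha fun c hcs => ?_
      have := hs.2 c hcs
      simpa using this
    have h2 : ((vc4_chi l.toFinset).comp ((Ψ l.length).comp (cns a))) (bdL l)
        ∈ (⊥ : AddSubgroup (ZMod 2)) := by
      refine Sp_map _ _ (fun s hs => ?_) (bdL_mem l)
      have hsl : (a :: s).Sublist l0 := (hs.1.cons_cons a).trans hl
      have h3 := hc _ hsl
      rw [List.length_cons, hs.2] at h3
      simp only [AddMonoidHom.comp_apply, cns_ofL]
      refine Sp_map _ _ (fun t ht => ?_) h3
      rw [AddSubgroup.mem_bot, vc4_chi_ofL, if_neg]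
      rintro ⟨-, h4⟩
      have h5 : l.toFinset ⊆ s.toFinset := by
        intro c hcl
        have h6 : c ∈ t := List.mem_toFinset.1 (h4 ▸ hcl)
        rcases List.mem_cons.1 (ht.2 c h6) with h7 | h7
        · exact absurd (h7 ▸ hcl) ha
        · exact List.mem_toFinset.2 h7
      have h8 := Finset.card_le_card h5
      rw [List.toFinset_card_of_nodup hnd.2] at h8
      have h9 := List.toFinset_card_le s
      have := hs.2
      omega
    rw [AddSubgroup.mem_bot] at h2
    simp only [AddMonoidHom.comp_apply] at h1 h2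
    rw [List.toFinset_cons, ← h1, List.length_cons, hb, bd_ofL, bdL, map_sub, map_sub, ih, h2,
      sub_zero]

theorem sperner (Ψ : ℕ → Ch α →+ Ch α) (hb : ∀ n z, bd (Ψ (n + 1) z) = Ψ n (bd z))
    (h0 : Ψ 0 (ofL []) = ofL []) (l0 : List α) (hl0 : l0.Nodup)
    (hc : ∀ l : List α, l.Sublist l0 →
      Ψ l.length (ofL l) ∈ Sp (fun s => s.length = l.length ∧ ∀ a ∈ s, a ∈ l)) :
    Ψ l0.length (ofL l0) ∉ Sp (fun s : List α => ¬ s.Nodup) := by
  intro h
  have h1 := vc4_one Ψ hb h0 l0 hl0 hc l0 (List.Sublist.refl _)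
  have h2 : vc4_chi l0.toFinset (Ψ l0.length (ofL l0)) ∈ (⊥ : AddSubgroup (ZMod 2)) := by
    refine Sp_map _ _ (fun t ht => ?_) h
    rw [AddSubgroup.mem_bot, vc4_chi_ofL, if_neg fun h' => ht h'.1]
  rw [AddSubgroup.mem_bot, h1] at h2
  exact one_ne_zero h2

end Pool.Agent.P.MP_6990a0_al.VC
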