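import Pool.Agent.P.MP_6990a0_al.VC1

namespace Pool.Agent.P.MP_6990a0_al.VC

open Classical

variable {α β : Type*}

theorem vc5_ext {M : Type*} [AddCommGroup M] (T T' : Ch α →+ M)
    (h : ∀ l, T (ofL l) = T' (ofL l)) (z : Ch α) : T z = T' z := by
  have : T = T' := FreeAbelianGroup.lift_ext _ _ h
  rw [this]

theorem nm_ofL (l : List α) : nm (ofL l) = if l.Nodup then ofL l else 0 := by
  unfold nm ofL
  exact FreeAbelianGroup.lift_apply_of _ _

theorem vc5_cns (a : α) (z : Ch α) : nm (cns a z) = nm (cns a (nm z)) := by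
  refine vc5_ext (nm.comp (cns a)) (nm.comp ((cns a).comp nm)) (fun l => ?_) z
  simp only [AddMonoidHom.comp_apply]
  by_cases h : l.Nodup
  · rw [nm_ofL l, if_pos h]
  · rw [nm_ofL l, if_neg h, map_zero, map_zero, cns_ofL, nm_ofL, if_neg]
    exact fun h' => h (List.nodup_cons.1 h').2

theorem vc5_cns_cns (a : α) (z : Ch α) : nm (cns a (cns a z)) = 0 := by
  refine vc5_ext (nm.comp ((cns a).comp (cns a))) 0 (fun l => ?_) z
  simp only [AddMonoidHom.comp_apply, AddMonoidHom.zero_apply]
  rw [cns_ofL, cns_ofL, nm_ofL, if_neg]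
  simp

theorem vc5_nodup {l : List α} (h : l.Nodup) : nm (bdL l) = bdL l := by
  refine Sp_ext nm (AddMonoidHom.id _) (fun s hs => ?_) (bdL_mem l)
  rw [nm_ofL, if_pos (h.sublist hs.1)]
  rfl

theorem vc5_dup [PartialOrder α] (l : List α) (hl : l.Pairwise (· ≤ ·)) (h : ¬ l.Nodup) :
    nm (bdL l) = 0 := by
  induction l with
  | nil => simp at h
  | cons a l ih =>
    rw [List.pairwise_cons] at hl
    by_cases h' : l.Nodup
    · have ha : a ∈ l := by
        by_contra ha
        exact h (List.nodup_cons.2 ⟨ha, h'⟩)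
      cases l with
      | nil => simp at ha
      | cons b l =>
        have hab : a = b := by
          rcases List.mem_cons.1 ha with h1 | h1
          · exact h1
          · exact le_antisymm (hl.1 b (by simp)) ((List.pairwise_cons.1 hl.2).1 a h1)
        subst hab
        have : bdL (a :: a :: l) = cns a (cns a (bdL l)) := by
          simp only [bdL, map_sub, cns_ofL]
          abel
        rw [this, vc5_cns_cns]
    · simp only [bdL, map_sub]
      rw [nm_ofL, if_neg h', vc5_cns, ih hl.2 h']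
      simp

theorem nm_bd [PartialOrder α] {z : Ch α} (hz : z ∈ Sp (fun l : List α => l.Pairwise (· ≤ ·))) :
    bd (nm z) = nm (bd z) := by
  refine Sp_ext (bd.comp nm) (nm.comp bd) (fun l hl => ?_) hz
  simp only [AddMonoidHom.comp_apply]
  rw [nm_ofL, bd_ofL]
  by_cases h : l.Nodup
  · rw [if_pos h, bd_ofL, vc5_nodup h]
  · rw [if_neg h, map_zero, vc5_dup l hl h]

theorem nm_mp (g : α → β) (hg : Function.Injective g) (z : Ch α) :
    nm (mp g z) = mp g (nm z) := by
  refine vc5_ext (nm.comp (mp g)) ((mp g).comp nm) (fun l => ?_) z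
  simp only [AddMonoidHom.comp_apply]
  rw [mp_ofL, nm_ofL, nm_ofL]
  by_cases h : l.Nodup
  · rw [if_pos h, if_pos ((List.nodup_map_iff hg).2 h), mp_ofL]
  · rw [if_neg h, if_neg (fun h' => h ((List.nodup_map_iff hg).1 h')), map_zero]

theorem nm_rho (g : α → α) (hg : Function.Injective g) (p q : ℕ) (z : Ch α) :
    nm (rho g p q z) = rho g p q (nm z) := by
  rw [rho_apply, rho_apply]
  split_ifs
  · rw [map_sub, nm_mp g hg]
  · rw [map_sum]
    exact Finset.sum_congr rfl fun i _ => nm_mp _ (hg.iterate i) z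

theorem nm_zero {z : Ch α} (hz : z ∈ Sp (fun l : List α => ¬ l.Nodup)) : nm z = 0 := by
  refine Sp_ext nm 0 (fun l hl => ?_) hz
  rw [nm_ofL, if_neg hl]
  rfl

theorem nm_mem {P : List α → Prop} {z : Ch α} (hz : z ∈ Sp P) : nm z ∈ Sp P := by
  refine Sp_map nm _ (fun l hl => ?_) hz
  rw [nm_ofL]
  split_ifs
  · exact ofL_mem hl
  · exact zero_mem _

theorem bd_src_zero (N p : ℕ) : bd (src N p 0) = ofL [] := by
  simp only [src]
  rw [bd_ofL]
  simp [bdL]

theorem vc5_iter (N p i : ℕ) (z : Fin (N + 1) × ZMod p) :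
    (sh N p)^[i] z = (z.1, z.2 + i) := by
  induction i with
  | zero => simp
  | succ i ih =>
    rw [Function.iterate_succ_apply', ih]
    simp [sh, add_assoc]

theorem vc5_rho_rho (g : α → α) (p : ℕ) (hg : g^[p] = id) (q : ℕ) (z : Ch α) :
    rho g p (q + 1) (rho g p q z) = 0 := by
  have tel : ∑ i ∈ Finset.range p, (mp (g^[i + 1]) z - mp (g^[i]) z) = 0 := by
    rw [Finset.sum_range_sub (fun i => mp (g^[i]) z), hg]
    simp
  rw [rho_apply, rho_apply]
  by_cases h : q % 2 = 0
  · rw [if_neg (by omega), if_pos h, ← tel]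
    refine Finset.sum_congr rfl fun i _ => ?_
    rw [map_sub, mp_mp, Function.iterate_succ]
  · rw [if_pos (by omega), if_neg h, ← tel, map_sum, Finset.sum_sub_distrib]
    congr 1
    refine Finset.sum_congr rfl fun i _ => ?_
    rw [mp_mp, Function.iterate_succ']

theorem bd_src_succ (N p : ℕ) (hp : 0 < p) (q : ℕ) :
    bd (src N p (q + 1)) = rho (sh N p) p q (src N p q) := by
  have hg : (sh N p)^[p] = id := by
    funext z
    rw [vc5_iter]
    simp
  have hs : ∀ q, src N p (q + 1) =
      cns (⟨min (q + 1) N, Nat.lt_succ_of_le (min_le_right _ _)⟩, 0)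
        (rho (sh N p) p q (src N p q)) := fun q => rfl
  induction q with
  | zero =>
    rw [hs, bd_cns, bd_rho, bd_src_zero, rho_apply (sh N p) p 0 (ofL []), if_pos rfl, mp_ofL]
    simp
  | succ q ih =>
    rw [hs, bd_cns, bd_rho, ih, vc5_rho_rho _ _ hg]
    simp

theorem src_mem (N p q : ℕ) (hq : q ≤ N) :
    src N p q ∈ Sp (fun l => l.length = q + 1 ∧ (l.map Prod.fst).Nodup ∧
      ∀ z ∈ l, z.1.val ≤ q) := by
  induction q with
  | zero =>
    rw [src]
    exact ofL_mem (by simp)
  | succ q ih =>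
    have ih' := ih (by omega)
    have hmp : ∀ i : ℕ, mp ((sh N p)^[i]) (src N p q) ∈ Sp (fun l : List (Fin (N + 1) × ZMod p) =>
        l.length = q + 1 ∧ (l.map Prod.fst).Nodup ∧ ∀ z ∈ l, z.1.val ≤ q) := by
      intro i
      refine Sp_map (mp _) _ (fun l hl => ?_) ih'
      rw [mp_ofL]
      refine ofL_mem ⟨by simpa using hl.1, ?_, ?_⟩
      · rw [List.map_map]
        have : (Prod.fst ∘ (sh N p)^[i]) = Prod.fst := by
          funext z
          simp [vc5_iter]
        rw [this]
        exact hl.2.1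
      · intro z hz
        obtain ⟨w, hw, rfl⟩ := List.mem_map.1 hz
        rw [vc5_iter]
        exact hl.2.2 w hw
    have hrho : rho (sh N p) p q (src N p q) ∈ Sp (fun l : List (Fin (N + 1) × ZMod p) =>
        l.length = q + 1 ∧ (l.map Prod.fst).Nodup ∧ ∀ z ∈ l, z.1.val ≤ q) := by
      rw [rho_apply]
      split_ifs
      · exact sub_mem (by simpa using hmp 1) ih'
      · exact sum_mem fun i _ => hmp i
    rw [src]
    refine Sp_map (cns _) _ (fun l hl => ?_) hrho
    rw [cns_ofL]
    refine ofL_mem ⟨by simp [hl.1], ?_, ?_⟩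
    · rw [List.map_cons, List.nodup_cons]
      refine ⟨fun hmem => ?_, hl.2.1⟩
      obtain ⟨w, hw, h1⟩ := List.mem_map.1 hmem
      have h2 := hl.2.2 w hw
      have h3 : w.1.val = min (q + 1) N := by rw [h1]
      omega
    · intro z hz
      rcases List.mem_cons.1 hz with rfl | hz
      · exact min_le_left _ _
      · exact (hl.2.2 z hz).trans (Nat.le_succ q)

end Pool.Agent.P.MP_6990a0_al.VC
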