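import Pool.Agent.P.MP_6990a0_al.VC1

namespace Pool.Agent.P.MP_6990a0_al.VC

open Classical

variable {α β : Type*}

theorem vc6_it (g : α → α) (j : ℕ) (l : List α) : l.map (g^[j]) = (List.map g)^[j] l := by
  induction j with
  | zero => simp
  | succ j ih => rw [Function.iterate_succ_apply', ← ih, List.map_map, Function.iterate_succ']

theorem reps (g : α → α) (p : ℕ) (hp : p.Prime) (P : List α → Prop)
    (hP : ∀ l, P l → P (l.map g)) (ho : ∀ l, P l → l.map (g^[p]) = l)
    (hf : ∀ l, P l → l.map g ≠ l) :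
    ∃ (rep : List α → List α) (ix : List α → ℕ), ∀ l, P l → P (rep l) ∧ ix l < p ∧
      (rep l).map (g^[ix l]) = l ∧ rep (l.map g) = rep l ∧
      ∀ j, j < p → (rep l).map (g^[j]) = l → j = ix l := by
  have : Fact p.Prime := ⟨hp⟩
  simp only [vc6_it] at ho ⊢
  let Q : List α → List α → Prop := fun l s => P s ∧ ∃ j, (List.map g)^[j] s = l
  have hQ : ∀ l, P l → Q l (epsilon (Q l)) := fun l hl => epsilon_spec (p := Q l) ⟨l, hl, 0, rfl⟩
  have hex : ∀ l, ∃ j, P l → j < p ∧ (List.map g)^[j] (epsilon (Q l)) = l := by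
    intro l
    by_cases hl : P l
    · obtain ⟨h1, j, hj⟩ := hQ l hl
      have hper : Function.IsPeriodicPt (List.map g) p (epsilon (Q l)) := ho _ h1
      exact ⟨j % p, fun _ => ⟨Nat.mod_lt _ hp.pos, by rw [hper.iterate_mod_apply, hj]⟩⟩
    · exact ⟨0, fun h => absurd h hl⟩
  choose ix hix using hex
  refine ⟨fun l => epsilon (Q l), ix, fun l hl => ⟨(hQ l hl).1, (hix l hl).1, (hix l hl).2, ?_,
    fun j hj h => ?_⟩⟩
  · have e : Q (l.map g) = Q l := by
      funext s
      refine propext (and_congr_right fun _ => ⟨?_, ?_⟩)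
      · rintro ⟨j, hj⟩
        refine ⟨p - 1 + j, ?_⟩
        have e1 : p - 1 + 1 = p := Nat.sub_add_cancel hp.pos
        rw [Function.iterate_add_apply, hj, ← Function.iterate_succ_apply, Nat.succ_eq_add_one, e1]
        exact ho l hl
      · rintro ⟨j, hj⟩
        exact ⟨j + 1, by rw [Function.iterate_succ_apply', hj]⟩
    show epsilon (Q (l.map g)) = epsilon (Q l)
    rw [e]
  · have h1 := (hQ l hl).1
    have hm : Function.minimalPeriod (List.map g) (epsilon (Q l)) = p :=
      Function.minimalPeriod_eq_prime (ho _ h1) (hf _ h1)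
    exact (Function.iterate_eq_iterate_iff_of_lt_minimalPeriod (by rw [hm]; exact hj)
      (by rw [hm]; exact (hix l hl).1)).1 (h.trans (hix l hl).2.symm)

theorem vc6_P (g : α → α) (P : List α → Prop) (hP : ∀ l, P l → P (l.map g)) (l : List α)
    (hl : P l) (j : ℕ) : P (l.map (g^[j])) := by
  induction j with
  | zero => simpa using hl
  | succ j ih =>
    rw [Function.iterate_succ', ← List.map_map]
    exact hP _ ih

theorem exact_nrm (g : α → α) (p : ℕ) (hp : p.Prime) (P : List α → Prop)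
    (hP : ∀ l, P l → P (l.map g)) (ho : ∀ l, P l → l.map (g^[p]) = l)
    (hf : ∀ l, P l → l.map g ≠ l) {z : Ch α} (hz : z ∈ Sp P) (h : nrm g p z = 0) :
    ∃ w ∈ Sp P, z = tau g w := by
  obtain ⟨rep, ix, hr⟩ := reps g p hp P hP ho hf
  let R : Ch α →+ Ch α := FreeAbelianGroup.lift fun l => ofL (rep l)
  let H : Ch α →+ Ch α := FreeAbelianGroup.lift fun l =>
    ∑ j ∈ Finset.range (ix l), ofL ((rep l).map (g^[j]))
  have hR : ∀ l, R (ofL l) = ofL (rep l) := fun l => FreeAbelianGroup.lift_apply_of _ _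
  have hH : ∀ l, H (ofL l) = ∑ j ∈ Finset.range (ix l), ofL ((rep l).map (g^[j])) :=
    fun l => FreeAbelianGroup.lift_apply_of _ _
  have h1 : (AddMonoidHom.id (Ch α)) z = ((tau g).comp H + R) z := by
    refine Sp_ext _ _ (fun l hl => ?_) hz
    have e : ∀ j, tau g (ofL ((rep l).map (g^[j]))) =
        ofL ((rep l).map (g^[j + 1])) - ofL ((rep l).map (g^[j])) := by
      intro j
      rw [tau, AddMonoidHom.sub_apply, mp_ofL, List.map_map, Function.iterate_succ']
      rfl
    rw [AddMonoidHom.add_apply, AddMonoidHom.comp_apply, hR, hH, map_sum]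
    simp only [e]
    rw [Finset.sum_range_sub (fun j => ofL ((rep l).map (g^[j]))), (hr l hl).2.2.1]
    simp
  have hrep : ∀ l, P l → ∀ i, rep (l.map (g^[i])) = rep l := by
    intro l hl i
    induction i with
    | zero => simp
    | succ i ih =>
      rw [Function.iterate_succ', ← List.map_map, (hr _ (vc6_P g P hP l hl i)).2.2.2.1, ih]
  have h2 : (R.comp (nrm g p)) z = (p • R) z := by
    refine Sp_ext _ _ (fun l hl => ?_) hz
    rw [AddMonoidHom.comp_apply, nrm, AddMonoidHom.finsetSum_apply, map_sum]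
    simp only [mp_ofL, hR, hrep l hl]
    rw [Finset.sum_const, Finset.card_range, AddMonoidHom.nsmul_apply, hR]
  have h3 : R z = 0 := by
    rw [AddMonoidHom.comp_apply, h, map_zero, AddMonoidHom.nsmul_apply] at h2
    have h4 : (p : ℤ) • R z = 0 := by rw [natCast_zsmul]; exact h2.symm
    exact (smul_eq_zero.1 h4).resolve_left (by exact_mod_cast hp.ne_zero)
  refine ⟨H z, Sp_map H _ (fun l hl => ?_) hz, ?_⟩
  · rw [hH]
    exact sum_mem fun j _ => ofL_mem (vc6_P g P hP _ (hr l hl).1 j)
  · rw [AddMonoidHom.add_apply, h3, add_zero] at h1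
    exact h1

end Pool.Agent.P.MP_6990a0_al.VC
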