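import Pool.Agent.P.MP_6990a0_al.VC6

namespace Pool.Agent.P.MP_6990a0_al.VC

open Classical

variable {α β : Type*}

theorem exact_tau (g : α → α) (p : ℕ) (hp : p.Prime) (P : List α → Prop)
    (hP : ∀ l, P l → P (l.map g)) (ho : ∀ l, P l → l.map (g^[p]) = l)
    (hf : ∀ l, P l → l.map g ≠ l) {z : Ch α} (hz : z ∈ Sp P) (h : tau g z = 0) :
    ∃ w ∈ Sp P, z = nrm g p w := by
  obtain ⟨rep, ix, H⟩ := reps g p hp P hP ho hf
  have hPi : ∀ (i : ℕ) l, P l → P (l.map (g^[i])) ∧ rep (l.map (g^[i])) = rep l := by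
    intro i
    induction i with
    | zero => intro l hl; simpa using hl
    | succ i ih =>
      intro l hl
      have e : l.map (g^[i + 1]) = (l.map (g^[i])).map g := by
        rw [List.map_map, Function.iterate_succ']
      rw [e]
      exact ⟨hP _ (ih l hl).1, ((H _ (ih l hl).1).2.2.2.1).trans (ih l hl).2⟩
  have hix : ∀ s, P s → (ix s = 0 ↔ rep s = s) := by
    intro s hs
    obtain ⟨-, -, a, -, b⟩ := H s hs
    constructor
    · intro h0
      simpa [h0] using a
    · intro h0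
      exact (b 0 hp.pos (by simpa using h0)).symm
  have hcomp : ∀ j, j < p → ∀ l : List α,
      (l.map (g^[p - j])).map (g^[j]) = l.map (g^[p]) ∧
        (l.map (g^[j])).map (g^[p - j]) = l.map (g^[p]) := by
    intro j hj l
    rw [List.map_map, List.map_map, ← Function.iterate_add, ← Function.iterate_add,
      Nat.add_sub_cancel' hj.le, Nat.sub_add_cancel hj.le]
    exact ⟨rfl, rfl⟩
  have key : ∀ l, P l → ∀ j, j < p → (ix (l.map (g^[p - j])) = 0 ↔ j = ix l) := by
    intro l hl j hj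
    obtain ⟨a0, -, a, -, b⟩ := H l hl
    rw [hix _ (hPi _ l hl).1, (hPi _ l hl).2]
    constructor
    · intro h0
      refine b j hj ?_
      rw [h0, (hcomp j hj l).1, ho l hl]
    · intro h0
      rw [← h0] at a
      have := (hcomp j hj (rep l)).2
      rw [a, ho _ a0] at this
      exact this.symm
  let Q : Ch α →+ Ch α := FreeAbelianGroup.lift fun l => if ix l = 0 then ofL l else 0
  have hQ : ∀ l, Q (ofL l) = if ix l = 0 then ofL l else 0 := fun l =>
    FreeAbelianGroup.lift_apply_of _ _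
  have hg : mp g z = z := by
    have : mp g z - z = 0 := h
    exact sub_eq_zero.1 this
  have hgi : ∀ i : ℕ, mp (g^[i]) z = z := by
    intro i
    induction i with
    | zero => exact mp_id z
    | succ i ih => rw [Function.iterate_succ', ← mp_mp, ih, hg]
  refine ⟨Q z, Sp_map Q (Sp P) (fun l hl => ?_) hz, ?_⟩
  · rw [hQ]
    split_ifs
    · exact ofL_mem hl
    · exact zero_mem _
  · have e := Sp_ext (P := P) (AddMonoidHom.id _)
      (∑ j ∈ Finset.range p, (mp (g^[j])).comp (Q.comp (mp (g^[p - j])))) (fun l hl => ?_) hz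
    · rw [AddMonoidHom.id_apply, AddMonoidHom.finsetSum_apply] at e
      rw [nrm, AddMonoidHom.finsetSum_apply]
      refine e.trans (Finset.sum_congr rfl fun j _ => ?_)
      rw [AddMonoidHom.comp_apply, AddMonoidHom.comp_apply, hgi]
    · rw [AddMonoidHom.id_apply, AddMonoidHom.finsetSum_apply,
        Finset.sum_eq_single (ix l)]
      · have hj := (H l hl).2.1
        rw [AddMonoidHom.comp_apply, AddMonoidHom.comp_apply, mp_ofL, hQ,
          if_pos ((key l hl _ hj).2 rfl), mp_ofL, (hcomp _ hj l).1, ho l hl]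
      · intro j hj hne
        rw [AddMonoidHom.comp_apply, AddMonoidHom.comp_apply, mp_ofL, hQ,
          if_neg fun h0 => hne ((key l hl j (Finset.mem_range.1 hj)).1 h0), map_zero]
      · intro hn
        exact absurd (Finset.mem_range.2 (H l hl).2.1) hn

theorem vc7_exact (g : α → α) (p : ℕ) (hp : p.Prime) (P : List α → Prop)
    (hP : ∀ l, P l → P (l.map g)) (ho : ∀ l, P l → l.map (g^[p]) = l)
    (hf : ∀ l, P l → l.map g ≠ l) (q : ℕ) {z : Ch α} (hz : z ∈ Sp P) (h : rho g p q z = 0) :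
    ∃ w ∈ Sp P, z = rho g p (q + 1) w := by
  unfold rho at h ⊢
  by_cases hq : q % 2 = 0
  · rw [if_pos hq] at h
    rw [if_neg (by omega)]
    exact exact_tau g p hp P hP ho hf hz h
  · rw [if_neg hq] at h
    rw [if_pos (by omega)]
    exact exact_nrm g p hp P hP ho hf hz h

theorem smith_alg (g : α → α) (p : ℕ) (hp : p.Prime) (𝓑 : Set α) (h1 : ∀ a ∈ 𝓑, g a ∈ 𝓑)
    (h2 : ∀ a ∈ 𝓑, g^[p] a = a) (h3 : ∀ a ∈ 𝓑, g a ≠ a) (N : ℕ) (d : ℕ → Ch α)
    (hd : ∀ q, q ≤ N → d q ∈ Sp (fun l => l.length = q + 1 ∧ ∀ a ∈ l, a ∈ 𝓑))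
    (h0 : bd (d 0) = ofL []) (hs : ∀ q, q < N → bd (d (q + 1)) = rho g p q (d q))
    (hN : d N = 0) : False := by
  have hex : ∀ (q : ℕ) {z : Ch α}, z ∈ Sp (fun l => l.length = q + 1 ∧ ∀ a ∈ l, a ∈ 𝓑) →
      rho g p q z = 0 →
      ∃ w ∈ Sp (fun l => l.length = q + 1 ∧ ∀ a ∈ l, a ∈ 𝓑), z = rho g p (q + 1) w := by
    intro q z hz h
    refine vc7_exact g p hp (fun l => l.length = q + 1 ∧ ∀ a ∈ l, a ∈ 𝓑) (fun l hl => ?_)
      (fun l hl => ?_) (fun l hl => ?_) q hz h
    · refine ⟨by simpa using hl.1, fun a ha => ?_⟩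
      obtain ⟨b, hb, rfl⟩ := List.mem_map.1 ha
      exact h1 b (hl.2 b hb)
    · exact (List.map_congr_left fun a ha => h2 a (hl.2 a ha)).trans (List.map_id' l)
    · obtain ⟨hl1, hl2⟩ := hl
      cases l with
      | nil => simp at hl1
      | cons a l =>
        intro e
        rw [List.map_cons] at e
        exact h3 a (hl2 a List.mem_cons_self) (List.cons.inj e).1
  have hbd : ∀ (q : ℕ) {z : Ch α}, z ∈ Sp (fun l => l.length = q + 1 + 1 ∧ ∀ a ∈ l, a ∈ 𝓑) →
      bd z ∈ Sp (fun l => l.length = q + 1 ∧ ∀ a ∈ l, a ∈ 𝓑) := by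
    intro q z hz
    refine Sp_map bd _ (fun l hl => ?_) hz
    rw [bd_ofL]
    refine Sp_mono (fun s hs => ⟨?_, fun a ha => hl.2 a (hs.1.subset ha)⟩) (bdL_mem l)
    have := hs.2
    have := hl.1
    omega
  have main : ∀ k q, q + k = N → ∃ y, ∃ w ∈ Sp (fun l => l.length = q + 1 ∧ ∀ a ∈ l, a ∈ 𝓑),
      d q = bd y + rho g p (q + 1) w := by
    intro k
    induction k with
    | zero =>
      intro q hq
      have : q = N := by omega
      exact ⟨0, 0, zero_mem _, by rw [this, hN, map_zero, map_zero, add_zero]⟩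
    | succ k ih =>
      intro q hq
      obtain ⟨y, w, hw, e⟩ := ih (q + 1) (by omega)
      have e1 := congrArg bd e
      have e2 : rho g p (q + 1 + 1) = rho g p q := by
        unfold rho
        rw [show (q + 1 + 1) % 2 = q % 2 by omega]
      rw [hs q (by omega), map_add, bd_bd, zero_add, bd_rho, e2] at e1
      obtain ⟨w', hw', e3⟩ := hex q (sub_mem (hd q (by omega)) (hbd q hw))
        (by rw [map_sub, e1, sub_self])
      exact ⟨w, w', hw', by rw [← e3]; abel⟩
  obtain ⟨y, w, -, e⟩ := main N 0 (by omega)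
  have e1 := congrArg bd e
  rw [h0, map_add, bd_bd, zero_add, bd_rho, rho_apply, if_neg (by omega)] at e1
  let ε : Ch α →+ ℤ := FreeAbelianGroup.lift fun _ => (1 : ℤ)
  have hε : ∀ l, ε (ofL l) = 1 := fun l => FreeAbelianGroup.lift_apply_of _ _
  have hm : ∀ (f : α → α) (z : Ch α), ε (mp f z) = ε z := by
    intro f z
    have : ε.comp (mp f) = ε := by
      refine FreeAbelianGroup.lift_ext _ _ fun l => ?_
      exact (congrArg ε (mp_ofL f l)).trans ((hε _).trans (hε l).symm)
    exact DFunLike.congr_fun this z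
  have e2 := congrArg ε e1
  rw [hε, map_sum] at e2
  simp only [hm, Finset.sum_const, Finset.card_range, nsmul_eq_mul] at e2
  have e3 : (p : ℤ) ∣ 1 := ⟨_, e2⟩
  have e4 : p ∣ 1 := by exact_mod_cast e3
  exact hp.one_lt.ne' (Nat.dvd_one.1 e4)

end Pool.Agent.P.MP_6990a0_al.VC
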