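import Pool.Agent.P.MP_6990a0_al.VDefs

namespace Pool.Agent.P.MP_6990a0_al.VC

open Classical

section Lat
variable {L : Type*} [CompleteLattice L]

/-- filtrations of `W` in a complete lattice -/
structure Filt (W : L) (x : ℝ → L) : Prop where
  anti : Antitone x
  le : ∀ t, x t ≤ W
  low : ∃ l, x l = W
  high : ∃ h, x h = ⊥
  left : ∀ t, ∃ ε, 0 < ε ∧ x (t - ε) = x t

def add (x y : ℝ → L) : ℝ → L := fun t => ⨆ a, x a ⊓ y (t - a)

noncomputable def zero (W : L) : ℝ → L := fun t => if t ≤ 0 then W else ⊥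

noncomputable def sc (s : ℝ) (x : ℝ → L) : ℝ → L := fun t => x (t / s)

noncomputable def sm (W : L) (s : ℝ) (x : ℝ → L) : ℝ → L := if 0 < s then sc s x else zero W

def bot (W : L) (x : ℝ → L) : L := sSup {B | B ≠ W ∧ ∃ t, x t = B}

def res (B : L) (x : ℝ → L) : ℝ → L := fun t => x t ⊓ B

def Near (ε : ℝ) (x y : ℝ → L) : Prop := ∀ t, x t ≤ y (t - ε)

noncomputable def sumL (W : L) (l : List (ℝ → L)) : ℝ → L := l.foldr add (zero W)

structure Cone (W : L) (D : Set (ℝ → L)) : Prop where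
  ne : D.Nonempty
  filt : ∀ x ∈ D, Filt W x
  add_mem : ∀ x ∈ D, ∀ y ∈ D, add x y ∈ D
  sc_mem : ∀ s : ℝ, 0 < s → ∀ x ∈ D, sc s x ∈ D

/-- the set of bottoms -/
def bots (W : L) (D : Set (ℝ → L)) : Set L := {B | ∃ x ∈ D, bot W x = B}

/-- restriction of the part of `D` with bottom inside `B` -/
def resD (W B : L) (D : Set (ℝ → L)) : Set (ℝ → L) := {y | ∃ x ∈ D, bot W x ≤ B ∧ y = res B x}

def Phi {E : Type*} (𝓑 : Set L) (β : E → L) (s : List E) : L :=
  sSup {B | B ∈ 𝓑 ∧ ∀ v ∈ s, B ≤ β v}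

def Lip {ι : Type*} [Fintype ι] (f : (ι → ℝ) → ℝ → L) : Prop :=
  ∃ M : ℝ, 0 ≤ M ∧ ∀ v v', Near (M * dist v v') (f v) (f v')

structure Act {Γ : Type*} [Group Γ] (a : Γ → L ≃o L) : Prop where
  one : ∀ B, a 1 B = B
  mul : ∀ g h B, a (g * h) B = a g (a h B)

/-- the points of `D` fixed by a set of group elements -/
def Fix {Γ : Type*} (a : Γ → L ≃o L) (D : Set (ℝ → L)) (S : Set Γ) : Set (ℝ → L) :=
  {x | x ∈ D ∧ ∀ g ∈ S, a g ∘ x = x}

end Lat

section Chains
variable {α β : Type*}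

abbrev Ch (α : Type*) := FreeAbelianGroup (List α)

def ofL (l : List α) : Ch α := FreeAbelianGroup.of l

def cns (a : α) : Ch α →+ Ch α := FreeAbelianGroup.map (List.cons a)

def mp (f : α → β) : Ch α →+ Ch β := FreeAbelianGroup.map (List.map f)

def bdL : List α → Ch α
  | [] => 0
  | a :: l => ofL l - cns a (bdL l)

def bd : Ch α →+ Ch α := FreeAbelianGroup.lift bdL

def psi (c : List α → β) : ℕ → (Ch α →+ Ch β)
  | 0 => FreeAbelianGroup.lift fun _ => ofL []
  | n + 1 => FreeAbelianGroup.lift fun l => cns (c l) (psi c n (bdL l))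

def Sp (P : List α → Prop) : AddSubgroup (Ch α) := AddSubgroup.closure (ofL '' {l | P l})

/-- `m` is the list of apexes of a decreasing chain of nonempty sublists of `l` -/
def Fl (c : List α → β) (l : List α) (m : List β) : Prop :=
  ∃ ss : List (List α), m = ss.map c ∧ ss.length = l.length ∧
    (∀ s ∈ ss, s.Sublist l ∧ s ≠ []) ∧ ss.Pairwise (fun s s' => s'.Sublist s)

noncomputable def nm : Ch α →+ Ch α := FreeAbelianGroup.lift fun l => if l.Nodup then ofL l else 0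

def nrm (g : α → α) (p : ℕ) : Ch α →+ Ch α := ∑ i ∈ Finset.range p, mp (g^[i])

def tau (g : α → α) : Ch α →+ Ch α := mp g - AddMonoidHom.id _

def rho (g : α → α) (p q : ℕ) : Ch α →+ Ch α := if q % 2 = 0 then tau g else nrm g p

noncomputable def bary {ι : Type*} (l : List (ι → ℝ)) : ι → ℝ := (l.length : ℝ)⁻¹ • l.sum

noncomputable def sdI {ι : Type*} (n : ℕ) : ℕ → (Ch (ι → ℝ) →+ Ch (ι → ℝ))
  | 0 => AddMonoidHom.id _
  | r + 1 => (psi bary n).comp (sdI n r)

noncomputable def Psi {ι L : Type*} [CompleteLattice L] (𝓑 : Set L) (β : (ι → ℝ) → L) (r n : ℕ) :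
    Ch (ι → ℝ) →+ Ch L := (psi (Phi 𝓑 β) n).comp (sdI n r)

def hullL {ι : Type*} (l : List (ι → ℝ)) : Set (ι → ℝ) := convexHull ℝ {u | u ∈ l}

/-- the shift on `Fin (N+1) × ZMod p` -/
def sh (N p : ℕ) : Fin (N + 1) × ZMod p → Fin (N + 1) × ZMod p := fun z => (z.1, z.2 + 1)

def src (N p : ℕ) : ℕ → Ch (Fin (N + 1) × ZMod p)
  | 0 => ofL [(0, 0)]
  | q + 1 => cns (⟨min (q + 1) N, Nat.lt_succ_of_le (min_le_right _ _)⟩, 0)
      (rho (sh N p) p q (src N p q))

end Chains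

section Lin
variable {k V : Type*} [Field k] [AddCommGroup V] [Module k V]

/-- the lattice automorphism induced by a semilinear bijection -/
def latIso (σ : k ≃+* k) (e : V ≃+ V) (h : ∀ c v, e (c • v) = σ c • e v) :
    Submodule k V ≃o Submodule k V where
  toFun S :=
    { carrier := {v | e.symm v ∈ S}
      add_mem' := fun {a b} ha hb => by
        simp only [Set.mem_setOf_eq, map_add] at *; exact S.add_mem ha hb
      zero_mem' := by simp
      smul_mem' := fun c v hv => by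
        have : e.symm (c • v) = σ.symm c • e.symm v := by
          apply e.injective; rw [h]; simp
        simp only [Set.mem_setOf_eq, this] at *; exact S.smul_mem _ hv }
  invFun S :=
    { carrier := {v | e v ∈ S}
      add_mem' := fun {a b} ha hb => by
        simp only [Set.mem_setOf_eq, map_add] at *; exact S.add_mem ha hb
      zero_mem' := by simp
      smul_mem' := fun c v hv => by
        simp only [Set.mem_setOf_eq, h] at *; exact S.smul_mem _ hv }
  left_inv S := by ext v; change e.symm (e v) ∈ S ↔ v ∈ S; simp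
  right_inv S := by ext v; change e (e.symm v) ∈ S ↔ v ∈ S; simp
  map_rel_iff' := by
    intro S T
    constructor
    · intro hh v hv
      have : e v ∈ {v | e.symm v ∈ T} := hh (show e v ∈ {v | e.symm v ∈ S} by simpa using hv)
      simpa using this
    · intro hh v hv
      exact hh hv

/-- the action of a semilinear group on subspaces -/
def lat {Γ : Type*} [Group Γ] [MulSemiringAction Γ k] [DistribMulAction Γ V]
    (semi : ∀ (g : Γ) (c : k) (v : V), g • (c • v) = (g • c) • (g • v)) (g : Γ) :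
    Submodule k V ≃o Submodule k V :=
  latIso (MulSemiringAction.toRingEquiv Γ k g) (DistribMulAction.toAddEquiv V g) (semi g)

structure KCone (K : Subfield ℝ) (D : Set (ℝ → Submodule k V)) : Prop where
  pts : ∀ x ∈ D, ∃ (n : ℕ) (b : Module.Basis (Fin n) k V) (w : Fin n → ℝ),
    (∀ i, w i ∈ K) ∧ x = chart k b w
  add_mem : ∀ x ∈ D, ∀ y ∈ D, add x y ∈ D
  sc_mem : ∀ s ∈ K, 0 < s → ∀ x ∈ D, sc s x ∈ D

/-- the unopposed points -/
def Un (C : Set (ℝ → Submodule k V)) : Set (ℝ → Submodule k V) :=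
  {x | x ∈ C ∧ ∀ y ∈ C, ¬ Opp x y}

/-- real points of a `K`-cone -/
def DR (K : Subfield ℝ) (D : Set (ℝ → Submodule k V)) : Set (ℝ → Submodule k V) :=
  {x | ∃ (n : ℕ) (b : Module.Basis (Fin n) k V) (w : Fin n → ℝ) (Z : Finset ℝ),
    x = chart k b w ∧ ∀ T : ℝ →ₗ[K] K, (∀ z ∈ Z, 0 < z → (0 : ℝ) < (T z : ℝ)) →
      chart k b (fun i => (T (w i) : ℝ)) ∈ D}

def Mx {Ω : Type*} {n : ℕ} (c : Ω → Fin n × Fin n → k) (x : Ω) : Matrix (Fin n) (Fin n) k :=
  Matrix.of fun i j => c x (i, j)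

def vec {n : ℕ} (e : Fin n → V) (M : Matrix (Fin n) (Fin n) k) : Fin n → V :=
  fun i => ∑ j, M i j • e j

def Irr {X P : Type*} [CommRing P] (ev : X → P →+* k) (Ω : Set X) : Prop :=
  ∀ f g, (∀ x ∈ Ω, ev x f = 0 ∨ ev x g = 0) → (∀ x ∈ Ω, ev x f = 0) ∨ (∀ x ∈ Ω, ev x g = 0)

/-- polynomial functions on sequences of points -/
def RR {Ω τ : Type*} (c : Ω → τ → k) : Subalgebra k ((ℕ → Ω) → k) :=
  Algebra.adjoin k {F | ∃ s j, F = fun ω => c (ω s) j}

noncomputable def rowK {R : Type*} [CommRing R] {n : ℕ} (B : Matrix (Fin n) (Fin n) R) :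
    Fin n → Fin n → FractionRing R := fun i j => algebraMap R (FractionRing R) (B i j)

variable {Ω : Type*}

def evR (R : Subalgebra k ((ℕ → Ω) → k)) (ω : ℕ → Ω) : R →+* k :=
  (Pi.evalRingHom (fun _ : ℕ → Ω => k) ω).comp R.val.toRingHom

def PermCl (R : Subalgebra k ((ℕ → Ω) → k)) : Prop :=
  ∀ (π : Equiv.Perm ℕ), ∀ F ∈ R, (fun ω : ℕ → Ω => F (ω ∘ π)) ∈ R

def prm (R : Subalgebra k ((ℕ → Ω) → k)) (hp : PermCl R) (π : Equiv.Perm ℕ) : R ≃+* R where
  toFun F := ⟨fun ω => F.1 (ω ∘ π), hp π F.1 F.2⟩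
  invFun F := ⟨fun ω => F.1 (ω ∘ π.symm), hp π.symm F.1 F.2⟩
  left_inv F := by ext ω; simp [Function.comp_assoc]
  right_inv F := by ext ω; simp [Function.comp_assoc]
  map_mul' F G := rfl
  map_add' F G := rfl

noncomputable def prmK (R : Subalgebra k ((ℕ → Ω) → k)) (hp : PermCl R) (π : Equiv.Perm ℕ) :
    FractionRing R ≃+* FractionRing R := IsFractionRing.ringEquivOfRingEquiv (prm R hp π)

noncomputable def phiP (R : Subalgebra k ((ℕ → Ω) → k)) [IsDomain R] (hp : PermCl R) (n : ℕ)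
    (π : Equiv.Perm ℕ) :
    Submodule (FractionRing R) (Fin n → FractionRing R) ≃o
      Submodule (FractionRing R) (Fin n → FractionRing R) :=
  latIso (prmK R hp π) (AddEquiv.piCongrRight fun _ => (prmK R hp π).toAddEquiv)
    (fun c v => by ext j; simp)

/-- the generic cone -/
def DD (R : Subalgebra k ((ℕ → Ω) → k)) [IsDomain R] {n : ℕ} (e : Fin n → V)
    (D : Set (ℝ → Submodule k V)) (𝓣 : Set ((Ω → Ω) × (Submodule k V ≃o Submodule k V))) :
    Set (ℝ → Submodule (FractionRing R) (Fin n → FractionRing R)) :=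
  {x' | ∃ Φ : (ℕ → Ω) → ℝ → Submodule k V, (∀ ω, Φ ω ∈ D) ∧
    (∀ p ∈ 𝓣, ∀ ω, Φ (p.1 ∘ ω) = p.2 ∘ Φ ω) ∧
    ∃ (B : Matrix (Fin n) (Fin n) R) (w : Fin n → ℝ) (f : R), f ≠ 0 ∧
      x' = chart (FractionRing R) (rowK B) w ∧
      ∀ ω, evR R ω f ≠ 0 → evR R ω B.det ≠ 0 ∧ Φ ω = chart k (vec e (B.map (evR R ω))) w}

end Lin

end Pool.Agent.P.MP_6990a0_al.VC
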