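import Mathlib

namespace Pool.Agent.P.MP_6990a0_al.VC

/-- The decreasing filtration with weights `w` on the family `b`: at level `t` it is the span of
the `b i` with `t ≤ w i`. -/
def chart (k : Type*) {V ι : Type*} [Field k] [AddCommGroup V] [Module k V]
    (b : ι → V) (w : ι → ℝ) : ℝ → Submodule k V :=
  fun t => Submodule.span k (b '' {i | t ≤ w i})

/-- Two filtrations are opposite if they have weights `w` and `-w` on one basis. -/
def Opp {k V : Type*} [Field k] [AddCommGroup V] [Module k V] (x y : ℝ → Submodule k V) : Prop :=
  ∃ (n : ℕ) (b : Module.Basis (Fin n) k V) (w : Fin n → ℝ),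
    x = chart k b w ∧ y = chart k b (-w)

end Pool.Agent.P.MP_6990a0_al.VC
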