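import Pool.Agent.P.MP_6990a0_al.VD

namespace Pool.Agent.P.MP_6990a0_al.VC

open Classical

variable {k X P : Type*} [Field k] [CommRing P]

theorem vg1_lt (ev : X → P →+* k) (A : Set X) (f : P) (hf : ¬ ∀ x ∈ A, ev x f = 0) :
    (⨅ x ∈ A, RingHom.ker (ev x)) < ⨅ x ∈ {x ∈ A | ev x f = 0}, RingHom.ker (ev x) := by
  refine lt_of_le_of_ne (biInf_mono fun x hx => hx.1) fun h => hf ?_
  have h1 : f ∈ ⨅ x ∈ {x ∈ A | ev x f = 0}, RingHom.ker (ev x) := by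
    simp only [Submodule.mem_iInf, RingHom.mem_ker]
    exact fun x hx => hx.2
  rw [← h] at h1
  simpa only [Submodule.mem_iInf, RingHom.mem_ker] using h1

theorem zar_cover [IsNoetherianRing P] (ev : X → P →+* k) (A : Set X) :
    ∃ F : Set (Set X), F.Finite ∧ (∀ Ω ∈ F, Ω ⊆ A ∧ Irr ev Ω) ∧ ∀ x ∈ A, ∃ Ω ∈ F, x ∈ Ω := by
  suffices H : ∀ I : Ideal P, ∀ A : Set X, (⨅ x ∈ A, RingHom.ker (ev x)) = I →
      ∃ F : Set (Set X), F.Finite ∧ (∀ Ω ∈ F, Ω ⊆ A ∧ Irr ev Ω) ∧ ∀ x ∈ A, ∃ Ω ∈ F, x ∈ Ω from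
    H _ A rfl
  intro I
  induction I using WellFoundedGT.induction with
  | ind I ih =>
    intro A hA
    by_cases hI : Irr ev A
    · refine ⟨{A}, Set.finite_singleton _, ?_, fun x hx => ⟨A, rfl, hx⟩⟩
      rintro Ω rfl
      exact ⟨subset_rfl, hI⟩
    · unfold Irr at hI
      simp only [not_forall, not_or] at hI
      obtain ⟨f, g, hfg, hf, hg⟩ := hI
      have hf' : ¬ ∀ x ∈ A, ev x f = 0 := by simpa only [not_forall] using hf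
      have hg' : ¬ ∀ x ∈ A, ev x g = 0 := by simpa only [not_forall] using hg
      obtain ⟨F1, a1, b1, c1⟩ := ih _ (hA ▸ vg1_lt ev A f hf') _ rfl
      obtain ⟨F2, a2, b2, c2⟩ := ih _ (hA ▸ vg1_lt ev A g hg') _ rfl
      refine ⟨F1 ∪ F2, a1.union a2, ?_, fun x hx => ?_⟩
      · rintro Ω (h | h)
        · exact ⟨fun x hx => ((b1 Ω h).1 hx).1, (b1 Ω h).2⟩
        · exact ⟨fun x hx => ((b2 Ω h).1 hx).1, (b2 Ω h).2⟩
      · rcases hfg x hx with h | h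
        · obtain ⟨Ω, h1, h2⟩ := c1 x ⟨hx, h⟩
          exact ⟨Ω, Or.inl h1, h2⟩
        · obtain ⟨Ω, h1, h2⟩ := c2 x ⟨hx, h⟩
          exact ⟨Ω, Or.inr h1, h2⟩

theorem vg1_prod (ev : X → P →+* k) {A : Set X} (hA : Irr ev A) (hne : A.Nonempty)
    {G : Set (Set X)} (hG : G.Finite) :
    (∀ Ω ∈ G, ∃ f, (∀ y ∈ Ω, ev y f = 0) ∧ ∃ x ∈ A, ev x f ≠ 0) →
      ∃ f, (∀ Ω ∈ G, ∀ y ∈ Ω, ev y f = 0) ∧ ∃ x ∈ A, ev x f ≠ 0 := by
  induction G, hG using Set.Finite.induction_on with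
  | empty =>
    intro _
    obtain ⟨x, hx⟩ := hne
    exact ⟨1, fun Ω h => h.elim, x, hx, by simp⟩
  | @insert Ω G _ _ ih =>
    intro h
    obtain ⟨f0, a0, x0, hx0, b0⟩ := ih fun Ω' h' => h Ω' (Set.mem_insert_of_mem _ h')
    obtain ⟨f1, a1, x1, hx1, b1⟩ := h Ω (Set.mem_insert _ _)
    refine ⟨f0 * f1, ?_, ?_⟩
    · rintro Ω' (rfl | h') y hy
      · rw [map_mul, a1 y hy, mul_zero]
      · rw [map_mul, a0 Ω' h' y hy, zero_mul]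
    · by_contra hc
      have h1 : ∀ x ∈ A, ev x f0 = 0 ∨ ev x f1 = 0 := fun x hx => by
        by_contra h2
        refine hc ⟨x, hx, ?_⟩
        rw [map_mul]
        exact fun h3 => h2 (mul_eq_zero.1 h3)
      rcases hA f0 f1 h1 with h2 | h2
      · exact b0 (h2 x0 hx0)
      · exact b1 (h2 x1 hx1)

theorem zar_fin [IsNoetherianRing P] (ev : X → P →+* k) (O : Set X) (hO : O.Nonempty) :
    {Ω | Maximal (fun A => A ⊆ O ∧ Irr ev A) Ω}.Finite ∧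
      ∃ Ω, Maximal (fun A => A ⊆ O ∧ Irr ev A) Ω ∧ Ω.Nonempty := by
  obtain ⟨F, hF, hI, hc⟩ := zar_cover ev O
  let cl : Set X → Set X := fun Ω => {x ∈ O | ∀ f, (∀ y ∈ Ω, ev y f = 0) → ev x f = 0}
  have hsub : ∀ Ω ∈ F, Ω ⊆ cl Ω := fun Ω h x hx => ⟨(hI Ω h).1 hx, fun f hf => hf x hx⟩
  have hcl : ∀ Ω ∈ F, cl Ω ⊆ O ∧ Irr ev (cl Ω) := fun Ω h => by
    refine ⟨fun x hx => hx.1, fun f g hfg => ?_⟩
    rcases (hI Ω h).2 f g fun x hx => hfg x (hsub Ω h hx) with h1 | h1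
    · exact Or.inl fun x hx => hx.2 f h1
    · exact Or.inr fun x hx => hx.2 g h1
  have key : ∀ A, A ⊆ O → Irr ev A → A.Nonempty → ∃ Ω ∈ F, A ⊆ cl Ω := fun A h1 h2 h3 => by
    by_contra hn
    obtain ⟨f, a, x, hx, b⟩ := vg1_prod ev h2 h3 hF fun Ω hΩ => by
      by_contra h4
      refine hn ⟨Ω, hΩ, fun x hx => ⟨h1 hx, fun f hf => ?_⟩⟩
      by_contra h5
      exact h4 ⟨f, hf, x, hx, h5⟩
    obtain ⟨Ω, hΩ, hx'⟩ := hc x (h1 hx)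
    exact b (a Ω hΩ x hx')
  obtain ⟨x0, hx0⟩ := hO
  obtain ⟨Ω0, hΩ0, hx0'⟩ := hc x0 hx0
  constructor
  · refine (hF.image cl).subset fun A hA => ?_
    have hA' : Maximal (fun A => A ⊆ O ∧ Irr ev A) A := hA
    have hne : A.Nonempty := by
      rcases A.eq_empty_or_nonempty with h | h
      · have h1 : Ω0 ≤ A := hA'.2 (hI Ω0 hΩ0) (by rw [h]; exact Set.empty_subset _)
        exact ⟨x0, h1 hx0'⟩
      · exact h
    obtain ⟨Ω, hΩ, h1⟩ := key A hA'.1.1 hA'.1.2 hne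
    exact ⟨Ω, hΩ, Set.Subset.antisymm (hA'.2 (hcl Ω hΩ) h1) h1⟩
  · obtain ⟨M, hM0, hM⟩ := (hF.image cl).exists_le_maximal (a := cl Ω0) ⟨Ω0, hΩ0, rfl⟩
    have hx : x0 ∈ M := hM0 (hsub Ω0 hΩ0 hx0')
    refine ⟨M, ⟨?_, fun A hA hMA => ?_⟩, x0, hx⟩
    · obtain ⟨Ω, hΩ, rfl⟩ := hM.1
      exact hcl Ω hΩ
    · obtain ⟨Ω, hΩ, h1⟩ := key A hA.1 hA.2 ⟨x0, hMA hx⟩
      exact h1.trans (hM.2 ⟨Ω, hΩ, rfl⟩ (hMA.trans h1))

open Pointwise in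
theorem zar [IsNoetherianRing P] (ev : X → P →+* k) {Γ : Type*} [Group Γ] [MulAction Γ X]
    (O : Set X) (hO : O.Nonempty) (hinv : ∀ g : Γ, ∀ x ∈ O, g • x ∈ O)
    (halg : ∀ (g : Γ) (f : P), ∃ f' : P, ∀ x ∈ O, (ev (g • x) f = 0 ↔ ev x f' = 0)) :
    ∃ (Ω : Set X) (H : Subgroup Γ), Ω ⊆ O ∧ Ω.Nonempty ∧ Irr ev Ω ∧ H.FiniteIndex ∧
      ∀ g ∈ H, ∀ x ∈ Ω, g • x ∈ Ω := by
  obtain ⟨hfin, Ω, hΩ, hne⟩ := zar_fin ev O hO
  have hQ : ∀ (g : Γ) (A : Set X), A ⊆ O ∧ Irr ev A → g • A ⊆ O ∧ Irr ev (g • A) := by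
    intro g A hA
    constructor
    · rintro _ ⟨x, hx, rfl⟩
      exact hinv g x (hA.1 hx)
    · intro f1 f2 h
      obtain ⟨f1', h1⟩ := halg g f1
      obtain ⟨f2', h2⟩ := halg g f2
      have h3 : ∀ x ∈ A, ev x f1' = 0 ∨ ev x f2' = 0 := fun x hx => by
        rw [← h1 x (hA.1 hx), ← h2 x (hA.1 hx)]
        exact h _ ⟨x, hx, rfl⟩
      rcases hA.2 f1' f2' h3 with h4 | h4
      · left
        rintro _ ⟨x, hx, rfl⟩
        exact (h1 x (hA.1 hx)).2 (h4 x hx)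
      · right
        rintro _ ⟨x, hx, rfl⟩
        exact (h2 x (hA.1 hx)).2 (h4 x hx)
  have hM : ∀ g : Γ, Maximal (fun A => A ⊆ O ∧ Irr ev A) (g • Ω) := fun g => by
    refine ⟨hQ g Ω hΩ.1, fun B hB hle => ?_⟩
    have h1 : Ω ⊆ g⁻¹ • B := Set.smul_set_subset_iff_subset_inv_smul_set.1 hle
    have h2 : g⁻¹ • B ⊆ Ω := hΩ.2 (hQ g⁻¹ B hB) h1
    have h3 := Set.smul_set_subset_iff_subset_inv_smul_set.1 h2
    rwa [inv_inv] at h3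
  have horb : (MulAction.orbit Γ Ω).Finite := hfin.subset (by
    rintro _ ⟨g, rfl⟩
    exact hM g)
  refine ⟨Ω, MulAction.stabilizer Γ Ω, hΩ.1.1, hne, hΩ.1.2, ⟨?_⟩, fun g hg x hx => ?_⟩
  · rw [MulAction.index_stabilizer]
    exact Set.ncard_ne_zero_of_mem (MulAction.mem_orbit_self Ω) horb
  · have h1 : g • Ω = Ω := hg
    rw [← h1]
    exact ⟨x, hx, rfl⟩

end Pool.Agent.P.MP_6990a0_al.VC
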