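import Pool.Agent.P.MP_6990a0_al.VG3
import Pool.Agent.P.MP_6990a0_al.VA2

namespace Pool.Agent.P.MP_6990a0_al.VC

open Classical

variable {k V : Type*} [Field k] [AddCommGroup V] [Module k V]
variable {Ω : Type*} (R : Subalgebra k ((ℕ → Ω) → k)) [IsDomain R] {n : ℕ}

theorem evR_ne {f : R} (hf : f ≠ 0) : ∃ ω, evR R ω f ≠ 0 := by
  by_contra h
  apply hf
  apply Subtype.ext
  funext ω
  by_contra h'
  exact h ⟨ω, h'⟩

theorem evR_prm (hp : PermCl R) (π : Equiv.Perm ℕ) (ω : ℕ → Ω) (F : R) :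
    evR R ω (prm R hp π F) = evR R (ω ∘ π) F := rfl

theorem vg4_prmK_alg (hp : PermCl R) (π : Equiv.Perm ℕ) (F : R) :
    prmK R hp π (algebraMap R (FractionRing R) F) =
      algebraMap R (FractionRing R) (prm R hp π F) :=
  IsFractionRing.ringEquivOfRingEquiv_algebraMap _ _

theorem vg4_prmK_one (hp : PermCl R) (z : FractionRing R) : prmK R hp 1 z = z := by
  obtain ⟨a, b, _, rfl⟩ := IsFractionRing.div_surjective (A := R) z
  rw [map_div₀, vg4_prmK_alg, vg4_prmK_alg]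
  rfl

theorem vg4_prmK_mul (hp : PermCl R) (π π' : Equiv.Perm ℕ) (z : FractionRing R) :
    prmK R hp (π * π') z = prmK R hp π (prmK R hp π' z) := by
  obtain ⟨a, b, _, rfl⟩ := IsFractionRing.div_surjective (A := R) z
  rw [map_div₀, map_div₀, map_div₀, vg4_prmK_alg, vg4_prmK_alg, vg4_prmK_alg, vg4_prmK_alg,
    vg4_prmK_alg, vg4_prmK_alg]
  rfl

theorem vg4_phiP_set (hp : PermCl R) (π : Equiv.Perm ℕ) (A : Set (Fin n → FractionRing R)) :
    phiP R hp n π (Submodule.span (FractionRing R) A) =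
      Submodule.span (FractionRing R) ((fun v j => prmK R hp π (v j)) '' A) :=
  latIso_span _ _ _ A

theorem phiP_span (hp : PermCl R) (π : Equiv.Perm ℕ) (B : Matrix (Fin n) (Fin n) R)
    (A : Set (Fin n)) : phiP R hp n π (Submodule.span (FractionRing R) (rowK B '' A)) =
      Submodule.span (FractionRing R) (rowK (B.map (prm R hp π)) '' A) := by
  rw [vg4_phiP_set, Set.image_image]
  have : (fun i => fun j => prmK R hp π (rowK B i j)) = rowK (B.map (prm R hp π)) := by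
    funext i j
    exact vg4_prmK_alg R hp π _
  rw [this]

theorem act_phiP (hp : PermCl R) : Act (phiP R hp n) := by
  constructor
  · intro S
    have h := vg4_phiP_set R hp 1 (S : Set (Fin n → FractionRing R))
    have e : (fun (v : Fin n → FractionRing R) j => prmK R hp 1 (v j)) = id := by
      funext v j
      exact vg4_prmK_one R hp _
    rw [e, Set.image_id, Submodule.span_eq] at h
    exact h
  · intro g h S
    have h1 := vg4_phiP_set R hp (g * h) (S : Set (Fin n → FractionRing R))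
    have h2 := vg4_phiP_set R hp h (S : Set (Fin n → FractionRing R))
    rw [Submodule.span_eq] at h1 h2
    rw [h1, h2, vg4_phiP_set, Set.image_image]
    have e : (fun (v : Fin n → FractionRing R) j => prmK R hp (g * h) (v j)) =
        fun v j => prmK R hp g (prmK R hp h (v j)) := by
      funext v j
      exact vg4_prmK_mul R hp g h _
    rw [e]

theorem DD_perm (hp : PermCl R) (e : Fin n → V) (D : Set (ℝ → Submodule k V))
    (𝓣 : Set ((Ω → Ω) × (Submodule k V ≃o Submodule k V))) (π : Equiv.Perm ℕ) :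
    ∀ x' ∈ DD R e D 𝓣, phiP R hp n π ∘ x' ∈ DD R e D 𝓣 := by
  rintro x' ⟨Φ, hΦ, hT, B, w, f, hf, rfl, hs⟩
  refine ⟨fun ω => Φ (ω ∘ π), fun ω => hΦ _, fun p hp' ω => hT p hp' (ω ∘ π),
    B.map (prm R hp π), w, prm R hp π f, ?_, ?_, ?_⟩
  · exact (map_ne_zero_iff _ (prm R hp π).injective).2 hf
  · funext t
    exact phiP_span R hp π B _
  · intro ω hω
    obtain ⟨h1, h2⟩ := hs (ω ∘ π) hω
    refine ⟨?_, h2⟩
    have hd : (B.map (prm R hp π)).det = prm R hp π B.det := by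
      rw [RingEquiv.map_det]
      rfl
    rw [hd]
    exact h1

theorem vg4_det_ne {B : Matrix (Fin n) (Fin n) R} {f : R} (hf : f ≠ 0)
    (h : ∀ ω, evR R ω f ≠ 0 → evR R ω B.det ≠ 0) : B.det ≠ 0 := by
  obtain ⟨ω, hω⟩ := evR_ne R hf
  intro h0
  apply h ω hω
  rw [h0, map_zero]

theorem vg4_filt {B : Matrix (Fin n) (Fin n) R} (hB : B.det ≠ 0) (w : Fin n → ℝ) :
    Filt ⊤ (chart (FractionRing R) (rowK B) w) := by
  have h := chart_filt (k := FractionRing R) (rowK B) w
  rw [(rowK_li B hB).2] at h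
  exact h

theorem DD_cone {e : Fin n → V} (he : LinearIndependent k e) {W : Submodule k V}
    {D : Set (ℝ → Submodule k V)} (hD : Cone W D)
    (𝓣 : Set ((Ω → Ω) × (Submodule k V ≃o Submodule k V))) (hne : (DD R e D 𝓣).Nonempty) :
    Cone ⊤ (DD R e D 𝓣) := by
  refine ⟨hne, ?_, ?_, ?_⟩
  · rintro x' ⟨Φ, _, _, B, w, f, hf, rfl, hs⟩
    exact vg4_filt R (vg4_det_ne R hf fun ω hω => (hs ω hω).1) w
  · rintro x' ⟨Φ, hΦ, hT, B1, w1, f1, hf1, rfl, hs1⟩ y' ⟨Ψ, hΨ, hT', B2, w2, f2, hf2, rfl, hs2⟩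
    have hB1 := vg4_det_ne R hf1 fun ω hω => (hs1 ω hω).1
    have hB2 := vg4_det_ne R hf2 fun ω hω => (hs2 ω hω).1
    have hn : Module.finrank (FractionRing R)
        (⊤ : Submodule (FractionRing R) (Fin n → FractionRing R)) = n := by
      rw [finrank_top, Module.finrank_fin_fun]
    obtain ⟨a, u, u', ha, _, hx, hy⟩ := common n ⊤ hn (vg4_filt R hB1 w1) (vg4_filt R hB2 w2)
    obtain ⟨B, hB, hc⟩ := clear_den a ha
    rw [hc] at hx hy
    obtain ⟨g1, hg1, hg1s⟩ := spec_chart (k := k) e B1 B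
    obtain ⟨g2, hg2, hg2s⟩ := spec_chart (k := k) e B2 B
    refine ⟨fun ω => add (Φ ω) (Ψ ω), fun ω => hD.add_mem _ (hΦ ω) _ (hΨ ω), ?_, B, u + u',
      f1 * f2 * g1 * g2 * B.det, ?_, ?_, ?_⟩
    · intro p hp ω
      simp only
      rw [hT p hp ω, hT' p hp ω, map_add']
    · exact mul_ne_zero (mul_ne_zero (mul_ne_zero (mul_ne_zero hf1 hf2) hg1) hg2) hB
    · rw [hx, hy, add_chart (rowK_li B hB).1]
    · intro ω hω
      simp only [map_mul, mul_ne_zero_iff] at hω
      obtain ⟨⟨⟨⟨e1, e2⟩, e3⟩, e4⟩, e5⟩ := hω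
      refine ⟨e5, ?_⟩
      have hd : (B.map (evR R ω)).det ≠ 0 := by
        have : (B.map (evR R ω)).det = evR R ω B.det := by
          rw [RingHom.map_det]
          rfl
        rw [this]
        exact e5
      simp only
      rw [(hs1 ω e1).2, (hs2 ω e2).2, hg1s _ e3 _ _ hx, hg2s _ e4 _ _ hy,
        add_chart (vec_li he _ hd).1]
  · rintro s hs0 x' ⟨Φ, hΦ, hT, B, w, f, hf, rfl, hs⟩
    refine ⟨fun ω => sc s (Φ ω), fun ω => hD.sc_mem s hs0 _ (hΦ ω), ?_, B, s • w, f, hf,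
      sc_chart _ _ hs0, ?_⟩
    · intro p hp ω
      simp only
      rw [hT p hp ω, map_sc]
    · intro ω hω
      refine ⟨(hs ω hω).1, ?_⟩
      simp only
      rw [(hs ω hω).2, sc_chart _ _ hs0]

end Pool.Agent.P.MP_6990a0_al.VC
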