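import Pool.Agent.P.MP_6990a0_al.VG4

namespace Pool.Agent.P.MP_6990a0_al.VC

open Classical

variable {k V : Type*} [Field k] [AddCommGroup V] [Module k V]
variable {Ω : Type*} (R : Subalgebra k ((ℕ → Ω) → k)) [IsDomain R] {n : ℕ}

theorem DD_const (hp : PermCl R)
    (hfin : ∀ F ∈ R, ∃ N : ℕ, ∀ ω ω' : ℕ → Ω, (∀ s, s < N → ω s = ω' s) → F ω = F ω')
    (hmix : ∀ (N : ℕ) (ω0 : ℕ → Ω), ∀ F ∈ R,
      (fun ω : ℕ → Ω => F (fun s => if s < N then ω s else ω0 s)) ∈ R)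
    (hn : 0 < n) {e : Fin n → V} (he : LinearIndependent k e) (D : Set (ℝ → Submodule k V))
    (𝓣 : Set ((Ω → Ω) × (Submodule k V ≃o Submodule k V)))
    (hT : ∀ p ∈ 𝓣, p.2 (Submodule.span k (Set.range e)) = Submodule.span k (Set.range e) ∧
      ∀ F : R, F ≠ 0 → ∃ F' : R, F' ≠ 0 ∧ ∀ ω, evR R ω F' ≠ 0 → evR R (p.1 ∘ ω) F ≠ 0)
    {T' : Submodule (FractionRing R) (Fin n → FractionRing R)} (hT' : T' ∈ bots ⊤ (DD R e D 𝓣))
    (hout : ∀ N : ℕ, ∃ π : Equiv.Perm ℕ, phiP R hp n π T' = T' ∧ ∀ s, s < N → N ≤ π s) :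
    ∃ T0 ∈ bots (Submodule.span k (Set.range e)) D, ∀ p ∈ 𝓣, p.2 T0 = T0 := by
  obtain ⟨_, ⟨Φ, hD, hΦ, B, w, f, hf, rfl, hB⟩, rfl⟩ := hT'
  have hdet : B.det ≠ 0 := by
    obtain ⟨ω, hω⟩ := evR_ne R hf
    intro h
    exact (hB ω hω).1 (by rw [h, map_zero])
  have : Nonempty (Fin n) := ⟨⟨0, hn⟩⟩
  obtain ⟨i0, h0⟩ := Finite.exists_min w
  have e0 := bot_chart (rowK_li B hdet).1 w i0 h0
  rw [(rowK_li B hdet).2] at e0
  obtain ⟨T, hTd⟩ : ∃ T : (ℕ → Ω) → Submodule k V, T = fun ω =>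
    Submodule.span k (vec e (B.map (evR R ω)) '' {i | w i0 < w i}) := ⟨_, rfl⟩
  have h1 : ∀ ω, evR R ω f ≠ 0 → bot (Submodule.span k (Set.range e)) (Φ ω) = T ω := by
    intro ω hω
    obtain ⟨a1, a2⟩ := hB ω hω
    have a3 := vec_li he (B.map (evR R ω)) (by rwa [RingHom.map_det] at a1)
    rw [a2, ← a3.2, bot_chart a3.1 w i0 h0, hTd]
  choose N hN using fun p : Fin n × Fin n => hfin (B p.1 p.2).1 (B p.1 p.2).2
  obtain ⟨N0, hN0⟩ : ∃ N0, ∀ p, N p ≤ N0 :=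
    ⟨Finset.univ.sup N, fun p => Finset.le_sup (Finset.mem_univ p)⟩
  have h2 : ∀ ω ω' : ℕ → Ω, (∀ s, s < N0 → ω s = ω' s) → T ω = T ω' := by
    intro ω ω' h
    have : B.map (evR R ω) = B.map (evR R ω') := by
      ext i j
      exact hN (i, j) ω ω' fun s hs => h s (hs.trans_le (hN0 _))
    simp only [hTd, this]
  obtain ⟨π, hπ, hπ'⟩ := hout N0
  rw [e0, phiP_span] at hπ
  obtain ⟨g1, hg1, s1⟩ := spec (k := k) e B (B.map (prm R hp π))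
  obtain ⟨g2, hg2, s2⟩ := spec (k := k) e (B.map (prm R hp π)) B
  have h3 : ∀ ω, evR R ω (g1 * g2) ≠ 0 → T ω = T (ω ∘ π) := by
    intro ω hω
    rw [map_mul] at hω
    have : B.map (evR R (ω ∘ π)) = (B.map (prm R hp π)).map (evR R ω) := by
      ext i j
      exact (evR_prm R hp π ω _).symm
    simp only [hTd, this]
    exact le_antisymm (s1 _ (left_ne_zero_of_mul hω) _ _ hπ.ge)
      (s2 _ (right_ne_zero_of_mul hω) _ _ hπ.le)
  obtain ⟨ω0, hω0⟩ := evR_ne R (mul_ne_zero hg1 hg2)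
  obtain ⟨g', hg'⟩ : ∃ g' : R, ∀ ω,
      evR R ω g' = evR R (fun s => if s < N0 then ω s else ω0 s) (g1 * g2) :=
    ⟨⟨_, hmix N0 ω0 (g1 * g2).1 (g1 * g2).2⟩, fun _ => rfl⟩
  have h4 : g' ≠ 0 := fun h => hω0 (by
    have := hg' ω0
    rw [h, map_zero] at this
    simpa using this.symm)
  have h5 : ∀ ω, evR R ω (g' * f) ≠ 0 →
      bot (Submodule.span k (Set.range e)) (Φ ω) = T (ω0 ∘ π) := by
    intro ω hω
    rw [map_mul] at hω
    have a1 := left_ne_zero_of_mul hω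
    rw [hg'] at a1
    rw [h1 ω (right_ne_zero_of_mul hω),
      h2 ω (fun s => if s < N0 then ω s else ω0 s) fun s hs => by rw [if_pos hs], h3 _ a1]
    exact h2 _ _ fun s hs => by
      simp only [Function.comp, if_neg (not_lt.2 (hπ' s hs))]
  refine ⟨T (ω0 ∘ π), ?_, fun p hpT => ?_⟩
  · obtain ⟨ω, hω⟩ := evR_ne R (mul_ne_zero h4 hf)
    exact ⟨Φ ω, hD ω, h5 ω hω⟩
  · obtain ⟨a1, a2⟩ := hT p hpT
    obtain ⟨F', hF', a3⟩ := a2 _ (mul_ne_zero h4 hf)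
    obtain ⟨ω, hω⟩ := evR_ne R (mul_ne_zero (mul_ne_zero h4 hf) hF')
    rw [map_mul] at hω
    have b1 := h5 ω (left_ne_zero_of_mul hω)
    have b2 := h5 _ (a3 ω (right_ne_zero_of_mul hω))
    rw [hΦ p hpT, bot_map _ a1, b1] at b2
    exact b2

end Pool.Agent.P.MP_6990a0_al.VC
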