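import Pool.Agent.P.MP_6990a0_al.VC3
import Pool.Agent.P.MP_6990a0_al.VC4
import Pool.Agent.P.MP_6990a0_al.VL3

namespace Pool.Agent.P.MP_6990a0_al.VC

open Classical

variable {L : Type*} [CompleteLattice L]

theorem vt1_hull {n : ℕ} (l : List (Fin n)) (i : Fin n) (hi : i ∉ l) (u : Fin n → ℝ)
    (hu : u ∈ hullL (l.map fun j => (Pi.single j (1 : ℝ) : Fin n → ℝ))) : u i = 0 := by
  have hc : Convex ℝ {w : Fin n → ℝ | w i = 0} := by
    intro a ha b hb s t _ _ _
    simp only [Set.mem_ofPred_eq, Pi.add_apply, Pi.smul_apply, smul_eq_mul] at *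
    rw [ha, hb]
    ring
  refine convexHull_min (fun w hw => ?_) hc hu
  simp only [Set.mem_ofPred_eq, List.mem_map] at hw ⊢
  obtain ⟨j, hj, rfl⟩ := hw
  have : i ≠ j := fun h => hi (h ▸ hj)
  simp [this]

theorem vt1_pos {n : ℕ} {v : Fin n → ℝ} (hv : v ∈ stdSimplex ℝ (Fin n)) : ∃ j, 0 < v j := by
  by_contra h
  push Not at h
  have h1 : ∑ j, v j ≤ 0 := Finset.sum_nonpos fun j _ => h j
  rw [hv.2] at h1
  linarith

theorem helly (r : L → ℕ) (hr : StrictMono r) {W : L} (hW : W ≠ ⊥) {D : Set (ℝ → L)}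
    (hD : Cone W D) (m : ℕ) (hm : r W ≤ m) (S : Fin (m + 1) → Set (L ≃o L))
    (hS : ∀ i, ∀ φ ∈ S i, φ W = W ∧ ∀ x ∈ D, φ ∘ x ∈ D ∧ φ.symm ∘ x ∈ D)
    (x : Fin (m + 1) → ℝ → L) (hx : ∀ j, x j ∈ D)
    (hfix : ∀ i j, i ≠ j → ∀ φ ∈ S i, φ ∘ x j = x j) :
    ∃ B ∈ bots W D, ∀ i, ∀ φ ∈ S i, φ B = B := by
  by_contra hcon
  have hcol : ∀ B : L, ∃ i : Fin (m + 1), B ∈ bots W D → ∃ φ ∈ S i, φ B ≠ B := by
    intro B
    by_cases hB : B ∈ bots W D
    · by_contra h
      push Not at h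
      exact hcon ⟨B, hB, fun i => (h i).2⟩
    · exact ⟨0, fun h => absurd h hB⟩
  choose col hcol using hcol
  set f : (Fin (m + 1) → ℝ) → ℝ → L :=
    fun v => sumL W ((List.finRange (m + 1)).map fun j => sm W (v j) (x j)) with hf
  set β : (Fin (m + 1) → ℝ) → L := fun v => bot W (f v) with hβ
  have hmem : ∀ v : Fin (m + 1) → ℝ,
      ∀ y ∈ (List.finRange (m + 1)).map fun j => sm W (v j) (x j), y ∈ D ∨ y = zero W := by
    intro v y hy
    obtain ⟨j, _, rfl⟩ := List.mem_map.1 hy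
    exact (sm_mem hD (hx j) (v j)).1
  have hF : ∀ v, Filt W (f v) := by
    intro v
    rcases (sumL_mem hD _ (hmem v)).1 with h | h
    · exact hD.filt _ h
    · have : f v = zero W := h
      rw [this]
      exact filt_zero W
  have hLip : Lip f :=
    lip_sumL W (List.finRange (m + 1)) (fun j v => sm W (v j) (x j))
      fun j _ => lip_sm (hD.filt _ (hx j)) j
  have hβs : ∀ v ∈ stdSimplex ℝ (Fin (m + 1)), β v ∈ bots W D ∧ β v ≤ W ∧ β v ≠ W := by
    intro v hv
    obtain ⟨j, hj⟩ := vt1_pos hv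
    have h1 : f v ∈ D := (sumL_mem hD _ (hmem v)).2
      ⟨sm W (v j) (x j), List.mem_map.2 ⟨j, List.mem_finRange j, rfl⟩,
        (sm_mem hD (hx j) (v j)).2 hj⟩
    have h2 : β v ∈ bots W D := ⟨f v, h1, rfl⟩
    exact ⟨h2, bots_spec r hr hW hD h2⟩
  obtain ⟨r0, hr0⟩ := carrier r hr W (bots W D) (bots_sup r hr hW hD) β hβs
    (usc_of_lip r hr hW f hLip hF) (m + 1)
  set e : Fin (m + 1) → Fin (m + 1) → ℝ := fun j => Pi.single j (1 : ℝ) with he
  set Ψ : ℕ → Ch (Fin (m + 1)) →+ Ch (Fin (m + 1)) :=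
    fun n => (mp col).comp ((Psi (bots W D) β r0 n).comp (mp e)) with hΨ
  have hcar : ∀ l : List (Fin (m + 1)), l.length ≤ m + 1 →
      Psi (bots W D) β r0 l.length (mp e (ofL l)) ∈ Sp (fun mm : List L =>
        mm.length = l.length ∧ mm.Pairwise (· ≤ ·) ∧ ∀ B ∈ mm, B ∈ bots W D ∧
          ∃ s : List (Fin (m + 1) → ℝ), (∀ u ∈ s, u ∈ hullL (l.map e)) ∧
            B = Phi (bots W D) β s) := by
    intro l hl
    have := hr0 (l.map e) (by simpa using hl) (by
      intro u hu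
      obtain ⟨j, _, rfl⟩ := List.mem_map.1 hu
      exact single_mem_stdSimplex ℝ j)
    rw [List.length_map] at this
    rw [mp_ofL]
    exact this
  refine sperner Ψ ?_ ?_ (List.finRange (m + 1)) (List.nodup_finRange _) ?_ ?_
  · intro n z
    simp only [hΨ, AddMonoidHom.comp_apply]
    rw [bd_mp, bd_Psi, bd_mp]
  · simp only [hΨ, AddMonoidHom.comp_apply]
    rw [mp_ofL, List.map_nil, Psi_zero, mp_ofL, List.map_nil]
  · intro l hl
    have hlen : l.length ≤ m + 1 := by simpa using hl.length_le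
    simp only [hΨ, AddMonoidHom.comp_apply]
    refine Sp_map (mp col) _ ?_ (hcar l hlen)
    rintro mm ⟨h1, _, h3⟩
    rw [mp_ofL]
    refine ofL_mem ⟨by simpa using h1, ?_⟩
    intro a ha
    obtain ⟨B, hB, rfl⟩ := List.mem_map.1 ha
    obtain ⟨hB1, s, hs, hBs⟩ := h3 B hB
    by_contra hn
    obtain ⟨φ, hφ, hne⟩ := hcol B hB1
    obtain ⟨hφW, hφD⟩ := hS _ φ hφ
    have key : ∀ u ∈ s, β (id u) = φ (β u) := by
      intro u hu
      have hu0 : u (col B) = 0 := vt1_hull l (col B) hn u (hs u hu)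
      have h4 : φ ∘ f u = f u := by
        simp only [hf]
        rw [map_sumL φ hφW, List.map_map]
        congr 1
        refine List.map_congr_left fun j _ => ?_
        simp only [Function.comp_apply]
        by_cases hj : col B = j
        · subst hj
          rw [hu0]
          have : sm W 0 (x (col B)) = zero W := by simp [sm]
          rw [this]
          exact map_zero' φ hφW
        · rw [map_sm φ hφW, hfix _ _ hj φ hφ]
      simp only [hβ, id]
      rw [← bot_map φ hφW, h4]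
    have h5 := Phi_nat (bots W D) β φ
      (bots_map φ hφW (fun y hy => (hφD y hy).1) (fun y hy => (hφD y hy).2)) id s key
    rw [List.map_id, ← hBs] at h5
    exact hne h5.symm
  · simp only [hΨ, AddMonoidHom.comp_apply]
    refine Sp_map (mp col) _ ?_ (hcar (List.finRange (m + 1)) (by simp))
    rintro mm ⟨h1, h2, h3⟩
    rw [mp_ofL]
    refine ofL_mem fun hnd => ?_
    refine not_nodup r hr W mm h2 (fun B hB => bots_spec r hr hW hD (h3 B hB).1) ?_
      (List.Nodup.of_map _ hnd)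
    rw [h1, List.length_finRange]
    omega

end Pool.Agent.P.MP_6990a0_al.VC
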