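import Pool.Agent.P.MP_6990a0_al.VG5
import Pool.Agent.P.MP_6990a0_al.VG2
import Pool.Agent.P.MP_6990a0_al.VT1

namespace Pool.Agent.P.MP_6990a0_al.VC

open Classical

variable {k V : Type*} [Field k] [AddCommGroup V] [Module k V]

theorem virt_core {Ω : Type*} [Nonempty Ω] {n : ℕ} (hn : 0 < n) (c : Ω → Fin n × Fin n → k)
    (hirr : Irr (fun x : Ω => MvPolynomial.eval (c x)) Set.univ) {e : Fin n → V}
    (he : LinearIndependent k e) {D : Set (ℝ → Submodule k V)}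
    (hD : Cone (Submodule.span k (Set.range e)) D) (w0 : Fin n → ℝ)
    (hdet : ∀ x, (Mx c x).det ≠ 0) (hu : ∀ x, chart k (vec e (Mx c x)) w0 ∈ D)
    (𝓣 : Set ((Ω → Ω) × (Submodule k V ≃o Submodule k V)))
    (hT : ∀ p ∈ 𝓣, p.2 (Submodule.span k (Set.range e)) = Submodule.span k (Set.range e) ∧
      Function.Surjective p.1 ∧
      (∃ σ : k ≃+* k, ∀ j, ∃ Q : MvPolynomial (Fin n × Fin n) k,
        ∀ x, c (p.1 x) j = σ (MvPolynomial.eval (c x) Q)) ∧
      ∀ x, chart k (vec e (Mx c (p.1 x))) w0 = p.2 ∘ chart k (vec e (Mx c x)) w0) :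
    ∃ T0 ∈ bots (Submodule.span k (Set.range e)) D, ∀ p ∈ 𝓣, p.2 T0 = T0 := by
  haveI : IsDomain (RR c) := RR_dom c hirr
  haveI : Nonempty (Fin n) := ⟨⟨0, hn⟩⟩
  have hp : PermCl (RR c) := RR_perm c
  have hact := act_phiP (n := n) (RR c) hp
  let B : ℕ → Matrix (Fin n) (Fin n) (RR c) := fun s =>
    Matrix.of fun i j => ⟨fun ω => c (ω s) (i, j), RR_gen c s (i, j)⟩
  have hB : ∀ s ω, (B s).map (evR (RR c) ω) = Mx c (ω s) := by
    intro s ω
    ext i j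
    rfl
  have hBp : ∀ (π : Equiv.Perm ℕ) s, (B s).map (prm (RR c) hp π) = B (π s) := by
    intro π s
    ext i j ω
    rfl
  let y : ℕ → ℝ → Submodule (FractionRing (RR c)) (Fin n → FractionRing (RR c)) := fun s =>
    chart (FractionRing (RR c)) (rowK (B s)) w0
  have hy : ∀ s, y s ∈ DD (RR c) e D 𝓣 := by
    intro s
    refine ⟨fun ω => chart k (vec e (Mx c (ω s))) w0, fun ω => hu _,
      fun p hp' ω => (hT p hp').2.2.2 (ω s), B s, w0, 1, one_ne_zero, rfl, fun ω _ => ⟨?_, ?_⟩⟩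
    · rw [RingHom.map_det, RingHom.mapMatrix_apply, hB]
      exact hdet _
    · rw [hB]
  have hyp : ∀ (π : Equiv.Perm ℕ) s, phiP (RR c) hp n π ∘ y s = y (π s) := by
    intro π s
    funext t
    have h := phiP_span (RR c) hp π (B s) {i | t ≤ w0 i}
    rw [hBp] at h
    exact h
  have hcone : Cone ⊤ (DD (RR c) e D 𝓣) := DD_cone (RR c) he hD 𝓣 ⟨y 0, hy 0⟩
  obtain ⟨T', hT', hfix⟩ := helly
    (fun S : Submodule (FractionRing (RR c)) (Fin n → FractionRing (RR c)) =>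
      Module.finrank (FractionRing (RR c)) S) rank_mono top_ne_bot hcone _ le_rfl
    (fun i => {φ | ∃ π : Equiv.Perm ℕ, (∀ j, j ≠ i → π j.val = j.val) ∧ φ = phiP (RR c) hp n π})
    (by
      rintro i φ ⟨π, -, rfl⟩
      refine ⟨map_top _, fun x hx => ⟨DD_perm (RR c) hp e D 𝓣 π x hx, ?_⟩⟩
      have h1 : (phiP (RR c) hp n π).symm ∘ x = phiP (RR c) hp n π⁻¹ ∘ x :=
        funext fun t => hact.symm π (x t)
      rw [h1]
      exact DD_perm (RR c) hp e D 𝓣 π⁻¹ x hx)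
    (fun j => y j.val) (fun j => hy _)
    (by
      rintro i j hij φ ⟨π, hπ, rfl⟩
      rw [hyp, hπ j hij.symm])
  refine DD_const (RR c) hp (RR_fin c) (RR_mix c) hn he D 𝓣 (fun p hp' => ⟨(hT p hp').1, ?_⟩) hT'
    (fun N => perm_out _ (fun π => phiP (RR c) hp n π T' = T') (hact.one _)
      (fun π π' h h' => by rw [hact.mul, h', h])
      (fun i π hπ => hfix i _ ⟨π, hπ, rfl⟩) N)
  obtain ⟨-, hs, ⟨σ, hσ⟩, -⟩ := hT p hp'
  exact fun F hF => RR_tw c p.1 hs σ hσ F hF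

end Pool.Agent.P.MP_6990a0_al.VC
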