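import Pool.Agent.P.MP_6990a0_al.VG6
import Pool.Agent.P.MP_6990a0_al.VG1

namespace Pool.Agent.P.MP_6990a0_al.VC

open Classical

variable {k V : Type*} [Field k] [AddCommGroup V] [Module k V]
variable {Γ : Type*} [Group Γ] [MulSemiringAction Γ k] [DistribMulAction Γ V]
  (semi : ∀ (g : Γ) (c : k) (v : V), g • (c • v) = (g • c) • (g • v))

include semi in
theorem vg7_key {n : ℕ} {e : Fin n → V} (f : Fin n → V →ₗ[k] k)
    (hf : ∀ v ∈ Submodule.span k (Set.range e), ∑ j, f j v • e j = v) (g : Γ)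
    (ij : Fin n × Fin n) :
    ∃ Q : MvPolynomial (Fin n × Fin n) k, ∀ x : Fin n → V,
      (∀ i, x i ∈ Submodule.span k (Set.range e)) →
      f ij.2 ((g • x) ij.1) = (MulSemiringAction.toRingEquiv Γ k g)
        (MvPolynomial.eval (fun p : Fin n × Fin n => f p.2 (x p.1)) Q) := by
  refine ⟨∑ l, MvPolynomial.X (ij.1, l) *
    MvPolynomial.C ((MulSemiringAction.toRingEquiv Γ k g).symm (f ij.2 (g • e l))), ?_⟩
  intro x hx
  have h1 : (g • x) ij.1 = ∑ l, (g • f l (x ij.1)) • (g • e l) := by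
    rw [Pi.smul_apply]
    conv_lhs => rw [← hf _ (hx ij.1)]
    rw [Finset.smul_sum]
    exact Finset.sum_congr rfl fun l _ => semi g _ _
  rw [h1]
  simp only [map_sum, map_mul, map_smul, MvPolynomial.eval_X, MvPolynomial.eval_C,
    RingEquiv.apply_symm_apply, smul_eq_mul]
  rfl

theorem virt_top [FiniteDimensional k V] {W : Submodule k V} (hW : W ≠ ⊥)
    {D : Set (ℝ → Submodule k V)} (hD : Cone W D) (hΓ : ∀ g, lat semi g W = W)
    (hinv : ∀ g, ∀ x ∈ D, lat semi g ∘ x ∈ D) :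
    ∃ H : Subgroup Γ, H.FiniteIndex ∧ ∃ T0 ∈ bots W D, ∀ g ∈ H, lat semi g T0 = T0 := by
  obtain ⟨u, hu⟩ := hD.ne
  have hn : 0 < Module.finrank k W := by
    rw [Nat.pos_iff_ne_zero]
    intro h0
    exact hW (Submodule.finrank_eq_zero.1 h0)
  obtain ⟨n, hnW⟩ : ∃ n, Module.finrank k W = n := ⟨_, rfl⟩
  rw [hnW] at hn
  obtain ⟨e, w0, -, he, hsp, hue, -⟩ := common n W hnW (hD.filt u hu) (hD.filt u hu)
  subst hsp
  obtain ⟨f, hf⟩ := coords he
  let c : (Fin n → V) → Fin n × Fin n → k := fun x p => f p.2 (x p.1)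
  let O : Set (Fin n → V) := MulAction.orbit Γ e
  have hOmem : ∀ x ∈ O, ∀ i, x i ∈ Submodule.span k (Set.range e) := by
    rintro x ⟨g, rfl⟩ i
    have h1 : g • e i ∈ (lat semi g (Submodule.span k (Set.range e)) : Set V) := by
      rw [coe_lat]
      exact ⟨e i, Submodule.subset_span ⟨i, rfl⟩, rfl⟩
    rw [hΓ g] at h1
    exact h1
  have hOvec : ∀ x ∈ O, vec e (Mx c x) = x := by
    intro x hx
    funext i
    exact hf _ (hOmem x hx i)
  have hOli : ∀ x ∈ O, LinearIndependent k x := by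
    rintro x ⟨g, rfl⟩
    exact li_smul semi g he
  have hOD : ∀ x ∈ O, chart k x w0 ∈ D := by
    rintro x ⟨g, rfl⟩
    have h1 := hinv g u hu
    rw [hue, lat_chart] at h1
    exact h1
  have hOinv : ∀ g : Γ, ∀ x ∈ O, g • x ∈ O := fun g x hx => MulAction.mem_orbit_of_mem_orbit g hx
  have halg : ∀ (g : Γ) (p : MvPolynomial (Fin n × Fin n) k),
      ∃ p' : MvPolynomial (Fin n × Fin n) k, ∀ x ∈ O,
        (MvPolynomial.eval (c (g • x)) p = 0 ↔ MvPolynomial.eval (c x) p' = 0) := by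
    intro g p
    obtain ⟨p', hp'⟩ := poly_tw (Ω := O) (fun x => c x.1) (fun x => c (g • x.1))
      (MulSemiringAction.toRingEquiv Γ k g) (fun j => by
        obtain ⟨Q, hQ⟩ := vg7_key semi f hf g j
        exact ⟨Q, fun x => hQ x.1 (hOmem x.1 x.2)⟩) p
    refine ⟨p', fun x hx => ?_⟩
    rw [hp' ⟨x, hx⟩]
    exact (MulSemiringAction.toRingEquiv Γ k g).map_eq_zero_iff
  obtain ⟨Ω, H, hΩO, hΩne, hirr, hH, hHΩ⟩ :=
    zar (fun x : Fin n → V => MvPolynomial.eval (c x)) (Γ := Γ) O ⟨e, MulAction.mem_orbit_self e⟩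
      hOinv halg
  have : Nonempty Ω := hΩne.to_subtype
  have hirr' : Irr (fun x : Ω => MvPolynomial.eval (c x.1)) Set.univ := by
    intro p q hpq
    rcases hirr p q (fun x hx => hpq ⟨x, hx⟩ trivial) with h | h
    · exact Or.inl fun x _ => h x.1 x.2
    · exact Or.inr fun x _ => h x.1 x.2
  have hv : ∀ x : Ω, vec e (Mx (fun x : Ω => c x.1) x) = x.1 := fun x => hOvec x.1 (hΩO x.2)
  obtain ⟨T0, hT0, hfix⟩ := virt_core hn (fun x : Ω => c x.1) hirr' he hD w0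
    (fun x => vec_det e _ (by rw [hv]; exact hOli x.1 (hΩO x.2)))
    (fun x => by rw [hv]; exact hOD x.1 (hΩO x.2))
    {p | ∃ g, ∃ hg : g ∈ H, p = (fun x : Ω => (⟨g • x.1, hHΩ g hg x.1 x.2⟩ : Ω), lat semi g)}
    (by
      rintro p ⟨g, hg, rfl⟩
      refine ⟨hΓ g, fun y => ⟨⟨g⁻¹ • y.1, hHΩ g⁻¹ (H.inv_mem hg) y.1 y.2⟩, ?_⟩,
        ⟨MulSemiringAction.toRingEquiv Γ k g, fun j => ?_⟩, fun x => ?_⟩
      · exact Subtype.ext (smul_inv_smul g y.1)
      · obtain ⟨Q, hQ⟩ := vg7_key semi f hf g j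
        exact ⟨Q, fun x => hQ x.1 (hOmem x.1 (hΩO x.2))⟩
      · rw [hv, hv]
        exact (lat_chart semi g x.1 w0).symm)
  exact ⟨H, hH, T0, hT0, fun g hg => hfix _ ⟨g, hg, rfl⟩⟩

end Pool.Agent.P.MP_6990a0_al.VC
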