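import Pool.Agent.P.MP_6990a0_al.VD

namespace Pool.Agent.P.MP_6990a0_al.VC

open Classical

variable {L : Type*} [CompleteLattice L]

theorem val_cases (W : L) (x : ℝ → L) (t : ℝ) : x t = W ∨ x t ≤ bot W x := by
  by_cases h : x t = W
  · exact Or.inl h
  · exact Or.inr (le_sSup ⟨h, t, rfl⟩)

theorem bot_spec (r : L → ℕ) (hr : StrictMono r) {W : L} {x : ℝ → L} (hx : Filt W x)
    (hW : W ≠ ⊥) : ∃ l δ : ℝ, 0 < δ ∧ (∀ t, t ≤ l → x t = W) ∧ (∀ t, l < t → x t ≤ bot W x) ∧
      (∀ t, l < t → t ≤ l + δ → x t = bot W x) ∧ bot W x ≠ W ∧ bot W x ≤ W := by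
  obtain ⟨l0, hl0⟩ := hx.low
  obtain ⟨h, hh⟩ := hx.high
  have hne : ({t | x t = W} : Set ℝ).Nonempty := ⟨l0, hl0⟩
  have hbd : BddAbove {t | x t = W} := by
    refine ⟨h, fun t ht => ?_⟩
    by_contra hlt
    have h1 := hx.anti (not_le.1 hlt).le
    rw [hh, show x t = W from ht] at h1
    exact hW (le_bot_iff.1 h1)
  obtain ⟨l, hl⟩ : ∃ l, l = sSup {t | x t = W} := ⟨_, rfl⟩
  have hxl : x l = W := by
    obtain ⟨ε, hε, h1⟩ := hx.left l
    obtain ⟨t, ht, h2⟩ := exists_lt_of_lt_csSup hne (show l - ε < sSup {t | x t = W} by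
      rw [← hl]; linarith)
    have h3 := hx.anti h2.le
    rw [show x t = W from ht, h1] at h3
    exact le_antisymm (hx.le l) h3
  have hlow : ∀ t, t ≤ l → x t = W := fun t ht =>
    le_antisymm (hx.le t) (hxl ▸ hx.anti ht)
  have hup : ∀ t, l < t → x t ≠ W := fun t ht h1 =>
    absurd (le_csSup hbd (show t ∈ {t | x t = W} from h1)) (by rw [← hl]; exact not_le.2 ht)
  obtain ⟨t0, ht0, hmin⟩ := (measure fun t : ℝ => r W - r (x t)).wf.has_min {t | l < t}
    ⟨l + 1, lt_add_one l⟩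
  have ht0' : l < t0 := ht0
  have heq : ∀ t, l < t → t ≤ t0 → x t = x t0 := fun t h1 h2 => by
    by_contra h3
    have h4 := hr (lt_of_le_of_ne (hx.anti h2) (Ne.symm h3))
    have h5 := hr.monotone (hx.le t)
    refine hmin t h1 ?_
    change r W - r (x t) < r W - r (x t0)
    omega
  have hle : ∀ t, l < t → x t ≤ x t0 := fun t h1 => by
    rcases le_total t t0 with h2 | h2
    · exact (heq t h1 h2).le
    · exact hx.anti h2
  have hbot : bot W x = x t0 := by
    refine le_antisymm (sSup_le ?_) (le_sSup ⟨hup t0 ht0', t0, rfl⟩)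
    rintro B ⟨hB, t, rfl⟩
    exact hle t (not_le.1 fun h1 => hB (hlow t h1))
  rw [hbot]
  exact ⟨l, t0 - l, by linarith, hlow, hle, fun t h1 h2 => heq t h1 (by linarith),
    hup t0 ht0', hx.le t0⟩

theorem bot_add (r : L → ℕ) (hr : StrictMono r) {W : L} {x y : ℝ → L} (hx : Filt W x)
    (hy : Filt W y) (hW : W ≠ ⊥) (h : bot W x ⊔ bot W y ≠ W) :
    bot W (add x y) = bot W x ⊔ bot W y := by
  obtain ⟨l, δ, hδ, a1, a2, a3, -, a5⟩ := bot_spec r hr hx hW
  obtain ⟨l', δ', hδ', b1, b2, b3, -, b5⟩ := bot_spec r hr hy hW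
  have h1 : ∀ t, t ≤ l + l' → add x y t = W := fun t ht => by
    refine le_antisymm (iSup_le fun a => inf_le_left.trans (hx.le a)) (le_iSup_of_le l ?_)
    rw [a1 l le_rfl, b1 (t - l) (by linarith), inf_idem]
  have h2 : ∀ t, l + l' < t → add x y t ≤ bot W x ⊔ bot W y := fun t ht => by
    refine iSup_le fun a => ?_
    by_cases ha : l < a
    · exact inf_le_left.trans ((a2 a ha).trans le_sup_left)
    · exact inf_le_right.trans ((b2 (t - a) (by linarith [not_lt.1 ha])).trans le_sup_right)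
  have hm : 0 < min δ δ' := lt_min hδ hδ'
  have h3 : add x y (l + l' + min δ δ') = bot W x ⊔ bot W y := by
    refine le_antisymm (h2 _ (by linarith)) (sup_le ?_ ?_)
    · refine le_iSup_of_le (l + min δ δ') ?_
      rw [a3 _ (by linarith) (by linarith [min_le_left δ δ']), b1 _ (by linarith)]
      exact le_inf le_rfl a5
    · refine le_iSup_of_le l ?_
      rw [a1 l le_rfl, b3 _ (by linarith) (by linarith [min_le_right δ δ'])]
      exact le_inf b5 le_rfl
  refine le_antisymm (sSup_le ?_) (le_sSup ⟨h, _, h3⟩)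
  rintro B ⟨hB, t, rfl⟩
  exact h2 t (not_le.1 fun h4 => hB (h1 t h4))

theorem bot_sc (W : L) (x : ℝ → L) {s : ℝ} (hs : 0 < s) : bot W (sc s x) = bot W x := by
  unfold bot
  congr 1
  ext B
  refine and_congr_right fun _ => ⟨fun ⟨t, ht⟩ => ⟨t / s, ht⟩, fun ⟨t, ht⟩ => ⟨t * s, ?_⟩⟩
  rw [← ht, sc, mul_div_cancel_right₀ _ hs.ne']

theorem bot_map (φ : L ≃o L) {W : L} (hφ : φ W = W) (x : ℝ → L) :
    bot W (φ ∘ x) = φ (bot W x) := by
  unfold bot
  rw [φ.map_sSup, ← sSup_image]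
  congr 1
  ext B
  constructor
  · rintro ⟨hB, t, rfl⟩
    exact ⟨x t, ⟨fun h => hB (by rw [Function.comp_apply, h, hφ]), t, rfl⟩, rfl⟩
  · rintro ⟨_, ⟨hB, t, rfl⟩, rfl⟩
    exact ⟨fun h => hB (φ.injective (h.trans hφ.symm)), t, rfl⟩

theorem map_add' (φ : L ≃o L) (x y : ℝ → L) : φ ∘ add x y = add (φ ∘ x) (φ ∘ y) := by
  funext t
  simp only [add, Function.comp_apply, φ.map_iSup, φ.map_inf]

theorem map_sc (φ : L ≃o L) (s : ℝ) (x : ℝ → L) : φ ∘ sc s x = sc s (φ ∘ x) := by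
  rfl

theorem map_zero' (φ : L ≃o L) {W : L} (hφ : φ W = W) : φ ∘ zero W = zero W := by
  funext t
  simp only [zero, Function.comp_apply]
  split_ifs
  · exact hφ
  · exact φ.map_bot

theorem map_sm (φ : L ≃o L) {W : L} (hφ : φ W = W) (s : ℝ) (x : ℝ → L) :
    φ ∘ sm W s x = sm W s (φ ∘ x) := by
  unfold sm
  split_ifs
  · rfl
  · exact map_zero' φ hφ

theorem map_sumL (φ : L ≃o L) {W : L} (hφ : φ W = W) (l : List (ℝ → L)) :
    φ ∘ sumL W l = sumL W (l.map fun x => φ ∘ x) := by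
  induction l with
  | nil => exact map_zero' φ hφ
  | cons a l ih =>
    change φ ∘ add a (sumL W l) = add (φ ∘ a) (sumL W (l.map fun x => φ ∘ x))
    rw [map_add', ih]

theorem add_comm' (x y : ℝ → L) : add x y = add y x := by
  have h : ∀ (x y : ℝ → L) t, add x y t ≤ add y x t := fun x y t =>
    iSup_le fun a => le_iSup_of_le (t - a) (by rw [sub_sub_cancel, inf_comm])
  exact funext fun t => le_antisymm (h x y t) (h y x t)

theorem add_zero' {W : L} {x : ℝ → L} (hx : Filt W x) : add x (zero W) = x := by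
  funext t
  refine le_antisymm (iSup_le fun a => ?_) (le_iSup_of_le t ?_)
  · unfold zero
    split_ifs with h
    · exact inf_le_left.trans (hx.anti (by linarith))
    · exact inf_le_right.trans bot_le
  · unfold zero
    rw [if_pos (by linarith)]
    exact le_inf le_rfl (hx.le t)

theorem zero_add' {W : L} {x : ℝ → L} (hx : Filt W x) : add (zero W) x = x := by
  rw [add_comm', add_zero' hx]

theorem filt_zero (W : L) : Filt W (zero W) := by
  refine ⟨fun s t hst => ?_, fun t => ?_, ⟨0, if_pos le_rfl⟩, ⟨1, if_neg (by norm_num)⟩,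
    fun t => ?_⟩
  · unfold zero
    by_cases ht : t ≤ 0
    · rw [if_pos ht, if_pos (hst.trans ht)]
    · rw [if_neg ht]
      exact bot_le
  · unfold zero
    split_ifs
    · exact le_rfl
    · exact bot_le
  · unfold zero
    by_cases ht : t ≤ 0
    · exact ⟨1, one_pos, by rw [if_pos ht, if_pos (by linarith)]⟩
    · have h := not_le.1 ht
      exact ⟨t / 2, by linarith, by rw [if_neg ht, if_neg (by linarith)]⟩

theorem Act.symm {Γ : Type*} [Group Γ] {a : Γ → L ≃o L} (ha : Act a) (g : Γ) (B : L) :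
    (a g).symm B = a g⁻¹ B := by
  rw [OrderIso.symm_apply_eq, ← ha.mul, mul_inv_cancel, ha.one]

end Pool.Agent.P.MP_6990a0_al.VC
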