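import Pool.Agent.P.MP_6990a0_al.VPD
import Pool.Agent.P.MP_6990a0_al.VP1
import Pool.Agent.P.MP_6990a0_al.VA3

namespace Pool.Agent.P.MP_6990a0_al.VC

open Classical

variable {ι : Type*} {k V : ι → Type*} [∀ i, Field (k i)] [∀ i, AddCommGroup (V i)]
  [∀ i, Module (k i) (V i)] {K : Subfield ℝ} {Z : Type*} [AddCommGroup Z] [Module K Z]
variable {Γ : Type*} [Group Γ] [∀ i, MulSemiringAction Γ (k i)] [∀ i, DistribMulAction Γ (V i)]
  [DistribMulAction Γ Z]
  (semi : ∀ (i : ι) (g : Γ) (c : k i) (v : V i), g • (c • v) = (g • c) • (g • v))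
  (s : ι → Γ →* ℝ)

theorem pcone_of {C : Set (Pt k V Z)}
    (pts : ∀ x ∈ C, ∀ i, ∃ (n : ℕ) (b : Module.Basis (Fin n) (k i) (V i)) (w : Fin n → K),
      x.1 i = chart (k i) b fun j => (w j : ℝ))
    (conv : ∀ (n : ι → ℕ) (b : ∀ i, Module.Basis (Fin (n i)) (k i) (V i)),
      Convex K {p : (∀ i, Fin (n i) → K) × Z |
        (fun i => chart (k i) (b i) fun j => (p.1 i j : ℝ), p.2) ∈ C})
    (cone : ∀ (n : ι → ℕ) (b : ∀ i, Module.Basis (Fin (n i)) (k i) (V i)) (c : K), 0 < c →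
      ∀ p : (∀ i, Fin (n i) → K) × Z,
        (fun i => chart (k i) (b i) fun j => (p.1 i j : ℝ), p.2) ∈ C →
        (fun i => chart (k i) (b i) fun j => ((c • p).1 i j : ℝ), (c • p).2) ∈ C) :
    PCone K C := by
  refine ⟨fun x hx i => ?_, fun x hx y hy => ?_, fun c hc x hx => ?_⟩
  · obtain ⟨n, b, w, h⟩ := pts x hx i
    exact ⟨n, b, _, fun j => (w j).2, h⟩
  · have key : ∀ i, ∃ (n : ℕ) (a : Module.Basis (Fin n) (k i) (V i)) (u u' : Fin n → K),
        x.1 i = chart (k i) a (fun j => (u j : ℝ)) ∧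
          y.1 i = chart (k i) a (fun j => (u' j : ℝ)) := by
      intro i
      obtain ⟨n, b1, w1, h1⟩ := pts x hx i
      obtain ⟨n2, b2, w2, h2⟩ := pts y hy i
      obtain ⟨a, u, u', hu, hu', hj, hj'⟩ :=
        common_basis b1 b2 (fun j => (w1 j : ℝ)) (fun j => (w2 j : ℝ))
      choose j hj using hj
      choose j' hj' using hj'
      refine ⟨n, a, fun l => w1 (j l), fun l => w2 (j' l), ?_, ?_⟩
      · rw [h1, hu, funext hj]
      · rw [h2, hu', funext hj']
    choose n a u u' hu hu' using key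
    have m1 : ((u, x.2) : (∀ i, Fin (n i) → K) × Z) ∈ {p : (∀ i, Fin (n i) → K) × Z |
        (fun i => chart (k i) (a i) fun j => (p.1 i j : ℝ), p.2) ∈ C} := by
      have e : (fun i => chart (k i) (a i) fun j => (u i j : ℝ), x.2) = x :=
        Prod.ext (funext fun i => (hu i).symm) rfl
      change (fun i => chart (k i) (a i) fun j => (u i j : ℝ), x.2) ∈ C
      rwa [e]
    have m2 : ((u', y.2) : (∀ i, Fin (n i) → K) × Z) ∈ {p : (∀ i, Fin (n i) → K) × Z |
        (fun i => chart (k i) (a i) fun j => (p.1 i j : ℝ), p.2) ∈ C} := by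
      have e : (fun i => chart (k i) (a i) fun j => (u' i j : ℝ), y.2) = y :=
        Prod.ext (funext fun i => (hu' i).symm) rfl
      change (fun i => chart (k i) (a i) fun j => (u' i j : ℝ), y.2) ∈ C
      rwa [e]
    have hh : (0 : K) ≤ 2⁻¹ := by positivity
    have m3 := conv n a m1 m2 hh hh (by norm_num)
    have m4 := cone n a 2 (by norm_num) _ m3
    have e3 : (2 : K) • ((2⁻¹ : K) • ((u, x.2) : (∀ i, Fin (n i) → K) × Z)
        + (2⁻¹ : K) • ((u', y.2) : (∀ i, Fin (n i) → K) × Z)) = (u + u', x.2 + y.2) := by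
      rw [smul_add, smul_smul, smul_smul, mul_inv_cancel₀ two_ne_zero, one_smul, one_smul]
      rfl
    rw [e3] at m4
    have e4 : addP x y = (fun i => chart (k i) (a i) fun j => ((u + u') i j : ℝ), x.2 + y.2) := by
      refine Prod.ext (funext fun i => ?_) rfl
      change add (x.1 i) (y.1 i) = _
      rw [hu i, hu' i, add_chart (a i).linearIndependent]
      rfl
    rw [e4]
    exact m4
  · choose n b w h using pts x hx
    have e : (fun i => chart (k i) (b i) fun j => (w i j : ℝ), x.2) = x :=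
      Prod.ext (funext fun i => (h i).symm) rfl
    have m := cone n b c hc (w, x.2) (by
      change (fun i => chart (k i) (b i) fun j => (w i j : ℝ), x.2) ∈ C
      rwa [e])
    have hc' : (0 : ℝ) < c := hc
    have e4 : scP c x = (fun i => chart (k i) (b i) fun j =>
        ((c • ((w, x.2) : (∀ i, Fin (n i) → K) × Z)).1 i j : ℝ),
          (c • ((w, x.2) : (∀ i, Fin (n i) → K) × Z)).2) := by
      refine Prod.ext (funext fun i => ?_) rfl
      change sc (c : ℝ) (x.1 i) = _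
      rw [h i, sc_chart _ _ hc']
      rfl
    rw [e4]
    exact m

theorem unP_cone [Finite ι] {C : Set (Pt k V Z)} (hC : PCone K C) : PCone K (UnP C) := by
  refine ⟨fun x hx => hC.pts x hx.1, fun x hx y hy => ⟨hC.add_mem x hx.1 y hy.1, ?_⟩,
    fun c hc x hx => ⟨hC.sc_mem c hc x hx.1, ?_⟩⟩
  · rintro z hz ⟨hopp, hz2⟩
    have key : ∀ i, ∃ ε0 : ℝ, 0 < ε0 ∧ ∀ ε, 0 < ε → ε < ε0 →
        Opp (x.1 i) (add (sc ε⁻¹ (add (add (add (x.1 i) (y.1 i)) (sc ε (y.1 i))) (z.1 i)))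
          (z.1 i)) := by
      intro i
      obtain ⟨n, b, w, -, h1⟩ := hC.pts x hx.1 i
      obtain ⟨n', b', w', -, h2⟩ := hC.pts y hy.1 i
      exact ideal_pt b w b' w' h1 h2 (hopp i)
    choose ε0 hε0 hε using key
    choose M hM using fun i => exists_nat_one_div_lt (hε0 i)
    obtain ⟨M0, hM0⟩ := (Set.finite_range M).bddAbove
    let ε : K := ((M0 : K) + 1)⁻¹
    have hεpos : (0 : K) < ε := by positivity
    have hεR : (ε : ℝ) = 1 / ((M0 : ℝ) + 1) := by simp [ε]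
    have hlt : ∀ i, (ε : ℝ) < ε0 i := by
      intro i
      refine lt_of_le_of_lt ?_ (hM i)
      rw [hεR]
      have : (M i : ℝ) ≤ M0 := by exact_mod_cast hM0 (Set.mem_range_self i)
      exact one_div_le_one_div_of_le (by positivity) (by linarith)
    have hq : addP (scP ε⁻¹ (addP (addP (addP x y) (scP ε y)) z)) z ∈ C :=
      hC.add_mem _ (hC.sc_mem _ (inv_pos.2 hεpos) _ (hC.add_mem _ (hC.add_mem _
        (hC.add_mem x hx.1 y hy.1) _ (hC.sc_mem ε hεpos y hy.1)) z hz)) z hz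
    refine hx.2 _ hq ⟨fun i => ?_, ?_⟩
    · have h1 := hε i ε hεpos (hlt i)
      have e : ((ε⁻¹ : K) : ℝ) = (ε : ℝ)⁻¹ := by simp
      change Opp (x.1 i) (add (sc ((ε⁻¹ : K) : ℝ)
        (add (add (add (x.1 i) (y.1 i)) (sc ε (y.1 i))) (z.1 i))) (z.1 i))
      rw [e]
      exact h1
    · have hz2' : z.2 = -(x.2 + y.2) := hz2
      change ε⁻¹ • (x.2 + y.2 + ε • y.2 + z.2) + z.2 = -x.2
      have e : x.2 + y.2 + ε • y.2 + z.2 = ε • y.2 := by rw [hz2']; abel
      rw [e, smul_smul, inv_mul_cancel₀ hεpos.ne', one_smul, hz2']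
      abel
  · rintro y hy ⟨hopp, hy2⟩
    have hc' : (0 : ℝ) < c := hc
    refine hx.2 _ (hC.sc_mem c⁻¹ (inv_pos.2 hc) y hy) ⟨fun i => ?_, ?_⟩
    · have h1 : Opp (sc (c : ℝ) (x.1 i)) (y.1 i) := hopp i
      have h2 := opp_sc (inv_pos.2 hc') h1
      rw [sc_sc, inv_mul_cancel₀ hc'.ne', sc_one] at h2
      have e : ((c⁻¹ : K) : ℝ) = (c : ℝ)⁻¹ := by simp
      change Opp (x.1 i) (sc ((c⁻¹ : K) : ℝ) (y.1 i))
      rw [e]
      exact h2
    · have hy2' : y.2 = -(c • x.2) := hy2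
      change c⁻¹ • y.2 = -x.2
      rw [hy2', smul_neg, smul_smul, inv_mul_cancel₀ hc.ne', one_smul]

theorem unP_act (hs : ∀ i g, 0 < s i g) {C : Set (Pt k V Z)}
    (hC : ∀ g, ∀ x ∈ C, actP semi s g x ∈ C) : ∀ g, ∀ x ∈ UnP C, actP semi s g x ∈ UnP C := by
  intro g x hx
  refine ⟨hC g x hx.1, ?_⟩
  rintro y hy ⟨hopp, hy2⟩
  refine hx.2 _ (hC g⁻¹ y hy) ⟨fun i => ?_, ?_⟩
  · have h1 : Opp (sc (s i g) (lat (semi i) g ∘ x.1 i)) (y.1 i) := hopp i
    have h2 := opp_sc (hs i g⁻¹) (opp_lat (semi i) g⁻¹ h1)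
    have e1 : lat (semi i) g⁻¹ ∘ lat (semi i) g ∘ x.1 i = x.1 i := by
      funext t
      simp only [Function.comp_apply]
      rw [← (act_lat (semi i)).mul, inv_mul_cancel, (act_lat (semi i)).one]
    rw [map_sc, sc_sc, ← map_mul, inv_mul_cancel, map_one, sc_one, e1] at h2
    exact h2
  · have hy2' : y.2 = -(g • x.2) := hy2
    change g⁻¹ • y.2 = -x.2
    rw [hy2', smul_neg, inv_smul_smul]

end Pool.Agent.P.MP_6990a0_al.VC
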