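import Pool.Agent.P.MP_6990a0_al.VG8
import Pool.Agent.P.MP_6990a0_al.VA6

namespace Pool.Agent.P.MP_6990a0_al.VC

open Classical

variable {k V : Type*} [Field k] [AddCommGroup V] [Module k V]
variable {Γ : Type*} [Group Γ] [MulSemiringAction Γ k] [DistribMulAction Γ V]
  (semi : ∀ (g : Γ) (c : k) (v : V), g • (c • v) = (g • c) • (g • v))

theorem DR_sub {K : Subfield ℝ} {D : Set (ℝ → Submodule k V)} (hD : KCone K D) :
    ∀ x ∈ D, x ∈ DR K D := by
  intro x hx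
  obtain ⟨n, b, w, hw, rfl⟩ := hD.pts x hx
  refine ⟨n, b, w, {1}, rfl, fun T hT => ?_⟩
  have h1 : (0 : ℝ) < (T 1 : ℝ) := hT 1 (Finset.mem_singleton_self 1) one_pos
  have h2 := hD.sc_mem _ (T 1).2 h1 _ hx
  rw [sc_chart _ _ h1] at h2
  have e : (fun i => (T (w i) : ℝ)) = (T 1 : ℝ) • w := by
    funext i
    have h3 : w i = (⟨w i, hw i⟩ : K) • (1 : ℝ) := by
      change w i = w i * 1
      rw [mul_one]
    rw [Pi.smul_apply, smul_eq_mul]
    conv_lhs => rw [h3, map_smul, smul_eq_mul]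
    push_cast
    ring
  rwa [e]

theorem vp3_fin {K : Subfield ℝ} {D : Set (ℝ → Submodule k V)} (hD : KCone K D)
    (hne : D.Nonempty) : FiniteDimensional k V := by
  obtain ⟨x, hx⟩ := hne
  obtain ⟨n, b, -⟩ := hD.pts x hx
  exact Module.Finite.of_basis b

theorem vp3_back {x x' : ℝ → Submodule k V} (h : ∀ t, ∃ t', x' t = x t')
    (φ : Submodule k V ≃o Submodule k V) (hx : φ ∘ x = x) : φ ∘ x' = x' := by
  funext t
  obtain ⟨t', ht⟩ := h t
  rw [Function.comp_apply, ht]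
  exact congrFun hx t'

theorem virtK {K : Subfield ℝ} {D : Set (ℝ → Submodule k V)} (hD : KCone K D) (hne : D.Nonempty)
    (hinv : ∀ g, ∀ x ∈ D, lat semi g ∘ x ∈ D) :
    ∃ H : Subgroup Γ, H.FiniteIndex ∧ ∃ x ∈ D, ∀ g ∈ H, lat semi g ∘ x = x := by
  haveI := vp3_fin hD hne
  obtain ⟨H, hH, x, hx, hfix⟩ := virt semi (DR_cone hD hne) (fun g => (lat semi g).map_top)
    (DR_lat semi hinv)
  obtain ⟨x', hx', hb⟩ := DR_back hx
  exact ⟨H, hH, x', hx', fun g hg => vp3_back hb _ (hfix g hg)⟩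

theorem solvK {K : Subfield ℝ} {D : Set (ℝ → Submodule k V)} (hD : KCone K D) (hne : D.Nonempty)
    (N : Subgroup Γ) [N.Normal] [N.FiniteIndex] (H : Subgroup Γ)
    (hH : IsSolvable (H.map (QuotientGroup.mk' N)))
    (hinv : ∀ g ∈ H, ∀ x ∈ D, lat semi g ∘ x ∈ D) (hN : ∀ g ∈ N, ∀ x ∈ D, lat semi g ∘ x = x) :
    ∃ x ∈ D, ∀ g ∈ H, lat semi g ∘ x = x := by
  haveI := vp3_fin hD hne
  let sH : ∀ (g : H) (c : k) (v : V), g • (c • v) = (g • c) • (g • v) :=
    fun g c v => semi g.1 c v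
  have hl : ∀ g : H, lat sH g = lat semi g.1 := fun g => rfl
  let φ : H →* H.map (QuotientGroup.mk' N) := (QuotientGroup.mk' N).subgroupMap H
  have hφ : ∀ g : H, φ g = 1 ↔ g ∈ N.subgroupOf H := fun g => by
    rw [Subgroup.mem_subgroupOf, ← QuotientGroup.eq_one_iff (N := N), Subtype.ext_iff]
    rfl
  haveI hH' : Group.IsSolvable (H.map (QuotientGroup.mk' N)) := hH
  haveI hq : Group.IsSolvable (H ⧸ N.subgroupOf H) := by
    refine Group.isSolvable_of_isSolvable_injective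
      (f := QuotientGroup.lift (N.subgroupOf H) φ fun g hg => (hφ g).2 hg) ?_
    refine (injective_iff_map_eq_one _).2 fun q => ?_
    induction q using QuotientGroup.induction_on with
    | H g =>
      intro hg
      exact (QuotientGroup.eq_one_iff g).2 ((hφ g).1 hg)
  obtain ⟨x0, hx0⟩ := hne
  obtain ⟨x, hx, hfix⟩ := solv_fix (fun S : Submodule k V => Module.finrank k S) rank_mono
    (DR_cone hD ⟨x0, hx0⟩) (lat sH) (act_lat sH) (fun g => (lat sH g).map_top)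
    (DR_lat sH fun g => hinv g.1 g.2) (N.subgroupOf H)
    ⟨x0, DR_sub hD x0 hx0, fun g hg => hN g.1 (Subgroup.mem_subgroupOf.1 hg) x0 hx0⟩ ⊤
    (inferInstance : Group.IsSolvable _)
  obtain ⟨x', hx', hb⟩ := DR_back hx
  exact ⟨x', hx', fun g hg => vp3_back hb _ (hfix ⟨g, hg⟩ (Subgroup.mem_top _))⟩

end Pool.Agent.P.MP_6990a0_al.VC
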