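import Pool.Agent.P.MP_6990a0_al.VPD
import Pool.Agent.P.MP_6990a0_al.VP1
import Pool.Agent.P.MP_6990a0_al.VP3

namespace Pool.Agent.P.MP_6990a0_al.VC

open Classical

variable {ι : Type*} {k V : ι → Type*} [∀ i, Field (k i)] [∀ i, AddCommGroup (V i)]
  [∀ i, Module (k i) (V i)] {K : Subfield ℝ} {Z : Type*} [AddCommGroup Z] [Module K Z]
variable {Γ : Type*} [Group Γ] [∀ i, MulSemiringAction Γ (k i)] [∀ i, DistribMulAction Γ (V i)]
  [DistribMulAction Γ Z]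
  (semi : ∀ (i : ι) (g : Γ) (c : k i) (v : V i), g • (c • v) = (g • c) • (g • v))
  (s : ι → Γ →* ℝ)

def vp4_fx (D : Set (Pt k V Z)) (M : Subgroup Γ) (J : Finset ι) : Set (Pt k V Z) :=
  {x | x ∈ D ∧ ∀ i ∈ J, ∀ g ∈ M, lat (semi i) g ∘ x.1 i = x.1 i}

theorem vp4_proj {D : Set (Pt k V Z)} (hD : PCone K D) (i : ι) :
    KCone K ((fun x : Pt k V Z => x.1 i) '' D) where
  pts := by
    rintro _ ⟨x, hx, rfl⟩
    exact hD.pts x hx i
  add_mem := by
    rintro _ ⟨x, hx, rfl⟩ _ ⟨y, hy, rfl⟩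
    exact ⟨addP x y, hD.add_mem x hx y hy, rfl⟩
  sc_mem := by
    rintro c hc h0 _ ⟨x, hx, rfl⟩
    exact ⟨scP (⟨c, hc⟩ : K) x, hD.sc_mem ⟨c, hc⟩ h0 x hx, rfl⟩

theorem vp4_proj_inv (hs : ∀ i g, 0 < s i g ∧ s i g ∈ K) {D : Set (Pt k V Z)} (hD : PCone K D)
    (i : ι) (g : Γ) (hg : ∀ x ∈ D, actP semi s g x ∈ D) :
    ∀ y ∈ (fun x : Pt k V Z => x.1 i) '' D,
      lat (semi i) g ∘ y ∈ (fun x : Pt k V Z => x.1 i) '' D := by
  rintro _ ⟨x, hx, rfl⟩
  have h0 : (0 : K) < ⟨(s i g)⁻¹, K.inv_mem (hs i g).2⟩ := by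
    rw [← Subtype.coe_lt_coe]
    exact inv_pos.2 (hs i g).1
  refine ⟨_, hD.sc_mem _ h0 _ (hg x hx), ?_⟩
  simp only [scP, actP]
  rw [sc_sc, inv_mul_cancel₀ (hs i g).1.ne', sc_one]

theorem vp4_cone {D : Set (Pt k V Z)} (hD : PCone K D) (M : Subgroup Γ) (J : Finset ι) :
    PCone K (vp4_fx semi D M J) where
  pts x hx := hD.pts x hx.1
  add_mem x hx y hy := ⟨hD.add_mem x hx.1 y hy.1, fun i hi g hg => by
    change lat (semi i) g ∘ add (x.1 i) (y.1 i) = add (x.1 i) (y.1 i)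
    rw [map_add', hx.2 i hi g hg, hy.2 i hi g hg]⟩
  sc_mem c hc x hx := ⟨hD.sc_mem c hc x hx.1, fun i hi g hg => by
    change lat (semi i) g ∘ sc (c : ℝ) (x.1 i) = sc (c : ℝ) (x.1 i)
    rw [map_sc, hx.2 i hi g hg]⟩

omit [Module K Z] in
theorem vp4_inv {D : Set (Pt k V Z)} (M : Subgroup Γ) (J : Finset ι) (h : Γ)
    (hM : ∀ g ∈ M, h⁻¹ * g * h ∈ M) (hh : ∀ x ∈ D, actP semi s h x ∈ D) :
    ∀ x ∈ vp4_fx semi D M J, actP semi s h x ∈ vp4_fx semi D M J := by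
  intro x hx
  refine ⟨hh x hx.1, fun i hi g hg => ?_⟩
  change lat (semi i) g ∘ sc (s i h) (lat (semi i) h ∘ x.1 i) = sc (s i h) (lat (semi i) h ∘ x.1 i)
  rw [map_sc]
  congr 1
  funext t
  have h1 := congrFun (hx.2 i hi _ (hM g hg)) t
  simp only [Function.comp_apply] at h1 ⊢
  rw [← (act_lat (semi i)).mul, show g * h = h * (h⁻¹ * g * h) by group,
    (act_lat (semi i)).mul, h1]

theorem vp4_one (hs : ∀ i g, 0 < s i g ∧ s i g ∈ K) {D : Set (Pt k V Z)}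
    (hD : PCone K D) (hne : D.Nonempty) (hinv : ∀ g, ∀ x ∈ D, actP semi s g x ∈ D)
    (J : Finset ι) : ∃ (N : Subgroup Γ) (_ : N.Normal), N.FiniteIndex ∧
      (vp4_fx semi D N J).Nonempty := by
  induction J using Finset.induction_on with
  | empty =>
    obtain ⟨x, hx⟩ := hne
    exact ⟨⊤, inferInstance, inferInstance, x, hx, fun i hi => absurd hi (by simp)⟩
  | insert i J _ ih =>
    obtain ⟨N, hN, hfi, hx⟩ := ih
    have hc := vp4_cone semi hD N J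
    obtain ⟨H, hH, _, ⟨x, hx, rfl⟩, hfix⟩ := virtK (semi i) (vp4_proj hc i) (hx.image _)
      fun g => vp4_proj_inv semi s hs hc i g
        (vp4_inv semi s N J g (fun a ha => by simpa using hN.conj_mem a ha g⁻¹) (hinv g))
    refine ⟨N ⊓ H.normalCore, inferInstance, inferInstance, x, hx.1, fun j hj g hg => ?_⟩
    rcases Finset.mem_insert.1 hj with rfl | hj
    · exact hfix g (H.normalCore_le hg.2)
    · exact hx.2 j hj g hg.1

theorem coreP [Finite ι] (hs : ∀ i g, 0 < s i g ∧ s i g ∈ K) {D : Set (Pt k V Z)}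
    (hD : PCone K D) (hne : D.Nonempty) (hinv : ∀ g, ∀ x ∈ D, actP semi s g x ∈ D) :
    ∃ (N : Subgroup Γ) (_ : N.Normal), N.FiniteIndex ∧ ∀ H : Subgroup Γ,
      IsSolvable (H.map (QuotientGroup.mk' N)) →
      ∃ x ∈ D, ∀ g ∈ H, ∀ i, lat (semi i) g ∘ x.1 i = x.1 i := by
  haveI := Fintype.ofFinite ι
  obtain ⟨N, hN, hfi, hne'⟩ := vp4_one semi s hs hD hne hinv Finset.univ
  refine ⟨N, hN, hfi, fun H hH => ?_⟩
  have hD' := vp4_cone semi hD N Finset.univ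
  have hinv' : ∀ g, ∀ x ∈ vp4_fx semi D N Finset.univ,
      actP semi s g x ∈ vp4_fx semi D N Finset.univ := fun g =>
    vp4_inv semi s N _ g (fun a ha => by simpa using hN.conj_mem a ha g⁻¹) (hinv g)
  have key : ∀ J : Finset ι, (vp4_fx semi (vp4_fx semi D N Finset.univ) H J).Nonempty := by
    intro J
    induction J using Finset.induction_on with
    | empty =>
      obtain ⟨x, hx⟩ := hne'
      exact ⟨x, hx, fun i hi => absurd hi (by simp)⟩
    | insert i J _ ih =>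
      have hc := vp4_cone semi hD' H J
      obtain ⟨_, ⟨x, hx, rfl⟩, hfix⟩ := solvK (semi i) (vp4_proj hc i) (ih.image _) N H hH
        (fun g hg => vp4_proj_inv semi s hs hc i g (vp4_inv semi s H J g
          (fun a ha => H.mul_mem (H.mul_mem (H.inv_mem hg) ha) hg) (hinv' g)))
        (by
          rintro g hg _ ⟨y, hy, rfl⟩
          exact hy.1.2 i (Finset.mem_univ _) g hg)
      refine ⟨x, hx.1, fun j hj g hg => ?_⟩
      rcases Finset.mem_insert.1 hj with rfl | hj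
      · exact hfix g hg
      · exact hx.2 j hj g hg
  obtain ⟨x, hx⟩ := key Finset.univ
  exact ⟨x, hx.1.1, fun g hg i => hx.2 i (Finset.mem_univ _) g hg⟩

end Pool.Agent.P.MP_6990a0_al.VC
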