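import Pool.Agent.P.MP_6990a0_al.VD

namespace Pool.Agent.P.MP_6990a0_al.VC

open Classical

variable {ι : Type*} {k V : ι → Type*} [∀ i, Field (k i)] [∀ i, AddCommGroup (V i)]
  [∀ i, Module (k i) (V i)] {K : Subfield ℝ} {Z : Type*} [AddCommGroup Z] [Module K Z]
variable {Γ : Type*} [Group Γ] [∀ i, MulSemiringAction Γ (k i)] [∀ i, DistribMulAction Γ (V i)]
  [DistribMulAction Γ Z]
  (semi : ∀ (i : ι) (g : Γ) (c : k i) (v : V i), g • (c • v) = (g • c) • (g • v))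
  (s : ι → Γ →* ℝ)

abbrev Pt (k V : ι → Type*) [∀ i, Field (k i)] [∀ i, AddCommGroup (V i)]
    [∀ i, Module (k i) (V i)] (Z : Type*) := (∀ i, ℝ → Submodule (k i) (V i)) × Z

def addP (x y : Pt k V Z) : Pt k V Z := (fun i => add (x.1 i) (y.1 i), x.2 + y.2)

noncomputable def scP (c : K) (x : Pt k V Z) : Pt k V Z := (fun i => sc (c : ℝ) (x.1 i), c • x.2)

noncomputable def actP (g : Γ) (x : Pt k V Z) : Pt k V Z :=
  (fun i => sc (s i g) (lat (semi i) g ∘ x.1 i), g • x.2)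

structure PCone (K : Subfield ℝ) [Module K Z] (D : Set (Pt k V Z)) : Prop where
  pts : ∀ x ∈ D, ∀ i, ∃ (n : ℕ) (b : Module.Basis (Fin n) (k i) (V i)) (w : Fin n → ℝ),
    (∀ j, w j ∈ K) ∧ x.1 i = chart (k i) b w
  add_mem : ∀ x ∈ D, ∀ y ∈ D, addP x y ∈ D
  sc_mem : ∀ c : K, 0 < c → ∀ x ∈ D, scP c x ∈ D

def UnP (C : Set (Pt k V Z)) : Set (Pt k V Z) :=
  {x | x ∈ C ∧ ∀ y ∈ C, ¬ ((∀ i, Opp (x.1 i) (y.1 i)) ∧ y.2 = -x.2)}

end Pool.Agent.P.MP_6990a0_al.VC
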