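import Pool.Agent.P.MP_6990a0_al.VL3

namespace Pool.Agent.P.MP_6990a0_al.VC

open Classical

variable {L : Type*} [CompleteLattice L]

theorem vt2_iter_mem {D : Set (ℝ → L)} (φ : L ≃o L) (hφ : ∀ x ∈ D, φ ∘ x ∈ D) {x : ℝ → L}
    (hx : x ∈ D) (n : ℕ) : φ^[n] ∘ x ∈ D := by
  induction n with
  | zero => simpa using hx
  | succ n ih =>
    rw [Function.iterate_succ']
    exact hφ _ ih

theorem vt2_mul {x : ℝ → L} (φ : L ≃o L) (p : ℕ) (h : φ^[p] ∘ x = x) (k : ℕ) :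
    φ^[p * k] ∘ x = x := by
  induction k with
  | zero => simp
  | succ k ih =>
    rw [Nat.mul_succ, Function.iterate_add, Function.comp_assoc, h, ih]

theorem vt2_mod {x : ℝ → L} (φ : L ≃o L) (p : ℕ) (h : φ^[p] ∘ x = x) (n : ℕ) :
    φ^[n % p] ∘ x = φ^[n] ∘ x := by
  conv_rhs => rw [← Nat.mod_add_div n p]
  rw [Function.iterate_add, Function.comp_assoc, vt2_mul φ p h]

theorem vt2_succ {x : ℝ → L} (φ : L ≃o L) (p : ℕ) [NeZero p] (h : φ^[p] ∘ x = x) (a : ZMod p) :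
    φ^[(a + 1).val] ∘ x = φ ∘ (φ^[a.val] ∘ x) := by
  rw [ZMod.val_add, ZMod.val_one_eq_one_mod, Nat.add_mod_mod, vt2_mod φ p h,
    Function.iterate_succ']
  rfl

theorem vt2_sm_zero (W : L) (x : ℝ → L) : sm W 0 x = zero W := by
  simp [sm]

theorem smith_fun {W : L} {D : Set (ℝ → L)} (hD : Cone W D) (N p : ℕ) [NeZero p] (φ : L ≃o L)
    (hφW : φ W = W) (hφ : ∀ x ∈ D, φ ∘ x ∈ D) (hord : ∀ x ∈ D, φ^[p] ∘ x = x) :
    ∃ f : (Fin (N + 1) × ZMod p → ℝ) → ℝ → L, Lip f ∧ (∀ v, Filt W (f v)) ∧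
      (∀ v ∈ stdSimplex ℝ (Fin (N + 1) × ZMod p), f v ∈ D) ∧
      ∀ v, (∀ z z', v z ≠ 0 → v z' ≠ 0 → z.1 = z'.1 → z = z') →
        f (fun z => v (z.1, z.2 - 1)) = φ ∘ f v := by
  obtain ⟨x, hx⟩ := hD.ne
  have hX : ∀ a : ZMod p, φ^[a.val] ∘ x ∈ D := fun a => vt2_iter_mem φ hφ hx _
  let inner : Fin (N + 1) → (Fin (N + 1) × ZMod p → ℝ) → ℝ → L := fun j v =>
    sumL W ((Finset.univ : Finset (ZMod p)).toList.map fun a => sm W (v (j, a)) (φ^[a.val] ∘ x))
  have hin : ∀ j v, (inner j v ∈ D ∨ inner j v = zero W) ∧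
      ((∃ a, 0 < v (j, a)) → inner j v ∈ D) := by
    intro j v
    have h1 := sumL_mem hD ((Finset.univ : Finset (ZMod p)).toList.map
      fun a => sm W (v (j, a)) (φ^[a.val] ∘ x)) (by
        intro y hy
        obtain ⟨a, -, rfl⟩ := List.mem_map.1 hy
        exact (sm_mem hD (hX a) _).1)
    refine ⟨h1.1, fun ⟨a, ha⟩ => h1.2 ⟨_, List.mem_map.2 ⟨a, by simp, rfl⟩, ?_⟩⟩
    exact (sm_mem hD (hX a) _).2 ha
  have hout : ∀ v, (sumL W ((List.finRange (N + 1)).map fun j => inner j v) ∈ D ∨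
      sumL W ((List.finRange (N + 1)).map fun j => inner j v) = zero W) ∧
      ((∃ z, 0 < v z) → sumL W ((List.finRange (N + 1)).map fun j => inner j v) ∈ D) := by
    intro v
    have h1 := sumL_mem hD ((List.finRange (N + 1)).map fun j => inner j v) (by
        intro y hy
        obtain ⟨j, -, rfl⟩ := List.mem_map.1 hy
        exact (hin j v).1)
    refine ⟨h1.1, fun ⟨z, hz⟩ => h1.2 ⟨_, List.mem_map.2 ⟨z.1, by simp, rfl⟩, ?_⟩⟩
    exact (hin z.1 v).2 ⟨z.2, hz⟩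
  have hfs : ∀ (s : ℝ) (a : ZMod p), Filt W (sm W s (φ^[a.val] ∘ x)) := by
    intro s a
    rcases (sm_mem hD (hX a) s).1 with h | h
    · exact hD.filt _ h
    · rw [h]; exact filt_zero W
  have hsingle : ∀ j v a0, (∀ a, a ≠ a0 → v (j, a) = 0) →
      inner j v = sm W (v (j, a0)) (φ^[a0.val] ∘ x) := by
    intro j v a0 h
    refine sumL_single _ (Finset.nodup_toList _)
      (fun a => sm W (v (j, a)) (φ^[a.val] ∘ x)) a0 (by simp) (hfs _ _) ?_
    intro a _ ha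
    show sm W (v (j, a)) (φ^[a.val] ∘ x) = zero W
    rw [h a ha, vt2_sm_zero]
  refine ⟨fun v => sumL W ((List.finRange (N + 1)).map fun j => inner j v), ?_, ?_, ?_, ?_⟩
  · refine lip_sumL W _ inner fun j _ => ?_
    exact lip_sumL W _ (fun a v => sm W (v (j, a)) (φ^[a.val] ∘ x))
      fun a _ => lip_sm (hD.filt _ (hX a)) (j, a)
  · intro v
    rcases (hout v).1 with h | h
    · exact hD.filt _ h
    · show Filt W (sumL W ((List.finRange (N + 1)).map fun j => inner j v))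
      rw [h]; exact filt_zero W
  · intro v hv
    refine (hout v).2 ?_
    by_contra hne
    push Not at hne
    have h0 : ∑ z, v z ≤ 0 := Finset.sum_nonpos fun z _ => hne z
    rw [hv.2] at h0
    norm_num at h0
  · intro v hv
    show sumL W ((List.finRange (N + 1)).map fun j => inner j fun z => v (z.1, z.2 - 1)) =
      φ ∘ sumL W ((List.finRange (N + 1)).map fun j => inner j v)
    rw [map_sumL φ hφW, List.map_map]
    congr 1
    refine List.map_congr_left fun j _ => ?_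
    have hex : ∃ a0 : ZMod p, ∀ a, a ≠ a0 → v (j, a) = 0 := by
      by_cases h : ∃ a, v (j, a) ≠ 0
      · obtain ⟨a0, h0⟩ := h
        refine ⟨a0, fun a ha => ?_⟩
        by_contra h1
        exact ha (Prod.ext_iff.1 (hv (j, a) (j, a0) h1 h0 rfl)).2
      · push Not at h
        exact ⟨0, fun a _ => h a⟩
    obtain ⟨a0, h0⟩ := hex
    show inner j (fun z => v (z.1, z.2 - 1)) = φ ∘ inner j v
    have h1 := hsingle j (fun z => v (z.1, z.2 - 1)) (a0 + 1) (by
      intro a ha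
      exact h0 _ fun h => ha (by rw [← h]; simp))
    rw [h1, hsingle j v a0 h0, map_sm φ hφW, vt2_succ φ p (hord x hx)]
    simp

end Pool.Agent.P.MP_6990a0_al.VC
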