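import Pool.Agent.P.MP_6990a0_al.VC3
import Pool.Agent.P.MP_6990a0_al.VC5
import Pool.Agent.P.MP_6990a0_al.VC7
import Pool.Agent.P.MP_6990a0_al.VT2

namespace Pool.Agent.P.MP_6990a0_al.VC

open Classical

variable {L : Type*} [CompleteLattice L]

theorem vt3_supp {ι : Type*} [DecidableEq ι] (l : List ι) {u : ι → ℝ}
    (hu : u ∈ hullL (l.map fun z => (Pi.single z 1 : ι → ℝ))) {z : ι} (hz : u z ≠ 0) : z ∈ l := by
  by_contra hn
  apply hz
  have hc : Convex ℝ {u : ι → ℝ | u z = 0} := by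
    intro a ha b hb s t _ _ _
    simp only [Set.mem_ofPred_eq] at ha hb ⊢
    simp [ha, hb]
  refine convexHull_min (t := {u : ι → ℝ | u z = 0}) ?_ hc hu
  intro v hv
  obtain ⟨w, hw, rfl⟩ := List.mem_map.1 hv
  have : z ≠ w := fun h => hn (h ▸ hw)
  simp [Pi.single_eq_of_ne this]

theorem vt3_rho {α β : Type*} (A : Ch α →+ Ch β) (g : α → α) (g' : β → β) (P : List α → Prop)
    (hP : ∀ l, P l → P (l.map g)) (h : ∀ l, P l → A (mp g (ofL l)) = mp g' (A (ofL l)))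
    (p q : ℕ) {z : Ch α} (hz : z ∈ Sp P) : A (rho g p q z) = rho g' p q (A z) := by
  have h1 : ∀ z ∈ Sp P, A (mp g z) = mp g' (A z) := fun z hz =>
    Sp_ext (A.comp (mp g)) ((mp g').comp A) h hz
  have h2 : ∀ z ∈ Sp P, mp g z ∈ Sp P := fun z hz =>
    Sp_map (mp g) (Sp P) (fun l hl => by rw [mp_ofL]; exact ofL_mem (hP l hl)) hz
  have h3 : ∀ i : ℕ, ∀ z ∈ Sp P, A (mp (g^[i]) z) = mp (g'^[i]) (A z) := by
    intro i
    induction i with
    | zero => intro z _; simp only [Function.iterate_zero, mp_id]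
    | succ i ih =>
      intro z hz
      rw [Function.iterate_succ, Function.iterate_succ, ← mp_mp, ← mp_mp, ih _ (h2 z hz), h1 z hz]
  rw [rho_apply, rho_apply]
  split_ifs
  · rw [map_sub, h1 z hz]
  · rw [map_sum]
    exact Finset.sum_congr rfl fun i _ => h3 i z hz

theorem smith_bot (r : L → ℕ) (hr : StrictMono r) {W : L} (hW : W ≠ ⊥) {D : Set (ℝ → L)}
    (hD : Cone W D) (p : ℕ) (hp : p.Prime) (φ : L ≃o L) (hφW : φ W = W)
    (hφ : ∀ x ∈ D, φ ∘ x ∈ D) (hord : ∀ x ∈ D, φ^[p] ∘ x = x) :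
    ∃ B ∈ bots W D, φ B = B := by
  by_contra hcon
  have : NeZero p := ⟨hp.ne_zero⟩
  have hit : ∀ i : ℕ, ∀ x ∈ D, φ^[i] ∘ x ∈ D ∧ bot W (φ^[i] ∘ x) = φ^[i] (bot W x) := by
    intro i
    induction i with
    | zero => intro x hx; exact ⟨hx, rfl⟩
    | succ i ih =>
      intro x hx
      have e : φ^[i + 1] ∘ x = φ ∘ (φ^[i] ∘ x) := by
        rw [Function.iterate_succ']
        rfl
      rw [e, bot_map φ hφW, (ih x hx).2, Function.iterate_succ_apply']
      exact ⟨hφ _ (ih x hx).1, rfl⟩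
  have hsymm : ∀ x ∈ D, φ.symm ∘ x ∈ D := by
    intro x hx
    obtain ⟨n, hn⟩ : ∃ n, p = n + 1 := ⟨p - 1, by have := hp.pos; omega⟩
    have e : φ.symm ∘ x = φ^[n] ∘ x := by
      funext t
      have h1 := congrFun (hord x hx) t
      rw [hn, Function.iterate_succ'] at h1
      simp only [Function.comp_apply] at h1 ⊢
      rw [OrderIso.symm_apply_eq]
      exact h1.symm
    rw [e]
    exact (hit n x hx).1
  have hB := bots_map φ hφW hφ hsymm
  obtain ⟨f, hlip, hF, hfD, hnat⟩ := smith_fun hD (r W) p φ hφW hφ hord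
  obtain ⟨r0, hr0⟩ := carrier r hr W (bots W D) (bots_sup r hr hW hD) (fun v => bot W (f v))
    (fun v hv => ⟨⟨_, hfD v hv, rfl⟩, bots_spec r hr hW hD ⟨_, hfD v hv, rfl⟩⟩)
    (fun v => usc_of_lip r hr hW f hlip hF v) (r W + 1)
  let e : Fin (r W + 1) × ZMod p → (Fin (r W + 1) × ZMod p → ℝ) := fun z => Pi.single z 1
  let T : (Fin (r W + 1) × ZMod p → ℝ) →ₗ[ℝ] (Fin (r W + 1) × ZMod p → ℝ) :=
    LinearMap.funLeft ℝ ℝ fun z => (z.1, z.2 - 1)
  have hT : (T : _ → _) ∘ e = e ∘ sh (r W) p := by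
    funext z w
    simp only [T, e, sh, Function.comp_apply, LinearMap.funLeft_apply, Pi.single_apply,
      Prod.ext_iff, sub_eq_iff_eq_add]
  let A : ℕ → (Ch (Fin (r W + 1) × ZMod p) →+ Ch L) := fun n =>
    (Psi (bots W D) (fun v => bot W (f v)) r0 n).comp (mp e)
  let P : ℕ → List (Fin (r W + 1) × ZMod p) → Prop := fun n l =>
    l.length = n ∧ (l.map Prod.fst).Nodup
  have hP : ∀ n l, P n l → P n (l.map (sh (r W) p)) := by
    intro n l hl
    refine ⟨by rw [List.length_map]; exact hl.1, ?_⟩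
    rw [List.map_map]
    exact hl.2
  have hA : ∀ n l, P n l → A n (mp (sh (r W) p) (ofL l)) = mp φ (A n (ofL l)) := by
    intro n l hl
    have h1 := Psi_nat (bots W D) (fun v => bot W (f v)) φ hB T r0 (l.map e) (fun u hu => by
      have h2 := hnat u fun z z' hz hz' hzz =>
        List.inj_on_of_nodup_map hl.2 (vt3_supp l hu hz) (vt3_supp l hu hz') hzz
      change bot W (f fun z => u (z.1, z.2 - 1)) = _
      rw [h2, bot_map φ hφW])
    rw [List.length_map, hl.1, ← mp_ofL, mp_mp, hT, ← mp_mp] at h1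
    exact h1
  have hsrc : ∀ q, q ≤ r W → src (r W) p q ∈ Sp (P (q + 1)) := fun q hq =>
    Sp_mono (fun l hl => ⟨hl.1, hl.2.1⟩) (src_mem (r W) p q hq)
  have hmem : ∀ q, q ≤ r W → A (q + 1) (src (r W) p q) ∈ Sp (fun m : List L =>
      m.length = q + 1 ∧ m.Pairwise (· ≤ ·) ∧ ∀ B ∈ m, B ∈ bots W D) := by
    intro q hq
    refine Sp_map (A (q + 1)) _ (fun l hl => ?_) (hsrc q hq)
    have h1 := hr0 (l.map e) (by rw [List.length_map, hl.1]; omega) (fun u hu => by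
      obtain ⟨z, _, rfl⟩ := List.mem_map.1 hu
      exact single_mem_stdSimplex ℝ z)
    rw [List.length_map, hl.1, ← mp_ofL] at h1
    exact Sp_mono (fun m hm => ⟨hm.1, hm.2.1, fun B hB => (hm.2.2 B hB).1⟩) h1
  have hbd : ∀ q, q ≤ r W → bd (nm (A (q + 1) (src (r W) p q)))
      = nm (A q (bd (src (r W) p q))) := by
    intro q hq
    rw [nm_bd (Sp_mono (fun m hm => hm.2.1) (hmem q hq))]
    simp only [A, AddMonoidHom.comp_apply]
    rw [bd_Psi, bd_mp]
  refine smith_alg φ p hp (bots W D) (fun B hB' => (hB B).1 hB') ?_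
    (fun B hB' h => hcon ⟨B, hB', h⟩) (r W) (fun q => nm (A (q + 1) (src (r W) p q)))
    (fun q hq => nm_mem (Sp_mono (fun m hm => ⟨hm.1, hm.2.2⟩) (hmem q hq))) ?_ ?_ ?_
  · rintro B ⟨x, hx, rfl⟩
    rw [← (hit p x hx).2, hord x hx]
  · rw [hbd 0 (Nat.zero_le _), bd_src_zero]
    simp only [A, AddMonoidHom.comp_apply]
    rw [mp_ofL, List.map_nil, Psi_zero, nm_ofL, if_pos List.nodup_nil]
  · intro q hq
    rw [hbd (q + 1) hq, bd_src_succ _ _ hp.pos,
      vt3_rho (A (q + 1)) (sh (r W) p) φ (P (q + 1)) (hP _) (hA _) p q (hsrc q hq.le),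
      nm_rho _ φ.injective]
  · refine nm_zero (Sp_mono (fun m hm => ?_) (hmem (r W) le_rfl))
    exact not_nodup r hr W m hm.2.1 (fun B hB' => bots_spec r hr hW hD (hm.2.2 B hB'))
      (by rw [hm.1]; omega)

end Pool.Agent.P.MP_6990a0_al.VC
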