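import Pool.Agent.P.MP_6990a0_al.VT3

namespace Pool.Agent.P.MP_6990a0_al.VC

open Classical

variable {L : Type*} [CompleteLattice L]

theorem vt4_iter (φ : L ≃o L) (m : ℕ) : ∃ ψ : L ≃o L, (ψ : L → L) = φ^[m] := by
  induction m with
  | zero => exact ⟨OrderIso.refl L, rfl⟩
  | succ m ih =>
    obtain ⟨ψ, h⟩ := ih
    refine ⟨φ.trans ψ, ?_⟩
    funext a
    rw [OrderIso.trans_apply, h, Function.iterate_succ_apply]

theorem vt4_mem {D : Set (ℝ → L)} (φ : L ≃o L) (hφ : ∀ x ∈ D, φ ∘ x ∈ D) (m : ℕ) :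
    ∀ x ∈ D, φ^[m] ∘ x ∈ D := by
  induction m with
  | zero => intro x hx; simpa using hx
  | succ m ih =>
    intro x hx
    rw [Function.iterate_succ, Function.comp_assoc]
    exact ih _ (hφ x hx)

theorem vt4_smith (r : L → ℕ) (hr : StrictMono r) (p : ℕ) (hp : p.Prime) (φ : L ≃o L) :
    ∀ (N : ℕ) (W : L) (D : Set (ℝ → L)), r W = N → Cone W D → φ W = W →
      (∀ x ∈ D, φ ∘ x ∈ D) → (∀ x ∈ D, φ^[p] ∘ x = x) → ∃ x ∈ D, φ ∘ x = x := by
  intro N
  induction N using Nat.strong_induction_on with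
  | _ N ih =>
    intro W D hN hD hφW hφ hord
    by_cases hW : W = ⊥
    · obtain ⟨x, hx⟩ := hD.ne
      refine ⟨x, hx, fixed_of_filt_bot ?_ φ⟩
      rw [← hW]
      exact hD.filt x hx
    obtain ⟨B, hB, hφB⟩ := smith_bot r hr hW hD p hp φ hφW hφ hord
    obtain ⟨hle, hne⟩ := bots_spec r hr hW hD hB
    have hlt : r B < N := hN ▸ hr (lt_of_le_of_ne hle hne)
    obtain ⟨ψ, hψ⟩ := vt4_iter φ p
    have hord' : ∀ y ∈ resD W B D, φ^[p] ∘ y = y := by
      rintro y ⟨x, hx, -, rfl⟩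
      funext t
      have h1 : ψ (x t) = x t := by
        rw [hψ]
        exact congrFun (hord x hx) t
      have h2 : ψ B = B := by
        rw [hψ]
        exact Function.iterate_fixed hφB p
      show φ^[p] (x t ⊓ B) = x t ⊓ B
      rw [← hψ, ψ.map_inf, h1, h2]
    obtain ⟨y, ⟨x, hx, hxB, rfl⟩, hy⟩ := ih (r B) hlt B (resD W B D) rfl
      (resD_cone r hr hW hD hB) hφB (resD_map φ hφW hφB hφ) hord'
    exact ⟨x, hx, fixed_of_res φ hφW hxB hy⟩

theorem smith_fix (r : L → ℕ) (hr : StrictMono r) {W : L} {D : Set (ℝ → L)}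
    (hD : Cone W D) (p : ℕ) (hp : p.Prime) (φ : L ≃o L) (hφW : φ W = W)
    (hφ : ∀ x ∈ D, φ ∘ x ∈ D) (hord : ∀ x ∈ D, φ^[p] ∘ x = x) : ∃ x ∈ D, φ ∘ x = x := by
  exact vt4_smith r hr p hp φ (r W) W D rfl hD hφW hφ hord

theorem cyc_fix (r : L → ℕ) (hr : StrictMono r) {W : L} {D : Set (ℝ → L)}
    (hD : Cone W D) (n : ℕ) (hn : 0 < n) (φ : L ≃o L) (hφW : φ W = W)
    (hφ : ∀ x ∈ D, φ ∘ x ∈ D) (hord : ∀ x ∈ D, φ^[n] ∘ x = x) : ∃ x ∈ D, φ ∘ x = x := by
  induction n using Nat.strong_induction_on generalizing D with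
  | _ n ih =>
    by_cases h1 : n = 1
    · obtain ⟨x, hx⟩ := hD.ne
      refine ⟨x, hx, ?_⟩
      have := hord x hx
      rwa [h1, Function.iterate_one] at this
    have hp : n.minFac.Prime := Nat.minFac_prime h1
    obtain ⟨m, hm⟩ := Nat.minFac_dvd n
    have hm0 : 0 < m := by
      rcases Nat.eq_zero_or_pos m with h | h
      · rw [h, mul_zero] at hm; omega
      · exact h
    have hmn : m < n := by
      have := hp.two_le
      nlinarith
    obtain ⟨ψ, hψ⟩ := vt4_iter φ m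
    have hψW : ψ W = W := by
      rw [hψ]
      exact Function.iterate_fixed hφW m
    have hψD : ∀ x ∈ D, ψ ∘ x ∈ D := by
      rw [hψ]
      exact vt4_mem φ hφ m
    have hψo : ∀ x ∈ D, ψ^[n.minFac] ∘ x = x := by
      intro x hx
      rw [hψ, ← Function.iterate_mul, mul_comm, ← hm]
      exact hord x hx
    obtain ⟨x0, hx0, hfix⟩ := smith_fix r hr hD n.minFac hp ψ hψW hψD hψo
    have hne : (Fix (fun _ : Unit => ψ) D Set.univ).Nonempty := ⟨x0, hx0, fun _ _ => hfix⟩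
    have hφ' : ∀ x ∈ Fix (fun _ : Unit => ψ) D Set.univ,
        φ ∘ x ∈ Fix (fun _ : Unit => ψ) D Set.univ := by
      rintro x ⟨hx, hf⟩
      refine ⟨hφ x hx, fun _ _ => ?_⟩
      have h := hf () (Set.mem_univ _)
      funext t
      have ht : ψ (x t) = x t := congrFun h t
      show ψ (φ (x t)) = φ (x t)
      rw [hψ] at ht ⊢
      rw [← Function.iterate_succ_apply, Function.iterate_succ_apply', ht]
    have hord' : ∀ x ∈ Fix (fun _ : Unit => ψ) D Set.univ, φ^[m] ∘ x = x := by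
      rintro x ⟨hx, hf⟩
      rw [← hψ]
      exact hf () (Set.mem_univ _)
    obtain ⟨x, hx, hf⟩ := ih m hmn (fix_cone _ hD Set.univ hne) hm0 hφ' hord'
    exact ⟨x, hx.1, hf⟩

end Pool.Agent.P.MP_6990a0_al.VC
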