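import Pool.Agent.P.MP_6990a0_al.ETop

open Pool.Agent Pool.Agent.Edif

universe u v

namespace Pool.Agent.P.MP_6990a0_al.VariantReductiveCentre

/-- Virtual strong centre theorem in the vector edifice `V_G(K)` of a connected reductive group
`G = Spec A` over a field `k`. -/
theorem result (k : Type u) [Field k] (A : Type u) [CommRing A] [HopfAlgebra k A]
    (hA : RG.IsReductive k A) (K : Subfield ℝ) (C : Set (Ed k A K))
    (conv : ∀ x ∈ C, ∀ y ∈ C, ∃ T v w, x = apt T v ∧ y = apt T w ∧ apt T '' segment K v w ⊆ C)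
    (cone : ∀ T v (c : K), 0 < c → apt T v ∈ C → apt T (c • v) ∈ C)
    (noncr : ∃ x ∈ C, ∀ y ∈ C, ¬ Opp x y)
    (Γ : Type v) [Group Γ] [MulAction Γ (Ed k A K)] (aut : ∀ γ : Γ, AptLin (γ • · : Ed k A K → _))
    (stab : ∀ γ : Γ, (γ • ·) '' C = C) :
    ∃ (N : Subgroup Γ) (_ : N.Normal), N.FiniteIndex ∧ ∀ H : Subgroup Γ,
      Group.IsSolvable (H.map (QuotientGroup.mk' N)) →
      ∃ x ∈ C, (∀ T, x ≠ apt T 0) ∧ (∀ y ∈ C, ¬ Opp x y) ∧
        ∀ γ ∈ H, (γ • ·) '' facet x = facet x :=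
  top k A hA K C conv cone noncr Γ aut stab

/-- The case of a subgroup `Γ` of the group of bijections of `V_G(K)`. -/
theorem subgroup (k : Type u) [Field k] (A : Type u) [CommRing A] [HopfAlgebra k A]
    (hA : RG.IsReductive k A) (K : Subfield ℝ) (C : Set (Ed k A K))
    (conv : ∀ x ∈ C, ∀ y ∈ C, ∃ T v w, x = apt T v ∧ y = apt T w ∧ apt T '' segment K v w ⊆ C)
    (cone : ∀ T v (c : K), 0 < c → apt T v ∈ C → apt T (c • v) ∈ C)
    (noncr : ∃ x ∈ C, ∀ y ∈ C, ¬ Opp x y)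
    (Γ : Subgroup (Equiv.Perm (Ed k A K))) (aut : ∀ κ ∈ Γ, AptLin κ)
    (stab : ∀ κ ∈ Γ, κ '' C = C) :
    ∃ (N : Subgroup Γ) (_ : N.Normal), N.FiniteIndex ∧ ∀ H : Subgroup Γ,
      Group.IsSolvable (H.map (QuotientGroup.mk' N)) →
      ∃ x ∈ C, (∀ T, x ≠ apt T 0) ∧ (∀ y ∈ C, ¬ Opp x y) ∧
        ∀ κ ∈ H, κ.1 '' facet x = facet x :=
  result k A hA K C conv cone noncr Γ (fun κ => aut κ.1 κ.2) fun κ => stab κ.1 κ.2

end Pool.Agent.P.MP_6990a0_al.VariantReductiveCentre
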