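import Pool.Agent.P.MP_6990a0_al.VP2
import Pool.Agent.P.MP_6990a0_al.VP4

namespace Pool.Agent.P.MP_6990a0_al.VariantVirtualCentre

open Pool.Agent.P.MP_6990a0_al.VC

theorem result {ι : Type} [Finite ι] (k V : ι → Type) [∀ i, Field (k i)]
    [∀ i, AddCommGroup (V i)] [∀ i, Module (k i) (V i)]
    (K : Subfield ℝ) (Z : Type) [AddCommGroup Z] [Module K Z]
    (Γ : Type) [Group Γ] [∀ i, MulSemiringAction Γ (k i)] [∀ i, DistribMulAction Γ (V i)]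
    [DistribMulAction Γ Z]
    (semi : ∀ (i : ι) (g : Γ) (c : k i) (v : V i), g • (c • v) = (g • c) • (g • v))
    (s : ι → Γ →* ℝ) (hs : ∀ i g, 0 < s i g ∧ s i g ∈ K)
    (C : Set ((∀ i, ℝ → Submodule (k i) (V i)) × Z))
    (pts : ∀ x ∈ C, ∀ i, ∃ (n : ℕ) (b : Module.Basis (Fin n) (k i) (V i)) (w : Fin n → K),
      x.1 i = chart (k i) b fun j => (w j : ℝ))
    (conv : ∀ (n : ι → ℕ) (b : ∀ i, Module.Basis (Fin (n i)) (k i) (V i)),
      Convex K {p : (∀ i, Fin (n i) → K) × Z |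
        (fun i => chart (k i) (b i) fun j => (p.1 i j : ℝ), p.2) ∈ C})
    (cone : ∀ (n : ι → ℕ) (b : ∀ i, Module.Basis (Fin (n i)) (k i) (V i)) (c : K), 0 < c →
      ∀ p : (∀ i, Fin (n i) → K) × Z,
        (fun i => chart (k i) (b i) fun j => (p.1 i j : ℝ), p.2) ∈ C →
        (fun i => chart (k i) (b i) fun j => ((c • p).1 i j : ℝ), (c • p).2) ∈ C)
    (stab : ∀ g : Γ, ∀ x ∈ C, ∃ y ∈ C, y.2 = g • x.2 ∧ ∀ i t,
      (y.1 i (s i g * t) : Set (V i)) = (fun v => g • v) '' (x.1 i t : Set (V i)))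
    (noncr : ∃ x ∈ C, ∀ y ∈ C, ¬ ((∀ i, Opp (x.1 i) (y.1 i)) ∧ y.2 = -x.2)) :
    ∃ (N : Subgroup Γ) (_ : N.Normal), N.FiniteIndex ∧ ∀ H : Subgroup Γ,
      IsSolvable (H.map (QuotientGroup.mk' N)) →
      ∃ x ∈ C, (∀ y ∈ C, ¬ ((∀ i, Opp (x.1 i) (y.1 i)) ∧ y.2 = -x.2)) ∧
        ¬ ((∀ i, ∃ (n : ℕ) (b : Module.Basis (Fin n) (k i) (V i)), x.1 i = chart (k i) b 0) ∧
          x.2 = 0) ∧
        ∀ g ∈ H, ∀ i t, (fun v => g • v) '' (x.1 i t : Set (V i)) = (x.1 i t : Set (V i)) := by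
  have hC : PCone K C := pcone_of pts conv cone
  have hst : ∀ g, ∀ x ∈ C, actP semi s g x ∈ C := by
    intro g x hx
    obtain ⟨y, hy, h2, h⟩ := stab g x hx
    have : actP semi s g x = y := by
      refine Prod.ext ?_ h2.symm
      funext i t
      apply SetLike.coe_injective
      have h3 := h i (t / s i g)
      rw [mul_div_cancel₀ _ (hs i g).1.ne'] at h3
      rw [h3]
      exact coe_lat (semi i) g (x.1 i (t / s i g))
    rw [this]; exact hy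
  obtain ⟨x0, hx0, hx0'⟩ := noncr
  obtain ⟨N, hN, hfi, hH⟩ := coreP semi s hs (unP_cone hC) ⟨x0, hx0, hx0'⟩
    (unP_act semi s (fun i g => (hs i g).1) hst)
  refine ⟨N, hN, hfi, fun H hsol => ?_⟩
  obtain ⟨x, hx, hfix⟩ := hH H hsol
  refine ⟨x, hx.1, hx.2, ?_, ?_⟩
  · rintro ⟨h1, h2⟩
    refine hx.2 x hx.1 ⟨fun i => ?_, by rw [h2, neg_zero]⟩
    obtain ⟨n, b, h⟩ := h1 i
    exact ⟨n, b, 0, h, by rw [neg_zero]; exact h⟩
  · intro g hg i t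
    rw [← coe_lat (semi i) g (x.1 i t)]
    exact congrArg _ (congrFun (hfix g hg i) t)

end Pool.Agent.P.MP_6990a0_al.VariantVirtualCentre
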